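import Mathlib

set_option autoImplicit false

namespace Pool.Agent.Work.MP_c04246_lc

/-- Propositional formulas over the variables `V` with counting connectives modulo `p`.
`bin true` is the disjunction, `bin false` is the conjunction, `mod i k f` is the connective
`MOD_{p,i}` applied to the `k` formulas `f 0, ..., f (k-1)`. -/
inductive Fml (p : ℕ) (V : Type) : Type
  | var : V → Fml p V
  | cst : Bool → Fml p V
  | neg : Fml p V → Fml p V
  | bin : Bool → Fml p V → Fml p V → Fml p V
  | mod : ZMod p → (k : ℕ) → (Fin k → Fml p V) → Fml p V

namespace Fml

variable {p : ℕ} {V : Type}

/-- truth value under an assignment -/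
def eval (v : V → Bool) : Fml p V → Bool
  | var x => v x
  | cst b => b
  | neg a => !(eval v a)
  | bin c a b => if c then (eval v a || eval v b) else (eval v a && eval v b)
  | mod i _ f => decide ((∑ j, if eval v (f j) then (1 : ZMod p) else 0) = i)

/-- number of symbols -/
def size : Fml p V → ℕ
  | var _ => 1
  | cst _ => 1
  | neg a => size a + 1
  | bin _ a b => size a + size b + 1
  | mod _ _ f => (∑ j, size (f j)) + 1

/-- Depth below a connective of the kind `r` (`some none` is the negation, `some (some c)` is
`bin c`, `none` means: no connective, or a counting connective), where consecutive negations,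
consecutive disjunctions and consecutive conjunctions are merged. -/
def dpt : Option (Option Bool) → Fml p V → ℕ
  | _, var _ => 0
  | _, cst _ => 0
  | r, neg a => (if r = some none then 0 else 1) + dpt (some none) a
  | r, bin c a b => (if r = some (some c) then 0 else 1) +
      max (dpt (some (some c)) a) (dpt (some (some c)) b)
  | _, mod _ _ f => 1 + Finset.univ.sup fun j => dpt none (f j)

/-- depth, with consecutive connectives of the same kind merged -/
def depth (a : Fml p V) : ℕ := dpt none a

open Classical in
/-- subformulas -/
noncomputable def subs : Fml p V → Finset (Fml p V)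
  | var x => {var x}
  | cst b => {cst b}
  | neg a => insert (neg a) (subs a)
  | bin c a b => insert (bin c a b) (subs a ∪ subs b)
  | mod i k f => insert (mod i k f) (Finset.univ.biUnion fun j => subs (f j))

/-- The assignment `v` of truth values to all formulas obeys the truth table of the outermost
connective of the given formula. -/
def Resp (v : Fml p V → Bool) : Fml p V → Prop
  | var _ => True
  | cst b => v (cst b) = b
  | neg a => v (neg a) = !(v a)
  | bin c a b => v (bin c a b) = if c then (v a || v b) else (v a && v b)
  | mod i k f => v (mod i k f) = decide ((∑ j, if v (f j) then (1 : ZMod p) else 0) = i)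

/-- `K`-local inference of `a` from the premises `P`: there are at most `K` premises and a set `C`
of at most `K` subformulas of the premises and of `a` such that every assignment of truth values
to all formulas which obeys the truth tables of the outermost connectives of the members of `C`
and makes all premises true makes `a` true. -/
def LocInf (K : ℕ) (P : Finset (Fml p V)) (a : Fml p V) : Prop :=
  P.card ≤ K ∧ ∃ C : Finset (Fml p V), C.card ≤ K ∧
    (∀ c ∈ C, c ∈ subs a ∨ ∃ b ∈ P, c ∈ subs b) ∧
    ∀ v : Fml p V → Bool, (∀ c ∈ C, Resp v c) → (∀ b ∈ P, v b = true) → v a = true

/-- Every line of `pi` follows from earlier lines by a `K`-local inference. -/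
def IsProof (K : ℕ) (pi : List (Fml p V)) : Prop :=
  ∀ i : Fin pi.length, ∃ P : Finset (Fml p V),
    (∀ b ∈ P, ∃ j : Fin pi.length, j < i ∧ pi.get j = b) ∧ LocInf K P (pi.get i)

/-- the formula contains a counting connective of fan-in greater than `w` -/
def Wide (w : ℕ) : Fml p V → Prop
  | var _ => False
  | cst _ => False
  | neg a => Wide w a
  | bin _ a b => Wide w a ∨ Wide w b
  | mod _ k f => w < k ∨ ∃ j, Wide w (f j)

open Classical in
/-- The number of (occurrences of) arguments containing a counting connective of fan-in greater
than `w`, when the formula is regarded as a (merged) `bin c`. -/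
noncomputable def wargs (w : ℕ) (c : Bool) : Fml p V → ℕ
  | bin c' a b => if c' = c then wargs w c a + wargs w c b
      else if Wide w (bin c' a b) then 1 else 0
  | var x => if Wide w (var x : Fml p V) then 1 else 0
  | cst b => if Wide w (cst b : Fml p V) then 1 else 0
  | neg a => if Wide w (neg a) then 1 else 0
  | mod i k f => if Wide w (mod i k f) then 1 else 0

/-- Every disjunction and every conjunction has at most `w` arguments which contain a counting
connective of fan-in greater than `w`. -/
def Thin (w : ℕ) : Fml p V → Prop
  | var _ => True
  | cst _ => True
  | neg a => Thin w a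
  | bin c a b => wargs w c (bin c a b) ≤ w ∧ Thin w a ∧ Thin w b
  | mod _ _ f => ∀ j, Thin w (f j)

/-- disjunction of a list -/
def disj (l : List (Fml p V)) : Fml p V := l.foldr (bin true) (cst false)

end Fml

open Fml in
/-- `Count_q^n`: the set `{0,...,n-1}` cannot be partitioned into sets of size `q`. Variables are
the `q`-element subsets. The formula is the disjunction of: for some `u` no `S ∋ u` is chosen; for
some two distinct intersecting sets `S`, `T`, both are chosen. -/
noncomputable def countTaut (p q n : ℕ) : Fml p {S : Finset (Fin n) // S.card = q} :=
  bin true
    (disj ((Finset.univ : Finset (Fin n)).toList.map fun u =>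
      neg (disj (((Finset.univ : Finset {S : Finset (Fin n) // S.card = q}).filter
        fun S => u ∈ S.1).toList.map var))))
    (disj (((Finset.univ : Finset ({S : Finset (Fin n) // S.card = q} ×
        {S : Finset (Fin n) // S.card = q})).filter
        fun x => x.1 ≠ x.2 ∧ ¬ Disjoint x.1.1 x.2.1).toList.map
      fun x => bin false (var x.1) (var x.2)))

end Pool.Agent.Work.MP_c04246_lc
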