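import Mathlib
import Pool.Agent.Work.MP_c04246_lc.Defs

set_option autoImplicit false

namespace Pool.Agent.Work.MP_c04246_lc

namespace Fml

variable {p : ℕ} {V : Type}

open Classical in
/-- `K`-local rule deriving the cedent `G` (a finite set of formulas, read as their disjunction)
from the `k` cedents `P i`: there are at most `K` premises, each containing at most `K` formulas
outside `G`; there are a set `C` of at most `K` subformulas of the formulas involved and a set `D`
of at most `K` members of `G`, such that every assignment of truth values to all formulas which
obeys the truth tables of the outermost connectives of the members of `C` and makes all members of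
`D` false makes, for some `i`, all members of `P i` outside `G` false. -/
def CRule (K : ℕ) {k : ℕ} (P : Fin k → Finset (Fml p V)) (G : Finset (Fml p V)) : Prop :=
  k ≤ K ∧ (∀ i, (P i \ G).card ≤ K) ∧ ∃ C D : Finset (Fml p V), C.card ≤ K ∧ D.card ≤ K ∧ D ⊆ G ∧
    (∀ c ∈ C, ∃ a, (a ∈ G ∨ ∃ i, a ∈ P i) ∧ c ∈ subs a) ∧
    ∀ v : Fml p V → Bool, (∀ c ∈ C, Resp v c) → (∀ a ∈ D, v a = false) →
      ∃ i, ∀ a ∈ P i \ G, v a = false

end Fml

/-- `pi` is a list of cedents each of which follows from earlier ones by a `K`-local rule, and its
part consisting of the long cedents (those with more than `K` members) has rank at most `h`: there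
is a function `ρ` from the lines to `{0, ..., h}` such that in each inference `ρ` is at every long
premise at most as large as at the conclusion, and at most one long premise has the same value of
`ρ` as the conclusion. (If every path along long cedents has at most `h` inferences, then `ρ` can
be the length of the longest path above the line; if long cedents are used only once and there are
fewer than `2 ^ h` lines, then there is such a function `ρ` as well.) -/
def Ranked {p : ℕ} {V : Type} (K h : ℕ) (pi : List (Finset (Fml p V))) : Prop :=
  ∃ ρ : Fin pi.length → ℕ, ∀ i, ρ i ≤ h ∧ ∃ (k : ℕ) (P : Fin k → Fin pi.length),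
    (∀ a, P a < i) ∧ Fml.CRule K (fun a => pi.get (P a)) (pi.get i) ∧
    (∀ a, K < (pi.get (P a)).card → ρ (P a) ≤ ρ i) ∧
    ∀ a b, K < (pi.get (P a)).card → K < (pi.get (P b)).card → ρ (P a) = ρ i → ρ (P b) = ρ i →
      P a = P b

end Pool.Agent.Work.MP_c04246_lc
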