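import Mathlib
import Pool.Agent.Work.MP_c04246_lc.Defs

set_option autoImplicit false

namespace Pool.Agent.Work.MP_c04246_lc

namespace Fml

variable {p : ℕ} {V : Type}

open Classical in
/-- the set of variables occurring in the formula -/
noncomputable def vars : Fml p V → Finset V
  | var x => {x}
  | cst _ => ∅
  | neg a => vars a
  | bin _ a b => vars a ∪ vars b
  | mod _ _ f => Finset.univ.biUnion fun j => vars (f j)

open Classical in
/-- The set of wide counting subformulas: the subformulas of the form `mod i k f` with `w < k` which
contain more than `m` distinct variables. -/
noncomputable def wide (w m : ℕ) (a : Fml p V) : Finset (Fml p V) :=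
  (subs a).filter fun b => m < (vars b).card ∧ ∃ i k f, b = mod i k f ∧ w < k

open Classical in
/-- the set of the outermost wide counting subformulas -/
noncomputable def owide (w m : ℕ) : Fml p V → Finset (Fml p V)
  | var _ => ∅
  | cst _ => ∅
  | neg a => owide w m a
  | bin _ a b => owide w m a ∪ owide w m b
  | mod i k f => if w < k ∧ m < (vars (mod i k f)).card then {mod i k f}
      else Finset.univ.biUnion fun j => owide w m (f j)

/-- The formula has at most `g` wide counting subformulas; or `t` is positive, the formula has at
most `r` outermost wide counting subformulas, and all arguments of these satisfy the same condition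
with `t - 1` in place of `t`. -/
def Lay (w m g r : ℕ) : ℕ → Fml p V → Prop
  | 0, a => (wide w m a).card ≤ g
  | t + 1, a => (wide w m a).card ≤ g ∨ ((owide w m a).card ≤ r ∧
      ∀ (i : ZMod p) (k : ℕ) (f : Fin k → Fml p V), mod i k f ∈ owide w m a →
        ∀ j, Lay w m g r t (f j))

open Classical in
/-- Depth below a connective of the kind `r` (`some none` is the negation, `some (some c)` is
`bin c`, `none` means: no connective, or a counting connective), where consecutive negations,
consecutive disjunctions and consecutive conjunctions are merged, and where subformulas containing
at most `m` distinct variables, as well as counting subformulas of fan-in greater than `w`, count as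
depth `0`. -/
noncomputable def bdpt (w m : ℕ) : Option (Option Bool) → Fml p V → ℕ
  | _, var _ => 0
  | _, cst _ => 0
  | r, neg a => if (vars (neg a)).card ≤ m then 0 else
      (if r = some none then 0 else 1) + bdpt w m (some none) a
  | r, bin c a b => if (vars (bin c a b)).card ≤ m then 0 else
      (if r = some (some c) then 0 else 1) +
        max (bdpt w m (some (some c)) a) (bdpt w m (some (some c)) b)
  | _, mod i k f => if (vars (mod i k f)).card ≤ m ∨ w < k then 0 else
      1 + Finset.univ.sup fun j => bdpt w m none (f j)

/-- The depth between wide counting connectives is at most `d`: in no subformula does one pass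
through more than `d` (merged) connectives before reaching a wide counting subformula or a
subformula with at most `m` variables. -/
def Bdepth (w m d : ℕ) (a : Fml p V) : Prop := ∀ b ∈ subs a, bdpt w m none b ≤ d

end Fml

open Fml in
open Classical in
/-- The hypergraph with the hyperedges `es x` has no perfect matching: for some vertex `u` no
hyperedge containing `u` is chosen, or some two distinct intersecting hyperedges are chosen. -/
noncomputable def pmTaut {U X : Type} [Fintype U] [Fintype X] (p : ℕ) (es : X → Finset U) :
    Fml p X :=
  bin true
    (disj ((Finset.univ : Finset U).toList.map fun u =>
      neg (disj (((Finset.univ : Finset X).filter fun x => u ∈ es x).toList.map var))))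
    (disj (((Finset.univ : Finset (X × X)).filter
        fun z => z.1 ≠ z.2 ∧ ¬ Disjoint (es z.1) (es z.2)).toList.map
      fun z => bin false (var z.1) (var z.2)))

end Pool.Agent.Work.MP_c04246_lc
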