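import Mathlib

set_option autoImplicit false
set_option linter.unusedSectionVars false
set_option linter.unusedSimpArgs false
set_option linter.unusedVariables false

namespace Pool.Agent.Work.MP_c04246_lc.H

open Finset

/-! Partial matchings in hypergraphs (`es x` is the vertex set of the hyperedge `x`). -/

section Basic

variable {U X : Type} [DecidableEq U] [DecidableEq X] {es : X → Finset U}

/-- covered elements -/
def cov (es : X → Finset U) (τ : Finset X) : Finset U := τ.biUnion es

/-- partial matching: hyperedges are pairwise disjoint -/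
def PP (es : X → Finset U) (τ : Finset X) : Prop :=
  ∀ x ∈ τ, ∀ y ∈ τ, x ≠ y → Disjoint (es x) (es y)

lemma mem_cov {τ : Finset X} {u : U} : u ∈ cov es τ ↔ ∃ x ∈ τ, u ∈ es x := by
  simp [cov]

lemma cov_mono {τ τ' : Finset X} (h : τ ⊆ τ') : cov es τ ⊆ cov es τ' :=
  biUnion_subset_biUnion_of_subset_left _ h

lemma cov_union (τ τ' : Finset X) : cov es (τ ∪ τ') = cov es τ ∪ cov es τ' := by
  ext u; simp only [mem_cov, mem_union]
  constructor
  · rintro ⟨x, hx | hx, hu⟩
    · exact Or.inl ⟨x, hx, hu⟩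
    · exact Or.inr ⟨x, hx, hu⟩
  · rintro (⟨x, hx, hu⟩ | ⟨x, hx, hu⟩)
    · exact ⟨x, Or.inl hx, hu⟩
    · exact ⟨x, Or.inr hx, hu⟩

lemma cov_empty : cov es (∅ : Finset X) = ∅ := by simp [cov]

lemma cov_insert (x : X) (τ : Finset X) : cov es (insert x τ) = es x ∪ cov es τ := by
  simp [cov]

lemma es_subset_cov {τ : Finset X} {x : X} (h : x ∈ τ) : es x ⊆ cov es τ :=
  subset_biUnion_of_mem es h

lemma disjoint_cov_iff {S : Finset U} {τ : Finset X} :
    Disjoint S (cov es τ) ↔ ∀ y ∈ τ, Disjoint S (es y) := by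
  unfold cov
  rw [disjoint_biUnion_right]

lemma PP.empty : PP es (∅ : Finset X) := by
  intro x hx; exact absurd hx (notMem_empty x)

lemma PP.mono {τ τ' : Finset X} (h : PP es τ') (hs : τ ⊆ τ') : PP es τ :=
  fun x hx y hy hne => h x (hs hx) y (hs hy) hne

lemma PP.insert {τ : Finset X} (h : PP es τ) {x : X} (hd : Disjoint (es x) (cov es τ)) :
    PP es (insert x τ) := by
  rw [disjoint_cov_iff] at hd
  intro y hy z hz hne
  rcases mem_insert.mp hy with h1 | h1
  · rcases mem_insert.mp hz with h2 | h2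
    · exact absurd (h1.trans h2.symm) hne
    · rw [h1]; exact hd z h2
  · rcases mem_insert.mp hz with h2 | h2
    · rw [h2]; exact (hd y h1).symm
    · exact h y h1 z h2 hne

/-- union of two matchings covering disjoint sets -/
lemma PP.union {τ σ : Finset X} (h : PP es τ) (h' : PP es σ)
    (hd : Disjoint (cov es σ) (cov es τ)) : PP es (τ ∪ σ) := by
  have key : ∀ x ∈ σ, ∀ y ∈ τ, Disjoint (es x) (es y) := fun x hx y hy =>
    Disjoint.mono (es_subset_cov hx) (es_subset_cov hy) hd
  intro x hx y hy hne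
  rcases mem_union.mp hx with h1 | h1
  · rcases mem_union.mp hy with h2 | h2
    · exact h x h1 y h2 hne
    · exact (key y h2 x h1).symm
  · rcases mem_union.mp hy with h2 | h2
    · exact key x h1 y h2
    · exact h' x h1 y h2 hne

lemma disjoint_of_cov {q : ℕ} (hq : 0 < q) (hes : ∀ x : X, (es x).card = q) {τ σ : Finset X}
    (hd : Disjoint (cov es σ) (cov es τ)) : Disjoint τ σ := by
  rw [disjoint_left]
  intro x hx hx'
  obtain ⟨u, hu⟩ : (es x).Nonempty := by rw [← card_pos, hes]; exact hq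
  exact disjoint_left.mp hd (es_subset_cov hx' hu) (es_subset_cov hx hu)

/-- parts of a matching cover disjoint sets -/
lemma PP.cov_disjoint {τ σ σ' : Finset X} (h : PP es τ) (hσ : σ ⊆ τ) (hσ' : σ' ⊆ τ)
    (hd : Disjoint σ σ') : Disjoint (cov es σ) (cov es σ') := by
  rw [disjoint_left]
  intro u hu hu'
  obtain ⟨x, hx, hux⟩ := mem_cov.mp hu
  obtain ⟨y, hy, huy⟩ := mem_cov.mp hu'
  have hne : x ≠ y := fun h0 => disjoint_left.mp hd hx (h0 ▸ hy)
  exact disjoint_left.mp (h x (hσ hx) y (hσ' hy) hne) hux huy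

lemma PP.card_cov {q : ℕ} (hes : ∀ x : X, (es x).card = q) {τ : Finset X} (h : PP es τ) :
    (cov es τ).card = q * τ.card := by
  unfold cov
  rw [card_biUnion h, sum_congr rfl (fun x _ => hes x), sum_const, smul_eq_mul, mul_comm]

lemma PP.insert_of_mem_disj {τ : Finset X} (h : PP es τ) {x y : X} (hx : x ∈ τ) (hy : y ∈ τ)
    {u : U} (hux : u ∈ es x) (huy : u ∈ es y) : x = y := by
  by_contra hne
  exact disjoint_left.mp (h x hx y hy hne) hux huy

/-- admissible answers to the query `u` in state `τ` -/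
def Adm (es : X → Finset U) (τ : Finset X) (u : U) (x : X) : Prop :=
  u ∈ es x ∧ Disjoint (es x) (cov es τ)

lemma Adm.PP {τ : Finset X} (hτ : PP es τ) {u : U} {x : X} (h : Adm es τ u x) :
    PP es (Insert.insert x τ) := hτ.insert h.2

/-- the family `L` is reached from `τ` by asking at most `h` queries -/
inductive Dec (es : X → Finset U) (L : Set (Finset X)) : Finset X → ℕ → Prop
  | leaf {τ : Finset X} {h : ℕ} : τ ∈ L → Dec es L τ h
  | query {τ : Finset X} {h : ℕ} (u : U) : u ∉ cov es τ →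
      (∀ x, Adm es τ u x → Dec es L (insert x τ) h) → Dec es L τ (h + 1)

/-- upward closed families -/
def UpC (L : Set (Finset X)) : Prop := ∀ τ τ', τ ∈ L → τ ⊆ τ' → τ' ∈ L

lemma Dec.mono_h {L : Set (Finset X)} {τ : Finset X} {h : ℕ}
    (hd : Dec es L τ h) : ∀ h', h ≤ h' → Dec es L τ h' := by
  induction hd with
  | leaf hL => intro h' _; exact Dec.leaf hL
  | query u hu _ ih =>
    intro h' hh'
    obtain ⟨h'', rfl⟩ : ∃ h'', h' = h'' + 1 := ⟨h' - 1, by omega⟩
    exact Dec.query u hu fun S hS => ih S hS h'' (by omega)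

lemma Dec.mono_L {L L' : Set (Finset X)} (hLL : L ⊆ L') {τ : Finset X} {h : ℕ}
    (hd : Dec es L τ h) : Dec es L' τ h := by
  induction hd with
  | leaf hL => exact Dec.leaf (hLL hL)
  | query u hu _ ih => exact Dec.query u hu fun S hS => ih S hS

lemma Dec.mono_ctx {L : Set (Finset X)} (hL : UpC L)
    {τ : Finset X} {h : ℕ} (hd : Dec es L τ h) :
    ∀ τ', τ ⊆ τ' → PP es τ' → Dec es L τ' h := by
  induction hd with
  | leaf hτ => intro τ' hsub _; exact Dec.leaf (hL _ _ hτ hsub)
  | @query τ h u hu _ ih =>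
    intro τ' hsub hPP
    by_cases hu' : u ∈ cov es τ'
    · obtain ⟨S, hS, huS⟩ := mem_cov.mp hu'
      have hSτ : S ∉ τ := fun h => hu (mem_cov.mpr ⟨S, h, huS⟩)
      have hadm : Adm es τ u S := ⟨huS, by
        rw [disjoint_cov_iff]
        intro T hT
        exact hPP S hS T (hsub hT) (fun h => hSτ (h ▸ hT))⟩
      have := ih S hadm τ' (by
        intro T hT
        rcases mem_insert.mp hT with h | h
        · rw [h]; exact hS
        · exact hsub h) hPP
      exact this.mono_h _ (by omega)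
    · refine Dec.query u hu' fun S hS => ?_
      have hadm : Adm es τ u S := ⟨hS.1, Disjoint.mono_right (cov_mono hsub) hS.2⟩
      exact ih S hadm _ (insert_subset_insert _ hsub) (hS.PP hPP)

/-- leaves extend the root by few hyperedges -/
lemma Dec.small {L : Set (Finset X)} {τ : Finset X} {h : ℕ}
    (hd : Dec es L τ h) : ∀ (ρ : Finset X) (k : ℕ), ρ ⊆ τ → PP es τ → (τ \ ρ).card + h ≤ k →
      Dec es (L ∩ {τ' | PP es τ' ∧ τ ⊆ τ' ∧ (τ' \ ρ).card ≤ k}) τ h := by
  induction hd with
  | leaf hτ =>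
    intro ρ k hρ hPP hk
    exact Dec.leaf ⟨hτ, hPP, Subset.rfl, by omega⟩
  | @query τ h u hu _ ih =>
    intro ρ k hρ hPP hk
    refine Dec.query u hu fun S hS => ?_
    refine (ih S hS ρ k (hρ.trans (subset_insert _ _)) (hS.PP hPP) ?_).mono_L ?_
    · have : (insert S τ \ ρ).card ≤ (τ \ ρ).card + 1 := by
        have h1 : insert S τ \ ρ ⊆ insert S (τ \ ρ) := by
          intro T hT
          rw [mem_sdiff, mem_insert] at hT
          rw [mem_insert, mem_sdiff]
          rcases hT.1 with h | h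
          · exact Or.inl h
          · exact Or.inr ⟨h, hT.2⟩
        exact (card_le_card h1).trans (card_insert_le _ _)
      omega
    · rintro τ' ⟨h1, h2, h3, h4⟩
      exact ⟨h1, h2, (subset_insert _ _).trans h3, h4⟩

/-- sequential composition of decision procedures, the second one depending on the leaf -/
lemma Dec.bind {L1 L2 : Set (Finset X)} {h2 : ℕ} {τ : Finset X} {h1 : ℕ} (hd : Dec es L1 τ h1) :
    PP es τ → (∀ τ', τ' ∈ L1 → τ ⊆ τ' → PP es τ' → Dec es L2 τ' h2) → Dec es L2 τ (h1 + h2) := by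
  induction hd with
  | @leaf τ h hτ =>
    intro hPP hall
    exact (hall τ hτ Subset.rfl hPP).mono_h _ (by omega)
  | @query τ h u hu _ ih =>
    intro hPP hall
    have : h + 1 + h2 = (h + h2) + 1 := by omega
    rw [this]
    refine Dec.query u hu fun S hS => ih S hS (hS.PP hPP) fun τ' hL hsub hPP' => ?_
    exact hall τ' hL ((subset_insert _ _).trans hsub) hPP'

lemma Dec.comp {L1 L2 : Set (Finset X)} (hL1 : UpC L1)
    {τ : Finset X} {h1 h2 : ℕ} (hd : Dec es L1 τ h1) (hPP : PP es τ)
    (hall : ∀ τ', τ ⊆ τ' → PP es τ' → Dec es L2 τ' h2) : Dec es (L1 ∩ L2) τ (h1 + h2) := by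
  refine hd.bind hPP fun τ' hτ' hsub hPP' => ?_
  have h3 := (hall τ' hsub hPP').small τ' h2 Subset.rfl hPP' (by simp)
  refine h3.mono_L ?_
  rintro τ'' ⟨h4, _, h5, _⟩
  exact ⟨hL1 _ _ hτ' h5, h4⟩

lemma Dec.inter_all {ι : Type*} (L : ι → Set (Finset X))
    (hL : ∀ i, UpC (L i)) (h : ℕ) (s : Finset ι) :
    ∀ τ : Finset X, PP es τ → (∀ i ∈ s, ∀ τ', τ ⊆ τ' → PP es τ' → Dec es (L i) τ' h) →
      Dec es {τ' | ∀ i ∈ s, τ' ∈ L i} τ (s.card * h) := by
  classical
  induction s using Finset.induction_on with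
  | empty =>
    intro τ _ _
    exact Dec.leaf (by intro i hi; exact absurd hi (notMem_empty i))
  | insert i s hi ih =>
    intro τ hPP hall
    have h1 := hall i (mem_insert_self _ _) τ Subset.rfl hPP
    have h2 := h1.comp (L2 := {τ' | ∀ i ∈ s, τ' ∈ L i}) (h2 := s.card * h) (hL i) hPP ?_
    · rw [card_insert_of_notMem hi]
      have h3 : (s.card + 1) * h = h + s.card * h := by ring
      rw [h3]
      refine h2.mono_L ?_
      rintro τ' ⟨h4, h5⟩ j hj
      rcases mem_insert.mp hj with rfl | hj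
      · exact h4
      · exact h5 j hj
    · intro τ' hsub hPP'
      exact ih τ' hPP' fun j hj τ'' hsub' hPP'' =>
        hall j (mem_insert_of_mem hj) τ'' (hsub.trans hsub') hPP''

/-- `π` covers `Q` inside the uncovered part of `τ`, and every member of `π` meets `Q` -/
def Cover (es : X → Finset U) (τ : Finset X) (Q : Finset U) (π : Finset X) : Prop :=
  PP es π ∧ Disjoint (cov es π) (cov es τ) ∧ Q ⊆ cov es π ∧ ∀ x ∈ π, (es x ∩ Q).Nonempty

lemma Cover.PP_union {τ : Finset X} (hτ : PP es τ) {Q : Finset U} {π : Finset X}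
    (h : Cover es τ Q π) : PP es (τ ∪ π) := hτ.union h.1 h.2.1

lemma Cover.disj {τ : Finset X} {Q : Finset U} {π : Finset X}
    (h : Cover es τ Q π) : Disjoint τ π := by
  rw [disjoint_left]
  intro x hx hx'
  obtain ⟨u, hu⟩ := h.2.2.2 x hx'
  exact disjoint_left.mp h.2.1 (es_subset_cov hx' (mem_inter.mp hu).1)
    (es_subset_cov hx (mem_inter.mp hu).1)

lemma Cover.card_le {τ : Finset X} {Q : Finset U} {π : Finset X}
    (h : Cover es τ Q π) : π.card ≤ Q.card := by
  have h1 : π.card = ∑ x ∈ π, 1 := by simp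
  have h2 : ∑ x ∈ π, 1 ≤ ∑ x ∈ π, (es x ∩ Q).card :=
    sum_le_sum fun S hS => card_pos.mpr (h.2.2.2 S hS)
  have h3 : ∑ x ∈ π, (es x ∩ Q).card = (π.biUnion (fun x => es x ∩ Q)).card := by
    rw [card_biUnion]
    intro S hS T hT hne
    exact Disjoint.mono inter_subset_left inter_subset_left (h.1 S hS T hT hne)
  have h4 : (π.biUnion (fun x => es x ∩ Q)).card ≤ Q.card := by
    apply card_le_card
    intro u hu
    obtain ⟨S, hS, hu⟩ := mem_biUnion.mp hu
    exact (mem_inter.mp hu).2
  omega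

lemma cover_insert {τ : Finset X} {u : U} {x : X} {Q : Finset U}
    (hu : u ∈ Q) (h : Adm es τ u x) {π : Finset X}
    (hπ : Cover es (insert x τ) (Q \ es x) π) : Cover es τ Q (insert x π) := by
  obtain ⟨h1, h2, h3, h4⟩ := hπ
  rw [cov_insert, disjoint_union_right] at h2
  refine ⟨h1.insert h2.1.symm, ?_, ?_, ?_⟩
  · rw [cov_insert, disjoint_union_left]
    exact ⟨h.2, h2.2⟩
  · intro v hv
    rw [cov_insert, mem_union]
    by_cases hvS : v ∈ es x
    · exact Or.inl hvS
    · exact Or.inr (h3 (mem_sdiff.mpr ⟨hv, hvS⟩))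
  · intro T hT
    rcases mem_insert.mp hT with h' | h'
    · rw [h']; exact ⟨u, mem_inter.mpr ⟨h.1, hu⟩⟩
    · obtain ⟨v, hv⟩ := h4 T h'
      rw [mem_inter, mem_sdiff] at hv
      exact ⟨v, mem_inter.mpr ⟨hv.1, hv.2.1⟩⟩

/-- asking all the elements of `Q` -/
lemma query_all {L : Set (Finset X)} {h : ℕ} (n : ℕ) :
    ∀ (τ : Finset X) (Q : Finset U), Q.card ≤ n → Disjoint Q (cov es τ) →
    (∀ π, Cover es τ Q π → Dec es L (τ ∪ π) h) → Dec es L τ (h + Q.card) := by
  induction n with
  | zero =>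
    intro τ Q hQ hd hall
    have : Q = ∅ := by rw [← card_eq_zero]; omega
    subst this
    have := hall ∅ ⟨PP.empty, by simp [cov_empty], by simp, by simp⟩
    simpa using this
  | succ n ih =>
    intro τ Q hQ hd hall
    rcases Q.eq_empty_or_nonempty with rfl | ⟨u, hu⟩
    · have := hall ∅ ⟨PP.empty, by simp [cov_empty], by simp, by simp⟩
      simpa using this
    · have hu' : u ∉ cov es τ := disjoint_left.mp hd hu
      have hQ1 : 1 ≤ Q.card := card_pos.mpr ⟨u, hu⟩
      have hQ2 : h + Q.card = (h + (Q.card - 1)) + 1 := by omega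
      rw [hQ2]
      refine Dec.query u hu' fun x hx => ?_
      have hlt : (Q \ es x).card + 1 ≤ Q.card := by
        have : Q \ es x ⊂ Q := by
          refine ⟨sdiff_subset, fun h => ?_⟩
          exact (mem_sdiff.mp (h hu)).2 hx.1
        exact card_lt_card this
      refine Dec.mono_h (ih (insert x τ) (Q \ es x) (by omega) ?_ ?_) _ (by omega)
      · rw [cov_insert, disjoint_left]
        intro v hv hv'
        rw [mem_sdiff] at hv
        rcases mem_union.mp hv' with h | h
        · exact hv.2 h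
        · exact (disjoint_left.mp hd) hv.1 h
      · intro π hπ
        have h1 := hall _ (cover_insert hu hx hπ)
        have h2 : τ ∪ insert x π = insert x τ ∪ π := by
          ext T; simp only [mem_union, mem_insert]; tauto
        rw [h2] at h1
        exact h1

end Basic

end Pool.Agent.Work.MP_c04246_lc.H
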