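import Mathlib
import Pool.Agent.Work.MP_c04246_lc.HBasic

set_option autoImplicit false
set_option linter.unusedSectionVars false
set_option linter.unusedSimpArgs false
set_option linter.unusedVariables false
set_option linter.unnecessarySeqFocus false

namespace Pool.Agent.Work.MP_c04246_lc.H

open Finset

section pci

/-- a graded algebra of functions together with a low degree ideal -/
structure PCI (Y K : Type) [Field K] where
  Deg : ℕ → Submodule K (Y → K)
  Zr : Submodule K (Y → K)
  B : ℕ
  mono : ∀ {D D' : ℕ}, D ≤ D' → Deg D ≤ Deg D'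
  one : (1 : Y → K) ∈ Deg 0
  mul : ∀ {D D' : ℕ} {f g : Y → K}, f ∈ Deg D → g ∈ Deg D' → f * g ∈ Deg (D + D')
  zmul : ∀ {D D' : ℕ} {f g : Y → K}, D + D' ≤ B → f ∈ Deg D → f ∈ Zr → g ∈ Deg D' → f * g ∈ Zr

variable {Y K : Type} [Field K] {P : PCI Y K}

lemma PCI.up (P : PCI Y K) {D D' : ℕ} {f : Y → K} (h : f ∈ P.Deg D) (hD : D ≤ D') :
    f ∈ P.Deg D' := P.mono hD h

lemma PCI.one' (P : PCI Y K) (D : ℕ) : (1 : Y → K) ∈ P.Deg D := P.mono (Nat.zero_le _) P.one

lemma PCI.const (P : PCI Y K) (D : ℕ) (r : K) : (fun _ : Y => r) ∈ P.Deg D := by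
  have : (fun _ : Y => r) = r • (1 : Y → K) := by funext y; simp
  rw [this]; exact Submodule.smul_mem _ _ (P.one' D)

lemma PCI.pow (P : PCI Y K) {D : ℕ} {f : Y → K} (hf : f ∈ P.Deg D) (n : ℕ) :
    f ^ n ∈ P.Deg (n * D) := by
  induction n with
  | zero => rw [pow_zero]; exact P.one' _
  | succ n ih =>
    rw [pow_succ]
    exact P.up (P.mul ih hf) (by rw [Nat.succ_mul])

lemma PCI.prod (P : PCI Y K) {D : ℕ} {ι : Type*} (s : Finset ι) (f : ι → Y → K)
    (h : ∀ i ∈ s, f i ∈ P.Deg D) : ∏ i ∈ s, f i ∈ P.Deg (s.card * D) := by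
  classical
  induction s using Finset.induction_on with
  | empty => simpa using P.one' _
  | insert a s ha ih =>
    rw [prod_insert ha, card_insert_of_notMem ha]
    have h1 := P.mul (h a (mem_insert_self a s)) (ih fun i hi => h i (mem_insert_of_mem hi))
    exact P.up h1 (by ring_nf; rfl)

/-- zero-one function of a Boolean function -/
def bF (K : Type) [Field K] {Y : Type} (v : Y → Bool) : Y → K := fun y => if v y then 1 else 0

lemma bF_apply (v : Y → Bool) (y : Y) : bF K v y = if v y = true then 1 else 0 := rfl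

lemma bF_true {v : Y → Bool} {y : Y} (h : v y = true) : bF K v y = 1 := by
  rw [bF_apply, if_pos h]

lemma bF_false {v : Y → Bool} {y : Y} (h : v y = false) : bF K v y = 0 := by
  rw [bF_apply, if_neg (by rw [h]; exact Bool.false_ne_true)]

lemma bF_const (D : ℕ) (b : Bool) : bF K (fun _ : Y => b) ∈ P.Deg D := P.const D _

lemma bF_not {D : ℕ} {v : Y → Bool} (h : bF K v ∈ P.Deg D) : bF K (fun y => !v y) ∈ P.Deg D := by
  have : bF K (fun y => !v y) = 1 - bF K v := by
    funext y
    rw [bF_apply, Pi.sub_apply, Pi.one_apply, bF_apply]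
    by_cases h : v y = true <;> simp [h]
  rw [this]
  exact Submodule.sub_mem _ (P.one' D) h

lemma bF_and_eq (u v : Y → Bool) : bF K (fun y => u y && v y) = bF K u * bF K v := by
  funext y
  rw [Pi.mul_apply, bF_apply, bF_apply, bF_apply]
  cases u y <;> cases v y <;> simp

lemma bF_and {D D' : ℕ} {u v : Y → Bool} (hu : bF K u ∈ P.Deg D) (hv : bF K v ∈ P.Deg D') :
    bF K (fun y => u y && v y) ∈ P.Deg (D + D') := by
  rw [bF_and_eq]; exact P.mul hu hv

lemma bF_ite {D D' : ℕ} {u v w : Y → Bool} (hu : bF K u ∈ P.Deg D) (hv : bF K v ∈ P.Deg D')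
    (hw : bF K w ∈ P.Deg D') : bF K (fun y => if u y then v y else w y) ∈ P.Deg (D + D') := by
  have : bF K (fun y => if u y then v y else w y) =
      bF K u * bF K v + (1 - bF K u) * bF K w := by
    funext y
    simp only [Pi.add_apply, Pi.mul_apply, Pi.sub_apply, Pi.one_apply, bF_apply]
    cases u y <;> cases v y <;> cases w y <;> simp
  rw [this]
  exact Submodule.add_mem _ (P.mul hu hv) (P.mul (Submodule.sub_mem _ (P.one' D) hu) hw)

/-- Boolean combinations of two functions -/
lemma bF_comb {D D' : ℕ} (g : Bool → Bool → Bool) {u v : Y → Bool} (hu : bF K u ∈ P.Deg D)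
    (hv : bF K v ∈ P.Deg D') : bF K (fun y => g (u y) (v y)) ∈ P.Deg (D + D') := by
  have h1 : ∀ b : Bool, bF K (fun y => g b (v y)) ∈ P.Deg D' := by
    intro b
    have : (fun y => g b (v y)) = fun y => if v y then g b true else g b false := by
      funext y; cases v y <;> simp
    rw [this]
    have h2 := bF_ite (P := P) (D := D') (D' := 0) hv (bF_const 0 (g b true))
      (bF_const 0 (g b false))
    simpa using h2
  have : (fun y => g (u y) (v y)) = fun y => if u y then g true (v y) else g false (v y) := by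
    funext y; cases u y <;> simp
  rw [this]
  exact bF_ite hu (h1 true) (h1 false)

/-- Boolean combinations of three functions -/
lemma bF_comb3 {D D' D'' : ℕ} (g : Bool → Bool → Bool → Bool) {u v w : Y → Bool}
    (hu : bF K u ∈ P.Deg D) (hv : bF K v ∈ P.Deg D') (hw : bF K w ∈ P.Deg D'') :
    bF K (fun y => g (u y) (v y) (w y)) ∈ P.Deg (D + (D' + D'')) := by
  have : (fun y => g (u y) (v y) (w y)) =
      fun y => if u y then g true (v y) (w y) else g false (v y) (w y) := by
    funext y; cases u y <;> simp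
  rw [this]
  exact bF_ite hu (bF_comb (g true) hv hw) (bF_comb (g false) hv hw)

/-- `v y` counts as an element of the prime field -/
lemma cast_sum {p : ℕ} [Fact p.Prime] [CharP K p] {ι : Type*} (s : Finset ι) (v : ι → Bool) :
    (∑ j ∈ s, if v j = true then (1 : K) else 0) =
      ZMod.castHom (dvd_refl p) K (∑ j ∈ s, if v j then (1 : ZMod p) else 0) := by
  rw [map_sum]
  refine sum_congr rfl fun j _ => ?_
  split_ifs <;> simp

lemma pow_zmod {p : ℕ} [Fact p.Prime] [CharP K p] (x : ZMod p) :
    (ZMod.castHom (dvd_refl p) K x) ^ (p - 1) = if x = 0 then 0 else 1 := by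
  have hp : 1 < p := (Fact.out : p.Prime).one_lt
  split_ifs with h
  · rw [h, map_zero, zero_pow (by omega)]
  · rw [← map_pow, ZMod.pow_card_sub_one_eq_one h, map_one]

/-- counting gates have small degree in characteristic `p` -/
lemma bF_mod {p : ℕ} [Fact p.Prime] [CharP K p] {D : ℕ} {i : ZMod p} {k : ℕ}
    {v : Fin k → Y → Bool} (h : ∀ j, bF K (v j) ∈ P.Deg D) :
    bF K (fun y => decide ((∑ j, if v j y then (1 : ZMod p) else 0) = i)) ∈ P.Deg (p * D) := by
  have hp : 1 < p := (Fact.out : p.Prime).one_lt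
  have key : (bF K fun y => decide ((∑ j, if v j y then (1 : ZMod p) else 0) = i)) =
      1 - ((∑ j, bF K (v j)) - fun _ => ZMod.castHom (dvd_refl p) K i) ^ (p - 1) := by
    funext y
    rw [bF_apply]
    simp only [Pi.sub_apply, Pi.one_apply, Pi.pow_apply, Finset.sum_apply, bF_apply,
      decide_eq_true_eq]
    have h0 := cast_sum (K := K) (p := p) univ (fun j => v j y)
    rw [h0, ← map_sub, pow_zmod]
    by_cases h2 : (∑ j, if v j y = true then (1 : ZMod p) else 0) = i
    · rw [if_pos h2, if_pos (sub_eq_zero.mpr h2), sub_zero]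
    · rw [if_neg h2, if_neg (sub_ne_zero.mpr h2), sub_self]
  rw [key]
  refine Submodule.sub_mem _ (P.one' _) (P.up (P.pow (Submodule.sub_mem _
    (Submodule.sum_mem _ fun j _ => h j) (P.const _ _)) _) ?_)
  exact Nat.mul_le_mul_right _ (by omega)

/-- if every point of the support of `χ` satisfies one of few bad events, and all bad events are
impossible on `χ`, then `χ` is in the ideal -/
lemma cover_zr {M D : ℕ} {χ : Y → K} (hχ : χ ∈ P.Deg D) (l : List (Y → Bool))
    (hl : ∀ b ∈ l, bF K b ∈ P.Deg M ∧ χ * bF K b ∈ P.Zr) (hB : D + l.length * M ≤ P.B)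
    (hcov : ∀ y, χ y ≠ 0 → ∃ b ∈ l, b y = true) : χ ∈ P.Zr := by
  induction l generalizing χ D with
  | nil =>
    have : χ = 0 := by
      funext y
      by_contra h
      obtain ⟨b, hb, _⟩ := hcov y h
      exact absurd hb (List.not_mem_nil)
    rw [this]; exact Submodule.zero_mem _
  | cons b l ih =>
    obtain ⟨h1, h2⟩ := hl b (List.mem_cons_self)
    rw [List.length_cons] at hB
    have hB' : D + M + l.length * M ≤ P.B := by
      have : (l.length + 1) * M = l.length * M + M := by ring
      omega
    have h3 : χ * (1 - bF K b) ∈ P.Zr := by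
      refine ih (D := D + M) (P.mul hχ (Submodule.sub_mem _ (P.one' _) h1)) ?_ hB' ?_
      · intro b' hb'
        obtain ⟨h4, h5⟩ := hl b' (List.mem_cons_of_mem _ hb')
        refine ⟨h4, ?_⟩
        have h6 : χ * (1 - bF K b) * bF K b' = (χ * bF K b') * (1 - bF K b) := by ring
        rw [h6]
        refine P.zmul (D := D + M) (D' := M) ?_ (P.mul hχ h4) h5
          (Submodule.sub_mem _ (P.one' _) h1)
        cases l with
        | nil => exact absurd hb' (List.not_mem_nil)
        | cons x l =>
          rw [List.length_cons] at hB'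
          have : (l.length + 1) * M = l.length * M + M := by ring
          omega
      · intro y hy
        rw [Pi.mul_apply] at hy
        have hy1 := left_ne_zero_of_mul hy
        have hy2 := right_ne_zero_of_mul hy
        obtain ⟨b', hb', hb2⟩ := hcov y hy1
        rcases List.mem_cons.mp hb' with h | h
        · subst h
          exfalso; apply hy2
          rw [Pi.sub_apply, Pi.one_apply, bF_true hb2, sub_self]
        · exact ⟨b', h, hb2⟩
    have h4 : χ = χ * bF K b + χ * (1 - bF K b) := by ring
    rw [h4]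
    exact Submodule.add_mem _ h2 h3

end pci

section world

variable {Y K : Type} [Field K] {P : PCI Y K} {U X : Type} [DecidableEq U] [DecidableEq X]
  [Fintype X] {es : X → Finset U}

/-- a family of partial matchings of small degree covering almost everything -/
structure WD (P : PCI Y K) (es : X → Finset U) (ρ : Finset X) (δ : ℕ) where
  m : Y → Finset X
  pp : ∀ y, PP es (m y)
  sub : ∀ y, ρ ⊆ m y
  degx : ∀ x, (fun y => if x ∈ m y then (1 : K) else 0) ∈ P.Deg δ
  degu : ∀ u, (fun y => if u ∈ cov es (m y) then (0 : K) else 1) ∈ P.Deg δ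
  zru : ∀ u, (fun y => if u ∈ cov es (m y) then (0 : K) else 1) ∈ P.Zr

variable {ρ : Finset X} {δ : ℕ} {W : WD P es ρ δ}

open Classical in
/-- selecting according to the hyperedge covering `u` -/
noncomputable def pk (W : WD P es ρ δ) (u : U) {Z : Type} (G : X → Y → Z) (G0 : Y → Z) (y : Y) :
    Z := if h : ∃ x ∈ W.m y, u ∈ es x then G (Classical.choose h) y else G0 y

lemma pk_of {u : U} {Z : Type} {G : X → Y → Z} {G0 : Y → Z} {y : Y} {x : X} (hx : x ∈ W.m y)
    (hu : u ∈ es x) : pk W u G G0 y = G x y := by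
  have h : ∃ x ∈ W.m y, u ∈ es x := ⟨x, hx, hu⟩
  unfold pk
  rw [dif_pos h]
  have h1 := Classical.choose_spec h
  have h2 : Classical.choose h = x := (W.pp y).insert_of_mem_disj h1.1 hx h1.2 hu
  rw [h2]

lemma pk_none {u : U} {Z : Type} {G : X → Y → Z} {G0 : Y → Z} {y : Y}
    (hu : u ∉ cov es (W.m y)) : pk W u G G0 y = G0 y := by
  unfold pk
  rw [dif_neg (fun h => hu (mem_cov.mpr h))]

lemma pk_eq (u : U) (G : X → Y → K) (G0 : Y → K) :
    pk W u G G0 = (∑ x ∈ univ.filter (fun x => u ∈ es x),
      (fun y => if x ∈ W.m y then (1 : K) else 0) * G x) +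
      (fun y => if u ∈ cov es (W.m y) then (0 : K) else 1) * G0 := by
  funext y
  rw [Pi.add_apply, Pi.mul_apply, Finset.sum_apply]
  by_cases h : u ∈ cov es (W.m y)
  · obtain ⟨x, hx, hu⟩ := mem_cov.mp h
    rw [pk_of hx hu, if_pos h, zero_mul, add_zero, sum_eq_single (M := K) x]
    · simp [hx]
    · intro x' hx' hne
      rw [mem_filter] at hx'
      rw [Pi.mul_apply]
      rw [if_neg, zero_mul]
      intro h1
      exact hne ((W.pp y).insert_of_mem_disj h1 hx hx'.2 hu)
    · intro h1
      exact absurd (mem_filter.mpr ⟨mem_univ x, hu⟩) h1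
  · rw [pk_none h, if_neg h, one_mul, sum_eq_zero, zero_add]
    intro x hx
    rw [mem_filter] at hx
    rw [Pi.mul_apply]
    rw [if_neg, zero_mul]
    intro h1
    exact h (mem_cov.mpr ⟨x, h1, hx.2⟩)

lemma pk_deg {D : ℕ} (u : U) {G : X → Y → K} {G0 : Y → K} (hG : ∀ x, G x ∈ P.Deg D)
    (hG0 : G0 ∈ P.Deg D) : pk W u G G0 ∈ P.Deg (δ + D) := by
  rw [pk_eq]
  exact Submodule.add_mem _ (Submodule.sum_mem _ fun x _ => P.mul (W.degx x) (hG x))
    (P.mul (W.degu u) hG0)

lemma pk_zr {D : ℕ} (hB : δ + D ≤ P.B) (u : U) {G : X → Y → K} {G0 : Y → K}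
    (hG : ∀ x, u ∈ es x → G x ∈ P.Deg D ∧ G x ∈ P.Zr) (hG0 : G0 ∈ P.Deg D) :
    pk W u G G0 ∈ P.Zr := by
  rw [pk_eq]
  refine Submodule.add_mem _ (Submodule.sum_mem _ fun x hx => ?_)
    (P.zmul hB (W.degu u) (W.zru u) hG0)
  rw [mem_filter] at hx
  rw [mul_comm]
  exact P.zmul (by omega) (hG x hx.2).1 (hG x hx.2).2 (W.degx x)

/-- contradictory states are impossible -/
theorem ct_zr {σ : Finset X} {k : ℕ} (hd : Dec es ∅ σ k) : ∀ (D : ℕ) (g : Y → K), g ∈ P.Deg D →
    (∀ y, g y ≠ 0 → σ ⊆ W.m y) → D + δ * k ≤ P.B → g ∈ P.Zr := by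
  induction hd with
  | leaf h => exact absurd h (Set.notMem_empty _)
  | @query σ k u hu _ ih =>
    intro D g hg hs hB
    have hB' : D + δ * k + δ ≤ P.B := by
      have : δ * (k + 1) = δ * k + δ := by ring
      omega
    have h1 : g = pk W u (fun _ => g) g := by
      funext y
      unfold pk
      split_ifs <;> rfl
    have h2 : g = (∑ x ∈ univ.filter (fun x => u ∈ es x),
        (fun y => if x ∈ W.m y then (1 : K) else 0) * g) +
        (fun y => if u ∈ cov es (W.m y) then (0 : K) else 1) * g := by
      conv_lhs => rw [h1]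
      exact pk_eq (W := W) u (fun _ => g) g
    rw [h2]
    refine Submodule.add_mem _ (Submodule.sum_mem _ fun x hx => ?_)
      (P.zmul (by omega) (W.degu u) (W.zru u) hg)
    rw [mem_filter] at hx
    by_cases hadm : Adm es σ u x
    · refine ih x hadm (δ + D) _ (P.mul (W.degx x) hg) ?_ (by omega)
      intro y hy
      rw [Pi.mul_apply] at hy
      have hy1 := left_ne_zero_of_mul hy
      have hy2 := right_ne_zero_of_mul hy
      have hxm : x ∈ W.m y := by
        by_contra h
        exact hy1 (if_neg h)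
      exact insert_subset hxm (hs y hy2)
    · have : (fun y => if x ∈ W.m y then (1 : K) else 0) * g = 0 := by
        funext y
        rw [Pi.mul_apply, Pi.zero_apply]
        by_contra hy
        have hy1 := left_ne_zero_of_mul hy
        have hy2 := right_ne_zero_of_mul hy
        have hxm : x ∈ W.m y := by
          by_contra h
          exact hy1 (if_neg h)
        apply hadm
        refine ⟨hx.2, ?_⟩
        rw [disjoint_cov_iff]
        intro z hz
        refine W.pp y x hxm z (hs y hy2 hz) ?_
        rintro rfl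
        exact hu (mem_cov.mpr ⟨x, hz, hx.2⟩)
      rw [this]; exact Submodule.zero_mem _

/-- the run of a decision procedure along the matchings `m y` -/
structure Run (W : WD P es ρ δ) (Hyp : Prop) (L : Set (Finset X)) (τ : Finset X) (h : ℕ) where
  lam : Y → Option (Finset X)
  err : Y → Bool
  leaf : ∀ y σ, lam y = some σ → σ ∈ L
  sub : ∀ y σ, lam y = some σ → τ ⊆ W.m y → σ ⊆ W.m y
  tot : Hyp → ∀ y, τ ⊆ W.m y → err y = false → ∃ σ, lam y = some σ
  deg : ∀ (D : ℕ) (f : Option (Finset X) → Y → K), (∀ o, f o ∈ P.Deg D) →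
    (fun y => f (lam y) y) ∈ P.Deg (D + δ * h)
  degE : bF K err ∈ P.Deg (δ * h)
  zrE : bF K err ∈ P.Zr

theorem exists_run' {L : Set (Finset X)} {τ : Finset X} {h : ℕ} (hd : Dec es L τ h)
    (hB : δ * h ≤ P.B) : Nonempty (Run W True L τ h) := by
  classical
  induction hd with
  | @leaf τ h hL =>
    refine ⟨⟨fun _ => some τ, fun _ => false, ?_, ?_, ?_, ?_, ?_, ?_⟩⟩
    · intro y σ h; rw [Option.some.injEq] at h; rw [← h]; exact hL
    · intro y σ h h'; rw [Option.some.injEq] at h; rw [← h]; exact h'
    · intro _ y _ _; exact ⟨τ, rfl⟩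
    · intro D f hf; exact P.up (hf _) (by omega)
    · exact bF_const _ _
    · have : bF K (fun _ : Y => false) = 0 := by funext y; simp [bF]
      rw [this]; exact Submodule.zero_mem _
  | @query τ h u hu _ ih =>
    have e1 : δ * (h + 1) = δ + δ * h := by ring
    rw [e1] at hB
    have hex : ∀ x : X, ∃ (lam : Y → Option (Finset X)) (err : Y → Bool),
        (∀ y σ, lam y = some σ → σ ∈ L) ∧
        (∀ y σ, lam y = some σ → τ ⊆ W.m y → x ∈ W.m y → σ ⊆ W.m y) ∧
        (∀ y, τ ⊆ W.m y → x ∈ W.m y → u ∈ es x → err y = false → ∃ σ, lam y = some σ) ∧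
        (∀ (D : ℕ) (f : Option (Finset X) → Y → K), (∀ o, f o ∈ P.Deg D) →
          (fun y => f (lam y) y) ∈ P.Deg (D + δ * h)) ∧
        bF K err ∈ P.Deg (δ * h) ∧ bF K err ∈ P.Zr := by
      intro x
      by_cases hadm : Adm es τ u x
      · obtain ⟨⟨lam, err, r1, r2, r3, r4, r5, r6⟩⟩ := ih x hadm (by omega)
        refine ⟨lam, err, r1, fun y σ h1 h2 h3 => r2 y σ h1 (insert_subset h3 h2),
          fun y h1 h2 _ h3 => r3 trivial y (insert_subset h2 h1) h3, r4, r5, r6⟩
      · refine ⟨fun _ => none, fun _ => false, fun y σ h => by simp at h,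
          fun y σ h => by simp at h, ?_, ?_, ?_, ?_⟩
        · intro y h1 h2 h3 _
          exfalso
          apply hadm
          refine ⟨h3, ?_⟩
          rw [disjoint_cov_iff]
          intro z hz
          refine W.pp y x h2 z (h1 hz) ?_
          rintro rfl
          exact hu (mem_cov.mpr ⟨x, hz, h3⟩)
        · intro D f hf; exact P.up (hf _) (by omega)
        · exact bF_const _ _
        · have : bF K (fun _ : Y => false) = 0 := by funext y; simp [bF]
          rw [this]; exact Submodule.zero_mem _
    choose lam err r1 r2 r3 r4 r5 r6 using hex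
    refine ⟨⟨pk W u lam (fun _ => none), pk W u err (fun _ => true), ?_, ?_, ?_, ?_, ?_, ?_⟩⟩
    · intro y σ h
      by_cases hc : u ∈ cov es (W.m y)
      · obtain ⟨x, hx, hux⟩ := mem_cov.mp hc
        rw [pk_of hx hux] at h
        exact r1 x y σ h
      · rw [pk_none hc] at h; simp at h
    · intro y σ h hτ
      by_cases hc : u ∈ cov es (W.m y)
      · obtain ⟨x, hx, hux⟩ := mem_cov.mp hc
        rw [pk_of hx hux] at h
        exact r2 x y σ h hτ hx
      · rw [pk_none hc] at h; simp at h
    · intro _ y hτ h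
      by_cases hc : u ∈ cov es (W.m y)
      · obtain ⟨x, hx, hux⟩ := mem_cov.mp hc
        rw [pk_of hx hux] at h ⊢
        exact r3 x y hτ hx hux h
      · rw [pk_none hc] at h; simp at h
    · intro D f hf
      have h1 : (fun y => f (pk W u lam (fun _ => none) y) y) =
          pk W u (fun x y => f (lam x y) y) (fun y => f none y) := by
        funext y
        by_cases hc : u ∈ cov es (W.m y)
        · obtain ⟨x, hx, hux⟩ := mem_cov.mp hc
          rw [pk_of hx hux, pk_of hx hux]
        · rw [pk_none hc, pk_none hc]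
      rw [h1]
      have h2 := pk_deg (W := W) (D := D + δ * h) u (G := fun x y => f (lam x y) y)
        (G0 := fun y => f none y) (fun x => r4 x D f hf) (P.up (hf none) (by omega))
      exact P.up h2 (by rw [e1]; omega)
    · have h1 : bF K (pk W u err (fun _ => true)) =
          pk W u (fun x => bF K (err x)) (fun _ => 1) := by
        funext y
        by_cases hc : u ∈ cov es (W.m y)
        · obtain ⟨x, hx, hux⟩ := mem_cov.mp hc
          rw [pk_of hx hux, bF_apply, pk_of hx hux, bF_apply]
        · rw [pk_none hc, bF_apply, pk_none hc]; simp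
      rw [h1, e1]
      exact pk_deg u r5 (P.one' _)
    · have h1 : bF K (pk W u err (fun _ => true)) =
          pk W u (fun x => bF K (err x)) (fun _ => 1) := by
        funext y
        by_cases hc : u ∈ cov es (W.m y)
        · obtain ⟨x, hx, hux⟩ := mem_cov.mp hc
          rw [pk_of hx hux, bF_apply, pk_of hx hux, bF_apply]
        · rw [pk_none hc, bF_apply, pk_none hc]; simp
      rw [h1]
      exact pk_zr hB u (fun x _ => ⟨r5 x, r6 x⟩) (P.one' _)

theorem exists_run (W : WD P es ρ δ) (Hyp : Prop) {L : Set (Finset X)} {τ : Finset X} {h : ℕ}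
    (hB : δ * h ≤ P.B) (hd : Hyp → Dec es L τ h) : Nonempty (Run W Hyp L τ h) := by
  by_cases hH : Hyp
  · obtain ⟨⟨lam, err, r1, r2, r3, r4, r5, r6⟩⟩ := exists_run' (W := W) (hd hH) hB
    exact ⟨⟨lam, err, r1, r2, fun _ => r3 trivial, r4, r5, r6⟩⟩
  · refine ⟨⟨fun _ => none, fun _ => false, fun y σ h => by simp at h,
      fun y σ h => by simp at h, fun h => absurd h hH, ?_, ?_, ?_⟩⟩
    · intro D f hf; exact P.up (hf _) (by omega)
    · exact bF_const _ _
    · have : bF K (fun _ : Y => false) = 0 := by funext y; simp [bF]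
      rw [this]; exact Submodule.zero_mem _

variable {Hyp : Prop} {L : Set (Finset X)} {τ : Finset X} {h : ℕ}

open Classical in
lemma Run.degI (R : Run W Hyp L τ h) {D : ℕ} {g : Y → K} (hg : g ∈ P.Deg D)
    (o : Option (Finset X)) : (fun y => if R.lam y = o then g y else 0) ∈ P.Deg (D + δ * h) := by
  refine R.deg D (fun o' y => if o' = o then g y else 0) fun o' => ?_
  by_cases h : o' = o
  · simpa [h] using hg
  · simp only [h, if_false]
    exact P.const D 0

open Classical in
/-- case distinction according to the leaf reached -/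
lemma Run.split (R : Run W Hyp L τ h) (hH : Hyp) {D : ℕ} {g : Y → K} (hg : g ∈ P.Deg D)
    (hs : ∀ y, g y ≠ 0 → τ ⊆ W.m y) (hB : D + 2 * (δ * h) ≤ P.B)
    (hall : ∀ σ ∈ L, (fun y => if R.lam y = some σ then g y else 0) ∈ P.Zr) : g ∈ P.Zr := by
  have h1 : g = (∑ σ : Finset X, fun y => if R.lam y = some σ then g y else 0) +
      fun y => if R.lam y = none then g y else 0 := by
    funext y
    rw [Pi.add_apply, Finset.sum_apply]
    cases hy : R.lam y with
    | none => simp
    | some σ0 =>
      rw [sum_eq_single σ0]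
      · simp
      · intro σ _ hne
        rw [if_neg]
        simpa using fun h => hne h.symm
      · intro h; exact absurd (mem_univ _) h
  rw [h1]
  refine Submodule.add_mem _ (Submodule.sum_mem _ fun σ _ => ?_) ?_
  · by_cases hσ : σ ∈ L
    · exact hall σ hσ
    · have : (fun y => if R.lam y = some σ then g y else 0) = 0 := by
        funext y
        rw [if_neg]
        · rfl
        · intro h; exact hσ (R.leaf y σ h)
      rw [this]; exact Submodule.zero_mem _
  · have h2 : (fun y => if R.lam y = none then g y else 0) =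
        bF K R.err * fun y => if R.lam y = none then g y else 0 := by
      funext y
      rw [Pi.mul_apply]
      by_cases hn : R.lam y = none
      · rw [if_pos hn]
        by_cases hgy : g y = 0
        · rw [hgy, mul_zero]
        · have : R.err y = true := by
            by_contra hc
            rw [Bool.not_eq_true] at hc
            obtain ⟨σ, hσ⟩ := R.tot hH y (hs y hgy) hc
            rw [hn] at hσ; simp at hσ
          rw [bF_true this, one_mul]
      · rw [if_neg hn, mul_zero]
    rw [h2]
    exact P.zmul (by omega) R.degE R.zrE (R.degI hg none)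

end world

end Pool.Agent.Work.MP_c04246_lc.H
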