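import Mathlib
import Pool.Agent.Work.MP_c04246_lc.HBasic

set_option autoImplicit false
set_option linter.unusedSectionVars false
set_option linter.unusedSimpArgs false
set_option linter.unusedVariables false

namespace Pool.Agent.Work.MP_c04246_lc.H

open Finset

section Local

variable {U X : Type} [DecidableEq U] [DecidableEq X] {es : X → Finset U}

open Classical in
/-- first term of `F` compatible with `τ` -/
noncomputable def fst (es : X → Finset U) (F : List (Finset X)) (τ : Finset X) :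
    Option (Finset X) := F.find? (fun t => decide (PP es (t ∪ τ)))

/-- states deciding the disjunction of the terms in `F` -/
def LF (es : X → Finset U) (F : List (Finset X)) : Set (Finset X) :=
  {τ | (∃ t ∈ F, t ⊆ τ) ∨ ∀ t ∈ F, ¬ PP es (t ∪ τ)}

lemma LF_up (F : List (Finset X)) : UpC (LF es F) := by
  rintro τ τ' (⟨t, ht, hs⟩ | h) hsub
  · exact Or.inl ⟨t, ht, hs.trans hsub⟩
  · exact Or.inr fun t ht hPP => h t ht (hPP.mono (union_subset_union_right hsub))

lemma fst_some {F : List (Finset X)} {τ t : Finset X}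
    (h : fst es F τ = some t) : t ∈ F ∧ PP es (t ∪ τ) := by
  unfold fst at h
  refine ⟨List.mem_of_find?_eq_some h, ?_⟩
  have := List.find?_some h
  simpa using this

lemma fst_ext {F : List (Finset X)} {τ t ρ : Finset X}
    (h : fst es F τ = some t) (hτ : τ ⊆ ρ) (ht : t ⊆ ρ) (hρ : PP es ρ) :
    fst es F ρ = some t := by
  unfold fst at h ⊢
  rw [List.find?_eq_some_iff_append] at h ⊢
  obtain ⟨h1, as, bs, h2, h3⟩ := h
  refine ⟨?_, as, bs, h2, ?_⟩
  · simp only [decide_eq_true_eq]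
    rw [union_eq_right.mpr ht]
    exact hρ
  · intro a ha
    have := h3 a ha
    simp only [Bool.not_eq_true', decide_eq_false_iff_not] at this ⊢
    intro hcon
    exact this (hcon.mono (union_subset_union_right hτ))

lemma exists_fst {F : List (Finset X)} {τ : Finset X} (h : τ ∉ LF es F) :
    ∃ t, fst es F τ = some t ∧ (t \ τ).Nonempty := by
  simp only [LF, Set.mem_ofPred_eq, not_or, not_exists, not_and, not_forall, not_not] at h
  obtain ⟨hn1, t0, ht0, ht0'⟩ := h
  have hsome : ∃ t, fst es F τ = some t := by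
    rw [← Option.isSome_iff_exists]
    unfold fst
    rw [List.find?_isSome]
    exact ⟨t0, ht0, by simpa using ht0'⟩
  obtain ⟨t, ht⟩ := hsome
  refine ⟨t, ht, ?_⟩
  rw [nonempty_iff_ne_empty]
  intro h0
  exact hn1 t (fst_some ht).1 (sdiff_eq_empty_iff_subset.mp h0)

lemma cov_disjoint_of_union {τ t : Finset X} (h : PP es (t ∪ τ)) :
    Disjoint (cov es (t \ τ)) (cov es τ) :=
  h.cov_disjoint (sdiff_subset.trans subset_union_left) subset_union_right sdiff_disjoint

/-- paths in the canonical decision tree of the disjunction of the terms in `F`: `σ` consists of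
the hyperedges of the terms that were asked, `Q` of all elements that were touched. -/
inductive LR (es : X → Finset U) (F : List (Finset X)) :
    Finset X → Finset X → Finset U → Prop
  | last {τ t : Finset X} : fst es F τ = some t → (t \ τ).Nonempty →
      LR es F τ (t \ τ) (cov es (t \ τ))
  | step {τ t π σ : Finset X} {Q : Finset U} : fst es F τ = some t → (t \ τ).Nonempty →
      Cover es τ (cov es (t \ τ)) π → LR es F (τ ∪ π) σ Q →
      LR es F τ ((t \ τ) ∪ σ) (cov es π ∪ Q)

variable {q : ℕ}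

lemma LR.facts (hq : 0 < q) (hes : ∀ x : X, (es x).card = q) {F : List (Finset X)}
    {τ σ : Finset X} {Q : Finset U} (h : LR es F τ σ Q) :
    PP es τ → PP es (τ ∪ σ) ∧ PP es σ ∧ Disjoint (cov es σ) (cov es τ) ∧ Disjoint Q (cov es τ) ∧
      cov es σ ⊆ Q ∧ Q.card ≤ q * (q * σ.card) ∧ σ.Nonempty := by
  induction h with
  | @last τ t hf hne =>
    intro hτ
    obtain ⟨hf1, hf2⟩ := fst_some hf
    have hd := cov_disjoint_of_union hf2
    have hPP : PP es (t \ τ) := hf2.mono (sdiff_subset.trans subset_union_left)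
    refine ⟨hτ.union hPP hd, hPP, hd, hd, Subset.rfl, ?_, hne⟩
    rw [hPP.card_cov hes]
    exact Nat.mul_le_mul_left _ (Nat.le_mul_of_pos_left _ hq)
  | @step τ t π σ Q hf hne hc hr ih =>
    intro hτ
    obtain ⟨h1, h2, h3, h4, h5, h6, h7⟩ := ih (hc.PP_union hτ)
    obtain ⟨hf1, hf2⟩ := fst_some hf
    have hd := cov_disjoint_of_union hf2
    have hPP : PP es (t \ τ) := hf2.mono (sdiff_subset.trans subset_union_left)
    rw [cov_union, disjoint_union_right] at h3 h4
    have hσt : Disjoint (cov es σ) (cov es (t \ τ)) := Disjoint.mono_right hc.2.2.1 h3.2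
    have hPPσ : PP es ((t \ τ) ∪ σ) := hPP.union h2 hσt
    have hdσ : Disjoint (cov es ((t \ τ) ∪ σ)) (cov es τ) := by
      rw [cov_union, disjoint_union_left]; exact ⟨hd, h3.1⟩
    have hdj : Disjoint (t \ τ) σ := disjoint_of_cov hq hes hσt
    refine ⟨hτ.union hPPσ hdσ, hPPσ, hdσ, ?_, ?_, ?_, ?_⟩
    · rw [disjoint_union_left]; exact ⟨hc.2.1, h4.1⟩
    · rw [cov_union]
      exact union_subset_union hc.2.2.1 h5
    · rw [card_union_of_disjoint hdj, mul_add, mul_add]
      refine (card_union_le _ _).trans (Nat.add_le_add ?_ h6)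
      rw [hc.1.card_cov hes]
      apply Nat.mul_le_mul_left
      refine hc.card_le.trans ?_
      rw [hPP.card_cov hes]
    · exact hne.mono subset_union_left

/-- a state which cannot be decided by few queries has a long path -/
lemma fail_local (hq : 0 < q) (hes : ∀ x : X, (es x).card = q) {F : List (Finset X)} {r : ℕ}
    {ρ0 : Finset X} (hF : ∀ t ∈ F, (t \ ρ0).card ≤ r) (h : ℕ) :
    ∀ τ : Finset X, PP es τ → ρ0 ⊆ τ → ¬ Dec es (LF es F) τ h →
      ∃ σ Q, LR es F τ σ Q ∧ h < q * σ.card ∧ q * σ.card ≤ h + q * r := by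
  induction h using Nat.strong_induction_on with
  | _ h ih =>
    intro τ hτ hρ0 hnd
    have hnL : τ ∉ LF es F := fun hL => hnd (Dec.leaf hL)
    obtain ⟨t, ht, hne⟩ := exists_fst hnL
    obtain ⟨htF, htPP⟩ := fst_some ht
    have hσPP : PP es (t \ τ) := htPP.mono (sdiff_subset.trans subset_union_left)
    have hσr : (t \ τ).card ≤ r :=
      (card_le_card (sdiff_subset_sdiff Subset.rfl hρ0)).trans (hF t htF)
    have hQ : (cov es (t \ τ)).card = q * (t \ τ).card := hσPP.card_cov hes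
    have hd := cov_disjoint_of_union htPP
    have hQr : q * (t \ τ).card ≤ q * r := Nat.mul_le_mul_left _ hσr
    by_cases hlt : h < q * (t \ τ).card
    · exact ⟨_, _, LR.last ht hne, hlt, by omega⟩
    · have hpos : 0 < q * (t \ τ).card := Nat.mul_pos hq (card_pos.mpr hne)
      have h3 : ¬ ∀ π, Cover es τ (cov es (t \ τ)) π →
          Dec es (LF es F) (τ ∪ π) (h - q * (t \ τ).card) := by
        intro hall
        apply hnd
        have := query_all (h := h - q * (t \ τ).card) _ τ (cov es (t \ τ)) le_rfl hd hall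
        rw [hQ] at this
        exact this.mono_h _ (by omega)
      push Not at h3
      obtain ⟨π, hπ, hπ2⟩ := h3
      obtain ⟨σ, Q, hR, h4, h5⟩ := ih (h - q * (t \ τ).card) (by omega) (τ ∪ π)
        (hπ.PP_union hτ) (hρ0.trans subset_union_left) hπ2
      refine ⟨_, _, LR.step ht hne hπ hR, ?_⟩
      obtain ⟨_, _, g3, _, _, _, _⟩ := hR.facts hq hes (hπ.PP_union hτ)
      rw [cov_union, disjoint_union_right] at g3
      have hdj : Disjoint (t \ τ) σ :=
        disjoint_of_cov hq hes (Disjoint.mono_right hπ.2.2.1 g3.2)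
      rw [card_union_of_disjoint hdj, mul_add]
      omega

variable [Fintype X] [Fintype U]

/-- every element lies in at most `Δ` hyperedges inside `W` -/
def DgB (es : X → Finset U) (W : Finset U) (Δ : ℕ) : Prop :=
  ∀ u, (univ.filter fun x : X => u ∈ es x ∧ es x ⊆ W).card ≤ Δ

lemma DgB.mono {W W' : Finset U} {Δ : ℕ} (h : DgB es W Δ) (hs : W' ⊆ W) : DgB es W' Δ := by
  intro u
  refine (card_le_card ?_).trans (h u)
  intro x hx
  rw [mem_filter] at hx ⊢
  exact ⟨hx.1, hx.2.1, hx.2.2.trans hs⟩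

open Classical in
/-- candidates for the answers to the queries in `Q` -/
noncomputable def Pk (es : X → Finset U) (W Q : Finset U) : Finset (Finset X) :=
  univ.filter (fun π => PP es π ∧ cov es π ⊆ W ∧ Q ⊆ cov es π ∧ ∀ x ∈ π, (es x ∩ Q).Nonempty)

lemma mem_Pk {W Q : Finset U} {π : Finset X} : π ∈ Pk es W Q ↔
    PP es π ∧ cov es π ⊆ W ∧ Q ⊆ cov es π ∧ ∀ x ∈ π, (es x ∩ Q).Nonempty := by
  simp [Pk]

lemma card_Pk {W : Finset U} {Δ : ℕ} (hW : DgB es W Δ) (Q : Finset U) :
    (Pk es W Q).card ≤ Δ ^ Q.card := by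
  classical
  have hex : ∀ π ∈ Pk es W Q, ∀ a ∈ Q, ∃ x ∈ π, a ∈ es x := by
    intro π hπ a ha
    exact mem_cov.mp ((mem_Pk.mp hπ).2.2.1 ha)
  let g : Finset X → (a : U) → a ∈ Q → Finset X := fun π a _ => π.filter (fun x => a ∈ es x)
  have hg : ∀ π ∈ Pk es W Q, ∀ a (ha : a ∈ Q), ∃ x, g π a ha = {x} ∧ x ∈ π ∧ a ∈ es x := by
    intro π hπ a ha
    obtain ⟨x, hx, hax⟩ := hex π hπ a ha
    refine ⟨x, ?_, hx, hax⟩
    ext y
    simp only [g, mem_filter, mem_singleton]
    constructor
    · rintro ⟨hy, hay⟩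
      exact (mem_Pk.mp hπ).1.insert_of_mem_disj hy hx hay hax
    · rintro rfl; exact ⟨hx, hax⟩
  have hmaps : ∀ π ∈ Pk es W Q, g π ∈ Q.pi (fun a =>
      (univ.filter fun x : X => a ∈ es x ∧ es x ⊆ W).image (fun x => ({x} : Finset X))) := by
    intro π hπ
    rw [mem_pi]
    intro a ha
    obtain ⟨x, h1, h2, h3⟩ := hg π hπ a ha
    rw [h1, mem_image]
    exact ⟨x, by rw [mem_filter]; exact ⟨mem_univ _, h3,
      (es_subset_cov h2).trans (mem_Pk.mp hπ).2.1⟩, rfl⟩
  have hsub : ∀ π ∈ Pk es W Q, ∀ π' ∈ Pk es W Q, g π = g π' → π ⊆ π' := by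
    intro π hπ π' hπ' hgg x hx
    obtain ⟨a, ha⟩ := (mem_Pk.mp hπ).2.2.2 x hx
    rw [mem_inter] at ha
    have h1 : x ∈ g π a ha.2 := by
      simp only [g, mem_filter]; exact ⟨hx, ha.1⟩
    rw [hgg] at h1
    simp only [g, mem_filter] at h1
    exact h1.1
  have hcard := card_le_card_of_injOn g hmaps (by
    intro π hπ π' hπ' hgg
    exact Subset.antisymm (hsub π hπ π' hπ' hgg) (hsub π' hπ' π hπ hgg.symm))
  refine hcard.trans ?_
  rw [card_pi]
  calc ∏ a ∈ Q, ((univ.filter fun x : X => a ∈ es x ∧ es x ⊆ W).image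
        (fun x => ({x} : Finset X))).card ≤ ∏ a ∈ Q, Δ :=
        prod_le_prod' fun a _ => card_image_le.trans (hW a)
    _ = Δ ^ Q.card := by rw [prod_const]

lemma geo_sum' (J : ℕ) : ∑ j ∈ range J, 2 ^ (J - (j + 1)) + 1 ≤ 2 ^ J := by
  induction J with
  | zero => simp
  | succ J ih =>
    rw [sum_range_succ']
    have h2 : ∑ j ∈ range J, 2 ^ (J + 1 - (j + 1 + 1)) = ∑ j ∈ range J, 2 ^ (J - (j + 1)) := by
      refine sum_congr rfl fun j _ => ?_
      congr 1
      omega
    have h3 : J + 1 - (0 + 1) = J := by omega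
    rw [h2, h3, pow_succ]
    omega

lemma geo_sum (J : ℕ) : ∑ j ∈ range (J + 1), (if 1 ≤ j then 2 ^ (J - j) else 0) ≤ 2 ^ J := by
  rw [sum_range_succ']
  have h1 : ∑ j ∈ range J, (if 1 ≤ j + 1 then 2 ^ (J - (j + 1)) else 0)
      = ∑ j ∈ range J, 2 ^ (J - (j + 1)) := by
    refine sum_congr rfl fun j _ => ?_
    rw [if_pos (by omega)]
  rw [h1, if_neg (by omega)]
  have := geo_sum' J
  omega

lemma sum_weights (T : Finset X) (r Y J : ℕ) (hT : T.card ≤ r) :
    ∑ σ ∈ T.powerset.filter (fun σ => 1 ≤ σ.card ∧ σ.card ≤ J),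
      Y ^ σ.card * (2 * (r * Y)) ^ (J - σ.card) ≤ (2 * (r * Y)) ^ J := by
  rw [sum_filter]
  have h1 := sum_powerset_apply_card
    (fun j => if 1 ≤ j ∧ j ≤ J then Y ^ j * (2 * (r * Y)) ^ (J - j) else 0) (x := T)
  rw [h1]
  have h2 : ∀ j, T.card.choose j • (if 1 ≤ j ∧ j ≤ J then Y ^ j * (2 * (r * Y)) ^ (J - j) else 0)
      ≤ if j ≤ J then (r * Y) ^ J * (if 1 ≤ j then 2 ^ (J - j) else 0) else 0 := by
    intro j
    by_cases hj : 1 ≤ j ∧ j ≤ J
    · rw [if_pos hj, if_pos hj.2, if_pos hj.1, smul_eq_mul]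
      have h3 : T.card.choose j ≤ r ^ j := (Nat.choose_le_pow _ _).trans (Nat.pow_le_pow_left hT j)
      have h4 : (r * Y) ^ J = (r * Y) ^ j * (r * Y) ^ (J - j) := by
        rw [← pow_add]; congr 1; omega
      calc T.card.choose j * (Y ^ j * (2 * (r * Y)) ^ (J - j))
          ≤ r ^ j * (Y ^ j * (2 * (r * Y)) ^ (J - j)) := Nat.mul_le_mul_right _ h3
        _ = (r * Y) ^ J * 2 ^ (J - j) := by
            rw [h4, mul_pow 2, mul_pow r Y j]; ring
    · rw [if_neg hj]
      simp
  refine (sum_le_sum (fun j _ => h2 j)).trans ?_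
  have h5 : ∑ j ∈ range (T.card + 1),
      (if j ≤ J then (r * Y) ^ J * (if 1 ≤ j then 2 ^ (J - j) else 0) else 0)
      ≤ ∑ j ∈ range (J + 1), (r * Y) ^ J * (if 1 ≤ j then 2 ^ (J - j) else 0) := by
    rw [← sum_filter]
    apply sum_le_sum_of_subset
    intro j hj
    rw [mem_filter] at hj
    rw [mem_range]
    omega
  refine h5.trans ?_
  rw [← mul_sum, mul_pow 2, mul_comm (2 ^ J)]
  exact Nat.mul_le_mul_left _ (geo_sum J)

open Classical in
/-- possible local paths, given the union `Θ` -/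
noncomputable def CL (es : X → Finset U) (F : List (Finset X)) (ρ0 : Finset X) (Δ : ℕ)
    (Θ : Finset X) (J : ℕ) : Finset (Finset X × Finset U) :=
  univ.filter (fun z => z.1.card = J ∧ ∃ τ, PP es τ ∧ ρ0 ⊆ τ ∧ DgB es (univ \ cov es τ) Δ ∧
    PP es Θ ∧ LR es F τ z.1 z.2 ∧ τ ∪ z.1 ⊆ Θ ∧ Disjoint z.2 (cov es (Θ \ (τ ∪ z.1))))

lemma mem_CL {F : List (Finset X)} {ρ0 Θ : Finset X} {Δ J : ℕ} {z : Finset X × Finset U} :
    z ∈ CL es F ρ0 Δ Θ J ↔ z.1.card = J ∧ ∃ τ, PP es τ ∧ ρ0 ⊆ τ ∧ DgB es (univ \ cov es τ) Δ ∧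
    PP es Θ ∧ LR es F τ z.1 z.2 ∧ τ ∪ z.1 ⊆ Θ ∧ Disjoint z.2 (cov es (Θ \ (τ ∪ z.1))) := by
  simp [CL]

/-- counting the local paths -/
lemma card_CL (hq : 0 < q) (hes : ∀ x : X, (es x).card = q) {F : List (Finset X)} {r Δ : ℕ}
    {ρ0 : Finset X} (hF : ∀ t ∈ F, (t \ ρ0).card ≤ r) (hΔ : 1 ≤ Δ) (J : ℕ) : ∀ Θ : Finset X,
      (CL es F ρ0 Δ Θ J).card ≤ (2 * (r * Δ ^ q)) ^ J := by
  classical
  induction J using Nat.strong_induction_on with
  | _ J ih =>
  intro Θ
  set t0 : Finset X := (fst es F Θ).getD ∅ with ht0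
  set T := (t0 ∩ Θ) \ ρ0 with hT
  set Ss := T.powerset.filter (fun σ => 1 ≤ σ.card ∧ σ.card ≤ J) with hSs
  have hTr : T.card ≤ r := by
    cases hfo : fst es F Θ with
    | none =>
      have : t0 = ∅ := by rw [ht0, hfo]; rfl
      rw [hT, this]; simp
    | some t =>
      have : t0 = t := by rw [ht0, hfo]; rfl
      rw [hT, this]
      refine (card_le_card ?_).trans (hF t (fst_some hfo).1)
      exact sdiff_subset_sdiff inter_subset_left Subset.rfl
  -- pieces
  let W : Finset X → Finset U := fun s => univ \ cov es (Θ \ s)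
  let Pc : Finset X → Finset (Finset X × Finset U) := fun s =>
    if s.card = J then {(s, cov es s)} else
      if DgB es (W s) Δ then (Pk es (W s) (cov es s)).biUnion (fun π =>
        (CL es F ρ0 Δ ((Θ \ s) ∪ π) (J - s.card)).image (fun z => (s ∪ z.1, cov es π ∪ z.2)))
      else ∅
  have hsub : CL es F ρ0 Δ Θ J ⊆ Ss.biUnion Pc := by
    intro z hz
    obtain ⟨hzJ, τ, hτ, hρτ, hdg, hΘ, hR, hsubΘ, hdisj⟩ := mem_CL.mp hz
    obtain ⟨σ, Q⟩ := z
    simp only at hzJ hR hsubΘ hdisj
    rw [mem_biUnion]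
    have hcommon : ∀ t : Finset X, fst es F τ = some t → (t \ τ) ⊆ σ → (t \ τ).Nonempty →
        t \ τ ∈ Ss ∧ PP es (t \ τ) := by
      intro t hf hts hne
      obtain ⟨hf1, hf2⟩ := fst_some hf
      have htΘ : t ⊆ Θ := by
        intro x hx
        by_cases hxτ : x ∈ τ
        · exact hsubΘ (mem_union_left _ hxτ)
        · exact hsubΘ (mem_union_right _ (hts (mem_sdiff.mpr ⟨hx, hxτ⟩)))
      have hfΘ : fst es F Θ = some t := fst_ext hf (subset_union_left.trans hsubΘ) htΘ hΘ
      have ht0t : t0 = t := by rw [ht0, hfΘ]; rfl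
      refine ⟨?_, hf2.mono (sdiff_subset.trans subset_union_left)⟩
      rw [hSs, mem_filter, mem_powerset]
      refine ⟨?_, card_pos.mpr hne, (card_le_card hts).trans hzJ.le⟩
      intro x hx
      rw [hT, mem_sdiff, mem_inter, ht0t]
      exact ⟨⟨(mem_sdiff.mp hx).1, htΘ (mem_sdiff.mp hx).1⟩,
        fun h => (mem_sdiff.mp hx).2 (hρτ h)⟩
    cases hR with
    | @last _ t hf hne =>
      obtain ⟨h1, h2⟩ := hcommon t hf Subset.rfl hne
      refine ⟨t \ τ, h1, ?_⟩
      simp only [Pc]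
      rw [if_pos hzJ]
      simp
    | @step _ t π σ Q hf hne hc hr =>
      obtain ⟨h1, h2⟩ := hcommon t hf subset_union_left hne
      obtain ⟨g1, g2, g3, g4, g5, g6, g7⟩ := hr.facts hq hes (hc.PP_union hτ)
      rw [cov_union, disjoint_union_right] at g3 g4
      have hdj : Disjoint (t \ τ) σ :=
        disjoint_of_cov hq hes (Disjoint.mono_right hc.2.2.1 g3.2)
      have hcardσ : (t \ τ).card + σ.card = J := by
        rw [← hzJ, card_union_of_disjoint hdj]
      have hσpos := card_pos.mpr g7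
      set s := t \ τ with hs
      have hτs : Disjoint τ s := by rw [hs]; exact disjoint_sdiff
      have hsΘ : s ⊆ Θ := (subset_union_left.trans subset_union_right).trans hsubΘ
      have hτΘ : τ ⊆ Θ := subset_union_left.trans hsubΘ
      have hσΘ : σ ⊆ Θ := (subset_union_right.trans subset_union_right).trans hsubΘ
      have hτΘs : τ ⊆ Θ \ s := by
        intro x hx
        exact mem_sdiff.mpr ⟨hτΘ hx, disjoint_left.mp hτs hx⟩
      have hσΘs : σ ⊆ Θ \ s := by
        intro x hx
        exact mem_sdiff.mpr ⟨hσΘ hx, fun h => disjoint_left.mp hdj h hx⟩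
      -- decomposition of `Θ \ s`
      have hdec : Θ \ s = (τ ∪ σ) ∪ (Θ \ (τ ∪ (s ∪ σ))) := by
        ext x
        simp only [mem_sdiff, mem_union]
        constructor
        · rintro ⟨hx, hxs⟩
          by_cases h1 : x ∈ τ
          · exact Or.inl (Or.inl h1)
          · by_cases h2 : x ∈ σ
            · exact Or.inl (Or.inr h2)
            · exact Or.inr ⟨hx, by tauto⟩
        · rintro ((h | h) | ⟨h, h'⟩)
          · exact ⟨hτΘ h, disjoint_left.mp hτs h⟩
          · exact ⟨hσΘ h, fun h' => disjoint_left.mp hdj h' h⟩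
          · exact ⟨h, fun h0 => h' (Or.inr (Or.inl h0))⟩
      rw [disjoint_union_left] at hdisj
      have hπΘ : Disjoint (cov es π) (cov es (Θ \ s)) := by
        rw [hdec, cov_union, cov_union, disjoint_union_right, disjoint_union_right]
        exact ⟨⟨hc.2.1, g3.2.symm⟩, hdisj.1⟩
      have hW : W s ⊆ univ \ cov es τ := sdiff_subset_sdiff Subset.rfl (cov_mono hτΘs)
      have hdgW : DgB es (W s) Δ := hdg.mono hW
      have hPPn : PP es ((Θ \ s) ∪ π) := (hΘ.mono sdiff_subset).union hc.1 hπΘ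
      refine ⟨s, h1, ?_⟩
      simp only [Pc]
      rw [if_neg (by omega), if_pos hdgW, mem_biUnion]
      refine ⟨π, ?_, ?_⟩
      · rw [mem_Pk]
        refine ⟨hc.1, ?_, hc.2.2.1, hc.2.2.2⟩
        intro v hv
        exact mem_sdiff.mpr ⟨mem_univ _, disjoint_left.mp hπΘ hv⟩
      · rw [mem_image]
        refine ⟨(σ, Q), ?_, rfl⟩
        rw [mem_CL]
        refine ⟨by simp only; omega, τ ∪ π, hc.PP_union hτ, hρτ.trans subset_union_left,
          hdg.mono (sdiff_subset_sdiff Subset.rfl (cov_mono subset_union_left)), hPPn, hr, ?_, ?_⟩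
        · simp only
          intro x hx
          rcases mem_union.mp hx with h | h
          · rcases mem_union.mp h with h | h
            · exact mem_union_left _ (hτΘs h)
            · exact mem_union_right _ h
          · exact mem_union_left _ (hσΘs h)
        · simp only
          have hcs : cov es ((Θ \ s ∪ π) \ (τ ∪ π ∪ σ)) ⊆ cov es (Θ \ (τ ∪ (s ∪ σ))) := by
            apply cov_mono
            intro x hx
            rw [mem_sdiff, mem_union, mem_union, mem_union] at hx
            rw [mem_sdiff, mem_union, mem_union]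
            push Not at hx ⊢
            obtain ⟨hx1, hx2, hx3⟩ := hx
            rcases hx1 with h | h
            · rw [mem_sdiff] at h
              exact ⟨h.1, hx2.1, h.2, hx3⟩
            · exact absurd h hx2.2
          exact Disjoint.mono_right hcs hdisj.2
  refine (card_le_card hsub).trans (card_biUnion_le.trans ?_)
  have hX : ∀ s ∈ Ss, (Pc s).card ≤ (Δ ^ q) ^ s.card * (2 * (r * Δ ^ q)) ^ (J - s.card) := by
    intro s hs
    rw [hSs, mem_filter, mem_powerset] at hs
    obtain ⟨hsT, hs1, hsJ⟩ := hs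
    have hΔq : 1 ≤ (Δ ^ q) ^ s.card := Nat.one_le_pow _ _ (Nat.one_le_pow _ _ hΔ)
    simp only [Pc]
    split_ifs with h1 h2
    · rw [card_singleton, h1, Nat.sub_self, pow_zero, mul_one, ← h1]
      exact hΔq
    · refine card_biUnion_le.trans ?_
      have hB : ∀ π ∈ Pk es (W s) (cov es s),
          ((CL es F ρ0 Δ ((Θ \ s) ∪ π) (J - s.card)).image
            (fun z => (s ∪ z.1, cov es π ∪ z.2))).card ≤ (2 * (r * Δ ^ q)) ^ (J - s.card) :=
        fun π _ => card_image_le.trans (ih (J - s.card) (by omega) _)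
      refine (sum_le_sum hB).trans ?_
      rw [sum_const, smul_eq_mul]
      apply Nat.mul_le_mul_right
      refine (card_Pk h2 _).trans ?_
      rw [← pow_mul]
      apply Nat.pow_le_pow_right hΔ
      have : (cov es s).card ≤ ∑ x ∈ s, (es x).card := card_biUnion_le
      rw [sum_congr rfl (fun x _ => hes x), sum_const, smul_eq_mul] at this
      rw [mul_comm]; exact this
    · simp
  refine (sum_le_sum hX).trans ?_
  exact sum_weights T r _ J hTr

end Local

end Pool.Agent.Work.MP_c04246_lc.H
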