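import Mathlib
import Pool.Agent.Work.MP_c04246_lc.HLocal

set_option autoImplicit false
set_option linter.unusedSectionVars false
set_option linter.unusedSimpArgs false
set_option linter.unusedVariables false

namespace Pool.Agent.Work.MP_c04246_lc.H

open Finset

section Global

variable {U X : Type} [DecidableEq U] [DecidableEq X] {es : X → Finset U} {ι : Type}

/-- paths of the common decision tree of a family of disjunctions -/
inductive GR (es : X → Finset U) (F : ι → List (Finset X)) (I : Finset ι) (q ℓ : ℕ) :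
    Finset X → Finset X → Prop
  | last {τ σ : Finset X} {Q : Finset U} {i : ι} : i ∈ I → LR es (F i) τ σ Q → ℓ < q * σ.card →
      GR es F I q ℓ τ σ
  | step {τ σ π σ' : Finset X} {Q : Finset U} {i : ι} : i ∈ I → LR es (F i) τ σ Q →
      ℓ < q * σ.card → Cover es τ Q π → GR es F I q ℓ (τ ∪ π) σ' → GR es F I q ℓ τ (σ ∪ σ')

/-- states from which every disjunction is decided by few queries -/
def GS (es : X → Finset U) (F : ι → List (Finset X)) (I : Finset ι) (ℓ : ℕ) : Set (Finset X) :=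
  {θ | ∀ i ∈ I, Dec es (LF es (F i)) θ ℓ}

variable {q : ℕ} {F : ι → List (Finset X)} {I : Finset ι} {ℓ : ℕ}

lemma GR.facts (hq : 0 < q) (hes : ∀ x : X, (es x).card = q) {τ σ : Finset X}
    (h : GR es F I q ℓ τ σ) :
    PP es τ → PP es (τ ∪ σ) ∧ PP es σ ∧ Disjoint (cov es σ) (cov es τ) ∧ σ.Nonempty := by
  induction h with
  | @last τ σ Q i hi hl hc =>
    intro hτ
    obtain ⟨h1, h2, h3, h4, h5, h6, h7⟩ := hl.facts hq hes hτ
    exact ⟨h1, h2, h3, h7⟩
  | @step τ σ π σ' Q i hi hl hc hcov hg ih =>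
    intro hτ
    obtain ⟨h1, h2, h3, h4, h5, h6, h7⟩ := hl.facts hq hes hτ
    obtain ⟨g1, g2, g3, g4⟩ := ih (hcov.PP_union hτ)
    rw [cov_union, disjoint_union_right] at g3
    have hσσ : Disjoint (cov es σ') (cov es σ) :=
      Disjoint.mono_right (h5.trans hcov.2.2.1) g3.2
    have hPPσ : PP es (σ ∪ σ') := h2.union g2 hσσ
    have hd : Disjoint (cov es (σ ∪ σ')) (cov es τ) := by
      rw [cov_union, disjoint_union_left]; exact ⟨h3, g3.1⟩
    exact ⟨hτ.union hPPσ hd, hPPσ, hd, h7.mono subset_union_left⟩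

/-- a state from which a good state is not reached has a long path -/
lemma fail_global (hq : 0 < q) (hes : ∀ x : X, (es x).card = q) {r : ℕ}
    {ρ0 : Finset X} (hF : ∀ i ∈ I, ∀ t ∈ F i, (t \ ρ0).card ≤ r) (H : ℕ) :
    ∀ τ : Finset X, PP es τ → ρ0 ⊆ τ → ¬ Dec es (GS es F I ℓ) τ H →
      ∃ σ, GR es F I q ℓ τ σ ∧ H < q * (q * σ.card) ∧ q * σ.card ≤ H + ℓ + q * r := by
  induction H using Nat.strong_induction_on with
  | _ H ih =>
    intro τ hτ hρ0 hnd
    have hnL : τ ∉ GS es F I ℓ := fun hL => hnd (Dec.leaf hL)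
    simp only [GS, Set.mem_ofPred_eq, not_forall] at hnL
    obtain ⟨i, hi, hnd'⟩ := hnL
    obtain ⟨σ, Q, hR, h1, h2⟩ := fail_local hq hes (hF i hi) ℓ τ hτ hρ0 hnd'
    obtain ⟨g1, g2, g3, g4, g5, g6, g7⟩ := hR.facts hq hes hτ
    by_cases hlt : H < Q.card
    · exact ⟨σ, GR.last hi hR h1, lt_of_lt_of_le hlt g6, by omega⟩
    · have hQσ : q * σ.card ≤ Q.card := by
        rw [← g2.card_cov hes]; exact card_le_card g5
      have hpos : 0 < Q.card := lt_of_lt_of_le (by omega) hQσ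
      have h3 : ¬ ∀ π, Cover es τ Q π → Dec es (GS es F I ℓ) (τ ∪ π) (H - Q.card) := by
        intro hall
        apply hnd
        have := query_all (h := H - Q.card) _ τ Q le_rfl g4 hall
        exact this.mono_h _ (by omega)
      push Not at h3
      obtain ⟨π, hπ, hπ2⟩ := h3
      obtain ⟨σ', hR', h4, h5⟩ := ih (H - Q.card) (by omega) (τ ∪ π)
        (hπ.PP_union hτ) (hρ0.trans subset_union_left) hπ2
      refine ⟨_, GR.step hi hR h1 hπ hR', ?_⟩
      obtain ⟨_, _, k3, _⟩ := hR'.facts hq hes (hπ.PP_union hτ)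
      rw [cov_union, disjoint_union_right] at k3
      have hdj : Disjoint σ σ' :=
        disjoint_of_cov hq hes (Disjoint.mono_right (g5.trans hπ.2.2.1) k3.2)
      rw [card_union_of_disjoint hdj, mul_add, mul_add]
      omega

variable [Fintype X] [Fintype U]

open Classical in
/-- possible global paths, given the union `Θ` -/
noncomputable def CG (es : X → Finset U) (F : ι → List (Finset X)) (I : Finset ι) (q ℓ : ℕ)
    (ρ0 : Finset X) (Δ : ℕ) (Θ : Finset X) (J : ℕ) : Finset (Finset X) :=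
  univ.filter (fun σ => σ.card = J ∧ ∃ τ, PP es τ ∧ ρ0 ⊆ τ ∧ DgB es (univ \ cov es τ) Δ ∧
    PP es Θ ∧ GR es F I q ℓ τ σ ∧ τ ∪ σ = Θ)

lemma mem_CG {ρ0 Θ : Finset X} {Δ J : ℕ} {σ : Finset X} :
    σ ∈ CG es F I q ℓ ρ0 Δ Θ J ↔ σ.card = J ∧ ∃ τ, PP es τ ∧ ρ0 ⊆ τ ∧
      DgB es (univ \ cov es τ) Δ ∧ PP es Θ ∧ GR es F I q ℓ τ σ ∧ τ ∪ σ = Θ := by
  simp [CG]

/-- counting the global paths -/
lemma card_CG (hq : 0 < q) (hes : ∀ x : X, (es x).card = q) {r Δ : ℕ}
    {ρ0 : Finset X} (hF : ∀ i ∈ I, ∀ t ∈ F i, (t \ ρ0).card ≤ r) (hΔ : 1 ≤ Δ)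
    (hI : ∀ j, ℓ < q * j → I.card ≤ 2 ^ j) (J : ℕ) : ∀ Θ : Finset X,
      (CG es F I q ℓ ρ0 Δ Θ J).card ≤ (8 * (r * Δ ^ (q + q * q))) ^ J := by
  classical
  set Y := r * Δ ^ (q + q * q) with hY
  induction J using Nat.strong_induction_on with
  | _ J ih =>
  intro Θ
  let W : Finset X → Finset U := fun s => univ \ cov es (Θ \ s)
  let P1 : ι → Finset (Finset X) := fun i => (CL es (F i) ρ0 Δ Θ J).image Prod.fst
  let P2 : ℕ → ι → Finset X × Finset U → Finset (Finset X) := fun j i z =>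
    if DgB es (W z.1) Δ ∧ z.2.card ≤ q * (q * j) then (Pk es (W z.1) z.2).biUnion (fun π =>
        (CG es F I q ℓ ρ0 Δ ((Θ \ z.1) ∪ π) (J - j)).image (fun σ => z.1 ∪ σ))
      else ∅
  let Js := (range J).filter (fun j => ℓ < q * j)
  have hsub : CG es F I q ℓ ρ0 Δ Θ J ⊆
      (if ℓ < q * J then I.biUnion P1 else ∅) ∪ Js.biUnion (fun j =>
        I.biUnion (fun i => (CL es (F i) ρ0 Δ Θ j).biUnion (P2 j i))) := by
    intro ω hω
    obtain ⟨hωJ, τ, hτ, hρτ, hdg, hΘ, hR, hΘe⟩ := mem_CG.mp hω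
    rw [mem_union]
    cases hR with
    | @last _ _ Q i hi hl hc =>
      left
      rw [if_pos (by rw [← hωJ]; exact hc), mem_biUnion]
      refine ⟨i, hi, ?_⟩
      simp only [P1]
      rw [mem_image]
      refine ⟨(ω, Q), ?_, rfl⟩
      rw [mem_CL]
      refine ⟨hωJ, τ, hτ, hρτ, hdg, hΘ, hl, hΘe.subset, ?_⟩
      simp only
      rw [hΘe]
      have h0 : cov es (Θ \ Θ) = ∅ := by rw [sdiff_self]; exact cov_empty
      rw [h0]
      exact disjoint_empty_right _
    | @step _ s π σ' Q i hi hl hc hcov hg =>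
      right
      obtain ⟨h1, h2, h3, h4, h5, h6, h7⟩ := hl.facts hq hes hτ
      obtain ⟨g1, g2, g3, g4⟩ := hg.facts hq hes (hcov.PP_union hτ)
      rw [cov_union, disjoint_union_right] at g3
      have hss : Disjoint (cov es σ') (cov es s) :=
        Disjoint.mono_right (h5.trans hcov.2.2.1) g3.2
      have hdj : Disjoint s σ' := disjoint_of_cov hq hes hss
      have hτs : Disjoint τ s := disjoint_of_cov hq hes h3
      have hcard : s.card + σ'.card = J := by rw [← hωJ, card_union_of_disjoint hdj]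
      have hσpos := card_pos.mpr g4
      have hspos := card_pos.mpr h7
      have hΘs : Θ \ s = τ ∪ σ' := by
        rw [← hΘe]
        ext x
        simp only [mem_sdiff, mem_union]
        constructor
        · rintro ⟨h | h | h, hs⟩
          · exact Or.inl h
          · exact absurd h hs
          · exact Or.inr h
        · rintro (h | h)
          · exact ⟨Or.inl h, disjoint_left.mp hτs h⟩
          · exact ⟨Or.inr (Or.inr h), fun h' => disjoint_left.mp hdj h' h⟩
      have hΘts : Θ \ (τ ∪ s) ⊆ σ' := by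
        intro x hx
        rw [mem_sdiff, mem_union] at hx
        have h0 : x ∈ Θ \ s := mem_sdiff.mpr ⟨hx.1, fun h => hx.2 (Or.inr h)⟩
        rw [hΘs, mem_union] at h0
        exact h0.resolve_left fun h => hx.2 (Or.inl h)
      have hτsub : τ ⊆ Θ \ s := by rw [hΘs]; exact subset_union_left
      have hW : W s ⊆ univ \ cov es τ := sdiff_subset_sdiff Subset.rfl (cov_mono hτsub)
      have hπΘ : Disjoint (cov es π) (cov es (Θ \ s)) := by
        rw [hΘs, cov_union, disjoint_union_right]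
        exact ⟨hcov.2.1, g3.2.symm⟩
      rw [mem_biUnion]
      refine ⟨s.card, ?_, ?_⟩
      · rw [mem_filter, mem_range]
        exact ⟨by omega, hc⟩
      rw [mem_biUnion]
      refine ⟨i, hi, ?_⟩
      rw [mem_biUnion]
      refine ⟨(s, Q), ?_, ?_⟩
      · rw [mem_CL]
        refine ⟨rfl, τ, hτ, hρτ, hdg, hΘ, hl, ?_, ?_⟩
        · simp only
          rw [← hΘe, ← union_assoc]
          exact subset_union_left
        · simp only
          refine Disjoint.mono_right (cov_mono hΘts) ?_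
          exact Disjoint.mono_left hcov.2.2.1 g3.2.symm
      · simp only [P2]
        rw [if_pos ⟨hdg.mono hW, h6⟩, mem_biUnion]
        refine ⟨π, ?_, ?_⟩
        · rw [mem_Pk]
          refine ⟨hcov.1, ?_, hcov.2.2.1, hcov.2.2.2⟩
          intro v hv
          exact mem_sdiff.mpr ⟨mem_univ _, disjoint_left.mp hπΘ hv⟩
        · rw [mem_image]
          refine ⟨σ', ?_, rfl⟩
          rw [mem_CG]
          refine ⟨by omega, τ ∪ π, hcov.PP_union hτ, hρτ.trans subset_union_left,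
            hdg.mono (sdiff_subset_sdiff Subset.rfl (cov_mono subset_union_left)),
            (hΘ.mono sdiff_subset).union hcov.1 hπΘ, hg, ?_⟩
          rw [hΘs]
          ext x; simp only [mem_union]; tauto
  -- sizes of the pieces
  have hCL : ∀ i ∈ I, ∀ j, (CL es (F i) ρ0 Δ Θ j).card ≤ (2 * (r * Δ ^ q)) ^ j :=
    fun i hi j => card_CL hq hes (hF i hi) hΔ j Θ
  have hΔq : 1 ≤ Δ ^ (q * q) := Nat.one_le_pow _ _ hΔ
  have h2Y : 2 * (r * Δ ^ q) * Δ ^ (q * q) = 2 * Y := by
    rw [hY, pow_add]; ring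
  have hle : 2 * (r * Δ ^ q) ≤ 2 * Y := by
    rw [← h2Y]; exact Nat.le_mul_of_pos_right _ hΔq
  have hP1 : (if ℓ < q * J then I.biUnion P1 else ∅).card ≤ (4 * Y) ^ J := by
    split_ifs with h
    · refine card_biUnion_le.trans ?_
      have h1 : ∀ i ∈ I, (P1 i).card ≤ (2 * Y) ^ J := fun i hi =>
        card_image_le.trans ((hCL i hi J).trans (Nat.pow_le_pow_left hle _))
      refine (sum_le_sum h1).trans ?_
      rw [sum_const, smul_eq_mul]
      calc I.card * (2 * Y) ^ J ≤ 2 ^ J * (2 * Y) ^ J := Nat.mul_le_mul_right _ (hI J h)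
        _ = (4 * Y) ^ J := by rw [← mul_pow]; congr 1; ring
    · simp
  have hP2 : (Js.biUnion (fun j =>
        I.biUnion (fun i => (CL es (F i) ρ0 Δ Θ j).biUnion (P2 j i)))).card ≤
      ∑ j ∈ Js, (4 * Y) ^ j * (8 * Y) ^ (J - j) := by
    refine card_biUnion_le.trans (sum_le_sum fun j hj => ?_)
    rw [mem_filter, mem_range] at hj
    have hj1 : 1 ≤ j := by
      rcases Nat.eq_zero_or_pos j with h | h
      · subst h; simp at hj
      · exact h
    refine card_biUnion_le.trans ?_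
    have h1 : ∀ i ∈ I, ((CL es (F i) ρ0 Δ Θ j).biUnion (P2 j i)).card ≤
        (2 * Y) ^ j * (8 * Y) ^ (J - j) := by
      intro i hi
      refine card_biUnion_le.trans ?_
      have h2 : ∀ z ∈ CL es (F i) ρ0 Δ Θ j, (P2 j i z).card ≤
          (Δ ^ (q * q)) ^ j * (8 * Y) ^ (J - j) := by
        intro z _
        simp only [P2]
        split_ifs with h3
        · refine card_biUnion_le.trans ?_
          refine (sum_le_sum (fun π _ => card_image_le.trans (ih (J - j) (by omega) _))).trans ?_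
          rw [sum_const, smul_eq_mul]
          apply Nat.mul_le_mul_right
          refine (card_Pk h3.1 _).trans ?_
          rw [← pow_mul]
          apply Nat.pow_le_pow_right hΔ
          refine h3.2.trans (le_of_eq ?_)
          ring
        · simp
      refine (sum_le_sum h2).trans ?_
      rw [sum_const, smul_eq_mul]
      calc (CL es (F i) ρ0 Δ Θ j).card * ((Δ ^ (q * q)) ^ j * (8 * Y) ^ (J - j))
          ≤ (2 * (r * Δ ^ q)) ^ j * ((Δ ^ (q * q)) ^ j * (8 * Y) ^ (J - j)) :=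
            Nat.mul_le_mul_right _ (hCL i hi j)
        _ = (2 * Y) ^ j * (8 * Y) ^ (J - j) := by
            rw [← mul_assoc, ← mul_pow, h2Y]
    refine (sum_le_sum h1).trans ?_
    rw [sum_const, smul_eq_mul]
    calc I.card * ((2 * Y) ^ j * (8 * Y) ^ (J - j))
        ≤ 2 ^ j * ((2 * Y) ^ j * (8 * Y) ^ (J - j)) := Nat.mul_le_mul_right _ (hI j hj.2)
      _ = (4 * Y) ^ j * (8 * Y) ^ (J - j) := by
          rw [← mul_assoc, ← mul_pow]; congr 2; ring
  refine (card_le_card hsub).trans ((card_union_le _ _).trans ?_)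
  refine (Nat.add_le_add hP1 hP2).trans ?_
  have h8 : ∀ j ≤ J, (4 * Y) ^ j * (8 * Y) ^ (J - j) = (4 * Y) ^ J * 2 ^ (J - j) := by
    intro j hj
    have : (8 * Y) ^ (J - j) = (4 * Y) ^ (J - j) * 2 ^ (J - j) := by
      rw [← mul_pow]; congr 1; ring
    rw [this, ← mul_assoc, ← pow_add]
    congr 2
    omega
  have h9 : ∑ j ∈ Js, (4 * Y) ^ j * (8 * Y) ^ (J - j) ≤
      (4 * Y) ^ J * ∑ j ∈ Js, 2 ^ (J - j) := by
    rw [mul_sum]
    refine sum_le_sum fun j hj => ?_
    rw [mem_filter, mem_range] at hj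
    exact (h8 j hj.1.le).le
  have h10 : ∑ j ∈ Js, 2 ^ (J - j) + 1 ≤ 2 ^ J := by
    have h11 : ∑ j ∈ Js, 2 ^ (J - j) ≤ ∑ j ∈ range J, (if 1 ≤ j then 2 ^ (J - j) else 0) := by
      rw [← sum_filter]
      apply sum_le_sum_of_subset
      intro j hj
      rw [mem_filter] at hj ⊢
      refine ⟨hj.1, ?_⟩
      rcases Nat.eq_zero_or_pos j with h | h
      · subst h; simp at hj
      · exact h
    have h12 := geo_sum J
    rw [sum_range_succ] at h12
    rcases Nat.eq_zero_or_pos J with h | h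
    · subst h
      simp [Js]
    · rw [if_pos (show 1 ≤ J from h), Nat.sub_self, pow_zero] at h12
      omega
  calc (4 * Y) ^ J + ∑ j ∈ Js, (4 * Y) ^ j * (8 * Y) ^ (J - j)
      ≤ (4 * Y) ^ J + (4 * Y) ^ J * ∑ j ∈ Js, 2 ^ (J - j) := Nat.add_le_add_left h9 _
    _ = (4 * Y) ^ J * (∑ j ∈ Js, 2 ^ (J - j) + 1) := by ring
    _ ≤ (4 * Y) ^ J * 2 ^ J := Nat.mul_le_mul_left _ h10
    _ = (8 * Y) ^ J := by rw [← mul_pow]; congr 1; ring

end Global

end Pool.Agent.Work.MP_c04246_lc.H
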