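import Mathlib
import Pool.Agent.Work.MP_c04246_lc.HGlobal

set_option autoImplicit false
set_option linter.unusedSectionVars false
set_option linter.unusedSimpArgs false
set_option linter.unusedVariables false

namespace Pool.Agent.Work.MP_c04246_lc.H

open Finset

section Weights

variable {X : Type} [DecidableEq X]

/-- weighted number of members of `A` -/
def Wt (ρ0 : Finset X) (θ : ℕ) (A : Finset (Finset X)) : ℕ := ∑ ρ ∈ A, θ ^ (ρ \ ρ0).card

lemma Wt_mono {ρ0 : Finset X} {θ : ℕ} {A B : Finset (Finset X)} (h : A ⊆ B) :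
    Wt ρ0 θ A ≤ Wt ρ0 θ B := sum_le_sum_of_subset h

lemma Wt_biUnion {ι : Type} [DecidableEq ι] (ρ0 : Finset X) (θ : ℕ) (s : Finset ι)
    (A : ι → Finset (Finset X)) : Wt ρ0 θ (s.biUnion A) ≤ ∑ i ∈ s, Wt ρ0 θ (A i) := by
  classical
  induction s using Finset.induction_on with
  | empty => simp [Wt]
  | insert a s ha ih =>
    rw [biUnion_insert, sum_insert ha]
    unfold Wt at *
    refine le_trans ?_ (Nat.add_le_add_left ih _)
    rw [← sum_union_inter]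
    exact Nat.le_add_right _ _

lemma Wt_union (ρ0 : Finset X) (θ : ℕ) (A B : Finset (Finset X)) :
    Wt ρ0 θ (A ∪ B) ≤ Wt ρ0 θ A + Wt ρ0 θ B := by
  unfold Wt
  rw [← sum_union_inter]
  exact Nat.le_add_right _ _

/-- adding hyperedges -/
lemma add_step {ρ0 : Finset X} {θ : ℕ} {A B : Finset (Finset X)} {a b : ℕ}
    (N : Finset X → Finset X) (P : X → Prop) [DecidablePred P] (hA : ∀ ρ ∈ A, ρ0 ⊆ ρ)
    (hN : ∀ ρ ∈ A, a ≤ (N ρ).card) (hN1 : ∀ ρ ∈ A, ∀ x ∈ N ρ, x ∉ ρ ∧ insert x ρ ∈ B ∧ P x)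
    (hb : ∀ ρ ∈ B, ((ρ \ ρ0).filter P).card ≤ b) :
    Wt ρ0 θ A * (a * θ) ≤ Wt ρ0 θ B * b := by
  classical
  have h1 : Wt ρ0 θ A * (a * θ) ≤ ∑ z ∈ A.sigma N, θ ^ ((insert z.2 z.1) \ ρ0).card := by
    rw [sum_sigma]
    unfold Wt
    rw [sum_mul]
    refine sum_le_sum fun ρ hρ => ?_
    have h2 : ∀ x ∈ N ρ, θ ^ ((insert x ρ) \ ρ0).card = θ ^ (ρ \ ρ0).card * θ := by
      intro x hx
      obtain ⟨hx1, _, _⟩ := hN1 ρ hρ x hx
      have hx0 : x ∉ ρ0 := fun h => hx1 (hA ρ hρ h)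
      have : insert x ρ \ ρ0 = insert x (ρ \ ρ0) := by
        rw [insert_sdiff_of_notMem _ hx0]
      rw [this, card_insert_of_notMem (fun h => hx1 (mem_sdiff.mp h).1), pow_succ]
    rw [sum_congr rfl h2, sum_const, smul_eq_mul]
    calc θ ^ (ρ \ ρ0).card * (a * θ) = a * (θ ^ (ρ \ ρ0).card * θ) := by ring
      _ ≤ (N ρ).card * (θ ^ (ρ \ ρ0).card * θ) := Nat.mul_le_mul_right _ (hN ρ hρ)
  have h3 : ∑ z ∈ A.sigma N, θ ^ ((insert z.2 z.1) \ ρ0).card ≤
      ∑ z ∈ B.sigma (fun ρ => (ρ \ ρ0).filter P), θ ^ (z.1 \ ρ0).card := by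
    let f : (Σ _ : Finset X, X) → (Σ _ : Finset X, X) := fun z => ⟨insert z.2 z.1, z.2⟩
    have hinj : Set.InjOn f (A.sigma N) := by
      rintro ⟨ρ, x⟩ hz ⟨ρ', x'⟩ hz' h
      rw [mem_coe, mem_sigma] at hz hz'
      simp only [f, Sigma.mk.injEq] at h
      obtain ⟨h1, h2⟩ := h
      have h2' : x = x' := eq_of_heq h2
      subst h2'
      have hx1 := (hN1 _ hz.1 _ hz.2).1
      have hx2 := (hN1 _ hz'.1 _ hz'.2).1
      simp only at hx1 hx2
      have : ρ = ρ' := by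
        rw [← erase_insert hx1, ← erase_insert hx2, h1]
      subst this; rfl
    have h4 : ∑ z ∈ A.sigma N, θ ^ ((insert z.2 z.1) \ ρ0).card =
        ∑ z ∈ (A.sigma N).image f, θ ^ (z.1 \ ρ0).card := by
      rw [sum_image hinj]
    rw [h4]
    apply sum_le_sum_of_subset
    intro z hz
    rw [mem_image] at hz
    obtain ⟨⟨ρ, x⟩, hz, rfl⟩ := hz
    rw [mem_sigma] at hz
    obtain ⟨hx1, hx2, hx3⟩ := hN1 _ hz.1 _ hz.2
    simp only at hx1 hx2 hx3
    rw [mem_sigma]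
    refine ⟨hx2, ?_⟩
    simp only [f]
    rw [mem_filter, mem_sdiff]
    exact ⟨⟨mem_insert_self _ _, fun h => hx1 (hA ρ hz.1 h)⟩, hx3⟩
  refine h1.trans (h3.trans ?_)
  rw [sum_sigma]
  unfold Wt
  rw [sum_mul]
  refine sum_le_sum fun ρ hρ => ?_
  simp only
  rw [sum_const, smul_eq_mul, mul_comm]
  exact Nat.mul_le_mul_left _ (hb ρ hρ)

/-- removing hyperedges -/
lemma del_step {ρ0 : Finset X} {θ : ℕ} {A B : Finset (Finset X)} {a b : ℕ}
    (N : Finset X → Finset X) (Q : Finset X → Finset X)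
    (hN : ∀ ρ ∈ A, a ≤ (N ρ).card)
    (hN1 : ∀ ρ ∈ A, ∀ x ∈ N ρ, x ∈ ρ \ ρ0 ∧ ρ.erase x ∈ B ∧ x ∈ Q (ρ.erase x))
    (hb : ∀ ρ ∈ B, (Q ρ).card ≤ b) :
    Wt ρ0 θ A * a ≤ Wt ρ0 θ B * (b * θ) := by
  classical
  have h1 : Wt ρ0 θ A * a ≤ ∑ z ∈ A.sigma N, θ ^ (z.1.erase z.2 \ ρ0).card * θ := by
    rw [sum_sigma]
    unfold Wt
    rw [sum_mul]
    refine sum_le_sum fun ρ hρ => ?_
    have h2 : ∀ x ∈ N ρ, θ ^ (ρ.erase x \ ρ0).card * θ = θ ^ (ρ \ ρ0).card := by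
      intro x hx
      obtain ⟨hx1, _, _⟩ := hN1 ρ hρ x hx
      have : ρ.erase x \ ρ0 = (ρ \ ρ0).erase x := by
        ext y; simp only [mem_sdiff, mem_erase]; tauto
      rw [this, ← pow_succ, card_erase_add_one hx1]
    rw [sum_congr rfl h2, sum_const, smul_eq_mul, mul_comm]
    exact Nat.mul_le_mul_right _ (hN ρ hρ)
  have h3 : ∑ z ∈ A.sigma N, θ ^ (z.1.erase z.2 \ ρ0).card * θ ≤
      ∑ z ∈ B.sigma Q, θ ^ (z.1 \ ρ0).card * θ := by
    let f : (Σ _ : Finset X, X) → (Σ _ : Finset X, X) := fun z => ⟨z.1.erase z.2, z.2⟩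
    have hinj : Set.InjOn f (A.sigma N) := by
      rintro ⟨ρ, x⟩ hz ⟨ρ', x'⟩ hz' h
      rw [mem_coe, mem_sigma] at hz hz'
      simp only [f, Sigma.mk.injEq] at h
      obtain ⟨h1, h2⟩ := h
      have h2' : x = x' := eq_of_heq h2
      subst h2'
      have hx1 := (mem_sdiff.mp (hN1 _ hz.1 _ hz.2).1).1
      have hx2 := (mem_sdiff.mp (hN1 _ hz'.1 _ hz'.2).1).1
      simp only at hx1 hx2
      have : ρ = ρ' := by
        rw [← insert_erase hx1, ← insert_erase hx2, h1]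
      subst this; rfl
    have h4 : ∑ z ∈ A.sigma N, θ ^ (z.1.erase z.2 \ ρ0).card * θ =
        ∑ z ∈ (A.sigma N).image f, θ ^ (z.1 \ ρ0).card * θ := by
      rw [sum_image hinj]
    rw [h4]
    apply sum_le_sum_of_subset
    intro z hz
    rw [mem_image] at hz
    obtain ⟨⟨ρ, x⟩, hz, rfl⟩ := hz
    rw [mem_sigma] at hz
    obtain ⟨hx1, hx2, hx3⟩ := hN1 _ hz.1 _ hz.2
    rw [mem_sigma]
    exact ⟨hx2, hx3⟩
  refine h1.trans (h3.trans ?_)
  rw [sum_sigma]
  unfold Wt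
  rw [sum_mul]
  refine sum_le_sum fun ρ hρ => ?_
  simp only
  rw [sum_const, smul_eq_mul]
  calc (Q ρ).card * (θ ^ (ρ \ ρ0).card * θ) ≤ b * (θ ^ (ρ \ ρ0).card * θ) :=
        Nat.mul_le_mul_right _ (hb ρ hρ)
    _ = θ ^ (ρ \ ρ0).card * (b * θ) := by ring

end Weights

section Sys

/-- Hyperedges live in worlds; each world contains all `q`-element subsets of its vertex set. The
vertices are grouped into blocks, and each vertex lies in at most two worlds. -/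
structure Sys (U X R E : Type) [DecidableEq U] [Fintype R] [DecidableEq R] (q : ℕ) where
  es : X → Finset U
  wd : X → R
  Wv : R → Finset U
  bl : U → E
  card_es : ∀ x, (es x).card = q
  sub : ∀ x, es x ⊆ Wv (wd x)
  ex : ∀ v (S : Finset U), S ⊆ Wv v → S.card = q → ∃ x, wd x = v ∧ es x = S
  inj : ∀ x y, wd x = wd y → es x = es y → x = y
  two : ∀ u, (univ.filter fun v => u ∈ Wv v).card ≤ 2

variable {U X R E : Type} [DecidableEq U] [DecidableEq X] [Fintype R] [DecidableEq R]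
  [Fintype X] [Fintype U] [DecidableEq E] [Fintype E] {q : ℕ}

namespace Sys

variable (Sy : Sys U X R E q)

/-- number of uncovered vertices of a world -/
def wf (v : R) (ρ : Finset X) : ℕ := (Sy.Wv v \ cov Sy.es ρ).card

/-- uncovered vertices of a block -/
def fb (e : E) (ρ : Finset X) : Finset U := (univ.filter fun u => Sy.bl u = e) \ cov Sy.es ρ

/-- number of uncovered vertices of a block -/
def bf (e : E) (ρ : Finset X) : ℕ := (Sy.fb e ρ).card

open Classical in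
/-- extensions of `ρ0` -/
noncomputable def Ext (ρ0 : Finset X) : Finset (Finset X) :=
  univ.filter fun ρ => PP Sy.es ρ ∧ ρ0 ⊆ ρ

variable {Sy}

lemma mem_Ext {ρ0 ρ : Finset X} : ρ ∈ Sy.Ext ρ0 ↔ PP Sy.es ρ ∧ ρ0 ⊆ ρ := by simp [Ext]

/-- hyperedges of the world `v` inside `S` -/
def inW (Sy : Sys U X R E q) (v : R) (S : Finset U) : Finset X :=
  univ.filter fun x => Sy.wd x = v ∧ Sy.es x ⊆ S

lemma card_inW (v : R) (S : Finset U) : (Sy.inW v (Sy.Wv v ∩ S)).card =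
    (Sy.Wv v ∩ S).card.choose q := by
  classical
  rw [← card_powersetCard]
  refine card_bij (fun x _ => Sy.es x) ?_ ?_ ?_
  · intro x hx
    simp only [inW, mem_filter, mem_univ, true_and] at hx
    rw [mem_powersetCard]
    exact ⟨hx.2, Sy.card_es x⟩
  · intro x hx y hy h
    simp only [inW, mem_filter, mem_univ, true_and] at hx hy
    exact Sy.inj x y (hx.1.trans hy.1.symm) h
  · intro S' hS'
    rw [mem_powersetCard] at hS'
    obtain ⟨x, hx1, hx2⟩ := Sy.ex v S' (hS'.1.trans inter_subset_left) hS'.2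
    refine ⟨x, ?_, hx2⟩
    simp only [inW, mem_filter, mem_univ, true_and]
    exact ⟨hx1, hx2 ▸ hS'.1⟩

/-- number of hyperedges inside `S` containing a given vertex -/
lemma card_through {u : U} {S : Finset U} {T : ℕ} (hS : ∀ v, u ∈ Sy.Wv v → (Sy.Wv v ∩ S).card ≤ T)
    (hq : 0 < q) : (univ.filter fun x : X => u ∈ Sy.es x ∧ Sy.es x ⊆ S).card ≤ 2 * T ^ (q - 1) := by
  classical
  have h1 : (univ.filter fun x : X => u ∈ Sy.es x ∧ Sy.es x ⊆ S) ⊆
      (univ.filter fun v => u ∈ Sy.Wv v).biUnion fun v =>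
        univ.filter fun x : X => Sy.wd x = v ∧ u ∈ Sy.es x ∧ Sy.es x ⊆ S := by
    intro x hx
    rw [mem_filter] at hx
    rw [mem_biUnion]
    refine ⟨Sy.wd x, ?_, ?_⟩
    · rw [mem_filter]; exact ⟨mem_univ _, Sy.sub x hx.2.1⟩
    · rw [mem_filter]; exact ⟨mem_univ _, rfl, hx.2⟩
  refine (card_le_card h1).trans (card_biUnion_le.trans ?_)
  have h2 : ∀ v ∈ univ.filter fun v => u ∈ Sy.Wv v,
      (univ.filter fun x : X => Sy.wd x = v ∧ u ∈ Sy.es x ∧ Sy.es x ⊆ S).card ≤ T ^ (q - 1) := by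
    intro v hv
    rw [mem_filter] at hv
    have h3 : (univ.filter fun x : X => Sy.wd x = v ∧ u ∈ Sy.es x ∧ Sy.es x ⊆ S).card ≤
        (powersetCard (q - 1) (Sy.Wv v ∩ S)).card := by
      refine card_le_card_of_injOn (fun x => (Sy.es x).erase u) ?_ ?_
      · intro x hx
        rw [mem_coe, mem_filter] at hx
        obtain ⟨_, hx1, hx2, hx3⟩ := hx
        rw [mem_coe, mem_powersetCard]
        refine ⟨?_, by rw [card_erase_of_mem hx2, Sy.card_es]⟩
        intro z hz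
        rw [mem_erase] at hz
        rw [mem_inter]
        exact ⟨hx1 ▸ Sy.sub x hz.2, hx3 hz.2⟩
      · intro x hx y hy h
        rw [mem_coe, mem_filter] at hx hy
        refine Sy.inj x y (hx.2.1.trans hy.2.1.symm) ?_
        rw [← insert_erase hx.2.2.1, ← insert_erase hy.2.2.1]
        simp only at h
        rw [h]
    refine h3.trans ?_
    rw [card_powersetCard]
    exact (Nat.choose_le_pow _ _).trans (Nat.pow_le_pow_left (hS v hv.2) _)
  refine (sum_le_sum h2).trans ?_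
  rw [sum_const, smul_eq_mul]
  exact Nat.mul_le_mul_right _ (Sy.two u)

lemma wf_insert {v : R} {ρ : Finset X} {x : X} : Sy.wf v ρ ≤ Sy.wf v (insert x ρ) + q := by
  unfold wf
  have h1 : Sy.Wv v \ cov Sy.es ρ ⊆ (Sy.Wv v \ cov Sy.es (insert x ρ)) ∪ Sy.es x := by
    intro u hu
    rw [mem_sdiff] at hu
    rw [mem_union, mem_sdiff, cov_insert, mem_union]
    tauto
  refine (card_le_card h1).trans ((card_union_le _ _).trans ?_)
  rw [Sy.card_es]

lemma wf_erase {v : R} {ρ : Finset X} {x : X} (hx : x ∈ ρ) :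
    Sy.wf v (ρ.erase x) ≤ Sy.wf v ρ + q := by
  have := Sy.wf_insert (v := v) (ρ := ρ.erase x) (x := x)
  rw [insert_erase hx] at this
  exact this

lemma bf_erase {e : E} {ρ : Finset X} {x : X} (hx : x ∈ ρ) :
    Sy.bf e (ρ.erase x) ≤ Sy.bf e ρ + q := by
  unfold bf fb
  have h1 : (univ.filter fun u => Sy.bl u = e) \ cov Sy.es (ρ.erase x) ⊆
      ((univ.filter fun u => Sy.bl u = e) \ cov Sy.es ρ) ∪ Sy.es x := by
    intro u hu
    rw [mem_sdiff] at hu
    rw [mem_union, mem_sdiff]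
    by_cases h : u ∈ Sy.es x
    · exact Or.inr h
    · refine Or.inl ⟨hu.1, fun h' => hu.2 ?_⟩
      obtain ⟨y, hy, huy⟩ := mem_cov.mp h'
      exact mem_cov.mpr ⟨y, mem_erase.mpr ⟨fun h0 => h (h0 ▸ huy), hy⟩, huy⟩
  refine (card_le_card h1).trans ((card_union_le _ _).trans ?_)
  rw [Sy.card_es]

open Classical in
/-- upper tail for the number of uncovered vertices of a world -/
lemma upper_tail (hq : 0 < q) {ρ0 : Finset X} (hρ0 : PP Sy.es ρ0) {θ T0 t1 : ℕ} (v : R)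
    (hT0 : Sy.wf v ρ0 ≤ T0) (hθ : 2 * T0 ≤ t1.choose q * θ) (hT0' : 0 < T0) (k : ℕ) :
    Wt ρ0 θ ((Sy.Ext ρ0).filter fun ρ => t1 + q * k ≤ Sy.wf v ρ) * 2 ^ k ≤
      Wt ρ0 θ (Sy.Ext ρ0) := by
  induction k with
  | zero => simpa using Wt_mono (filter_subset _ _)
  | succ k ih =>
    refine le_trans ?_ ih
    rw [pow_succ, ← mul_assoc, mul_right_comm]
    apply Nat.mul_le_mul_right
    set A := (Sy.Ext ρ0).filter fun ρ => t1 + q * (k + 1) ≤ Sy.wf v ρ with hA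
    set B := (Sy.Ext ρ0).filter fun ρ => t1 + q * k ≤ Sy.wf v ρ with hB
    have hstep : Wt ρ0 θ A * (t1.choose q * θ) ≤ Wt ρ0 θ B * T0 := by
      refine add_step (fun ρ => Sy.inW v (Sy.Wv v ∩ (univ \ cov Sy.es ρ)))
        (fun x => Sy.wd x = v) ?_ ?_ ?_ ?_
      · intro ρ hρ
        rw [hA, mem_filter, mem_Ext] at hρ
        exact hρ.1.2
      · intro ρ hρ
        rw [hA, mem_filter, mem_Ext] at hρ
        rw [card_inW]
        apply Nat.choose_le_choose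
        have h1 : Sy.Wv v ∩ (univ \ cov Sy.es ρ) = Sy.Wv v \ cov Sy.es ρ := by
          ext u; simp [mem_inter, mem_sdiff]
        rw [h1]
        have := hρ.2
        unfold wf at this
        exact le_trans (Nat.le_add_right _ _) this
      · intro ρ hρ x hx
        rw [hA, mem_filter, mem_Ext] at hρ
        simp only [inW, mem_filter, mem_univ, true_and] at hx
        have hd : Disjoint (Sy.es x) (cov Sy.es ρ) := by
          rw [disjoint_left]
          intro u hu hu'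
          have := hx.2 hu
          rw [mem_inter, mem_sdiff] at this
          exact this.2.2 hu'
        have hxρ : x ∉ ρ := by
          intro h
          obtain ⟨u, hu⟩ : (Sy.es x).Nonempty := by rw [← card_pos, Sy.card_es]; exact hq
          exact disjoint_left.mp hd hu (es_subset_cov h hu)
        refine ⟨hxρ, ?_, hx.1⟩
        rw [hB, mem_filter, mem_Ext]
        refine ⟨⟨hρ.1.1.insert hd, hρ.1.2.trans (subset_insert _ _)⟩, ?_⟩
        have h1 := Sy.wf_insert (v := v) (ρ := ρ) (x := x)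
        have h2 := hρ.2
        rw [Nat.mul_succ] at h2
        omega
      · intro ρ hρ
        rw [hB, mem_filter, mem_Ext] at hρ
        set N := (ρ \ ρ0).filter fun x => Sy.wd x = v with hN
        have hNPP : PP Sy.es N := hρ.1.1.mono ((filter_subset _ _).trans sdiff_subset)
        have h1 := hNPP.card_cov Sy.card_es
        have h2 : cov Sy.es N ⊆ Sy.Wv v \ cov Sy.es ρ0 := by
          intro u hu
          obtain ⟨x, hx, hux⟩ := mem_cov.mp hu
          rw [hN, mem_filter, mem_sdiff] at hx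
          rw [mem_sdiff]
          refine ⟨hx.2 ▸ Sy.sub x hux, fun h => ?_⟩
          obtain ⟨y, hy, huy⟩ := mem_cov.mp h
          have := hρ.1.1.insert_of_mem_disj hx.1.1 (hρ.1.2 hy) hux huy
          exact hx.1.2 (this ▸ hy)
        have h3 := card_le_card h2
        rw [h1] at h3
        have h4 : N.card ≤ q * N.card := Nat.le_mul_of_pos_left _ hq
        exact h4.trans (h3.trans hT0)
    have h5 : Wt ρ0 θ A * (2 * T0) ≤ Wt ρ0 θ B * T0 := (Nat.mul_le_mul_left _ hθ).trans hstep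
    have h6 : Wt ρ0 θ A * 2 * T0 ≤ Wt ρ0 θ B * T0 := by rw [mul_assoc]; exact h5
    exact Nat.le_of_mul_le_mul_right h6 hT0'

open Classical in
/-- lower tail for the number of uncovered vertices of a block -/
lemma lower_tail (hq : 0 < q) {ρ0 : Finset X} (hρ0 : PP Sy.es ρ0) {θ M0 M1 T1 a j0 : ℕ} (e : E)
    (hM0 : M0 ≤ Sy.bf e ρ0) (ha : q * a + (M1 + q * j0) ≤ M0)
    (hθ : 2 * (((M1 + q * j0) * (2 * (T1 + q * j0) ^ (q - 1))) * θ) ≤ a)
    (hθ0 : 0 < θ) (hM1 : 0 < M1) (hT1 : 0 < T1) :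
    Wt ρ0 θ ((Sy.Ext ρ0).filter fun ρ => Sy.bf e ρ ≤ M1 ∧ ∀ v, Sy.wf v ρ ≤ T1) *
      2 ^ j0 ≤ Wt ρ0 θ (Sy.Ext ρ0) := by
  set L : ℕ → Finset (Finset X) := fun j => (Sy.Ext ρ0).filter fun ρ =>
    Sy.bf e ρ ≤ M1 + q * j ∧ ∀ v, Sy.wf v ρ ≤ T1 + q * j with hL
  set b := (M1 + q * j0) * (2 * (T1 + q * j0) ^ (q - 1)) with hb
  have hbpos : 0 < b := by
    rw [hb]
    have : 0 < T1 + q * j0 := by omega
    positivity
  have hstep : ∀ j < j0, Wt ρ0 θ (L j) * 2 ≤ Wt ρ0 θ (L (j + 1)) := by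
    intro j hj
    have hqj : q * (j + 1) ≤ q * j0 := Nat.mul_le_mul_left _ hj
    have hqj' : q * j + q ≤ q * j0 := by rw [← Nat.mul_succ]; exact hqj
    have h1 : Wt ρ0 θ (L j) * a ≤ Wt ρ0 θ (L (j + 1)) * (b * θ) := by
      refine del_step (fun ρ => (ρ \ ρ0).filter fun x => (Sy.es x ∩ Sy.fb e ρ0).Nonempty)
        (fun ρ => (Sy.fb e ρ).biUnion fun u =>
          univ.filter fun x : X => u ∈ Sy.es x ∧ Sy.es x ⊆ univ \ cov Sy.es ρ) ?_ ?_ ?_
      · intro ρ hρ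
        rw [hL] at hρ
        simp only [mem_filter, mem_Ext] at hρ
        obtain ⟨⟨hPP, hρ0ρ⟩, hbf, hwf⟩ := hρ
        set N := (ρ \ ρ0).filter fun x => (Sy.es x ∩ Sy.fb e ρ0).Nonempty with hN
        have h2 : Sy.fb e ρ0 ⊆ Sy.fb e ρ ∪ cov Sy.es N := by
          intro u hu
          rw [mem_union]
          by_cases hc : u ∈ cov Sy.es ρ
          · right
            obtain ⟨x, hx, hux⟩ := mem_cov.mp hc
            refine mem_cov.mpr ⟨x, ?_, hux⟩
            rw [hN, mem_filter, mem_sdiff]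
            refine ⟨⟨hx, fun h => ?_⟩, ⟨u, mem_inter.mpr ⟨hux, hu⟩⟩⟩
            unfold fb at hu
            exact (mem_sdiff.mp hu).2 (es_subset_cov h hux)
          · left
            unfold fb at hu ⊢
            exact mem_sdiff.mpr ⟨(mem_sdiff.mp hu).1, hc⟩
        have hNPP : PP Sy.es N := hPP.mono ((filter_subset _ _).trans sdiff_subset)
        have h3 := (card_le_card h2).trans (card_union_le _ _)
        rw [hNPP.card_cov Sy.card_es] at h3
        have h4 : (Sy.fb e ρ0).card = Sy.bf e ρ0 := rfl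
        have h5 : (Sy.fb e ρ).card = Sy.bf e ρ := rfl
        rw [h4, h5] at h3
        have h6 : q * a ≤ q * N.card := by omega
        exact Nat.le_of_mul_le_mul_left h6 hq
      · intro ρ hρ x hx
        rw [hL] at hρ
        simp only [mem_filter, mem_Ext] at hρ
        obtain ⟨⟨hPP, hρ0ρ⟩, hbf, hwf⟩ := hρ
        rw [mem_filter] at hx
        obtain ⟨hx1, u, hu⟩ := hx
        rw [mem_inter] at hu
        have hxρ := (mem_sdiff.mp hx1).1
        have hfree : Sy.es x ⊆ univ \ cov Sy.es (ρ.erase x) := by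
          intro z hz
          refine mem_sdiff.mpr ⟨mem_univ _, fun h => ?_⟩
          obtain ⟨y, hy, hzy⟩ := mem_cov.mp h
          rw [mem_erase] at hy
          exact hy.1 (hPP.insert_of_mem_disj hy.2 hxρ hzy hz)
        refine ⟨hx1, ?_, ?_⟩
        · rw [hL]
          simp only [mem_filter, mem_Ext]
          refine ⟨⟨hPP.mono (erase_subset _ _), ?_⟩, ?_, ?_⟩
          · intro y hy
            exact mem_erase.mpr ⟨fun h => (mem_sdiff.mp hx1).2 (h ▸ hy), hρ0ρ hy⟩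
          · have := Sy.bf_erase (e := e) hxρ
            rw [Nat.mul_succ]; omega
          · intro v
            have := Sy.wf_erase (v := v) hxρ
            have := hwf v
            rw [Nat.mul_succ]; omega
        · rw [mem_biUnion]
          refine ⟨u, ?_, ?_⟩
          · unfold fb at hu ⊢
            rw [mem_sdiff] at hu ⊢
            exact ⟨hu.2.1, (mem_sdiff.mp (hfree hu.1)).2⟩
          · rw [mem_filter]
            exact ⟨mem_univ _, hu.1, hfree⟩
      · intro ρ hρ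
        rw [hL] at hρ
        simp only [mem_filter, mem_Ext] at hρ
        obtain ⟨⟨hPP, hρ0ρ⟩, hbf, hwf⟩ := hρ
        refine card_biUnion_le.trans ?_
        have h2 : ∀ u ∈ Sy.fb e ρ, (univ.filter fun x : X => u ∈ Sy.es x ∧
            Sy.es x ⊆ univ \ cov Sy.es ρ).card ≤ 2 * (T1 + q * j0) ^ (q - 1) := by
          intro u _
          refine card_through (fun v _ => ?_) hq
          have h3 : Sy.Wv v ∩ (univ \ cov Sy.es ρ) = Sy.Wv v \ cov Sy.es ρ := by
            ext u; simp [mem_inter, mem_sdiff]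
          rw [h3]
          exact (hwf v).trans (by omega)
        refine (sum_le_sum h2).trans ?_
        rw [sum_const, smul_eq_mul, hb]
        apply Nat.mul_le_mul_right
        have : (Sy.fb e ρ).card = Sy.bf e ρ := rfl
        omega
    have h2 : Wt ρ0 θ (L j) * 2 * (b * θ) ≤ Wt ρ0 θ (L (j + 1)) * (b * θ) := by
      refine le_trans ?_ h1
      rw [mul_assoc]
      exact Nat.mul_le_mul_left _ hθ
    exact Nat.le_of_mul_le_mul_right h2 (Nat.mul_pos hbpos hθ0)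
  have hiter : ∀ j ≤ j0, Wt ρ0 θ (L 0) * 2 ^ j ≤ Wt ρ0 θ (L j) := by
    intro j
    induction j with
    | zero => intro _; simp
    | succ j ih =>
      intro hj
      have h1 := ih (by omega)
      have h2 := hstep j (by omega)
      rw [pow_succ, ← mul_assoc]
      exact (Nat.mul_le_mul_right _ h1).trans h2
  have h3 := hiter j0 le_rfl
  have h4 : Wt ρ0 θ (L j0) ≤ Wt ρ0 θ (Sy.Ext ρ0) := Wt_mono (filter_subset _ _)
  refine le_trans (Nat.mul_le_mul_right _ (Wt_mono ?_)) (h3.trans h4)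
  intro ρ hρ
  rw [hL]
  simp only [mem_filter] at hρ ⊢
  simpa using hρ

/-- the weight of the restrictions for which the common decision tree fails -/
lemma bad_weight {ι : Type} (hq : 0 < q) {ρ0 : Finset X} {θ A Δ r ℓ h : ℕ}
    {τ0 : Finset X} {F : ι → List (Finset X)} {I : Finset ι}
    (hF : ∀ i ∈ I, ∀ t ∈ F i, (t \ τ0).card ≤ r) (hr : 1 ≤ r) (hΔ : 1 ≤ Δ) (hA : 1 ≤ A)
    (hI : ∀ j, ℓ < q * j → I.card ≤ 2 ^ j)
    (hθ : A * (8 * (r * Δ ^ (q + q * q))) ≤ θ) (Bad : Finset (Finset X))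
    (hBad : ∀ ρ ∈ Bad, ρ ∈ Sy.Ext ρ0 ∧ DgB Sy.es (univ \ cov Sy.es ρ) Δ ∧ PP Sy.es (ρ ∪ τ0) ∧
      ¬ Dec Sy.es (GS Sy.es F I ℓ) (ρ ∪ τ0) (q * (q * h))) :
    Wt ρ0 θ Bad * A ^ h ≤ (q * h + ℓ + r) * Wt ρ0 θ (Sy.Ext ρ0) := by
  classical
  set B := 8 * (r * Δ ^ (q + q * q)) with hB
  have hBpos : 0 < B := by rw [hB]; positivity
  set J1 := q * h + ℓ + r with hJ1
  have hex : ∀ ρ ∈ Bad, ∃ σ, GR Sy.es F I q ℓ (ρ ∪ τ0) σ ∧ h < σ.card ∧ σ.card ≤ J1 := by
    intro ρ hρ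
    obtain ⟨h1, h2, h3, h4⟩ := hBad ρ hρ
    obtain ⟨σ, h5, h6, h7⟩ := fail_global hq Sy.card_es hF (q * (q * h)) (ρ ∪ τ0) h3
      subset_union_right h4
    refine ⟨σ, h5, ?_, ?_⟩
    · exact Nat.lt_of_mul_lt_mul_left (Nat.lt_of_mul_lt_mul_left h6)
    · have h8 : q * σ.card ≤ q * J1 := by
        refine h7.trans ?_
        rw [hJ1, mul_add, mul_add]
        have : ℓ ≤ q * ℓ := Nat.le_mul_of_pos_left _ hq
        omega
      exact Nat.le_of_mul_le_mul_left h8 hq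
  choose! sg hsg1 hsg2 hsg3 using hex
  let BJ : ℕ → Finset (Finset X) := fun J => Bad.filter fun ρ => (sg ρ).card = J
  have hcover : Bad ⊆ (Ioc h J1).biUnion BJ := by
    intro ρ hρ
    rw [mem_biUnion]
    exact ⟨(sg ρ).card, mem_Ioc.mpr ⟨hsg2 ρ hρ, hsg3 ρ hρ⟩, mem_filter.mpr ⟨hρ, rfl⟩⟩
  have hJ : ∀ J ∈ Ioc h J1, Wt ρ0 θ (BJ J) * A ^ h ≤ Wt ρ0 θ (Sy.Ext ρ0) := by
    intro J hJ
    rw [mem_Ioc] at hJ
    have key : Wt ρ0 θ (BJ J) * θ ^ J ≤ Wt ρ0 θ (Sy.Ext ρ0) * B ^ J := by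
      have h1 : Wt ρ0 θ (BJ J) * θ ^ J = ∑ ρ ∈ BJ J, θ ^ ((ρ ∪ sg ρ) \ ρ0).card := by
        unfold Wt
        rw [sum_mul]
        refine sum_congr rfl fun ρ hρ => ?_
        rw [mem_filter] at hρ
        obtain ⟨g1, g2, g3, g4⟩ := hBad ρ hρ.1
        obtain ⟨k1, k2, k3, k4⟩ := (hsg1 ρ hρ.1).facts hq Sy.card_es g3
        rw [cov_union, disjoint_union_right] at k3
        have hdj : Disjoint ρ (sg ρ) := disjoint_of_cov hq Sy.card_es k3.1
        have hρ0 : ρ0 ⊆ ρ := (mem_Ext.mp g1).2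
        have h2 : (ρ ∪ sg ρ) \ ρ0 = (ρ \ ρ0) ∪ sg ρ := by
          ext x
          simp only [mem_sdiff, mem_union]
          constructor
          · rintro ⟨h | h, h'⟩
            · exact Or.inl ⟨h, h'⟩
            · exact Or.inr h
          · rintro (h | h)
            · exact ⟨Or.inl h.1, h.2⟩
            · exact ⟨Or.inr h, fun h' => disjoint_left.mp hdj (hρ0 h') h⟩
        rw [h2, card_union_of_disjoint (Disjoint.mono_left sdiff_subset hdj), pow_add, hρ.2]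
      rw [h1]
      have h3 : ∑ ρ ∈ BJ J, θ ^ ((ρ ∪ sg ρ) \ ρ0).card ≤
          ∑ z ∈ (Sy.Ext ρ0).sigma (fun ρ' => CG Sy.es F I q ℓ τ0 Δ (ρ' ∪ τ0) J),
            θ ^ (z.1 \ ρ0).card := by
        let f : Finset X → (Σ _ : Finset X, Finset X) := fun ρ => ⟨ρ ∪ sg ρ, sg ρ⟩
        have hinj : Set.InjOn f (BJ J) := by
          intro ρ hρ ρ' hρ' hh
          rw [mem_coe, mem_filter] at hρ hρ'
          simp only [f, Sigma.mk.injEq] at hh
          obtain ⟨h5, h6⟩ := hh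
          have h6' : sg ρ = sg ρ' := eq_of_heq h6
          have hd : ∀ ρ ∈ Bad, Disjoint ρ (sg ρ) := by
            intro ρ hρ
            obtain ⟨g1, g2, g3, g4⟩ := hBad ρ hρ
            obtain ⟨k1, k2, k3, k4⟩ := (hsg1 ρ hρ).facts hq Sy.card_es g3
            rw [cov_union, disjoint_union_right] at k3
            exact disjoint_of_cov hq Sy.card_es k3.1
          rw [← union_sdiff_cancel_right (hd ρ hρ.1), ← union_sdiff_cancel_right (hd ρ' hρ'.1),
            h5, h6']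
        have h4 : ∑ ρ ∈ BJ J, θ ^ ((ρ ∪ sg ρ) \ ρ0).card =
            ∑ z ∈ (BJ J).image f, θ ^ (z.1 \ ρ0).card := by
          rw [sum_image hinj]
        rw [h4]
        apply sum_le_sum_of_subset
        intro z hz
        rw [mem_image] at hz
        obtain ⟨ρ, hρ, rfl⟩ := hz
        rw [mem_filter] at hρ
        obtain ⟨g1, g2, g3, g4⟩ := hBad ρ hρ.1
        obtain ⟨k1, k2, k3, k4⟩ := (hsg1 ρ hρ.1).facts hq Sy.card_es g3
        rw [mem_Ext] at g1
        rw [mem_sigma]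
        simp only [f]
        rw [mem_Ext, mem_CG]
        refine ⟨⟨k1.mono (union_subset_union_left subset_union_left),
          g1.2.trans subset_union_left⟩, hρ.2, ρ ∪ τ0, g3, subset_union_right, ?_, ?_,
          hsg1 ρ hρ.1, ?_⟩
        · exact g2.mono (sdiff_subset_sdiff Subset.rfl (cov_mono subset_union_left))
        · refine k1.mono ?_
          intro x hx
          simp only [mem_union] at hx ⊢
          tauto
        · ext x; simp only [mem_union]; tauto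
      refine h3.trans ?_
      rw [sum_sigma]
      unfold Wt
      rw [sum_mul]
      refine sum_le_sum fun ρ' _ => ?_
      simp only
      rw [sum_const, smul_eq_mul, mul_comm]
      exact Nat.mul_le_mul_left _ (card_CG hq Sy.card_es hF hΔ hI J _)
    have h1 : Wt ρ0 θ (BJ J) * A ^ J * B ^ J ≤ Wt ρ0 θ (Sy.Ext ρ0) * B ^ J := by
      refine le_trans ?_ key
      rw [mul_assoc, ← mul_pow]
      exact Nat.mul_le_mul_left _ (Nat.pow_le_pow_left hθ J)
    have h2 := Nat.le_of_mul_le_mul_right h1 (Nat.pow_pos hBpos)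
    refine le_trans (Nat.mul_le_mul_left _ ?_) h2
    exact Nat.pow_le_pow_right hA hJ.1.le
  calc Wt ρ0 θ Bad * A ^ h ≤ (∑ J ∈ Ioc h J1, Wt ρ0 θ (BJ J)) * A ^ h :=
        Nat.mul_le_mul_right _ ((Wt_mono hcover).trans (Wt_biUnion _ _ _ _))
    _ = ∑ J ∈ Ioc h J1, Wt ρ0 θ (BJ J) * A ^ h := by rw [sum_mul]
    _ ≤ ∑ J ∈ Ioc h J1, Wt ρ0 θ (Sy.Ext ρ0) := sum_le_sum hJ
    _ = (J1 - h) * Wt ρ0 θ (Sy.Ext ρ0) := by rw [sum_const, smul_eq_mul, Nat.card_Ioc]
    _ ≤ J1 * Wt ρ0 θ (Sy.Ext ρ0) := Nat.mul_le_mul_right _ (Nat.sub_le _ _)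

/-- one round of restrictions: all worlds keep few and all blocks keep many uncovered vertices, and
all the given families of disjunctions have shallow common decision trees. -/
theorem stage {ι κ : Type} (hq : 0 < q) {ρ0 : Finset X} (hρ0 : PP Sy.es ρ0)
    {θ A Δ r ℓ h T0 t1 k M0 M1 a j0 : ℕ}
    (tests : Finset κ) (τ0 : κ → Finset X) (F : κ → ι → List (Finset X)) (I : κ → Finset ι)
    (hF : ∀ c ∈ tests, ∀ i ∈ I c, ∀ t ∈ F c i, (t \ τ0 c).card ≤ r) (hr : 1 ≤ r) (hA : 1 ≤ A)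
    (hI : ∀ c ∈ tests, ∀ j, ℓ < q * j → (I c).card ≤ 2 ^ j)
    (hT0 : ∀ v, Sy.wf v ρ0 ≤ T0) (hT0' : 0 < T0) (hM0 : ∀ e, M0 ≤ Sy.bf e ρ0)
    (hθ1 : 2 * T0 ≤ t1.choose q * θ)
    (ha : q * a + (M1 + q * j0) ≤ M0)
    (hθ2 : 2 * (((M1 + q * j0) * (2 * (t1 + q * k + q * j0) ^ (q - 1))) * θ) ≤ a)
    (hM1 : 0 < M1) (ht1 : 0 < t1)
    (hΔ : 2 * (t1 + q * k) ^ (q - 1) ≤ Δ)
    (hθ3 : A * (8 * (r * Δ ^ (q + q * q))) ≤ θ)
    (hk : 4 * Fintype.card R ≤ 2 ^ k) (hj0 : 4 * Fintype.card E ≤ 2 ^ j0)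
    (htests : 4 * (tests.card * (q * h + ℓ + r)) ≤ A ^ h) :
    ∃ ρ, PP Sy.es ρ ∧ ρ0 ⊆ ρ ∧ (∀ v, Sy.wf v ρ < t1 + q * k) ∧ (∀ e, M1 < Sy.bf e ρ) ∧
      ∀ c ∈ tests, PP Sy.es (ρ ∪ τ0 c) →
        Dec Sy.es (GS Sy.es (F c) (I c) ℓ) (ρ ∪ τ0 c) (q * (q * h)) := by
  classical
  have hΔ1 : 1 ≤ Δ := by
    refine le_trans ?_ hΔ
    have : 0 < t1 + q * k := by omega
    have := Nat.pow_pos (n := q - 1) this
    omega
  have hθ0 : 0 < θ := by
    refine lt_of_lt_of_le ?_ hθ3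
    positivity
  set Z := Wt ρ0 θ (Sy.Ext ρ0) with hZ
  have hZpos : 0 < Z := by
    rw [hZ]
    unfold Wt
    refine sum_pos (fun ρ _ => Nat.pow_pos hθ0) ⟨ρ0, mem_Ext.mpr ⟨hρ0, Subset.rfl⟩⟩
  let Au : R → Finset (Finset X) := fun v => (Sy.Ext ρ0).filter fun ρ => t1 + q * k ≤ Sy.wf v ρ
  let Al : E → Finset (Finset X) := fun e =>
    (Sy.Ext ρ0).filter fun ρ => Sy.bf e ρ ≤ M1 ∧ ∀ v, Sy.wf v ρ ≤ t1 + q * k
  let Ab : κ → Finset (Finset X) := fun c => (Sy.Ext ρ0).filter fun ρ =>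
    DgB Sy.es (univ \ cov Sy.es ρ) Δ ∧ PP Sy.es (ρ ∪ τ0 c) ∧
      ¬ Dec Sy.es (GS Sy.es (F c) (I c) ℓ) (ρ ∪ τ0 c) (q * (q * h))
  have h1 : 4 * Wt ρ0 θ (univ.biUnion Au) ≤ Z := by
    have h2 : (Wt ρ0 θ (univ.biUnion Au)) * 2 ^ k ≤ Fintype.card R * Z := by
      calc (Wt ρ0 θ (univ.biUnion Au)) * 2 ^ k ≤ (∑ v, Wt ρ0 θ (Au v)) * 2 ^ k :=
            Nat.mul_le_mul_right _ (Wt_biUnion _ _ _ _)
        _ = ∑ v, Wt ρ0 θ (Au v) * 2 ^ k := by rw [sum_mul]
        _ ≤ ∑ _v : R, Z := sum_le_sum fun v _ =>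
            upper_tail hq hρ0 v (hT0 v) hθ1 hT0' k
        _ = Fintype.card R * Z := by rw [sum_const, card_univ, smul_eq_mul]
    have h3 : (4 * Wt ρ0 θ (univ.biUnion Au)) * 2 ^ k ≤ Z * 2 ^ k := by
      calc (4 * Wt ρ0 θ (univ.biUnion Au)) * 2 ^ k = 4 * (Wt ρ0 θ (univ.biUnion Au) * 2 ^ k) := by
            ring
        _ ≤ 4 * (Fintype.card R * Z) := Nat.mul_le_mul_left _ h2
        _ = Z * (4 * Fintype.card R) := by ring
        _ ≤ Z * 2 ^ k := Nat.mul_le_mul_left _ hk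
    exact Nat.le_of_mul_le_mul_right h3 (by positivity)
  have h2 : 4 * Wt ρ0 θ (univ.biUnion Al) ≤ Z := by
    have h2 : (Wt ρ0 θ (univ.biUnion Al)) * 2 ^ j0 ≤ Fintype.card E * Z := by
      calc (Wt ρ0 θ (univ.biUnion Al)) * 2 ^ j0 ≤ (∑ v, Wt ρ0 θ (Al v)) * 2 ^ j0 :=
            Nat.mul_le_mul_right _ (Wt_biUnion _ _ _ _)
        _ = ∑ v, Wt ρ0 θ (Al v) * 2 ^ j0 := by rw [sum_mul]
        _ ≤ ∑ _v : E, Z := sum_le_sum fun e _ =>
            lower_tail hq hρ0 e (hM0 e) ha hθ2 hθ0 hM1 (by omega)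
        _ = Fintype.card E * Z := by rw [sum_const, card_univ, smul_eq_mul]
    have h3 : (4 * Wt ρ0 θ (univ.biUnion Al)) * 2 ^ j0 ≤ Z * 2 ^ j0 := by
      calc (4 * Wt ρ0 θ (univ.biUnion Al)) * 2 ^ j0 = 4 * (Wt ρ0 θ (univ.biUnion Al) * 2 ^ j0) := by
            ring
        _ ≤ 4 * (Fintype.card E * Z) := Nat.mul_le_mul_left _ h2
        _ = Z * (4 * Fintype.card E) := by ring
        _ ≤ Z * 2 ^ j0 := Nat.mul_le_mul_left _ hj0
    exact Nat.le_of_mul_le_mul_right h3 (by positivity)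
  have h3 : 4 * Wt ρ0 θ (tests.biUnion Ab) ≤ Z := by
    have h4 : (Wt ρ0 θ (tests.biUnion Ab)) * A ^ h ≤ (tests.card * (q * h + ℓ + r)) * Z := by
      calc (Wt ρ0 θ (tests.biUnion Ab)) * A ^ h ≤ (∑ c ∈ tests, Wt ρ0 θ (Ab c)) * A ^ h :=
            Nat.mul_le_mul_right _ (Wt_biUnion _ _ _ _)
        _ = ∑ c ∈ tests, Wt ρ0 θ (Ab c) * A ^ h := by rw [sum_mul]
        _ ≤ ∑ c ∈ tests, (q * h + ℓ + r) * Z := by
            refine sum_le_sum fun c hc => ?_
            refine bad_weight hq (hF c hc) hr hΔ1 hA (hI c hc) hθ3 (Ab c) ?_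
            intro ρ hρ
            simp only [Ab, mem_filter] at hρ
            exact hρ
        _ = (tests.card * (q * h + ℓ + r)) * Z := by rw [sum_const, smul_eq_mul]; ring
    have h5 : (4 * Wt ρ0 θ (tests.biUnion Ab)) * A ^ h ≤ Z * A ^ h := by
      calc (4 * Wt ρ0 θ (tests.biUnion Ab)) * A ^ h = 4 * (Wt ρ0 θ (tests.biUnion Ab) * A ^ h) := by
            ring
        _ ≤ 4 * ((tests.card * (q * h + ℓ + r)) * Z) := Nat.mul_le_mul_left _ h4
        _ = Z * (4 * (tests.card * (q * h + ℓ + r))) := by ring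
        _ ≤ Z * A ^ h := Nat.mul_le_mul_left _ htests
    exact Nat.le_of_mul_le_mul_right h5 (by positivity)
  by_contra hcon
  push Not at hcon
  have hcover : Sy.Ext ρ0 ⊆ univ.biUnion Au ∪ univ.biUnion Al ∪ tests.biUnion Ab := by
    intro ρ hρ
    obtain ⟨g1, g2⟩ := mem_Ext.mp hρ
    by_cases hu : ∀ v, Sy.wf v ρ < t1 + q * k
    · by_cases hl : ∀ e, M1 < Sy.bf e ρ
      · obtain ⟨c, hc, hc1, hc2⟩ := hcon ρ g1 g2 hu hl
        refine mem_union_right _ (mem_biUnion.mpr ⟨c, hc, ?_⟩)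
        simp only [Ab, mem_filter]
        refine ⟨hρ, ?_, hc1, hc2⟩
        intro u
        refine (card_through (T := t1 + q * k) (fun v _ => ?_) hq).trans hΔ
        have h3 : Sy.Wv v ∩ (univ \ cov Sy.es ρ) = Sy.Wv v \ cov Sy.es ρ := by
          ext u; simp [mem_inter, mem_sdiff]
        rw [h3]
        exact (hu v).le
      · push Not at hl
        obtain ⟨e, he⟩ := hl
        refine mem_union_left _ (mem_union_right _ (mem_biUnion.mpr ⟨e, mem_univ _, ?_⟩))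
        simp only [Al, mem_filter]
        exact ⟨hρ, he, fun v => (hu v).le⟩
    · push Not at hu
      obtain ⟨v, hv⟩ := hu
      refine mem_union_left _ (mem_union_left _ (mem_biUnion.mpr ⟨v, mem_univ _, ?_⟩))
      simp only [Au, mem_filter]
      exact ⟨hρ, hv⟩
  have h4 : Z ≤ Wt ρ0 θ (univ.biUnion Au) + Wt ρ0 θ (univ.biUnion Al) +
      Wt ρ0 θ (tests.biUnion Ab) := by
    refine (Wt_mono hcover).trans ((Wt_union _ _ _ _).trans ?_)
    exact Nat.add_le_add_right (Wt_union _ _ _ _) _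
  omega

end Sys

end Sys

end Pool.Agent.Work.MP_c04246_lc.H
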