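import Mathlib
import Pool.Agent.Work.MP_c04246_lc.HGibbs

set_option autoImplicit false
set_option linter.unusedSectionVars false
set_option linter.unusedSimpArgs false
set_option linter.unusedVariables false

namespace Pool.Agent.Work.MP_c04246_lc.H

open Finset

section Free

variable {U E : Type} [DecidableEq U] [Fintype U] [DecidableEq E] [Fintype E]

/-- a block -/
def blk (bl : U → E) (e : E) : Finset U := univ.filter fun u => bl u = e

/-- sets meeting each block in exactly `k` elements -/
def Om (bl : U → E) (k : ℕ) : Finset (Finset U) :=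
  univ.filter fun W => ∀ e, (W ∩ blk bl e).card = k

lemma mem_Om {bl : U → E} {k : ℕ} {W : Finset U} : W ∈ Om bl k ↔ ∀ e, (W ∩ blk bl e).card = k := by
  simp [Om]

lemma Om_nonempty {bl : U → E} {k M : ℕ} (hM : ∀ e, (blk bl e).card = M) (hk : k ≤ M) :
    (Om bl k).Nonempty := by
  have h1 : ∀ e, ∃ S ⊆ blk bl e, S.card = k := fun e =>
    exists_subset_card_eq (by rw [hM]; exact hk)
  choose S hS1 hS2 using h1
  refine ⟨univ.biUnion S, ?_⟩
  rw [mem_Om]
  intro e
  have : univ.biUnion S ∩ blk bl e = S e := by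
    ext u
    rw [mem_inter, mem_biUnion]
    constructor
    · rintro ⟨⟨e', _, hu⟩, hu'⟩
      have h2 := hS1 e' hu
      simp only [blk, mem_filter, mem_univ, true_and] at h2 hu'
      rw [← hu', h2]; exact hu
    · intro hu
      exact ⟨⟨e, mem_univ _, hu⟩, hS1 e hu⟩
  rw [this, hS2]

/-- exchanging two elements of a block -/
lemma Om_swap {bl : U → E} {k : ℕ} (E1 : Finset U) {u u' : U} (hb : bl u = bl u') (hu : u ∉ E1)
    (hu' : u' ∉ E1) : ((Om bl k).filter fun W => insert u E1 ⊆ W).card ≤
      ((Om bl k).filter fun W => insert u' E1 ⊆ W).card := by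
  classical
  set f : Finset U → Finset U := fun W => W.map (Equiv.swap u u').toEmbedding with hf
  refine card_le_card_of_injOn f ?_ ?_
  · intro W hW
    rw [mem_coe, mem_filter, mem_Om] at hW
    rw [mem_coe, mem_filter, mem_Om]
    have hmem : ∀ z, z ∈ f W ↔ Equiv.swap u u' z ∈ W := by
      intro z
      simp only [hf, mem_map_equiv, Equiv.symm_swap]
    have hbl : ∀ z, bl (Equiv.swap u u' z) = bl z := by
      intro z
      by_cases h1 : z = u
      · subst h1; rw [Equiv.swap_apply_left]; exact hb.symm
      · by_cases h2 : z = u'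
        · subst h2; rw [Equiv.swap_apply_right]; exact hb
        · rw [Equiv.swap_apply_of_ne_of_ne h1 h2]
    refine ⟨?_, ?_⟩
    · intro e
      rw [← hW.1 e]
      have : f W ∩ blk bl e = f (W ∩ blk bl e) := by
        ext z
        have h3 : z ∈ f (W ∩ blk bl e) ↔ Equiv.swap u u' z ∈ W ∩ blk bl e := by
          simp only [hf, mem_map_equiv, Equiv.symm_swap]
        rw [h3, mem_inter, mem_inter, hmem]
        simp only [blk, mem_filter, mem_univ, true_and, hbl]
      rw [this, hf, card_map]
    · intro z hz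
      rw [hmem]
      rcases mem_insert.mp hz with h | h
      · rw [h, Equiv.swap_apply_right]; exact hW.2 (mem_insert_self _ _)
      · have h1 : z ≠ u := fun h0 => hu (h0 ▸ h)
        have h2 : z ≠ u' := fun h0 => hu' (h0 ▸ h)
        rw [Equiv.swap_apply_of_ne_of_ne h1 h2]
        exact hW.2 (mem_insert_of_mem h)
  · intro W _ W' _ h
    exact map_injective _ h

lemma Om_step {bl : U → E} {k M : ℕ} (hM : ∀ e, (blk bl e).card = M) (hk : k ≤ M)
    (E1 : Finset U) {u : U} (hu : u ∉ E1) :
    ((Om bl k).filter fun W => insert u E1 ⊆ W).card * M ≤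
      ((Om bl k).filter fun W => E1 ⊆ W).card * k := by
  classical
  set B := blk bl (bl u) with hB
  set j := (E1 ∩ B).card with hj
  set c := ((Om bl k).filter fun W => E1 ⊆ W).card with hc
  set cu := ((Om bl k).filter fun W => insert u E1 ⊆ W).card with hcu
  have huB : u ∈ B \ E1 := by
    rw [mem_sdiff]; exact ⟨by simp [hB, blk], hu⟩
  have hBc : (B \ E1).card = M - j := by
    rw [card_sdiff, ← hj, hB, hM]
  have hpos : 0 < M - j := by rw [← hBc]; exact card_pos.mpr ⟨u, huB⟩
  have h1 : (M - j) * cu ≤ ∑ u' ∈ B \ E1, ((Om bl k).filter fun W => insert u' E1 ⊆ W).card := by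
    rw [← hBc, ← smul_eq_mul, ← sum_const]
    refine sum_le_sum fun u' hu' => ?_
    rw [mem_sdiff] at hu'
    refine Om_swap E1 ?_ hu hu'.2
    have := hu'.1
    simp only [hB, blk, mem_filter, mem_univ, true_and] at this
    exact this.symm
  have h2 : ∑ u' ∈ B \ E1, ((Om bl k).filter fun W => insert u' E1 ⊆ W).card ≤ c * (k - j) := by
    have h3 : ∀ u' ∈ B \ E1, ((Om bl k).filter fun W => insert u' E1 ⊆ W).card =
        ∑ W ∈ (Om bl k).filter fun W => E1 ⊆ W, (if u' ∈ W then 1 else 0) := by
      intro u' _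
      rw [← card_filter, filter_filter]
      congr 1
      ext W
      simp only [mem_filter, insert_subset_iff]
      tauto
    rw [sum_congr rfl h3, sum_comm, hc, ← smul_eq_mul, ← sum_const]
    refine sum_le_sum fun W hW => ?_
    rw [mem_filter, mem_Om] at hW
    rw [← card_filter]
    have h4 : (B \ E1).filter (fun u' => u' ∈ W) = (W ∩ B) \ (E1 ∩ B) := by
      ext z; simp only [mem_filter, mem_sdiff, mem_inter]; tauto
    rw [h4, card_sdiff_of_subset (inter_subset_inter hW.2 Subset.rfl), hW.1, ← hj]
  have h3 := h1.trans h2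
  have h4 : (k - j) * M ≤ k * (M - j) := by
    rcases le_total k j with h | h
    · rw [Nat.sub_eq_zero_of_le h]; simp
    · have hjM : j ≤ M := h.trans hk
      obtain ⟨a, rfl⟩ := Nat.exists_eq_add_of_le h
      obtain ⟨b, rfl⟩ := Nat.exists_eq_add_of_le hk
      have e1 : j + a - j = a := by omega
      have e2 : j + a + b - j = a + b := by omega
      rw [e1, e2]
      nlinarith [Nat.zero_le (j * b)]
  have h5 : cu * M * (M - j) ≤ c * k * (M - j) := by
    calc cu * M * (M - j) = (M - j) * cu * M := by ring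
      _ ≤ c * (k - j) * M := Nat.mul_le_mul_right _ h3
      _ = c * ((k - j) * M) := by ring
      _ ≤ c * (k * (M - j)) := Nat.mul_le_mul_left _ h4
      _ = c * k * (M - j) := by ring
  exact Nat.le_of_mul_le_mul_right h5 hpos

lemma Om_bound {bl : U → E} {k M : ℕ} (hM : ∀ e, (blk bl e).card = M) (hk : k ≤ M)
    (E0 : Finset U) : ((Om bl k).filter fun W => E0 ⊆ W).card * M ^ E0.card ≤
      (Om bl k).card * k ^ E0.card := by
  classical
  induction E0 using Finset.induction_on with
  | empty => simp
  | insert u E1 hu ih =>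
    rw [card_insert_of_notMem hu, pow_succ', pow_succ', ← mul_assoc]
    calc ((Om bl k).filter fun W => insert u E1 ⊆ W).card * M * M ^ E1.card
        ≤ ((Om bl k).filter fun W => E1 ⊆ W).card * k * M ^ E1.card :=
          Nat.mul_le_mul_right _ (Om_step hM hk E1 hu)
      _ = k * (((Om bl k).filter fun W => E1 ⊆ W).card * M ^ E1.card) := by ring
      _ ≤ k * ((Om bl k).card * k ^ E1.card) := Nat.mul_le_mul_left _ ih
      _ = (Om bl k).card * (k * k ^ E1.card) := by ring

variable {X : Type} [DecidableEq X] {es : X → Finset U} {q : ℕ}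

/-- a choice of the uncovered vertices for which small sets of hyperedges become narrow -/
lemma exists_free {bl : U → E} {k M : ℕ} (hM : ∀ e, (blk bl e).card = M) (hk : k ≤ M)
    (hes : ∀ x : X, (es x).card = q) {ι : Type} (s : Finset ι) (V : ι → Finset X) {m J : ℕ}
    (hV : ∀ i ∈ s, (V i).card ≤ m) (hs : s.card < 2 ^ J) (hm : 2 * (m * k ^ q) ≤ M ^ q)
    (hM0 : 0 < M) :
    ∃ W : Finset U, (∀ e, (W ∩ blk bl e).card = k) ∧
      ∀ i ∈ s, ∀ σ ⊆ V i, PP es σ → cov es σ ⊆ W → σ.card < J := by
  classical
  by_contra hcon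
  push Not at hcon
  have hcover : Om bl k ⊆ s.biUnion fun i => ((powersetCard J (V i)).filter fun σ => PP es σ).biUnion
      fun σ => (Om bl k).filter fun W => cov es σ ⊆ W := by
    intro W hW
    obtain ⟨i, hi, σ, hσ, hPP, hc, hJ⟩ := hcon W (mem_Om.mp hW)
    obtain ⟨σ', hσ', hσJ⟩ := exists_subset_card_eq hJ
    rw [mem_biUnion]
    refine ⟨i, hi, ?_⟩
    rw [mem_biUnion]
    refine ⟨σ', ?_, ?_⟩
    · rw [mem_filter, mem_powersetCard]
      exact ⟨⟨hσ'.trans hσ, hσJ⟩, hPP.mono hσ'⟩
    · rw [mem_filter]
      exact ⟨hW, (cov_mono hσ').trans hc⟩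
  have h1 : (Om bl k).card * M ^ (q * J) ≤ s.card * (m ^ J * ((Om bl k).card * k ^ (q * J))) := by
    calc (Om bl k).card * M ^ (q * J) ≤
        (∑ i ∈ s, ∑ σ ∈ (powersetCard J (V i)).filter fun σ => PP es σ,
          ((Om bl k).filter fun W => cov es σ ⊆ W).card) * M ^ (q * J) := by
          apply Nat.mul_le_mul_right
          refine (card_le_card hcover).trans (card_biUnion_le.trans (sum_le_sum fun i _ => ?_))
          exact card_biUnion_le
      _ = ∑ i ∈ s, ∑ σ ∈ (powersetCard J (V i)).filter fun σ => PP es σ,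
          ((Om bl k).filter fun W => cov es σ ⊆ W).card * M ^ (q * J) := by
          rw [sum_mul]
          exact sum_congr rfl fun i _ => by rw [sum_mul]
      _ ≤ ∑ i ∈ s, ∑ σ ∈ (powersetCard J (V i)).filter fun σ => PP es σ,
          (Om bl k).card * k ^ (q * J) := by
          refine sum_le_sum fun i _ => sum_le_sum fun σ hσ => ?_
          rw [mem_filter, mem_powersetCard] at hσ
          have := Om_bound hM hk (cov es σ)
          rw [hσ.2.card_cov hes, hσ.1.2] at this
          exact this
      _ ≤ ∑ i ∈ s, m ^ J * ((Om bl k).card * k ^ (q * J)) := by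
          refine sum_le_sum fun i hi => ?_
          rw [sum_const, smul_eq_mul]
          apply Nat.mul_le_mul_right
          refine (card_filter_le _ _).trans ?_
          rw [card_powersetCard]
          exact (Nat.choose_le_pow _ _).trans (Nat.pow_le_pow_left (hV i hi) _)
      _ = s.card * (m ^ J * ((Om bl k).card * k ^ (q * J))) := by rw [sum_const, smul_eq_mul]
  have hΩ : 0 < (Om bl k).card := card_pos.mpr (Om_nonempty hM hk)
  have h2 : (2 * (m * k ^ q)) ^ J ≤ M ^ (q * J) := by
    rw [pow_mul]; exact Nat.pow_le_pow_left hm J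
  have h3 : (Om bl k).card * M ^ (q * J) < (Om bl k).card * M ^ (q * J) := by
    rcases Nat.eq_zero_or_pos (m ^ J * k ^ (q * J)) with h0 | h0
    · have h4 : s.card * (m ^ J * ((Om bl k).card * k ^ (q * J))) = 0 := by
        have : m ^ J * ((Om bl k).card * k ^ (q * J)) = (Om bl k).card * (m ^ J * k ^ (q * J)) := by
          ring
        rw [this, h0]; simp
      rw [h4] at h1
      have : 0 < (Om bl k).card * M ^ (q * J) := by positivity
      omega
    · calc (Om bl k).card * M ^ (q * J) ≤ s.card * (m ^ J * ((Om bl k).card * k ^ (q * J))) := h1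
        _ = s.card * ((Om bl k).card * (m ^ J * k ^ (q * J))) := by ring
        _ < 2 ^ J * ((Om bl k).card * (m ^ J * k ^ (q * J))) :=
            Nat.mul_lt_mul_of_pos_right hs (Nat.mul_pos hΩ h0)
        _ = (Om bl k).card * (2 * (m * k ^ q)) ^ J := by
            rw [mul_pow, mul_pow, ← pow_mul]; ring
        _ ≤ (Om bl k).card * M ^ (q * J) := Nat.mul_le_mul_left _ h2
  exact lt_irrefl _ h3

/-- covering the complement of a set block by block -/
lemma exists_fill {bl : U → E} (hq : 0 < q) (hes : ∀ x : X, (es x).card = q)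
    (hex : ∀ e, ∀ S ⊆ blk bl e, S.card = q → ∃ x : X, es x = S) (n : ℕ) :
    ∀ G : Finset U, G.card ≤ n → (∀ e, q ∣ (G ∩ blk bl e).card) →
      ∃ P : Finset X, PP es P ∧ cov es P = G := by
  classical
  induction n with
  | zero =>
    intro G hG _
    have : G = ∅ := by rw [← card_eq_zero]; omega
    subst this
    exact ⟨∅, PP.empty, cov_empty⟩
  | succ n ih =>
    intro G hG hdiv
    rcases G.eq_empty_or_nonempty with rfl | ⟨u, hu⟩
    · exact ⟨∅, PP.empty, cov_empty⟩
    · have h1 : 0 < (G ∩ blk bl (bl u)).card := card_pos.mpr ⟨u, by simp [blk, hu]⟩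
      have h2 : q ≤ (G ∩ blk bl (bl u)).card := Nat.le_of_dvd h1 (hdiv _)
      obtain ⟨S, hS, hSq⟩ := exists_subset_card_eq h2
      obtain ⟨x, hx⟩ := hex (bl u) S (hS.trans inter_subset_right) hSq
      have hSG : S ⊆ G := hS.trans inter_subset_left
      have hSpos : 0 < S.card := by rw [hSq]; exact hq
      obtain ⟨P, hP, hc⟩ := ih (G \ S) (by
        rw [card_sdiff_of_subset hSG]; omega) (by
        intro e
        by_cases he : e = bl u
        · subst he
          have : (G \ S) ∩ blk bl (bl u) = (G ∩ blk bl (bl u)) \ S := by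
            ext z; simp only [mem_inter, mem_sdiff]; tauto
          rw [this, card_sdiff_of_subset hS, hSq]
          exact Nat.dvd_sub (hdiv _) (dvd_refl q)
        · have : (G \ S) ∩ blk bl e = G ∩ blk bl e := by
            ext z
            simp only [mem_inter, mem_sdiff]
            constructor
            · rintro ⟨⟨h, _⟩, h'⟩; exact ⟨h, h'⟩
            · rintro ⟨h, h'⟩
              refine ⟨⟨h, fun hz => he ?_⟩, h'⟩
              have h3 := (hS.trans inter_subset_right) hz
              simp only [blk, mem_filter, mem_univ, true_and] at h3 h'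
              rw [← h', h3]
          rw [this]; exact hdiv e)
      refine ⟨insert x P, hP.insert ?_, ?_⟩
      · rw [hx, hc]; exact disjoint_sdiff
      · rw [cov_insert, hx, hc]
        exact union_sdiff_of_subset hSG

/-- the hyperedge is decided in the state `τ` -/
def Dcd (es : X → Finset U) (τ : Finset X) (x : X) : Prop :=
  x ∈ τ ∨ ∃ y ∈ τ, y ≠ x ∧ ¬ Disjoint (es y) (es x)

lemma Dcd.mono {τ τ' : Finset X} (h : τ ⊆ τ') {x : X} (hd : Dcd es τ x) : Dcd es τ' x := by
  rcases hd with h1 | ⟨T, hT, h1⟩
  · exact Or.inl (h h1)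
  · exact Or.inr ⟨T, h hT, h1⟩

/-- deciding all hyperedges of a set -/
lemma dec_vars (hq : 0 < q) (hes : ∀ x : X, (es x).card = q) {W : Finset U} {V : Finset X} {J : ℕ}
    (hV : ∀ σ ⊆ V, PP es σ → cov es σ ⊆ W → σ.card < J) {ρ0 : Finset X}
    (hcov : cov es ρ0 = univ \ W) (j : ℕ) : ∀ (τ σ : Finset X), PP es τ → ρ0 ⊆ τ → σ ⊆ V →
      PP es σ → cov es σ ⊆ W → cov es σ ⊆ cov es τ → σ.card + j = J →
      Dec es {τ | ∀ x ∈ V, Dcd es τ x} τ (q * j) := by
  classical
  induction j with
  | zero =>
    intro τ σ _ _ hσV hσ hσW _ hj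
    exact absurd (hV σ hσV hσ hσW) (by omega)
  | succ j ih =>
    intro τ σ hτ hρτ hσV hσ hσW hστ hj
    by_cases hL : ∀ x ∈ V, Dcd es τ x
    · exact Dec.leaf hL
    · push Not at hL
      obtain ⟨x, hxV, hx⟩ := hL
      unfold Dcd at hx
      push Not at hx
      have hd : Disjoint (es x) (cov es τ) := by
        rw [disjoint_cov_iff]
        intro y hy
        exact (hx.2 y hy (fun h => hx.1 (h ▸ hy))).symm
      have hxW : es x ⊆ W := by
        intro u hu
        by_contra huW
        have : u ∈ cov es ρ0 := by rw [hcov]; exact mem_sdiff.mpr ⟨mem_univ _, huW⟩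
        exact disjoint_left.mp hd hu (cov_mono hρτ this)
      have hxσ : x ∉ σ := by
        intro h
        obtain ⟨u, hu⟩ : (es x).Nonempty := by rw [← card_pos, hes]; exact hq
        exact disjoint_left.mp hd hu (hστ (es_subset_cov h hu))
      have hins : PP es (insert x σ) := hσ.insert (Disjoint.mono_right hστ hd)
      have h1 := query_all (L := {τ | ∀ x ∈ V, Dcd es τ x}) (h := q * j) _ τ (es x) le_rfl hd
        (fun π hπ => ih (τ ∪ π) (insert x σ) (hπ.PP_union hτ) (hρτ.trans subset_union_left)
          (insert_subset hxV hσV) hins (by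
            rw [cov_insert]; exact union_subset hxW hσW) (by
            rw [cov_insert, cov_union]
            exact union_subset (hπ.2.2.1.trans subset_union_right)
              (hστ.trans subset_union_left)) (by
            rw [card_insert_of_notMem hxσ]; omega))
      rw [hes] at h1
      rw [Nat.mul_succ]
      exact h1

end Free

end Pool.Agent.Work.MP_c04246_lc.H
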