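import Mathlib
import Pool.Agent.Work.MP_c04246_lc.HDefs
import Pool.Agent.Work.MP_c04246_lc.HFree

set_option autoImplicit false
set_option linter.unusedSectionVars false
set_option linter.unusedSimpArgs false
set_option linter.unusedVariables false

namespace Pool.Agent.Work.MP_c04246_lc.H

open Finset Fml

section basics

variable {p : ℕ} {V : Type}

lemma eval_congr {v v' : V → Bool} (a : Fml p V) (h : ∀ x ∈ vars a, v x = v' x) :
    eval v a = eval v' a := by
  classical
  induction a with
  | var x => exact h x (by simp [vars])
  | cst b => rfl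
  | neg a ih => simp only [eval]; rw [ih h]
  | bin c a b iha ihb =>
    simp only [eval]
    rw [iha fun x hx => h x (by simp only [vars, mem_union]; exact Or.inl hx),
      ihb fun x hx => h x (by simp only [vars, mem_union]; exact Or.inr hx)]
  | mod i k f ih =>
    have : ∀ j, eval v (f j) = eval v' (f j) := fun j => ih j fun x hx => h x (by
      simp only [vars, mem_biUnion, mem_univ, true_and]; exact ⟨j, hx⟩)
    simp only [eval, this]

lemma subs_self (a : Fml p V) : a ∈ subs a := by
  classical
  cases a <;> simp [subs]

lemma subs_trans (a : Fml p V) : ∀ b ∈ subs a, subs b ⊆ subs a := by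
  classical
  induction a with
  | var x => intro b hb; simp only [subs, mem_singleton] at hb; subst hb; exact Subset.rfl
  | cst x => intro b hb; simp only [subs, mem_singleton] at hb; subst hb; exact Subset.rfl
  | neg a ih =>
    intro b hb
    simp only [subs, mem_insert] at hb
    rcases hb with rfl | hb
    · exact Subset.rfl
    · exact (ih b hb).trans (by simp only [subs]; exact subset_insert _ _)
  | bin c a b iha ihb =>
    intro x hx
    simp only [subs, mem_insert, mem_union] at hx
    rcases hx with rfl | hx | hx
    · exact Subset.rfl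
    · refine (iha x hx).trans ?_
      intro y hy; simp only [subs, mem_insert, mem_union]; exact Or.inr (Or.inl hy)
    · refine (ihb x hx).trans ?_
      intro y hy; simp only [subs, mem_insert, mem_union]; exact Or.inr (Or.inr hy)
  | mod k g f ih =>
    intro x hx
    simp only [subs, mem_insert, mem_biUnion, mem_univ, true_and] at hx
    rcases hx with rfl | ⟨j, hx⟩
    · exact Subset.rfl
    · refine (ih j x hx).trans ?_
      intro y hy; simp only [subs, mem_insert, mem_biUnion, mem_univ, true_and]
      exact Or.inr ⟨j, hy⟩

lemma subs_neg (a : Fml p V) : subs a ⊆ subs (neg a) := by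
  classical
  simp only [subs]; exact subset_insert _ _

lemma subs_bin_l (c : Bool) (a b : Fml p V) : subs a ⊆ subs (bin c a b) := by
  classical
  intro y hy; simp only [subs, mem_insert, mem_union]; exact Or.inr (Or.inl hy)

lemma subs_bin_r (c : Bool) (a b : Fml p V) : subs b ⊆ subs (bin c a b) := by
  classical
  intro y hy; simp only [subs, mem_insert, mem_union]; exact Or.inr (Or.inr hy)

lemma subs_mod (i : ZMod p) (k : ℕ) (f : Fin k → Fml p V) (j : Fin k) :
    subs (f j) ⊆ subs (mod i k f) := by
  classical
  intro y hy; simp only [subs, mem_insert, mem_biUnion, mem_univ, true_and]; exact Or.inr ⟨j, hy⟩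

lemma vars_subs (a : Fml p V) : ∀ b ∈ subs a, vars b ⊆ vars a := by
  classical
  induction a with
  | var x => intro b hb; simp only [subs, mem_singleton] at hb; subst hb; exact Subset.rfl
  | cst x => intro b hb; simp only [subs, mem_singleton] at hb; subst hb; exact Subset.rfl
  | neg a ih =>
    intro b hb
    simp only [subs, mem_insert] at hb
    rcases hb with rfl | hb
    · exact Subset.rfl
    · exact ih b hb
  | bin c a b iha ihb =>
    intro x hx
    simp only [subs, mem_insert, mem_union] at hx
    rcases hx with rfl | hx | hx
    · exact Subset.rfl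
    · refine (iha x hx).trans ?_
      simp only [vars]; exact subset_union_left
    · refine (ihb x hx).trans ?_
      simp only [vars]; exact subset_union_right
  | mod k g f ih =>
    intro x hx
    simp only [subs, mem_insert, mem_biUnion, mem_univ, true_and] at hx
    rcases hx with rfl | ⟨j, hx⟩
    · exact Subset.rfl
    · refine (ih j x hx).trans ?_
      intro y hy
      simp only [vars, mem_biUnion, mem_univ, true_and]
      exact ⟨j, hy⟩

lemma card_subs (a : Fml p V) : (subs a).card ≤ size a := by
  classical
  induction a with
  | var x => simp [subs, size]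
  | cst x => simp [subs, size]
  | neg a ih => simp only [subs, size]; exact (card_insert_le _ _).trans (by omega)
  | bin c a b iha ihb =>
    simp only [subs, size]
    exact (card_insert_le _ _).trans (Nat.succ_le_succ ((card_union_le _ _).trans (by omega)))
  | mod k g f ih =>
    simp only [subs, size]
    refine (card_insert_le _ _).trans (Nat.succ_le_succ (card_biUnion_le.trans ?_))
    exact sum_le_sum fun j _ => ih j

/-- local formulas: few variables (variables and constants are counted as local) -/
def isL (m : ℕ) : Fml p V → Prop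
  | var _ => True
  | cst _ => True
  | neg a => (vars (neg a)).card ≤ m
  | bin c a b => (vars (bin c a b)).card ≤ m
  | mod i k f => (vars (mod i k f)).card ≤ m

lemma isL_of_card {m : ℕ} {a : Fml p V} (h : (vars a).card ≤ m) : isL m a := by
  cases a <;> first | exact h | trivial

lemma isL_card {m : ℕ} (hm : 1 ≤ m) {a : Fml p V} (h : isL m a) : (vars a).card ≤ m := by
  cases a with
  | var x => simpa [vars] using hm
  | cst b => simp [vars]
  | neg a => exact h
  | bin c a b => exact h
  | mod i k f => exact h

lemma isL_sub {m : ℕ} {a b : Fml p V} (h : (vars a).card ≤ m) (hb : b ∈ subs a) : isL m b :=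
  isL_of_card ((card_le_card (vars_subs a b hb)).trans h)

open Classical in
/-- level of a formula below a connective of kind `r` -/
noncomputable def lv (w m : ℕ) : Option Bool → Fml p V → ℕ
  | _, var _ => 0
  | _, cst _ => 0
  | _, neg a => if isL m (neg a) then 0 else lv w m none a
  | r, bin c a b => if isL m (bin c a b) then 0 else
      (if r = some c then 0 else 1) + max (lv w m (some c) a) (lv w m (some c) b)
  | _, mod i k f => if isL m (mod i k f) ∨ w < k then 0 else
      1 + Finset.univ.sup fun j => lv w m none (f j)

variable {w m : ℕ}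

lemma lv_isL {a : Fml p V} (h : isL m a) (r : Option Bool) : lv w m r a = 0 := by
  cases a with
  | var _ => rfl
  | cst _ => rfl
  | neg a => simp only [lv, if_pos h]
  | bin c a b => simp only [lv, if_pos h]
  | mod i k f => simp only [lv]; rw [if_pos (Or.inl h)]

lemma lv_neg {a : Fml p V} (h : ¬ isL m (neg a)) (r : Option Bool) :
    lv w m r (neg a) = lv w m none a := by
  simp only [lv, if_neg h]

lemma lv_bin {c : Bool} {a b : Fml p V} (h : ¬ isL m (bin c a b)) :
    lv w m none (bin c a b) = 1 + max (lv w m (some c) a) (lv w m (some c) b) := by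
  simp only [lv, if_neg h]
  simp

lemma lv_bin_same {c : Bool} {a b : Fml p V} (h : ¬ isL m (bin c a b)) :
    lv w m (some c) (bin c a b) = max (lv w m (some c) a) (lv w m (some c) b) := by
  simp only [lv, if_neg h]
  simp

lemma lv_bin_ne {c e : Bool} {a b : Fml p V} (h : ¬ isL m (bin c a b)) (he : e ≠ c) :
    lv w m (some e) (bin c a b) = lv w m none (bin c a b) := by
  have : (some e : Option Bool) ≠ some c := fun h0 => he (by simpa using h0)
  simp only [lv, if_neg h, this, if_false]
  simp

lemma lv_modw {i : ZMod p} {k : ℕ} {f : Fin k → Fml p V} (h : w < k) (r : Option Bool) :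
    lv w m r (mod i k f) = 0 := by
  simp only [lv]; rw [if_pos (Or.inr h)]

lemma lv_modn {i : ZMod p} {k : ℕ} {f : Fin k → Fml p V} (hl : ¬ isL m (mod i k f)) (h : k ≤ w)
    (r : Option Bool) :
    lv w m r (mod i k f) = 1 + Finset.univ.sup fun j => lv w m none (f j) := by
  simp only [lv]; rw [if_neg (by rintro (h' | h'); exacts [hl h', by omega])]

lemma lv_modn_le {i : ZMod p} {k : ℕ} {f : Fin k → Fml p V} (hl : ¬ isL m (mod i k f)) (h : k ≤ w)
    (r : Option Bool) (j : Fin k) : lv w m none (f j) + 1 ≤ lv w m r (mod i k f) := by
  rw [lv_modn hl h]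
  have : lv w m none (f j) ≤ univ.sup fun j => lv w m none (f j) :=
    le_sup (f := fun j => lv w m none (f j)) (mem_univ j)
  omega

lemma lv_none_le (r : Option Bool) (a : Fml p V) : lv w m none a ≤ lv w m r a + 1 := by
  cases a with
  | var _ => simp [lv]
  | cst _ => simp [lv]
  | neg a => simp [lv]
  | bin c a b =>
    simp only [lv]
    split_ifs <;> simp_all <;> omega
  | mod k g f => simp [lv]

lemma lv_le_none (r : Option Bool) (a : Fml p V) : lv w m r a ≤ lv w m none a := by
  cases a with
  | var _ => simp [lv]
  | cst _ => simp [lv]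
  | neg a => simp [lv]
  | bin c a b =>
    simp only [lv]
    split_ifs <;> simp_all
  | mod k g f => simp [lv]

lemma bdpt_none_le (r : Option (Option Bool)) (a : Fml p V) :
    bdpt w m none a ≤ bdpt w m r a + 1 := by
  cases a with
  | var _ => simp [bdpt]
  | cst _ => simp [bdpt]
  | neg a =>
    simp only [bdpt]
    by_cases h : (vars (neg a)).card ≤ m
    · simp only [if_pos h]; omega
    · simp only [if_neg h]; split_ifs <;> simp_all; omega
  | bin c a b =>
    simp only [bdpt]
    by_cases h : (vars (bin c a b)).card ≤ m
    · simp only [if_pos h]; omega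
    · simp only [if_neg h]; split_ifs <;> simp_all; omega
  | mod k g f => simp [bdpt]

lemma lv_le_bdpt (a : Fml p V) : lv w m none a ≤ bdpt w m none a ∧
    ∀ c, lv w m (some c) a ≤ bdpt w m (some (some c)) a := by
  classical
  induction a with
  | var _ => simp [bdpt, lv]
  | cst _ => simp [bdpt, lv]
  | neg a ih =>
    have h0 := bdpt_none_le (w := w) (m := m) (some none) a
    by_cases hl : (vars (neg a)).card ≤ m
    · have hl' : isL m (neg a) := hl
      rw [lv_isL hl']
      exact ⟨Nat.zero_le _, fun e => by rw [lv_isL hl']; exact Nat.zero_le _⟩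
    have hl' : ¬ isL m (neg a) := hl
    simp only [lv_neg hl', bdpt, if_neg hl]
    refine ⟨?_, fun c => ?_⟩
    · have h : ¬ ((none : Option (Option Bool)) = some none) := by simp
      rw [if_neg h]; omega
    · have h : ¬ ((some (some c) : Option (Option Bool)) = some none) := by simp
      rw [if_neg h]; omega
  | bin c a b iha ihb =>
    by_cases hl : (vars (bin c a b)).card ≤ m
    · have hl' : isL m (bin c a b) := hl
      rw [lv_isL hl']
      exact ⟨Nat.zero_le _, fun e => by rw [lv_isL hl']; exact Nat.zero_le _⟩
    have hl' : ¬ isL m (bin c a b) := hl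
    simp only [lv, bdpt, if_neg hl, if_neg hl']
    refine ⟨?_, fun e => ?_⟩
    · have h1 := iha.2 c
      have h2 := ihb.2 c
      split_ifs <;> simp_all; omega
    · have h1 := iha.2 c
      have h2 := ihb.2 c
      by_cases h : e = c
      · subst h
        rw [if_pos rfl, if_pos rfl]; omega
      · have h' : ¬ ((some e : Option Bool) = some c) := by simpa using h
        have h'' : ¬ ((some (some e) : Option (Option Bool)) = some (some c)) := by simpa using h
        rw [if_neg h', if_neg h'']; omega
  | mod i k f ih =>
    have key : (if isL m (mod i k f) ∨ w < k then 0 else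
        1 + Finset.univ.sup fun j => lv w m none (f j)) ≤
        (if (vars (mod i k f)).card ≤ m ∨ w < k then 0 else
        1 + Finset.univ.sup fun j => bdpt w m none (f j)) := by
      by_cases h : (vars (mod i k f)).card ≤ m ∨ w < k
      · have h' : isL m (mod i k f) ∨ w < k := h
        rw [if_pos h, if_pos h']
      · have h' : ¬ (isL m (mod i k f) ∨ w < k) := h
        rw [if_neg h, if_neg h']
        have : (Finset.univ.sup fun j => lv w m none (f j)) ≤
            Finset.univ.sup fun j => bdpt w m none (f j) :=
          Finset.sup_mono_fun fun j _ => (ih j).1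
        omega
    simp only [lv, bdpt]
    exact ⟨key, fun _ => key⟩

lemma lv_le_of_Bdepth {d : ℕ} {a : Fml p V} (h : Bdepth w m d a) :
    ∀ b ∈ subs a, lv w m none b ≤ d := fun b hb => (lv_le_bdpt b).1.trans (h b hb)

/-! wide counting subformulas -/

lemma mem_wide {a b : Fml p V} : b ∈ wide w m a ↔
    b ∈ subs a ∧ m < (vars b).card ∧ ∃ i k f, b = mod i k f ∧ w < k := by
  simp only [wide, mem_filter]

lemma wide_sub {a a' : Fml p V} (h : a' ∈ subs a) : wide w m a' ⊆ wide w m a := by
  intro b hb
  rw [mem_wide] at hb ⊢
  exact ⟨subs_trans _ _ h hb.1, hb.2⟩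

lemma wide_subs {a b : Fml p V} (h : b ∈ wide w m a) : b ∈ subs a := (mem_wide.mp h).1

lemma owide_neg (a : Fml p V) : owide w m (neg a) = owide w m a := rfl

lemma owide_bin_l (c : Bool) (a b : Fml p V) : owide w m a ⊆ owide w m (bin c a b) := by
  classical
  intro x hx
  simp only [owide, mem_union]
  exact Or.inl hx

lemma owide_bin_r (c : Bool) (a b : Fml p V) : owide w m b ⊆ owide w m (bin c a b) := by
  classical
  intro x hx
  simp only [owide, mem_union]
  exact Or.inr hx

lemma owide_modw {i : ZMod p} {k : ℕ} {f : Fin k → Fml p V} (hl : ¬ isL m (mod i k f))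
    (hk : w < k) : owide w m (mod i k f) = {mod i k f} := by
  have : m < (vars (mod i k f)).card := by
    have : ¬ (vars (mod i k f)).card ≤ m := hl
    omega
  simp only [owide]
  rw [if_pos ⟨hk, this⟩]

lemma owide_modn {i : ZMod p} {k : ℕ} {f : Fin k → Fml p V}
    (h : isL m (mod i k f) ∨ k ≤ w) (j : Fin k) : owide w m (f j) ⊆ owide w m (mod i k f) := by
  classical
  have h1 : ¬ (w < k ∧ m < (vars (mod i k f)).card) := by
    rintro ⟨h1, h2⟩
    rcases h with h | h
    · have : (vars (mod i k f)).card ≤ m := h
      omega
    · omega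
  intro x hx
  simp only [owide, if_neg h1, mem_biUnion, mem_univ, true_and]
  exact ⟨j, hx⟩

lemma owide_sub (a : Fml p V) : owide w m a ⊆ wide w m a := by
  classical
  induction a with
  | var x => exact empty_subset _
  | cst b => exact empty_subset _
  | neg a ih => exact ih.trans (wide_sub (subs_neg _ (subs_self _)))
  | bin c a b iha ihb =>
    exact union_subset (iha.trans (wide_sub (subs_bin_l _ _ _ (subs_self _))))
      (ihb.trans (wide_sub (subs_bin_r _ _ _ (subs_self _))))
  | mod i k f ih =>
    intro x hx
    by_cases h : w < k ∧ m < (vars (mod i k f)).card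
    · simp only [owide, if_pos h, mem_singleton] at hx
      subst hx
      exact mem_wide.mpr ⟨subs_self _, h.2, i, k, f, rfl, h.1⟩
    · simp only [owide, if_neg h, mem_biUnion, mem_univ, true_and] at hx
      obtain ⟨j, hj⟩ := hx
      exact wide_sub (subs_mod _ _ _ j (subs_self _)) (ih j hj)

lemma wide_local {a : Fml p V} (h : (vars a).card ≤ m) : wide w m a = ∅ := by
  rw [eq_empty_iff_forall_notMem]
  intro b hb
  rw [mem_wide] at hb
  have := card_le_card (vars_subs a b hb.1)
  omega

lemma subs_cases (a : Fml p V) : ∀ b ∈ subs a, owide w m b ⊆ owide w m a ∨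
    ∃ (i : ZMod p) (k : ℕ) (f : Fin k → Fml p V) (j : Fin k), mod i k f ∈ owide w m a ∧
      b ∈ subs (f j) := by
  classical
  induction a with
  | var x => intro b hb; simp only [subs, mem_singleton] at hb; subst hb; exact Or.inl Subset.rfl
  | cst x => intro b hb; simp only [subs, mem_singleton] at hb; subst hb; exact Or.inl Subset.rfl
  | neg a ih =>
    intro b hb
    simp only [subs, mem_insert] at hb
    rcases hb with rfl | hb
    · exact Or.inl Subset.rfl
    · exact ih b hb
  | bin c a b iha ihb =>
    intro x hx
    simp only [subs, mem_insert, mem_union] at hx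
    rcases hx with rfl | hx | hx
    · exact Or.inl Subset.rfl
    · rcases iha x hx with h | ⟨i, k, f, j, h1, h2⟩
      · exact Or.inl (h.trans (owide_bin_l _ _ _))
      · exact Or.inr ⟨i, k, f, j, owide_bin_l _ _ _ h1, h2⟩
    · rcases ihb x hx with h | ⟨i, k, f, j, h1, h2⟩
      · exact Or.inl (h.trans (owide_bin_r _ _ _))
      · exact Or.inr ⟨i, k, f, j, owide_bin_r _ _ _ h1, h2⟩
  | mod i k f ih =>
    intro x hx
    simp only [subs, mem_insert, mem_biUnion, mem_univ, true_and] at hx
    rcases hx with rfl | ⟨j, hx⟩
    · exact Or.inl Subset.rfl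
    · by_cases h : w < k ∧ m < (vars (mod i k f)).card
      · right
        refine ⟨i, k, f, j, ?_, hx⟩
        simp only [owide, if_pos h, mem_singleton]
      · have h1 : owide w m (f j) ⊆ owide w m (mod i k f) := by
          intro z hz
          simp only [owide, if_neg h, mem_biUnion, mem_univ, true_and]
          exact ⟨j, hz⟩
        rcases ih j x hx with h' | ⟨i', k', f', j', h2, h3⟩
        · exact Or.inl (h'.trans h1)
        · exact Or.inr ⟨i', k', f', j', h1 h2, h3⟩

variable {g r : ℕ}

lemma Lay_succ {t : ℕ} : ∀ {a : Fml p V}, Lay w m g r t a → Lay w m g r (t + 1) a := by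
  induction t with
  | zero => intro a h; exact Or.inl h
  | succ t ih =>
    intro a h
    rcases h with h | ⟨h1, h2⟩
    · exact Or.inl h
    · exact Or.inr ⟨h1, fun i k f hf j => ih (h2 i k f hf j)⟩

lemma Lay_mono {t t' : ℕ} (ht : t ≤ t') {a : Fml p V} (h : Lay w m g r t a) :
    Lay w m g r t' a := by
  induction ht with
  | refl => exact h
  | step _ ih => exact Lay_succ ih

lemma Lay_sub {t : ℕ} : ∀ {a b : Fml p V}, Lay w m g r t a → b ∈ subs a → Lay w m g r t b := by
  induction t with
  | zero => intro a b h hb; exact (card_le_card (wide_sub hb)).trans h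
  | succ t ih =>
    intro a b h hb
    rcases h with h | ⟨h1, h2⟩
    · exact Or.inl ((card_le_card (wide_sub hb)).trans h)
    · rcases subs_cases (w := w) (m := m) a b hb with h3 | ⟨i, k, f, j, h3, h4⟩
      · exact Or.inr ⟨(card_le_card h3).trans h1, fun i k f hf j => h2 i k f (h3 hf) j⟩
      · exact Lay_succ (ih (h2 i k f h3 j) h4)

end basics

end Pool.Agent.Work.MP_c04246_lc.H
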