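import Mathlib
import Pool.Agent.Work.MP_c04246_lc.HFml

set_option autoImplicit false
set_option linter.unusedSectionVars false
set_option linter.unusedSimpArgs false
set_option linter.unusedVariables false
set_option linter.unnecessarySeqFocus false

namespace Pool.Agent.Work.MP_c04246_lc.H

open Finset Fml

section cert

variable {p : ℕ} {U X : Type} [DecidableEq U] [DecidableEq X] {es : X → Finset U}

/-- the assignment given by a partial matching -/
def wa (τ : Finset X) (x : X) : Bool := decide (x ∈ τ)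

lemma wa_mono {τ τ' : Finset X} (h : τ ⊆ τ') (hPP : PP es τ') {a : Fml p X}
    (hd : ∀ x ∈ vars a, Dcd es τ x) : eval (wa τ) a = eval (wa τ') a := by
  apply eval_congr
  intro S hS
  unfold wa
  rw [decide_eq_decide]
  constructor
  · exact fun h' => h h'
  · intro h'
    rcases hd S hS with h1 | ⟨T, hT, hne, hnd⟩
    · exact h1
    · exact absurd (hPP T (h hT) S h' hne) hnd

/-- small extensions of the context `θ i` -/
def Sm (es : X → Finset U) (θ : ℕ → Finset X) (κ : ℕ → ℕ) (i : ℕ) : Set (Finset X) :=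
  {τ | PP es τ ∧ θ i ⊆ τ ∧ (τ \ θ i).card ≤ κ i}

/-- certificates of local formulas -/
def LC (es : X → Finset U) (θ : ℕ → Finset X) (κ : ℕ → ℕ) (a : Fml p X) (e : Bool) :
    Set (Finset X) :=
  {τ | τ ∈ Sm es θ κ 0 ∧ (∀ x ∈ vars a, Dcd es τ x) ∧ eval (wa τ) a = e}

open Classical in
/-- certificates, where wide counting connectives have the values given by `β`: first component,
certificates for the truth values of the formula; second component, certificates for the value `c`
of the arguments of the formula viewed as `bin c` -/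
noncomputable def CD (es : X → Finset U) (w m : ℕ) (β : Fml p X → Bool) (θ : ℕ → Finset X)
    (κ : ℕ → ℕ) : Fml p X → (Bool → Set (Finset X)) × (Bool → Set (Finset X))
  | var x => (LC es θ κ (var x : Fml p X), LC es θ κ (var x : Fml p X))
  | cst b => (LC es θ κ (cst b : Fml p X), LC es θ κ (cst b : Fml p X))
  | neg a => if isL m (neg a) then (LC es θ κ (neg a), LC es θ κ (neg a)) else
      (fun e => (CD es w m β θ κ a).1 (!e), fun e => (CD es w m β θ κ a).1 (!e))
  | bin c a b => if isL m (bin c a b) then (LC es θ κ (bin c a b), LC es θ κ (bin c a b)) else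
    (fun e => if e = c then
        {τ | τ ∈ Sm es θ κ (lv w m none (bin c a b)) ∧
          ∃ t ∈ (CD es w m β θ κ a).2 c ∪ (CD es w m β θ κ b).2 c, t ⊆ τ}
      else {τ | τ ∈ Sm es θ κ (lv w m none (bin c a b)) ∧
        ∀ t ∈ (CD es w m β θ κ a).2 c ∪ (CD es w m β θ κ b).2 c, ¬ PP es (t ∪ τ)},
     fun e => if e = c then (CD es w m β θ κ a).2 c ∪ (CD es w m β θ κ b).2 c
      else {τ | τ ∈ Sm es θ κ (lv w m none (bin c a b)) ∧
        ∀ t ∈ (CD es w m β θ κ a).2 c ∪ (CD es w m β θ κ b).2 c, ¬ PP es (t ∪ τ)})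
  | mod i k f => if isL m (mod i k f) then (LC es θ κ (mod i k f), LC es θ κ (mod i k f)) else
    if w < k then
      (fun e => {τ | τ ∈ Sm es θ κ 0 ∧ e = β (mod i k f)},
       fun e => {τ | τ ∈ Sm es θ κ 0 ∧ e = β (mod i k f)})
    else
      (fun e => {τ | τ ∈ Sm es θ κ (lv w m none (mod i k f)) ∧ ∃ g : Fin k → Bool,
        (∀ j, ∃ t ∈ (CD es w m β θ κ (f j)).1 (g j), t ⊆ τ) ∧
          e = decide ((∑ j, if g j then (1 : ZMod p) else 0) = i)},
       fun e => {τ | τ ∈ Sm es θ κ (lv w m none (mod i k f)) ∧ ∃ g : Fin k → Bool,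
        (∀ j, ∃ t ∈ (CD es w m β θ κ (f j)).1 (g j), t ⊆ τ) ∧
          e = decide ((∑ j, if g j then (1 : ZMod p) else 0) = i)})

variable {w m : ℕ} {β β' : Fml p X → Bool} {θ θ' : ℕ → Finset X} {κ : ℕ → ℕ}

lemma CD_isL {a : Fml p X} (h : isL m a) : CD es w m β θ κ a = (LC es θ κ a, LC es θ κ a) := by
  cases a with
  | var S => rfl
  | cst b => rfl
  | neg a => simp only [CD, if_pos h]
  | bin c a b => simp only [CD, if_pos h]
  | mod i k f => simp only [CD, if_pos h]

lemma CD_neg {a : Fml p X} (h : ¬ isL m (neg a)) :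
    CD es w m β θ κ (neg a) =
      (fun e => (CD es w m β θ κ a).1 (!e), fun e => (CD es w m β θ κ a).1 (!e)) := by
  simp only [CD, if_neg h]

lemma CD_bin {c : Bool} {a b : Fml p X} (h : ¬ isL m (bin c a b)) :
    CD es w m β θ κ (bin c a b) = (fun e => if e = c then
        {τ | τ ∈ Sm es θ κ (lv w m none (bin c a b)) ∧
          ∃ t ∈ (CD es w m β θ κ a).2 c ∪ (CD es w m β θ κ b).2 c, t ⊆ τ}
      else {τ | τ ∈ Sm es θ κ (lv w m none (bin c a b)) ∧
        ∀ t ∈ (CD es w m β θ κ a).2 c ∪ (CD es w m β θ κ b).2 c, ¬ PP es (t ∪ τ)},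
     fun e => if e = c then (CD es w m β θ κ a).2 c ∪ (CD es w m β θ κ b).2 c
      else {τ | τ ∈ Sm es θ κ (lv w m none (bin c a b)) ∧
        ∀ t ∈ (CD es w m β θ κ a).2 c ∪ (CD es w m β θ κ b).2 c, ¬ PP es (t ∪ τ)}) := by
  simp only [CD, if_neg h]

lemma CD_modw {i : ZMod p} {k : ℕ} {f : Fin k → Fml p X} (h : ¬ isL m (mod i k f)) (hk : w < k) :
    CD es w m β θ κ (mod i k f) =
      (fun e => {τ | τ ∈ Sm es θ κ 0 ∧ e = β (mod i k f)},
       fun e => {τ | τ ∈ Sm es θ κ 0 ∧ e = β (mod i k f)}) := by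
  simp only [CD, if_neg h, if_pos hk]

lemma CD_modn {i : ZMod p} {k : ℕ} {f : Fin k → Fml p X} (h : ¬ isL m (mod i k f)) (hk : k ≤ w) :
    CD es w m β θ κ (mod i k f) =
      (fun e => {τ | τ ∈ Sm es θ κ (lv w m none (mod i k f)) ∧ ∃ g : Fin k → Bool,
        (∀ j, ∃ t ∈ (CD es w m β θ κ (f j)).1 (g j), t ⊆ τ) ∧
          e = decide ((∑ j, if g j then (1 : ZMod p) else 0) = i)},
       fun e => {τ | τ ∈ Sm es θ κ (lv w m none (mod i k f)) ∧ ∃ g : Fin k → Bool,
        (∀ j, ∃ t ∈ (CD es w m β θ κ (f j)).1 (g j), t ⊆ τ) ∧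
          e = decide ((∑ j, if g j then (1 : ZMod p) else 0) = i)}) := by
  simp only [CD, if_neg h, if_neg (show ¬ w < k by omega)]

/-- certificates depend only on the contexts up to the level of the formula -/
lemma CD_congr (a : Fml p X) :
    ((∀ j ≤ lv w m none a, θ j = θ' j) → (CD es w m β θ κ a).1 = (CD es w m β θ' κ a).1) ∧
    (∀ c, (∀ j ≤ lv w m (some c) a, θ j = θ' j) →
      (CD es w m β θ κ a).2 c = (CD es w m β θ' κ a).2 c) := by
  have hSm : ∀ i, θ i = θ' i → Sm es θ κ i = Sm es θ' κ i := by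
    intro i h; unfold Sm; rw [h]
  have hL : ∀ a : Fml p X, isL m a → θ 0 = θ' 0 → CD es w m β θ κ a = CD es w m β θ' κ a := by
    intro a ha h0
    rw [CD_isL ha, CD_isL ha]
    have : LC es θ κ a = LC es θ' κ a := by
      funext e; unfold LC; rw [hSm 0 h0]
    rw [this]
  induction a with
  | var S =>
    exact ⟨fun h => by rw [hL (var S) trivial (h 0 (Nat.zero_le _))],
      fun c h => by rw [hL (var S) trivial (h 0 (Nat.zero_le _))]⟩
  | cst b =>
    exact ⟨fun h => by rw [hL (cst b) trivial (h 0 (Nat.zero_le _))],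
      fun c h => by rw [hL (cst b) trivial (h 0 (Nat.zero_le _))]⟩
  | neg a ih =>
    by_cases hl : isL m (neg a)
    · exact ⟨fun h => by rw [hL _ hl (h 0 (Nat.zero_le _))],
        fun c h => by rw [hL _ hl (h 0 (Nat.zero_le _))]⟩
    · have : (∀ j ≤ lv w m none a, θ j = θ' j) →
          CD es w m β θ κ (neg a) = CD es w m β θ' κ (neg a) := by
        intro h
        rw [CD_neg hl, CD_neg hl, ih.1 h]
      exact ⟨fun h => by rw [this (by rw [lv_neg hl] at h; exact h)],
        fun c h => by rw [this (by rw [lv_neg hl] at h; exact h)]⟩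
  | bin c a b iha ihb =>
    by_cases hl : isL m (bin c a b)
    · exact ⟨fun h => by rw [hL _ hl (h 0 (Nat.zero_le _))],
        fun c h => by rw [hL _ hl (h 0 (Nat.zero_le _))]⟩
    · have hD : (∀ j ≤ max (lv w m (some c) a) (lv w m (some c) b), θ j = θ' j) →
          (CD es w m β θ κ a).2 c ∪ (CD es w m β θ κ b).2 c =
            (CD es w m β θ' κ a).2 c ∪ (CD es w m β θ' κ b).2 c := by
        intro h
        rw [iha.2 c (fun j hj => h j (hj.trans (le_max_left _ _))),
          ihb.2 c (fun j hj => h j (hj.trans (le_max_right _ _)))]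
      have hall : (∀ j ≤ lv w m none (bin c a b), θ j = θ' j) →
          CD es w m β θ κ (bin c a b) = CD es w m β θ' κ (bin c a b) := by
        intro h
        rw [CD_bin hl, CD_bin hl, hSm _ (h _ le_rfl),
          hD (fun j hj => h j (by rw [lv_bin hl]; omega))]
      refine ⟨fun h => by rw [hall h], fun e h => ?_⟩
      by_cases he : e = c
      · subst he
        rw [CD_bin hl, CD_bin hl]
        simp only [if_true]
        exact hD (fun j hj => h j (by rw [lv_bin_same hl]; exact hj))
      · rw [hall]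
        intro j hj
        apply h
        rw [lv_bin_ne hl he]; exact hj
  | mod i k f ih =>
    by_cases hl : isL m (mod i k f)
    · exact ⟨fun h => by rw [hL _ hl (h 0 (Nat.zero_le _))],
        fun c h => by rw [hL _ hl (h 0 (Nat.zero_le _))]⟩
    · by_cases hk : w < k
      · have : θ 0 = θ' 0 → CD es w m β θ κ (mod i k f) = CD es w m β θ' κ (mod i k f) := by
          intro h
          rw [CD_modw hl hk, CD_modw hl hk, hSm 0 h]
        exact ⟨fun h => by rw [this (h 0 (Nat.zero_le _))],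
          fun c h => by rw [this (h 0 (Nat.zero_le _))]⟩
      · have hk' : k ≤ w := by omega
        have : (∀ j ≤ lv w m none (mod i k f), θ j = θ' j) →
            CD es w m β θ κ (mod i k f) = CD es w m β θ' κ (mod i k f) := by
          intro h
          have h1 : ∀ j, (CD es w m β θ κ (f j)).1 = (CD es w m β θ' κ (f j)).1 := by
            intro j
            apply (ih j).1
            intro j' hj'
            apply h
            have := lv_modn_le (i := i) hl hk' none j
            omega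
          rw [CD_modn hl hk', CD_modn hl hk', hSm _ (h _ le_rfl)]
          simp only [h1]
        exact ⟨fun h => by rw [this h], fun c h => by rw [this (by
          rw [lv_modn hl hk'] at h ⊢; exact h)]⟩

lemma mem_Sm_of_CD (a : Fml p X) : ∀ (e : Bool) (t : Finset X),
    t ∈ (CD es w m β θ κ a).1 e → t ∈ Sm es θ κ (lv w m none a) := by
  induction a with
  | var S => intro e t ht; exact ht.1
  | cst b => intro e t ht; exact ht.1
  | neg a ih =>
    intro e t ht
    by_cases hl : isL m (neg a)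
    · rw [CD_isL hl] at ht
      rw [lv_isL hl]
      exact ht.1
    · rw [CD_neg hl] at ht
      rw [lv_neg hl]
      exact ih _ t ht
  | bin c a b iha ihb =>
    intro e t ht
    by_cases hl : isL m (bin c a b)
    · rw [CD_isL hl] at ht
      rw [lv_isL hl]
      exact ht.1
    · rw [CD_bin hl] at ht
      simp only at ht
      split_ifs at ht
      · exact ht.1
      · exact ht.1
  | mod i k f ih =>
    intro e t ht
    by_cases hl : isL m (mod i k f)
    · rw [CD_isL hl] at ht
      rw [lv_isL hl]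
      exact ht.1
    · by_cases hk : w < k
      · rw [CD_modw hl hk] at ht
        rw [lv_modw hk]
        exact ht.1
      · rw [CD_modn hl (by omega)] at ht
        exact ht.1

/-- members of the second component are certificates of some argument of smaller level -/
lemma mem_D (a : Fml p X) : ∀ (c : Bool) (t : Finset X),
    t ∈ (CD es w m β θ κ a).2 c → ∃ i ≤ lv w m (some c) a, t ∈ Sm es θ κ i := by
  induction a with
  | var S => intro e t ht; exact ⟨0, Nat.zero_le _, ht.1⟩
  | cst b => intro e t ht; exact ⟨0, Nat.zero_le _, ht.1⟩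
  | neg a ih =>
    intro e t ht
    by_cases hl : isL m (neg a)
    · rw [CD_isL hl] at ht
      exact ⟨0, Nat.zero_le _, ht.1⟩
    · rw [CD_neg hl] at ht
      exact ⟨lv w m none a, by rw [lv_neg hl], mem_Sm_of_CD a _ t ht⟩
  | bin c a b iha ihb =>
    intro e t ht
    by_cases hl : isL m (bin c a b)
    · rw [CD_isL hl] at ht
      exact ⟨0, Nat.zero_le _, ht.1⟩
    · rw [CD_bin hl] at ht
      by_cases he : e = c
      · subst he
        simp only [if_true] at ht
        rw [lv_bin_same hl]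
        rcases ht with h | h
        · obtain ⟨i, hi, hi'⟩ := iha _ t h
          exact ⟨i, hi.trans (le_max_left _ _), hi'⟩
        · obtain ⟨i, hi, hi'⟩ := ihb _ t h
          exact ⟨i, hi.trans (le_max_right _ _), hi'⟩
      · simp only [if_neg he] at ht
        exact ⟨_, by rw [lv_bin_ne hl he], ht.1⟩
  | mod i k f ih =>
    intro e t ht
    by_cases hl : isL m (mod i k f)
    · rw [CD_isL hl] at ht
      exact ⟨0, Nat.zero_le _, ht.1⟩
    · by_cases hk : w < k
      · rw [CD_modw hl hk] at ht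
        exact ⟨0, Nat.zero_le _, ht.1⟩
      · rw [CD_modn hl (by omega)] at ht
        refine ⟨_, ?_, ht.1⟩
        rw [lv_modn hl (by omega), lv_modn hl (by omega)]

/-- a formula that is not a non-local `bin c` is its only argument -/
lemma D_eq {a : Fml p X} {c : Bool} (h : isL m a ∨ ∀ a1 a2, a ≠ bin c a1 a2) :
    (CD es w m β θ κ a).2 c = (CD es w m β θ κ a).1 c := by
  by_cases hl : isL m a
  · rw [CD_isL hl]
  · have h' := h.resolve_left hl
    cases a with
    | var S => exact absurd trivial hl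
    | cst b => exact absurd trivial hl
    | neg a => rw [CD_neg hl]
    | bin c' a b =>
      have hc : c ≠ c' := fun h0 => h' a b (h0 ▸ rfl)
      rw [CD_bin hl]
      simp only [if_neg hc]
    | mod i k f =>
      by_cases hk : w < k
      · rw [CD_modw hl hk]
      · rw [CD_modn hl (by omega)]

lemma lv_D_eq {a : Fml p X} {c : Bool} (h : isL m a ∨ ∀ a1 a2, a ≠ bin c a1 a2) :
    lv w m (some c) a = lv w m none a := by
  by_cases hl : isL m a
  · rw [lv_isL hl, lv_isL hl]
  · have h' := h.resolve_left hl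
    cases a with
    | var S => exact absurd trivial hl
    | cst b => exact absurd trivial hl
    | neg a => rw [lv_neg hl, lv_neg hl]
    | bin c' a b =>
      have hc : c ≠ c' := fun h0 => h' a b (h0 ▸ rfl)
      rw [lv_bin_ne hl hc]
    | mod i k f =>
      by_cases hk : w < k
      · rw [lv_modw hk, lv_modw hk]
      · rw [lv_modn hl (by omega), lv_modn hl (by omega)]

/-- each certificate of `a` for `c` contains a member of the second component -/
lemma CD_to_D (a : Fml p X) (c : Bool) (t : Finset X)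
    (ht : t ∈ (CD es w m β θ κ a).1 c) : ∃ t1 ∈ (CD es w m β θ κ a).2 c, t1 ⊆ t := by
  by_cases h : isL m a ∨ ∀ a1 a2, a ≠ bin c a1 a2
  · rw [D_eq h]
    exact ⟨t, ht, Subset.rfl⟩
  · push Not at h
    obtain ⟨hl, a1, a2, rfl⟩ := h
    rw [CD_bin hl] at ht ⊢
    simp only [if_true] at ht ⊢
    exact ht.2

lemma LC_consistent {a : Fml p X} {t t' : Finset X} {e e' : Bool}
    (ht : t ∈ LC es θ κ a e) (ht' : t' ∈ LC es θ' κ a e') (hPP : PP es (t ∪ t')) : e = e' := by
  have h1 := wa_mono subset_union_left hPP ht.2.1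
  have h2 := wa_mono subset_union_right hPP ht'.2.1
  rw [← ht.2.2, ← ht'.2.2, h1, h2]

/-- consistency -/
lemma CD_consistent (a : Fml p X) : ∀ (t t' : Finset X),
    t ∈ (CD es w m β θ κ a).1 true → t' ∈ (CD es w m β θ κ a).1 false → ¬ PP es (t ∪ t') := by
  have hL : ∀ a : Fml p X, isL m a → ∀ (t t' : Finset X),
      t ∈ (CD es w m β θ κ a).1 true → t' ∈ (CD es w m β θ κ a).1 false → ¬ PP es (t ∪ t') := by
    intro a ha t t' ht ht' hPP
    rw [CD_isL ha] at ht ht'
    exact Bool.noConfusion (LC_consistent ht ht' hPP)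
  induction a with
  | var S => exact hL _ trivial
  | cst b => exact hL _ trivial
  | neg a ih =>
    by_cases hl : isL m (neg a)
    · exact hL _ hl
    · intro t t' ht ht' hPP
      rw [CD_neg hl] at ht ht'
      rw [union_comm] at hPP
      exact ih t' t ht' ht hPP
  | bin c a b iha ihb =>
    by_cases hl : isL m (bin c a b)
    · exact hL _ hl
    · intro t t' ht ht' hPP
      rw [CD_bin hl] at ht ht'
      simp only at ht ht'
      cases c with
      | true =>
        rw [if_pos rfl] at ht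
        rw [if_neg (by simp)] at ht'
        obtain ⟨_, t1, ht1, hsub⟩ := ht
        exact ht'.2 t1 ht1 (hPP.mono (union_subset_union hsub Subset.rfl))
      | false =>
        rw [if_neg (by simp)] at ht
        rw [if_pos rfl] at ht'
        obtain ⟨_, t1, ht1, hsub⟩ := ht'
        rw [union_comm] at hPP
        exact ht.2 t1 ht1 (hPP.mono (union_subset_union hsub Subset.rfl))
  | mod i k f ih =>
    by_cases hl : isL m (mod i k f)
    · exact hL _ hl
    · by_cases hk : w < k
      · intro t t' ht ht' hPP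
        rw [CD_modw hl hk] at ht ht'
        have h1 : true = β (mod i k f) := ht.2
        have h2 : false = β (mod i k f) := ht'.2
        rw [← h2] at h1
        exact Bool.noConfusion h1
      · intro t t' ht ht' hPP
        rw [CD_modn hl (by omega)] at ht ht'
        obtain ⟨_, g, hg, hgi⟩ := ht
        obtain ⟨_, g', hg', hgi'⟩ := ht'
        have : g = g' := by
          funext j
          obtain ⟨s, hs, hst⟩ := hg j
          obtain ⟨s', hs', hst'⟩ := hg' j
          have hPPs : PP es (s ∪ s') := hPP.mono (union_subset_union hst hst')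
          cases hgj : g j with
          | true =>
            cases hgj' : g' j with
            | true => rfl
            | false =>
              rw [hgj] at hs; rw [hgj'] at hs'
              exact absurd hPPs (ih j s s' hs hs')
          | false =>
            cases hgj' : g' j with
            | false => rfl
            | true =>
              rw [hgj] at hs; rw [hgj'] at hs'
              rw [union_comm] at hPPs
              exact absurd hPPs (ih j s' s hs' hs)
        subst this
        rw [← hgi'] at hgi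
        exact Bool.noConfusion hgi

/-- the formula is decided with value `e` in the world `W` -/
def Vd (es : X → Finset U) (w m : ℕ) (β : Fml p X → Bool) (θ : ℕ → Finset X) (κ : ℕ → ℕ)
    (a : Fml p X) (e : Bool) (W : Finset X) : Prop := ∃ t ∈ (CD es w m β θ κ a).1 e, t ⊆ W

lemma Vd.mono {a : Fml p X} {e : Bool} {W W' : Finset X} (h : Vd es w m β θ κ a e W)
    (hs : W ⊆ W') : Vd es w m β θ κ a e W' := by
  obtain ⟨t, ht, h1⟩ := h
  exact ⟨t, ht, h1.trans hs⟩

lemma Vd_unique {a : Fml p X} {e e' : Bool} {W : Finset X}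
    (hw : PP es W) (h : Vd es w m β θ κ a e W) (h' : Vd es w m β θ κ a e' W) : e = e' := by
  obtain ⟨t, ht, hsub⟩ := h
  obtain ⟨t', ht', hsub'⟩ := h'
  cases e with
  | true =>
    cases e' with
    | true => rfl
    | false => exact absurd (hw.mono (union_subset hsub hsub')) (CD_consistent a t t' ht ht')
  | false =>
    cases e' with
    | false => rfl
    | true => exact absurd (hw.mono (union_subset hsub' hsub)) (CD_consistent a t' t ht' ht)

lemma Vd_of_D {a : Fml p X} {c e : Bool} {W t : Finset X}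
    (hw : PP es W) (ht : t ∈ (CD es w m β θ κ a).2 c) (htw : t ⊆ W)
    (h : Vd es w m β θ κ a e W) : e = c := by
  by_cases hc : isL m a ∨ ∀ a1 a2, a ≠ bin c a1 a2
  · rw [D_eq hc] at ht
    exact Vd_unique hw h ⟨t, ht, htw⟩
  · push Not at hc
    obtain ⟨hl, a1, a2, rfl⟩ := hc
    by_contra hne
    obtain ⟨s, hs, hsw⟩ := h
    rw [CD_bin hl] at hs ht
    simp only [if_neg hne] at hs
    simp only [if_true] at ht
    exact hs.2 t ht (hw.mono (union_subset htw hsw))

lemma Vd_isL {a : Fml p X} (hl : isL m a) {e : Bool} {W : Finset X} (hw : PP es W)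
    (h : Vd es w m β θ κ a e W) : eval (wa W) a = e := by
  obtain ⟨t, ht, htw⟩ := h
  rw [CD_isL hl] at ht
  rw [← ht.2.2]
  exact (wa_mono htw hw ht.2.1).symm

lemma Vd_bin {c : Bool} {a b : Fml p X} (hl : ¬ isL m (bin c a b)) {e ea eb : Bool}
    {W : Finset X} (hw : PP es W) (h : Vd es w m β θ κ (bin c a b) e W)
    (ha : Vd es w m β θ κ a ea W) (hb : Vd es w m β θ κ b eb W) :
    e = if c then (ea || eb) else (ea && eb) := by
  have key : e = if ea = c ∨ eb = c then c else !c := by
    by_cases he : e = c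
    · obtain ⟨t, ht, htm⟩ := h
      rw [CD_bin hl] at ht
      simp only [if_pos he] at ht
      obtain ⟨_, t1, ht1, hsub⟩ := ht
      rcases ht1 with h1 | h1
      · have := Vd_of_D hw h1 (hsub.trans htm) ha
        rw [if_pos (Or.inl this)]; exact he
      · have := Vd_of_D hw h1 (hsub.trans htm) hb
        rw [if_pos (Or.inr this)]; exact he
    · obtain ⟨t, ht, htm⟩ := h
      rw [CD_bin hl] at ht
      simp only [if_neg he] at ht
      have h1 : ¬ (ea = c ∨ eb = c) := by
        rintro (h1 | h1)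
        · subst h1
          obtain ⟨s, hs, hsm⟩ := ha
          obtain ⟨s1, hs1, hss⟩ := CD_to_D a _ s hs
          exact ht.2 s1 (Or.inl hs1) (hw.mono (union_subset (hss.trans hsm) htm))
        · subst h1
          obtain ⟨s, hs, hsm⟩ := hb
          obtain ⟨s1, hs1, hss⟩ := CD_to_D b _ s hs
          exact ht.2 s1 (Or.inr hs1) (hw.mono (union_subset (hss.trans hsm) htm))
      rw [if_neg h1]
      cases e <;> cases c <;> simp_all
  rw [key]
  cases c <;> cases ea <;> cases eb <;> simp

lemma Vd_neg {a : Fml p X} (hl : ¬ isL m (neg a)) {e : Bool} {W : Finset X} :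
    Vd es w m β θ κ (neg a) e W ↔ Vd es w m β θ κ a (!e) W := by
  unfold Vd
  rw [CD_neg hl]

lemma Vd_modw {i : ZMod p} {k : ℕ} {f : Fin k → Fml p X} (hl : ¬ isL m (mod i k f)) (hk : w < k)
    {e : Bool} {W : Finset X} (h : Vd es w m β θ κ (mod i k f) e W) : e = β (mod i k f) := by
  obtain ⟨t, ht, _⟩ := h
  rw [CD_modw hl hk] at ht
  exact ht.2

lemma Vd_modn {i : ZMod p} {k : ℕ} {f : Fin k → Fml p X} (hl : ¬ isL m (mod i k f)) (hk : k ≤ w)
    {e : Bool} {g : Fin k → Bool} {W : Finset X} (hw : PP es W)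
    (h : Vd es w m β θ κ (mod i k f) e W) (hg : ∀ j, Vd es w m β θ κ (f j) (g j) W) :
    e = decide ((∑ j, if g j then (1 : ZMod p) else 0) = i) := by
  obtain ⟨t, ht, htm⟩ := h
  rw [CD_modn hl hk] at ht
  obtain ⟨_, g', hg', hgi'⟩ := ht
  have : g' = g := by
    funext j
    obtain ⟨s, hs, hst⟩ := hg' j
    exact Vd_unique hw ⟨s, hs, hst.trans htm⟩ (hg j)
  rw [← this]; exact hgi'

/-- states in which the formula is decided -/
def DS (es : X → Finset U) (w m : ℕ) (β : Fml p X → Bool) (θ : ℕ → Finset X) (κ : ℕ → ℕ)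
    (a : Fml p X) : Set (Finset X) := {τ | ∃ e, Vd es w m β θ κ a e τ}

lemma DS_up {a : Fml p X} : UpC (DS es w m β θ κ a) := by
  rintro τ τ' ⟨e, he⟩ h
  exact ⟨e, he.mono h⟩

/-- the formula is decided by few queries -/
def Good (es : X → Finset U) (w m : ℕ) (β : Fml p X → Bool) (θ : ℕ → Finset X) (κ : ℕ → ℕ)
    (a : Fml p X) : Prop := Dec es (DS es w m β θ κ a) (θ (lv w m none a)) (κ (lv w m none a))

lemma Good_congr (a : Fml p X) (h : ∀ j ≤ lv w m none a, θ j = θ' j)
    (hg : Good es w m β θ κ a) : Good es w m β θ' κ a := by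
  unfold Good DS Vd at *
  rw [← (CD_congr a).1 h, ← h _ le_rfl]
  exact hg

/-- local formulas are good once all their variables are decided by few queries -/
lemma Good_isL {a : Fml p X} (hl : isL m a) (h0 : PP es (θ 0))
    (hd : Dec es {τ | ∀ x ∈ vars a, Dcd es τ x} (θ 0) (κ 0)) : Good es w m β θ κ a := by
  unfold Good
  rw [lv_isL hl]
  refine (hd.small (θ 0) (κ 0) Subset.rfl h0 (by simp)).mono_L ?_
  rintro τ ⟨h1, h2, h3, h4⟩
  refine ⟨eval (wa τ) a, τ, ?_, Subset.rfl⟩
  rw [CD_isL hl]
  exact ⟨⟨h2, h3, h4⟩, h1, rfl⟩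

lemma Good_neg {a : Fml p X} (hl : ¬ isL m (neg a)) (h : Good es w m β θ κ a) :
    Good es w m β θ κ (neg a) := by
  unfold Good at *
  rw [lv_neg hl]
  refine Dec.mono_L ?_ h
  rintro τ ⟨e, he⟩
  exact ⟨!e, by rw [Vd_neg hl, Bool.not_not]; exact he⟩

lemma Good_bin {c : Bool} {a b : Fml p X} (hl : ¬ isL m (bin c a b)) {F : List (Finset X)} {h : ℕ}
    (hF : ∀ t, t ∈ F ↔ t ∈ (CD es w m β θ κ (bin c a b)).2 c)
    (hPP : PP es (θ (lv w m none (bin c a b)))) (hh : h ≤ κ (lv w m none (bin c a b)))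
    (hd : Dec es (LF es F) (θ (lv w m none (bin c a b))) h) : Good es w m β θ κ (bin c a b) := by
  unfold Good
  have h1 := hd.mono_h _ hh
  have h2 := h1.small _ (κ (lv w m none (bin c a b))) Subset.rfl hPP (by simp)
  refine h2.mono_L ?_
  rintro τ ⟨h3, h4⟩
  have hD : (CD es w m β θ κ (bin c a b)).2 c =
      (CD es w m β θ κ a).2 c ∪ (CD es w m β θ κ b).2 c := by
    rw [CD_bin hl]; simp
  rcases h3 with ⟨t, ht, htτ⟩ | h3
  · refine ⟨c, τ, ?_, Subset.rfl⟩
    rw [CD_bin hl]
    simp only [if_true]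
    refine ⟨h4, t, ?_, htτ⟩
    rw [← hD]; exact (hF t).mp ht
  · refine ⟨!c, τ, ?_, Subset.rfl⟩
    have hne : (!c) ≠ c := by cases c <;> simp
    rw [CD_bin hl]
    simp only [if_neg hne]
    refine ⟨h4, fun t ht => h3 t ?_⟩
    rw [hF, hD]; exact ht

lemma Good_modw {i : ZMod p} {k : ℕ} {f : Fin k → Fml p X} (hl : ¬ isL m (mod i k f)) (hk : w < k)
    (hPP : PP es (θ 0)) : Good es w m β θ κ (mod i k f) := by
  unfold Good
  rw [lv_modw hk]
  refine Dec.leaf ⟨β (mod i k f), θ 0, ?_, Subset.rfl⟩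
  rw [CD_modw hl hk]
  exact ⟨⟨hPP, Subset.rfl, by simp⟩, rfl⟩

lemma Good_modn {i : ZMod p} {k : ℕ} {f : Fin k → Fml p X} (hlc : ¬ isL m (mod i k f))
    (hkw : k ≤ w) {l : ℕ}
    (hl : lv w m none (mod i k f) = l + 1) (hPP : PP es (θ (l + 1)))
    (hmono : ∀ j ≤ l, θ j ⊆ θ (l + 1)) (hκ : ∀ j ≤ l, κ j ≤ κ l) (hk : k * κ l ≤ κ (l + 1))
    (hf : ∀ j, Good es w m β θ κ (f j)) : Good es w m β θ κ (mod i k f) := by
  unfold Good
  rw [hl]
  have hlv : ∀ j, lv w m none (f j) ≤ l := by
    intro j
    have := lv_modn_le (i := i) hlc hkw none j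
    omega
  have h1 := Dec.inter_all (es := es) (fun j => DS es w m β θ κ (f j)) (fun j => DS_up) (κ l) univ
    (θ (l + 1)) hPP (fun j _ τ' hsub hPP' =>
      (((hf j).mono_ctx DS_up τ' ((hmono _ (hlv j)).trans hsub) hPP').mono_h _ (hκ _ (hlv j))))
  rw [card_univ, Fintype.card_fin] at h1
  have h2 := (h1.mono_h _ hk).small _ (κ (l + 1)) Subset.rfl hPP (by simp)
  refine h2.mono_L ?_
  rintro τ ⟨h3, h4⟩
  have h5 : ∀ j, ∃ e, Vd es w m β θ κ (f j) e τ := fun j => h3 j (mem_univ j)
  choose g hg using h5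
  refine ⟨decide ((∑ j, if g j then (1 : ZMod p) else 0) = i), τ, ?_, Subset.rfl⟩
  rw [CD_modn hlc hkw]
  refine ⟨?_, g, hg, rfl⟩
  rw [hl]; exact h4

/-- contradictory states: all branches of a small decision tree die -/
def Ct (es : X → Finset U) (σ : Finset X) (k : ℕ) : Prop := PP es σ → Dec es ∅ σ k

lemma UpC_empty : UpC (∅ : Set (Finset X)) := fun _ _ h => absurd h (Set.notMem_empty _)

lemma Ct.mono {σ σ' : Finset X} {k k' : ℕ} (h : Ct es σ k) (hs : σ ⊆ σ') (hk : k ≤ k') :
    Ct es σ' k' := fun hPP =>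
  (((h (hPP.mono hs)).mono_ctx UpC_empty σ' hs hPP)).mono_h _ hk

lemma bool_third {e e' c : Bool} (hne : e ≠ e') (he : e ≠ c) : e' = c := by
  revert hne he; cases e <;> cases e' <;> cases c <;> simp

/-- two systems of contexts give the same values up to contradictions -/
theorem cross {d K : ℕ} (hκ : ∀ j ≤ d, κ j ≤ K) (a : Fml p X) :
    (∀ b ∈ subs a, lv w m none b ≤ d ∧ Good es w m β θ κ b ∧ Good es w m β' θ' κ b) →
    (∀ b ∈ owide w m a, β b = β' b) → (∀ j ≤ d, θ j ⊆ θ d) → (∀ j ≤ d, θ' j ⊆ θ' d) →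
    (∀ j j', j ≤ j' → j' ≤ d → θ j ⊆ θ j') → (∀ j j', j ≤ j' → j' ≤ d → θ' j ⊆ θ' j') →
    (∀ (e e' : Bool) (t t' : Finset X), t ∈ (CD es w m β θ κ a).1 e →
      t' ∈ (CD es w m β' θ' κ a).1 e' → e ≠ e' → Ct es (t ∪ t') (lv w m none a * K)) ∧
    (∀ (c : Bool) (t1 σ : Finset X), t1 ∈ (CD es w m β θ κ a).2 c → t1 ⊆ σ → PP es σ →
      (∀ j ≤ lv w m (some c) a, θ' j ⊆ σ) →
      Dec es {σ' | ∃ s1 ∈ (CD es w m β' θ' κ a).2 c, s1 ⊆ σ'} σ ((lv w m (some c) a + 1) * K)) ∧
    (∀ (c : Bool) (t1 σ : Finset X), t1 ∈ (CD es w m β' θ' κ a).2 c → t1 ⊆ σ → PP es σ →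
      (∀ j ≤ lv w m (some c) a, θ j ⊆ σ) →
      Dec es {σ' | ∃ s1 ∈ (CD es w m β θ κ a).2 c, s1 ⊆ σ'} σ ((lv w m (some c) a + 1) * K)) := by
  classical
  -- the second and third statements follow from the first one for formulas which are arguments
  have harg : ∀ (c : Bool) (a : Fml p X) (β β' : Fml p X → Bool) (θ θ' : ℕ → Finset X),
      (isL m a ∨ ∀ a1 a2, a ≠ bin c a1 a2) → lv w m none a ≤ d → Good es w m β' θ' κ a →
      (∀ (e e' : Bool) (t t' : Finset X), t ∈ (CD es w m β θ κ a).1 e →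
        t' ∈ (CD es w m β' θ' κ a).1 e' → e ≠ e' → Ct es (t ∪ t') (lv w m none a * K)) →
      ∀ (t1 σ : Finset X), t1 ∈ (CD es w m β θ κ a).2 c → t1 ⊆ σ → PP es σ →
      (∀ j ≤ lv w m (some c) a, θ' j ⊆ σ) →
      Dec es {σ' | ∃ s1 ∈ (CD es w m β' θ' κ a).2 c, s1 ⊆ σ'} σ ((lv w m (some c) a + 1) * K) := by
    intro c a β β' θ θ' hc hd hG h1 t1 σ ht1 ht1σ hσ hθ'
    rw [D_eq hc] at ht1 ⊢
    rw [lv_D_eq hc] at hθ' ⊢
    have h2 := (hG.mono_ctx DS_up σ (hθ' _ le_rfl) hσ).mono_h K (hκ _ hd)
    have h3 : (lv w m none a + 1) * K = K + lv w m none a * K := by ring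
    rw [h3]
    refine h2.bind hσ fun σ' hσ' hsub hPP' => ?_
    obtain ⟨e, s, hs, hsσ⟩ := hσ'
    by_cases he : e = c
    · subst he
      exact Dec.leaf ⟨s, hs, hsσ⟩
    · have h4 := h1 c e t1 s ht1 hs (fun h => he h.symm)
      have h5 := h4.mono (union_subset (ht1σ.trans hsub) hsσ) le_rfl hPP'
      exact h5.mono_L (Set.empty_subset _)
  -- the case of an argument
  have hfin : ∀ a : Fml p X, lv w m none a ≤ d → Good es w m β θ κ a → Good es w m β' θ' κ a →
      (isL m a ∨ ∀ c a1 a2, a ≠ bin c a1 a2) →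
      (∀ (e e' : Bool) (t t' : Finset X), t ∈ (CD es w m β θ κ a).1 e →
        t' ∈ (CD es w m β' θ' κ a).1 e' → e ≠ e' → Ct es (t ∪ t') (lv w m none a * K)) →
      (∀ (e e' : Bool) (t t' : Finset X), t ∈ (CD es w m β θ κ a).1 e →
      t' ∈ (CD es w m β' θ' κ a).1 e' → e ≠ e' → Ct es (t ∪ t') (lv w m none a * K)) ∧
      (∀ (c : Bool) (t1 σ : Finset X), t1 ∈ (CD es w m β θ κ a).2 c → t1 ⊆ σ → PP es σ →
        (∀ j ≤ lv w m (some c) a, θ' j ⊆ σ) →
        Dec es {σ' | ∃ s1 ∈ (CD es w m β' θ' κ a).2 c, s1 ⊆ σ'} σ ((lv w m (some c) a + 1) * K)) ∧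
      (∀ (c : Bool) (t1 σ : Finset X), t1 ∈ (CD es w m β' θ' κ a).2 c → t1 ⊆ σ → PP es σ →
        (∀ j ≤ lv w m (some c) a, θ j ⊆ σ) →
        Dec es {σ' | ∃ s1 ∈ (CD es w m β θ κ a).2 c, s1 ⊆ σ'} σ
          ((lv w m (some c) a + 1) * K)) := by
    intro a hd hG hG' hc h1
    refine ⟨h1, fun c => harg c a β β' θ θ' (hc.imp_right fun h => h c) hd hG' h1,
      fun c => harg c a β' β θ' θ (hc.imp_right fun h => h c) hd hG ?_⟩
    intro e e' t t' ht ht' hne
    rw [union_comm]
    exact h1 e' e t' t ht' ht (fun h => hne h.symm)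
  have hlocal : ∀ a : Fml p X, isL m a → (∀ (e e' : Bool) (t t' : Finset X),
      t ∈ (CD es w m β θ κ a).1 e → t' ∈ (CD es w m β' θ' κ a).1 e' → e ≠ e' →
      Ct es (t ∪ t') (lv w m none a * K)) := by
    intro a hl e e' t t' ht ht' hne hPP
    rw [CD_isL hl] at ht ht'
    exact absurd (LC_consistent ht ht' hPP) hne
  induction a with
  | var x =>
    intro hG hβ h1 h2 h3 h4
    obtain ⟨g1, g2, g3⟩ := hG _ (subs_self _)
    exact hfin _ g1 g2 g3 (Or.inl trivial) (hlocal _ trivial)
  | cst b =>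
    intro hG hβ h1 h2 h3 h4
    obtain ⟨g1, g2, g3⟩ := hG _ (subs_self _)
    exact hfin _ g1 g2 g3 (Or.inl trivial) (hlocal _ trivial)
  | neg a ih =>
    intro hG hβ h1 h2 h3 h4
    obtain ⟨g1, g2, g3⟩ := hG _ (subs_self _)
    by_cases hl : isL m (neg a)
    · exact hfin _ g1 g2 g3 (Or.inl hl) (hlocal _ hl)
    · refine hfin _ g1 g2 g3 (Or.inr fun c a1 a2 h => by simp at h) ?_
      have ih' := (ih (fun b hb => hG b (subs_neg _ hb)) (fun b hb => hβ b hb) h1 h2 h3 h4).1
      intro e e' t t' ht ht' hne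
      rw [CD_neg hl] at ht ht'
      rw [lv_neg hl]
      exact ih' _ _ t t' ht ht' (by simpa using hne)
  | bin c a b iha ihb =>
    intro hG hβ h1 h2 h3 h4
    obtain ⟨g1, g2, g3⟩ := hG _ (subs_self _)
    by_cases hl : isL m (bin c a b)
    · exact hfin _ g1 g2 g3 (Or.inl hl) (hlocal _ hl)
    · obtain ⟨iha1, iha2, iha3⟩ := iha (fun b' hb => hG b' (subs_bin_l _ _ _ hb)) (fun b' hb =>
        hβ b' (owide_bin_l _ _ _ hb)) h1 h2 h3 h4
      obtain ⟨ihb1, ihb2, ihb3⟩ := ihb (fun b' hb => hG b' (subs_bin_r _ _ _ hb)) (fun b' hb =>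
        hβ b' (owide_bin_r _ _ _ hb)) h1 h2 h3 h4
      have hlb := lv_bin (w := w) (m := m) hl
      -- passing from certificates to certificates for the same connective
      have key1 : ∀ (t1 σ : Finset X),
          t1 ∈ (CD es w m β θ κ a).2 c ∪ (CD es w m β θ κ b).2 c → t1 ⊆ σ → PP es σ →
          (∀ j ≤ max (lv w m (some c) a) (lv w m (some c) b), θ' j ⊆ σ) →
          Dec es {σ' | ∃ s1 ∈ (CD es w m β' θ' κ a).2 c ∪ (CD es w m β' θ' κ b).2 c, s1 ⊆ σ'} σ
            (lv w m none (bin c a b) * K) := by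
        intro t1 σ ht1 hsub hσ hθ
        rcases ht1 with ht1 | ht1
        · have := iha2 c t1 σ ht1 hsub hσ (fun j hj => hθ j (hj.trans (le_max_left _ _)))
          refine (this.mono_h _ (Nat.mul_le_mul_right _ (by rw [hlb]; omega))).mono_L ?_
          rintro σ' ⟨s1, hs1, hs⟩
          exact ⟨s1, Or.inl hs1, hs⟩
        · have := ihb2 c t1 σ ht1 hsub hσ (fun j hj => hθ j (hj.trans (le_max_right _ _)))
          refine (this.mono_h _ (Nat.mul_le_mul_right _ (by rw [hlb]; omega))).mono_L ?_
          rintro σ' ⟨s1, hs1, hs⟩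
          exact ⟨s1, Or.inr hs1, hs⟩
      have key2 : ∀ (t1 σ : Finset X),
          t1 ∈ (CD es w m β' θ' κ a).2 c ∪ (CD es w m β' θ' κ b).2 c → t1 ⊆ σ → PP es σ →
          (∀ j ≤ max (lv w m (some c) a) (lv w m (some c) b), θ j ⊆ σ) →
          Dec es {σ' | ∃ s1 ∈ (CD es w m β θ κ a).2 c ∪ (CD es w m β θ κ b).2 c, s1 ⊆ σ'} σ
            (lv w m none (bin c a b) * K) := by
        intro t1 σ ht1 hsub hσ hθ
        rcases ht1 with ht1 | ht1
        · have := iha3 c t1 σ ht1 hsub hσ (fun j hj => hθ j (hj.trans (le_max_left _ _)))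
          refine (this.mono_h _ (Nat.mul_le_mul_right _ (by rw [hlb]; omega))).mono_L ?_
          rintro σ' ⟨s1, hs1, hs⟩
          exact ⟨s1, Or.inl hs1, hs⟩
        · have := ihb3 c t1 σ ht1 hsub hσ (fun j hj => hθ j (hj.trans (le_max_right _ _)))
          refine (this.mono_h _ (Nat.mul_le_mul_right _ (by rw [hlb]; omega))).mono_L ?_
          rintro σ' ⟨s1, hs1, hs⟩
          exact ⟨s1, Or.inr hs1, hs⟩
      have hS : ∀ t ∈ Sm es θ κ (lv w m none (bin c a b)), ∀ j ≤ lv w m none (bin c a b),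
          θ j ⊆ t := fun t ht j hj => (h3 j _ hj g1).trans ht.2.1
      have hS' : ∀ t ∈ Sm es θ' κ (lv w m none (bin c a b)), ∀ j ≤ lv w m none (bin c a b),
          θ' j ⊆ t := fun t ht j hj => (h4 j _ hj g1).trans ht.2.1
      have h10 : ∀ (e e' : Bool) (t t' : Finset X), t ∈ (CD es w m β θ κ (bin c a b)).1 e →
          t' ∈ (CD es w m β' θ' κ (bin c a b)).1 e' → e ≠ e' →
          Ct es (t ∪ t') (lv w m none (bin c a b) * K) := by
        intro e e' t t' ht ht' hne hPP
        by_cases he : e = c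
        · have he' : e' ≠ c := fun h => hne (he.trans h.symm)
          rw [CD_bin hl] at ht ht'
          simp only [if_pos he] at ht
          simp only [if_neg he'] at ht'
          obtain ⟨hts, t1, ht1, hsub⟩ := ht
          have h5 := (key1 t1 (t ∪ t') ht1 (hsub.trans subset_union_left) hPP (fun j hj =>
            (hS' t' ht'.1 j (by rw [hlb]; omega)).trans subset_union_right)).small (t ∪ t') _
            Subset.rfl hPP le_rfl
          refine h5.mono_L ?_
          rintro σ' ⟨⟨s1, hs1, hss⟩, hPP', hsub', _⟩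
          exact absurd (hPP'.mono (union_subset hss (subset_union_right.trans hsub')))
            (ht'.2 s1 hs1)
        · have he' : e' = c := bool_third hne he
          rw [CD_bin hl] at ht ht'
          simp only [if_neg he] at ht
          simp only [if_pos he'] at ht'
          obtain ⟨hts, t1, ht1, hsub⟩ := ht'
          have h5 := (key2 t1 (t ∪ t') ht1 (hsub.trans subset_union_right) hPP (fun j hj =>
            (hS t ht.1 j (by rw [hlb]; omega)).trans subset_union_left)).small (t ∪ t') _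
            Subset.rfl hPP le_rfl
          refine h5.mono_L ?_
          rintro σ' ⟨⟨s1, hs1, hss⟩, hPP', hsub', _⟩
          exact absurd (hPP'.mono (union_subset hss (subset_union_left.trans hsub')))
            (ht.2 s1 hs1)
      refine ⟨h10, ?_, ?_⟩
      · intro e
        by_cases he : e = c
        · subst he
          intro t1 σ ht1 hsub hσ hθ
          rw [lv_bin_same hl] at hθ ⊢
          rw [CD_bin hl] at ht1 ⊢
          simp only [if_true] at ht1 ⊢
          refine (key1 t1 σ ht1 hsub hσ hθ).mono_h _ (le_of_eq ?_)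
          rw [hlb, add_comm]
        · refine harg e _ β β' θ θ' (Or.inr fun a1 a2 h => he ?_) g1 g3 h10
          simp only [bin.injEq] at h
          exact h.1.symm
      · intro e
        by_cases he : e = c
        · subst he
          intro t1 σ ht1 hsub hσ hθ
          rw [lv_bin_same hl] at hθ ⊢
          rw [CD_bin hl] at ht1 ⊢
          simp only [if_true] at ht1 ⊢
          refine (key2 t1 σ ht1 hsub hσ hθ).mono_h _ (le_of_eq ?_)
          rw [hlb, add_comm]
        · refine harg e _ β' β θ' θ (Or.inr fun a1 a2 h => he ?_) g1 g2 ?_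
          · simp only [bin.injEq] at h
            exact h.1.symm
          · intro e e' t t' ht ht' hne
            rw [union_comm]
            exact h10 e' e t' t ht' ht (fun h => hne h.symm)
  | mod i k f ih =>
    intro hG hβ h1 h2 h3 h4
    obtain ⟨g1, g2, g3⟩ := hG _ (subs_self _)
    by_cases hl : isL m (mod i k f)
    · exact hfin _ g1 g2 g3 (Or.inl hl) (hlocal _ hl)
    · refine hfin _ g1 g2 g3 (Or.inr fun c a1 a2 h => by simp at h) ?_
      by_cases hk : w < k
      · intro e e' t t' ht ht' hne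
        rw [CD_modw hl hk] at ht ht'
        have h5 : β (mod i k f) = β' (mod i k f) := by
          apply hβ
          rw [owide_modw hl hk, mem_singleton]
        exact absurd (ht.2.trans (h5.trans ht'.2.symm)) hne
      · have hk' : k ≤ w := by omega
        intro e e' t t' ht ht' hne
        rw [CD_modn hl hk'] at ht ht'
        obtain ⟨_, g, hg, hgi⟩ := ht
        obtain ⟨_, g', hg', hgi'⟩ := ht'
        have hgg : g ≠ g' := by
          rintro rfl
          exact hne (hgi.trans hgi'.symm)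
        obtain ⟨j, hj⟩ : ∃ j, g j ≠ g' j := by
          by_contra hcon
          push Not at hcon
          exact hgg (funext hcon)
        obtain ⟨s, hs, hst⟩ := hg j
        obtain ⟨s', hs', hst'⟩ := hg' j
        have ih' := (ih j (fun b hb => hG b (subs_mod _ _ _ j hb)) (fun b hb => hβ b
          (owide_modn (Or.inr hk') j hb)) h1 h2 h3 h4).1 _ _ s s' hs hs' hj
        refine ih'.mono (union_subset_union hst hst') (Nat.mul_le_mul_right _ ?_)
        have := lv_modn_le (i := i) hl hk' none j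
        omega

end cert

end Pool.Agent.Work.MP_c04246_lc.H
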