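import Mathlib
import Pool.Agent.Work.MP_c04246_lc.HCert

set_option autoImplicit false
set_option linter.unusedSectionVars false
set_option linter.unusedSimpArgs false
set_option linter.unusedVariables false
set_option linter.unnecessarySeqFocus false

namespace Pool.Agent.Work.MP_c04246_lc.H

open Finset Fml

section chain

variable {p : ℕ} {U X : Type} [DecidableEq U] [DecidableEq X] {es : X → Finset U}

/-- chain of contexts extending `ρ 0 ⊆ ... ⊆ ρ i`, in which all formulas of level at most `i` are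
decided by few queries -/
structure Ch (es : X → Finset U) (w m : ℕ) (β : Fml p X → Bool) (κ s : ℕ → ℕ)
    (Γ : Finset (Fml p X)) (ρ : ℕ → Finset X) (i : ℕ) (θ : ℕ → Finset X) : Prop where
  zero : θ 0 = ρ 0
  pp : ∀ j ≤ i, PP es (θ j)
  ext : ∀ j ≤ i, ρ j ⊆ θ j
  mono : ∀ j j', j ≤ j' → j' ≤ i → θ j ⊆ θ j'
  card : (θ i \ ρ i).card ≤ s i
  good : ∀ a ∈ Γ, lv w m none a ≤ i → Good es w m β θ κ a

/-- the top of a chain -/
def LL (es : X → Finset U) (w m : ℕ) (β : Fml p X → Bool) (κ s : ℕ → ℕ)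
    (Γ : Finset (Fml p X)) (ρ : ℕ → Finset X) (i : ℕ) : Set (Finset X) :=
  {τ | ∃ θ : ℕ → Finset X, Ch es w m β κ s Γ ρ i θ ∧ θ i = τ}

variable {w m : ℕ} {β : Fml p X → Bool} {κ s : ℕ → ℕ} {Γ : Finset (Fml p X)}

/-- closed under subformulas -/
def SC (Γ : Finset (Fml p X)) : Prop := ∀ a ∈ Γ, subs a ⊆ Γ

lemma SC.neg {a : Fml p X} (h : SC Γ) (ha : neg a ∈ Γ) : a ∈ Γ :=
  h _ ha (subs_neg _ (subs_self _))

lemma SC.bin {c : Bool} {a b : Fml p X} (h : SC Γ) (ha : bin c a b ∈ Γ) : a ∈ Γ ∧ b ∈ Γ :=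
  ⟨h _ ha (subs_bin_l _ _ _ (subs_self _)), h _ ha (subs_bin_r _ _ _ (subs_self _))⟩

lemma SC.mod {i : ZMod p} {k : ℕ} {f : Fin k → Fml p X} (h : SC Γ) (ha : mod i k f ∈ Γ)
    (j : Fin k) : f j ∈ Γ := h _ ha (subs_mod _ _ _ j (subs_self _))

lemma good_zero (hΓ : SC Γ) {θ : ℕ → Finset X} (h0 : PP es (θ 0))
    (hloc : ∀ a ∈ Γ, isL m a → Dec es {τ | ∀ x ∈ vars a, Dcd es τ x} (θ 0) (κ 0))
    (a : Fml p X) : a ∈ Γ → lv w m none a = 0 → Good es w m β θ κ a := by
  induction a with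
  | var x => intro ha _; exact Good_isL trivial h0 (hloc _ ha trivial)
  | cst b => intro ha _; exact Good_isL trivial h0 (hloc _ ha trivial)
  | neg a ih =>
    intro ha hl0
    by_cases hl : isL m (neg a)
    · exact Good_isL hl h0 (hloc _ ha hl)
    · rw [lv_neg hl] at hl0
      exact Good_neg hl (ih (hΓ.neg ha) hl0)
  | bin c a b _ _ =>
    intro ha hl0
    by_cases hl : isL m (bin c a b)
    · exact Good_isL hl h0 (hloc _ ha hl)
    · rw [lv_bin hl] at hl0; omega
  | mod i k f _ =>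
    intro ha hl0
    by_cases hl : isL m (mod i k f)
    · exact Good_isL hl h0 (hloc _ ha hl)
    · by_cases hk : w < k
      · exact Good_modw hl hk h0
      · rw [lv_modn hl (by omega)] at hl0; omega

/-- passing to the next level -/
lemma good_succ (hΓ : SC Γ) {θ θ' : ℕ → Finset X} {i ℓ : ℕ} (hagree : ∀ j ≤ i, θ j = θ' j)
    (hG : ∀ a ∈ Γ, lv w m none a ≤ i → Good es w m β θ κ a)
    (hPP : PP es (θ' (i + 1))) (hmono : ∀ j ≤ i, θ' j ⊆ θ' (i + 1)) (hκm : Monotone κ)
    (hℓ : ℓ ≤ κ (i + 1)) (hwκ : w * κ i ≤ κ (i + 1))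
    (F : Fml p X → List (Finset X))
    (hF : ∀ c a b, bin c a b ∈ Γ → ¬ isL m (bin c a b) → lv w m none (bin c a b) = i + 1 →
      ∀ t, t ∈ F (bin c a b) ↔ t ∈ (CD es w m β θ κ (bin c a b)).2 c)
    (hd : ∀ a ∈ Γ, Dec es (LF es (F a)) (θ' (i + 1)) ℓ)
    (a : Fml p X) : a ∈ Γ → lv w m none a ≤ i + 1 → Good es w m β θ' κ a := by
  have hlow : ∀ a ∈ Γ, lv w m none a ≤ i → Good es w m β θ' κ a := fun a ha hl =>
    Good_congr a (fun j hj => hagree j (hj.trans hl)) (hG a ha hl)
  induction a with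
  | var x => intro ha hl; exact hlow _ ha (by simp [lv])
  | cst b => intro ha hl; exact hlow _ ha (by simp [lv])
  | neg a ih =>
    intro ha hl'
    by_cases hl : isL m (neg a)
    · exact hlow _ ha (by rw [lv_isL hl]; exact Nat.zero_le _)
    · rw [lv_neg hl] at hl'
      exact Good_neg hl (ih (hΓ.neg ha) hl')
  | bin c a b _ _ =>
    intro ha hl'
    rcases Nat.lt_or_ge (lv w m none (bin c a b)) (i + 1) with h | h
    · exact hlow _ ha (by omega)
    · have hl1 : lv w m none (bin c a b) = i + 1 := by omega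
      have hl : ¬ isL m (bin c a b) := by
        intro hl; rw [lv_isL hl] at hl1; omega
      have hD : (CD es w m β θ κ (bin c a b)).2 c = (CD es w m β θ' κ (bin c a b)).2 c := by
        apply (CD_congr (bin c a b)).2 c
        intro j hj
        apply hagree
        rw [lv_bin_same hl] at hj
        rw [lv_bin hl] at hl1
        omega
      refine Good_bin (F := F (bin c a b)) (h := ℓ) hl ?_ ?_ ?_ ?_
      · intro t
        rw [hF c a b ha hl hl1, hD]
      · rw [hl1]; exact hPP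
      · rw [hl1]; exact hℓ
      · rw [hl1]; exact hd _ ha
  | mod z k f ih =>
    intro ha hl'
    rcases Nat.lt_or_ge (lv w m none (mod z k f)) (i + 1) with h | h
    · exact hlow _ ha (by omega)
    · have hl1 : lv w m none (mod z k f) = i + 1 := by omega
      have hl : ¬ isL m (mod z k f) := by
        intro hl; rw [lv_isL hl] at hl1; omega
      have hk : k ≤ w := by
        by_contra hk
        rw [lv_modw (by omega)] at hl1; omega
      refine Good_modn hl hk hl1 hPP hmono (fun j hj => hκm hj)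
        ((Nat.mul_le_mul_right _ hk).trans hwκ) (fun j => ih j (hΓ.mod ha j) ?_)
      have := lv_modn_le (i := z) hl hk none j
      omega

lemma GS_up' {ι : Type} (F : ι → List (Finset X)) (I : Finset ι) (ℓ : ℕ) :
    UpC {θ : Finset X | PP es θ → θ ∈ GS es F I ℓ} := by
  intro θ θ' h hs hPP i hi
  exact (h (hPP.mono hs) i hi).mono_ctx (LF_up _) θ' hs hPP

variable {R E : Type} [Fintype R] [DecidableEq R] [Fintype X] [Fintype U] [DecidableEq E]
  [Fintype E] {q : ℕ} {Sy : Sys U X R E q}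

/-- the numerical requirements of one round -/
structure Rd (q ℓ r A T0 T1 M0 M1 nR nE h nt : ℕ) : Prop where
  ex : ∃ θ Δ t1 k a j0 : ℕ, T1 = t1 + q * k ∧ 2 * T0 ≤ t1.choose q * θ ∧
    q * a + (M1 + q * j0) ≤ M0 ∧
    2 * (((M1 + q * j0) * (2 * (t1 + q * k + q * j0) ^ (q - 1))) * θ) ≤ a ∧ 0 < t1 ∧
    2 * (t1 + q * k) ^ (q - 1) ≤ Δ ∧ A * (8 * (r * Δ ^ (q + q * q))) ≤ θ ∧
    4 * nR ≤ 2 ^ k ∧ 4 * nE ≤ 2 ^ j0
  posT : 0 < T0
  posM : 0 < M1
  posr : 1 ≤ r
  posA : 1 ≤ A
  cnt : 4 * (nt * (q * h + ℓ + r)) ≤ A ^ h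

open Classical in
/-- small extensions -/
noncomputable def SE (es : X → Finset U) (ρ : Finset X) (s : ℕ) : Finset (Finset X) :=
  univ.filter fun τ => PP es τ ∧ ρ ⊆ τ ∧ (τ \ ρ).card ≤ s

theorem exists_stages (hq : 0 < q) {ς : Type} (sys : Finset ς) (Γ : ς → Finset (Fml p X))
    (β : ς → Fml p X → Bool) (hΓ : ∀ c ∈ sys, SC (Γ c)) {ρ0 : Finset X} (hρ0 : PP Sy.es ρ0)
    {κ s T M h Pn : ℕ → ℕ} {ℓ A d : ℕ}
    (hloc : ∀ c ∈ sys, ∀ a ∈ Γ c, isL m a → Dec Sy.es {τ | ∀ x ∈ vars a, Dcd Sy.es τ x} ρ0 (κ 0))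
    (hcardΓ : ∀ c ∈ sys, ∀ j, ℓ < q * j → (Γ c).card ≤ 2 ^ j)
    (hκm : Monotone κ) (hκℓ : ∀ i, ℓ ≤ κ i) (hκw : ∀ i, w * κ i ≤ κ (i + 1))
    (hs : ∀ i < d, s i + q * (q * h i) ≤ s (i + 1))
    (hPn : ∀ i < d, ∀ ρ, PP Sy.es ρ → ρ0 ⊆ ρ → (SE Sy.es ρ (s i)).card ≤ Pn i)
    (hT0 : ∀ v, Sy.wf v ρ0 ≤ T 0) (hM0 : ∀ e, M 0 ≤ Sy.bf e ρ0)
    (hRd : ∀ i < d, Rd q ℓ (κ i) A (T i) (T (i + 1)) (M i) (M (i + 1)) (Fintype.card R)
      (Fintype.card E) (h i) (sys.card * Pn i)) :
    ∀ i ≤ d, ∃ ρ : ℕ → Finset X, ρ 0 = ρ0 ∧ (∀ j ≤ i, PP Sy.es (ρ j)) ∧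
      (∀ j j', j ≤ j' → j' ≤ i → ρ j ⊆ ρ j') ∧ (∀ v, Sy.wf v (ρ i) ≤ T i) ∧
      (∀ e, M i ≤ Sy.bf e (ρ i)) ∧
      ∀ c ∈ sys, Dec Sy.es (LL Sy.es w m (β c) κ s (Γ c) ρ i) (ρ i) (s i) := by
  classical
  intro i
  induction i with
  | zero =>
    intro _
    refine ⟨fun _ => ρ0, rfl, fun _ _ => hρ0, fun _ _ _ _ => Subset.rfl, hT0, hM0, ?_⟩
    intro c hc
    refine Dec.leaf ⟨fun _ => ρ0, ⟨rfl, fun _ _ => hρ0, fun _ _ => Subset.rfl,
      fun _ _ _ _ => Subset.rfl, by simp, ?_⟩, rfl⟩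
    intro a ha hl
    exact good_zero (hΓ c hc) hρ0 (hloc c hc) a ha (by omega)
  | succ i ih =>
    intro hi
    obtain ⟨ρ, hρz, hρPP, hρm, hρT, hρM, hρD⟩ := ih (by omega)
    obtain ⟨⟨θw, Δ, t1, k, a, j0, hT1, hr1, hr2, hr3, hr4, hr5, hr6, hr7, hr8⟩, hr9, hr10, hr11,
      hr12, hr13⟩ := hRd i (by omega)
    -- the tests
    let isT : ς × Finset X → Prop := fun z => z.2 ∈ LL Sy.es w m (β z.1) κ s (Γ z.1) ρ i
    let tests : Finset (ς × Finset X) := (sys ×ˢ SE Sy.es (ρ i) (s i)).filter isT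
    have hex : ∀ z : ς × Finset X, ∃ θ : ℕ → Finset X, isT z →
        Ch Sy.es w m (β z.1) κ s (Γ z.1) ρ i θ ∧ θ i = z.2 := by
      intro z
      by_cases h : isT z
      · obtain ⟨θ, h1, h2⟩ := h
        exact ⟨θ, fun _ => ⟨h1, h2⟩⟩
      · exact ⟨fun _ => ∅, fun h' => absurd h' h⟩
    choose ch hch using hex
    let F : ς × Finset X → Fml p X → List (Finset X) := fun z x =>
      match x with
      | bin c a b => if ¬ isL m (bin c a b) ∧ lv w m none (bin c a b) = i + 1 then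
          ((CD Sy.es w m (β z.1) (ch z) κ (bin c a b)).2 c).toFinset.toList else []
      | _ => []
    have hF : ∀ z ∈ tests, ∀ x ∈ Γ z.1, ∀ t ∈ F z x, (t \ z.2).card ≤ κ i := by
      intro z hz x _ t ht
      rw [mem_filter] at hz
      obtain ⟨h1, h2⟩ := hch z hz.2
      cases x with
      | var S => simp [F] at ht
      | cst b => simp [F] at ht
      | neg a => simp [F] at ht
      | mod _ k f => simp [F] at ht
      | bin c a b =>
        simp only [F] at ht
        split_ifs at ht with hl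
        · rw [mem_toList, Set.mem_toFinset] at ht
          obtain ⟨j, hj, hjS⟩ := mem_D _ _ _ ht
          have hji : j ≤ i := by
            have h3 := hl.2
            rw [lv_bin hl.1] at h3
            rw [lv_bin_same hl.1] at hj
            omega
          rw [← h2]
          exact (card_le_card (sdiff_subset_sdiff Subset.rfl (h1.mono j i hji le_rfl))).trans
            (hjS.2.2.trans (hκm hji))
        · simp at ht
    have htc : tests.card ≤ sys.card * Pn i := by
      refine (card_filter_le _ _).trans ?_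
      rw [card_product]
      exact Nat.mul_le_mul_left _ (hPn i (by omega) _ (hρPP i le_rfl) (by
        rw [← hρz]; exact hρm 0 i (Nat.zero_le _) le_rfl))
    obtain ⟨ρn, hn1, hn2, hn3, hn4, hn5⟩ := Sys.stage (Sy := Sy) hq (hρPP i le_rfl) tests
      (fun z => z.2) F (fun z => Γ z.1) hF hr11 hr12 (ℓ := ℓ) (h := h i)
      (fun z hz j hj => hcardΓ z.1 (by
        rw [mem_filter, mem_product] at hz; exact hz.1.1) j hj)
      hρT hr9 hρM hr1 hr2 hr3 hr10 hr4 hr5 hr6 hr7 hr8
      (le_trans (Nat.mul_le_mul_left _ (Nat.mul_le_mul_right _ htc)) hr13)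
    set ρ' := Function.update ρ (i + 1) ρn with hρ'
    have hagree : ∀ j ≤ i, ρ j = ρ' j := by
      intro j hj
      rw [hρ', Function.update_of_ne (by omega)]
    have hupd : ρ' (i + 1) = ρn := Function.update_self _ _ _
    refine ⟨ρ', ?_, ?_, ?_, ?_, ?_, ?_⟩
    · rw [← hagree 0 (Nat.zero_le _)]; exact hρz
    · intro j hj
      rcases Nat.lt_or_ge j (i + 1) with h | h
      · rw [← hagree j (by omega)]; exact hρPP j (by omega)
      · have : j = i + 1 := by omega
        rw [this, hupd]; exact hn1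
    · intro j j' hjj hj'
      rcases Nat.lt_or_ge j' (i + 1) with h | h
      · rw [← hagree j (by omega), ← hagree j' (by omega)]; exact hρm j j' hjj (by omega)
      · have : j' = i + 1 := by omega
        subst this
        rw [hupd]
        rcases Nat.lt_or_ge j (i + 1) with h' | h'
        · rw [← hagree j (by omega)]
          exact (hρm j i (by omega) le_rfl).trans hn2
        · have : j = i + 1 := by omega
          rw [this, hupd]
    · intro v; rw [hupd, hT1]; exact (hn3 v).le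
    · intro e; rw [hupd]; exact (hn4 e).le
    · intro c hc
      rw [hupd]
      have h1 := (hρD c hc).small (ρ i) (s i) Subset.rfl (hρPP i le_rfl) (by simp)
      -- upward closure
      set L1 : Set (Finset X) := {τ' | ∃ τ, τ ∈ LL Sy.es w m (β c) κ s (Γ c) ρ i ∧
        PP Sy.es τ ∧ ρ i ⊆ τ ∧ (τ \ ρ i).card ≤ s i ∧ τ ⊆ τ'} with hL1
      have hL1up : UpC L1 := by
        rintro τ τ' ⟨σ, g1, g2, g3, g4, g5⟩ hsub
        exact ⟨σ, g1, g2, g3, g4, g5.trans hsub⟩
      have h2 : Dec Sy.es L1 (ρ i) (s i) := h1.mono_L (by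
        rintro τ ⟨g1, g2, g3, g4⟩
        exact ⟨τ, g1, g2, g3, g4, Subset.rfl⟩)
      have h3 := (h2.mono_ctx hL1up ρn hn2 hn1).small ρn (s i) Subset.rfl hn1 (by simp)
      refine Dec.mono_h ?_ _ (hs i (by omega))
      refine h3.bind hn1 fun τ' hτ' hsub hPP' => ?_
      obtain ⟨⟨τ, g1, g2, g3, g4, g5⟩, _, _, g6⟩ := hτ'
      have htest : (c, τ) ∈ tests := by
        rw [mem_filter, mem_product]
        refine ⟨⟨hc, ?_⟩, g1⟩
        unfold SE
        rw [mem_filter]
        exact ⟨mem_univ _, g2, g3, g4⟩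
      have h4 := hn5 (c, τ) htest (hPP'.mono (union_subset hsub g5))
      simp only at h4
      have h5 := (h4.mono_L (L' := {θ : Finset X | PP Sy.es θ →
        θ ∈ GS Sy.es (F (c, τ)) (Γ c) ℓ}) (fun θ hθ _ => hθ)).mono_ctx
        (GS_up' _ _ _) τ' (union_subset hsub g5) hPP'
      have h6 := h5.small ρn (s i + q * (q * h i)) hsub hPP' (by omega)
      refine h6.mono_L ?_
      rintro σ ⟨k1, k2, k3, k4⟩
      have k5 := k1 k2
      obtain ⟨hc1, hc2⟩ := hch (c, τ) g1
      simp only at hc1 hc2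
      have hagreeθ : ∀ j ≤ i, ch (c, τ) j = Function.update (ch (c, τ)) (i + 1) σ j := by
        intro j hj
        rw [Function.update_of_ne (by omega)]
      have hupdθ : Function.update (ch (c, τ)) (i + 1) σ (i + 1) = σ := Function.update_self _ _ _
      have hτσ : τ ⊆ σ := g5.trans k3
      refine ⟨Function.update (ch (c, τ)) (i + 1) σ, ⟨?_, ?_, ?_, ?_, ?_, ?_⟩, hupdθ⟩
      · rw [← hagreeθ 0 (Nat.zero_le _), ← hagree 0 (Nat.zero_le _)]
        exact hc1.zero
      · intro j hj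
        rcases Nat.lt_or_ge j (i + 1) with h | h
        · rw [← hagreeθ j (by omega)]; exact hc1.pp j (by omega)
        · have : j = i + 1 := by omega
          rw [this, hupdθ]; exact k2
      · intro j hj
        rcases Nat.lt_or_ge j (i + 1) with h | h
        · rw [← hagreeθ j (by omega), ← hagree j (by omega)]; exact hc1.ext j (by omega)
        · have : j = i + 1 := by omega
          rw [this, hupdθ, hupd]; exact hsub.trans k3
      · intro j j' hjj hj'
        rcases Nat.lt_or_ge j' (i + 1) with h | h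
        · rw [← hagreeθ j (by omega), ← hagreeθ j' (by omega)]
          exact hc1.mono j j' hjj (by omega)
        · have : j' = i + 1 := by omega
          subst this
          rw [hupdθ]
          rcases Nat.lt_or_ge j (i + 1) with h' | h'
          · rw [← hagreeθ j (by omega)]
            refine (hc1.mono j i (by omega) le_rfl).trans ?_
            rw [hc2]; exact hτσ
          · have : j = i + 1 := by omega
            rw [this, hupdθ]
      · rw [hupdθ, hupd]
        exact k4.trans (hs i (by omega))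
      · refine good_succ (ℓ := ℓ) (hΓ c hc) hagreeθ hc1.good ?_ ?_ hκm (hκℓ _) (hκw i)
          (F (c, τ)) ?_ ?_
        · rw [hupdθ]; exact k2
        · intro j hj
          rw [← hagreeθ j hj, hupdθ]
          refine (hc1.mono j i hj le_rfl).trans ?_
          rw [hc2]; exact hτσ
        · intro c' a b _ hl hl1 t
          simp only [F]
          rw [if_pos ⟨hl, hl1⟩, mem_toList, Set.mem_toFinset]
        · intro a ha
          rw [hupdθ]
          exact k5 a ha

end chain

end Pool.Agent.Work.MP_c04246_lc.H
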