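import Mathlib
import Pool.Agent.Work.MP_c04246_lc.HAlg
import Pool.Agent.Work.MP_c04246_lc.HStage

set_option autoImplicit false
set_option linter.unusedSectionVars false
set_option linter.unusedSimpArgs false
set_option linter.unusedVariables false
set_option linter.unnecessarySeqFocus false

namespace Pool.Agent.Work.MP_c04246_lc.H

open Finset Fml

section sys

variable {Y K : Type} [Field K] {p : ℕ} {P : PCI Y K} {U X : Type} [DecidableEq U]
  [DecidableEq X] [Fintype X] {es : X → Finset U}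

open Classical in
/-- truth values of the wide counting connectives according to the guess `T` -/
noncomputable def gs (T : Finset (Fml p X)) (z : Fml p X) : Bool := decide (z ∈ T)

lemma gs_eq {T : Finset (Fml p X)} {z : Fml p X} : gs T z = true ↔ z ∈ T := by
  classical
  unfold gs; simp

/-- value of a counting connective, given the values of its arguments -/
def mt (v : Fml p X → Bool) : Fml p X → Bool
  | mod i _ f => decide ((∑ j, if v (f j) then (1 : ZMod p) else 0) = i)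
  | _ => false

open Classical in
/-- the counting subformulas whose values are guessed -/
noncomputable def gset (w m g : ℕ) (a : Fml p X) : Finset (Fml p X) :=
  if (wide w m a).card ≤ g then wide w m a else owide w m a

/-- everything that has been prepared before the algebraic argument starts; the systems are pairs
consisting of a formula and of a guess for its (outermost) wide counting subformulas -/
structure Env (P : PCI Y K) (p : ℕ) (es : X → Finset U) where
  ρ : Finset X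
  δ : ℕ
  W : WD P es ρ δ
  w : ℕ
  m : ℕ
  d : ℕ
  g : ℕ
  r : ℕ
  nt : ℕ
  hs : ℕ
  hk : ℕ
  κ : ℕ → ℕ
  κle : ∀ j ≤ d, κ j ≤ hk
  S : Finset (Fml p X)
  sc : SC S
  lvd : ∀ a ∈ S, lv w m none a ≤ d
  lay : ∀ a ∈ S, Lay w m g r nt a
  L : Fml p X × Finset (Fml p X) → Set (Finset X)
  θ : Fml p X × Finset (Fml p X) → Finset X → ℕ → Finset X
  top : ∀ c σ, σ ∈ L c → θ c σ d = σ
  thpp : ∀ c σ, σ ∈ L c → ∀ j ≤ d, PP es (θ c σ j)
  thmono : ∀ c σ, σ ∈ L c → ∀ j j', j ≤ j' → j' ≤ d → θ c σ j ⊆ θ c σ j'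
  good : ∀ c σ, σ ∈ L c → ∀ φ ∈ subs c.1, lv w m none φ ≤ d →
    Good es w m (gs c.2) (θ c σ) κ φ
  Rm : ∀ c : Fml p X × Finset (Fml p X), Run W (c.1 ∈ S ∧ c.2 ⊆ gset w m g c.1) (L c) ρ hs
  Rs : ∀ (c : Fml p X × Finset (Fml p X)) (σ : Finset X) (φ : Fml p X),
    Run W (c.1 ∈ S ∧ σ ∈ L c ∧ φ ∈ subs c.1) (DS es w m (gs c.2) (θ c σ) κ φ) σ hk

namespace Env

variable (E : Env P p es)

/-- admissible systems -/
def ok (c : Fml p X × Finset (Fml p X)) : Prop := c.1 ∈ E.S ∧ c.2 ⊆ gset E.w E.m E.g c.1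

/-- few wide counting subformulas -/
def base (a : Fml p X) : Prop := (wide E.w E.m a).card ≤ E.g

lemma base_sub {a b : Fml p X} (h : E.base a) (hb : b ∈ subs a) : E.base b :=
  (card_le_card (wide_sub hb)).trans h

lemma ok_base {a : Fml p X} {T : Finset (Fml p X)} (ha : a ∈ E.S) (hb : E.base a)
    (hT : T ⊆ wide E.w E.m a) : E.ok (a, T) := by
  refine ⟨ha, ?_⟩
  simp only
  unfold gset
  rw [if_pos (show (wide E.w E.m a).card ≤ E.g from hb)]
  exact hT

lemma ok_nb {a : Fml p X} {T : Finset (Fml p X)} (ha : a ∈ E.S)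
    (hT : T ⊆ owide E.w E.m a) : E.ok (a, T) := by
  refine ⟨ha, ?_⟩
  simp only
  unfold gset
  split_ifs
  · exact hT.trans (owide_sub a)
  · exact hT

lemma ok_wide {a : Fml p X} {T : Finset (Fml p X)} (h : E.ok (a, T)) : T ⊆ wide E.w E.m a := by
  have := h.2
  simp only at this
  unfold gset at this
  split_ifs at this
  · exact this
  · exact this.trans (owide_sub a)

open Classical in
/-- the value at a leaf of a small tree -/
noncomputable def vo (c : Fml p X × Finset (Fml p X)) (σ : Finset X) (φ : Fml p X) :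
    Option (Finset X) → Bool
  | some π => decide (Vd es E.w E.m (gs c.2) (E.θ c σ) E.κ φ true π)
  | none => false

/-- local truth values, below a leaf of the main tree -/
noncomputable def vs (c : Fml p X × Finset (Fml p X)) (σ : Finset X) (φ : Fml p X) (y : Y) :
    Bool := E.vo c σ φ ((E.Rs c σ φ).lam y)

/-- local truth values -/
noncomputable def vl (c : Fml p X × Finset (Fml p X)) (φ : Fml p X) (y : Y) : Bool :=
  match (E.Rm c).lam y with
  | some σ => E.vs c σ φ y
  | none => false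

/-- local errors -/
noncomputable def el (c : Fml p X × Finset (Fml p X)) (φ : Fml p X) (y : Y) : Bool :=
  match (E.Rm c).lam y with
  | some σ => (E.Rs c σ φ).err y
  | none => false

lemma vl_of {c : Fml p X × Finset (Fml p X)} {φ : Fml p X} {y : Y} {σ : Finset X}
    (h : (E.Rm c).lam y = some σ) : E.vl c φ y = E.vs c σ φ y := by
  unfold vl; rw [h]

lemma el_of {c : Fml p X × Finset (Fml p X)} {φ : Fml p X} {y : Y} {σ : Finset X}
    (h : (E.Rm c).lam y = some σ) : E.el c φ y = (E.Rs c σ φ).err y := by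
  unfold el; rw [h]

lemma leaf_sub {c : Fml p X × Finset (Fml p X)} {y : Y} {σ : Finset X}
    (h : (E.Rm c).lam y = some σ) : σ ⊆ E.W.m y := (E.Rm c).sub y σ h (E.W.sub y)

lemma vo_spec {c : Fml p X × Finset (Fml p X)} {σ : Finset X} {φ : Fml p X} {π : Finset X}
    (hπ : PP es π) (h : π ∈ DS es E.w E.m (gs c.2) (E.θ c σ) E.κ φ) :
    Vd es E.w E.m (gs c.2) (E.θ c σ) E.κ φ (E.vo c σ φ (some π)) π := by
  classical
  obtain ⟨e, he⟩ := h
  by_cases hv : Vd es E.w E.m (gs c.2) (E.θ c σ) E.κ φ true π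
  · have : E.vo c σ φ (some π) = true := by unfold vo; simp only; rw [decide_eq_true_iff]; exact hv
    rw [this]; exact hv
  · have h1 : E.vo c σ φ (some π) = false := by
      unfold vo; simp only; rw [decide_eq_false_iff_not]; exact hv
    rw [h1]
    cases e with
    | true => exact absurd he hv
    | false => exact he

lemma vs_truth {c : Fml p X × Finset (Fml p X)} (hc : c.1 ∈ E.S) {σ : Finset X} {φ : Fml p X}
    {y : Y} (hσ : σ ∈ E.L c) (hs : σ ⊆ E.W.m y) (hφ : φ ∈ subs c.1)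
    (he : (E.Rs c σ φ).err y = false) :
    Vd es E.w E.m (gs c.2) (E.θ c σ) E.κ φ (E.vs c σ φ y) (E.W.m y) := by
  obtain ⟨π, hπ⟩ := (E.Rs c σ φ).tot ⟨hc, hσ, hφ⟩ y hs he
  have h1 := (E.Rs c σ φ).sub y π hπ hs
  have h2 := E.vo_spec ((E.W.pp y).mono h1) ((E.Rs c σ φ).leaf y π hπ)
  unfold vs
  rw [hπ]
  exact h2.mono h1

/-- local truth -/
lemma truth {c : Fml p X × Finset (Fml p X)} (hc : c.1 ∈ E.S) {σ : Finset X} {φ : Fml p X} {y : Y}
    (h : (E.Rm c).lam y = some σ) (hφ : φ ∈ subs c.1) (he : E.el c φ y = false) :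
    Vd es E.w E.m (gs c.2) (E.θ c σ) E.κ φ (E.vl c φ y) (E.W.m y) := by
  rw [E.vl_of h]
  rw [E.el_of h] at he
  exact E.vs_truth hc ((E.Rm c).leaf y σ h) (E.leaf_sub h) hφ he

/-! degrees -/

lemma deg_vs (c : Fml p X × Finset (Fml p X)) (σ : Finset X) (φ : Fml p X) :
    bF K (E.vs c σ φ) ∈ P.Deg (E.δ * E.hk) := by
  have h := (E.Rs c σ φ).deg 0 (fun o _ => if E.vo c σ φ o then (1 : K) else 0)
    (fun o => P.const 0 _)
  rw [zero_add] at h
  exact h

lemma deg_ess (c : Fml p X × Finset (Fml p X)) (σ : Finset X) (φ : Fml p X) :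
    bF K (E.Rs c σ φ).err ∈ P.Deg (E.δ * E.hk) := (E.Rs c σ φ).degE

/-- functions depending on the leaf of the main tree -/
lemma deg_main {D : ℕ} (c : Fml p X × Finset (Fml p X)) (G : Finset X → Y → Bool)
    (h : ∀ σ, bF K (G σ) ∈ P.Deg D) :
    bF K (fun y => match (E.Rm c).lam y with | some σ => G σ y | none => false)
      ∈ P.Deg (D + E.δ * E.hs) := by
  have h1 := (E.Rm c).deg D
    (fun o => bF K (fun y => match o with | some σ => G σ y | none => false)) (fun o => by
      cases o with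
      | none => exact bF_const _ _
      | some σ => exact h σ)
  convert h1 using 1
  funext y
  rw [bF_apply, bF_apply]

lemma deg_vl (c : Fml p X × Finset (Fml p X)) (φ : Fml p X) :
    bF K (E.vl c φ) ∈ P.Deg (E.δ * E.hk + E.δ * E.hs) :=
  E.deg_main c (fun σ => E.vs c σ φ) (fun σ => E.deg_vs c σ φ)

lemma deg_el (c : Fml p X × Finset (Fml p X)) (φ : Fml p X) :
    bF K (E.el c φ) ∈ P.Deg (E.δ * E.hk + E.δ * E.hs) :=
  E.deg_main c (fun σ => (E.Rs c σ φ).err) (fun σ => E.deg_ess c σ φ)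

lemma zr_el (c : Fml p X × Finset (Fml p X)) (hc : E.ok c) (φ : Fml p X)
    (hB : E.δ * E.hk + 3 * (E.δ * E.hs) ≤ P.B) : bF K (E.el c φ) ∈ P.Zr := by
  classical
  refine (E.Rm c).split hc (E.deg_el c φ) (fun y _ => E.W.sub y) (by omega) ?_
  intro σ _
  have h1 : (fun y => if (E.Rm c).lam y = some σ then bF K (E.el c φ) y else 0) =
      bF K (E.Rs c σ φ).err * fun y => if (E.Rm c).lam y = some σ then (1 : Y → K) y else 0 := by
    funext y
    rw [Pi.mul_apply]
    by_cases h : (E.Rm c).lam y = some σ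
    · rw [if_pos h, if_pos h, bF_apply, bF_apply, E.el_of h, Pi.one_apply, mul_one]
    · rw [if_neg h, if_neg h, mul_zero]
  rw [h1]
  exact P.zmul (D := E.δ * E.hk) (D' := 0 + E.δ * E.hs) (by omega) (E.deg_ess c σ φ)
    (E.Rs c σ φ).zrE ((E.Rm c).degI (P.one' 0) _)

/-- the guess of the system is consistent on the set `Z` of counting connectives -/
def act (c : Fml p X × Finset (Fml p X)) (Z : Finset (Fml p X)) (y : Y) : Prop :=
  (E.Rm c).lam y ≠ none ∧ ∀ z ∈ Z, mt (fun φ => E.vl c φ y) z = gs c.2 z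

open Classical in
/-- the Boolean function of `act` -/
noncomputable def ac (c : Fml p X × Finset (Fml p X)) (Z : Finset (Fml p X)) (y : Y) : Bool :=
  decide (E.act c Z y)

lemma ac_iff {c : Fml p X × Finset (Fml p X)} {Z : Finset (Fml p X)} {y : Y} :
    E.ac c Z y = true ↔ E.act c Z y := by
  classical
  unfold ac; simp

lemma deg_mt [Fact p.Prime] [CharP K p] {D : ℕ} (v : Fml p X → Y → Bool)
    (h : ∀ φ, bF K (v φ) ∈ P.Deg D) (z : Fml p X) :
    bF K (fun y => mt (fun φ => v φ y) z) ∈ P.Deg (p * D) := by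
  cases z with
  | var x => exact bF_const _ _
  | cst b => exact bF_const _ _
  | neg a => exact bF_const _ _
  | bin c a b => exact bF_const _ _
  | mod i k f => exact bF_mod (fun j => h (f j))

lemma deg_ac [Fact p.Prime] [CharP K p] (c : Fml p X × Finset (Fml p X))
    (Z : Finset (Fml p X)) :
    bF K (E.ac c Z) ∈ P.Deg (Z.card * (p * (E.δ * E.hk)) + E.δ * E.hs) := by
  classical
  have h0 : ∀ σ, bF K (fun y => decide (∀ z ∈ Z, mt (fun φ => E.vs c σ φ y) z = gs c.2 z))
      ∈ P.Deg (Z.card * (p * (E.δ * E.hk))) := by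
    intro σ
    have h1 : bF K (fun y => decide (∀ z ∈ Z, mt (fun φ => E.vs c σ φ y) z = gs c.2 z)) =
        ∏ z ∈ Z, bF K (fun y => mt (fun φ => E.vs c σ φ y) z == gs c.2 z) := by
      funext y
      rw [Finset.prod_apply]
      by_cases h : ∀ z ∈ Z, mt (fun φ => E.vs c σ φ y) z = gs c.2 z
      · rw [bF_true (by simpa using h), prod_eq_one]
        intro z hz
        exact bF_true (by simpa using h z hz)
      · rw [bF_false (by simpa using h)]
        push Not at h
        obtain ⟨z, hz, hne⟩ := h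
        rw [prod_eq_zero hz]
        exact bF_false (by simpa using hne)
    rw [h1]
    refine P.prod Z _ fun z _ => ?_
    have h2 := bF_comb (P := P) (D' := 0) (fun a b => a == b)
      (deg_mt (D := E.δ * E.hk) (fun φ => E.vs c σ φ) (fun φ => E.deg_vs c σ φ) z)
      (bF_const 0 (gs c.2 z))
    exact h2
  have h2 := E.deg_main c (fun σ y =>
    decide (∀ z ∈ Z, mt (fun φ => E.vs c σ φ y) z = gs c.2 z)) h0
  convert h2 using 2
  funext y
  unfold ac act
  cases h : (E.Rm c).lam y with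
  | none => simp
  | some σ =>
    simp only [ne_eq, reduceCtorEq, not_false_eq_true, true_and]
    have : (fun φ => E.vl c φ y) = fun φ => E.vs c σ φ y := by
      funext φ; exact E.vl_of h
    rw [this]

/-- the two systems agree about the formula -/
def agr (c c' : Fml p X × Finset (Fml p X)) (φ : Fml p X) : Prop :=
  φ ∈ subs c.1 ∧ φ ∈ subs c'.1 ∧ ∀ b ∈ owide E.w E.m φ, gs c.2 b = gs c'.2 b

/-- two systems that agree about a formula give it the same value, up to the ideal -/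
theorem cross_zr {c c' : Fml p X × Finset (Fml p X)} (hc : c.1 ∈ E.S) (hc' : c'.1 ∈ E.S)
    {φ : Fml p X} (hφ : E.agr c c' φ) {σ σ' : Finset X} (hσ : σ ∈ E.L c) (hσ' : σ' ∈ E.L c')
    {D : ℕ} {χ : Y → K} (hχ : χ ∈ P.Deg D) (hsup : ∀ y, χ y ≠ 0 → σ ⊆ E.W.m y ∧ σ' ⊆ E.W.m y)
    (hB : D + (E.d + 5) * (E.δ * E.hk) ≤ P.B) :
    χ * (bF K (E.vs c σ φ) - bF K (E.vs c' σ' φ)) ∈ P.Zr := by
  classical
  have hB2 : D + 5 * (E.δ * E.hk) + E.d * (E.δ * E.hk) ≤ P.B := by
    have : (E.d + 5) * (E.δ * E.hk) = 5 * (E.δ * E.hk) + E.d * (E.δ * E.hk) := by ring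
    omega
  set g := χ * (bF K (E.vs c σ φ) - bF K (E.vs c' σ' φ)) with hg
  have hgD : g ∈ P.Deg (D + E.δ * E.hk) :=
    P.mul hχ (Submodule.sub_mem _ (E.deg_vs c σ φ) (E.deg_vs c' σ' φ))
  have hgs : ∀ y, g y ≠ 0 → χ y ≠ 0 := by
    intro y hy hz
    apply hy
    rw [hg, Pi.mul_apply, hz, zero_mul]
  refine (E.Rs c σ φ).split ⟨hc, hσ, hφ.1⟩ hgD (fun y hy => (hsup y (hgs y hy)).1) (by omega) ?_
  intro π hπ
  have hg1 := (E.Rs c σ φ).degI hgD (some π)
  refine (E.Rs c' σ' φ).split ⟨hc', hσ', hφ.2.1⟩ hg1 ?_ (by omega) ?_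
  · intro y hy
    refine (hsup y (hgs y ?_)).2
    intro h0
    apply hy
    rw [h0, ite_self]
  intro π' hπ'
  have hg2 := (E.Rs c' σ' φ).degI hg1 (some π')
  set g2 := (fun y => if (E.Rs c' σ' φ).lam y = some π' then
    (if (E.Rs c σ φ).lam y = some π then g y else 0) else 0) with hg2'
  have hsup2 : ∀ y, g2 y ≠ 0 → (E.Rs c σ φ).lam y = some π ∧ (E.Rs c' σ' φ).lam y = some π' ∧
      χ y ≠ 0 ∧ E.vs c σ φ y ≠ E.vs c' σ' φ y := by
    intro y hy
    rw [hg2'] at hy
    simp only [ne_eq, ite_eq_right_iff, Classical.not_imp] at hy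
    obtain ⟨h1, h2, h3⟩ := hy
    refine ⟨h2, h1, hgs y h3, ?_⟩
    intro h0
    apply h3
    rw [hg, Pi.mul_apply, Pi.sub_apply, bF_apply, bF_apply, h0, sub_self, mul_zero]
  -- either the support is empty or the leaves contradict each other
  by_cases hpt : ∃ y, g2 y ≠ 0
  · obtain ⟨y, hy⟩ := hpt
    obtain ⟨h1, h2, h3, h4⟩ := hsup2 y hy
    have hs1 := (E.Rs c σ φ).sub y π h1 (hsup y h3).1
    have hs2 := (E.Rs c' σ' φ).sub y π' h2 (hsup y h3).2
    have hPP : PP es (π ∪ π') := (E.W.pp y).mono (union_subset hs1 hs2)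
    obtain ⟨t, ht, htπ⟩ := E.vo_spec (hPP.mono subset_union_left) hπ
    obtain ⟨t', ht', htπ'⟩ := E.vo_spec (hPP.mono subset_union_right) hπ'
    have hne : E.vo c σ φ (some π) ≠ E.vo c' σ' φ (some π') := by
      have := h4
      unfold vs at this
      rw [h1, h2] at this
      exact this
    have hCt := (cross (K := E.hk) (κ := E.κ) (d := E.d) E.κle φ (fun b hb => by
        have hb1 : b ∈ subs c.1 := subs_trans _ _ hφ.1 hb
        have hb2 : b ∈ subs c'.1 := subs_trans _ _ hφ.2.1 hb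
        have hl := E.lvd b (E.sc _ hc hb1)
        exact ⟨hl, E.good c σ hσ b hb1 hl, E.good c' σ' hσ' b hb2 hl⟩) hφ.2.2
      (fun j hj => E.thmono c σ hσ j _ hj le_rfl) (fun j hj => E.thmono c' σ' hσ' j _ hj le_rfl)
      (E.thmono c σ hσ) (E.thmono c' σ' hσ')).1 _ _ t t' ht ht' hne
    have hl := E.lvd φ (E.sc _ hc hφ.1)
    have hCt2 := hCt.mono (union_subset_union htπ htπ') (Nat.mul_le_mul_right E.hk hl) hPP
    refine ct_zr (W := E.W) hCt2 _ g2 hg2 ?_ ?_
    · intro y hy
      obtain ⟨h1, h2, h3, _⟩ := hsup2 y hy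
      exact union_subset ((E.Rs c σ φ).sub y π h1 (hsup y h3).1)
        ((E.Rs c' σ' φ).sub y π' h2 (hsup y h3).2)
    · have : E.δ * (E.d * E.hk) = E.d * (E.δ * E.hk) := by ring
      omega
  · push Not at hpt
    have : g2 = 0 := funext hpt
    rw [this]; exact Submodule.zero_mem _

theorem cross_l {c c' : Fml p X × Finset (Fml p X)} (hc : E.ok c) (hc' : E.ok c')
    {φ : Fml p X} (hφ : E.agr c c' φ) {D : ℕ} {χ : Y → K} (hχ : χ ∈ P.Deg D)
    (hB : D + 4 * (E.δ * E.hs) + (E.d + 5) * (E.δ * E.hk) ≤ P.B) :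
    χ * (bF K (E.vl c φ) - bF K (E.vl c' φ)) ∈ P.Zr := by
  classical
  have h5 : 5 * (E.δ * E.hk) ≤ (E.d + 5) * (E.δ * E.hk) := Nat.mul_le_mul_right _ (by omega)
  have hgD : χ * (bF K (E.vl c φ) - bF K (E.vl c' φ)) ∈ P.Deg (D + (E.δ * E.hk + E.δ * E.hs)) :=
    P.mul hχ (Submodule.sub_mem _ (E.deg_vl c φ) (E.deg_vl c' φ))
  refine (E.Rm c).split hc hgD (fun y _ => E.W.sub y) (by omega) ?_
  intro σ hσ
  refine (E.Rm c').split hc' ((E.Rm c).degI hgD (some σ)) (fun y _ => E.W.sub y) (by omega) ?_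
  intro σ' hσ'
  have h1 := (E.Rm c').degI ((E.Rm c).degI hχ (some σ)) (some σ')
  have h2 := E.cross_zr hc.1 hc'.1 hφ hσ hσ' h1 (fun y hy => by
    simp only [ne_eq, ite_eq_right_iff, Classical.not_imp] at hy
    exact ⟨E.leaf_sub hy.2.1, E.leaf_sub hy.1⟩) (by omega)
  convert h2 using 1
  funext y
  simp only [Pi.mul_apply, Pi.sub_apply, ite_mul, zero_mul]
  by_cases h3 : (E.Rm c').lam y = some σ'
  · by_cases h4 : (E.Rm c).lam y = some σ
    · rw [if_pos h3, if_pos h4, if_pos h3, if_pos h4, bF_apply, bF_apply, bF_apply, bF_apply,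
        E.vl_of h3, E.vl_of h4]
    · rw [if_pos h3, if_neg h4, if_pos h3, if_neg h4]
  · rw [if_neg h3, if_neg h3]

end Env

end sys

end Pool.Agent.Work.MP_c04246_lc.H
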