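import Mathlib
import Pool.Agent.Work.MP_c04246_lc.HSys

set_option autoImplicit false
set_option linter.unusedSectionVars false
set_option linter.unusedSimpArgs false
set_option linter.unusedVariables false
set_option linter.unnecessarySeqFocus false

namespace Pool.Agent.Work.MP_c04246_lc.H

open Finset Fml

section sizes

variable {p : ℕ} {V : Type}

lemma size_subs (a : Fml p V) : ∀ b ∈ subs a, size b ≤ size a := by
  classical
  induction a with
  | var x => intro b hb; simp only [subs, mem_singleton] at hb; subst hb; rfl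
  | cst x => intro b hb; simp only [subs, mem_singleton] at hb; subst hb; rfl
  | neg a ih =>
    intro b hb
    simp only [subs, mem_insert] at hb
    rcases hb with rfl | hb
    · rfl
    · have := ih b hb; simp only [size]; omega
  | bin c a b iha ihb =>
    intro x hx
    simp only [subs, mem_insert, mem_union] at hx
    rcases hx with rfl | hx | hx
    · rfl
    · have := iha x hx; simp only [size]; omega
    · have := ihb x hx; simp only [size]; omega
  | mod k g f ih =>
    intro x hx
    simp only [subs, mem_insert, mem_biUnion, mem_univ, true_and] at hx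
    rcases hx with rfl | ⟨j, hx⟩
    · rfl
    · have h1 := ih j x hx
      have h2 : size (f j) ≤ ∑ j, size (f j) :=
        single_le_sum (f := fun j => size (f j)) (fun _ _ => Nat.zero_le _) (mem_univ j)
      simp only [size]; omega

lemma size_arg (i : ZMod p) (k : ℕ) (f : Fin k → Fml p V) (j : Fin k) :
    size (f j) < size (mod i k f) := by
  have h2 : size (f j) ≤ ∑ j, size (f j) :=
    single_le_sum (f := fun j => size (f j)) (fun _ _ => Nat.zero_le _) (mem_univ j)
  simp only [size]; omega

end sizes

section act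

variable {Y K : Type} [Field K] {p : ℕ} [Fact p.Prime] [CharP K p] {P : PCI Y K} {U X : Type}
  [DecidableEq U] [DecidableEq X] [Fintype X] {es : X → Finset U}

/-- if `χ` kills a difference with values in the prime field, then it kills all functions
supported where the difference is nonzero -/
lemma diff_zr {χ u G : Y → K} {D D' D'' : ℕ} (hχ : χ ∈ P.Deg D) (hu : u ∈ P.Deg D')
    (hG : G ∈ P.Deg D'') (hz : χ * u ∈ P.Zr) (hB : D + p * D' + D'' ≤ P.B)
    (hc : ∀ y, ∃ x : ZMod p, u y = ZMod.castHom (dvd_refl p) K x)
    (hs : ∀ y, G y ≠ 0 → u y ≠ 0) : χ * G ∈ P.Zr := by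
  have hp : 1 < p := (Fact.out : p.Prime).one_lt
  have h1 : χ * G = (χ * u) * (u ^ (p - 2) * G) := by
    funext y
    simp only [Pi.mul_apply, Pi.pow_apply]
    by_cases hG0 : G y = 0
    · rw [hG0]; ring
    · have hu0 := hs y hG0
      obtain ⟨x, hx⟩ := hc y
      have h2 : u y ^ (p - 1) = 1 := by
        rw [hx, pow_zmod, if_neg]
        rintro rfl
        exact hu0 (by rw [hx, map_zero])
      have h3 : u y * u y ^ (p - 2) = u y ^ (p - 1) := by
        rw [← pow_succ']
        congr 1
        omega
      calc χ y * G y = χ y * (u y * u y ^ (p - 2)) * G y := by rw [h3, h2, mul_one]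
        _ = _ := by ring
  rw [h1]
  refine P.zmul ?_ (P.mul hχ hu) hz (P.mul (P.pow hu (p - 2)) hG)
  have h4 : (p - 2) * D' + D' ≤ p * D' := by
    have : (p - 2) * D' + D' = (p - 2 + 1) * D' := by ring
    rw [this]
    exact Nat.mul_le_mul_right _ (by omega)
  omega

/-- number of true arguments, in the field -/
def Sz (K : Type) [Field K] (v : Fml p X → Bool) : Fml p X → K
  | mod _ _ f => ∑ j, if v (f j) then (1 : K) else 0
  | _ => 0

lemma Sz_cast (v : Fml p X → Bool) (z : Fml p X) :
    ∃ x : ZMod p, Sz K v z = ZMod.castHom (dvd_refl p) K x := by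
  cases z with
  | var x => exact ⟨0, by simp [Sz]⟩
  | cst b => exact ⟨0, by simp [Sz]⟩
  | neg a => exact ⟨0, by simp [Sz]⟩
  | bin c a b => exact ⟨0, by simp [Sz]⟩
  | mod i k f => exact ⟨_, cast_sum (K := K) (p := p) univ fun j => v (f j)⟩

lemma mt_eq_of_Sz {v v' : Fml p X → Bool} {z : Fml p X} (h : Sz K v z = Sz K v' z) :
    mt v z = mt v' z := by
  cases z with
  | var x => rfl
  | cst b => rfl
  | neg a => rfl
  | bin c a b => rfl
  | mod i k f =>
    have h1 := cast_sum (K := K) (p := p) univ fun j => v (f j)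
    have h2 := cast_sum (K := K) (p := p) univ fun j => v' (f j)
    simp only [Sz] at h
    rw [h1, h2] at h
    have h3 := (ZMod.castHom (dvd_refl p) K).injective h
    unfold mt
    simp only
    rw [h3]

lemma deg_Sz {D : ℕ} (v : Fml p X → Y → Bool) (h : ∀ φ, bF K (v φ) ∈ P.Deg D) (z : Fml p X) :
    (fun y => Sz K (fun φ => v φ y) z) ∈ P.Deg D := by
  cases z with
  | var x => exact P.const _ _
  | cst b => exact P.const _ _
  | neg a => exact P.const _ _
  | bin c a b => exact P.const _ _
  | mod i k f =>
    have : (fun y => Sz K (fun φ => v φ y) (mod i k f)) = ∑ j, bF K (v (f j)) := by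
      funext y
      rw [Finset.sum_apply]
      rfl
    rw [this]
    exact Submodule.sum_mem _ fun j _ => h (f j)

namespace Env

variable (E : Env P p es)

/-- unit of degree -/
def N : ℕ := 4 * (E.δ * E.hs) + (E.d + 5) * (E.δ * E.hk) + (E.g + 2) * (p * (E.δ * E.hk))

lemma deg_vl' (c : Fml p X × Finset (Fml p X)) (φ : Fml p X) : bF K (E.vl c φ) ∈ P.Deg E.N := by
  refine P.up (E.deg_vl c φ) ?_
  unfold N
  have h5 : 5 * (E.δ * E.hk) ≤ (E.d + 5) * (E.δ * E.hk) := Nat.mul_le_mul_right _ (by omega)
  omega

lemma deg_el' (c : Fml p X × Finset (Fml p X)) (φ : Fml p X) : bF K (E.el c φ) ∈ P.Deg E.N := by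
  refine P.up (E.deg_el c φ) ?_
  unfold N
  have h5 : 5 * (E.δ * E.hk) ≤ (E.d + 5) * (E.δ * E.hk) := Nat.mul_le_mul_right _ (by omega)
  omega

lemma zr_el' (c : Fml p X × Finset (Fml p X)) (hc : E.ok c) (φ : Fml p X)
    (hB : E.N ≤ P.B) : bF K (E.el c φ) ∈ P.Zr := by
  refine E.zr_el c hc φ (le_trans ?_ hB)
  unfold N
  have h5 : 5 * (E.δ * E.hk) ≤ (E.d + 5) * (E.δ * E.hk) := Nat.mul_le_mul_right _ (by omega)
  omega

lemma deg_ac' (c : Fml p X × Finset (Fml p X)) {Z : Finset (Fml p X)} (hZ : Z.card ≤ E.g) :
    bF K (E.ac c Z) ∈ P.Deg E.N := by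
  refine P.up (E.deg_ac c Z) ?_
  unfold N
  have h5 : Z.card * (p * (E.δ * E.hk)) ≤ (E.g + 2) * (p * (E.δ * E.hk)) :=
    Nat.mul_le_mul_right _ (by omega)
  omega

/-- two systems which agree about the arguments of the members of `Z` give them the same values -/
theorem disagree_zr {c c' : Fml p X × Finset (Fml p X)} (hc : E.ok c) (hc' : E.ok c')
    (Z : Finset (Fml p X)) (hZg : Z.card ≤ E.g)
    (hZ : ∀ z ∈ Z, ∀ i k f, z = mod i k f → ∀ j, E.agr c c' (f j))
    {D : ℕ} {χ : Y → K} (hχ : χ ∈ P.Deg D)
    (hsup : ∀ y, χ y ≠ 0 → (E.Rm c).lam y ≠ none → (E.Rm c').lam y ≠ none →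
      ∃ z ∈ Z, mt (fun φ => E.vl c φ y) z ≠ mt (fun φ => E.vl c' φ y) z)
    (hB : D + E.N ≤ P.B) : χ ∈ P.Zr := by
  classical
  have hp : 1 < p := (Fact.out : p.Prime).one_lt
  have h5 : 5 * (E.δ * E.hk) ≤ (E.d + 5) * (E.δ * E.hk) := Nat.mul_le_mul_right _ (by omega)
  have h6 : Z.card * (p * (E.δ * E.hk)) ≤ E.g * (p * (E.δ * E.hk)) :=
    Nat.mul_le_mul_right _ hZg
  have h7 : (E.g + 2) * (p * (E.δ * E.hk)) =
    E.g * (p * (E.δ * E.hk)) + 2 * (p * (E.δ * E.hk)) := by ring
  unfold N at hB
  refine (E.Rm c).split hc hχ (fun y _ => E.W.sub y) (by omega) ?_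
  intro σ hσ
  refine (E.Rm c').split hc' ((E.Rm c).degI hχ (some σ)) (fun y _ => E.W.sub y) (by omega) ?_
  intro σ' hσ'
  have hD2 := (E.Rm c').degI ((E.Rm c).degI hχ (some σ)) (some σ')
  set χ2 : Y → K := fun y => if (E.Rm c').lam y = some σ' then
    (if (E.Rm c).lam y = some σ then χ y else 0) else 0 with hχ2
  have hs2 : ∀ y, χ2 y ≠ 0 → (E.Rm c).lam y = some σ ∧ (E.Rm c').lam y = some σ' ∧ χ y ≠ 0 := by
    intro y hy
    simp only [hχ2, ne_eq, ite_eq_right_iff, Classical.not_imp] at hy
    exact ⟨hy.2.1, hy.1, hy.2.2⟩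
  let u : Fml p X → Y → K := fun z =>
    (fun y => Sz K (fun φ => E.vs c σ φ y) z) - fun y => Sz K (fun φ => E.vs c' σ' φ y) z
  let b : Fml p X → Y → Bool := fun z y => decide (u z y ≠ 0)
  have hu : ∀ z, u z ∈ P.Deg (E.δ * E.hk) := fun z => Submodule.sub_mem _
    (deg_Sz _ (fun φ => E.deg_vs c σ φ) z) (deg_Sz _ (fun φ => E.deg_vs c' σ' φ) z)
  have huc : ∀ z y, ∃ x : ZMod p, u z y = ZMod.castHom (dvd_refl p) K x := by
    intro z y
    obtain ⟨x, hx⟩ := Sz_cast (K := K) (fun φ => E.vs c σ φ y) z
    obtain ⟨x', hx'⟩ := Sz_cast (K := K) (fun φ => E.vs c' σ' φ y) z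
    exact ⟨x - x', by simp only [u, Pi.sub_apply]; rw [hx, hx', map_sub]⟩
  have hb : ∀ z, bF K (b z) ∈ P.Deg (p * (E.δ * E.hk)) := by
    intro z
    have : bF K (b z) = u z ^ (p - 1) := by
      funext y
      rw [Pi.pow_apply]
      obtain ⟨x, hx⟩ := huc z y
      rw [hx, pow_zmod]
      by_cases h0 : x = 0
      · rw [if_pos h0, bF_false]
        simp only [b, decide_eq_false_iff_not, not_not]
        rw [hx, h0, map_zero]
      · rw [if_neg h0, bF_true]
        simp only [b, decide_eq_true_eq]
        rw [hx]
        intro h1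
        exact h0 ((ZMod.castHom (dvd_refl p) K).injective (by rw [h1, map_zero]))
    rw [this]
    exact P.up (P.pow (hu z) _) (Nat.mul_le_mul_right _ (by omega))
  have hzu : ∀ z ∈ Z, χ2 * u z ∈ P.Zr := by
    intro z hz
    cases z with
    | var x => simp only [u, Sz, sub_self]; rw [mul_zero]; exact Submodule.zero_mem _
    | cst b => simp only [u, Sz, sub_self]; rw [mul_zero]; exact Submodule.zero_mem _
    | neg a => simp only [u, Sz, sub_self]; rw [mul_zero]; exact Submodule.zero_mem _
    | bin c a b => simp only [u, Sz, sub_self]; rw [mul_zero]; exact Submodule.zero_mem _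
    | mod i k f =>
      have h1 : u (mod i k f) = ∑ j, (bF K (E.vs c σ (f j)) - bF K (E.vs c' σ' (f j))) := by
        funext y
        rw [Finset.sum_apply]
        simp only [u, Sz, Pi.sub_apply, sum_sub_distrib, bF_apply]
      rw [h1, mul_sum]
      refine Submodule.sum_mem _ fun j _ => ?_
      refine E.cross_zr hc.1 hc'.1 (hZ _ hz i k f rfl j) hσ hσ' hD2 ?_ (by omega)
      intro y hy
      obtain ⟨h1, h2, _⟩ := hs2 y hy
      exact ⟨E.leaf_sub h1, E.leaf_sub h2⟩
  refine cover_zr (M := p * (E.δ * E.hk)) hD2 (Z.toList.map b) ?_ ?_ ?_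
  · intro b' hb'
    rw [List.mem_map] at hb'
    obtain ⟨z, hz, rfl⟩ := hb'
    rw [mem_toList] at hz
    refine ⟨hb z, ?_⟩
    refine diff_zr (p := p) hD2 (hu z) (hb z) (hzu z hz) (by omega) (huc z) ?_
    intro y hy
    rw [bF_apply] at hy
    have : b z y = true := by
      by_contra h; rw [if_neg h] at hy; exact hy rfl
    simpa [b] using this
  · rw [List.length_map, length_toList]
    omega
  · intro y hy
    obtain ⟨h1, h2, h3⟩ := hs2 y hy
    obtain ⟨z, hz, hne⟩ := hsup y h3 (by rw [h1]; simp) (by rw [h2]; simp)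
    refine ⟨b z, List.mem_map.mpr ⟨z, mem_toList.mpr hz, rfl⟩, ?_⟩
    simp only [b, decide_eq_true_eq, u, Pi.sub_apply]
    intro h0
    apply hne
    have e1 : (fun φ => E.vl c φ y) = fun φ => E.vs c σ φ y := by
      funext φ; exact E.vl_of h1
    have e2 : (fun φ => E.vl c' φ y) = fun φ => E.vs c' σ' φ y := by
      funext φ; exact E.vl_of h2
    rw [e1, e2]
    exact mt_eq_of_Sz (K := K) (sub_eq_zero.mp h0)

/-- the systems for all guesses cover everything -/
theorem sum_zr {a : Fml p X} (ha : a ∈ E.S) (hbase : E.base a) {D : ℕ} {f : Y → K} (hf : f ∈ P.Deg D)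
    (hB : D + 4 * E.N ≤ P.B)
    (h : ∀ T ⊆ wide E.w E.m a, bF K (E.ac (a, T) (wide E.w E.m a)) * f ∈ P.Zr) : f ∈ P.Zr := by
  classical
  have key : ∀ (n : ℕ) (Z : Finset (Fml p X)), Z ⊆ wide E.w E.m a →
      (∀ z ∈ Z, ∀ z' ∈ wide E.w E.m a, z' ∈ subs z → z' ∈ Z) →
      (wide E.w E.m a \ Z).card = n → ∀ T ⊆ Z, bF K (E.ac (a, T) Z) * f ∈ P.Zr := by
    intro n
    induction n with
    | zero =>
      intro Z hZ hlow hn T hT
      have : Z = wide E.w E.m a := by
        refine Subset.antisymm hZ ?_
        rw [card_eq_zero, sdiff_eq_empty_iff_subset] at hn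
        exact hn
      rw [this] at hT ⊢
      exact h T hT
    | succ n ih =>
      intro Z hZ hlow hn T hT
      have hne : (wide E.w E.m a \ Z).Nonempty := by
        rw [← card_pos]; omega
      obtain ⟨z, hz, hzmin⟩ := exists_min_image _ (fun z => size z) hne
      rw [mem_sdiff] at hz
      have hlow' : ∀ x ∈ insert z Z, ∀ z' ∈ wide E.w E.m a, z' ∈ subs x → z' ∈ insert z Z := by
        intro x hx z' hz' hzs
        rcases mem_insert.mp hx with rfl | hx
        · by_cases he : z' ∈ Z
          · exact mem_insert_of_mem he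
          · rw [mem_insert]; left
            have h1 := hzmin z' (mem_sdiff.mpr ⟨hz', he⟩)
            -- equal sizes force equality
            by_contra hne'
            have h2 : size z' < size x := by
              cases x with
              | var y => simp only [subs, mem_singleton] at hzs; exact absurd hzs hne'
              | cst b => simp only [subs, mem_singleton] at hzs; exact absurd hzs hne'
              | neg b =>
                simp only [subs, mem_insert] at hzs
                have := size_subs b z' (hzs.resolve_left hne')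
                simp only [size]; omega
              | bin c b b' =>
                simp only [subs, mem_insert, mem_union] at hzs
                rcases hzs.resolve_left hne' with h | h
                · have := size_subs b z' h
                  simp only [size]; omega
                · have := size_subs b' z' h
                  simp only [size]; omega
              | mod i k f =>
                simp only [subs, mem_insert, mem_biUnion, mem_univ, true_and] at hzs
                obtain ⟨j, hj⟩ := hzs.resolve_left hne'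
                have h3 := size_subs _ _ hj
                have h4 := size_arg i k f j
                omega
            omega
        · exact mem_insert_of_mem (hlow x hx z' hz' hzs)
      have hZ' : insert z Z ⊆ wide E.w E.m a := insert_subset hz.1 hZ
      have hcard' : (wide E.w E.m a \ insert z Z).card = n := by
        have h1 : wide E.w E.m a \ insert z Z = (wide E.w E.m a \ Z).erase z := by
          ext x; simp only [mem_sdiff, mem_insert, mem_erase]; tauto
        rw [h1, card_erase_of_mem (mem_sdiff.mpr hz), hn]; rfl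
      have hQ := ih (insert z Z) hZ' hlow' hcard'
      have hg' : (insert z Z).card ≤ E.g := (card_le_card hZ').trans hbase
      have hg : Z.card ≤ E.g := (card_le_card hZ).trans hbase
      have hzT : z ∉ T := fun h => hz.2 (hT h)
      -- the part where the connective `z` is false
      set act1 : Y → Bool := fun y => E.ac (a, T) Z y && mt (fun φ => E.vl (a, T) φ y) z with hact1
      have hsplit : bF K (E.ac (a, T) Z) = bF K (E.ac (a, T) (insert z Z)) + bF K act1 := by
        funext y
        rw [Pi.add_apply]
        by_cases h1 : E.act (a, T) Z y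
        · have h1' : E.ac (a, T) Z y = true := E.ac_iff.mpr h1
          rw [bF_true h1']
          have hgz : gs T z = false := by
            rw [← Bool.not_eq_true, gs_eq]; exact hzT
          cases h2 : mt (fun φ => E.vl (a, T) φ y) z with
          | true =>
            have h3 : E.ac (a, T) (insert z Z) y = false := by
              rw [← Bool.not_eq_true, E.ac_iff]
              intro h4
              have := h4.2 z (mem_insert_self _ _)
              rw [h2] at this
              simp only [hgz] at this
              exact Bool.noConfusion this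
            rw [bF_false h3, bF_true (by simp only [hact1, h1', h2, Bool.and_self]), zero_add]
          | false =>
            have h3 : E.ac (a, T) (insert z Z) y = true := by
              rw [E.ac_iff]
              refine ⟨h1.1, fun x hx => ?_⟩
              rcases mem_insert.mp hx with rfl | hx
              · rw [h2]; exact hgz.symm
              · exact h1.2 x hx
            rw [bF_true h3, bF_false (by simp only [hact1, h1', h2, Bool.and_false]), add_zero]
        · have h1' : E.ac (a, T) Z y = false := by
            rw [← Bool.not_eq_true, E.ac_iff]; exact h1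
          have h3 : E.ac (a, T) (insert z Z) y = false := by
            rw [← Bool.not_eq_true, E.ac_iff]
            exact fun h4 => h1 ⟨h4.1, fun x hx => h4.2 x (mem_insert_of_mem hx)⟩
          rw [bF_false h1', bF_false h3, bF_false (by simp only [hact1, h1', Bool.false_and]),
            add_zero]
      rw [hsplit, add_mul]
      refine Submodule.add_mem _ (hQ T (hT.trans (subset_insert _ _))) ?_
      -- the part where it is true
      have hdact1 : bF K act1 ∈ P.Deg E.N := by
        have : bF K act1 = bF K (E.ac (a, T) Z) - bF K (E.ac (a, T) (insert z Z)) := by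
          rw [hsplit]; ring
        rw [this]
        exact Submodule.sub_mem _ (E.deg_ac' _ hg) (E.deg_ac' _ hg')
      have hokc : E.ok (a, T) := E.ok_base ha hbase (hT.trans hZ)
      have hokc' : E.ok (a, insert z T) := E.ok_base ha hbase (insert_subset hz.1 (hT.trans hZ))
      have hsum : bF K act1 * f = bF K (E.ac (a, insert z T) (insert z Z)) * f * bF K act1 +
          (1 - bF K (E.ac (a, insert z T) (insert z Z))) * (bF K act1 * f) := by ring
      rw [hsum]
      refine Submodule.add_mem _ ?_ ?_
      · exact P.zmul (D := E.N + D) (D' := E.N) (by omega)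
          (P.mul (E.deg_ac' _ hg') hf) (hQ _ (insert_subset_insert _ hT)) hdact1
      · refine E.disagree_zr hokc hokc' (insert z Z) hg' ?_ (D := E.N + (E.N + D))
          (P.mul (Submodule.sub_mem _ (P.one' _) (E.deg_ac' _ hg')) (P.mul hdact1 hf)) ?_
          (by omega)
        · intro x hx i k f hxe j
          subst hxe
          have hxw : mod i k f ∈ wide E.w E.m a := hZ' hx
          have hfj : f j ∈ subs a := subs_trans _ _ (wide_subs hxw) (subs_mod _ _ _ j (subs_self _))
          refine ⟨hfj, hfj, fun b hb => ?_⟩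
          replace hb := owide_sub _ hb
          have hbz : b ≠ z := by
            rintro rfl
            have h1 := size_subs _ _ (wide_subs hb)
            have h2 := size_arg i k f j
            rcases mem_insert.mp hx with h | h
            · rw [h] at h2; omega
            · exact hz.2 (hlow _ h _ hz.1 (subs_mod _ _ _ j (wide_subs hb)))
          simp only
          unfold gs
          rw [decide_eq_decide, mem_insert]
          constructor
          · exact Or.inr
          · intro h; exact h.resolve_left hbz
        · intro y hy hn1 hn2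
          rw [Pi.mul_apply] at hy
          have hy1 := left_ne_zero_of_mul hy
          have hy2 := left_ne_zero_of_mul (right_ne_zero_of_mul hy)
          have ha1 : act1 y = true := by
            by_contra hcon
            exact hy2 (bF_false (by simpa using hcon))
          rw [hact1] at ha1
          simp only [Bool.and_eq_true] at ha1
          have hA := E.ac_iff.mp ha1.1
          have hB' : ¬ E.act (a, insert z T) (insert z Z) y := by
            intro hcon
            apply hy1
            rw [Pi.sub_apply, Pi.one_apply, bF_true (E.ac_iff.mpr hcon), sub_self]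
          by_contra hcon
          push Not at hcon
          apply hB'
          refine ⟨hn2, fun x hx => ?_⟩
          rw [← hcon x hx]
          rcases mem_insert.mp hx with h | h
          · rw [h, ha1.2]
            exact (gs_eq.mpr (mem_insert_self _ _)).symm
          · rw [hA.2 x h]
            simp only
            unfold gs
            rw [decide_eq_decide, mem_insert]
            constructor
            · exact Or.inr
            · intro h'
              refine h'.resolve_left ?_
              rintro rfl
              exact hz.2 h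
  have h0 := key _ ∅ (empty_subset _) (fun z hz => absurd hz (notMem_empty _)) rfl ∅ Subset.rfl
  have h1 : f = bF K (E.ac (a, ∅) ∅) * f + (1 - bF K (E.ac (a, ∅) ∅)) * f := by ring
  rw [h1]
  refine Submodule.add_mem _ h0 ?_
  have hN : 2 * (E.δ * E.hs) ≤ E.N := by unfold N; omega
  have hokc : E.ok (a, (∅ : Finset (Fml p X))) := E.ok_base ha hbase (empty_subset _)
  refine (E.Rm (a, ∅)).split hokc (D := E.N + D)
    (P.mul (Submodule.sub_mem _ (P.one' _) (E.deg_ac' _ (by simp))) hf)
    (fun y _ => E.W.sub y) (by omega) ?_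
  intro σ _
  have : (fun y => if (E.Rm (a, ∅)).lam y = some σ then
      ((1 - bF K (E.ac (a, ∅) ∅)) * f) y else 0) = 0 := by
    funext y
    by_cases h : (E.Rm (a, ∅)).lam y = some σ
    · rw [if_pos h, Pi.mul_apply, Pi.sub_apply, Pi.one_apply, bF_true, sub_self, zero_mul]
      · rfl
      · rw [E.ac_iff]
        exact ⟨by rw [h]; simp, fun z hz => absurd hz (notMem_empty _)⟩
    · rw [if_neg h]; rfl
  rw [this]; exact Submodule.zero_mem _

/-- incompatible guesses cannot both be consistent -/
theorem act_ne {a a' : Fml p X} {T T' : Finset (Fml p X)} (hc : E.ok (a, T)) (hc' : E.ok (a', T'))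
    (hbase : E.base a)
    (haa : a' ∈ subs a) (hne : ∃ z ∈ wide E.w E.m a', gs T z ≠ gs T' z) {D : ℕ} {χ : Y → K}
    (hχ : χ ∈ P.Deg D)
    (hsup : ∀ y, χ y ≠ 0 → E.act (a, T) (wide E.w E.m a) y ∧ E.act (a', T') (wide E.w E.m a') y)
    (hB : D + E.N ≤ P.B) : χ ∈ P.Zr := by
  classical
  obtain ⟨z0, hz0, hz0'⟩ := hne
  have hne : ((wide E.w E.m a').filter fun z => gs T z ≠ gs T' z).Nonempty :=
    ⟨z0, mem_filter.mpr ⟨hz0, hz0'⟩⟩
  obtain ⟨z, hz, hzmin⟩ := exists_min_image _ (fun z => size z) hne
  rw [mem_filter] at hz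
  have hg : ({z} : Finset (Fml p X)).card ≤ E.g :=
    (card_le_card (singleton_subset_iff.mpr hz.1)).trans (E.base_sub hbase haa)
  refine E.disagree_zr hc hc' {z} hg ?_ hχ ?_ hB
  · intro x hx i k f hxe j
    rw [mem_singleton] at hx
    have hfz : f j ∈ subs z := by rw [← hx, hxe]; exact subs_mod _ _ _ j (subs_self _)
    have hfa' : f j ∈ subs a' := subs_trans _ _ (wide_subs hz.1) hfz
    refine ⟨subs_trans _ _ haa hfa', hfa', fun b hb => ?_⟩
    replace hb := owide_sub _ hb
    by_contra hcon
    have h1 := hzmin b (mem_filter.mpr ⟨wide_sub hfa' hb, hcon⟩)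
    have h2 := size_subs _ _ (wide_subs hb)
    have h3 := size_arg i k f j
    rw [← hxe, hx] at h3
    omega
  · intro y hy _ _
    obtain ⟨h1, h2⟩ := hsup y hy
    refine ⟨z, mem_singleton_self _, ?_⟩
    rw [h1.2 z (wide_sub haa hz.1), h2.2 z hz.1]
    exact hz.2

/-- the restriction of a consistent guess is consistent -/
theorem act_eq {a a' : Fml p X} {T T' : Finset (Fml p X)} (hc : E.ok (a, T)) (hc' : E.ok (a', T'))
    (hbase : E.base a)
    (haa : a' ∈ subs a) (heq : ∀ z ∈ wide E.w E.m a', gs T z = gs T' z) {D : ℕ} {χ : Y → K}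
    (hχ : χ ∈ P.Deg D)
    (hsup : ∀ y, χ y ≠ 0 → E.act (a, T) (wide E.w E.m a) y ∧ ¬ E.act (a', T') (wide E.w E.m a') y)
    (hB : D + E.N ≤ P.B) : χ ∈ P.Zr := by
  classical
  refine E.disagree_zr hc hc' (wide E.w E.m a') (E.base_sub hbase haa) ?_ hχ ?_ hB
  · intro x hx i k f hxe j
    have hfa' : f j ∈ subs a' := subs_trans _ _ (wide_subs hx) (by
      rw [hxe]; exact subs_mod _ _ _ j (subs_self _))
    exact ⟨subs_trans _ _ haa hfa', hfa', fun b hb => heq b (wide_sub hfa' (owide_sub _ hb))⟩
  · intro y hy _ hn2
    obtain ⟨h1, h2⟩ := hsup y hy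
    by_contra hcon
    push Not at hcon
    apply h2
    refine ⟨hn2, fun x hx => ?_⟩
    rw [← hcon x hx, h1.2 x (wide_sub haa hx)]
    exact heq x hx

open Classical in
/-- global truth value, as a field element -/
noncomputable def sA (a : Fml p X) (y : Y) : K :=
  ∑ T ∈ (wide E.w E.m a).powerset,
    if (E.ac (a, T) (wide E.w E.m a) y && E.vl (a, T) a y) = true then (1 : K) else 0

open Classical in
/-- global truth value -/
noncomputable def Fv (a : Fml p X) (y : Y) : Bool := decide (E.sA a y = 1)

lemma sA_cast (a : Fml p X) (y : Y) :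
    ∃ x : ZMod p, E.sA a y = ZMod.castHom (dvd_refl p) K x := by
  classical
  exact ⟨_, cast_sum (K := K) (p := p) ((wide E.w E.m a).powerset)
    (fun T => E.ac (a, T) (wide E.w E.m a) y && E.vl (a, T) a y)⟩

lemma sA_eq (a : Fml p X) : E.sA a = ∑ T ∈ (wide E.w E.m a).powerset,
    bF K (E.ac (a, T) (wide E.w E.m a)) * bF K (E.vl (a, T) a) := by
  classical
  funext y
  rw [Finset.sum_apply]
  unfold sA
  refine sum_congr rfl fun T _ => ?_
  rw [← bF_and_eq]
  rfl

lemma deg_sA {a : Fml p X} (hbase : E.base a) : E.sA a ∈ P.Deg E.N := by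
  classical
  rw [sA_eq]
  refine Submodule.sum_mem _ fun T hT => ?_
  refine P.up (P.mul (E.deg_ac (a, T) (wide E.w E.m a)) (E.deg_vl (a, T) a)) ?_
  unfold N
  have h5 : 5 * (E.δ * E.hk) ≤ (E.d + 5) * (E.δ * E.hk) := Nat.mul_le_mul_right _ (by omega)
  have h6 : (wide E.w E.m a).card * (p * (E.δ * E.hk)) ≤ (E.g + 2) * (p * (E.δ * E.hk)) :=
    Nat.mul_le_mul_right _ (le_trans hbase (by omega))
  omega

lemma deg_Fv {a : Fml p X} (hbase : E.base a) : bF K (E.Fv a) ∈ P.Deg (p * E.N) := by
  classical
  have hp : 1 < p := (Fact.out : p.Prime).one_lt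
  have : bF K (E.Fv a) = 1 - (E.sA a - 1) ^ (p - 1) := by
    funext y
    rw [Pi.sub_apply, Pi.pow_apply, Pi.sub_apply, Pi.one_apply]
    obtain ⟨x, hx⟩ := E.sA_cast a y
    have h1 : E.sA a y - 1 = ZMod.castHom (dvd_refl p) K (x - 1) := by
      rw [map_sub, map_one, hx]
    rw [h1, pow_zmod]
    by_cases h : x - 1 = 0
    · rw [if_pos h, sub_zero, bF_true]
      unfold Fv
      rw [decide_eq_true_iff, ← sub_eq_zero, h1, h, map_zero]
    · rw [if_neg h, sub_self, bF_false]
      unfold Fv
      rw [decide_eq_false_iff_not, ← sub_eq_zero, h1]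
      intro h2
      exact h ((ZMod.castHom (dvd_refl p) K).injective (by rw [h2, map_zero]))
  rw [this]
  refine P.up (Submodule.sub_mem _ (P.one' _) (P.pow (Submodule.sub_mem _ (E.deg_sA hbase)
    (P.one' _)) (p - 1))) (Nat.mul_le_mul_right _ (by omega))

/-- below a consistent guess, the global truth value of a subformula is the local one -/
theorem sA_vl {a a' : Fml p X} {T : Finset (Fml p X)} (hc : E.ok (a, T)) (hbase : E.base a)
    (haa : a' ∈ subs a)
    (hB : 5 * E.N ≤ P.B) :
    bF K (E.ac (a, T) (wide E.w E.m a)) * (E.sA a' - bF K (E.vl (a, T) a')) ∈ P.Zr := by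
  classical
  have ha' : a' ∈ E.S := E.sc _ hc.1 haa
  have hg : (wide E.w E.m a).card ≤ E.g := hbase
  have hbase' : E.base a' := E.base_sub hbase haa
  have hg' : (wide E.w E.m a').card ≤ E.g := hbase'
  set A := bF K (E.ac (a, T) (wide E.w E.m a)) with hA
  have hAd : A ∈ P.Deg E.N := E.deg_ac' _ hg
  set T0 := T ∩ wide E.w E.m a' with hT0
  have hmem0 : T0 ∈ (wide E.w E.m a').powerset := mem_powerset.mpr inter_subset_right
  have hok0 : E.ok (a', T0) := E.ok_base ha' hbase' inter_subset_right
  have hgs0 : ∀ z ∈ wide E.w E.m a', gs T z = gs T0 z := by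
    intro z hz
    unfold gs
    rw [decide_eq_decide, hT0, mem_inter]
    exact ⟨fun h => ⟨h, hz⟩, fun h => h.1⟩
  have h1 : A * (E.sA a' - bF K (E.vl (a, T) a')) = ∑ T' ∈ (wide E.w E.m a').powerset,
      (A * (bF K (E.ac (a', T') (wide E.w E.m a')) * bF K (E.vl (a', T') a')) -
        if T' = T0 then A * bF K (E.vl (a, T) a') else 0) := by
    rw [sum_sub_distrib, sum_ite_eq' _ T0, if_pos hmem0, ← mul_sum, ← sA_eq, mul_sub]
  rw [h1]
  refine Submodule.sum_mem _ fun T' hT' => ?_
  rw [mem_powerset] at hT'
  have hok' : E.ok (a', T') := E.ok_base ha' hbase' hT'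
  have hA' : bF K (E.ac (a', T') (wide E.w E.m a')) ∈ P.Deg E.N := E.deg_ac' _ hg'
  by_cases hTT : T' = T0
  · rw [if_pos hTT]
    subst hTT
    have h2 : A * (bF K (E.ac (a', T0) (wide E.w E.m a')) * bF K (E.vl (a', T0) a')) -
        A * bF K (E.vl (a, T) a') =
        (-(A * bF K (E.ac (a', T0) (wide E.w E.m a')))) *
          (bF K (E.vl (a, T) a') - bF K (E.vl (a', T0) a')) -
        (A * (1 - bF K (E.ac (a', T0) (wide E.w E.m a')))) * bF K (E.vl (a, T) a') := by ring
    rw [h2]
    refine Submodule.sub_mem _ ?_ ?_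
    · refine E.cross_l hc hok0 ⟨haa, subs_self _, fun z hz => hgs0 z (owide_sub _ hz)⟩ (D := E.N + E.N)
        (Submodule.neg_mem _ (P.mul hAd hA')) ?_
      have : 4 * (E.δ * E.hs) + (E.d + 5) * (E.δ * E.hk) ≤ E.N := by unfold N; omega
      omega
    · refine E.act_eq hc hok0 hbase haa hgs0 (D := (E.N + E.N) + E.N)
        (P.mul (P.mul hAd (Submodule.sub_mem _ (P.one' _) hA')) (E.deg_vl' _ _)) ?_ (by omega)
      intro y hy
      rw [Pi.mul_apply, Pi.mul_apply] at hy
      have hy1 := left_ne_zero_of_mul (left_ne_zero_of_mul hy)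
      have hy2 := right_ne_zero_of_mul (left_ne_zero_of_mul hy)
      constructor
      · rw [← E.ac_iff]
        by_contra hcon
        exact hy1 (bF_false (by simpa using hcon))
      · intro hcon
        apply hy2
        rw [Pi.sub_apply, Pi.one_apply, bF_true (E.ac_iff.mpr hcon), sub_self]
  · rw [if_neg hTT, sub_zero]
    refine E.act_ne hc hok' hbase haa ?_ (D := E.N + (E.N + E.N))
      (P.mul hAd (P.mul hA' (E.deg_vl' _ _))) ?_ (by omega)
    · by_contra hcon
      push Not at hcon
      apply hTT
      ext z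
      rw [hT0, mem_inter]
      constructor
      · intro hz
        have := hcon z (hT' hz)
        rw [gs_eq.mpr hz, gs_eq] at this
        exact ⟨this, hT' hz⟩
      · rintro ⟨hz1, hz2⟩
        have := hcon z hz2
        rw [gs_eq.mpr hz1] at this
        exact gs_eq.mp this.symm
    · intro y hy
      rw [Pi.mul_apply, Pi.mul_apply] at hy
      have hy1 := left_ne_zero_of_mul hy
      have hy2 := left_ne_zero_of_mul (right_ne_zero_of_mul hy)
      constructor
      · rw [← E.ac_iff]
        by_contra hcon
        exact hy1 (bF_false (by simpa using hcon))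
      · rw [← E.ac_iff]
        by_contra hcon
        exact hy2 (bF_false (by simpa using hcon))

theorem Fv_vl {a a' : Fml p X} {T : Finset (Fml p X)} (hc : E.ok (a, T)) (hbase : E.base a)
    (haa : a' ∈ subs a)
    (hB : (2 * p + 5) * E.N ≤ P.B) :
    bF K (E.ac (a, T) (wide E.w E.m a)) * bF K (fun y => E.Fv a' y != E.vl (a, T) a' y)
      ∈ P.Zr := by
  classical
  have ha' : a' ∈ E.S := E.sc _ hc.1 haa
  have hbase' : E.base a' := E.base_sub hbase haa
  have hp : 1 < p := (Fact.out : p.Prime).one_lt
  have hB1 : 2 * (p * E.N) + 5 * E.N ≤ P.B := by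
    have : (2 * p + 5) * E.N = 2 * (p * E.N) + 5 * E.N := by ring
    omega
  refine diff_zr (p := p) (D := E.N) (D' := E.N) (D'' := p * E.N + E.N) (E.deg_ac' _ hbase)
    (Submodule.sub_mem _ (E.deg_sA hbase') (E.deg_vl' _ _))
    (bF_comb (fun x y => x != y) (E.deg_Fv hbase') (E.deg_vl' _ _))
    (E.sA_vl hc hbase haa (by omega))
    (by omega) ?_ ?_
  · intro y
    obtain ⟨x, hx⟩ := E.sA_cast a' y
    rw [Pi.sub_apply, hx, bF_apply]
    by_cases h : E.vl (a, T) a' y = true
    · exact ⟨x - 1, by rw [if_pos h, map_sub, map_one]⟩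
    · exact ⟨x, by rw [if_neg h, sub_zero]⟩
  · intro y hy h0
    rw [Pi.sub_apply, sub_eq_zero, bF_apply] at h0
    apply hy
    apply bF_false
    have : E.Fv a' y = E.vl (a, T) a' y := by
      unfold Fv
      cases hv : E.vl (a, T) a' y with
      | true =>
        rw [hv] at h0
        rw [decide_eq_true_iff, h0, if_pos rfl]
      | false =>
        rw [hv] at h0
        rw [decide_eq_false_iff_not, h0]
        simp
    rw [this]
    simp

end Env

end act

end Pool.Agent.Work.MP_c04246_lc.H
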