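import Mathlib
import Pool.Agent.Work.MP_c04246_lc.HAct

set_option autoImplicit false
set_option linter.unusedSectionVars false
set_option linter.unusedSimpArgs false
set_option linter.unusedVariables false
set_option linter.unnecessarySeqFocus false

namespace Pool.Agent.Work.MP_c04246_lc.H

open Finset Fml

section resp

variable {Y K : Type} [Field K] {p : ℕ} [Fact p.Prime] [CharP K p] {P : PCI Y K} {U X : Type}
  [DecidableEq U] [DecidableEq X] [Fintype X] {es : X → Finset U}

/-- Boolean version of `Resp` -/
def rsp (v : Fml p X → Bool) : Fml p X → Bool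
  | var _ => true
  | cst b => v (cst b) == b
  | neg a => v (neg a) == !(v a)
  | bin c a b => v (bin c a b) == (if c then (v a || v b) else (v a && v b))
  | mod i k f => v (mod i k f) == decide ((∑ j, if v (f j) then (1 : ZMod p) else 0) = i)

lemma rsp_iff {v : Fml p X → Bool} {a : Fml p X} : rsp v a = true ↔ Resp v a := by
  cases a with
  | var x => simp [rsp, Resp]
  | cst b => simp only [rsp, Resp, beq_iff_eq]
  | neg a => simp only [rsp, Resp, beq_iff_eq]
  | bin c a b => simp only [rsp, Resp, beq_iff_eq]
  | mod i k f => simp only [rsp, Resp, beq_iff_eq]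

namespace Env

variable (E : Env P p es)

lemma vl_isL {c : Fml p X × Finset (Fml p X)} (hc : c.1 ∈ E.S) {φ : Fml p X} {y : Y}
    (h : (E.Rm c).lam y ≠ none) (hφ : φ ∈ subs c.1) (hl : isL E.m φ) (he : E.el c φ y = false) :
    E.vl c φ y = eval (wa (E.W.m y)) φ := by
  obtain ⟨σ, hσ⟩ := Option.ne_none_iff_exists'.mp h
  exact (Vd_isL hl (E.W.pp y) (E.truth hc hσ hφ he)).symm

lemma tr_cst {c : Fml p X × Finset (Fml p X)} (hc : c.1 ∈ E.S) {b : Bool} {y : Y}
    (h : (E.Rm c).lam y ≠ none) (hφ : cst b ∈ subs c.1) (he : E.el c (cst b) y = false) :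
    E.vl c (cst b) y = b := by
  rw [E.vl_isL hc h hφ trivial he]
  rfl

lemma tr_neg {c : Fml p X × Finset (Fml p X)} (hc : c.1 ∈ E.S) {b : Fml p X} {y : Y}
    (h : (E.Rm c).lam y ≠ none) (hφ : neg b ∈ subs c.1) (he : E.el c (neg b) y = false)
    (he' : E.el c b y = false) : E.vl c (neg b) y = !(E.vl c b y) := by
  have hb : b ∈ subs c.1 := subs_trans _ _ hφ (subs_neg _ (subs_self _))
  by_cases hl : isL E.m (neg b)
  · have hlb : isL E.m b := isL_sub (a := neg b) hl (subs_neg _ (subs_self _))
    rw [E.vl_isL hc h hφ hl he, E.vl_isL hc h hb hlb he']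
    rfl
  · obtain ⟨σ, hσ⟩ := Option.ne_none_iff_exists'.mp h
    have h1 := E.truth hc hσ hφ he
    have h2 := E.truth hc hσ hb he'
    rw [Vd_neg hl] at h1
    have h3 := Vd_unique (E.W.pp y) h1 h2
    rw [← h3, Bool.not_not]

lemma tr_bin {c : Fml p X × Finset (Fml p X)} (hc : c.1 ∈ E.S) {c0 : Bool} {a b : Fml p X} {y : Y}
    (h : (E.Rm c).lam y ≠ none) (hφ : bin c0 a b ∈ subs c.1) (he : E.el c (bin c0 a b) y = false)
    (hea : E.el c a y = false) (heb : E.el c b y = false) :
    E.vl c (bin c0 a b) y = if c0 then (E.vl c a y || E.vl c b y)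
      else (E.vl c a y && E.vl c b y) := by
  have ha : a ∈ subs c.1 := subs_trans _ _ hφ (subs_bin_l _ _ _ (subs_self _))
  have hb : b ∈ subs c.1 := subs_trans _ _ hφ (subs_bin_r _ _ _ (subs_self _))
  by_cases hl : isL E.m (bin c0 a b)
  · have hla : isL E.m a := isL_sub (a := bin c0 a b) hl (subs_bin_l _ _ _ (subs_self _))
    have hlb : isL E.m b := isL_sub (a := bin c0 a b) hl (subs_bin_r _ _ _ (subs_self _))
    rw [E.vl_isL hc h hφ hl he, E.vl_isL hc h ha hla hea, E.vl_isL hc h hb hlb heb]
    rfl
  · obtain ⟨σ, hσ⟩ := Option.ne_none_iff_exists'.mp h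
    exact Vd_bin hl (E.W.pp y) (E.truth hc hσ hφ he) (E.truth hc hσ ha hea)
      (E.truth hc hσ hb heb)

lemma tr_modn {c : Fml p X × Finset (Fml p X)} (hc : c.1 ∈ E.S) {i : ZMod p} {k : ℕ}
    {f : Fin k → Fml p X} {y : Y} (h : (E.Rm c).lam y ≠ none) (hφ : mod i k f ∈ subs c.1)
    (hl : ¬ isL E.m (mod i k f)) (hk : k ≤ E.w) (he : E.el c (mod i k f) y = false)
    (hf : ∀ j, E.el c (f j) y = false) :
    E.vl c (mod i k f) y =
      decide ((∑ j, if E.vl c (f j) y then (1 : ZMod p) else 0) = i) := by
  obtain ⟨σ, hσ⟩ := Option.ne_none_iff_exists'.mp h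
  exact Vd_modn hl hk (E.W.pp y) (E.truth hc hσ hφ he) (fun j => E.truth hc hσ
    (subs_trans _ _ hφ (subs_mod _ _ _ j (subs_self _))) (hf j))

lemma tr_modw {c : Fml p X × Finset (Fml p X)} (hc : c.1 ∈ E.S) {i : ZMod p} {k : ℕ}
    {f : Fin k → Fml p X} {y : Y} (h : (E.Rm c).lam y ≠ none) (hφ : mod i k f ∈ subs c.1)
    (hl : ¬ isL E.m (mod i k f)) (hk : E.w < k) (he : E.el c (mod i k f) y = false) :
    E.vl c (mod i k f) y = gs c.2 (mod i k f) := by
  obtain ⟨σ, hσ⟩ := Option.ne_none_iff_exists'.mp h
  exact Vd_modw hl hk (E.truth hc hσ hφ he)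

/-- value of an argument of a local formula `a` at the leaf of the tree of `a` -/
noncomputable def ev (c : Fml p X × Finset (Fml p X)) (a b : Fml p X) (y : Y) : Bool :=
  match (E.Rm c).lam y with
  | some σ => (match (E.Rs c σ a).lam y with
    | some π => eval (wa π) b
    | none => false)
  | none => false

lemma deg_ev (c : Fml p X × Finset (Fml p X)) (a b : Fml p X) :
    bF K (E.ev c a b) ∈ P.Deg E.N := by
  refine P.up (E.deg_main (D := E.δ * E.hk) c (fun σ y => (match (E.Rs c σ a).lam y with
    | some π => eval (wa π) b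
    | none => false)) ?_) ?_
  · intro σ
    have h := (E.Rs c σ a).deg 0 (fun o _ => if (match o with
      | some π => eval (wa π) b
      | none => false) = true then (1 : K) else 0) (fun o => P.const 0 _)
    rw [zero_add] at h
    convert h using 1
    funext y
    rw [bF_apply]
  · unfold N
    have h5 : 5 * (E.δ * E.hk) ≤ (E.d + 5) * (E.δ * E.hk) := Nat.mul_le_mul_right _ (by omega)
    omega

lemma ev_eq {c : Fml p X × Finset (Fml p X)} (hc : c.1 ∈ E.S) {a b : Fml p X} {y : Y}
    (h : (E.Rm c).lam y ≠ none) (ha : a ∈ subs c.1) (hl : isL E.m a) (hb : b ∈ subs a)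
    (he : E.el c a y = false) : E.ev c a b y = eval (wa (E.W.m y)) b := by
  obtain ⟨σ, hσ⟩ := Option.ne_none_iff_exists'.mp h
  have hσL := (E.Rm c).leaf y σ hσ
  have hσs := E.leaf_sub hσ
  rw [E.el_of hσ] at he
  obtain ⟨π, hπ⟩ := (E.Rs c σ a).tot ⟨hc, hσL, ha⟩ y hσs he
  have h1 := (E.Rs c σ a).sub y π hπ hσs
  obtain ⟨e, t, ht, htπ⟩ := (E.Rs c σ a).leaf y π hπ
  rw [CD_isL hl] at ht
  unfold ev
  rw [hσ]
  simp only
  rw [hπ]
  simp only
  exact wa_mono h1 (E.W.pp y) fun x hx => (ht.2.1 x (vars_subs a b hb hx)).imp
    (fun h => htπ h) (fun ⟨z, hz, h⟩ => ⟨z, htπ hz, h⟩)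

lemma deg_rsp {a : Fml p X} (hbase : E.base a) :
    bF K (fun y => !(rsp (fun φ => E.Fv φ y) a)) ∈ P.Deg ((p + 3) * (p * E.N)) := by
  have hp : 1 < p := (Fact.out : p.Prime).one_lt
  apply bF_not
  have hr : (p + 3) * (p * E.N) = p * (p * E.N) + 3 * (p * E.N) := by ring
  cases a with
  | var x => exact bF_const _ _
  | cst b =>
    refine P.up (bF_comb (D' := 0) (fun u v => u == v) (E.deg_Fv hbase) (bF_const 0 b)) (by omega)
  | neg a =>
    have ha1 := E.base_sub hbase (subs_neg _ (subs_self a))
    refine P.up (bF_comb (fun u v => u == !v) (E.deg_Fv hbase) (E.deg_Fv ha1)) (by omega)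
  | bin c a b =>
    have ha1 := E.base_sub hbase (subs_bin_l _ _ _ (subs_self a))
    have ha2 := E.base_sub hbase (subs_bin_r _ _ _ (subs_self b))
    refine P.up (bF_comb3 (fun u v w => u == (if c then (v || w) else (v && w))) (E.deg_Fv hbase)
      (E.deg_Fv ha1) (E.deg_Fv ha2)) (by omega)
  | mod i k f =>
    refine P.up (bF_comb (fun u v => u == v) (E.deg_Fv hbase)
      (bF_mod (i := i) fun j => E.deg_Fv
        (E.base_sub hbase (subs_mod _ _ _ j (subs_self _))))) (by omega)

/-- the global truth values obey the truth tables, up to the ideal -/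
theorem resp_zr {a : Fml p X} (ha : a ∈ E.S) (hbase : E.base a)
    (hB : (E.w + 10) * ((p + 3) * (p * E.N)) ≤ P.B) :
    bF K (fun y => !(rsp (fun φ => E.Fv φ y) a)) ∈ P.Zr := by
  classical
  have hp : 1 < p := (Fact.out : p.Prime).one_lt
  set f0 := bF K (fun y => !(rsp (fun φ => E.Fv φ y) a)) with hf0
  have hf : f0 ∈ P.Deg ((p + 3) * (p * E.N)) := E.deg_rsp hbase
  set D6 := (p + 3) * (p * E.N) with hD6
  have hr : D6 = p * (p * E.N) + 3 * (p * E.N) := by rw [hD6]; ring
  have hN1 : 2 * E.N ≤ p * E.N := Nat.mul_le_mul_right _ (by omega)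
  have hN2 : 2 * (p * E.N) ≤ p * (p * E.N) := Nat.mul_le_mul_right _ (by omega)
  have hBe : E.w * D6 + 10 * D6 ≤ P.B := by rw [← Nat.add_mul]; exact hB
  have h0w : 0 ≤ E.w * D6 := Nat.zero_le _
  have h2p5 : (2 * p + 5) * E.N ≤ P.B := by
    have : (2 * p + 5) * E.N = 2 * (p * E.N) + 5 * E.N := by ring
    omega
  refine E.sum_zr ha hbase hf (by omega) ?_
  intro T hT
  have hc : E.ok (a, T) := E.ok_base ha hbase hT
  set A := bF K (E.ac (a, T) (wide E.w E.m a)) with hA
  have hAd : A ∈ P.Deg E.N := E.deg_ac' _ hbase
  have hχ : A * f0 ∈ P.Deg (E.N + D6) := P.mul hAd hf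
  -- bad events
  let xr : Fml p X → Y → Bool := fun φ y => E.Fv φ y != E.vl (a, T) φ y
  have hxr : ∀ φ ∈ subs a, bF K (xr φ) ∈ P.Deg D6 ∧ A * f0 * bF K (xr φ) ∈ P.Zr := by
    intro φ hφ
    have h1 : bF K (xr φ) ∈ P.Deg (p * E.N + E.N) :=
      bF_comb (fun x y => x != y) (E.deg_Fv (E.base_sub hbase hφ)) (E.deg_vl' _ _)
    refine ⟨P.up h1 (by omega), ?_⟩
    have h2 : A * f0 * bF K (xr φ) = A * bF K (xr φ) * f0 := by ring
    rw [h2]
    exact P.zmul (by omega) (P.mul hAd h1) (E.Fv_vl hc hbase hφ h2p5) hf
  have hel : ∀ φ, bF K (E.el (a, T) φ) ∈ P.Deg D6 ∧ A * f0 * bF K (E.el (a, T) φ) ∈ P.Zr := by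
    intro φ
    refine ⟨P.up (E.deg_el' _ _) (by omega), ?_⟩
    rw [mul_comm]
    exact P.zmul (by omega) (E.deg_el' _ _) (E.zr_el' _ hc _ (by omega)) hχ
  have hsup : ∀ y, (A * f0) y ≠ 0 → E.act (a, T) (wide E.w E.m a) y ∧
      rsp (fun φ => E.Fv φ y) a = false := by
    intro y hy
    rw [Pi.mul_apply] at hy
    constructor
    · rw [← E.ac_iff]
      by_contra hcon
      exact left_ne_zero_of_mul hy (bF_false (by simpa using hcon))
    · by_contra hcon
      exact right_ne_zero_of_mul hy (bF_false (by simpa using hcon))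
  cases a with
  | var x =>
    have : A * f0 = 0 := by
      funext y
      by_contra h
      exact absurd (hsup y h).2 (by simp [rsp])
    rw [this]; exact Submodule.zero_mem _
  | cst b =>
    refine cover_zr (M := D6) hχ [xr (cst b), E.el (cst b, T) (cst b)] ?_ ?_ ?_
    · intro x hx
      simp only [List.mem_cons, List.not_mem_nil, or_false] at hx
      rcases hx with rfl | rfl
      · exact hxr _ (subs_self _)
      · exact hel _
    · simp only [List.length_cons, List.length_nil]; omega
    · intro y hy
      obtain ⟨h1, h2⟩ := hsup y hy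
      by_contra hcon
      simp only [List.mem_cons, List.not_mem_nil, or_false, exists_eq_or_imp, exists_eq_left,
        not_or, Bool.not_eq_true, xr, bne_eq_false_iff_eq] at hcon
      have h3 := E.tr_cst hc.1 h1.1 (subs_self _) hcon.2
      simp only [rsp] at h2
      rw [hcon.1, h3] at h2
      simp at h2
  | neg b =>
    have hb : b ∈ subs (neg b) := subs_neg _ (subs_self _)
    refine cover_zr (M := D6) hχ [xr (neg b), xr b, E.el (neg b, T) (neg b),
      E.el (neg b, T) b] ?_ ?_ ?_
    · intro x hx
      simp only [List.mem_cons, List.not_mem_nil, or_false] at hx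
      rcases hx with rfl | rfl | rfl | rfl
      · exact hxr _ (subs_self _)
      · exact hxr _ hb
      · exact hel _
      · exact hel _
    · simp only [List.length_cons, List.length_nil]; omega
    · intro y hy
      obtain ⟨h1, h2⟩ := hsup y hy
      by_contra hcon
      simp only [List.mem_cons, List.not_mem_nil, or_false, exists_eq_or_imp, exists_eq_left,
        not_or, Bool.not_eq_true, xr, bne_eq_false_iff_eq] at hcon
      have h3 := E.tr_neg hc.1 h1.1 (subs_self _) hcon.2.2.1 hcon.2.2.2
      simp only [rsp] at h2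
      rw [hcon.1, hcon.2.1, h3] at h2
      simp at h2
  | bin c0 b b' =>
    have hb : b ∈ subs (bin c0 b b') := subs_bin_l _ _ _ (subs_self _)
    have hb' : b' ∈ subs (bin c0 b b') := subs_bin_r _ _ _ (subs_self _)
    refine cover_zr (M := D6) hχ [xr (bin c0 b b'), xr b, xr b',
      E.el (bin c0 b b', T) (bin c0 b b'), E.el (bin c0 b b', T) b,
      E.el (bin c0 b b', T) b'] ?_ ?_ ?_
    · intro x hx
      simp only [List.mem_cons, List.not_mem_nil, or_false] at hx
      rcases hx with rfl | rfl | rfl | rfl | rfl | rfl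
      · exact hxr _ (subs_self _)
      · exact hxr _ hb
      · exact hxr _ hb'
      · exact hel _
      · exact hel _
      · exact hel _
    · simp only [List.length_cons, List.length_nil]; omega
    · intro y hy
      obtain ⟨h1, h2⟩ := hsup y hy
      by_contra hcon
      simp only [List.mem_cons, List.not_mem_nil, or_false, exists_eq_or_imp, exists_eq_left,
        not_or, Bool.not_eq_true, xr, bne_eq_false_iff_eq] at hcon
      obtain ⟨k1, k2, k3, k4, k5, k6⟩ := hcon
      have h3 := E.tr_bin hc.1 h1.1 (subs_self _) k4 k5 k6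
      simp only [rsp] at h2
      rw [k1, k2, k3, h3] at h2
      simp at h2
  | mod i k f =>
    have hfj : ∀ j, f j ∈ subs (mod i k f) := fun j => subs_mod _ _ _ j (subs_self _)
    -- the number of true arguments is right
    let u : Y → K := ∑ j, (bF K (E.Fv (f j)) - bF K (E.vl (mod i k f, T) (f j)))
    have hud : u ∈ P.Deg (p * E.N) := Submodule.sum_mem _ fun j _ =>
      Submodule.sub_mem _ (E.deg_Fv (E.base_sub hbase (hfj j))) (P.up (E.deg_vl' _ _) (by omega))
    have huz : A * u ∈ P.Zr := by
      simp only [u]
      rw [mul_sum]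
      refine Submodule.sum_mem _ fun j _ => ?_
      have h1 : A * (bF K (E.Fv (f j)) - bF K (E.vl (mod i k f, T) (f j))) =
          A * bF K (fun y => E.Fv (f j) y != E.vl (mod i k f, T) (f j) y) *
            (bF K (E.Fv (f j)) - bF K (E.vl (mod i k f, T) (f j))) := by
        funext y
        simp only [Pi.mul_apply, Pi.sub_apply, bF_apply]
        cases E.Fv (f j) y <;> cases E.vl (mod i k f, T) (f j) y <;> simp
      rw [h1]
      refine P.zmul (D := E.N + (p * E.N + E.N)) (D' := p * E.N) (by omega)
        (P.mul hAd (bF_comb (fun x y => x != y) (E.deg_Fv (E.base_sub hbase (hfj j))) (E.deg_vl' _ _)))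
        (E.Fv_vl hc hbase (hfj j) h2p5) ?_
      exact Submodule.sub_mem _ (E.deg_Fv (E.base_sub hbase (hfj j))) (P.up (E.deg_vl' _ _) (by omega))
    have huc : ∀ y, ∃ x : ZMod p, u y = ZMod.castHom (dvd_refl p) K x := by
      intro y
      have h1 := cast_sum (K := K) (p := p) univ fun j => E.Fv (f j) y
      have h2 := cast_sum (K := K) (p := p) univ fun j => E.vl (mod i k f, T) (f j) y
      refine ⟨(∑ j, if E.Fv (f j) y = true then (1 : ZMod p) else 0) -
        ∑ j, if E.vl (mod i k f, T) (f j) y = true then (1 : ZMod p) else 0, ?_⟩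
      simp only [u, Finset.sum_apply, Pi.sub_apply, sum_sub_distrib, bF_apply]
      rw [h1, h2, ← map_sub]
    have hpw : ∀ (u : Y → K) (D : ℕ), u ∈ P.Deg D →
        (∀ y, ∃ x : ZMod p, u y = ZMod.castHom (dvd_refl p) K x) →
        bF K (fun y => decide (u y ≠ 0)) ∈ P.Deg (p * D) := by
      intro u D hu huc
      have : bF K (fun y => decide (u y ≠ 0)) = u ^ (p - 1) := by
        funext y
        rw [Pi.pow_apply]
        obtain ⟨x, hx⟩ := huc y
        rw [hx, pow_zmod]
        by_cases h0 : x = 0
        · rw [if_pos h0, bF_false]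
          simp only [decide_eq_false_iff_not, not_not]
          rw [hx, h0, map_zero]
        · rw [if_neg h0, bF_true]
          simp only [decide_eq_true_eq]
          rw [hx]
          intro h1
          exact h0 ((ZMod.castHom (dvd_refl p) K).injective (by rw [h1, map_zero]))
      rw [this]
      exact P.up (P.pow hu _) (Nat.mul_le_mul_right _ (by omega))
    let sd : Y → Bool := fun y => decide (u y ≠ 0)
    have hsd : bF K sd ∈ P.Deg D6 ∧ A * f0 * bF K sd ∈ P.Zr := by
      have h1 := hpw u _ hud huc
      refine ⟨P.up h1 (by omega), ?_⟩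
      have h2 : A * bF K sd ∈ P.Zr := by
        refine diff_zr (p := p) hAd hud h1 huz (by omega) huc ?_
        intro y hy hcon
        exact hy (bF_false (v := sd) (by simp [sd, hcon]))
      have h3 : A * f0 * bF K sd = A * bF K sd * f0 := by ring
      rw [h3]
      exact P.zmul (by omega) (P.mul hAd h1) h2 hf
    -- the value computed from the local values is the value computed from the global values
    have hfin : ∀ y, sd y = false →
        decide ((∑ j, if E.Fv (f j) y then (1 : ZMod p) else 0) = i) =
        decide ((∑ j, if E.vl (mod i k f, T) (f j) y then (1 : ZMod p) else 0) = i) := by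
      intro y hy
      have h0 : u y = 0 := by simpa [sd] using hy
      have h3 : (∑ j, if E.Fv (f j) y = true then (1 : ZMod p) else 0) =
          ∑ j, if E.vl (mod i k f, T) (f j) y = true then (1 : ZMod p) else 0 := by
        have h1 := cast_sum (K := K) (p := p) univ fun j => E.Fv (f j) y
        have h2 := cast_sum (K := K) (p := p) univ fun j => E.vl (mod i k f, T) (f j) y
        simp only [u, Finset.sum_apply, Pi.sub_apply, sum_sub_distrib, bF_apply] at h0
        rw [h1, h2, sub_eq_zero] at h0
        exact (ZMod.castHom (dvd_refl p) K).injective h0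
      rw [h3]
    by_cases hl : isL E.m (mod i k f)
    · -- local formula
      let u2 : Y → K := ∑ j, (bF K (E.vl (mod i k f, T) (f j)) -
        bF K (E.ev (mod i k f, T) (mod i k f) (f j)))
      have hud2 : u2 ∈ P.Deg E.N := Submodule.sum_mem _ fun j _ =>
        Submodule.sub_mem _ (E.deg_vl' _ _) (E.deg_ev _ _ _)
      have huz2 : A * u2 ∈ P.Zr := by
        simp only [u2]
        rw [mul_sum]
        refine Submodule.sum_mem _ fun j _ => ?_
        refine cover_zr (M := E.N) (P.mul hAd (Submodule.sub_mem _ (E.deg_vl' _ _)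
          (E.deg_ev _ _ _))) [E.el (mod i k f, T) (mod i k f), E.el (mod i k f, T) (f j)] ?_ ?_ ?_
        · intro x hx
          simp only [List.mem_cons, List.not_mem_nil, or_false] at hx
          have h1 : ∀ φ, bF K (E.el (mod i k f, T) φ) ∈ P.Deg E.N ∧
              A * (bF K (E.vl (mod i k f, T) (f j)) -
                bF K (E.ev (mod i k f, T) (mod i k f) (f j))) *
                bF K (E.el (mod i k f, T) φ) ∈ P.Zr := by
            intro φ
            refine ⟨E.deg_el' _ _, ?_⟩
            rw [mul_comm]
            exact P.zmul (D' := E.N + E.N) (by omega) (E.deg_el' _ _)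
              (E.zr_el' _ hc _ (by omega)) (P.mul hAd (Submodule.sub_mem _ (E.deg_vl' _ _)
              (E.deg_ev _ _ _)))
          rcases hx with rfl | rfl
          · exact h1 _
          · exact h1 _
        · simp only [List.length_cons, List.length_nil]; omega
        · intro y hy
          rw [Pi.mul_apply] at hy
          have h1 : E.act (mod i k f, T) (wide E.w E.m (mod i k f)) y := by
            rw [← E.ac_iff]
            by_contra hcon
            exact left_ne_zero_of_mul hy (bF_false (by simpa using hcon))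
          by_contra hcon
          simp only [List.mem_cons, List.not_mem_nil, or_false, exists_eq_or_imp, exists_eq_left,
            not_or, Bool.not_eq_true] at hcon
          apply right_ne_zero_of_mul hy
          have h2 := E.ev_eq hc.1 h1.1 (subs_self _) hl (hfj j) hcon.1
          have h3 := E.vl_isL hc.1 h1.1 (hfj j) (isL_sub (a := mod i k f) hl (hfj j)) hcon.2
          rw [Pi.sub_apply, bF_apply, bF_apply, h2, h3, sub_self]
      have huc2 : ∀ y, ∃ x : ZMod p, u2 y = ZMod.castHom (dvd_refl p) K x := by
        intro y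
        have h1 := cast_sum (K := K) (p := p) univ fun j => E.vl (mod i k f, T) (f j) y
        have h2 := cast_sum (K := K) (p := p) univ
          fun j => E.ev (mod i k f, T) (mod i k f) (f j) y
        refine ⟨(∑ j, if E.vl (mod i k f, T) (f j) y = true then (1 : ZMod p) else 0) -
          ∑ j, if E.ev (mod i k f, T) (mod i k f) (f j) y = true then (1 : ZMod p) else 0, ?_⟩
        simp only [u2, Finset.sum_apply, Pi.sub_apply, sum_sub_distrib, bF_apply]
        rw [h1, h2, ← map_sub]
      let sl : Y → Bool := fun y => decide (u2 y ≠ 0)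
      have hsl : bF K sl ∈ P.Deg D6 ∧ A * f0 * bF K sl ∈ P.Zr := by
        have h1 := hpw u2 _ hud2 huc2
        refine ⟨P.up h1 (by omega), ?_⟩
        have h2 : A * bF K sl ∈ P.Zr := by
          refine diff_zr (p := p) hAd hud2 h1 huz2 (by omega) huc2 ?_
          intro y hy hcon
          exact hy (bF_false (v := sl) (by simp [sl, hcon]))
        have h3 : A * f0 * bF K sl = A * bF K sl * f0 := by ring
        rw [h3]
        exact P.zmul (by omega) (P.mul hAd h1) h2 hf
      refine cover_zr (M := D6) hχ [xr (mod i k f), E.el (mod i k f, T) (mod i k f), sd, sl]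
        ?_ ?_ ?_
      · intro x hx
        simp only [List.mem_cons, List.not_mem_nil, or_false] at hx
        rcases hx with rfl | rfl | rfl | rfl
        · exact hxr _ (subs_self _)
        · exact hel _
        · exact hsd
        · exact hsl
      · simp only [List.length_cons, List.length_nil]; omega
      · intro y hy
        obtain ⟨h1, h2⟩ := hsup y hy
        by_contra hcon
        simp only [List.mem_cons, List.not_mem_nil, or_false, exists_eq_or_imp, exists_eq_left,
          not_or, Bool.not_eq_true] at hcon
        obtain ⟨k1, k2, k3, k4⟩ := hcon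
        have k1' : E.Fv (mod i k f) y = E.vl (mod i k f, T) (mod i k f) y := by
          simpa [xr] using k1
        simp only [rsp] at h2
        rw [hfin y k3, k1', E.vl_isL hc.1 h1.1 (subs_self _) hl k2] at h2
        have h0 : u2 y = 0 := by simpa [sl] using k4
        have h3 : (∑ j, if E.vl (mod i k f, T) (f j) y = true then (1 : ZMod p) else 0) =
            ∑ j, if eval (wa (E.W.m y)) (f j) = true then (1 : ZMod p) else 0 := by
          have h1' := cast_sum (K := K) (p := p) univ fun j => E.vl (mod i k f, T) (f j) y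
          have h2' := cast_sum (K := K) (p := p) univ
            fun j => E.ev (mod i k f, T) (mod i k f) (f j) y
          simp only [u2, Finset.sum_apply, Pi.sub_apply, sum_sub_distrib, bF_apply] at h0
          rw [h1', h2', sub_eq_zero] at h0
          have h4 := (ZMod.castHom (dvd_refl p) K).injective h0
          rw [h4]
          refine sum_congr rfl fun j _ => ?_
          rw [E.ev_eq hc.1 h1.1 (subs_self _) hl (hfj j) k2]
        rw [h3] at h2
        simp [eval] at h2
    · by_cases hk : E.w < k
      · -- wide connective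
        refine cover_zr (M := D6) hχ [xr (mod i k f), E.el (mod i k f, T) (mod i k f), sd]
          ?_ ?_ ?_
        · intro x hx
          simp only [List.mem_cons, List.not_mem_nil, or_false] at hx
          rcases hx with rfl | rfl | rfl
          · exact hxr _ (subs_self _)
          · exact hel _
          · exact hsd
        · simp only [List.length_cons, List.length_nil]; omega
        · intro y hy
          obtain ⟨h1, h2⟩ := hsup y hy
          by_contra hcon
          simp only [List.mem_cons, List.not_mem_nil, or_false, exists_eq_or_imp, exists_eq_left,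
            not_or, Bool.not_eq_true] at hcon
          obtain ⟨k1, k2, k3⟩ := hcon
          have k1' : E.Fv (mod i k f) y = E.vl (mod i k f, T) (mod i k f) y := by
            simpa [xr] using k1
          have hw : mod i k f ∈ wide E.w E.m (mod i k f) := by
            have : ¬ (vars (mod i k f)).card ≤ E.m := hl
            exact mem_wide.mpr ⟨subs_self _, by omega, i, k, f, rfl, hk⟩
          have h4 := h1.2 _ hw
          simp only [mt] at h4
          simp only [rsp] at h2
          rw [hfin y k3, k1', E.tr_modw hc.1 h1.1 (subs_self _) hl hk k2, h4] at h2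
          simp at h2
      · -- narrow connective
        have hk' : k ≤ E.w := by omega
        refine cover_zr (M := D6) hχ (xr (mod i k f) :: E.el (mod i k f, T) (mod i k f) :: sd ::
          (List.finRange k).map fun j => E.el (mod i k f, T) (f j)) ?_ ?_ ?_
        · intro x hx
          simp only [List.mem_cons, List.mem_map, List.mem_finRange, true_and] at hx
          rcases hx with rfl | rfl | rfl | ⟨j, rfl⟩
          · exact hxr _ (subs_self _)
          · exact hel _
          · exact hsd
          · exact hel _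
        · simp only [List.length_cons, List.length_map, List.length_finRange]
          have h1 : (k + 1 + 1 + 1) * D6 = k * D6 + 3 * D6 := by ring
          have h2 : k * D6 ≤ E.w * D6 := Nat.mul_le_mul_right _ hk'
          omega
        · intro y hy
          obtain ⟨h1, h2⟩ := hsup y hy
          by_contra hcon
          simp only [List.mem_cons, List.mem_map, List.mem_finRange, true_and,
            exists_eq_or_imp, not_or, Bool.not_eq_true, not_exists, not_and] at hcon
          obtain ⟨k1, k2, k3, k4⟩ := hcon
          have k1' : E.Fv (mod i k f) y = E.vl (mod i k f, T) (mod i k f) y := by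
            simpa [xr] using k1
          have k5 : ∀ j, E.el (mod i k f, T) (f j) y = false := by
            intro j
            exact k4 _ ⟨j, rfl⟩
          simp only [rsp] at h2
          rw [hfin y k3, k1', E.tr_modn hc.1 h1.1 (subs_self _) hl hk' k2 k5] at h2
          simp at h2

end Env

end resp

end Pool.Agent.Work.MP_c04246_lc.H
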