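import Mathlib
import Pool.Agent.Work.MP_c04246_lc.HResp

set_option autoImplicit false
set_option linter.unusedSectionVars false
set_option linter.unusedSimpArgs false
set_option linter.unusedVariables false
set_option linter.unnecessarySeqFocus false

namespace Pool.Agent.Work.MP_c04246_lc.H

open Finset Fml

section lay

variable {Y K : Type} [Field K] {p : ℕ} [Fact p.Prime] [CharP K p] {P : PCI Y K} {U X : Type}
  [DecidableEq U] [DecidableEq X] [Fintype X] {es : X → Finset U}

omit [Fact p.Prime] [CharP K p] [DecidableEq U] [DecidableEq X] [Fintype X] in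
lemma mt_congr {v v' : Fml p X → Bool} {z : Fml p X}
    (h : ∀ (i : ZMod p) (k : ℕ) (f : Fin k → Fml p X), z = mod i k f → ∀ j, v (f j) = v' (f j)) :
    mt v z = mt v' z := by
  cases z with
  | var x => rfl
  | cst b => rfl
  | neg a => rfl
  | bin c a b => rfl
  | mod i k f =>
    have h1 := h i k f rfl
    unfold mt
    simp only [h1]

lemma bF_ne_sq (v v' : Y → Bool) :
    bF K (fun y => v y != v' y) = (bF K v - bF K v') * (bF K v - bF K v') := by
  funext y
  simp only [Pi.mul_apply, Pi.sub_apply, bF_apply]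
  cases v y <;> cases v' y <;> simp

open Classical in
lemma deg_ne0 {u : Y → K} {D : ℕ} (hu : u ∈ P.Deg D)
    (huc : ∀ y, ∃ x : ZMod p, u y = ZMod.castHom (dvd_refl p) K x) :
    bF K (fun y => decide (u y ≠ 0)) ∈ P.Deg (p * D) := by
  have hp : 1 < p := (Fact.out : p.Prime).one_lt
  have : bF K (fun y => decide (u y ≠ 0)) = u ^ (p - 1) := by
    funext y
    rw [Pi.pow_apply]
    obtain ⟨x, hx⟩ := huc y
    rw [hx, pow_zmod]
    by_cases h0 : x = 0
    · rw [if_pos h0, bF_false]
      simp only [decide_eq_false_iff_not, not_not]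
      rw [hx, h0, map_zero]
    · rw [if_neg h0, bF_true]
      simp only [decide_eq_true_eq]
      rw [hx]
      intro h1
      exact h0 ((ZMod.castHom (dvd_refl p) K).injective (by rw [h1, map_zero]))
  rw [this]
  exact P.up (P.pow hu _) (Nat.mul_le_mul_right _ (by omega))

lemma deg_mt' {D : ℕ} (v : Fml p X → Y → Bool) (z : Fml p X)
    (h : ∀ (i : ZMod p) (k : ℕ) (f : Fin k → Fml p X), z = mod i k f → ∀ j,
      bF K (v (f j)) ∈ P.Deg D) :
    bF K (fun y => mt (fun φ => v φ y) z) ∈ P.Deg (p * D) := by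
  cases z with
  | var x => exact bF_const _ _
  | cst b => exact bF_const _ _
  | neg a => exact bF_const _ _
  | bin c a b => exact bF_const _ _
  | mod i k f => exact bF_mod (fun j => h i k f rfl j)

open Classical in
/-- the guess `T` is right on `Z` -/
noncomputable def tc (v : Fml p X → Y → Bool) (Z T : Finset (Fml p X)) (y : Y) : Bool :=
  decide (∀ z ∈ Z, mt (fun φ => v φ y) z = gs T z)

lemma tc_iff {v : Fml p X → Y → Bool} {Z T : Finset (Fml p X)} {y : Y} :
    tc v Z T y = true ↔ ∀ z ∈ Z, mt (fun φ => v φ y) z = gs T z := by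
  classical
  unfold tc; simp

lemma deg_tc {D : ℕ} {v : Fml p X → Y → Bool} {Z : Finset (Fml p X)} (T : Finset (Fml p X))
    (h : ∀ z ∈ Z, bF K (fun y => mt (fun φ => v φ y) z) ∈ P.Deg D) :
    bF K (tc v Z T) ∈ P.Deg (Z.card * D) := by
  classical
  have h1 : bF K (tc v Z T) = ∏ z ∈ Z, bF K (fun y => mt (fun φ => v φ y) z == gs T z) := by
    funext y
    rw [Finset.prod_apply]
    by_cases h : ∀ z ∈ Z, mt (fun φ => v φ y) z = gs T z
    · rw [bF_true (tc_iff.mpr h), prod_eq_one]
      intro z hz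
      exact bF_true (by simpa using h z hz)
    · rw [bF_false (by rw [← Bool.not_eq_true, tc_iff]; exact h)]
      push Not at h
      obtain ⟨z, hz, hne⟩ := h
      rw [prod_eq_zero hz]
      exact bF_false (by simpa using hne)
  rw [h1]
  refine P.prod Z _ fun z hz => ?_
  have h2 := bF_comb (P := P) (D' := 0) (fun a b => a == b) (h z hz) (bF_const 0 (gs T z))
  exact h2

open Classical in
/-- the right guess -/
noncomputable def TT (v : Fml p X → Bool) (Z : Finset (Fml p X)) : Finset (Fml p X) :=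
  Z.filter fun z => mt v z = true

omit [Fact p.Prime] [CharP K p] [DecidableEq U] [DecidableEq X] [Fintype X] in
lemma TT_sub (v : Fml p X → Bool) (Z : Finset (Fml p X)) : TT v Z ⊆ Z := filter_subset _ _

lemma tc_TT {v : Fml p X → Y → Bool} {Z : Finset (Fml p X)} {y : Y} :
    tc v Z (TT (fun φ => v φ y) Z) y = true := by
  classical
  rw [tc_iff]
  intro z hz
  by_cases h : mt (fun φ => v φ y) z = true
  · rw [h]
    exact (gs_eq.mpr (mem_filter.mpr ⟨hz, h⟩)).symm
  · have h1 : gs (TT (fun φ => v φ y) Z) z = false := by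
      rw [← Bool.not_eq_true, gs_eq]
      unfold TT
      rw [mem_filter]
      exact fun h' => h h'.2
    rw [h1]
    simpa using h

lemma eq_TT {v : Fml p X → Y → Bool} {Z T : Finset (Fml p X)} (hT : T ⊆ Z) {y : Y}
    (h : tc v Z T y = true) : T = TT (fun φ => v φ y) Z := by
  classical
  rw [tc_iff] at h
  ext z
  unfold TT
  rw [mem_filter]
  constructor
  · intro hz
    refine ⟨hT hz, ?_⟩
    rw [h z (hT hz)]
    exact gs_eq.mpr hz
  · rintro ⟨hz, h1⟩
    rw [h z hz] at h1
    exact gs_eq.mp h1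

lemma TT_inter {v : Fml p X → Y → Bool} {Z Z' T : Finset (Fml p X)} {y : Y}
    (h : ∀ z ∈ Z, mt (fun φ => v φ y) z = gs T z) (hZ : Z' ⊆ Z) [DecidableEq (Fml p X)] :
    TT (fun φ => v φ y) Z' = T ∩ Z' := by
  classical
  ext z
  unfold TT
  rw [mem_filter, mem_inter]
  constructor
  · rintro ⟨hz, h1⟩
    rw [h z (hZ hz)] at h1
    exact ⟨gs_eq.mp h1, hz⟩
  · rintro ⟨h1, hz⟩
    exact ⟨hz, by rw [h z (hZ hz)]; exact gs_eq.mpr h1⟩

/-- the guesses cover everything -/
lemma sum_tc (v : Fml p X → Y → Bool) (Z : Finset (Fml p X)) (f : Y → K)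
    (G : Finset (Fml p X) → Y → K) (h : ∀ y, G (TT (fun φ => v φ y) Z) y = f y) :
    f = ∑ T ∈ Z.powerset, bF K (tc v Z T) * G T := by
  classical
  funext y
  rw [Finset.sum_apply, sum_eq_single (TT (fun φ => v φ y) Z)]
  · rw [Pi.mul_apply, bF_true tc_TT, one_mul, h]
  · intro T hT hne
    rw [Pi.mul_apply, bF_false, zero_mul]
    rw [← Bool.not_eq_true]
    intro h1
    exact hne (eq_TT (mem_powerset.mp hT) h1)
  · intro h1
    exact absurd (mem_powerset.mpr (TT_sub _ _)) h1

omit [Fact p.Prime] [CharP K p] [DecidableEq U] [DecidableEq X] [Fintype X] in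
lemma wide_isL {w m : ℕ} {a : Fml p X} (h : isL m a) : wide w m a = ∅ := by
  classical
  cases a with
  | var x =>
    rw [eq_empty_iff_forall_notMem]
    intro b hb
    obtain ⟨h1, _, i, k, f, rfl, _⟩ := mem_wide.mp hb
    simp [subs] at h1
  | cst x =>
    rw [eq_empty_iff_forall_notMem]
    intro b hb
    obtain ⟨h1, _, i, k, f, rfl, _⟩ := mem_wide.mp hb
    simp [subs] at h1
  | neg a => exact wide_local h
  | bin c a b => exact wide_local h
  | mod i k f => exact wide_local h

namespace Env

variable (E : Env P p es)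

lemma base_isL {a : Fml p X} (h : isL E.m a) : E.base a := by
  unfold base
  rw [wide_isL h, card_empty]
  exact Nat.zero_le _

open Classical in
/-- approximations of the global truth values -/
noncomputable def FF : ℕ → Fml p X → Y → Bool
  | 0, a, y => E.Fv a y
  | t + 1, a, y => if E.base a then E.Fv a y else
      E.vl (a, TT (fun φ => FF t φ y) (owide E.w E.m a)) a y

/-- global truth values -/
noncomputable def F (a : Fml p X) (y : Y) : Bool := E.FF E.nt a y

lemma FF_base {a : Fml p X} (h : E.base a) (t : ℕ) (y : Y) : E.FF t a y = E.Fv a y := by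
  cases t with
  | zero => rfl
  | succ t => unfold FF; rw [if_pos h]

lemma FF_nb {a : Fml p X} (h : ¬ E.base a) (t : ℕ) (y : Y) : E.FF (t + 1) a y =
    E.vl (a, TT (fun φ => E.FF t φ y) (owide E.w E.m a)) a y := by
  rw [FF, if_neg h]

lemma TT_congr {v v' : Fml p X → Bool} {Z : Finset (Fml p X)}
    (h : ∀ (i : ZMod p) (k : ℕ) (f : Fin k → Fml p X), mod i k f ∈ Z → ∀ j, v (f j) = v' (f j)) :
    TT v Z = TT v' Z := by
  classical
  unfold TT
  refine filter_congr fun z hz => ?_
  rw [mt_congr (v := v) (v' := v') fun i k f hzf j => h i k f (hzf ▸ hz) j]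

lemma FF_succ : ∀ (t : ℕ) (a : Fml p X), Lay E.w E.m E.g E.r t a → ∀ y,
    E.FF (t + 1) a y = E.FF t a y := by
  intro t
  induction t with
  | zero => intro a h y; rw [E.FF_base h, E.FF_base h]
  | succ t ih =>
    intro a h y
    by_cases hb : E.base a
    · rw [E.FF_base hb, E.FF_base hb]
    · rw [E.FF_nb hb, E.FF_nb hb]
      rcases h with h | ⟨_, h⟩
      · exact absurd h hb
      · rw [TT_congr (v' := fun φ => E.FF t φ y) fun i k f hf j => ih (f j) (h i k f hf j) y]

lemma F_base {a : Fml p X} (h : E.base a) (y : Y) : E.F a y = E.Fv a y := E.FF_base h _ y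

lemma nb_lay {a : Fml p X} (ha : a ∈ E.S) (hb : ¬ E.base a) : ∃ t, E.nt = t + 1 ∧
    (owide E.w E.m a).card ≤ E.r ∧
    ∀ (i : ZMod p) (k : ℕ) (f : Fin k → Fml p X), mod i k f ∈ owide E.w E.m a → ∀ j,
      Lay E.w E.m E.g E.r t (f j) ∧ E.F (f j) = E.FF t (f j) := by
  have h := E.lay a ha
  cases hnt : E.nt with
  | zero => rw [hnt] at h; exact absurd h hb
  | succ t =>
    rw [hnt] at h
    rcases h with h | ⟨h1, h2⟩
    · exact absurd h hb
    · refine ⟨t, rfl, h1, fun i k f hf j => ⟨h2 i k f hf j, ?_⟩⟩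
      funext y
      unfold F
      rw [hnt, E.FF_succ t _ (h2 i k f hf j)]

lemma F_nb {a : Fml p X} (ha : a ∈ E.S) (hb : ¬ E.base a) (y : Y) : E.F a y =
    E.vl (a, TT (fun φ => E.F φ y) (owide E.w E.m a)) a y := by
  obtain ⟨t, hnt, h1, h2⟩ := E.nb_lay ha hb
  have h3 : E.F a y = E.FF (t + 1) a y := by unfold F; rw [hnt]
  rw [h3, E.FF_nb hb]
  rw [TT_congr (v' := fun φ => E.F φ y) fun i k f hf j => congrFun (h2 i k f hf j).2.symm y]

/-- degree of the global truth values -/
def Dt (t : ℕ) : ℕ := ((E.r + 1) * p) ^ t * (p * E.N)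

lemma pN_le (t : ℕ) : p * E.N ≤ E.Dt t := by
  unfold Dt
  have hp : 0 < p := (Fact.out : p.Prime).pos
  exact Nat.le_mul_of_pos_left _ (Nat.pow_pos (Nat.mul_pos (Nat.succ_pos _) hp))

lemma N_le (t : ℕ) : E.N ≤ E.Dt t := by
  have hp : 0 < p := (Fact.out : p.Prime).pos
  exact (Nat.le_mul_of_pos_left _ hp).trans (E.pN_le t)

lemma Dt_succ (t : ℕ) : E.r * (p * E.Dt t) + E.N ≤ E.Dt (t + 1) := by
  have hp : 0 < p := (Fact.out : p.Prime).pos
  have h1 : E.Dt (t + 1) = E.r * (p * E.Dt t) + p * E.Dt t := by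
    unfold Dt; ring
  rw [h1]
  have h2 : E.Dt t ≤ p * E.Dt t := Nat.le_mul_of_pos_left _ hp
  have h3 := E.N_le t
  omega

lemma deg_FF : ∀ (t : ℕ) (a : Fml p X), Lay E.w E.m E.g E.r t a →
    bF K (E.FF t a) ∈ P.Deg (E.Dt t) := by
  classical
  intro t
  induction t with
  | zero =>
    intro a h
    have h1 : E.FF 0 a = E.Fv a := by funext y; rfl
    rw [h1]
    exact P.up (E.deg_Fv h) (E.pN_le 0)
  | succ t ih =>
    intro a h
    by_cases hb : E.base a
    · have h1 : E.FF (t + 1) a = E.Fv a := by funext y; exact E.FF_base hb _ y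
      rw [h1]
      exact P.up (E.deg_Fv hb) (E.pN_le _)
    · rcases h with h | ⟨h1, h2⟩
      · exact absurd h hb
      · rw [sum_tc (K := K) (E.FF t) (owide E.w E.m a) (bF K (E.FF (t + 1) a))
          (fun T => bF K (E.vl (a, T) a)) (by
            intro y
            rw [bF_apply, bF_apply, E.FF_nb hb])]
        refine Submodule.sum_mem _ fun T _ => ?_
        refine P.up (P.mul (deg_tc (D := p * E.Dt t) T fun z hz => ?_) (E.deg_vl' _ _)) ?_
        · exact deg_mt' _ z fun i k f hzf j => ih _ (h2 i k f (hzf ▸ hz) j)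
        · refine le_trans ?_ (E.Dt_succ t)
          exact Nat.add_le_add_right (Nat.mul_le_mul_right _ h1) _

/-- degree of the global truth values -/
def DD : ℕ := E.Dt E.nt

lemma deg_F {a : Fml p X} (ha : a ∈ E.S) : bF K (E.F a) ∈ P.Deg E.DD :=
  E.deg_FF _ _ (E.lay a ha)

lemma deg_tcF {a : Fml p X} (ha : a ∈ E.S) (hb : ¬ E.base a) (T : Finset (Fml p X)) :
    ∃ D, D + E.N ≤ E.DD ∧ bF K (tc E.F (owide E.w E.m a) T) ∈ P.Deg D := by
  obtain ⟨t, hnt, h1, h2⟩ := E.nb_lay ha hb
  refine ⟨(owide E.w E.m a).card * (p * E.Dt t), ?_, ?_⟩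
  · unfold DD
    rw [hnt]
    refine le_trans ?_ (E.Dt_succ t)
    exact Nat.add_le_add_right (Nat.mul_le_mul_right _ h1) _
  · refine deg_tc T fun z hz => deg_mt' _ z fun i k f hzf j => ?_
    have h3 := h2 i k f (hzf ▸ hz) j
    rw [h3.2]
    exact E.deg_FF _ _ h3.1

/-- the guess of the system `(a, T)` is right -/
noncomputable def am (a : Fml p X) (T : Finset (Fml p X)) (y : Y) : Bool :=
  match (E.Rm (a, T)).lam y with
  | some _ => tc E.F (owide E.w E.m a) T y
  | none => false

lemma am_iff {a : Fml p X} {T : Finset (Fml p X)} {y : Y} : E.am a T y = true ↔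
    (E.Rm (a, T)).lam y ≠ none ∧ tc E.F (owide E.w E.m a) T y = true := by
  unfold am
  cases (E.Rm (a, T)).lam y <;> simp

lemma deg_am {a : Fml p X} (ha : a ∈ E.S) (hb : ¬ E.base a) (T : Finset (Fml p X)) :
    bF K (E.am a T) ∈ P.Deg E.DD := by
  obtain ⟨D, h1, h2⟩ := E.deg_tcF ha hb T
  have h3 := E.deg_main (a, T) (fun _ => tc E.F (owide E.w E.m a) T) (fun _ => h2)
  refine P.up h3 (le_trans (Nat.add_le_add_left ?_ D) h1)
  unfold N; omega

/-- the systems for all guesses cover everything -/
theorem cov_zr {a : Fml p X} (ha : a ∈ E.S) (hb : ¬ E.base a) {D : ℕ} {f : Y → K}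
    (hf : f ∈ P.Deg D) (hB : D + 2 * E.DD ≤ P.B)
    (h : ∀ T ⊆ owide E.w E.m a, bF K (E.am a T) * f ∈ P.Zr) : f ∈ P.Zr := by
  classical
  rw [sum_tc (K := K) E.F (owide E.w E.m a) f (fun _ => f) fun _ => rfl]
  refine Submodule.sum_mem _ fun T hT => ?_
  rw [mem_powerset] at hT
  obtain ⟨D', h1, h2⟩ := E.deg_tcF ha hb T
  have h3 := E.deg_am ha hb T
  have hN : 2 * (E.δ * E.hs) ≤ E.N := by unfold N; omega
  have h4 : bF K (tc E.F (owide E.w E.m a) T) * f = bF K (E.am a T) * f +
      (bF K (tc E.F (owide E.w E.m a) T) - bF K (E.am a T)) * f := by ring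
  rw [h4]
  refine Submodule.add_mem _ (h T hT) ?_
  have hNle : E.N ≤ E.DD := E.N_le _
  refine (E.Rm (a, T)).split (E.ok_nb ha hT) (D := E.DD + D)
    (P.mul (Submodule.sub_mem _ (P.up h2 (by omega)) h3) hf)
    (fun y _ => E.W.sub y) (by omega) ?_
  intro σ _
  have : (fun y => if (E.Rm (a, T)).lam y = some σ then
      ((bF K (tc E.F (owide E.w E.m a) T) - bF K (E.am a T)) * f) y else 0) = 0 := by
    funext y
    by_cases h5 : (E.Rm (a, T)).lam y = some σ
    · have h6 : E.am a T y = tc E.F (owide E.w E.m a) T y := by unfold am; rw [h5]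
      rw [if_pos h5, Pi.mul_apply, Pi.sub_apply, bF_apply, bF_apply, h6, sub_self, zero_mul]
      rfl
    · rw [if_neg h5]; rfl
  rw [this]; exact Submodule.zero_mem _

/-- below a right guess, the global truth value of a subformula is the local one -/
theorem F_vl {a b : Fml p X} {T : Finset (Fml p X)} (ha : a ∈ E.S) (hb : ¬ E.base a)
    (hT : T ⊆ owide E.w E.m a) (hba : b ∈ subs a) (hob : owide E.w E.m b ⊆ owide E.w E.m a)
    (hB : (2 * p + 8) * E.DD ≤ P.B) :
    bF K (E.am a T) * bF K (fun y => E.F b y != E.vl (a, T) b y) ∈ P.Zr := by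
  classical
  have hp : 1 < p := (Fact.out : p.Prime).one_lt
  have hbS : b ∈ E.S := E.sc _ ha hba
  have hok : E.ok (a, T) := E.ok_nb ha hT
  have hAm := E.deg_am ha hb T
  have hNle : E.N ≤ E.DD := E.N_le _
  have hpNle : p * E.N ≤ E.DD := E.pN_le _
  have hppN : p * (p * E.N) ≤ p * E.DD := Nat.mul_le_mul_left _ hpNle
  have hBe : 2 * (p * E.DD) + 8 * E.DD ≤ P.B := by
    have : (2 * p + 8) * E.DD = 2 * (p * E.DD) + 8 * E.DD := by ring
    omega
  have hcN : 4 * (E.δ * E.hs) + (E.d + 5) * (E.δ * E.hk) ≤ E.N := by unfold N; omega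
  by_cases hbb : E.base b
  · -- `b` has few wide counting subformulas
    have hN2 : 2 * E.N ≤ p * E.N := Nat.mul_le_mul_right _ (by omega)
    have hFb : E.F b = E.Fv b := by funext y; exact E.F_base hbb y
    set f0 := bF K (E.am a T) * bF K (fun y => E.F b y != E.vl (a, T) b y) with hf0
    have hf : f0 ∈ P.Deg (E.DD + (p * E.N + E.N)) := by
      refine P.mul hAm (bF_comb (fun x y => x != y) ?_ (E.deg_vl' _ _))
      rw [hFb]; exact E.deg_Fv hbb
    refine E.sum_zr hbS hbb hf (by omega) ?_
    intro T' hT'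
    have hok' : E.ok (b, T') := E.ok_base hbS hbb hT'
    set A := bF K (E.ac (b, T') (wide E.w E.m b)) with hA
    have hAd : A ∈ P.Deg E.N := E.deg_ac' _ hbb
    have hχ : A * f0 ∈ P.Deg (E.N + (E.DD + (p * E.N + E.N))) := P.mul hAd hf
    have hsup : ∀ y, (A * f0) y ≠ 0 → E.act (b, T') (wide E.w E.m b) y ∧
        (tc E.F (owide E.w E.m a) T y = true ∧ E.F b y ≠ E.vl (a, T) b y) := by
      intro y hy
      rw [Pi.mul_apply] at hy
      have hy1 := left_ne_zero_of_mul hy
      have hy2 := right_ne_zero_of_mul hy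
      rw [hf0, Pi.mul_apply] at hy2
      have hy3 := left_ne_zero_of_mul hy2
      have hy4 := right_ne_zero_of_mul hy2
      refine ⟨?_, ?_, ?_⟩
      · rw [← E.ac_iff]
        by_contra hcon
        exact hy1 (bF_false (by simpa using hcon))
      · by_contra hcon
        apply hy3
        apply bF_false
        rw [← Bool.not_eq_true, E.am_iff]
        exact fun h => hcon h.2
      · intro hcon
        apply hy4
        apply bF_false
        simp only [hcon, bne_self_eq_false]
    by_cases hag : ∀ z ∈ owide E.w E.m b, gs T z = gs T' z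
    · -- the guesses agree
      have hx1d : bF K (fun y => E.Fv b y != E.vl (b, T') b y) ∈ P.Deg (p * E.N + E.N) :=
        bF_comb (fun x y => x != y) (E.deg_Fv hbb) (E.deg_vl' _ _)
      have hx2d : bF K (fun y => E.vl (b, T') b y != E.vl (a, T) b y) ∈ P.Deg (E.N + E.N) :=
        bF_comb (fun x y => x != y) (E.deg_vl' _ _) (E.deg_vl' _ _)
      refine cover_zr (M := p * E.N + E.N) hχ [fun y => E.Fv b y != E.vl (b, T') b y,
        fun y => E.vl (b, T') b y != E.vl (a, T) b y] ?_ ?_ ?_
      · intro x hx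
        simp only [List.mem_cons, List.not_mem_nil, or_false] at hx
        rcases hx with rfl | rfl
        · refine ⟨hx1d, ?_⟩
          have h1 : A * f0 * bF K (fun y => E.Fv b y != E.vl (b, T') b y) =
              A * bF K (fun y => E.Fv b y != E.vl (b, T') b y) * f0 := by ring
          rw [h1]
          refine P.zmul (by omega) (P.mul hAd hx1d) (E.Fv_vl hok' hbb (subs_self _) ?_) hf
          have : (2 * p + 5) * E.N = 2 * (p * E.N) + 5 * E.N := by ring
          omega
        · refine ⟨P.up hx2d (by omega), ?_⟩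
          have h1 := E.cross_l hok' hok (φ := b) ⟨subs_self _, hba, fun z hz => (hag z hz).symm⟩
            hχ (by omega)
          rw [bF_ne_sq, ← mul_assoc]
          refine P.zmul (D := (E.N + (E.DD + (p * E.N + E.N))) + E.N) (D' := E.N) (by omega)
            (P.mul hχ (Submodule.sub_mem _ (E.deg_vl' _ _) (E.deg_vl' _ _))) h1
            (Submodule.sub_mem _ (E.deg_vl' _ _) (E.deg_vl' _ _))
      · simp only [List.length_cons, List.length_nil]; omega
      · intro y hy
        obtain ⟨_, _, h3⟩ := hsup y hy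
        by_contra hcon
        simp only [List.mem_cons, List.not_mem_nil, or_false, exists_eq_or_imp, exists_eq_left,
          not_or, Bool.not_eq_true, bne_eq_false_iff_eq] at hcon
        apply h3
        rw [hFb, hcon.1, hcon.2]
    · -- the guesses disagree
      push Not at hag
      obtain ⟨z, hz, hzne⟩ := hag
      have hzw : z ∈ wide E.w E.m b := owide_sub _ hz
      obtain ⟨hzs, _, i, k, f, rfl, hk⟩ := mem_wide.mp hzw
      have hfb : ∀ j, f j ∈ subs b := fun j => subs_trans _ _ hzs (subs_mod _ _ _ j (subs_self _))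
      have hFf : ∀ j, E.F (f j) = E.Fv (f j) := fun j => by
        funext y; exact E.F_base (E.base_sub hbb (hfb j)) y
      let u : Y → K := ∑ j, (bF K (E.Fv (f j)) - bF K (E.vl (b, T') (f j)))
      have hud : u ∈ P.Deg (p * E.N) := Submodule.sum_mem _ fun j _ =>
        Submodule.sub_mem _ (E.deg_Fv (E.base_sub hbb (hfb j))) (P.up (E.deg_vl' _ _) (by omega))
      have huz : A * u ∈ P.Zr := by
        simp only [u]
        rw [mul_sum]
        refine Submodule.sum_mem _ fun j _ => ?_
        have hsub : (bF K (E.Fv (f j)) - bF K (E.vl (b, T') (f j))) ∈ P.Deg (p * E.N) :=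
          Submodule.sub_mem _ (E.deg_Fv (E.base_sub hbb (hfb j)))
            (P.up (E.deg_vl' _ _) (by omega))
        have h1 : A * (bF K (E.Fv (f j)) - bF K (E.vl (b, T') (f j))) =
            A * bF K (fun y => E.Fv (f j) y != E.vl (b, T') (f j) y) *
              (bF K (E.Fv (f j)) - bF K (E.vl (b, T') (f j))) := by
          funext y
          simp only [Pi.mul_apply, Pi.sub_apply, bF_apply]
          cases E.Fv (f j) y <;> cases E.vl (b, T') (f j) y <;> simp
        rw [h1]
        refine P.zmul (D := E.N + (p * E.N + E.N)) (D' := p * E.N) (by omega)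
          (P.mul hAd (bF_comb (fun x y => x != y) (E.deg_Fv (E.base_sub hbb (hfb j)))
            (E.deg_vl' _ _))) (E.Fv_vl hok' hbb (hfb j) ?_) hsub
        have : (2 * p + 5) * E.N = 2 * (p * E.N) + 5 * E.N := by ring
        omega
      have huc : ∀ y, ∃ x : ZMod p, u y = ZMod.castHom (dvd_refl p) K x := by
        intro y
        have h1 := cast_sum (K := K) (p := p) univ fun j => E.Fv (f j) y
        have h2 := cast_sum (K := K) (p := p) univ fun j => E.vl (b, T') (f j) y
        refine ⟨(∑ j, if E.Fv (f j) y = true then (1 : ZMod p) else 0) -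
          ∑ j, if E.vl (b, T') (f j) y = true then (1 : ZMod p) else 0, ?_⟩
        simp only [u, Finset.sum_apply, Pi.sub_apply, sum_sub_distrib, bF_apply]
        rw [h1, h2, ← map_sub]
      let sd : Y → Bool := fun y => decide (u y ≠ 0)
      have hsdd : bF K sd ∈ P.Deg (p * (p * E.N)) := deg_ne0 hud huc
      refine cover_zr (M := p * (p * E.N)) hχ [sd] ?_ ?_ ?_
      · intro x hx
        simp only [List.mem_cons, List.not_mem_nil, or_false] at hx
        subst hx
        refine ⟨hsdd, ?_⟩
        have h2 : A * bF K sd ∈ P.Zr := by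
          refine diff_zr (p := p) hAd hud hsdd huz (by omega) huc ?_
          intro y hy hcon
          exact hy (bF_false (v := sd) (by simp [sd, hcon]))
        have h3 : A * f0 * bF K sd = A * bF K sd * f0 := by ring
        rw [h3]
        exact P.zmul (by omega) (P.mul hAd hsdd) h2 hf
      · simp only [List.length_cons, List.length_nil]; omega
      · intro y hy
        obtain ⟨h1, h2, _⟩ := hsup y hy
        refine ⟨sd, List.mem_cons_self, ?_⟩
        by_contra hcon
        have h0 : u y = 0 := by simpa [sd] using hcon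
        have h3 := h1.2 _ hzw
        have h4 := (tc_iff.mp h2) _ (hob hz)
        apply hzne
        rw [← h4, ← h3]
        apply mt_eq_of_Sz (K := K)
        simp only [Sz, hFf]
        simp only [u, Finset.sum_apply, Pi.sub_apply, sum_sub_distrib, bF_apply] at h0
        exact sub_eq_zero.mp h0
  · -- `b` has many wide counting subformulas
    set T0 := T ∩ owide E.w E.m b with hT0
    have hok0 : E.ok (b, T0) := E.ok_nb hbS inter_subset_right
    have hgs0 : ∀ z ∈ owide E.w E.m b, gs T z = gs T0 z := by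
      intro z hz
      unfold gs
      rw [decide_eq_decide, hT0, mem_inter]
      exact ⟨fun h => ⟨h, hz⟩, fun h => h.1⟩
    have h1 := E.cross_l hok hok0 (φ := b) ⟨hba, subs_self _, hgs0⟩ hAm (by omega)
    have h2 : bF K (E.am a T) * bF K (fun y => E.F b y != E.vl (a, T) b y) =
        (bF K (E.am a T) * (bF K (E.vl (a, T) b) - bF K (E.vl (b, T0) b))) *
          (bF K (E.vl (a, T) b) - bF K (E.vl (b, T0) b)) := by
      funext y
      rw [mul_assoc, ← bF_ne_sq, Pi.mul_apply, Pi.mul_apply]
      cases hy : E.am a T y with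
      | false => rw [bF_false hy, zero_mul, zero_mul]
      | true =>
        have h3 := (E.am_iff.mp hy).2
        have h4 : E.F b y = E.vl (b, T0) b y := by
          rw [E.F_nb hbS hbb, TT_inter (tc_iff.mp h3) hob]
        rw [bF_apply (fun y => E.F b y != E.vl (a, T) b y), bF_apply (fun y => _ != _), h4]
        cases E.vl (b, T0) b y <;> cases E.vl (a, T) b y <;> rfl
    rw [h2]
    exact P.zmul (D := E.DD + E.N) (D' := E.N) (by omega)
      (P.mul hAm (Submodule.sub_mem _ (E.deg_vl' _ _) (E.deg_vl' _ _))) h1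
      (Submodule.sub_mem _ (E.deg_vl' _ _) (E.deg_vl' _ _))

end Env

end lay

end Pool.Agent.Work.MP_c04246_lc.H
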