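import Mathlib
import Pool.Agent.Work.MP_c04246_lc.HLay

set_option autoImplicit false
set_option linter.unusedSectionVars false
set_option linter.unusedSimpArgs false
set_option linter.unusedVariables false
set_option linter.unnecessarySeqFocus false

namespace Pool.Agent.Work.MP_c04246_lc.H

open Finset Fml

section lay2

variable {Y K : Type} [Field K] {p : ℕ} [Fact p.Prime] [CharP K p] {P : PCI Y K} {U X : Type}
  [DecidableEq U] [DecidableEq X] [Fintype X] {es : X → Finset U}

lemma rsp_congr {v v' : Fml p X → Bool} {a : Fml p X} (h : ∀ b ∈ subs a, v b = v' b) :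
    rsp v a = rsp v' a := by
  cases a with
  | var x => rfl
  | cst b => simp only [rsp, h _ (subs_self _)]
  | neg a => simp only [rsp, h _ (subs_self _), h _ (subs_neg _ (subs_self a))]
  | bin c a b => simp only [rsp, h _ (subs_self _), h _ (subs_bin_l _ _ _ (subs_self a)),
      h _ (subs_bin_r _ _ _ (subs_self b))]
  | mod i k f =>
    have h1 : ∀ j, v (f j) = v' (f j) := fun j => h _ (subs_mod _ _ _ j (subs_self _))
    simp only [rsp, h _ (subs_self _), h1]

namespace Env

variable (E : Env P p es)

lemma deg_rspF {a : Fml p X} (ha : a ∈ E.S) :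
    bF K (fun y => !(rsp (fun φ => E.F φ y) a)) ∈ P.Deg ((p + 3) * E.DD) := by
  have hp : 1 < p := (Fact.out : p.Prime).one_lt
  apply bF_not
  have hr : (p + 3) * E.DD = p * E.DD + 3 * E.DD := by ring
  cases a with
  | var x => exact bF_const _ _
  | cst b =>
    refine P.up (bF_comb (D' := 0) (fun u v => u == v) (E.deg_F ha) (bF_const 0 b)) (by omega)
  | neg a =>
    refine P.up (bF_comb (fun u v => u == !v) (E.deg_F ha) (E.deg_F (E.sc.neg ha))) (by omega)
  | bin c a b =>
    refine P.up (bF_comb3 (fun u v w => u == (if c then (v || w) else (v && w))) (E.deg_F ha)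
      (E.deg_F (E.sc.bin ha).1) (E.deg_F (E.sc.bin ha).2)) (by omega)
  | mod i k f =>
    refine P.up (bF_comb (fun u v => u == v) (E.deg_F ha)
      (bF_mod (i := i) fun j => E.deg_F (E.sc.mod ha j))) (by omega)

/-- the global truth values obey the truth tables, up to the ideal -/
theorem respF_zr {a : Fml p X} (ha : a ∈ E.S)
    (hB : (E.w + 10) * ((p + 3) * E.DD) ≤ P.B) :
    bF K (fun y => !(rsp (fun φ => E.F φ y) a)) ∈ P.Zr := by
  classical
  have hp : 1 < p := (Fact.out : p.Prime).one_lt
  have hNle : E.N ≤ E.DD := E.N_le _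
  have hpNle : p * E.N ≤ E.DD := E.pN_le _
  by_cases hb : E.base a
  · have h1 : (fun y => !(rsp (fun φ => E.F φ y) a)) = fun y => !(rsp (fun φ => E.Fv φ y) a) := by
      funext y
      rw [rsp_congr fun b hba => E.F_base (E.base_sub hb hba) y]
    rw [h1]
    refine E.resp_zr ha hb (le_trans (Nat.mul_le_mul_left _ (Nat.mul_le_mul_left _ hpNle)) hB)
  set f0 := bF K (fun y => !(rsp (fun φ => E.F φ y) a)) with hf0
  have hf : f0 ∈ P.Deg ((p + 3) * E.DD) := E.deg_rspF ha
  set D6 := (p + 3) * E.DD with hD6
  have hr : D6 = p * E.DD + 3 * E.DD := by rw [hD6]; ring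
  have hN2 : 2 * E.DD ≤ p * E.DD := Nat.mul_le_mul_right _ (by omega)
  have hBe : E.w * D6 + 10 * D6 ≤ P.B := by rw [← Nat.add_mul]; exact hB
  have h0w : 0 ≤ E.w * D6 := Nat.zero_le _
  have h2p8 : (2 * p + 8) * E.DD ≤ P.B := by
    have : (2 * p + 8) * E.DD = 2 * (p * E.DD) + 8 * E.DD := by ring
    omega
  refine E.cov_zr ha hb hf (by omega) ?_
  intro T hT
  have hc : E.ok (a, T) := E.ok_nb ha hT
  set A := bF K (E.am a T) with hA
  have hAd : A ∈ P.Deg E.DD := E.deg_am ha hb T
  have hχ : A * f0 ∈ P.Deg (E.DD + D6) := P.mul hAd hf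
  -- bad events
  let xr : Fml p X → Y → Bool := fun φ y => E.F φ y != E.vl (a, T) φ y
  have hxr : ∀ φ ∈ subs a, owide E.w E.m φ ⊆ owide E.w E.m a →
      bF K (xr φ) ∈ P.Deg D6 ∧ A * f0 * bF K (xr φ) ∈ P.Zr := by
    intro φ hφ hoφ
    have h1 : bF K (xr φ) ∈ P.Deg (E.DD + E.N) :=
      bF_comb (fun x y => x != y) (E.deg_F (E.sc _ ha hφ)) (E.deg_vl' _ _)
    refine ⟨P.up h1 (by omega), ?_⟩
    have h2 : A * f0 * bF K (xr φ) = A * bF K (xr φ) * f0 := by ring
    rw [h2]
    exact P.zmul (by omega) (P.mul hAd h1) (E.F_vl ha hb hT hφ hoφ h2p8) hf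
  have hel : ∀ φ, bF K (E.el (a, T) φ) ∈ P.Deg D6 ∧ A * f0 * bF K (E.el (a, T) φ) ∈ P.Zr := by
    intro φ
    refine ⟨P.up (E.deg_el' _ _) (by omega), ?_⟩
    rw [mul_comm]
    exact P.zmul (by omega) (E.deg_el' _ _) (E.zr_el' _ hc _ (by omega)) hχ
  have hsup : ∀ y, (A * f0) y ≠ 0 → (E.Rm (a, T)).lam y ≠ none ∧
      (∀ z ∈ owide E.w E.m a, mt (fun φ => E.F φ y) z = gs T z) ∧
      rsp (fun φ => E.F φ y) a = false := by
    intro y hy
    rw [Pi.mul_apply] at hy
    have h1 : E.am a T y = true := by
      by_contra hcon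
      exact left_ne_zero_of_mul hy (bF_false (by simpa using hcon))
    rw [E.am_iff, tc_iff] at h1
    refine ⟨h1.1, h1.2, ?_⟩
    by_contra hcon
    exact right_ne_zero_of_mul hy (bF_false (by simpa using hcon))
  cases a with
  | var x => exact absurd (E.base_isL (a := var x) trivial) hb
  | cst b => exact absurd (E.base_isL (a := cst b) trivial) hb
  | neg b =>
    have hb' : b ∈ subs (neg b) := subs_neg _ (subs_self _)
    refine cover_zr (M := D6) hχ [xr (neg b), xr b, E.el (neg b, T) (neg b),
      E.el (neg b, T) b] ?_ ?_ ?_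
    · intro x hx
      simp only [List.mem_cons, List.not_mem_nil, or_false] at hx
      rcases hx with rfl | rfl | rfl | rfl
      · exact hxr _ (subs_self _) Subset.rfl
      · exact hxr _ hb' Subset.rfl
      · exact hel _
      · exact hel _
    · simp only [List.length_cons, List.length_nil]; omega
    · intro y hy
      obtain ⟨h1, _, h2⟩ := hsup y hy
      by_contra hcon
      simp only [List.mem_cons, List.not_mem_nil, or_false, exists_eq_or_imp, exists_eq_left,
        not_or, Bool.not_eq_true, xr, bne_eq_false_iff_eq] at hcon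
      have h3 := E.tr_neg hc.1 h1 (subs_self _) hcon.2.2.1 hcon.2.2.2
      simp only [rsp] at h2
      rw [hcon.1, hcon.2.1, h3] at h2
      simp at h2
  | bin c0 b b' =>
    have hb1 : b ∈ subs (bin c0 b b') := subs_bin_l _ _ _ (subs_self _)
    have hb2 : b' ∈ subs (bin c0 b b') := subs_bin_r _ _ _ (subs_self _)
    refine cover_zr (M := D6) hχ [xr (bin c0 b b'), xr b, xr b',
      E.el (bin c0 b b', T) (bin c0 b b'), E.el (bin c0 b b', T) b,
      E.el (bin c0 b b', T) b'] ?_ ?_ ?_
    · intro x hx
      simp only [List.mem_cons, List.not_mem_nil, or_false] at hx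
      rcases hx with rfl | rfl | rfl | rfl | rfl | rfl
      · exact hxr _ (subs_self _) Subset.rfl
      · exact hxr _ hb1 (owide_bin_l _ _ _)
      · exact hxr _ hb2 (owide_bin_r _ _ _)
      · exact hel _
      · exact hel _
      · exact hel _
    · simp only [List.length_cons, List.length_nil]; omega
    · intro y hy
      obtain ⟨h1, _, h2⟩ := hsup y hy
      by_contra hcon
      simp only [List.mem_cons, List.not_mem_nil, or_false, exists_eq_or_imp, exists_eq_left,
        not_or, Bool.not_eq_true, xr, bne_eq_false_iff_eq] at hcon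
      obtain ⟨k1, k2, k3, k4, k5, k6⟩ := hcon
      have h3 := E.tr_bin hc.1 h1 (subs_self _) k4 k5 k6
      simp only [rsp] at h2
      rw [k1, k2, k3, h3] at h2
      simp at h2
  | mod i k f =>
    have hfj : ∀ j, f j ∈ subs (mod i k f) := fun j => subs_mod _ _ _ j (subs_self _)
    have hl : ¬ isL E.m (mod i k f) := fun h => hb (E.base_isL h)
    by_cases hk : E.w < k
    · -- wide connective
      refine cover_zr (M := D6) hχ [xr (mod i k f), E.el (mod i k f, T) (mod i k f)] ?_ ?_ ?_
      · intro x hx
        simp only [List.mem_cons, List.not_mem_nil, or_false] at hx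
        rcases hx with rfl | rfl
        · exact hxr _ (subs_self _) Subset.rfl
        · exact hel _
      · simp only [List.length_cons, List.length_nil]; omega
      · intro y hy
        obtain ⟨h1, h1', h2⟩ := hsup y hy
        by_contra hcon
        simp only [List.mem_cons, List.not_mem_nil, or_false, exists_eq_or_imp, exists_eq_left,
          not_or, Bool.not_eq_true] at hcon
        obtain ⟨k1, k2⟩ := hcon
        have k1' : E.F (mod i k f) y = E.vl (mod i k f, T) (mod i k f) y := by
          simpa [xr] using k1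
        have hw : mod i k f ∈ owide E.w E.m (mod i k f) := by
          rw [owide_modw hl hk, mem_singleton]
        have h4 := h1' _ hw
        simp only [mt] at h4
        simp only [rsp] at h2
        rw [k1', E.tr_modw hc.1 h1 (subs_self _) hl hk k2, h4] at h2
        simp at h2
    · -- narrow connective
      have hk' : k ≤ E.w := by omega
      have hof : ∀ j, owide E.w E.m (f j) ⊆ owide E.w E.m (mod i k f) :=
        fun j => owide_modn (Or.inr hk') j
      refine cover_zr (M := D6) hχ (xr (mod i k f) :: E.el (mod i k f, T) (mod i k f) ::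
        ((List.finRange k).map (fun j => E.el (mod i k f, T) (f j)) ++ [fun y =>
          decide ((∑ j, (bF K (E.F (f j)) - bF K (E.vl (mod i k f, T) (f j)))) y ≠ 0)]))
        ?_ ?_ ?_
      · intro x hx
        simp only [List.mem_cons, List.mem_append, List.mem_map, List.mem_finRange, true_and,
          List.not_mem_nil, or_false] at hx
        rcases hx with rfl | rfl | ⟨j, rfl⟩ | rfl
        · exact hxr _ (subs_self _) Subset.rfl
        · exact hel _
        · exact hel _
        · set u : Y → K := ∑ j, (bF K (E.F (f j)) - bF K (E.vl (mod i k f, T) (f j))) with hu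
          have hsub : ∀ j, bF K (E.F (f j)) - bF K (E.vl (mod i k f, T) (f j)) ∈ P.Deg E.DD :=
            fun j => Submodule.sub_mem _ (E.deg_F (E.sc.mod ha j))
              (P.up (E.deg_vl' _ _) (by omega))
          have hud : u ∈ P.Deg E.DD := Submodule.sum_mem _ fun j _ => hsub j
          have huz : A * u ∈ P.Zr := by
            rw [hu, mul_sum]
            refine Submodule.sum_mem _ fun j _ => ?_
            have h1 : A * (bF K (E.F (f j)) - bF K (E.vl (mod i k f, T) (f j))) =
                A * bF K (fun y => E.F (f j) y != E.vl (mod i k f, T) (f j) y) *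
                  (bF K (E.F (f j)) - bF K (E.vl (mod i k f, T) (f j))) := by
              funext y
              simp only [Pi.mul_apply, Pi.sub_apply, bF_apply]
              cases E.F (f j) y <;> cases E.vl (mod i k f, T) (f j) y <;> simp
            rw [h1]
            refine P.zmul (D := E.DD + (E.DD + E.N)) (D' := E.DD) (by omega)
              (P.mul hAd (bF_comb (fun x y => x != y) (E.deg_F (E.sc.mod ha j))
                (E.deg_vl' _ _))) (E.F_vl ha hb hT (hfj j) (hof j) h2p8) (hsub j)
          have huc : ∀ y, ∃ x : ZMod p, u y = ZMod.castHom (dvd_refl p) K x := by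
            intro y
            have h1 := cast_sum (K := K) (p := p) univ fun j => E.F (f j) y
            have h2 := cast_sum (K := K) (p := p) univ fun j => E.vl (mod i k f, T) (f j) y
            refine ⟨(∑ j, if E.F (f j) y = true then (1 : ZMod p) else 0) -
              ∑ j, if E.vl (mod i k f, T) (f j) y = true then (1 : ZMod p) else 0, ?_⟩
            simp only [hu, Finset.sum_apply, Pi.sub_apply, sum_sub_distrib, bF_apply]
            rw [h1, h2, ← map_sub]
          have h1 := deg_ne0 hud huc
          refine ⟨P.up h1 (by omega), ?_⟩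
          have h2 : A * bF K (fun y => decide (u y ≠ 0)) ∈ P.Zr := by
            refine diff_zr (p := p) hAd hud h1 huz (by omega) huc ?_
            intro y hy hcon
            exact hy (bF_false (by simp [hcon]))
          have h3 : A * f0 * bF K (fun y => decide (u y ≠ 0)) =
            A * bF K (fun y => decide (u y ≠ 0)) * f0 := by ring
          rw [h3]
          exact P.zmul (by omega) (P.mul hAd h1) h2 hf
      · simp only [List.length_cons, List.length_append, List.length_map, List.length_finRange,
          List.length_nil]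
        have h1 : (k + (0 + 1) + 1 + 1) * D6 = k * D6 + 3 * D6 := by ring
        have h2 : k * D6 ≤ E.w * D6 := Nat.mul_le_mul_right _ hk'
        omega
      · intro y hy
        obtain ⟨h1, _, h2⟩ := hsup y hy
        by_contra hcon
        push Not at hcon
        have k1 := hcon (xr (mod i k f)) (List.mem_cons_self)
        have k2 := hcon (E.el (mod i k f, T) (mod i k f))
          (List.mem_cons_of_mem _ List.mem_cons_self)
        have k4 := fun j => hcon (E.el (mod i k f, T) (f j))
          (List.mem_cons_of_mem _ (List.mem_cons_of_mem _ (List.mem_append_left _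
            (List.mem_map.mpr ⟨j, List.mem_finRange j, rfl⟩))))
        have k3 := hcon _ (List.mem_cons_of_mem _ (List.mem_cons_of_mem _
          (List.mem_append_right _ (List.mem_singleton_self _))))
        have k1' : E.F (mod i k f) y = E.vl (mod i k f, T) (mod i k f) y := by
          simpa [xr] using k1
        have h0 : (∑ j, (bF K (E.F (f j)) - bF K (E.vl (mod i k f, T) (f j)))) y = 0 := by
          simpa using k3
        have h3 : (∑ j, if E.F (f j) y = true then (1 : ZMod p) else 0) =
            ∑ j, if E.vl (mod i k f, T) (f j) y = true then (1 : ZMod p) else 0 := by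
          have h1 := cast_sum (K := K) (p := p) univ fun j => E.F (f j) y
          have h2 := cast_sum (K := K) (p := p) univ fun j => E.vl (mod i k f, T) (f j) y
          simp only [Finset.sum_apply, Pi.sub_apply, sum_sub_distrib, bF_apply] at h0
          rw [h1, h2, sub_eq_zero] at h0
          exact (ZMod.castHom (dvd_refl p) K).injective h0
        simp only [rsp] at h2
        rw [h3, k1', E.tr_modn hc.1 h1 (subs_self _) hl hk' (by simpa using k2)
          (fun j => by simpa using k4 j)] at h2
        simp at h2

/-- one inference step -/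
theorem inf_zr {Pr : Finset (Fml p X)} {a : Fml p X} (hinf : LocInf E.w Pr a) (ha : a ∈ E.S)
    (hPr : ∀ b ∈ Pr, b ∈ E.S ∧ bF K (fun y => !(E.F b y)) ∈ P.Zr)
    (hB : (2 * E.w + 10) * ((p + 3) * E.DD) ≤ P.B) :
    bF K (fun y => !(E.F a y)) ∈ P.Zr := by
  classical
  obtain ⟨hc1, C, hC, hCs, himp⟩ := hinf
  set D6 := (p + 3) * E.DD with hD6
  have hr : D6 = p * E.DD + 3 * E.DD := by rw [hD6]; ring
  have hBe : 2 * (E.w * D6) + 10 * D6 ≤ P.B := by
    have : (2 * E.w + 10) * D6 = 2 * (E.w * D6) + 10 * D6 := by ring
    omega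
  have hBr : (E.w + 10) * D6 ≤ P.B := by
    have : (E.w + 10) * D6 = E.w * D6 + 10 * D6 := by ring
    omega
  have hCS : ∀ c ∈ C, c ∈ E.S := by
    intro c hc
    rcases hCs c hc with h | ⟨b, hb, h⟩
    · exact E.sc _ ha h
    · exact E.sc _ (hPr b hb).1 h
  have hFd : ∀ b ∈ E.S, bF K (fun y => !(E.F b y)) ∈ P.Deg D6 := fun b hb =>
    P.up (bF_not (E.deg_F hb)) (by omega)
  refine cover_zr (M := D6) (hFd a ha) (Pr.toList.map (fun b y => !(E.F b y)) ++
    C.toList.map (fun c y => !(rsp (fun φ => E.F φ y) c))) ?_ ?_ ?_
  · intro x hx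
    rw [List.mem_append, List.mem_map, List.mem_map] at hx
    rcases hx with ⟨b, hb, rfl⟩ | ⟨c, hc, rfl⟩
    · rw [mem_toList] at hb
      refine ⟨hFd b (hPr b hb).1, ?_⟩
      rw [mul_comm]
      exact P.zmul (by omega) (hFd b (hPr b hb).1) (hPr b hb).2 (hFd a ha)
    · rw [mem_toList] at hc
      refine ⟨E.deg_rspF (hCS c hc), ?_⟩
      rw [mul_comm]
      exact P.zmul (by omega) (E.deg_rspF (hCS c hc)) (E.respF_zr (hCS c hc) hBr) (hFd a ha)
  · rw [List.length_append, List.length_map, List.length_map, length_toList, length_toList]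
    have h1 : (Pr.card + C.card) * D6 ≤ (2 * E.w) * D6 := Nat.mul_le_mul_right _ (by omega)
    have h2 : 2 * E.w * D6 = 2 * (E.w * D6) := by ring
    omega
  · intro y hy
    by_contra hcon
    push Not at hcon
    have hF : E.F a y = false := by
      by_contra h
      apply hy
      apply bF_false
      simpa using h
    have h1 := himp (fun φ => E.F φ y) (fun c hc => by
      rw [← rsp_iff]
      have := hcon (fun y => !(rsp (fun φ => E.F φ y) c)) (by
        rw [List.mem_append, List.mem_map, List.mem_map]
        exact Or.inr ⟨c, mem_toList.mpr hc, rfl⟩)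
      simpa using this) (fun b hb => by
      have := hcon (fun y => !(E.F b y)) (by
        rw [List.mem_append, List.mem_map, List.mem_map]
        exact Or.inl ⟨b, mem_toList.mpr hb, rfl⟩)
      simpa using this)
    rw [hF] at h1
    exact Bool.noConfusion h1

/-- all lines of a proof are true up to the ideal -/
theorem proof_zr {pi : List (Fml p X)} (hpi : IsProof E.w pi) (hS : ∀ a ∈ pi, a ∈ E.S)
    (hB : (2 * E.w + 10) * ((p + 3) * E.DD) ≤ P.B) :
    ∀ a ∈ pi, bF K (fun y => !(E.F a y)) ∈ P.Zr := by
  have key : ∀ (n : ℕ) (i : Fin pi.length), i.val = n →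
      bF K (fun y => !(E.F (pi.get i) y)) ∈ P.Zr := by
    intro n
    induction n using Nat.strong_induction_on with
    | _ n ih =>
      intro i hi
      obtain ⟨Pr, hPr, hinf⟩ := hpi i
      refine E.inf_zr hinf (hS _ (List.get_mem _ _)) ?_ hB
      intro b hb
      obtain ⟨j, hj, rfl⟩ := hPr b hb
      exact ⟨hS _ (List.get_mem _ _), ih j.val (by rw [← hi]; exact hj) j rfl⟩
  intro a ha
  obtain ⟨i, rfl⟩ := List.get_of_mem ha
  exact key _ i rfl

end Env

end lay2

end Pool.Agent.Work.MP_c04246_lc.H
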