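import Mathlib
import Pool.Agent.Work.MP_c04246_lc.HLay2

set_option autoImplicit false
set_option linter.unusedSectionVars false
set_option linter.unusedSimpArgs false
set_option linter.unusedVariables false
set_option linter.unnecessarySeqFocus false

namespace Pool.Agent.Work.MP_c04246_lc.H

open Finset Fml

lemma pmTaut_eq {U X : Type} [Fintype U] [Fintype X] (p : ℕ) (es : X → Finset U) :
    ∃ L1 L2 : List (Fml p X), pmTaut p es = bin true (disj L1) (disj L2) ∧
      (∀ a ∈ L1, ∃ (u : U) (l0 : List X), (∀ x, x ∈ l0 ↔ u ∈ es x) ∧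
        a = neg (disj (l0.map var))) ∧
      (∀ a ∈ L2, ∃ x y : X, x ≠ y ∧ ¬ Disjoint (es x) (es y) ∧
        a = bin false (var x) (var y)) := by
  classical
  refine ⟨_, _, rfl, ?_, ?_⟩
  · intro a ha
    rw [List.mem_map] at ha
    obtain ⟨u, _, rfl⟩ := ha
    exact ⟨u, _, fun x => by simp, rfl⟩
  · intro a ha
    rw [List.mem_map] at ha
    obtain ⟨z, hz, rfl⟩ := ha
    simp only [mem_toList, mem_filter, mem_univ, true_and] at hz
    exact ⟨z.1, z.2, hz.1, hz.2, rfl⟩

lemma mem_subs_disj {p : ℕ} {V : Type} (l : List (Fml p V)) (b : Fml p V) (hb : b ∈ l) :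
    b ∈ subs (disj l) := by
  induction l with
  | nil => simp at hb
  | cons a l ih =>
    have : disj (a :: l) = bin true a (disj l) := rfl
    rw [this]
    rcases List.mem_cons.mp hb with rfl | hb
    · exact subs_bin_l _ _ _ (subs_self _)
    · exact subs_bin_r _ _ _ (ih hb)

section pm

variable {p : ℕ} {U X : Type} [DecidableEq U] [DecidableEq X] {es : X → Finset U}
  {w m : ℕ} {β : Fml p X → Bool} {θ : ℕ → Finset X} {κ : ℕ → ℕ}

lemma CDD_or {a b : Fml p X} {t : Finset X}
    (ht : t ∈ (CD es w m β θ κ (bin true a b)).2 true) :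
    t ∈ (CD es w m β θ κ a).2 true ∨ t ∈ (CD es w m β θ κ b).2 true := by
  by_cases hl : isL m (bin true a b)
  · rw [CD_isL hl] at ht
    obtain ⟨h1, h2, h3⟩ := ht
    have ha : isL m a := isL_sub (a := bin true a b) hl (subs_bin_l _ _ _ (subs_self _))
    have hb : isL m b := isL_sub (a := bin true a b) hl (subs_bin_r _ _ _ (subs_self _))
    rw [CD_isL ha, CD_isL hb]
    simp only [eval, if_true, Bool.or_eq_true] at h3
    rcases h3 with h | h
    · exact Or.inl ⟨h1, fun S hS => h2 S (vars_subs _ a (subs_bin_l _ _ _ (subs_self a)) hS), h⟩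
    · exact Or.inr ⟨h1, fun S hS => h2 S (vars_subs _ b (subs_bin_r _ _ _ (subs_self b)) hS), h⟩
  · rw [CD_bin hl] at ht
    simpa using ht

lemma CDD_disj (l : List (Fml p X)) (t : Finset X)
    (ht : t ∈ (CD es w m β θ κ (disj l)).2 true) : ∃ a ∈ l, t ∈ (CD es w m β θ κ a).2 true := by
  induction l with
  | nil =>
    have h : eval (wa t) (cst false : Fml p X) = true := ht.2.2
    exact Bool.noConfusion h
  | cons a l ih =>
    have : disj (a :: l) = bin true a (disj l) := rfl
    rw [this] at ht
    rcases CDD_or ht with h | h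
    · exact ⟨a, by simp, h⟩
    · obtain ⟨b, hb, hb'⟩ := ih h
      exact ⟨b, by simp [hb], hb'⟩

lemma vars_disj' (l : List X) (x : X) :
    x ∈ vars (disj (l.map (var : X → Fml p X))) ↔ x ∈ l := by
  classical
  induction l with
  | nil => simp [disj, vars]
  | cons a l ih =>
    have : disj ((a :: l).map (var : X → Fml p X)) = bin true (var a) (disj (l.map var)) := rfl
    rw [this]
    simp only [vars, mem_union, mem_singleton, List.mem_cons, ih]

lemma eval_disj' {V : Type} (v : V → Bool) (l : List (Fml p V)) :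
    eval v (disj l) = true ↔ ∃ a ∈ l, eval v a = true := by
  induction l with
  | nil => simp [disj, eval]
  | cons a l ih =>
    have : disj (a :: l) = bin true a (disj l) := rfl
    rw [this]
    simp only [eval, if_true, Bool.or_eq_true, ih, List.mem_cons, exists_eq_or_imp]

/-- a single hyperedge decides and satisfies a disjunction of variables through a common vertex -/
lemma single_mem' {u : U} (l : List X) (hl : ∀ x ∈ l, u ∈ es x) {x0 : X} (hx0 : x0 ∈ l)
    (hSm : ({x0} ∪ θ 0) ∈ Sm es θ κ 0) :
    ({x0} ∪ θ 0) ∈ (CD es w m β θ κ (disj (l.map var))).2 true := by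
  classical
  have hu0 : u ∈ es x0 := hl x0 hx0
  induction l with
  | nil => simp at hx0
  | cons x l ih =>
    have hd : disj ((x :: l).map (var : X → Fml p X)) = bin true (var x) (disj (l.map var)) := rfl
    by_cases hL : isL m (disj ((x :: l).map (var : X → Fml p X)))
    · rw [CD_isL hL]
      refine ⟨hSm, ?_, ?_⟩
      · intro x' hx'
        rw [vars_disj'] at hx'
        by_cases h : x0 = x'
        · left; rw [← h]; simp
        · right
          refine ⟨x0, by simp, h, ?_⟩
          rw [not_disjoint_iff]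
          exact ⟨u, hu0, hl x' hx'⟩
      · rw [eval_disj']
        exact ⟨var x0, List.mem_map.mpr ⟨x0, hx0, rfl⟩, by simp [eval, wa]⟩
    · rw [hd] at hL ⊢
      rw [CD_bin hL]
      simp only [if_true]
      rcases List.mem_cons.mp hx0 with h | h
      · left
        rw [CD_isL (show isL m (var x : Fml p X) from trivial), ← h]
        refine ⟨hSm, ?_, by simp [eval, wa]⟩
        intro x' hx'
        have : x' = x0 := by simpa [vars] using hx'
        rw [this]; left; simp
      · right
        exact ih (fun x' hx' => hl x' (List.mem_cons_of_mem _ hx')) h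

/-- one query decides a variable -/
lemma one_query {L : Set (Finset X)} {h : ℕ} {τ : Finset X} (hτ : PP es τ) {x : X}
    (hx : (es x).Nonempty)
    (hall : ∀ τ', τ ⊆ τ' → PP es τ' → Dcd es τ' x → Dec es L τ' h) : Dec es L τ (h + 1) := by
  obtain ⟨u, hu⟩ := hx
  by_cases hc : u ∈ cov es τ
  · obtain ⟨z, hz, huz⟩ := mem_cov.mp hc
    refine (hall τ Subset.rfl hτ ?_).mono_h _ (by omega)
    by_cases he : z = x
    · left; rw [← he]; exact hz
    · right
      refine ⟨z, hz, he, ?_⟩
      rw [not_disjoint_iff]; exact ⟨u, huz, hu⟩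
  · refine Dec.query u hc fun z hz => hall _ (subset_insert _ _) (hz.PP hτ) ?_
    by_cases he : z = x
    · left; rw [← he]; exact mem_insert_self _ _
    · right
      refine ⟨z, mem_insert_self _ _, he, ?_⟩
      rw [not_disjoint_iff]; exact ⟨u, hz.1, hu⟩

variable [Fintype U] [Fintype X]

/-- the last line is never true -/
theorem pm_ct (hκ0 : 1 ≤ κ 0) (hne : ∀ x, (es x).Nonempty)
    (hθ : ∀ b ∈ subs (pmTaut p es), θ 0 ⊆ θ (lv w m none b)) {π : Finset X}
    (h : Vd es w m β θ κ (pmTaut p es) true π) : Ct es π 2 := by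
  classical
  intro hπ
  have hsing : ∀ (x : X) (σ : Finset X), PP es σ → x ∈ σ → θ 0 ⊆ σ →
      ({x} ∪ θ 0) ∈ Sm es θ κ 0 := by
    intro x σ hPP hx hsub
    refine ⟨hPP.mono (union_subset (singleton_subset_iff.mpr hx) hsub), subset_union_right, ?_⟩
    have : ({x} ∪ θ 0) \ θ 0 ⊆ {x} := by
      intro z hz
      rw [mem_sdiff, mem_union] at hz
      rcases hz.1 with h | h
      · exact h
      · exact absurd h hz.2
    exact (card_le_card this).trans (by rw [card_singleton]; exact hκ0)
  obtain ⟨t, ht, htπ⟩ := h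
  obtain ⟨t1, ht1, ht1t⟩ := CD_to_D _ _ _ ht
  have ht1π : t1 ⊆ π := ht1t.trans htπ
  obtain ⟨L1, L2, hPM, hL1, hL2⟩ := pmTaut_eq p es
  rw [hPM] at ht1
  rcases CDD_or ht1 with h | h
  · obtain ⟨a, ha, hta⟩ := CDD_disj _ _ h
    obtain ⟨u, l0, hl0, rfl⟩ := hL1 a ha
    have hl0u : ∀ x ∈ l0, u ∈ es x := fun x hx => (hl0 x).mp hx
    have hl0m : ∀ x : X, u ∈ es x → x ∈ l0 := fun x hx => (hl0 x).mpr hx
    have key : ∀ σ, PP es σ → t1 ⊆ σ → ∀ x ∈ σ, u ∈ es x → False := by
      intro σ hσ hts x hx hux
      by_cases hL : isL m (neg (disj (l0.map (var : X → Fml p X))))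
      · rw [CD_isL hL] at hta
        obtain ⟨hSm, hdec, hev⟩ := hta
        have h1 := hdec x (by
          show _ ∈ vars (disj (l0.map (var : X → Fml p X)))
          rw [vars_disj']; exact hl0m x hux)
        rcases h1 with h1 | ⟨T, hT, hTne, hTd⟩
        · have h2 : eval (wa t1) (disj (l0.map (var : X → Fml p X))) = true := by
            rw [eval_disj']
            exact ⟨var x, List.mem_map.mpr ⟨_, hl0m x hux, rfl⟩, by simpa [eval, wa] using h1⟩
          simp only [eval, h2] at hev
          exact Bool.noConfusion hev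
        · exact hTd (hσ T (hts hT) x hx hTne)
      · rw [CD_neg hL] at hta
        have hta' : t1 ∈ (CD es w m β θ κ (disj (l0.map (var : X → Fml p X)))).1 false := hta
        cases hcase : l0 with
        | nil =>
          exfalso; apply hL
          rw [hcase]
          show (vars (disj ([] : List (Fml p X)))).card ≤ m
          simp [disj, vars]
        | cons x0 l' =>
          have hX : disj (l0.map (var : X → Fml p X)) =
              bin true (var x0) (disj (l'.map var)) := by
            rw [hcase]; rfl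
          have hL' : ¬ isL m (bin true (var x0) (disj (l'.map (var : X → Fml p X)))) := by
            rw [← hX]
            intro h'
            rw [hX] at h'
            apply hL
            show (vars (disj (l0.map (var : X → Fml p X)))).card ≤ m
            rw [hX]; exact h'
          have hSm := mem_Sm_of_CD _ _ _ hta'
          have hsub1 : disj (l0.map (var : X → Fml p X)) ∈ subs (pmTaut p es) := by
            rw [hPM]
            refine subs_bin_l _ _ _ ?_
            exact subs_trans _ _ (mem_subs_disj _ _ ha) (subs_neg _ (subs_self _))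
          have hθt : θ 0 ⊆ σ := (hθ _ hsub1).trans (hSm.2.1.trans hts)
          have h3 := single_mem' (w := w) (m := m) (κ := κ) (θ := θ) (β := β) (p := p) l0 hl0u
            (hl0m x hux) (hsing x σ hσ hx hθt)
          rw [hX] at hta' h3
          rw [CD_bin hL'] at hta' h3
          simp only [if_true] at h3
          simp only [Bool.false_eq_true, if_false] at hta'
          refine hta'.2 _ h3 (hσ.mono ?_)
          exact union_subset (union_subset (singleton_subset_iff.mpr hx) hθt) hts
    by_cases hc : u ∈ cov es π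
    · obtain ⟨x, hx, hux⟩ := mem_cov.mp hc
      exact absurd (key π hπ ht1π x hx hux) id
    · refine Dec.query u hc fun x hx => ?_
      exact absurd (key (insert x π) (hx.PP hπ) (ht1π.trans (subset_insert _ _)) x
        (mem_insert_self _ _) hx.1) id
  · obtain ⟨a, ha, hta⟩ := CDD_disj _ _ h
    obtain ⟨z1, z2, hzne, hnd, rfl⟩ := hL2 a ha
    by_cases hL : isL m (bin false (var z1) (var z2) : Fml p X)
    · rw [CD_isL hL] at hta
      obtain ⟨hSm, _, hev⟩ := hta
      simp only [eval, wa, Bool.false_eq_true, if_false, Bool.and_eq_true, decide_eq_true_eq] at hev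
      exact absurd (hSm.1 _ hev.1 _ hev.2 hzne) hnd
    · rw [CD_bin hL] at hta
      simp only [Bool.true_eq_false, if_false] at hta
      obtain ⟨hSm, hall⟩ := hta
      have hsub1 : (bin false (var z1) (var z2) : Fml p X) ∈ subs (pmTaut p es) := by
        rw [hPM]
        exact subs_bin_r _ _ _ (mem_subs_disj _ _ ha)
      have key : ∀ σ, PP es σ → t1 ⊆ σ → ∀ x, Dcd es σ x → x ∉ σ →
          ∃ t', t' ∈ (CD es w m β θ κ (var x : Fml p X)).2 false ∧ t' ⊆ σ := by
        intro σ hσ hts x hx hxσ
        have hθt : θ 0 ⊆ σ := (hθ _ hsub1).trans (hSm.2.1.trans hts)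
        rcases hx with h1 | ⟨T, hT, hTne, hTd⟩
        · exact absurd h1 hxσ
        · refine ⟨{T} ∪ θ 0, ?_, union_subset (singleton_subset_iff.mpr hT) hθt⟩
          rw [CD_isL (show isL m (var x : Fml p X) from trivial)]
          refine ⟨hsing T σ hσ hT hθt, ?_, ?_⟩
          · intro x' hx'
            have : x' = x := by simpa [vars] using hx'
            rw [this]
            exact Or.inr ⟨T, by simp, hTne, hTd⟩
          · simp only [eval, wa, decide_eq_false_iff_not, mem_union, mem_singleton, not_or]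
            exact ⟨fun h => hTne h.symm, fun h => hxσ (hθt h)⟩
      have hfin : ∀ σ, PP es σ → t1 ⊆ σ → Dcd es σ z1 → Dcd es σ z2 → False := by
        intro σ hσ hts h1 h2
        by_cases hz1 : z1 ∈ σ
        · have hz2 : z2 ∉ σ := fun hz2 => hnd (hσ _ hz1 _ hz2 hzne)
          obtain ⟨t', k1, k2⟩ := key σ hσ hts _ h2 hz2
          exact hall t' (Or.inr k1) (hσ.mono (union_subset k2 hts))
        · obtain ⟨t', k1, k2⟩ := key σ hσ hts _ h1 hz1
          exact hall t' (Or.inl k1) (hσ.mono (union_subset k2 hts))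
      refine one_query hπ (hne z1) fun τ1 hs1 hP1 hd1 => ?_
      refine one_query hP1 (hne z2) fun τ2 hs2 hP2 hd2 => ?_
      exact absurd (hfin τ2 hP2 (ht1π.trans (hs1.trans hs2)) (hd1.mono hs2) hd2) id

end pm

section last

variable {Y K : Type} [Field K] {p : ℕ} [Fact p.Prime] [CharP K p] {P : PCI Y K} {U X : Type}
  [DecidableEq U] [DecidableEq X] [Fintype X] [Fintype U] {es : X → Finset U}

namespace Env

variable (E : Env P p es)

theorem last_zr (hφ : pmTaut p es ∈ E.S) (hκ0 : 1 ≤ E.κ 0) (hκm : Monotone E.κ)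
    (hne : ∀ x, (es x).Nonempty)
    (hB : 2 * E.δ + 10 * ((p + 3) * E.DD) ≤ P.B) : bF K (E.F (pmTaut p es)) ∈ P.Zr := by
  classical
  have hp : 1 < p := (Fact.out : p.Prime).one_lt
  set φ := pmTaut p es with hφd
  set D6 := (p + 3) * E.DD with hD6
  have hr : D6 = p * E.DD + 3 * E.DD := by rw [hD6]; ring
  have hNle : E.N ≤ E.DD := E.N_le _
  have hpNle : p * E.N ≤ E.DD := E.pN_le _
  have hN1 : 2 * E.N ≤ p * E.N := Nat.mul_le_mul_right _ (by omega)
  have hN2 : 2 * E.DD ≤ p * E.DD := Nat.mul_le_mul_right _ (by omega)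
  have h2p5 : (2 * p + 5) * E.N ≤ P.B := by
    have : (2 * p + 5) * E.N = 2 * (p * E.N) + 5 * E.N := by ring
    omega
  have h2p8 : (2 * p + 8) * E.DD ≤ P.B := by
    have : (2 * p + 8) * E.DD = 2 * (p * E.DD) + 8 * E.DD := by ring
    omega
  have hNN : 4 * (E.δ * E.hs) + 5 * (E.δ * E.hk) ≤ E.N := by
    unfold N
    have h5 : 5 * (E.δ * E.hk) ≤ (E.d + 5) * (E.δ * E.hk) := Nat.mul_le_mul_right _ (by omega)
    omega
  -- local values of the last line
  have hvl : ∀ T, E.ok (φ, T) → bF K (E.vl (φ, T) φ) ∈ P.Zr := by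
    intro T hok
    refine (E.Rm (φ, T)).split hok (E.deg_vl _ _) (fun y _ => E.W.sub y) (by omega) ?_
    intro σ hσ
    have hg1 := (E.Rm (φ, T)).degI (E.deg_vl (φ, T) φ) (some σ)
    refine (E.Rs (φ, T) σ φ).split ⟨hφ, hσ, subs_self _⟩ hg1 ?_ (by omega) ?_
    · intro y hy
      simp only [ne_eq, ite_eq_right_iff, Classical.not_imp] at hy
      exact E.leaf_sub hy.1
    intro π hπ
    have hg2 := (E.Rs (φ, T) σ φ).degI hg1 (some π)
    by_cases hpt : ∃ y, (fun y => if (E.Rs (φ, T) σ φ).lam y = some π then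
        (if (E.Rm (φ, T)).lam y = some σ then bF K (E.vl (φ, T) φ) y else 0) else 0) y ≠ 0
    · obtain ⟨y, hy⟩ := hpt
      simp only [ne_eq, ite_eq_right_iff, Classical.not_imp] at hy
      obtain ⟨h1, h2, h3⟩ := hy
      have hs1 := (E.Rs (φ, T) σ φ).sub y π h1 (E.leaf_sub h2)
      have hPP : PP es π := (E.W.pp y).mono hs1
      have hv : E.vl (φ, T) φ y = true := by
        by_contra hcon
        exact h3 (bF_false (by simpa using hcon))
      rw [E.vl_of h2] at hv
      unfold vs at hv
      rw [h1] at hv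
      have h4 := E.vo_spec hPP hπ
      rw [hv] at h4
      have hCt := pm_ct hκ0 hne (fun b hb => E.thmono (φ, T) σ hσ 0 _ (Nat.zero_le _)
        (E.lvd b (E.sc _ hφ hb))) h4
      refine ct_zr (W := E.W) (hCt hPP) _ _ hg2 ?_ (by omega)
      intro y hy
      simp only [ne_eq, ite_eq_right_iff, Classical.not_imp] at hy
      exact (E.Rs (φ, T) σ φ).sub y π hy.1 (E.leaf_sub hy.2.1)
    · push Not at hpt
      have : (fun y => if (E.Rs (φ, T) σ φ).lam y = some π then
        (if (E.Rm (φ, T)).lam y = some σ then bF K (E.vl (φ, T) φ) y else 0) else 0) = 0 :=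
        funext hpt
      rw [this]; exact Submodule.zero_mem _
  by_cases hb : E.base φ
  swap
  · have hFd := E.deg_F hφ
    refine E.cov_zr hφ hb hFd (by omega) ?_
    intro T hT
    have hc : E.ok (φ, T) := E.ok_nb hφ hT
    have hAd : bF K (E.am φ T) ∈ P.Deg E.DD := E.deg_am hφ hb T
    refine cover_zr (M := E.DD + E.N) (P.mul hAd hFd)
      [fun y => E.F φ y != E.vl (φ, T) φ y, E.vl (φ, T) φ] ?_ ?_ ?_
    · intro x hx
      simp only [List.mem_cons, List.not_mem_nil, or_false] at hx
      rcases hx with rfl | rfl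
      · have h1 : bF K (fun y => E.F φ y != E.vl (φ, T) φ y) ∈ P.Deg (E.DD + E.N) :=
          bF_comb (fun x y => x != y) hFd (E.deg_vl' _ _)
        refine ⟨h1, ?_⟩
        have h2 : bF K (E.am φ T) * bF K (E.F φ) * bF K (fun y => E.F φ y != E.vl (φ, T) φ y) =
            bF K (E.am φ T) * bF K (fun y => E.F φ y != E.vl (φ, T) φ y) * bF K (E.F φ) := by
          ring
        rw [h2]
        exact P.zmul (by omega) (P.mul hAd h1)
          (E.F_vl hφ hb hT (subs_self _) Subset.rfl h2p8) hFd
      · refine ⟨P.up (E.deg_vl' _ _) (by omega), ?_⟩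
        rw [mul_comm]
        exact P.zmul (by omega) (E.deg_vl' _ _) (hvl T hc) (P.mul hAd hFd)
    · simp only [List.length_cons, List.length_nil]; omega
    · intro y hy
      rw [Pi.mul_apply] at hy
      have h1 : E.F φ y = true := by
        by_contra hcon
        exact right_ne_zero_of_mul hy (bF_false (by simpa using hcon))
      by_contra hcon
      simp only [List.mem_cons, List.not_mem_nil, or_false, exists_eq_or_imp, exists_eq_left,
        not_or, Bool.not_eq_true, bne_eq_false_iff_eq] at hcon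
      rw [h1, hcon.2] at hcon
      exact Bool.noConfusion hcon.1
  have hFe : E.F φ = E.Fv φ := by funext y; exact E.F_base hb y
  rw [hFe]
  have hFd := E.deg_Fv hb
  refine E.sum_zr hφ hb hFd (by omega) ?_
  intro T hT
  have hc : E.ok (φ, T) := E.ok_base hφ hb hT
  have hAd : bF K (E.ac (φ, T) (wide E.w E.m φ)) ∈ P.Deg E.N := E.deg_ac' _ hb
  refine cover_zr (M := p * E.N + E.N) (P.mul hAd hFd)
    [fun y => E.Fv φ y != E.vl (φ, T) φ y, E.vl (φ, T) φ] ?_ ?_ ?_
  · intro x hx
    simp only [List.mem_cons, List.not_mem_nil, or_false] at hx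
    rcases hx with rfl | rfl
    · have h1 : bF K (fun y => E.Fv φ y != E.vl (φ, T) φ y) ∈ P.Deg (p * E.N + E.N) :=
        bF_comb (fun x y => x != y) hFd (E.deg_vl' _ _)
      refine ⟨h1, ?_⟩
      have h2 : bF K (E.ac (φ, T) (wide E.w E.m φ)) * bF K (E.Fv φ) *
          bF K (fun y => E.Fv φ y != E.vl (φ, T) φ y) =
          bF K (E.ac (φ, T) (wide E.w E.m φ)) *
          bF K (fun y => E.Fv φ y != E.vl (φ, T) φ y) * bF K (E.Fv φ) := by ring
      rw [h2]
      exact P.zmul (by omega) (P.mul hAd h1) (E.Fv_vl hc hb (subs_self _) h2p5) hFd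
    · refine ⟨P.up (E.deg_vl' _ _) (by omega), ?_⟩
      rw [mul_comm]
      exact P.zmul (by omega) (E.deg_vl' _ _) (hvl T hc) (P.mul hAd hFd)
  · simp only [List.length_cons, List.length_nil]; omega
  · intro y hy
    rw [Pi.mul_apply] at hy
    have h1 : E.Fv φ y = true := by
      by_contra hcon
      exact right_ne_zero_of_mul hy (bF_false (by simpa using hcon))
    by_contra hcon
    simp only [List.mem_cons, List.not_mem_nil, or_false, exists_eq_or_imp, exists_eq_left,
      not_or, Bool.not_eq_true, bne_eq_false_iff_eq] at hcon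
    rw [h1, hcon.2] at hcon
    exact Bool.noConfusion hcon.1

/-- there is no proof -/
theorem no_proof {pi : List (Fml p X)} (hpi : IsProof E.w pi) (hS : ∀ a ∈ pi, a ∈ E.S)
    (hφ : pmTaut p es ∈ pi) (hκ0 : 1 ≤ E.κ 0) (hκm : Monotone E.κ) (hne : ∀ x, (es x).Nonempty)
    (hB : 2 * E.δ + (2 * E.w + 10) * ((p + 3) * E.DD) ≤ P.B)
    (h1 : (1 : Y → K) ∉ P.Zr) : False := by
  apply h1
  have h2 := E.proof_zr hpi hS (by omega) _ hφ
  have h3 := E.last_zr (hS _ hφ) hκ0 hκm hne (le_trans (Nat.add_le_add_left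
    (Nat.mul_le_mul_right _ (by omega)) _) hB)
  have h4 : (1 : Y → K) = bF K (fun y => !(E.F (pmTaut p es) y)) +
      bF K (E.F (pmTaut p es)) := by
    funext y
    rw [Pi.add_apply, Pi.one_apply, bF_apply, bF_apply]
    cases E.F (pmTaut p es) y <;> simp
  rw [h4]
  exact Submodule.add_mem _ h2 h3

end Env

end last

end Pool.Agent.Work.MP_c04246_lc.H
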