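import Mathlib
import Pool.Agent.Work.MP_c04246_lc.HDefs

set_option autoImplicit false

namespace Pool.Agent.Work.MP_c04246_lc

/-- `G` is a graph with the vertex set `Fin k` and `n` edges (loops and parallel edges are allowed).
Each edge `e` is replaced with `M` points `(e, 0), ..., (e, M-1)`. The hyperedges are the pairs
`(v, S)` where `v` is a vertex and `S` is a set of `q` points of edges incident with `v`. -/
abbrev HE (q : ℕ) {n k : ℕ} (G : Fin n → Fin k × Fin k) (M : ℕ) : Type :=
  {x : Fin k × Finset (Fin n × Fin M) //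
    x.2.card = q ∧ ∀ u ∈ x.2, (G u.1).1 = x.1 ∨ (G u.1).2 = x.1}

/-- the set of points of a hyperedge -/
def HE.pts {q n k : ℕ} {G : Fin n → Fin k × Fin k} {M : ℕ} (x : HE q G M) :
    Finset (Fin n × Fin M) := x.1.2

/-- The `n * M` points cannot be partitioned into hyperedges. Each hyperedge is a variable. -/
noncomputable def graphTaut (p q : ℕ) {n k : ℕ} (G : Fin n → Fin k × Fin k) (M : ℕ) :
    Fml p (HE q G M) := pmTaut p HE.pts

end Pool.Agent.Work.MP_c04246_lc
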