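import Mathlib

set_option autoImplicit false
set_option linter.unusedSectionVars false
set_option linter.unusedSimpArgs false
set_option linter.unusedVariables false

namespace Pool.Agent.Work.MP_c04246_lc.X

open Finset

/-- number of nonzero coordinates -/
def sc {ι M : Type*} [Fintype ι] [Zero M] [DecidableEq M] (a : ι → M) : ℕ :=
  (univ.filter (fun i => a i ≠ 0)).card

section basic

variable {ι M : Type*} [Fintype ι] [AddCommGroup M] [DecidableEq M]

lemma sc_zero : sc (0 : ι → M) = 0 := by simp [sc]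

lemma sc_add_le [DecidableEq ι] (a b : ι → M) : sc (a + b) ≤ sc a + sc b := by
  unfold sc
  refine le_trans (card_le_card ?_) (card_union_le _ _)
  intro i hi
  simp only [mem_filter, mem_univ, true_and, Pi.add_apply, mem_union] at *
  by_contra h
  push Not at h
  exact hi (by rw [h.1, h.2, add_zero])

lemma sc_neg (a : ι → M) : sc (-a) = sc a := by
  unfold sc; congr 1; ext i; simp

lemma sc_sub_le [DecidableEq ι] (a b : ι → M) : sc (a - b) ≤ sc a + sc b := by
  rw [sub_eq_add_neg]
  exact (sc_add_le a (-b)).trans (by rw [sc_neg])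

lemma sc_single_le [DecidableEq ι] (i : ι) (x : M) : sc (Pi.single i x : ι → M) ≤ 1 := by
  unfold sc
  have : univ.filter (fun j => (Pi.single i x : ι → M) j ≠ 0) ⊆ {i} := by
    intro j hj
    rw [mem_filter] at hj
    rw [mem_singleton]
    by_contra hne
    exact hj.2 (Pi.single_eq_of_ne hne _)
  exact (card_le_card this).trans (by simp)

end basic

section PC

variable {J R : Type} [Fintype J] [DecidableEq J] [Fintype R] [DecidableEq R] {q : ℕ} [NeZero q]
  {K : Type} [Field K]

/-- expansion of the system: combinations of at most `2 * r0` rows have large support -/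
def Expd (cob : (R → ZMod q) →ₗ[ZMod q] (J → ZMod q)) (e r0 : ℕ) : Prop :=
  ∀ k, sc k ≤ 2 * r0 → e * sc k ≤ sc (cob k)

variable {cob : (R → ZMod q) →ₗ[ZMod q] (J → ZMod q)} {e r0 B : ℕ}

lemma iso (hE : Expd cob e r0) (he : 1 ≤ e) (hB : 2 * B ≤ e * r0) (k : R → ZMod q)
    (h2 : sc k ≤ 2 * r0) (hc : sc (cob k) ≤ 2 * B) : sc k ≤ r0 := by
  have h1 := hE k h2
  exact Nat.le_of_mul_le_mul_left (h1.trans (hc.trans hB)) he

variable (ψ : AddChar (ZMod q) K)

lemma addChar_sum {ι : Type*} (s : Finset ι) (f : ι → ZMod q) :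
    ψ (∑ i ∈ s, f i) = ∏ i ∈ s, ψ (f i) := by
  classical
  induction s using Finset.induction_on with
  | empty => simp
  | insert a s ha ih => rw [sum_insert ha, prod_insert ha, AddChar.map_add_eq_mul, ih]

/-- characters -/
def chr (a y : J → ZMod q) : K := ψ (∑ e, a e * y e)

lemma chr_add (a b y : J → ZMod q) : chr ψ (a + b) y = chr ψ a y * chr ψ b y := by
  unfold chr
  rw [← AddChar.map_add_eq_mul, ← sum_add_distrib]
  congr 1
  exact sum_congr rfl fun e _ => by simp [add_mul]

lemma chr_zero (y : J → ZMod q) : chr ψ 0 y = 1 := by simp [chr]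

lemma sum_chr (hψ : ψ.IsPrimitive) (a : J → ZMod q) :
    ∑ y : J → ZMod q, chr ψ a y = if a = 0 then (Fintype.card (J → ZMod q) : K) else 0 := by
  split_ifs with h
  · subst h
    simp [chr_zero]
  · have hne : ∃ e, a e ≠ 0 := by
      by_contra hcon
      push Not at hcon
      exact h (funext hcon)
    obtain ⟨e, he⟩ := hne
    have key : ∀ y : J → ZMod q, chr ψ a y = ∏ e, ψ (a e * y e) := by
      intro y
      unfold chr
      rw [addChar_sum]
    simp_rw [key]
    have := (Finset.prod_univ_sum (fun _ : J => (univ : Finset (ZMod q)))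
      (fun e x => ψ (a e * x))).symm
    rw [Fintype.piFinset_univ] at this
    rw [this]
    apply prod_eq_zero (mem_univ e)
    have h2 := AddChar.sum_mulShift (a e) hψ
    simp only [he, if_false, Nat.cast_zero] at h2
    rw [← h2]
    exact sum_congr rfl fun x _ => by rw [mul_comm]

/-- small row labelings -/
def Small (R : Type) [Fintype R] [DecidableEq R] (q r0 : ℕ) [NeZero q] : Finset (R → ZMod q) :=
  univ.filter (fun k => sc k ≤ r0)

lemma mem_Small {k : R → ZMod q} : k ∈ Small R q r0 ↔ sc k ≤ r0 := by simp [Small]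

/-- phase -/
def ph (c : R → ZMod q) (k : R → ZMod q) : K := ψ (∑ v, k v * c v)

lemma ph_add (c k l : R → ZMod q) : ph ψ c (k + l) = ph ψ c k * ph ψ c l := by
  unfold ph
  rw [← AddChar.map_add_eq_mul, ← sum_add_distrib]
  congr 1
  exact sum_congr rfl fun e _ => by simp [add_mul]

lemma ph_zero (c : R → ZMod q) : ph ψ c 0 = 1 := by simp [ph]

/-- the functional -/
noncomputable def Lf (cob : (R → ZMod q) →ₗ[ZMod q] (J → ZMod q)) (r0 : ℕ) (c : R → ZMod q)
    (b : J → ZMod q) (f : (J → ZMod q) → K) : K :=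
  (∑ y, f y * (chr ψ (-b) y * ∑ k ∈ Small R q r0, ph ψ c k * chr ψ (-cob k) y)) /
    (Fintype.card (J → ZMod q) : K)

variable {ψ} {c : R → ZMod q}

lemma Lf_add (b : J → ZMod q) (f g : (J → ZMod q) → K) :
    Lf ψ cob r0 c b (f + g) = Lf ψ cob r0 c b f + Lf ψ cob r0 c b g := by
  unfold Lf
  rw [← add_div, ← sum_add_distrib]
  congr 1
  exact sum_congr rfl fun y _ => by simp [add_mul]

lemma Lf_smul (b : J → ZMod q) (r : K) (f : (J → ZMod q) → K) :
    Lf ψ cob r0 c b (r • f) = r * Lf ψ cob r0 c b f := by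
  unfold Lf
  rw [← mul_div_assoc, mul_sum]
  congr 1
  exact sum_congr rfl fun y _ => by simp [mul_assoc]

lemma Lf_zero (b : J → ZMod q) : Lf ψ cob r0 c b (0 : (J → ZMod q) → K) = 0 := by
  unfold Lf; simp

lemma Lf_mul_chr (b a : J → ZMod q) (f : (J → ZMod q) → K) :
    Lf ψ cob r0 c b (f * chr ψ a) = Lf ψ cob r0 c (b - a) f := by
  unfold Lf
  congr 1
  refine sum_congr rfl fun y _ => ?_
  have : (-(b - a)) = a + -b := by abel
  rw [this, chr_add, Pi.mul_apply]
  ring

lemma Lf_chr (hψ : ψ.IsPrimitive) (hq : (q : K) ≠ 0) (b a : J → ZMod q) :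
    Lf ψ cob r0 c b (chr ψ a) =
      ∑ k ∈ (Small R q r0).filter (fun k => cob k = a - b), ph ψ c k := by
  unfold Lf
  have hcard : (Fintype.card (J → ZMod q) : K) ≠ 0 := by
    have : Fintype.card (J → ZMod q) = q ^ (Fintype.card J) := by
      simp [ZMod.card]
    rw [this]
    push_cast
    exact pow_ne_zero _ hq
  have h1 : ∀ y : J → ZMod q,
      chr ψ a y * (chr ψ (-b) y * ∑ k ∈ Small R q r0, ph ψ c k * chr ψ (-cob k) y)
      = ∑ k ∈ Small R q r0, ph ψ c k * chr ψ (a - b - cob k) y := by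
    intro y
    rw [mul_sum, mul_sum]
    refine sum_congr rfl fun k _ => ?_
    rw [sub_eq_add_neg, chr_add, sub_eq_add_neg, chr_add]
    ring
  simp_rw [h1]
  rw [sum_comm]
  simp_rw [← mul_sum, sum_chr ψ hψ]
  rw [sum_filter, sum_div]
  refine sum_congr rfl fun k _ => ?_
  by_cases h : cob k = a - b
  · have h' : a - b - cob k = 0 := by rw [h]; abel
    rw [if_pos h', if_pos h]
    field_simp
  · have h' : ¬ (a - b - cob k = 0) := fun h0 => h (sub_eq_zero.mp h0).symm
    rw [if_neg h', if_neg h]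
    simp

/-- transport along a small combination of rows -/
lemma Lf_transport (hψ : ψ.IsPrimitive) (hq : (q : K) ≠ 0) (hE : Expd cob e r0) (he : 1 ≤ e)
    (hB : 2 * B ≤ e * r0) (b a : J → ZMod q)
    (k0 : R → ZMod q) (hk0 : sc k0 ≤ r0)
    (h1 : sc (a - b) ≤ 2 * B) (h2 : sc (a - (b + cob k0)) ≤ 2 * B) :
    Lf ψ cob r0 c b (chr ψ a) = ph ψ c k0 * Lf ψ cob r0 c (b + cob k0) (chr ψ a) := by
  rw [Lf_chr hψ hq, Lf_chr hψ hq, mul_sum]
  refine sum_nbij' (fun k => k - k0) (fun k => k + k0) ?_ ?_ ?_ ?_ ?_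
  · intro k hk
    rw [mem_filter, mem_Small] at hk ⊢
    have hcob : cob (k - k0) = a - (b + cob k0) := by
      rw [map_sub, hk.2]; abel
    refine ⟨iso hE he hB _ ?_ ?_, hcob⟩
    · have := sc_sub_le k k0; omega
    · rw [hcob]; exact h2
  · intro k hk
    rw [mem_filter, mem_Small] at hk ⊢
    have hcob : cob (k + k0) = a - b := by
      rw [map_add, hk.2]; abel
    refine ⟨iso hE he hB _ ?_ ?_, hcob⟩
    · have := sc_add_le k k0; omega
    · rw [hcob]; exact h1
  · intro k _; simp
  · intro k _; simp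
  · intro k _
    rw [← ph_add]; congr 1; abel

variable (ψ) in
/-- functions of degree at most `D` -/
def Deg (D : ℕ) (f : (J → ZMod q) → K) : Prop :=
  f ∈ Submodule.span K {g : (J → ZMod q) → K | ∃ a : J → ZMod q, sc a ≤ D ∧ g = chr ψ a}

variable (ψ) in
lemma Deg.of_chr {D : ℕ} {a : J → ZMod q} (h : sc a ≤ D) : Deg ψ D (chr ψ a) :=
  Submodule.subset_span ⟨a, h, rfl⟩

lemma Deg.mono {D D' : ℕ} (h : D ≤ D') {f : (J → ZMod q) → K} (hf : Deg ψ D f) : Deg ψ D' f := by
  refine Submodule.span_mono ?_ hf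
  rintro g ⟨a, ha, hg⟩
  exact ⟨a, ha.trans h, hg⟩

lemma Deg.add {D : ℕ} {f g : (J → ZMod q) → K} (hf : Deg ψ D f) (hg : Deg ψ D g) :
    Deg ψ D (f + g) := Submodule.add_mem _ hf hg

lemma Deg.sub {D : ℕ} {f g : (J → ZMod q) → K} (hf : Deg ψ D f) (hg : Deg ψ D g) :
    Deg ψ D (f - g) := Submodule.sub_mem _ hf hg

lemma Deg.smul {D : ℕ} (r : K) {f : (J → ZMod q) → K} (hf : Deg ψ D f) :
    Deg ψ D (r • f) := Submodule.smul_mem _ _ hf

lemma Deg.zero {D : ℕ} : Deg ψ D (0 : (J → ZMod q) → K) := Submodule.zero_mem _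

lemma Deg.one {D : ℕ} : Deg ψ D (1 : (J → ZMod q) → K) := by
  have : (1 : (J → ZMod q) → K) = chr ψ 0 := by
    funext y; simp [chr_zero]
  rw [this]
  exact Deg.of_chr ψ (by rw [sc_zero]; exact Nat.zero_le _)

lemma Deg.const {D : ℕ} (r : K) : Deg ψ D (fun _ : J → ZMod q => r) := by
  have : (fun _ : J → ZMod q => r) = r • (1 : (J → ZMod q) → K) := by
    funext y; simp
  rw [this]; exact Deg.one.smul r

lemma Deg.sum {D : ℕ} {ι : Type*} (s : Finset ι) (f : ι → (J → ZMod q) → K)
    (h : ∀ i ∈ s, Deg ψ D (f i)) : Deg ψ D (∑ i ∈ s, f i) := Submodule.sum_mem _ h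

lemma Deg.mul {D D' : ℕ} {f g : (J → ZMod q) → K} (hf : Deg ψ D f) (hg : Deg ψ D' g) :
    Deg ψ (D + D') (f * g) := by
  unfold Deg at hf hg
  induction hf using Submodule.span_induction with
  | mem x hx =>
    obtain ⟨a, ha, rfl⟩ := hx
    induction hg using Submodule.span_induction with
    | mem y hy =>
      obtain ⟨b, hb, rfl⟩ := hy
      have : chr ψ a * chr ψ b = chr ψ (a + b) := by
        funext z; simp [chr_add]
      rw [this]
      exact Deg.of_chr ψ ((sc_add_le a b).trans (by omega))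
    | zero => rw [mul_zero]; exact Deg.zero
    | add x y _ _ h1 h2 => rw [mul_add]; exact h1.add h2
    | smul r x _ h1 => rw [mul_smul_comm]; exact h1.smul r
  | zero => rw [zero_mul]; exact Deg.zero
  | add x y _ _ h1 h2 => rw [add_mul]; exact h1.add h2
  | smul r x _ h1 => rw [smul_mul_assoc]; exact h1.smul r

lemma Deg.pow {D : ℕ} {f : (J → ZMod q) → K} (hf : Deg ψ D f) (n : ℕ) :
    Deg ψ (n * D) (f ^ n) := by
  induction n with
  | zero => rw [pow_zero]; exact Deg.one
  | succ n ih =>
    rw [pow_succ]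
    exact (ih.mul hf).mono (by rw [Nat.succ_mul])

lemma Deg.prod {D : ℕ} {ι : Type*} (s : Finset ι) (f : ι → (J → ZMod q) → K)
    (h : ∀ i ∈ s, Deg ψ D (f i)) : Deg ψ (s.card * D) (∏ i ∈ s, f i) := by
  classical
  induction s using Finset.induction_on with
  | empty => simpa using Deg.one
  | insert a s ha ih =>
    rw [prod_insert ha, card_insert_of_notMem ha]
    have h1 := (h a (mem_insert_self a s)).mul (ih fun i hi => h i (mem_insert_of_mem hi))
    exact h1.mono (by ring_nf; rfl)

lemma Deg.prod' {ι : Type*} (s : Finset ι) (D : ι → ℕ) (f : ι → (J → ZMod q) → K)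
    (h : ∀ i ∈ s, Deg ψ (D i) (f i)) : Deg ψ (∑ i ∈ s, D i) (∏ i ∈ s, f i) := by
  classical
  induction s using Finset.induction_on with
  | empty => simpa using Deg.one
  | insert a s ha ih =>
    rw [prod_insert ha, sum_insert ha]
    exact (h a (mem_insert_self a s)).mul (ih fun i hi => h i (mem_insert_of_mem hi))

variable (ψ cob r0 c) in
/-- functions killed by all functionals indexed by characters of weight at most `B` -/
def Zr (B : ℕ) (f : (J → ZMod q) → K) : Prop :=
  ∀ b : J → ZMod q, sc b ≤ B → Lf ψ cob r0 c b f = 0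

lemma Zr.add {f g : (J → ZMod q) → K} (hf : Zr cob r0 ψ c B f) (hg : Zr cob r0 ψ c B g) :
    Zr cob r0 ψ c B (f + g) := fun b hb => by rw [Lf_add, hf b hb, hg b hb, add_zero]

lemma Zr.smul (r : K) {f : (J → ZMod q) → K} (hf : Zr cob r0 ψ c B f) :
    Zr cob r0 ψ c B (r • f) := fun b hb => by rw [Lf_smul, hf b hb, mul_zero]

lemma Zr.zero : Zr cob r0 ψ c B (0 : (J → ZMod q) → K) := fun b _ => Lf_zero b

lemma Zr.sub {f g : (J → ZMod q) → K} (hf : Zr cob r0 ψ c B f) (hg : Zr cob r0 ψ c B g) :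
    Zr cob r0 ψ c B (f - g) := by
  have : f - g = f + (-1 : K) • g := by
    funext y; simp [sub_eq_add_neg]
  rw [this]; exact hf.add (hg.smul _)

lemma Zr.sum {ι : Type*} (s : Finset ι) (f : ι → (J → ZMod q) → K)
    (h : ∀ i ∈ s, Zr cob r0 ψ c B (f i)) : Zr cob r0 ψ c B (∑ i ∈ s, f i) := by
  classical
  induction s using Finset.induction_on with
  | empty => simpa using Zr.zero
  | insert a s ha ih =>
    rw [sum_insert ha]
    exact (h a (mem_insert_self a s)).add (ih fun i hi => h i (mem_insert_of_mem hi))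

/-- key closure property: multiplying an element of the low degree ideal by a function of low
degree stays in the ideal -/
lemma Zr.mul (hψ : ψ.IsPrimitive) (hq : (q : K) ≠ 0) (hE : Expd cob e r0) (he : 1 ≤ e)
    (hB : 2 * B ≤ e * r0) {D D' : ℕ}
    (hD : D + D' ≤ B) {f g : (J → ZMod q) → K} (hfD : Deg ψ D f) (hf : Zr cob r0 ψ c B f)
    (hg : Deg ψ D' g) : Zr cob r0 ψ c B (f * g) := by
  unfold Deg at hg
  induction hg using Submodule.span_induction with
  | mem x hx =>
    obtain ⟨a, ha, rfl⟩ := hx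
    intro b hb
    rw [Lf_mul_chr]
    by_cases hex : ∃ k0 : R → ZMod q, sc k0 ≤ r0 ∧ sc ((b - a) + cob k0) ≤ D
    · obtain ⟨k0, hk0, hk0D⟩ := hex
      have hbase : Lf ψ cob r0 c ((b - a) + cob k0) f = 0 := hf _ (hk0D.trans (by omega))
      have htr : Lf ψ cob r0 c (b - a) f = ph ψ c k0 * Lf ψ cob r0 c ((b - a) + cob k0) f := by
        clear hbase hf
        unfold Deg at hfD
        induction hfD using Submodule.span_induction with
        | mem x hx =>
          obtain ⟨a', ha', rfl⟩ := hx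
          refine Lf_transport hψ hq hE he hB _ _ k0 hk0 ?_ ?_
          · have h1 := sc_sub_le a' (b - a)
            have h2 := sc_sub_le b a
            omega
          · have h1 := sc_sub_le a' ((b - a) + cob k0)
            omega
        | zero => simp [Lf_zero]
        | add x y _ _ h1 h2 => rw [Lf_add, Lf_add, h1, h2]; ring
        | smul r x _ h1 => rw [Lf_smul, Lf_smul, h1]; ring
      rw [htr, hbase, mul_zero]
    · push Not at hex
      clear hf
      unfold Deg at hfD
      induction hfD using Submodule.span_induction with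
      | mem x hx =>
        obtain ⟨a', ha', rfl⟩ := hx
        rw [Lf_chr hψ hq]
        apply sum_eq_zero
        intro k hk
        rw [mem_filter, mem_Small] at hk
        exfalso
        have := hex k hk.1
        rw [hk.2, add_sub_cancel] at this
        omega
      | zero => exact Lf_zero _
      | add x y _ _ h1 h2 => rw [Lf_add, h1, h2, add_zero]
      | smul r x _ h1 => rw [Lf_smul, h1, mul_zero]
  | zero => rw [mul_zero]; exact Zr.zero
  | add x y _ _ h1 h2 => rw [mul_add]; exact h1.add h2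
  | smul r x _ h1 => rw [mul_smul_comm]; exact h1.smul r

/-- the constant function one is not in the ideal -/
lemma not_Zr_one (hψ : ψ.IsPrimitive) (hq : (q : K) ≠ 0) (hE : Expd cob e r0) (he : 1 ≤ e) :
    ¬ Zr cob r0 ψ c B (1 : (J → ZMod q) → K) := by
  intro h
  have h0 := h 0 (by rw [sc_zero]; exact Nat.zero_le _)
  have h1 : (1 : (J → ZMod q) → K) = chr ψ 0 := by
    funext y; simp [chr_zero]
  rw [h1, Lf_chr hψ hq] at h0
  have h2 : (Small R q r0).filter (fun k => cob k = (0 : J → ZMod q) - 0) = {0} := by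
    ext k
    rw [mem_filter, mem_Small, sub_zero, mem_singleton]
    constructor
    · rintro ⟨hk, hk'⟩
      have h3 := hE k (by omega)
      rw [hk', sc_zero] at h3
      have h4 : sc k = 0 := by
        rcases Nat.eq_zero_or_pos (sc k) with h | h
        · exact h
        · have := Nat.mul_pos he h; omega
      unfold sc at h4
      rw [card_eq_zero, filter_eq_empty_iff] at h4
      funext i
      have := h4 (mem_univ i)
      push Not at this
      exact this
    · rintro rfl
      exact ⟨by rw [sc_zero]; exact Nat.zero_le _, map_zero _⟩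
  rw [h2, sum_singleton, ph_zero] at h0
  exact one_ne_zero h0

/-- value of a row -/
def dv (cob : (R → ZMod q) →ₗ[ZMod q] (J → ZMod q)) (y : J → ZMod q) (v : R) : ZMod q :=
  ∑ e, cob (Pi.single v 1) e * y e

/-- character of a multiple of a single row -/
lemma chr_cob_single (v : R) (j : ZMod q) (y : J → ZMod q) :
    chr ψ (cob (Pi.single v j)) y = ψ (j * dv cob y v) := by
  unfold chr dv
  congr 1
  have h1 : (Pi.single v j : R → ZMod q) = j • Pi.single v 1 := by
    rw [← Pi.single_smul]; simp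
  rw [h1, map_smul, mul_sum]
  exact sum_congr rfl fun e _ => by rw [Pi.smul_apply, smul_eq_mul, mul_assoc]

/-- indicator that the constraint at `v` is violated -/
def viol (K : Type) [Field K] (cob : (R → ZMod q) →ₗ[ZMod q] (J → ZMod q)) (c : R → ZMod q)
    (v : R) (y : J → ZMod q) : K :=
  if dv cob y v = c v then 0 else 1

lemma viol_eq (hψ : ψ.IsPrimitive) (hq : (q : K) ≠ 0) (v : R) :
    viol K cob c v = ∑ j : ZMod q, ((q : K)⁻¹) •
      (1 - ψ (-(j * c v)) • chr ψ (cob (Pi.single v j))) := by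
  funext y
  simp only [viol, Finset.sum_apply, Pi.smul_apply, Pi.sub_apply, Pi.one_apply, smul_eq_mul]
  have h1 : ∀ j : ZMod q, ψ (-(j * c v)) * chr ψ (cob (Pi.single v j)) y
      = ψ (j * (dv cob y v - c v)) := by
    intro j
    rw [chr_cob_single, ← AddChar.map_add_eq_mul]
    congr 1; ring
  simp_rw [h1]
  rw [← mul_sum, sum_sub_distrib, AddChar.sum_mulShift _ hψ]
  simp only [sum_const, card_univ, ZMod.card, nsmul_eq_mul, mul_one]
  by_cases h : dv cob y v = c v
  · rw [if_pos h, if_pos (by rw [h, sub_self]), sub_self, mul_zero]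
  · rw [if_neg h, if_neg (by rwa [sub_eq_zero])]
    simp [hq]

lemma sc_cob_single {w : ℕ} (v : R) (hw : sc (cob (Pi.single v 1)) ≤ w) (j : ZMod q) :
    sc (cob (Pi.single v j)) ≤ w := by
  have h1 : (Pi.single v j : R → ZMod q) = j • Pi.single v 1 := by
    rw [← Pi.single_smul]; simp
  rw [h1, map_smul]
  refine le_trans (card_le_card ?_) hw
  intro i hi
  rw [mem_filter] at hi ⊢
  refine ⟨mem_univ _, fun h => hi.2 ?_⟩
  rw [Pi.smul_apply, h, smul_zero]

lemma Deg.of_viol (hψ : ψ.IsPrimitive) (hq : (q : K) ≠ 0) {w : ℕ} (v : R)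
    (hw : sc (cob (Pi.single v 1)) ≤ w) : Deg ψ w (viol K cob c v) := by
  rw [viol_eq hψ hq]
  refine Deg.sum _ _ fun j _ => Deg.smul _ (Deg.sub Deg.one (Deg.smul _ (Deg.of_chr ψ ?_)))
  exact sc_cob_single v hw j

/-- violation indicators are in the ideal -/
lemma Zr.of_viol (hψ : ψ.IsPrimitive) (hq : (q : K) ≠ 0) (hE : Expd cob e r0) (he : 1 ≤ e)
    (hB : 2 * B ≤ e * r0) (hr0 : 1 ≤ r0) {w : ℕ} (hwB : w ≤ B) (v : R)
    (hw : sc (cob (Pi.single v 1)) ≤ w) : Zr cob r0 ψ c B (viol K cob c v) := by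
  rw [viol_eq hψ hq]
  refine Zr.sum _ _ fun j _ => Zr.smul _ ?_
  intro b hb
  have h0 : (1 : (J → ZMod q) → K) = chr ψ 0 := by
    funext y; simp [chr_zero]
  have h1 : (1 - ψ (-(j * c v)) • chr ψ (cob (Pi.single v j)) : (J → ZMod q) → K)
      = chr ψ 0 + (-ψ (-(j * c v))) • chr ψ (cob (Pi.single v j)) := by
    rw [h0, neg_smul, sub_eq_add_neg]
  rw [h1, Lf_add, Lf_smul, Lf_chr hψ hq, Lf_chr hψ hq]
  have h2 : ∑ k ∈ (Small R q r0).filter (fun k => cob k = cob (Pi.single v j) - b), ph ψ c k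
      = ψ (j * c v) *
        ∑ k ∈ (Small R q r0).filter (fun k => cob k = (0 : J → ZMod q) - b), ph ψ c k := by
    rw [mul_sum]
    have hsingle : sc (Pi.single v j : R → ZMod q) ≤ 1 := sc_single_le v j
    refine sum_nbij' (fun k => k - Pi.single v j) (fun k => k + Pi.single v j) ?_ ?_ ?_ ?_ ?_
    · intro k hk
      rw [mem_filter, mem_Small] at hk ⊢
      have hcob : cob (k - Pi.single v j) = (0 : J → ZMod q) - b := by
        rw [map_sub, hk.2]; abel
      refine ⟨iso hE he hB _ ?_ ?_, hcob⟩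
      · have := sc_sub_le k (Pi.single v j); omega
      · rw [hcob]
        have := sc_sub_le (0 : J → ZMod q) b
        rw [sc_zero] at this
        omega
    · intro k hk
      rw [mem_filter, mem_Small] at hk ⊢
      have hcob : cob (k + Pi.single v j) = cob (Pi.single v j) - b := by
        rw [map_add, hk.2]; abel
      refine ⟨iso hE he hB _ ?_ ?_, hcob⟩
      · have := sc_add_le k (Pi.single v j); omega
      · rw [hcob]
        have := sc_sub_le (cob (Pi.single v j)) b
        have := sc_cob_single v hw j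
        omega
    · intro k _; simp
    · intro k _; simp
    · intro k _
      have h3 : k = Pi.single v j + (k - Pi.single v j) := by abel
      conv_lhs => rw [h3]
      rw [ph_add]
      congr 1
      unfold ph
      congr 1
      simp [Pi.single_apply, ite_mul]
  rw [h2]
  have h3 : ψ (-(j * c v)) * ψ (j * c v) = 1 := by
    rw [← AddChar.map_add_eq_mul]; simp
  linear_combination
    (-(∑ k ∈ (Small R q r0).filter (fun k => cob k = (0 : J → ZMod q) - b), ph ψ c k)) * h3

/-- `f` depends only on the coordinates in `A` -/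
def Junta {Z : Type*} (A : Finset J) (f : (J → ZMod q) → Z) : Prop :=
  ∀ y y' : J → ZMod q, (∀ e ∈ A, y e = y' e) → f y = f y'

lemma chr_single (e : J) (i : ZMod q) (y : J → ZMod q) :
    chr ψ (Pi.single e i) y = ψ (i * y e) := by
  unfold chr
  congr 1
  rw [sum_eq_single e]
  · simp
  · intro e' _ he'
    rw [Pi.single_eq_of_ne he', zero_mul]
  · intro h; exact absurd (mem_univ e) h

lemma Deg.of_ind (hψ : ψ.IsPrimitive) (hq : (q : K) ≠ 0) (e : J) (j : ZMod q) :
    Deg ψ 1 (fun y : J → ZMod q => if y e = j then (1 : K) else 0) := by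
  have h1 : (fun y : J → ZMod q => if y e = j then (1 : K) else 0) =
      ∑ i : ZMod q, ((q : K)⁻¹ * ψ (-(i * j))) • chr ψ (Pi.single e i) := by
    funext y
    simp only [Finset.sum_apply, Pi.smul_apply, smul_eq_mul]
    have h1 : ∀ i : ZMod q, (q : K)⁻¹ * ψ (-(i * j)) * chr ψ (Pi.single e i) y
        = (q : K)⁻¹ * ψ (i * (y e - j)) := by
      intro i
      rw [chr_single, mul_assoc, ← AddChar.map_add_eq_mul]
      congr 2; ring
    simp_rw [h1]
    rw [← mul_sum, AddChar.sum_mulShift _ hψ]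
    by_cases h : y e = j
    · rw [if_pos h, if_pos (by rw [h, sub_self]), ZMod.card, inv_mul_cancel₀ hq]
    · rw [if_neg h, if_neg (by rwa [sub_eq_zero])]
      simp
  rw [h1]
  refine Deg.sum _ _ fun i _ => Deg.smul _ (Deg.of_chr ψ ?_)
  exact sc_single_le e i

/-- querying one coordinate -/
lemma Deg.of_query (hψ : ψ.IsPrimitive) (hq : (q : K) ≠ 0) {D : ℕ} (e : J)
    (f : (J → ZMod q) → K) (g : ZMod q → (J → ZMod q) → K) (hg : ∀ j, Deg ψ D (g j))
    (h : ∀ y, f y = g (y e) y) : Deg ψ (D + 1) f := by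
  have h1 : f = ∑ j : ZMod q, (fun y : J → ZMod q => if y e = j then (1 : K) else 0) * g j := by
    funext y
    simp only [Finset.sum_apply, Pi.mul_apply, ite_mul, one_mul, zero_mul]
    rw [sum_ite_eq]
    simp [h y]
  rw [h1]
  refine Deg.sum _ _ fun j _ => ?_
  rw [add_comm]
  exact Deg.mul (Deg.of_ind hψ hq e j) (hg j)

lemma Deg.of_junta (hψ : ψ.IsPrimitive) (hq : (q : K) ≠ 0) (A : Finset J) :
    ∀ f : (J → ZMod q) → K, Junta A f → Deg ψ A.card f := by
  induction A using Finset.induction_on with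
  | empty =>
    intro f hf
    have : f = fun _ => f 0 := by
      funext y
      exact hf y 0 (by simp)
    rw [this]
    exact Deg.const _
  | insert e A he ih =>
    intro f hf
    rw [card_insert_of_notMem he]
    refine Deg.of_query hψ hq e f (fun j y => f (Function.update y e j)) (fun j => ih _ ?_) ?_
    · intro y y' hyy
      apply hf
      intro e' he'
      by_cases h : e' = e
      · subst h; simp
      · rw [Function.update_of_ne h, Function.update_of_ne h]
        exact hyy e' ((mem_insert.mp he').resolve_left h)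
    · intro y
      rw [Function.update_eq_self]

/-- products of functions congruent to one -/
lemma Zr.one_sub_prod (hψ : ψ.IsPrimitive) (hq : (q : K) ≠ 0) (hE : Expd cob e r0) (he : 1 ≤ e)
    (hB : 2 * B ≤ e * r0) {M : ℕ}
    {ι : Type*} (s : Finset ι) (z : ι → (J → ZMod q) → K) (hD : ∀ i ∈ s, Deg ψ M (z i))
    (hZ : ∀ i ∈ s, Zr cob r0 ψ c B (z i)) (hcard : s.card * M ≤ B) :
    Zr cob r0 ψ c B (1 - ∏ i ∈ s, (1 - z i)) ∧ Deg ψ (s.card * M) (1 - ∏ i ∈ s, (1 - z i)) := by
  classical
  induction s using Finset.induction_on with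
  | empty =>
    simp only [prod_empty, sub_self]
    exact ⟨Zr.zero, Deg.zero⟩
  | insert a s ha ih =>
    rw [card_insert_of_notMem ha] at hcard ⊢
    have hle : s.card * M ≤ (s.card + 1) * M := Nat.mul_le_mul_right _ (by omega)
    obtain ⟨h1, h2⟩ := ih (fun i hi => hD i (mem_insert_of_mem hi))
      (fun i hi => hZ i (mem_insert_of_mem hi)) (hle.trans hcard)
    have ha1 := hD a (mem_insert_self a s)
    have ha2 := hZ a (mem_insert_self a s)
    rw [prod_insert ha]
    have heq : (1 - (1 - z a) * ∏ i ∈ s, (1 - z i) : (J → ZMod q) → K)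
        = z a + ((1 - ∏ i ∈ s, (1 - z i)) - z a * (1 - ∏ i ∈ s, (1 - z i))) := by ring
    rw [heq]
    have hsum : M + s.card * M = (s.card + 1) * M := by ring
    constructor
    · exact ha2.add (h1.sub (Zr.mul hψ hq hE he hB (by rw [hsum]; exact hcard) ha1 ha2 h2))
    · refine (ha1.mono ?_).add ((h2.mono hle).sub ((ha1.mul h2).mono (le_of_eq hsum)))
      nlinarith [Nat.zero_le (s.card * M)]

/-- one step of a derivation: if `g` vanishes wherever all `z i` vanish, and all the `z i` are in the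
ideal, then so is `g`. -/
lemma Zr.of_pointwise (hψ : ψ.IsPrimitive) (hq : (q : K) ≠ 0) (hE : Expd cob e r0) (he : 1 ≤ e)
    (hB : 2 * B ≤ e * r0) {M : ℕ}
    {ι : Type*} (s : Finset ι) (z : ι → (J → ZMod q) → K) (hD : ∀ i ∈ s, Deg ψ M (z i))
    (hZ : ∀ i ∈ s, Zr cob r0 ψ c B (z i)) (h01 : ∀ i ∈ s, ∀ y, z i y = 0 ∨ z i y = 1)
    {g : (J → ZMod q) → K} (hg : Deg ψ M g) (hcard : (s.card + 1) * M ≤ B)
    (hpt : ∀ y, (∀ i ∈ s, z i y = 0) → g y = 0) : Zr cob r0 ψ c B g := by
  obtain ⟨h1, h2⟩ := Zr.one_sub_prod hψ hq hE he hB s z hD hZ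
    ((Nat.mul_le_mul_right _ (by omega)).trans hcard)
  have heq : g = (1 - ∏ i ∈ s, (1 - z i)) * g := by
    funext y
    by_cases hy : ∀ i ∈ s, z i y = 0
    · simp [hpt y hy]
    · push Not at hy
      obtain ⟨i, hi, hiy⟩ := hy
      have h3 : z i y = 1 := (h01 i hi y).resolve_left hiy
      have h4 : (∏ i ∈ s, (1 - z i) : (J → ZMod q) → K) y = 0 := by
        rw [Finset.prod_apply]
        apply prod_eq_zero hi
        simp [h3]
      simp [h4]
  rw [heq]
  exact Zr.mul hψ hq hE he hB (by rw [← Nat.succ_mul]; exact hcard) h2 h1 hg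

/-- zero-one function of a Boolean function -/
def bF (K : Type) [Field K] (v : (J → ZMod q) → Bool) : (J → ZMod q) → K :=
  fun y => if v y then 1 else 0

lemma bF_apply (v : (J → ZMod q) → Bool) (y : J → ZMod q) :
    bF K v y = if v y = true then 1 else 0 := rfl

lemma Deg.bF_not {D : ℕ} {v : (J → ZMod q) → Bool} (h : Deg ψ D (bF K v)) :
    Deg ψ D (bF K fun y => !v y) := by
  have : bF K (fun y => !v y) = 1 - bF K v := by
    funext y
    rw [bF_apply, Pi.sub_apply, Pi.one_apply, bF_apply]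
    by_cases h : v y = true <;> simp [h]
  rw [this]
  exact Deg.one.sub h

/-- counting gates have small degree in characteristic `p` -/
lemma Deg.bF_mod {p : ℕ} [Fact p.Prime] [CharP K p] {D : ℕ} {i : ZMod p} {k : ℕ}
    {v : Fin k → (J → ZMod q) → Bool} (h : ∀ j, Deg ψ D (bF K (v j))) :
    Deg ψ (p * D) (bF K fun y => decide ((∑ j, if v j y then (1 : ZMod p) else 0) = i)) := by
  have hp : 1 < p := (Fact.out : p.Prime).one_lt
  have key : (bF K fun y => decide ((∑ j, if v j y then (1 : ZMod p) else 0) = i)) =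
      1 - ((∑ j, bF K (v j)) - fun _ => ZMod.castHom (dvd_refl p) K i) ^ (p - 1) := by
    funext y
    rw [bF_apply]
    simp only [Pi.sub_apply, Pi.one_apply, Pi.pow_apply, Finset.sum_apply, bF_apply,
      decide_eq_true_eq]
    have h1 : (∑ j, if v j y = true then (1 : K) else 0) - ZMod.castHom (dvd_refl p) K i =
        ZMod.castHom (dvd_refl p) K ((∑ j, if v j y = true then (1 : ZMod p) else 0) - i) := by
      rw [map_sub, map_sum]
      congr 1
      refine sum_congr rfl fun j _ => ?_
      split_ifs <;> simp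
    rw [h1, ← map_pow]
    by_cases h2 : (∑ j, if v j y = true then (1 : ZMod p) else 0) = i
    · rw [if_pos h2, h2, sub_self, zero_pow (by omega), map_zero, sub_zero]
    · rw [ZMod.pow_card_sub_one_eq_one (sub_ne_zero.mpr h2), if_neg h2, map_one, sub_self]
  rw [key]
  refine Deg.one.sub (Deg.mono ?_ (Deg.pow ((Deg.sum _ _ fun j _ => h j).sub (Deg.const _)) _))
  exact Nat.mul_le_mul_right _ (by omega)

end PC

end Pool.Agent.Work.MP_c04246_lc.X
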