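import Mathlib

set_option autoImplicit false
set_option linter.unusedSectionVars false
set_option linter.unusedSimpArgs false
set_option linter.unusedVariables false

namespace Pool.Agent.Work.MP_c04246_lc.X

open Finset

section indep

variable {J X : Type} [Fintype J] [DecidableEq J] [Fintype X]

/-- independence of disjoint sets of coordinates -/
lemma sum_mul_indep (A : Finset J) (f g : (J → X) → ℝ)
    (hf : ∀ ρ ρ', (∀ j ∈ A, ρ j = ρ' j) → f ρ = f ρ')
    (hg : ∀ ρ ρ', (∀ j, j ∉ A → ρ j = ρ' j) → g ρ = g ρ') :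
    (Fintype.card (J → X) : ℝ) * ∑ ρ, f ρ * g ρ = (∑ ρ, f ρ) * ∑ ρ, g ρ := by
  classical
  let mix : (J → X) → (J → X) → (J → X) := fun ρ ρ' j => if j ∈ A then ρ j else ρ' j
  let e : (J → X) × (J → X) → (J → X) × (J → X) := fun x => (mix x.1 x.2, mix x.2 x.1)
  have he : Function.Involutive e := by
    intro x
    apply Prod.ext
    · funext j
      show (if j ∈ A then (if j ∈ A then x.1 j else x.2 j) else
        (if j ∈ A then x.2 j else x.1 j)) = x.1 j
      split_ifs <;> rfl
    · funext j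
      show (if j ∈ A then (if j ∈ A then x.2 j else x.1 j) else
        (if j ∈ A then x.1 j else x.2 j)) = x.2 j
      split_ifs <;> rfl
  have h1 : (∑ ρ, f ρ) * ∑ ρ, g ρ = ∑ x : (J → X) × (J → X), f x.1 * g x.2 := by
    rw [Fintype.sum_mul_sum, Fintype.sum_prod_type]
  have h2 : ∀ x : (J → X) × (J → X), f x.1 * g x.2 = f (e x).1 * g (e x).1 := by
    intro x
    congr 1
    · apply hf
      intro j hj
      show x.1 j = if j ∈ A then x.1 j else x.2 j
      rw [if_pos hj]
    · apply hg
      intro j hj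
      show x.2 j = if j ∈ A then x.1 j else x.2 j
      rw [if_neg hj]
  rw [h1, sum_congr rfl (fun x _ => h2 x)]
  have h3 : ∑ x : (J → X) × (J → X), f (e x).1 * g (e x).1
      = ∑ x : (J → X) × (J → X), f x.1 * g x.1 :=
    Equiv.sum_comp (Function.Involutive.toPerm e he) (fun x => f x.1 * g x.1)
  rw [h3, Fintype.sum_prod_type]
  simp only [sum_const, card_univ, nsmul_eq_mul]
  rw [← mul_sum]

lemma card_indep (A : Finset J) (E G : (J → X) → Prop) [DecidablePred E] [DecidablePred G]
    (hE : ∀ ρ ρ', (∀ j ∈ A, ρ j = ρ' j) → (E ρ ↔ E ρ'))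
    (hG : ∀ ρ ρ', (∀ j, j ∉ A → ρ j = ρ' j) → (G ρ ↔ G ρ')) :
    Fintype.card (J → X) * (univ.filter fun ρ => E ρ ∧ G ρ).card =
      (univ.filter E).card * (univ.filter G).card := by
  have h := sum_mul_indep A (fun ρ => if E ρ then (1 : ℝ) else 0) (fun ρ => if G ρ then (1 : ℝ) else 0)
    (fun ρ ρ' h => by simp only [hE ρ ρ' h]) (fun ρ ρ' h => by simp only [hG ρ ρ' h])
  have h1 : ∀ ρ, (if E ρ then (1 : ℝ) else 0) * (if G ρ then (1 : ℝ) else 0)
      = if E ρ ∧ G ρ then 1 else 0 := by
    intro ρ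
    by_cases h1 : E ρ <;> by_cases h2 : G ρ <;> simp [h1, h2]
  simp only [h1, sum_boole] at h
  exact_mod_cast h

end indep

section reveal

variable {J T : Type} [Fintype J] [DecidableEq J] [Fintype T]

/-- a Boolean function of the assignment together with a set of columns -/
abbrev Jn (J T : Type) := Finset J × ((J → T) → Bool)

/-- the function depends only on the columns in the set -/
def Dep (S : Finset J) (h : (J → T) → Bool) : Prop :=
  ∀ x x' : J → T, (∀ j ∈ S, x j = x' j) → h x = h x'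

/-- all columns are dead and the function has the value `c` -/
def killed (c : Bool) (s : Jn J T) (ρ : J → Bool × T) : Prop :=
  (∀ j ∈ s.1, (ρ j).1 = false) ∧ s.2 (fun j => (ρ j).2) = c

lemma killed_congr {c : Bool} {s : Jn J T} (hs : Dep s.1 s.2) {ρ ρ' : J → Bool × T}
    (h : ∀ j ∈ s.1, ρ j = ρ' j) : killed c s ρ ↔ killed c s ρ' := by
  unfold killed
  have h1 : s.2 (fun j => (ρ j).2) = s.2 (fun j => (ρ' j).2) :=
    hs _ _ fun j hj => by show (ρ j).2 = (ρ' j).2; rw [h j hj]
  rw [h1]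
  constructor
  · rintro ⟨h2, h3⟩; exact ⟨fun j hj => by rw [← h j hj]; exact h2 j hj, h3⟩
  · rintro ⟨h2, h3⟩; exact ⟨fun j hj => by rw [h j hj]; exact h2 j hj, h3⟩

open Classical in
/-- reveal the columns of the functions in the list until one of them is killed -/
noncomputable def revG (c : Bool) (ρ : J → Bool × T) : List (Jn J T) → Finset J → (Finset J × ℕ)
  | [], V => (V, 0)
  | s :: l, V => if Disjoint s.1 V ∧ ∃ x, s.2 x = c then
      (if killed c s ρ then (V ∪ s.1, 1)
        else ((revG c ρ l (V ∪ s.1)).1, (revG c ρ l (V ∪ s.1)).2 + 1))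
      else revG c ρ l V

lemma revG_mono (c : Bool) (ρ : J → Bool × T) (l : List (Jn J T)) :
    ∀ V, V ⊆ (revG c ρ l V).1 := by
  induction l with
  | nil => intro V; exact Subset.rfl
  | cons s l ih =>
    intro V
    simp only [revG]
    split_ifs
    · exact subset_union_left
    · exact subset_union_left.trans (ih _)
    · exact ih V

lemma revG_card (c : Bool) (ρ : J → Bool × T) {κ : ℕ} (l : List (Jn J T))
    (hl : ∀ s ∈ l, s.1.card ≤ κ) :
    ∀ V, (revG c ρ l V).1.card ≤ V.card + κ * (revG c ρ l V).2 := by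
  induction l with
  | nil => intro V; simp [revG]
  | cons s l ih =>
    intro V
    have h1 := hl s (by simp)
    have ih' := ih (fun s' hs' => hl s' (by simp [hs']))
    have h2 : (V ∪ s.1).card ≤ V.card + κ := (card_union_le _ _).trans (by omega)
    simp only [revG]
    split_ifs
    · simpa using h2
    · have h3 := ih' (V ∪ s.1)
      show (revG c ρ l (V ∪ s.1)).1.card ≤ V.card + κ * ((revG c ρ l (V ∪ s.1)).2 + 1)
      have h4 : κ * ((revG c ρ l (V ∪ s.1)).2 + 1) = κ * (revG c ρ l (V ∪ s.1)).2 + κ := by ring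
      omega
    · exact ih' V

lemma revG_off (c : Bool) {ρ ρ' : J → Bool × T} (l : List (Jn J T))
    (hl : ∀ s ∈ l, Dep s.1 s.2) :
    ∀ V, (∀ j, j ∉ V → ρ j = ρ' j) → revG c ρ l V = revG c ρ' l V := by
  induction l with
  | nil => intro V _; rfl
  | cons s l ih =>
    intro V h
    have ih' := ih (fun s' hs' => hl s' (by simp [hs']))
    simp only [revG]
    by_cases hd : Disjoint s.1 V ∧ ∃ x, s.2 x = c
    · rw [if_pos hd, if_pos hd]
      have h1 : killed c s ρ ↔ killed c s ρ' :=
        killed_congr (hl s (by simp)) fun j hj => h j (disjoint_left.mp hd.1 hj)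
      have h2 : revG c ρ l (V ∪ s.1) = revG c ρ' l (V ∪ s.1) :=
        ih' _ fun j hj => h j fun hjV => hj (mem_union_left _ hjV)
      rw [h2]
      by_cases hk : killed c s ρ
      · rw [if_pos hk, if_pos (h1.mp hk)]
      · rw [if_neg hk, if_neg (fun h => hk (h1.mpr h))]
    · rw [if_neg hd, if_neg hd]; exact ih' V h

lemma revG_on (c : Bool) {ρ ρ' : J → Bool × T} (l : List (Jn J T))
    (hl : ∀ s ∈ l, Dep s.1 s.2) :
    ∀ V, (∀ j ∈ (revG c ρ l V).1, ρ j = ρ' j) → revG c ρ' l V = revG c ρ l V := by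
  induction l with
  | nil => intro V _; rfl
  | cons s l ih =>
    intro V h
    have ih' := ih (fun s' hs' => hl s' (by simp [hs']))
    simp only [revG] at h ⊢
    by_cases hd : Disjoint s.1 V ∧ ∃ x, s.2 x = c
    · rw [if_pos hd] at h ⊢
      rw [if_pos hd]
      by_cases hk : killed c s ρ
      · rw [if_pos hk] at h ⊢
        have h1 : killed c s ρ' :=
          (killed_congr (hl s (by simp)) fun j hj => h j (mem_union_right _ hj)).mp hk
        rw [if_pos h1]
      · rw [if_neg hk] at h ⊢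
        have h1 : ¬ killed c s ρ' := by
          intro h2
          exact hk ((killed_congr (hl s (by simp)) fun j hj =>
            h j (revG_mono c ρ l _ (mem_union_right _ hj))).mpr h2)
        rw [if_neg h1, ih' _ h]
    · rw [if_neg hd] at h ⊢
      rw [if_neg hd]
      exact ih' V h

lemma revG_spec (c : Bool) (ρ : J → Bool × T) (l : List (Jn J T))
    (hl : ∀ s ∈ l, Dep s.1 s.2) : ∀ V,
    (∃ s ∈ l, s.1 ⊆ (revG c ρ l V).1 ∧ killed c s ρ) ∨
      ∀ s ∈ l, (∃ x, s.2 x = c) → ¬ Disjoint s.1 (revG c ρ l V).1 := by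
  induction l with
  | nil => intro V; right; simp
  | cons s l ih =>
    intro V
    have ih' := ih (fun s' hs' => hl s' (by simp [hs']))
    simp only [revG]
    by_cases hd : Disjoint s.1 V ∧ ∃ x, s.2 x = c
    · rw [if_pos hd]
      by_cases hk : killed c s ρ
      · rw [if_pos hk]
        left
        exact ⟨s, by simp, subset_union_right, hk⟩
      · rw [if_neg hk]
        rcases ih' (V ∪ s.1) with ⟨s', hs', h1, h2⟩ | h1
        · left; exact ⟨s', by simp [hs'], h1, h2⟩
        · right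
          intro s' hs' hx
          rcases List.mem_cons.mp hs' with rfl | hs'
          · intro hdis
            have h2 : s'.1 ⊆ (revG c ρ l (V ∪ s'.1)).1 :=
              subset_union_right.trans (revG_mono c ρ l _)
            have h3 : s'.1 = ∅ := by
              rw [eq_empty_iff_forall_notMem]
              intro j hj
              exact (disjoint_left.mp hdis) hj (h2 hj)
            apply hk
            obtain ⟨x, hx⟩ := hx
            refine ⟨by rw [h3]; simp, ?_⟩
            rw [← hx]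
            apply hl s' (by simp)
            rw [h3]; simp
          · exact h1 s' hs' hx
    · rw [if_neg hd]
      rcases ih' V with ⟨s', hs', h1, h2⟩ | h1
      · left; exact ⟨s', by simp [hs'], h1, h2⟩
      · right
        intro s' hs' hx
        rcases List.mem_cons.mp hs' with rfl | hs'
        · intro hdis
          apply hd
          exact ⟨hdis.mono_right (revG_mono c ρ l V), hx⟩
        · exact h1 s' hs' hx

/-- run the revealing process through a list of gates -/
noncomputable def rev (ρ : J → Bool × T) :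
    List (Bool × List (Jn J T)) → Finset J → (Finset J × ℕ)
  | [], V => (V, 0)
  | g :: gs, V => ((rev ρ gs (revG g.1 ρ g.2 V).1).1,
      (revG g.1 ρ g.2 V).2 + (rev ρ gs (revG g.1 ρ g.2 V).1).2)

lemma rev_mono (ρ : J → Bool × T) (gs : List (Bool × List (Jn J T))) :
    ∀ V, V ⊆ (rev ρ gs V).1 := by
  induction gs with
  | nil => intro V; exact Subset.rfl
  | cons g gs ih =>
    intro V
    simp only [rev]
    exact (revG_mono _ ρ g.2 V).trans (ih _)

lemma rev_card (ρ : J → Bool × T) {κ : ℕ} (gs : List (Bool × List (Jn J T)))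
    (hl : ∀ g ∈ gs, ∀ s ∈ g.2, s.1.card ≤ κ) :
    ∀ V, (rev ρ gs V).1.card ≤ V.card + κ * (rev ρ gs V).2 := by
  induction gs with
  | nil => intro V; simp [rev]
  | cons g gs ih =>
    intro V
    have h1 := revG_card g.1 ρ g.2 (hl g (by simp)) V
    have h2 := ih (fun g' hg' => hl g' (by simp [hg'])) (revG g.1 ρ g.2 V).1
    simp only [rev, mul_add]
    omega

lemma rev_off {ρ ρ' : J → Bool × T} (gs : List (Bool × List (Jn J T)))
    (hl : ∀ g ∈ gs, ∀ s ∈ g.2, Dep s.1 s.2) :
    ∀ V, (∀ j, j ∉ V → ρ j = ρ' j) → rev ρ gs V = rev ρ' gs V := by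
  induction gs with
  | nil => intro V _; rfl
  | cons g gs ih =>
    intro V h
    have h1 := revG_off g.1 (ρ := ρ) (ρ' := ρ') g.2 (hl g (by simp)) V h
    simp only [rev]
    rw [← h1]
    have h2 := ih (fun g' hg' => hl g' (by simp [hg'])) (revG g.1 ρ g.2 V).1
      (fun j hj => h j fun hjV => hj (revG_mono _ _ _ _ hjV))
    rw [h2]

lemma rev_on {ρ ρ' : J → Bool × T} (gs : List (Bool × List (Jn J T)))
    (hl : ∀ g ∈ gs, ∀ s ∈ g.2, Dep s.1 s.2) :
    ∀ V, (∀ j ∈ (rev ρ gs V).1, ρ j = ρ' j) → rev ρ' gs V = rev ρ gs V := by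
  induction gs with
  | nil => intro V _; rfl
  | cons g gs ih =>
    intro V h
    simp only [rev] at h ⊢
    have h1 := revG_on g.1 (ρ := ρ) (ρ' := ρ') g.2 (hl g (by simp)) V
      (fun j hj => h j (rev_mono _ _ _ hj))
    have h2 := ih (fun g' hg' => hl g' (by simp [hg'])) (revG g.1 ρ g.2 V).1 h
    rw [h1, h2]

lemma rev_spec (ρ : J → Bool × T) (gs : List (Bool × List (Jn J T)))
    (hl : ∀ g ∈ gs, ∀ s ∈ g.2, Dep s.1 s.2) : ∀ V, ∀ g ∈ gs,
    (∃ s ∈ g.2, s.1 ⊆ (rev ρ gs V).1 ∧ killed g.1 s ρ) ∨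
      ∀ s ∈ g.2, (∃ x, s.2 x = g.1) → ¬ Disjoint s.1 (rev ρ gs V).1 := by
  induction gs with
  | nil => intro V g hg; simp at hg
  | cons g0 gs ih =>
    intro V g hg
    rcases List.mem_cons.mp hg with rfl | hg
    · simp only [rev]
      rcases revG_spec g.1 ρ g.2 (hl g (by simp)) V with ⟨s, hs, h1, h2⟩ | h1
      · left; exact ⟨s, hs, h1.trans (rev_mono _ _ _), h2⟩
      · right
        intro s hs hx hdis
        exact h1 s hs hx (hdis.mono_right (rev_mono _ _ _))
    · simp only [rev]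
      exact ih (fun g' hg' => hl g' (by simp [hg'])) _ g hg

variable [Nonempty T]

/-- the probability of being killed is not too small -/
lemma card_killed {κ : ℕ} {c : Bool} {s : Jn J T} (hs : Dep s.1 s.2) (hκ : s.1.card ≤ κ)
    (hx : ∃ x, s.2 x = c) :
    Fintype.card (J → Bool × T) ≤
      (open Classical in (univ.filter fun ρ : J → Bool × T => killed c s ρ).card) *
        (Fintype.card (Bool × T)) ^ κ := by
  classical
  obtain ⟨x, hx⟩ := hx
  have hA : 1 ≤ Fintype.card (Bool × T) := Fintype.card_pos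
  have h1 : Fintype.piFinset (fun j => if j ∈ s.1 then ({(false, x j)} : Finset (Bool × T)) else univ)
      ⊆ univ.filter fun ρ : J → Bool × T => killed c s ρ := by
    intro ρ hρ
    rw [Fintype.mem_piFinset] at hρ
    rw [mem_filter]
    have h2 : ∀ j ∈ s.1, ρ j = (false, x j) := by
      intro j hj
      have := hρ j
      rw [if_pos hj, mem_singleton] at this
      exact this
    refine ⟨mem_univ _, fun j hj => by rw [h2 j hj], ?_⟩
    rw [← hx]
    apply hs
    intro j hj
    show (ρ j).2 = x j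
    rw [h2 j hj]
  have h2 := card_le_card h1
  rw [Fintype.card_piFinset] at h2
  have h3 : ∏ j, (if j ∈ s.1 then ({(false, x j)} : Finset (Bool × T)) else univ).card
      = (Fintype.card (Bool × T)) ^ (univ \ s.1).card := by
    have h4 : ∀ j, (if j ∈ s.1 then ({(false, x j)} : Finset (Bool × T)) else univ).card
        = if j ∈ s.1 then 1 else Fintype.card (Bool × T) := by
      intro j
      split_ifs
      · rw [card_singleton]
      · rw [card_univ]
    simp_rw [h4]
    rw [prod_ite, prod_const_one, one_mul, prod_const]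
    congr 2
    ext j; simp
  rw [h3] at h2
  have h5 : Fintype.card (J → Bool × T) = (Fintype.card (Bool × T)) ^ (univ \ s.1).card *
      (Fintype.card (Bool × T)) ^ s.1.card := by
    rw [Fintype.card_fun, ← pow_add, card_sdiff_add_card_eq_card (subset_univ _), card_univ]
  rw [h5]
  exact Nat.mul_le_mul h2 (Nat.pow_le_pow_right hA hκ)

lemma revG_moment {κ : ℕ} {z M : ℝ} (hz1 : 1 ≤ z) (hM : 0 ≤ M)
    (hz : z * (2 - ((Fintype.card (Bool × T) : ℝ) ^ κ)⁻¹) ≤ 2)
    (F : Finset J → (J → Bool × T) → ℝ) (hF0 : ∀ V ρ, 0 ≤ F V ρ)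
    (hFoff : ∀ V ρ ρ', (∀ j, j ∉ V → ρ j = ρ' j) → F V ρ = F V ρ')
    (hF : ∀ V, ∑ ρ, F V ρ ≤ M * Fintype.card (J → Bool × T)) (c : Bool) (l : List (Jn J T))
    (hl : ∀ s ∈ l, s.1.card ≤ κ ∧ Dep s.1 s.2) :
    ∀ V, ∑ ρ, z ^ (revG c ρ l V).2 * F (revG c ρ l V).1 ρ ≤
      2 * M * Fintype.card (J → Bool × T) := by
  classical
  have hΩ : (0 : ℝ) < Fintype.card (J → Bool × T) := by exact_mod_cast Fintype.card_pos
  induction l with
  | nil =>
    intro V
    simp only [revG, pow_zero, one_mul]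
    refine (hF V).trans ?_
    nlinarith [mul_nonneg hM hΩ.le]
  | cons s l ih =>
    intro V
    have ih' := ih (fun s' hs' => hl s' (by simp [hs']))
    obtain ⟨hsκ, hsD⟩ := hl s (by simp)
    by_cases hd : Disjoint s.1 V ∧ ∃ x, s.2 x = c
    · -- the two continuations
      set G1 : (J → Bool × T) → ℝ := fun ρ => F (V ∪ s.1) ρ with hG1
      set G2 : (J → Bool × T) → ℝ := fun ρ =>
        z ^ (revG c ρ l (V ∪ s.1)).2 * F (revG c ρ l (V ∪ s.1)).1 ρ with hG2
      set E : (J → Bool × T) → ℝ := fun ρ => if killed c s ρ then 1 else 0 with hE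
      set E' : (J → Bool × T) → ℝ := fun ρ => if killed c s ρ then 0 else 1 with hE'
      have hG1off : ∀ ρ ρ', (∀ j, j ∉ s.1 → ρ j = ρ' j) → G1 ρ = G1 ρ' := by
        intro ρ ρ' h
        exact hFoff _ _ _ fun j hj => h j fun hjs => hj (mem_union_right _ hjs)
      have hG2off : ∀ ρ ρ', (∀ j, j ∉ s.1 → ρ j = ρ' j) → G2 ρ = G2 ρ' := by
        intro ρ ρ' h
        have h1 : revG c ρ l (V ∪ s.1) = revG c ρ' l (V ∪ s.1) :=
          revG_off c l (fun s' hs' => (hl s' (by simp [hs'])).2) _
            fun j hj => h j fun hjs => hj (mem_union_right _ hjs)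
        simp only [hG2]
        rw [h1]
        congr 1
        exact hFoff _ _ _ fun j hj => h j fun hjs =>
          hj (revG_mono _ _ _ _ (mem_union_right _ hjs))
      have hEon : ∀ ρ ρ', (∀ j ∈ s.1, ρ j = ρ' j) → E ρ = E ρ' := by
        intro ρ ρ' h
        simp only [hE, killed_congr hsD h]
      have hE'on : ∀ ρ ρ', (∀ j ∈ s.1, ρ j = ρ' j) → E' ρ = E' ρ' := by
        intro ρ ρ' h
        simp only [hE', killed_congr hsD h]
      have hi1 := sum_mul_indep s.1 E G1 hEon hG1off
      have hi2 := sum_mul_indep s.1 E' G2 hE'on hG2off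
      have hEE' : ∑ ρ, E ρ + ∑ ρ, E' ρ = Fintype.card (J → Bool × T) := by
        rw [← sum_add_distrib]
        have : ∀ ρ, E ρ + E' ρ = 1 := by
          intro ρ
          simp only [hE, hE']
          split_ifs <;> norm_num
        simp [this]
      have hsplit : ∀ ρ, z ^ (revG c ρ (s :: l) V).2 * F (revG c ρ (s :: l) V).1 ρ =
          z * (E ρ * G1 ρ) + z * (E' ρ * G2 ρ) := by
        intro ρ
        simp only [revG, if_pos hd, hE, hE', hG1, hG2]
        by_cases hk : killed c s ρ
        · simp only [if_pos hk]; ring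
        · simp only [if_neg hk]; ring
      rw [sum_congr rfl (fun ρ _ => hsplit ρ), sum_add_distrib, ← mul_sum, ← mul_sum]
      have hS1 := hF (V ∪ s.1)
      have hS2 := ih' (V ∪ s.1)
      have hkill := card_killed (κ := κ) hsD hsκ hd.2
      have hEsum : ∑ ρ, E ρ = ((univ.filter fun ρ : J → Bool × T => killed c s ρ).card : ℝ) := by
        simp only [hE, sum_boole]
      have hAκ : (0 : ℝ) < (Fintype.card (Bool × T) : ℝ) ^ κ := by
        have : (0 : ℝ) < Fintype.card (Bool × T) := by exact_mod_cast Fintype.card_pos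
        positivity
      have hkill' : (Fintype.card (J → Bool × T) : ℝ) ≤
          (∑ ρ, E ρ) * (Fintype.card (Bool × T) : ℝ) ^ κ := by
        rw [hEsum]
        exact_mod_cast hkill
      set Ω : ℝ := ((Fintype.card (J → Bool × T) : ℕ) : ℝ) with hΩdef
      set e : ℝ := ∑ ρ, E ρ with he
      set e' : ℝ := ∑ ρ, E' ρ with he'
      have he0 : 0 ≤ e := sum_nonneg fun ρ _ => by simp only [hE]; split_ifs <;> norm_num
      have he'0 : 0 ≤ e' := sum_nonneg fun ρ _ => by simp only [hE']; split_ifs <;> norm_num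
      have hb1 : ∑ ρ, E ρ * G1 ρ ≤ e * M := by
        have : Ω * ∑ ρ, E ρ * G1 ρ ≤ Ω * (e * M) := by
          rw [hi1]
          calc e * ∑ ρ, G1 ρ ≤ e * (M * Ω) := mul_le_mul_of_nonneg_left hS1 he0
            _ = Ω * (e * M) := by ring
        exact le_of_mul_le_mul_left this hΩ
      have hb2 : ∑ ρ, E' ρ * G2 ρ ≤ e' * (2 * M) := by
        have : Ω * ∑ ρ, E' ρ * G2 ρ ≤ Ω * (e' * (2 * M)) := by
          rw [hi2]
          calc e' * ∑ ρ, G2 ρ ≤ e' * (2 * M * Ω) := mul_le_mul_of_nonneg_left hS2 he'0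
            _ = Ω * (e' * (2 * M)) := by ring
        exact le_of_mul_le_mul_left this hΩ
      have hepos : Ω * ((Fintype.card (Bool × T) : ℝ) ^ κ)⁻¹ ≤ e := by
        rw [mul_inv_le_iff₀ hAκ]; exact hkill'
      have hfin : z * (e * M) + z * (e' * (2 * M)) ≤ 2 * M * Ω := by
        have h1 : e' = Ω - e := by linarith
        have h2 : z * (e * M) + z * (e' * (2 * M)) = M * (z * (2 * Ω - e)) := by rw [h1]; ring
        have h3 : z * (2 * Ω - e) ≤ 2 * Ω := by
          calc z * (2 * Ω - e) ≤ z * (2 * Ω - Ω * ((Fintype.card (Bool × T) : ℝ) ^ κ)⁻¹) := by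
                apply mul_le_mul_of_nonneg_left _ (by linarith)
                linarith
            _ = (z * (2 - ((Fintype.card (Bool × T) : ℝ) ^ κ)⁻¹)) * Ω := by ring
            _ ≤ 2 * Ω := mul_le_mul_of_nonneg_right hz hΩ.le
        rw [h2]
        calc M * (z * (2 * Ω - e)) ≤ M * (2 * Ω) := mul_le_mul_of_nonneg_left h3 hM
          _ = 2 * M * Ω := by ring
      have hz0 : 0 ≤ z := by linarith
      calc z * ∑ ρ, E ρ * G1 ρ + z * ∑ ρ, E' ρ * G2 ρ
          ≤ z * (e * M) + z * (e' * (2 * M)) :=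
            add_le_add (mul_le_mul_of_nonneg_left hb1 hz0) (mul_le_mul_of_nonneg_left hb2 hz0)
        _ ≤ _ := hfin
    · have : ∀ ρ, revG c ρ (s :: l) V = revG c ρ l V := by
        intro ρ; simp only [revG, if_neg hd]
      simp only [this]
      exact ih' V

lemma rev_moment {κ : ℕ} {z : ℝ} (hz1 : 1 ≤ z)
    (hz : z * (2 - ((Fintype.card (Bool × T) : ℝ) ^ κ)⁻¹) ≤ 2)
    (gs : List (Bool × List (Jn J T)))
    (hl : ∀ g ∈ gs, ∀ s ∈ g.2, s.1.card ≤ κ ∧ Dep s.1 s.2) :
    ∀ V, ∑ ρ, z ^ (rev ρ gs V).2 ≤ 2 ^ gs.length * Fintype.card (J → Bool × T) := by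
  induction gs with
  | nil => intro V; simp [rev]
  | cons g gs ih =>
    intro V
    have ih' := ih (fun g' hg' => hl g' (by simp [hg']))
    have h1 := revG_moment (κ := κ) hz1 (M := 2 ^ gs.length) (by positivity) hz
      (fun V ρ => z ^ (rev ρ gs V).2) (fun V ρ => by positivity)
      (fun V ρ ρ' h => by
        rw [rev_off gs (fun g' hg' s hs => (hl g' (by simp [hg']) s hs).2) V h])
      ih' g.1 g.2 (hl g (by simp)) V
    refine le_trans (le_of_eq ?_) (h1.trans (le_of_eq ?_))
    · refine sum_congr rfl fun ρ _ => ?_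
      simp only [rev, pow_add]
    · rw [List.length_cons, pow_succ]; ring

/-- tail bound for the number of revealed functions -/
lemma rev_tail {κ : ℕ} (gs : List (Bool × List (Jn J T)))
    (hl : ∀ g ∈ gs, ∀ s ∈ g.2, s.1.card ≤ κ ∧ Dep s.1 s.2) (m : ℕ) :
    (open Classical in (univ.filter fun ρ : J → Bool × T =>
      2 * (Fintype.card (Bool × T)) ^ κ * m ≤ (rev ρ gs ∅).2).card) * 2 ^ m ≤
      2 ^ gs.length * Fintype.card (J → Bool × T) := by
  classical
  set A : ℝ := (Fintype.card (Bool × T) : ℝ) ^ κ with hA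
  have hA1 : (1 : ℝ) ≤ Fintype.card (Bool × T) := by exact_mod_cast Fintype.card_pos
  have hA1' : 1 ≤ A := one_le_pow₀ hA1
  have hA0 : 0 < A := by linarith
  set z : ℝ := 1 + (2 * A)⁻¹ with hz
  have hz1 : 1 ≤ z := by rw [hz]; have : 0 < (2 * A)⁻¹ := by positivity
                         linarith
  have hz2 : z * (2 - A⁻¹) ≤ 2 := by
    have : (2 * A)⁻¹ = A⁻¹ / 2 := by rw [mul_inv]; ring
    rw [hz, this]
    nlinarith [sq_nonneg (A⁻¹)]
  have hz3 : (2 : ℝ) ≤ z ^ (2 * (Fintype.card (Bool × T)) ^ κ) := by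
    have h1 := one_add_mul_le_pow (a := (2 * A)⁻¹) (by
      have : 0 < (2 * A)⁻¹ := by positivity
      linarith) (2 * (Fintype.card (Bool × T)) ^ κ)
    have h2 : ((2 * (Fintype.card (Bool × T)) ^ κ : ℕ) : ℝ) * (2 * A)⁻¹ = 1 := by
      push_cast
      rw [← hA]
      exact mul_inv_cancel₀ (by positivity)
    rw [h2] at h1
    rw [hz]
    linarith
  have h := rev_moment (κ := κ) hz1 hz2 gs hl ∅
  have h4 : (((univ.filter fun ρ : J → Bool × T =>
      2 * (Fintype.card (Bool × T)) ^ κ * m ≤ (rev ρ gs ∅).2).card * 2 ^ m : ℕ) : ℝ) ≤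
      ∑ ρ, z ^ (rev ρ gs ∅).2 := by
    push_cast
    rw [← nsmul_eq_mul, ← sum_const]
    refine le_trans (sum_le_sum ?_) (sum_le_sum_of_subset_of_nonneg (filter_subset _ _)
      (fun ρ _ _ => by positivity))
    intro ρ hρ
    rw [mem_filter] at hρ
    calc (2 : ℝ) ^ m ≤ (z ^ (2 * (Fintype.card (Bool × T)) ^ κ)) ^ m :=
          pow_le_pow_left₀ (by norm_num) hz3 m
      _ = z ^ (2 * (Fintype.card (Bool × T)) ^ κ * m) := by rw [← pow_mul]
      _ ≤ z ^ (rev ρ gs ∅).2 := pow_le_pow_right₀ hz1 hρ.2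
  have h5 := h4.trans h
  exact_mod_cast h5

end reveal

end Pool.Agent.Work.MP_c04246_lc.X
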