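import Mathlib
import Pool.Agent.Work.MP_c04246_lc.XReveal
import Pool.Agent.Work.MP_c04246_lc.XLin

set_option autoImplicit false
set_option linter.unusedSectionVars false
set_option linter.unusedSimpArgs false
set_option linter.unusedVariables false

namespace Pool.Agent.Work.MP_c04246_lc.X

open Finset

section tree

variable {J Y T : Type} [DecidableEq J]

/-- `y` agrees with `w` on the columns in `H` -/
def Agr (H : Finset J) (w y : J → Y) : Prop := ∀ j ∈ H, y j = w j

/-- there is a decision tree of depth at most `t`, started with the partial assignment `w` on `H`,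
all of whose leaves have the property `P` -/
inductive DT (P : Finset J → (J → Y) → Prop) : Finset J → (J → Y) → ℕ → Prop
  | leaf (H : Finset J) (w : J → Y) (t : ℕ) : P H w → DT P H w t
  | query (H : Finset J) (w : J → Y) (t : ℕ) (j : J) :
      (∀ v : Y, DT P (insert j H) (Function.update w j v) t) → DT P H w (t + 1)

lemma DT.mono {P : Finset J → (J → Y) → Prop} {H : Finset J} {w : J → Y} {t : ℕ}
    (h : DT P H w t) : ∀ t', t ≤ t' → DT P H w t' := by
  induction h with
  | leaf H w t hP => intro t' _; exact DT.leaf H w t' hP
  | query H w t j hj ih =>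
    intro t' ht
    obtain ⟨s, rfl⟩ : ∃ s, t' = s + 1 := ⟨t' - 1, by omega⟩
    exact DT.query H w s j fun v => ih v s (by omega)

lemma DT.imp {P P' : Finset J → (J → Y) → Prop} {H : Finset J} {w : J → Y} {t : ℕ}
    (h : DT P H w t) (hPP : ∀ H w, P H w → P' H w) : DT P' H w t := by
  induction h with
  | leaf H w t hP => exact DT.leaf H w t (hPP _ _ hP)
  | query H w t j hj ih => exact DT.query H w t j fun v => ih v

/-- query all columns of a set -/
lemma DT.of_set {P : Finset J → (J → Y) → Prop} {t : ℕ} (V : Finset J) :
    ∀ (H : Finset J) (w : J → Y), (∀ w', Agr H w w' → DT P (H ∪ V) w' t) →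
      DT P H w (t + V.card) := by
  induction V using Finset.induction_on with
  | empty =>
    intro H w h
    have := h w (fun j _ => rfl)
    simpa using this
  | insert j V hj ih =>
    intro H w h
    rw [card_insert_of_notMem hj, ← add_assoc]
    by_cases hjH : j ∈ H
    · refine DT.mono (ih H w ?_) _ (by omega)
      intro w' hw'
      have h1 : H ∪ insert j V = H ∪ V := by
        ext e; simp only [mem_union, mem_insert]
        constructor
        · rintro (h | rfl | h)
          · left; exact h
          · left; exact hjH
          · right; exact h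
        · rintro (h | h)
          · left; exact h
          · right; right; exact h
      rw [← h1]
      exact h w' hw'
    · refine DT.query H w _ j fun v => ih _ _ ?_
      intro w' hw'
      have h1 : insert j H ∪ V = H ∪ insert j V := by
        ext e; simp only [mem_union, mem_insert]; tauto
      rw [h1]
      apply h
      intro e he
      rw [hw' e (mem_insert_of_mem he), Function.update_of_ne]
      rintro rfl
      exact hjH he

/-- change of the property and addition of a set of known columns -/
lemma DT.transplant {P P' : Finset J → (J → Y) → Prop} (V : Finset J) {H : Finset J}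
    {w0 : J → Y} {t : ℕ} (h : DT P H w0 t) : ∀ w : J → Y,
    (∀ H w0 w1, P H w0 → Agr H w0 w1 → Agr V w w1 → P' (H ∪ V) w1) →
    ∀ w1, Agr H w0 w1 → Agr V w w1 → DT P' (H ∪ V) w1 t := by
  induction h with
  | leaf H w0 t hP => intro w hPP w1 h1 h2; exact DT.leaf _ _ _ (hPP H w0 w1 hP h1 h2)
  | query H w0 t j hj ih =>
    intro w hPP w1 h1 h2
    by_cases hjV : j ∈ V
    · have h3 := ih (w1 j) w hPP w1 ?_ h2
      · have h4 : insert j H ∪ V = H ∪ V := by
          ext e; simp only [mem_union, mem_insert]
          constructor
          · rintro ((rfl | h) | h)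
            · right; exact hjV
            · left; exact h
            · right; exact h
          · rintro (h | h)
            · left; right; exact h
            · right; exact h
        rw [h4] at h3
        exact h3.mono _ (Nat.le_succ _)
      · intro e he
        by_cases hej : e = j
        · subst hej; simp
        · rw [Function.update_of_ne hej]
          exact h1 e ((mem_insert.mp he).resolve_left hej)
    · refine DT.query _ _ _ j fun v => ?_
      have h4 : insert j (H ∪ V) = insert j H ∪ V := by
        ext e; simp only [mem_union, mem_insert]; tauto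
      rw [h4]
      apply ih v w hPP
      · intro e he
        by_cases hej : e = j
        · subst hej; simp
        · rw [Function.update_of_ne hej, Function.update_of_ne hej]
          exact h1 e ((mem_insert.mp he).resolve_left hej)
      · intro e he
        rw [Function.update_of_ne (by rintro rfl; exact hjV he)]
        exact h2 e he

/-- the assignment determined by the restriction and the values of the alive columns -/
def Wd (code : Y → T) (ρ : J → Bool × T) (y : J → Y) : J → T :=
  fun j => if (ρ j).1 then code (y j) else (ρ j).2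

/-- the gate has an input with the value `g.1` -/
def gv (code : Y → T) (ρ : J → Bool × T) (g : Bool × List (Jn J T)) (y : J → Y) : Prop :=
  ∃ s ∈ g.2, s.2 (Wd code ρ y) = g.1

/-- all gates are constant on the subcube -/
def AllC (code : Y → T) (ρ : J → Bool × T) (gs : List (Bool × List (Jn J T))) (H : Finset J)
    (w : J → Y) : Prop :=
  ∀ g ∈ gs, ∀ y y', Agr H w y → Agr H w y' → (gv code ρ g y ↔ gv code ρ g y')

variable [Fintype T] [Nonempty T] [Fintype J]

open Classical in
/-- residual of an input after the columns in `V` got the values `u` -/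
noncomputable def resJ (V : Finset J) (u : J → T) (s : Jn J T) : Jn J T :=
  (s.1 \ V, fun x => s.2 fun j => if j ∈ V then u j else x j)

open Classical in
/-- residual gates -/
noncomputable def resG (V : Finset J) (u : J → T) (gs : List (Bool × List (Jn J T))) :
    List (Bool × List (Jn J T)) :=
  (gs.filter fun g => decide (∀ s ∈ g.2, (∃ x, s.2 x = g.1) → ¬ Disjoint s.1 V)).map
    fun g => (g.1, (g.2.filter fun s => decide (∃ x, s.2 x = g.1)).map (resJ V u))

lemma resG_length (V : Finset J) (u : J → T) (gs : List (Bool × List (Jn J T))) :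
    (resG V u gs).length ≤ gs.length := by
  unfold resG
  rw [List.length_map]
  exact List.length_filter_le _ _

lemma resG_spec {κ : ℕ} (V : Finset J) (u : J → T) (gs : List (Bool × List (Jn J T)))
    (hl : ∀ g ∈ gs, ∀ s ∈ g.2, s.1.card ≤ κ + 1 ∧ Dep s.1 s.2) :
    ∀ g ∈ resG V u gs, ∀ s ∈ g.2, (s.1.card ≤ κ ∧ Dep s.1 s.2) ∧ Disjoint s.1 V := by
  classical
  intro g hg s hs
  unfold resG at hg
  rw [List.mem_map] at hg
  obtain ⟨g0, hg0, rfl⟩ := hg
  rw [List.mem_filter] at hg0
  obtain ⟨hg0, hg1⟩ := hg0
  rw [decide_eq_true_eq] at hg1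
  rw [List.mem_map] at hs
  obtain ⟨s0, hs0, rfl⟩ := hs
  rw [List.mem_filter] at hs0
  obtain ⟨hs0, hs1⟩ := hs0
  rw [decide_eq_true_eq] at hs1
  obtain ⟨h1, h2⟩ := hl g0 hg0 s0 hs0
  have h3 := hg1 s0 hs0 hs1
  refine ⟨⟨?_, ?_⟩, ?_⟩
  · show (s0.1 \ V).card ≤ κ
    rw [not_disjoint_iff] at h3
    obtain ⟨j, hj1, hj2⟩ := h3
    have : s0.1 \ V ⊆ s0.1.erase j := by
      intro e he
      rw [mem_sdiff] at he
      rw [mem_erase]
      exact ⟨by rintro rfl; exact he.2 hj2, he.1⟩
    have h4 := card_le_card this
    rw [card_erase_of_mem hj1] at h4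
    omega
  · intro x x' hxx
    apply h2
    intro j hj
    by_cases hjV : j ∈ V
    · simp [hjV]
    · simp only [hjV, if_false]
      exact hxx j (mem_sdiff.mpr ⟨hj, hjV⟩)
  · exact sdiff_disjoint

lemma AllC_congr (code : Y → T) {V : Finset J} {gs : List (Bool × List (Jn J T))}
    (hl : ∀ g ∈ gs, ∀ s ∈ g.2, Dep s.1 s.2 ∧ Disjoint s.1 V) {ρ ρ' : J → Bool × T}
    (h : ∀ j, j ∉ V → ρ j = ρ' j) (H : Finset J) (w : J → Y) (hA : AllC code ρ gs H w) :
    AllC code ρ' gs H w := by
  intro g hg y y' hy hy'
  have key : ∀ y, gv code ρ g y ↔ gv code ρ' g y := by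
    intro y
    unfold gv
    refine exists_congr fun s => and_congr_right fun hs => ?_
    obtain ⟨h1, h2⟩ := hl g hg s hs
    rw [h1 (Wd code ρ y) (Wd code ρ' y)]
    intro j hj
    have := h j (disjoint_left.mp h2 hj)
    simp only [Wd, this]
  rw [← key y, ← key y']
  exact hA g hg y y' hy hy'

/-- gates are constant after the columns of `V` have been queried and then the residual gates have
been made constant -/
lemma DT_step (code : Y → T) {ρ : J → Bool × T} {gs : List (Bool × List (Jn J T))}
    (hl : ∀ g ∈ gs, ∀ s ∈ g.2, Dep s.1 s.2) {V : Finset J} (hV : (rev ρ gs ∅).1 = V) {t : ℕ}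
    (w0 : J → Y)
    (h : ∀ u : J → T, DT (AllC code ρ (resG V u gs)) ∅ w0 t) :
    DT (AllC code ρ gs) ∅ w0 (t + V.card) := by
  classical
  apply DT.of_set
  intro w hw
  have h1 := h (Wd code ρ w)
  refine DT.transplant (P' := AllC code ρ gs) V h1 w ?_ w (fun j hj => by simp at hj)
    (fun j hj => rfl)
  intro H w0 w1 hP hw0 hw1 g hg y y' hy hy'
  by_cases hg1 : ∀ s ∈ g.2, (∃ x, s.2 x = g.1) → ¬ Disjoint s.1 V
  · set g' : Bool × List (Jn J T) :=
      (g.1, (g.2.filter fun s => decide (∃ x, s.2 x = g.1)).map (resJ V (Wd code ρ w))) with hg'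
    have hmem : g' ∈ resG V (Wd code ρ w) gs := by
      unfold resG
      rw [List.mem_map]
      refine ⟨g, ?_, rfl⟩
      rw [List.mem_filter]
      exact ⟨hg, by rw [decide_eq_true_eq]; exact hg1⟩
    have key : ∀ y, Agr (H ∪ V) w1 y → (gv code ρ g y ↔ gv code ρ g' y) := by
      intro y hy
      have hval : ∀ s : Jn J T, s.2 (fun j => if j ∈ V then Wd code ρ w j else Wd code ρ y j)
          = s.2 (Wd code ρ y) := by
        intro s
        refine congrArg s.2 (funext fun j => ?_)
        by_cases hj : j ∈ V
        · rw [if_pos hj]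
          have h2 : y j = w j := by
            rw [hy j (mem_union_right _ hj), hw1 j hj]
          simp only [Wd, h2]
        · rw [if_neg hj]
      constructor
      · rintro ⟨s, hs, hsv⟩
        refine ⟨resJ V (Wd code ρ w) s, ?_, ?_⟩
        · rw [hg', List.mem_map]
          refine ⟨s, ?_, rfl⟩
          rw [List.mem_filter]
          exact ⟨hs, by rw [decide_eq_true_eq]; exact ⟨_, hsv⟩⟩
        · show s.2 _ = g.1
          rw [hval]; exact hsv
      · rintro ⟨s', hs', hsv⟩
        rw [hg', List.mem_map] at hs'
        obtain ⟨s, hs, rfl⟩ := hs'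
        rw [List.mem_filter] at hs
        refine ⟨s, hs.1, ?_⟩
        rw [← hval s]
        exact hsv
    rw [key y hy, key y' hy']
    refine hP g' hmem y y' ?_ ?_
    · intro j hj
      rw [hy j (mem_union_left _ hj), hw0 j hj]
    · intro j hj
      rw [hy' j (mem_union_left _ hj), hw0 j hj]
  · have h2 := rev_spec ρ gs hl ∅ g hg
    rw [hV] at h2
    rcases h2 with ⟨s, hs, hsV, hk⟩ | h2
    · have key : ∀ y : J → Y, gv code ρ g y := by
        intro y
        refine ⟨s, hs, ?_⟩
        rw [← hk.2]
        apply hl g hg s hs
        intro j hj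
        have := hk.1 j hj
        simp [Wd, this]
      exact ⟨fun _ => key y', fun _ => key y⟩
    · exact absurd h2 hg1

/-- a set of representatives of the values on `V` -/
noncomputable def Rep (T : Type) [Fintype T] [Nonempty T] (V : Finset J) : Finset (J → T) :=
  Fintype.piFinset fun j => if j ∈ V then univ else {Classical.arbitrary T}

lemma card_Rep (V : Finset J) : (Rep T V).card = (Fintype.card T) ^ V.card := by
  classical
  unfold Rep
  rw [Fintype.card_piFinset]
  have h4 : ∀ j, (if j ∈ V then univ else {Classical.arbitrary T} : Finset T).card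
      = if j ∈ V then Fintype.card T else 1 := by
    intro j
    split_ifs
    · rw [card_univ]
    · rw [card_singleton]
  simp_rw [h4]
  rw [prod_ite, prod_const_one, mul_one, prod_const]
  congr 2
  ext j; simp

lemma exists_Rep (V : Finset J) (u : J → T) (gs : List (Bool × List (Jn J T))) :
    ∃ u' ∈ Rep T V, resG V u' gs = resG V u gs := by
  classical
  refine ⟨fun j => if j ∈ V then u j else Classical.arbitrary T, ?_, ?_⟩
  · unfold Rep
    rw [Fintype.mem_piFinset]
    intro j
    by_cases hj : j ∈ V
    · simp [hj]
    · simp [hj]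
  · have h1 : resJ (T := T) V (fun j => if j ∈ V then u j else Classical.arbitrary T)
        = resJ V u := by
      funext s
      unfold resJ
      refine congrArg (fun z => (s.1 \ V, z)) (funext fun x => congrArg s.2 (funext fun j => ?_))
      by_cases hj : j ∈ V
      · simp [hj]
      · simp [hj]
    unfold resG
    rw [h1]

end tree

end Pool.Agent.Work.MP_c04246_lc.X
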