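import Mathlib
import Pool.Agent.Work.MP_c04246_lc.XTree

set_option autoImplicit false
set_option linter.unusedSectionVars false
set_option linter.unusedSimpArgs false
set_option linter.unusedVariables false

namespace Pool.Agent.Work.MP_c04246_lc.X

open Finset

section

variable {J Y T : Type} [DecidableEq J] [Fintype J] [Fintype T] [Nonempty T]

open Classical in
/-- the restrictions for which the gates cannot be made constant by a shallow decision tree -/
noncomputable def BadS (code : Y → T) (gs : List (Bool × List (Jn J T))) (w0 : J → Y) (t : ℕ) :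
    Finset (J → Bool × T) :=
  univ.filter fun ρ => ¬ DT (AllC code ρ gs) ∅ w0 t

lemma mem_BadS {code : Y → T} {gs : List (Bool × List (Jn J T))} {w0 : J → Y} {t : ℕ}
    {ρ : J → Bool × T} : ρ ∈ BadS code gs w0 t ↔ ¬ DT (AllC code ρ gs) ∅ w0 t := by
  unfold BadS; simp

lemma BadS_fiber (code : Y → T) {κ : ℕ} (gs : List (Bool × List (Jn J T)))
    (hl : ∀ g ∈ gs, ∀ s ∈ g.2, s.1.card ≤ κ + 1 ∧ Dep s.1 s.2) (w0 : J → Y) (t N : ℕ)
    (V : Finset J) (u : J → T)
    (h : (BadS code (resG V u gs) w0 t).card * N ≤ Fintype.card (J → Bool × T)) :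
    (open Classical in (univ.filter fun ρ : J → Bool × T =>
      (rev ρ gs ∅).1 = V ∧ ρ ∈ BadS code (resG V u gs) w0 t).card) * N ≤
    (open Classical in (univ.filter fun ρ : J → Bool × T => (rev ρ gs ∅).1 = V).card) := by
  classical
  have hD : ∀ g ∈ gs, ∀ s ∈ g.2, Dep s.1 s.2 := fun g hg s hs => (hl g hg s hs).2
  have h1 := card_indep V (fun ρ : J → Bool × T => (rev ρ gs ∅).1 = V)
    (fun ρ => ρ ∈ BadS code (resG V u gs) w0 t) (by
      intro ρ ρ' hρ
      constructor
      · intro h2
        rw [rev_on gs hD ∅ (ρ := ρ) (ρ' := ρ') (by rw [h2]; exact hρ)]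
        exact h2
      · intro h2
        rw [rev_on gs hD ∅ (ρ := ρ') (ρ' := ρ) (by rw [h2]; exact fun j hj => (hρ j hj).symm)]
        exact h2) (by
      intro ρ ρ' hρ
      rw [mem_BadS, mem_BadS]
      have hs := resG_spec V u gs hl
      constructor
      · intro h2 h3
        exact h2 (h3.imp fun H w hA => AllC_congr code
          (fun g hg s hs' => ⟨(hs g hg s hs').1.2, (hs g hg s hs').2⟩)
          (fun j hj => (hρ j hj).symm) H w hA)
      · intro h2 h3
        exact h2 (h3.imp fun H w hA => AllC_congr code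
          (fun g hg s hs' => ⟨(hs g hg s hs').1.2, (hs g hg s hs').2⟩)
          (fun j hj => (hρ j hj)) H w hA))
  have hΩ : 0 < Fintype.card (J → Bool × T) := Fintype.card_pos
  have h2 : (univ.filter fun ρ : J → Bool × T => ρ ∈ BadS code (resG V u gs) w0 t)
      = BadS code (resG V u gs) w0 t := by
    ext ρ; simp
  rw [h2] at h1
  apply Nat.le_of_mul_le_mul_left _ hΩ
  calc Fintype.card (J → Bool × T) * ((univ.filter fun ρ : J → Bool × T =>
      (rev ρ gs ∅).1 = V ∧ ρ ∈ BadS code (resG V u gs) w0 t).card * N)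
      = (Fintype.card (J → Bool × T) * (univ.filter fun ρ : J → Bool × T =>
      (rev ρ gs ∅).1 = V ∧ ρ ∈ BadS code (resG V u gs) w0 t).card) * N := by ring
    _ = (univ.filter fun ρ : J → Bool × T => (rev ρ gs ∅).1 = V).card *
        ((BadS code (resG V u gs) w0 t).card * N) := by rw [h1]; ring
    _ ≤ (univ.filter fun ρ : J → Bool × T => (rev ρ gs ∅).1 = V).card *
        Fintype.card (J → Bool × T) := Nat.mul_le_mul_left _ h
    _ = _ := by ring

/-- the second kind of bad restrictions -/
lemma bad2_card (code : Y → T) {κ : ℕ} (gs : List (Bool × List (Jn J T)))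
    (hl : ∀ g ∈ gs, ∀ s ∈ g.2, s.1.card ≤ κ + 1 ∧ Dep s.1 s.2) (w0 : J → Y) (t N cap L : ℕ)
    (hL : Fintype.card T ≤ 2 ^ L)
    (h : ∀ V u, (BadS code (resG V u gs) w0 t).card * N ≤ Fintype.card (J → Bool × T)) :
    (open Classical in (univ.filter fun ρ : J → Bool × T =>
      (rev ρ gs ∅).1.card ≤ cap ∧
        ∃ u ∈ Rep T (rev ρ gs ∅).1, ρ ∈ BadS code (resG (rev ρ gs ∅).1 u gs) w0 t).card) * N ≤
    2 ^ (L * cap) * Fintype.card (J → Bool × T) := by
  classical
  set S : Finset (Finset J) := univ.filter fun V => V.card ≤ cap with hS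
  have hsub : (univ.filter fun ρ : J → Bool × T =>
      (rev ρ gs ∅).1.card ≤ cap ∧
        ∃ u ∈ Rep T (rev ρ gs ∅).1, ρ ∈ BadS code (resG (rev ρ gs ∅).1 u gs) w0 t) ⊆
      S.biUnion fun V => (Rep T V).biUnion fun u => univ.filter fun ρ : J → Bool × T =>
        (rev ρ gs ∅).1 = V ∧ ρ ∈ BadS code (resG V u gs) w0 t := by
    intro ρ hρ
    rw [mem_filter] at hρ
    obtain ⟨_, h1, u, hu, h2⟩ := hρ
    rw [mem_biUnion]
    refine ⟨(rev ρ gs ∅).1, by rw [hS, mem_filter]; exact ⟨mem_univ _, h1⟩, ?_⟩
    rw [mem_biUnion]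
    exact ⟨u, hu, by rw [mem_filter]; exact ⟨mem_univ _, rfl, h2⟩⟩
  have hT1 : 1 ≤ Fintype.card T := Fintype.card_pos
  have h1 : (univ.filter fun ρ : J → Bool × T =>
      (rev ρ gs ∅).1.card ≤ cap ∧
        ∃ u ∈ Rep T (rev ρ gs ∅).1, ρ ∈ BadS code (resG (rev ρ gs ∅).1 u gs) w0 t).card * N ≤
      ∑ V ∈ S, ∑ u ∈ Rep T V, (univ.filter fun ρ : J → Bool × T =>
        (rev ρ gs ∅).1 = V ∧ ρ ∈ BadS code (resG V u gs) w0 t).card * N := by
    simp_rw [← sum_mul]
    apply Nat.mul_le_mul_right
    refine (card_le_card hsub).trans (card_biUnion_le.trans ?_)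
    exact sum_le_sum fun V _ => card_biUnion_le
  refine h1.trans ?_
  have h2 : ∀ V ∈ S, ∑ u ∈ Rep T V, (univ.filter fun ρ : J → Bool × T =>
        (rev ρ gs ∅).1 = V ∧ ρ ∈ BadS code (resG V u gs) w0 t).card * N ≤
        2 ^ (L * cap) * (univ.filter fun ρ : J → Bool × T => (rev ρ gs ∅).1 = V).card := by
    intro V hV
    rw [hS, mem_filter] at hV
    refine (sum_le_card_nsmul _ _ _ fun u _ => BadS_fiber code gs hl w0 t N V u (h V u)).trans ?_
    rw [smul_eq_mul, card_Rep]
    apply Nat.mul_le_mul_right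
    calc Fintype.card T ^ V.card ≤ Fintype.card T ^ cap := Nat.pow_le_pow_right hT1 hV.2
      _ ≤ (2 ^ L) ^ cap := Nat.pow_le_pow_left hL _
      _ = 2 ^ (L * cap) := by rw [← pow_mul]
  refine (sum_le_sum h2).trans ?_
  rw [← mul_sum]
  apply Nat.mul_le_mul_left
  have h3 : Fintype.card (J → Bool × T) = ∑ V : Finset J,
      (univ.filter fun ρ : J → Bool × T => (rev ρ gs ∅).1 = V).card := by
    rw [← card_univ]
    exact card_eq_sum_card_fiberwise (fun _ _ => mem_coe.mpr (mem_univ _))
  rw [h3]
  exact sum_le_sum_of_subset (subset_univ _)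

end

/-- Main claim: few gates whose inputs depend on few columns become constant after a random
restriction and a shallow decision tree. -/
theorem claim (T : Type) [Fintype T] [Nonempty T] (κ : ℕ) : ∀ a : ℕ, 1 ≤ a → ∃ b : ℕ, 1 ≤ b ∧
    ∀ (Y : Type) (code : Y → T) (n : ℕ) (gs : List (Bool × List (Jn (Fin n) T)))
      (w0 : Fin n → Y), (∀ g ∈ gs, ∀ s ∈ g.2, s.1.card ≤ κ ∧ Dep s.1 s.2) → b * gs.length ≤ n →
      (BadS code gs w0 (n / a)).card * 2 ^ (n / b) ≤ Fintype.card (Fin n → Bool × T) := by
  classical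
  induction κ with
  | zero =>
    intro a ha
    refine ⟨1, le_rfl, fun Y code n gs w0 hl _ => ?_⟩
    have : BadS code gs w0 (n / a) = ∅ := by
      rw [eq_empty_iff_forall_notMem]
      intro ρ hρ
      rw [mem_BadS] at hρ
      apply hρ
      apply DT.leaf
      intro g hg y y' _ _
      unfold gv
      refine exists_congr fun s => and_congr_right fun hs => ?_
      obtain ⟨h1, h2⟩ := hl g hg s hs
      rw [h2 (Wd code ρ y) (Wd code ρ y')]
      intro j hj
      have : s.1 = ∅ := by rw [← card_eq_zero]; omega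
      rw [this] at hj
      simp at hj
    rw [this]
    simp
  | succ κ ih =>
    intro a ha
    obtain ⟨b', hb', hih⟩ := ih (2 * a) (by omega)
    set L := Fintype.card T with hL
    have hTL : Fintype.card T ≤ 2 ^ L := Nat.lt_two_pow_self.le
    set A := Fintype.card (Bool × T) with hA
    have hA1 : 1 ≤ A := Fintype.card_pos
    set P := (κ + 1) * (2 * A ^ (κ + 1)) with hP
    have hP1 : 1 ≤ P := by
      rw [hP]
      exact Nat.mul_pos (by omega) (Nat.mul_pos (by omega) (Nat.pow_pos hA1))
    set c1 := P * ((L + 1) * (8 * a) * b') with hc1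
    have hq1 : 1 ≤ (L + 1) * (8 * a) * b' :=
      Nat.mul_pos (Nat.mul_pos (by omega) (by omega)) hb'
    have hc1' : 1 ≤ c1 := Nat.mul_pos hP1 hq1
    have hc1b : 8 * b' ≤ c1 := by
      calc 8 * b' = 1 * (1 * (8 * 1) * b') := by ring
        _ ≤ P * ((L + 1) * (8 * a) * b') := by gcongr; omega
    refine ⟨8 * c1, by omega, fun Y code n gs w0 hl hlen => ?_⟩
    by_cases hn : n < 8 * c1
    · -- no gates
      have hgs : gs = [] := by
        rw [← List.length_eq_zero_iff]
        by_contra hne
        have : 8 * c1 * 1 ≤ 8 * c1 * gs.length := Nat.mul_le_mul_left _ (by omega)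
        omega
      have : BadS code gs w0 (n / a) = ∅ := by
        rw [eq_empty_iff_forall_notMem]
        intro ρ hρ
        rw [mem_BadS] at hρ
        apply hρ
        apply DT.leaf
        intro g hg
        rw [hgs] at hg
        simp at hg
      rw [this]
      simp
    push Not at hn
    set m := n / c1 with hm
    set M := n / (8 * c1) with hM
    have hM8 : 8 * M ≤ m := by
      rw [hM, hm, mul_comm 8 c1, ← Nat.div_div_eq_div_mul]
      exact Nat.mul_div_le _ _
    have hM1 : 1 ≤ M := by
      rw [hM]; exact (Nat.one_le_div_iff (by omega)).mpr hn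
    have hmc : c1 * m ≤ n := Nat.mul_div_le n c1
    have hlen' : gs.length ≤ M := by
      rw [hM, Nat.le_div_iff_mul_le (by omega), mul_comm]; exact hlen
    set cap := P * m with hcap
    have hcap1 : (L + 1) * (8 * a) * cap ≤ n / b' := by
      rw [Nat.le_div_iff_mul_le hb']
      calc (L + 1) * (8 * a) * cap * b' = c1 * m := by rw [hcap, hc1]; ring
        _ ≤ n := hmc
    have hnb : 8 * M ≤ n / b' := by
      have h1 : 8 * b' * (8 * M) ≤ c1 * (8 * M) := Nat.mul_le_mul_right _ hc1b
      have h2 : c1 * (8 * M) ≤ c1 * m := Nat.mul_le_mul_left _ hM8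
      rw [Nat.le_div_iff_mul_le hb']
      have h3 : 8 * M * b' ≤ 8 * b' * (8 * M) := by nlinarith [Nat.zero_le (M * b')]
      omega
    have hLcap : L * cap + (M + 1) ≤ n / b' := by
      have h1 : (L + 1) * (8 * a) * cap ≥ 8 * (L * cap) := by
        calc (L + 1) * (8 * a) * cap ≥ L * (8 * 1) * cap := by gcongr <;> omega
          _ = 8 * (L * cap) := by ring
      omega
    have hcapa : n / (2 * a) + cap ≤ n / a := by
      have h1 : 8 * a * cap ≤ n := by
        have h2 : 1 * (8 * a) * cap ≤ (L + 1) * (8 * a) * cap := by gcongr; omega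
        have h3 : n / b' ≤ n := Nat.div_le_self _ _
        linarith
      rw [Nat.le_div_iff_mul_le (by omega)]
      have h4 : 2 * a * (n / (2 * a)) ≤ n := Nat.mul_div_le _ _
      nlinarith [h1, h4, Nat.zero_le (a * cap)]
    -- the two kinds of bad restrictions
    set bad1 := univ.filter fun ρ : Fin n → Bool × T =>
      2 * A ^ (κ + 1) * m ≤ (rev ρ gs ∅).2 with hbad1
    set bad2 := univ.filter fun ρ : Fin n → Bool × T =>
      (rev ρ gs ∅).1.card ≤ cap ∧ ∃ u ∈ Rep T (rev ρ gs ∅).1,
        ρ ∈ BadS code (resG (rev ρ gs ∅).1 u gs) w0 (n / (2 * a)) with hbad2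
    have hsub : BadS code gs w0 (n / a) ⊆ bad1 ∪ bad2 := by
      intro ρ hρ
      rw [mem_union]
      by_cases h1 : 2 * A ^ (κ + 1) * m ≤ (rev ρ gs ∅).2
      · left; rw [hbad1, mem_filter]; exact ⟨mem_univ _, h1⟩
      · right
        rw [hbad2, mem_filter]
        push Not at h1
        have hcard : (rev ρ gs ∅).1.card ≤ cap := by
          have h2 := rev_card ρ (κ := κ + 1) gs (fun g hg s hs => (hl g hg s hs).1) ∅
          rw [card_empty, zero_add] at h2
          refine h2.trans ?_
          calc (κ + 1) * (rev ρ gs ∅).2 ≤ (κ + 1) * (2 * A ^ (κ + 1) * m) :=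
                Nat.mul_le_mul_left _ h1.le
            _ = cap := by rw [hcap, hP]; ring
        refine ⟨mem_univ _, hcard, ?_⟩
        by_contra hno
        push Not at hno
        rw [mem_BadS] at hρ
        apply hρ
        have h3 : ∀ u : Fin n → T, DT (AllC code ρ (resG (rev ρ gs ∅).1 u gs)) ∅ w0 (n / (2 * a)) := by
          intro u
          obtain ⟨u', hu', hu''⟩ := exists_Rep (rev ρ gs ∅).1 u gs
          have := hno u' hu'
          rw [mem_BadS, not_not, hu''] at this
          exact this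
        have h4 := DT_step code (fun g hg s hs => (hl g hg s hs).2) rfl w0 h3
        exact h4.mono _ (by omega)
    have hc_bad1 : bad1.card * 2 ^ (M + 1) ≤ Fintype.card (Fin n → Bool × T) := by
      have h1 := rev_tail (κ := κ + 1) gs hl m
      rw [← hA] at h1
      have h2 : bad1.card * 2 ^ m ≤ 2 ^ gs.length * Fintype.card (Fin n → Bool × T) := h1
      have h3 : 2 ^ gs.length * (bad1.card * 2 ^ (M + 1)) ≤
          2 ^ gs.length * Fintype.card (Fin n → Bool × T) := by
        refine le_trans ?_ h2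
        have h4 : 2 ^ gs.length * 2 ^ (M + 1) ≤ 2 ^ m := by
          rw [← pow_add]; exact Nat.pow_le_pow_right (by norm_num) (by omega)
        calc 2 ^ gs.length * (bad1.card * 2 ^ (M + 1))
            = bad1.card * (2 ^ gs.length * 2 ^ (M + 1)) := by ring
          _ ≤ bad1.card * 2 ^ m := Nat.mul_le_mul_left _ h4
      exact Nat.le_of_mul_le_mul_left h3 (by positivity)
    have hc_bad2 : bad2.card * 2 ^ (M + 1) ≤ Fintype.card (Fin n → Bool × T) := by
      have h1 := bad2_card code gs hl w0 (n / (2 * a)) (2 ^ (n / b')) cap L hTL (by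
        intro V u
        apply hih Y code n (resG V u gs) w0
        · intro g hg s hs
          exact (resG_spec V u gs hl g hg s hs).1
        · calc b' * (resG V u gs).length ≤ 8 * c1 * gs.length := by
                apply Nat.mul_le_mul _ (resG_length V u gs)
                omega
            _ ≤ n := hlen)
      have h2 : bad2.card * 2 ^ (n / b') ≤ 2 ^ (L * cap) * Fintype.card (Fin n → Bool × T) := h1
      have h3 : 2 ^ (L * cap) * (bad2.card * 2 ^ (M + 1)) ≤
          2 ^ (L * cap) * Fintype.card (Fin n → Bool × T) := by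
        refine le_trans ?_ h2
        have h4 : 2 ^ (L * cap) * 2 ^ (M + 1) ≤ 2 ^ (n / b') := by
          rw [← pow_add]; exact Nat.pow_le_pow_right (by norm_num) hLcap
        calc 2 ^ (L * cap) * (bad2.card * 2 ^ (M + 1))
            = bad2.card * (2 ^ (L * cap) * 2 ^ (M + 1)) := by ring
          _ ≤ bad2.card * 2 ^ (n / b') := Nat.mul_le_mul_left _ h4
      exact Nat.le_of_mul_le_mul_left h3 (by positivity)
    have h5 : (BadS code gs w0 (n / a)).card ≤ bad1.card + bad2.card :=
      (card_le_card hsub).trans (card_union_le _ _)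
    have h6 : 2 * ((BadS code gs w0 (n / a)).card * 2 ^ M) ≤
        2 * Fintype.card (Fin n → Bool × T) := by
      calc 2 * ((BadS code gs w0 (n / a)).card * 2 ^ M)
          = (BadS code gs w0 (n / a)).card * 2 ^ (M + 1) := by rw [pow_succ]; ring
        _ ≤ (bad1.card + bad2.card) * 2 ^ (M + 1) := Nat.mul_le_mul_right _ h5
        _ ≤ _ := by rw [add_mul]; omega
    omega

end Pool.Agent.Work.MP_c04246_lc.X
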