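import Mathlib
import Pool.Agent.Work.MP_c04246_lc.Defs

set_option autoImplicit false

namespace Pool.Agent.Work.MP_c04246_lc

/-- the assignment `v` satisfies the clause `C`, a finite set of literals; the literal `(x, b)` says
that the variable `x` has the value `b` -/
def ClTrue {V : Type} (v : V → Bool) (C : Finset (V × Bool)) : Prop := ∃ l ∈ C, v l.1 = l.2

/-- `F` is an unsatisfiable set of clauses -/
def Unsat {V : Type} (F : Finset (Finset (V × Bool))) : Prop := ∀ v : V → Bool, ∃ C ∈ F, ¬ ClTrue v C

/-- `pi` is a semantic refutation of the set of clauses `F`: every line (a Boolean function) is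
implied by at most `K` earlier lines together with at most `K` clauses of `F`, and some line is
identically false. -/
def SemRef {V : Type} (K : ℕ) (F : Finset (Finset (V × Bool))) (pi : List ((V → Bool) → Bool)) :
    Prop :=
  (∀ i : Fin pi.length, ∃ P : Finset (Fin pi.length), P.card ≤ K ∧ (∀ j ∈ P, j < i) ∧
    ∃ D : Finset (Finset (V × Bool)), D ⊆ F ∧ D.card ≤ K ∧
      ∀ v : V → Bool, (∀ j ∈ P, pi.get j v = true) → (∀ C ∈ D, ClTrue v C) → pi.get i v = true) ∧
  ∃ a ∈ pi, ∀ v : V → Bool, a v = false

/-- `h`, a function of the assignment and of the values of `g` gates, depends only on at most `k`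
variables and on the values of the gates with index less than `i`. -/
def LocalIn {V : Type} {g : ℕ} (k i : ℕ) (h : (V → Bool) → (Fin g → Bool) → Bool) : Prop :=
  ∃ S : Finset V, S.card ≤ k ∧ ∀ (v v' : V → Bool) (c c' : Fin g → Bool),
    (∀ x ∈ S, v x = v' x) → (∀ j : Fin g, j.val < i → c j = c' j) → h v c = h v' c'

/-- Gate number `i` is a disjunction, a conjunction or a connective `MOD_{p,r}` of unbounded fan-in;
each of its inputs is an arbitrary Boolean function of at most `k` variables and of the previous
gates. Here `G j v` is the value of gate number `j` under the assignment `v`. -/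
def IsGate {V : Type} {g : ℕ} (p k : ℕ) (G : Fin g → (V → Bool) → Bool) (i : Fin g) : Prop :=
  ∃ (l : ℕ) (h : Fin l → (V → Bool) → (Fin g → Bool) → Bool), (∀ t, LocalIn k i.val (h t)) ∧
    ((∀ v, G i v = true ↔ ∃ t, h t v (fun j => G j v) = true) ∨
     (∀ v, G i v = true ↔ ∀ t, h t v (fun j => G j v) = true) ∨
     ∃ r : ZMod p, ∀ v, G i v = true ↔
       (∑ t, if h t v (fun j => G j v) = true then (1 : ZMod p) else 0) = r)

/-- The Boolean function `f` is computed by a circuit with `g` such gates; its output is a Boolean
function of at most `k` variables and of the gates. -/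
def Few {V : Type} (p g k : ℕ) (f : (V → Bool) → Bool) : Prop :=
  ∃ G : Fin g → (V → Bool) → Bool, (∀ i, IsGate p k G i) ∧
    ∃ h : (V → Bool) → (Fin g → Bool) → Bool, LocalIn k g h ∧ ∀ v, f v = h v (fun j => G j v)

end Pool.Agent.Work.MP_c04246_lc
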