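import Mathlib

set_option autoImplicit false
set_option linter.unusedSectionVars false
set_option linter.unusedSimpArgs false
set_option linter.unusedVariables false

namespace Pool.Agent.Work.MP_c04246_lc.X

open Finset

section

variable {n m : ℕ} {T : Type} [Fintype T] [Nonempty T]

/-- exactly one endpoint is in `S` -/
def Cut (S : Finset (Fin m)) (e : Fin m × Fin m) : Prop := ¬ (e.1 ∈ S ↔ e.2 ∈ S)

instance (S : Finset (Fin m)) (e : Fin m × Fin m) : Decidable (Cut S e) := by
  unfold Cut; infer_instance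

/-- number of alive edges leaving `S` -/
def bd (G : Fin n → Fin m × Fin m) (al : Fin n → Bool) (S : Finset (Fin m)) : ℕ :=
  (univ.filter fun j => al j = true ∧ Cut S (G j)).card

/-- degree of a vertex -/
def dg (G : Fin n → Fin m × Fin m) (v : Fin m) : ℕ :=
  (univ.filter fun j => (G j).1 = v ∨ (G j).2 = v).card

/-- expansion of small sets -/
def ExpOK (ℓ : ℕ) (G : Fin n → Fin m × Fin m) (al : Fin n → Bool) : Prop :=
  ∀ S : Finset (Fin m), 2 * S.card ≤ m → ℓ * S.card ≤ bd G al S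

lemma card_Cut (S : Finset (Fin m)) :
    (univ.filter fun e : Fin m × Fin m => Cut S e).card = 2 * (S.card * (m - S.card)) := by
  classical
  have h1 : (univ.filter fun e : Fin m × Fin m => Cut S e) = (S ×ˢ Sᶜ) ∪ (Sᶜ ×ˢ S) := by
    ext e
    rw [mem_filter, mem_union, mem_product, mem_product, mem_compl, mem_compl]
    unfold Cut
    simp only [mem_univ, true_and]
    tauto
  have h2 : Disjoint (S ×ˢ Sᶜ) (Sᶜ ×ˢ S) := by
    rw [disjoint_left]
    intro e he1 he2
    rw [mem_product, mem_compl] at he1 he2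
    exact he2.1 he1.1
  rw [h1, card_union_of_disjoint h2, card_product, card_product, card_compl, Fintype.card_fin]
  ring

/-- one column -/
abbrev Co (m : ℕ) (T : Type) := (Fin m × Fin m) × (Bool × T)

lemma card_Co : (Fintype.card (Co m T) : ℝ) = 2 * m ^ 2 * Fintype.card T := by
  simp only [Co, Fintype.card_prod, Fintype.card_fin, Fintype.card_bool]
  push_cast
  ring

lemma sum_split {A B : Type} [Fintype A] [Fintype B] (f : A → ℝ) (g : B → ℝ) :
    ∑ x : A × B, f x.1 * g x.2 = (∑ a, f a) * ∑ b, g b := by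
  rw [Fintype.sum_prod_type, Fintype.sum_mul_sum]

lemma sum_one : ∑ x : Bool × T, (1 : ℝ) = 2 * Fintype.card T := by
  rw [sum_const, card_univ, nsmul_eq_mul, mul_one, Fintype.card_prod, Fintype.card_bool]
  push_cast; ring

lemma sum_cut (S : Finset (Fin m)) (hS : 2 * S.card ≤ m) (hm : 1 ≤ m) :
    ∑ x : Co m T, (if x.2.1 = true ∧ Cut S x.1 then (1 / 2 : ℝ) else 1) ≤
      Fintype.card (Co m T) * Real.exp (-(S.card / (4 * m))) := by
  have h1 : ∀ x : Co m T, (if x.2.1 = true ∧ Cut S x.1 then (1 / 2 : ℝ) else 1)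
      = 1 - (1 / 2) * (if x.2.1 = true ∧ Cut S x.1 then 1 else 0) := by
    intro x; split_ifs <;> norm_num
  simp_rw [h1]
  rw [sum_sub_distrib, ← mul_sum]
  have h2 : ∑ x : Co m T, (if x.2.1 = true ∧ Cut S x.1 then (1 : ℝ) else 0)
      = (2 * (S.card * (m - S.card))) * Fintype.card T := by
    have h3 : ∀ x : Co m T, (if x.2.1 = true ∧ Cut S x.1 then (1 : ℝ) else 0) =
        (if Cut S x.1 then (1 : ℝ) else 0) * (if x.2.1 = true then (1 : ℝ) else 0) := by
      intro x
      by_cases h1 : x.2.1 = true <;> by_cases h2 : Cut S x.1 <;> simp [h1, h2]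
    simp_rw [h3]
    rw [sum_split (fun e : Fin m × Fin m => if Cut S e then (1 : ℝ) else 0)
      (fun b : Bool × T => if b.1 = true then (1 : ℝ) else 0), sum_boole, card_Cut]
    have h4 : ∀ b : Bool × T, (if b.1 = true then (1 : ℝ) else 0) =
      (if b.1 = true then (1 : ℝ) else 0) * 1 := fun b => by rw [mul_one]
    rw [sum_congr rfl (fun b _ => h4 b)]
    rw [sum_split (fun b : Bool => if b = true then (1 : ℝ) else 0) (fun _ : T => (1 : ℝ))]
    rw [sum_const, card_univ, nsmul_eq_mul, mul_one]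
    have h5 : ∑ b : Bool, (if b = true then (1 : ℝ) else 0) = 1 := by simp
    rw [h5, one_mul]
    push_cast
    rw [Nat.cast_sub (by omega)]
  rw [h2, sum_const, card_univ, nsmul_eq_mul, mul_one, card_Co]
  have hm0 : (0 : ℝ) < m := by exact_mod_cast hm
  have hT0 : (0 : ℝ) < Fintype.card T := by exact_mod_cast Fintype.card_pos
  have hS' : 2 * (S.card : ℝ) ≤ m := by exact_mod_cast hS
  have hS0 : (0 : ℝ) ≤ S.card := Nat.cast_nonneg _
  have h4 : 1 - (S.card : ℝ) / (4 * m) ≤ Real.exp (-(S.card / (4 * m))) := by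
    have := Real.add_one_le_exp (-((S.card : ℝ) / (4 * m)))
    linarith
  have h5 : 2 * (m : ℝ) ^ 2 * Fintype.card T * (1 - (S.card : ℝ) / (4 * m)) ≤
      2 * (m : ℝ) ^ 2 * Fintype.card T * Real.exp (-(S.card / (4 * m))) :=
    mul_le_mul_of_nonneg_left h4 (by positivity)
  refine le_trans ?_ h5
  have h6 : 2 * (m : ℝ) ^ 2 * Fintype.card T * (1 - (S.card : ℝ) / (4 * m))
      = Fintype.card T * (2 * m ^ 2 - m * S.card / 2) := by
    field_simp
    ring
  rw [h6]
  have h7 : 2 * (m : ℝ) ^ 2 * Fintype.card T -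
      1 / 2 * (2 * (S.card * (m - S.card)) * Fintype.card T) =
      Fintype.card T * (2 * m ^ 2 - S.card * (m - S.card)) := by ring
  rw [h7]
  apply mul_le_mul_of_nonneg_left _ hT0.le
  nlinarith

lemma sum_deg (v : Fin m) (hm : 1 ≤ m) :
    ∑ x : Co m T, (if x.1.1 = v ∨ x.1.2 = v then (2 : ℝ) else 1) ≤
      Fintype.card (Co m T) * Real.exp (2 / m) := by
  classical
  have h1 : ∀ x : Co m T, (if x.1.1 = v ∨ x.1.2 = v then (2 : ℝ) else 1)
      ≤ 1 + (if x.1.1 = v then 1 else 0) + (if x.1.2 = v then 1 else 0) := by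
    intro x
    by_cases h1 : x.1.1 = v <;> by_cases h2 : x.1.2 = v <;> simp [h1, h2] <;> norm_num
  refine (sum_le_sum fun x _ => h1 x).trans ?_
  rw [sum_add_distrib, sum_add_distrib]
  have h2 : ∑ x : Co m T, (if x.1.1 = v then (1 : ℝ) else 0) = 2 * m * Fintype.card T := by
    have h3 : ∀ x : Co m T, (if x.1.1 = v then (1 : ℝ) else 0) =
        (if x.1.1 = v then (1 : ℝ) else 0) * 1 := fun x => by rw [mul_one]
    rw [sum_congr rfl (fun b _ => h3 b)]
    rw [sum_split (fun e : Fin m × Fin m => if e.1 = v then (1 : ℝ) else 0)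
      (fun _ : Bool × T => (1 : ℝ)), sum_one]
    have h4 : ∑ e : Fin m × Fin m, (if e.1 = v then (1 : ℝ) else 0) = m := by
      rw [Fintype.sum_prod_type, sum_comm]
      simp
    rw [h4]; ring
  have h3 : ∑ x : Co m T, (if x.1.2 = v then (1 : ℝ) else 0) = 2 * m * Fintype.card T := by
    have h3 : ∀ x : Co m T, (if x.1.2 = v then (1 : ℝ) else 0) =
        (if x.1.2 = v then (1 : ℝ) else 0) * 1 := fun x => by rw [mul_one]
    rw [sum_congr rfl (fun b _ => h3 b)]
    rw [sum_split (fun e : Fin m × Fin m => if e.2 = v then (1 : ℝ) else 0)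
      (fun _ : Bool × T => (1 : ℝ)), sum_one]
    have h4 : ∑ e : Fin m × Fin m, (if e.2 = v then (1 : ℝ) else 0) = m := by
      rw [Fintype.sum_prod_type]
      simp
    rw [h4]; ring
  rw [h2, h3, sum_const, card_univ, nsmul_eq_mul, mul_one, card_Co]
  have hm0 : (0 : ℝ) < m := by exact_mod_cast hm
  have hT0 : (0 : ℝ) < Fintype.card T := by exact_mod_cast Fintype.card_pos
  have h4 := Real.add_one_le_exp (2 / (m : ℝ))
  have h5 : 2 * (m : ℝ) ^ 2 * Fintype.card T * (2 / m + 1) ≤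
      2 * (m : ℝ) ^ 2 * Fintype.card T * Real.exp (2 / m) :=
    mul_le_mul_of_nonneg_left h4 (by positivity)
  refine le_trans (le_of_eq ?_) h5
  field_simp
  ring

lemma prod_ite_pow {ι : Type} (s : Finset ι) (a : ℝ) (P : ι → Prop) [DecidablePred P] :
    ∏ j ∈ s, (if P j then a else 1) = a ^ (s.filter P).card := by
  rw [prod_ite, prod_const_one, mul_one, prod_const]

/-- the number of pairs for which a given set does not expand -/
lemma fail_cut (ℓ : ℕ) (S : Finset (Fin m)) (hS : 2 * S.card ≤ m) (hm : 1 ≤ m)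
    (hnm : 8 * ℓ * m ≤ n) :
    ((univ.filter fun x : Fin n → Co m T =>
      bd (fun j => (x j).1) (fun j => (x j).2.1) S < ℓ * S.card).card : ℝ) ≤
      Fintype.card (Fin n → Co m T) * (Real.exp (-ℓ)) ^ S.card := by
  classical
  have h1 : ((univ.filter fun x : Fin n → Co m T =>
      bd (fun j => (x j).1) (fun j => (x j).2.1) S < ℓ * S.card).card : ℝ) *
        (1 / 2 : ℝ) ^ (ℓ * S.card) ≤
      ∑ x : Fin n → Co m T, ∏ j, (if (x j).2.1 = true ∧ Cut S (x j).1 then (1 / 2 : ℝ) else 1) := by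
    rw [← nsmul_eq_mul, ← sum_const]
    refine le_trans (sum_le_sum ?_) (sum_le_sum_of_subset_of_nonneg (filter_subset _ _)
      (fun x _ _ => prod_nonneg fun j _ => by split_ifs <;> norm_num))
    intro x hx
    rw [mem_filter] at hx
    rw [prod_ite_pow]
    exact pow_le_pow_of_le_one (by norm_num) (by norm_num) hx.2.le
  rw [← Fintype.sum_pow (fun a : Co m T => if a.2.1 = true ∧ Cut S a.1 then (1 / 2 : ℝ) else 1) n]
    at h1
  have h2 := sum_cut (T := T) S hS hm
  have h3 : (0 : ℝ) ≤ ∑ x : Co m T, (if x.2.1 = true ∧ Cut S x.1 then (1 / 2 : ℝ) else 1) :=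
    sum_nonneg fun x _ => by split_ifs <;> norm_num
  have h4 := h1.trans (pow_le_pow_left₀ h3 h2 n)
  rw [mul_pow, ← Real.exp_nat_mul] at h4
  have hm0 : (0 : ℝ) < m := by exact_mod_cast hm
  have h5 : (n : ℝ) * -(S.card / (4 * m)) ≤ -(2 * ℓ * S.card) := by
    have h6 : (8 : ℝ) * ℓ * m ≤ n := by exact_mod_cast hnm
    have h7 : (n : ℝ) * (S.card / (4 * m)) = (n / (4 * m)) * S.card := by ring
    have h8 : 2 * (ℓ : ℝ) ≤ n / (4 * m) := by
      rw [le_div_iff₀ (by positivity)]; linarith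
    have h9 : 2 * (ℓ : ℝ) * S.card ≤ n / (4 * m) * S.card :=
      mul_le_mul_of_nonneg_right h8 (Nat.cast_nonneg _)
    rw [mul_neg, h7]
    linarith
  have hcard : (Fintype.card (Fin n → Co m T) : ℝ) = (Fintype.card (Co m T) : ℝ) ^ n := by
    rw [Fintype.card_fun, Fintype.card_fin]; push_cast; rfl
  rw [← hcard] at h4
  have h6 : Real.exp ((n : ℝ) * -(S.card / (4 * m))) ≤ Real.exp (-(2 * ℓ * S.card)) :=
    Real.exp_le_exp.mpr h5
  have h7 : (2 : ℝ) ^ (ℓ * S.card) ≤ Real.exp (ℓ * S.card) := by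
    have : (2 : ℝ) ≤ Real.exp 1 := by
      have := Real.add_one_le_exp (1 : ℝ); linarith
    calc (2 : ℝ) ^ (ℓ * S.card) ≤ (Real.exp 1) ^ (ℓ * S.card) :=
          pow_le_pow_left₀ (by norm_num) this _
      _ = Real.exp (ℓ * S.card) := by rw [← Real.exp_nat_mul]; push_cast; ring_nf
  set c : ℝ := ((univ.filter fun x : Fin n → Co m T =>
      bd (fun j => (x j).1) (fun j => (x j).2.1) S < ℓ * S.card).card : ℝ) with hc
  have hc0 : 0 ≤ c := Nat.cast_nonneg _
  have hΩ0 : (0 : ℝ) ≤ Fintype.card (Fin n → Co m T) := Nat.cast_nonneg _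
  have h8 : c = c * (1 / 2 : ℝ) ^ (ℓ * S.card) * (2 : ℝ) ^ (ℓ * S.card) := by
    rw [mul_assoc, ← mul_pow]; norm_num
  rw [h8]
  calc c * (1 / 2 : ℝ) ^ (ℓ * S.card) * (2 : ℝ) ^ (ℓ * S.card)
      ≤ (Fintype.card (Fin n → Co m T) * Real.exp (-(2 * ℓ * S.card))) *
        Real.exp (ℓ * S.card) := by
        apply mul_le_mul (h4.trans (mul_le_mul_of_nonneg_left h6 hΩ0)) h7 (by positivity)
          (by positivity)
    _ = Fintype.card (Fin n → Co m T) * (Real.exp (-ℓ)) ^ S.card := by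
        rw [mul_assoc, ← Real.exp_add, ← Real.exp_nat_mul]
        congr 2
        ring

lemma fail_deg (ℓ : ℕ) (v : Fin m) (hm : 1 ≤ m) (hnm : n ≤ 16 * ℓ * m) :
    ((univ.filter fun x : Fin n → Co m T => 65 * ℓ ≤ dg (fun j => (x j).1) v).card : ℝ) ≤
      Fintype.card (Fin n → Co m T) * (1 / 2) ^ ℓ := by
  classical
  have h1 : ((univ.filter fun x : Fin n → Co m T =>
      65 * ℓ ≤ dg (fun j => (x j).1) v).card : ℝ) * (2 : ℝ) ^ (65 * ℓ) ≤
      ∑ x : Fin n → Co m T, ∏ j, (if (x j).1.1 = v ∨ (x j).1.2 = v then (2 : ℝ) else 1) := by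
    rw [← nsmul_eq_mul, ← sum_const]
    refine le_trans (sum_le_sum ?_) (sum_le_sum_of_subset_of_nonneg (filter_subset _ _)
      (fun x _ _ => prod_nonneg fun j _ => by split_ifs <;> norm_num))
    intro x hx
    rw [mem_filter] at hx
    rw [prod_ite_pow]
    exact pow_le_pow_right₀ (by norm_num) hx.2
  rw [← Fintype.sum_pow (fun a : Co m T => if a.1.1 = v ∨ a.1.2 = v then (2 : ℝ) else 1) n]
    at h1
  have h2 := sum_deg (T := T) v hm
  have h3 : (0 : ℝ) ≤ ∑ x : Co m T, (if x.1.1 = v ∨ x.1.2 = v then (2 : ℝ) else 1) :=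
    sum_nonneg fun x _ => by split_ifs <;> norm_num
  have h4 := h1.trans (pow_le_pow_left₀ h3 h2 n)
  rw [mul_pow, ← Real.exp_nat_mul] at h4
  have hm0 : (0 : ℝ) < m := by exact_mod_cast hm
  have hcard : (Fintype.card (Fin n → Co m T) : ℝ) = (Fintype.card (Co m T) : ℝ) ^ n := by
    rw [Fintype.card_fun, Fintype.card_fin]; push_cast; rfl
  rw [← hcard] at h4
  have h5 : Real.exp ((n : ℝ) * (2 / m)) ≤ (2 : ℝ) ^ (64 * ℓ) := by
    have h6 : (n : ℝ) * (2 / m) ≤ 32 * ℓ := by
      have : (n : ℝ) ≤ 16 * ℓ * m := by exact_mod_cast hnm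
      rw [mul_div_assoc', div_le_iff₀ hm0]
      linarith
    have h7 : Real.exp 1 ≤ 2 ^ 2 := by
      have := Real.exp_one_lt_d9; linarith
    calc Real.exp ((n : ℝ) * (2 / m)) ≤ Real.exp (32 * ℓ) := Real.exp_le_exp.mpr h6
      _ = (Real.exp 1) ^ (32 * ℓ) := by rw [← Real.exp_nat_mul]; push_cast; ring_nf
      _ ≤ (2 ^ 2) ^ (32 * ℓ) := pow_le_pow_left₀ (Real.exp_pos _).le h7 _
      _ = (2 : ℝ) ^ (64 * ℓ) := by rw [← pow_mul]; ring_nf
  set c : ℝ := ((univ.filter fun x : Fin n → Co m T =>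
      65 * ℓ ≤ dg (fun j => (x j).1) v).card : ℝ) with hc
  have hΩ0 : (0 : ℝ) ≤ Fintype.card (Fin n → Co m T) := Nat.cast_nonneg _
  have h6 : c * (2 : ℝ) ^ (65 * ℓ) ≤ Fintype.card (Fin n → Co m T) * 2 ^ (64 * ℓ) :=
    h4.trans (mul_le_mul_of_nonneg_left h5 hΩ0)
  have h7 : c * (2 : ℝ) ^ (65 * ℓ) = (c * 2 ^ ℓ) * 2 ^ (64 * ℓ) := by
    rw [mul_assoc, ← pow_add]; ring_nf
  rw [h7] at h6
  have h8 : c * 2 ^ ℓ ≤ Fintype.card (Fin n → Co m T) :=
    le_of_mul_le_mul_right h6 (by positivity)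
  have h9 : c = (c * 2 ^ ℓ) * (1 / 2) ^ ℓ := by
    rw [mul_assoc, ← mul_pow]; norm_num
  rw [h9]
  exact mul_le_mul_of_nonneg_right h8 (by positivity)

open Classical in
lemma exists_graph (T : Type) [Fintype T] [Nonempty T] (ℓ : ℕ) (hm : 1 ≤ m)
    (hnm : 8 * ℓ * m ≤ n) (hnm' : n ≤ 16 * ℓ * m) (hℓ : 16 * m ≤ 2 ^ ℓ) :
    ∃ G : Fin n → Fin m × Fin m, (∀ v, dg G v < 65 * ℓ) ∧
      4 * (univ.filter fun ρ : Fin n → Bool × T => ¬ ExpOK ℓ G (fun j => (ρ j).1)).card ≤
        Fintype.card (Fin n → Bool × T) := by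
  classical
  have hm0 : (0 : ℝ) < m := by exact_mod_cast hm
  set z : ℝ := (1 / 2) ^ ℓ with hz
  have hz0 : 0 ≤ z := by positivity
  have hzm : z * m ≤ 1 / 16 := by
    have h1 : (16 : ℝ) * m ≤ 2 ^ ℓ := by exact_mod_cast hℓ
    have h2 : z * 2 ^ ℓ = 1 := by rw [hz, ← mul_pow]; norm_num
    nlinarith
  have hexp : Real.exp (-ℓ) ≤ z := by
    have h1 : (2 : ℝ) ≤ Real.exp 1 := by
      have := Real.add_one_le_exp (1 : ℝ); linarith
    rw [Real.exp_neg, hz, one_div, inv_pow]
    apply inv_anti₀ (by positivity)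
    calc (2 : ℝ) ^ ℓ ≤ (Real.exp 1) ^ ℓ := pow_le_pow_left₀ (by norm_num) h1 _
      _ = Real.exp ℓ := by rw [← Real.exp_nat_mul, mul_one]
  set Ω : ℝ := ((Fintype.card (Fin n → Co m T) : ℕ) : ℝ) with hΩ
  have hΩ0 : 0 < Ω := by
    have : Nonempty (Fin m) := ⟨⟨0, hm⟩⟩
    rw [hΩ]; exact_mod_cast Fintype.card_pos
  let bp : (Fin n → Fin m × Fin m) → (Fin n → Bool × T) → Prop := fun G ρ =>
    (∃ v, 65 * ℓ ≤ dg G v) ∨ ¬ ExpOK ℓ G (fun j => (ρ j).1)
  set bad := univ.filter fun x : Fin n → Co m T => bp (fun j => (x j).1) (fun j => (x j).2)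
    with hbad
  have hbadcard : (bad.card : ℝ) ≤ Ω * (3 / 16) := by
    have hsub : bad ⊆ (((univ : Finset (Finset (Fin m))).filter fun S => S ≠ ∅ ∧ 2 * S.card ≤ m).biUnion
        fun S => univ.filter fun x : Fin n → Co m T =>
          bd (fun j => (x j).1) (fun j => (x j).2.1) S < ℓ * S.card) ∪
        ((univ : Finset (Fin m)).biUnion fun v => univ.filter fun x : Fin n → Co m T =>
          65 * ℓ ≤ dg (fun j => (x j).1) v) := by
      intro x hx
      rw [hbad, mem_filter] at hx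
      rw [mem_union, mem_biUnion, mem_biUnion]
      rcases hx.2 with ⟨v, hv⟩ | h
      · right
        exact ⟨v, mem_univ _, by rw [mem_filter]; exact ⟨mem_univ _, hv⟩⟩
      · left
        unfold ExpOK at h
        push Not at h
        obtain ⟨S, hS, hlt⟩ := h
        refine ⟨S, ?_, ?_⟩
        · rw [mem_filter]
          refine ⟨mem_univ _, ?_, hS⟩
          rintro rfl
          rw [card_empty, mul_zero] at hlt
          exact absurd hlt (Nat.not_lt_zero _)
        · rw [mem_filter]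
          exact ⟨mem_univ _, hlt⟩
    have h1 : (bad.card : ℝ) ≤
        (∑ S ∈ (univ : Finset (Finset (Fin m))).filter (fun S => S ≠ ∅ ∧ 2 * S.card ≤ m),
          Ω * z ^ S.card) + ∑ v : Fin m, Ω * z := by
      have h2 := (card_le_card hsub).trans (card_union_le _ _)
      have h3 := (Nat.cast_le (α := ℝ)).mpr h2
      rw [Nat.cast_add] at h3
      refine h3.trans ?_
      apply add_le_add
      · refine le_trans ((Nat.cast_le (α := ℝ)).mpr card_biUnion_le) ?_
        rw [Nat.cast_sum]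
        refine sum_le_sum fun S hS => ?_
        rw [mem_filter] at hS
        refine (fail_cut ℓ S hS.2.2 hm hnm).trans ?_
        exact mul_le_mul_of_nonneg_left (pow_le_pow_left₀ (Real.exp_pos _).le hexp _) hΩ0.le
      · refine le_trans ((Nat.cast_le (α := ℝ)).mpr card_biUnion_le) ?_
        rw [Nat.cast_sum]
        refine sum_le_sum fun v _ => ?_
        exact fail_deg ℓ v hm hnm'
    have h2 : ∑ S ∈ (univ : Finset (Finset (Fin m))).filter (fun S => S ≠ ∅ ∧ 2 * S.card ≤ m),
          Ω * z ^ S.card ≤ Ω * (1 / 8) := by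
      rw [← mul_sum]
      apply mul_le_mul_of_nonneg_left _ hΩ0.le
      have h3 : ∑ S : Finset (Fin m), z ^ S.card = (1 + z) ^ m := by
        have := Fintype.sum_pow_mul_eq_add_pow (Fin m) z 1
        rw [Fintype.card_fin] at this
        rw [add_comm, ← this]
        exact sum_congr rfl fun S _ => by rw [one_pow, mul_one]
      have h4 : ∑ S ∈ (univ : Finset (Finset (Fin m))).filter (fun S => S ≠ ∅ ∧ 2 * S.card ≤ m),
          z ^ S.card ≤ ∑ S ∈ (univ : Finset (Finset (Fin m))).erase ∅, z ^ S.card := by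
        apply sum_le_sum_of_subset_of_nonneg
        · intro S hS
          rw [mem_filter] at hS
          exact mem_erase.mpr ⟨hS.2.1, mem_univ _⟩
        · intro S _ _; positivity
      have h5 : ∑ S ∈ (univ : Finset (Finset (Fin m))).erase ∅, z ^ S.card = (1 + z) ^ m - 1 := by
        rw [← h3, ← add_sum_erase univ _ (mem_univ (∅ : Finset (Fin m)))]
        simp
      have h6 : (1 + z) ^ m ≤ 1 + 1 / 8 := by
        have h7 : (1 + z) ^ m ≤ Real.exp (z * m) := by
          calc (1 + z) ^ m ≤ (Real.exp z) ^ m := by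
                apply pow_le_pow_left₀ (by linarith)
                have := Real.add_one_le_exp z; linarith
            _ = Real.exp (z * m) := by rw [← Real.exp_nat_mul, mul_comm]
        have h8 : Real.exp (z * m) ≤ Real.exp (1 / 16) := Real.exp_le_exp.mpr hzm
        have h9 : Real.exp (1 / 16) ≤ 1 + 1 / 8 := by
          have h10 := Real.add_one_le_exp (-(1 / 16) : ℝ)
          have h11 : Real.exp (1 / 16) * Real.exp (-(1 / 16)) = 1 := by
            rw [← Real.exp_add]; norm_num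
          have h12 := Real.exp_pos (1 / 16 : ℝ)
          nlinarith
        linarith
      linarith
    have h3 : ∑ v : Fin m, Ω * z ≤ Ω * (1 / 16) := by
      rw [sum_const, card_univ, Fintype.card_fin, nsmul_eq_mul]
      calc (m : ℝ) * (Ω * z) = Ω * (z * m) := by ring
        _ ≤ Ω * (1 / 16) := mul_le_mul_of_nonneg_left hzm hΩ0.le
    calc (bad.card : ℝ) ≤ _ := h1
      _ ≤ Ω * (1 / 8) + Ω * (1 / 16) := add_le_add h2 h3
      _ = Ω * (3 / 16) := by ring
  by_contra hcon
  push Not at hcon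
  have h1 : bad.card = ∑ G : Fin n → Fin m × Fin m, (univ.filter fun ρ => bp G ρ).card := by
    have h2 : bad.card = (univ.filter fun y : (Fin n → Fin m × Fin m) × (Fin n → Bool × T) =>
        bp y.1 y.2).card := by
      refine card_bij (fun x _ => (fun j => (x j).1, fun j => (x j).2)) ?_ ?_ ?_
      · intro x hx
        rw [hbad, mem_filter] at hx
        rw [mem_filter]
        exact ⟨mem_univ _, hx.2⟩
      · intro x _ x' _ h
        rw [Prod.mk.injEq] at h
        funext j
        exact Prod.ext (congrFun h.1 j) (congrFun h.2 j)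
      · intro y hy
        rw [mem_filter] at hy
        refine ⟨fun j => (y.1 j, y.2 j), ?_, rfl⟩
        rw [hbad, mem_filter]
        exact ⟨mem_univ _, hy.2⟩
    rw [h2, card_filter, Fintype.sum_prod_type]
    refine sum_congr rfl fun G _ => ?_
    rw [card_filter]
  have h2 : ∀ G : Fin n → Fin m × Fin m, Fintype.card (Fin n → Bool × T) ≤
      4 * (univ.filter fun ρ => bp G ρ).card := by
    intro G
    by_cases hG : ∀ v, dg G v < 65 * ℓ
    · refine (hcon G hG).le.trans (Nat.mul_le_mul_left _ (card_le_card ?_))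
      intro ρ hρ
      rw [mem_filter] at hρ ⊢
      exact ⟨mem_univ _, Or.inr hρ.2⟩
    · push Not at hG
      have h3 : (univ.filter fun ρ => bp G ρ) = univ := by
        rw [filter_eq_self]
        intro ρ _
        exact Or.inl hG
      rw [h3, card_univ]
      omega
  have h3 : Fintype.card (Fin n → Fin m × Fin m) * Fintype.card (Fin n → Bool × T) ≤
      4 * bad.card := by
    rw [h1, mul_sum]
    calc Fintype.card (Fin n → Fin m × Fin m) * Fintype.card (Fin n → Bool × T)
        = ∑ G : Fin n → Fin m × Fin m, Fintype.card (Fin n → Bool × T) := by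
          rw [sum_const, card_univ, smul_eq_mul]
      _ ≤ _ := sum_le_sum fun G _ => h2 G
  have h4 : Ω = Fintype.card (Fin n → Fin m × Fin m) * Fintype.card (Fin n → Bool × T) := by
    rw [hΩ]
    simp only [Fintype.card_fun, Co, Fintype.card_prod]
    push_cast
    rw [mul_pow]
  have h5 : (Fintype.card (Fin n → Fin m × Fin m) : ℝ) * Fintype.card (Fin n → Bool × T) ≤
      4 * bad.card := by exact_mod_cast h3
  rw [← h4] at h5
  linarith

end

end Pool.Agent.Work.MP_c04246_lc.X
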