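import Mathlib
import Pool.Agent.Work.MP_c04246_lc.XDefs
import Pool.Agent.Work.MP_c04246_lc.XExpand
import Pool.Agent.Work.MP_c04246_lc.XClaim

set_option autoImplicit false
set_option linter.unusedSectionVars false
set_option linter.unusedSimpArgs false
set_option linter.unusedVariables false

namespace Pool.Agent.Work.MP_c04246_lc.X

open Finset

section

variable {n m : ℕ} {q : ℕ} [Fact q.Prime]

/-- bits of a column -/
abbrev Tq (q : ℕ) := Fin (q - 1) → Bool

/-- value of a column -/
def vl (q : ℕ) (t : Tq q) : ZMod q := ∑ i, if t i = true then 1 else 0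

/-- standard encoding -/
def cd (q : ℕ) (y : ZMod q) : Tq q := fun i => decide (i.val < y.val)

lemma vl_cd (y : ZMod q) : vl q (cd q y) = y := by
  have : NeZero q := ⟨(Fact.out : q.Prime).ne_zero⟩
  have hy := ZMod.val_lt y
  unfold vl cd
  simp only [decide_eq_true_eq]
  rw [sum_boole]
  have h1 : (univ.filter fun i : Fin (q - 1) => i.val < y.val).card = y.val := by
    have h2 : (univ.filter fun i : Fin (q - 1) => i.val < y.val)
        = (univ : Finset (Fin y.val)).map (Fin.castLEEmb (by omega)) := by
      ext i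
      simp only [mem_filter, mem_univ, true_and, mem_map]
      constructor
      · intro h
        exact ⟨⟨i.val, h⟩, by ext; simp⟩
      · rintro ⟨i', rfl⟩
        simp
    rw [h2, card_map, card_univ, Fintype.card_fin]
  rw [h1, ZMod.natCast_zmod_val]

/-- incidence coefficients -/
def inc (q : ℕ) (G : Fin n → Fin m × Fin m) (v : Fin m) (j : Fin n) : ZMod q :=
  (if (G j).1 = v then 1 else 0) - (if (G j).2 = v then 1 else 0)

lemma sum_inc (G : Fin n → Fin m × Fin m) (j : Fin n) : ∑ v, inc q G v j = 0 := by
  unfold inc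
  rw [sum_sub_distrib]
  simp

/-- incident columns -/
def Ic (G : Fin n → Fin m × Fin m) (v : Fin m) : Finset (Fin n) :=
  univ.filter fun j => (G j).1 = v ∨ (G j).2 = v

lemma inc_off {G : Fin n → Fin m × Fin m} {v : Fin m} {j : Fin n} (h : j ∉ Ic G v) :
    inc q G v j = 0 := by
  unfold Ic at h
  rw [mem_filter] at h
  push Not at h
  have := h (mem_univ _)
  unfold inc
  rw [if_neg this.1, if_neg this.2, sub_zero]

/-- value of a row -/
def rw' (q : ℕ) (G : Fin n → Fin m × Fin m) (v : Fin m) (x : Fin n → Tq q) : ZMod q :=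
  ∑ j, inc q G v j * vl q (x j)

lemma rw'_congr {G : Fin n → Fin m × Fin m} {v : Fin m} {x x' : Fin n → Tq q}
    (h : ∀ j ∈ Ic G v, x j = x' j) : rw' q G v x = rw' q G v x' := by
  unfold rw'
  refine sum_congr rfl fun j _ => ?_
  by_cases hj : j ∈ Ic G v
  · rw [h j hj]
  · rw [inc_off hj, zero_mul, zero_mul]

/-- right hand side -/
def rhs (q : ℕ) (v : Fin m) : ZMod q := if v.val = 0 then 1 else 0

/-- wrong assignments of a row -/
noncomputable def wrong (q : ℕ) (G : Fin n → Fin m × Fin m) (v : Fin m) :
    Finset (Fin n → Tq q) :=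
  (Fintype.piFinset fun j => if j ∈ Ic G v then univ else {fun _ => false}).filter
    fun x => rw' q G v x ≠ rhs q v

/-- clause excluding an assignment -/
def clse (q : ℕ) (G : Fin n → Fin m × Fin m) (v : Fin m) (x : Fin n → Tq q) :
    Finset ((Fin n × Fin (q - 1)) × Bool) :=
  ((Ic G v) ×ˢ (univ : Finset (Fin (q - 1)))).image fun z => (z, !(x z.1 z.2))

lemma ClTrue_clse {G : Fin n → Fin m × Fin m} {v : Fin m} {x : Fin n → Tq q}
    {a : Fin n × Fin (q - 1) → Bool} :
    ClTrue a (clse q G v x) ↔ ¬ ∀ j ∈ Ic G v, (fun i => a (j, i)) = x j := by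
  unfold ClTrue clse
  push Not
  constructor
  · rintro ⟨l, hl, hal⟩
    rw [mem_image] at hl
    obtain ⟨z, hz, rfl⟩ := hl
    rw [mem_product] at hz
    refine ⟨z.1, hz.1, ?_⟩
    intro h
    have h1 := congrFun h z.2
    simp only at h1 hal
    rw [← h1] at hal
    simp at hal
  · rintro ⟨j, hj, hne⟩
    have : ∃ i, a (j, i) ≠ x j i := by
      by_contra hcon
      push Not at hcon
      exact hne (funext hcon)
    obtain ⟨i, hi⟩ := this
    refine ⟨((j, i), !(x j i)), ?_, ?_⟩
    · rw [mem_image]
      exact ⟨(j, i), by rw [mem_product]; exact ⟨hj, mem_univ _⟩, rfl⟩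
    · simp only
      cases h1 : a (j, i) <;> cases h2 : x j i <;> simp_all

/-- the set of clauses -/
noncomputable def Fts (q : ℕ) (G : Fin n → Fin m × Fin m) :
    Finset (Finset ((Fin n × Fin (q - 1)) × Bool)) :=
  (univ : Finset (Fin m)).biUnion fun v => (wrong q G v).image (clse q G v)

lemma Unsat_Fts (G : Fin n → Fin m × Fin m) (hm : 1 ≤ m) : Unsat (Fts q G) := by
  classical
  intro a
  set X : Fin n → Tq q := fun j i => a (j, i) with hX
  have h1 : ∃ v, rw' q G v X ≠ rhs q v := by
    by_contra hcon
    push Not at hcon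
    have h2 : ∑ v, rw' q G v X = 0 := by
      unfold rw'
      rw [sum_comm]
      apply sum_eq_zero
      intro j _
      rw [← sum_mul, sum_inc, zero_mul]
    have h3 : ∑ v : Fin m, rhs q v = 1 := by
      unfold rhs
      rw [sum_eq_single (⟨0, hm⟩ : Fin m)]
      · simp
      · intro v _ hv
        rw [if_neg]
        intro h; apply hv; ext; simpa using h
      · intro h; exact absurd (mem_univ _) h
    rw [sum_congr rfl (fun v _ => hcon v), h3] at h2
    have : Nontrivial (ZMod q) := by
      have := (Fact.out : q.Prime).one_lt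
      exact ZMod.nontrivial_iff.mpr (by omega)
    exact one_ne_zero h2
  obtain ⟨v, hv⟩ := h1
  set x : Fin n → Tq q := fun j => if j ∈ Ic G v then X j else fun _ => false with hx
  have hxX : ∀ j ∈ Ic G v, x j = X j := by
    intro j hj
    rw [hx]; simp [hj]
  refine ⟨clse q G v x, ?_, ?_⟩
  · unfold Fts
    rw [mem_biUnion]
    refine ⟨v, mem_univ _, mem_image_of_mem _ ?_⟩
    unfold wrong
    rw [mem_filter, Fintype.mem_piFinset]
    constructor
    · intro j
      by_cases hj : j ∈ Ic G v
      · simp [hj]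
      · simp [hj, hx]
    · rw [rw'_congr hxX]; exact hv
  · rw [ClTrue_clse, not_not]
    intro j hj
    rw [hxX j hj]

lemma card_clse (G : Fin n → Fin m × Fin m) (v : Fin m) (x : Fin n → Tq q) :
    (clse q G v x).card ≤ (q - 1) * dg G v := by
  unfold clse
  refine card_image_le.trans ?_
  rw [card_product, card_univ, Fintype.card_fin, mul_comm]
  exact le_of_eq rfl

lemma card_Fts (G : Fin n → Fin m × Fin m) {D : ℕ} (hD : ∀ v, dg G v ≤ D) :
    (Fts q G).card ≤ m * 2 ^ ((q - 1) * D) := by
  classical
  unfold Fts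
  refine card_biUnion_le.trans ?_
  calc ∑ v : Fin m, ((wrong q G v).image (clse q G v)).card
      ≤ ∑ v : Fin m, 2 ^ ((q - 1) * D) := by
        refine sum_le_sum fun v _ => card_image_le.trans ((card_filter_le _ _).trans ?_)
        rw [Fintype.card_piFinset]
        have h4 : ∀ j, (if j ∈ Ic G v then univ else {fun _ => false} : Finset (Tq q)).card
            = if j ∈ Ic G v then 2 ^ (q - 1) else 1 := by
          intro j
          split_ifs
          · rw [card_univ]; simp [Tq]
          · rw [card_singleton]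
        simp_rw [h4]
        rw [prod_ite, prod_const_one, mul_one, prod_const, ← pow_mul]
        apply Nat.pow_le_pow_right (by norm_num)
        apply Nat.mul_le_mul_left
        refine le_trans (card_le_card ?_) (hD v)
        intro j hj
        rw [mem_filter] at hj
        exact hj.2
    _ = m * 2 ^ ((q - 1) * D) := by
        rw [sum_const, card_univ, Fintype.card_fin, smul_eq_mul]

/-- coefficients of the restricted system -/
def cobG (q : ℕ) (G : Fin n → Fin m × Fin m) (al : Fin n → Bool) :
    (Fin m → ZMod q) →ₗ[ZMod q] (Fin n → ZMod q) where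
  toFun k j := if al j = true then k (G j).1 - k (G j).2 else 0
  map_add' k k' := by
    funext j
    by_cases h : al j = true
    · simp only [h, if_true, Pi.add_apply]; ring
    · simp [h]
  map_smul' r k := by
    funext j
    by_cases h : al j = true
    · simp only [h, if_true, Pi.smul_apply, smul_eq_mul, RingHom.id_apply]; ring
    · simp [h]

lemma cobG_single (G : Fin n → Fin m × Fin m) (al : Fin n → Bool) (v : Fin m) (j : Fin n) :
    cobG q G al (Pi.single v 1) j = if al j = true then inc q G v j else 0 := by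
  unfold cobG inc
  simp only [LinearMap.coe_mk, AddHom.coe_mk, Pi.single_apply]

lemma sc_cobG_single [NeZero q] (G : Fin n → Fin m × Fin m) (al : Fin n → Bool) (v : Fin m) :
    sc (cobG q G al (Pi.single v 1)) ≤ dg G v := by
  unfold sc dg
  apply card_le_card
  intro j hj
  rw [mem_filter] at hj ⊢
  refine ⟨mem_univ _, ?_⟩
  by_contra hcon
  apply hj.2
  rw [cobG_single]
  split_ifs
  · exact inc_off (by unfold Ic; rw [mem_filter]; exact fun h => hcon h.2)
  · rfl

lemma Expd_cobG [NeZero q] {ℓ : ℕ} {G : Fin n → Fin m × Fin m} {al : Fin n → Bool}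
    (h : ExpOK ℓ G al) {r0 : ℕ} (hr0 : 4 * r0 ≤ m) : Expd (cobG q G al) ℓ r0 := by
  intro k hk
  have h1 := h (univ.filter fun v => k v ≠ 0) (by unfold sc at hk; omega)
  refine h1.trans (card_le_card ?_)
  intro j hj
  rw [mem_filter] at hj ⊢
  refine ⟨mem_univ _, ?_⟩
  obtain ⟨_, hal, hcut⟩ := hj
  show (if al j = true then k (G j).1 - k (G j).2 else 0) ≠ 0
  rw [if_pos hal]
  unfold Cut at hcut
  simp only [mem_filter, mem_univ, true_and] at hcut
  intro h0
  have : k (G j).1 = k (G j).2 := sub_eq_zero.mp h0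
  rw [this] at hcut
  exact hcut Iff.rfl

/-- restricted right hand sides -/
def crs (q : ℕ) (G : Fin n → Fin m × Fin m) (ρ : Fin n → Bool × Tq q) (v : Fin m) : ZMod q :=
  rhs q v - ∑ j, if (ρ j).1 = true then 0 else inc q G v j * vl q (ρ j).2

lemma rw'_Wd (G : Fin n → Fin m × Fin m) (ρ : Fin n → Bool × Tq q) (v : Fin m)
    (y : Fin n → ZMod q) :
    rw' q G v (Wd (cd q) ρ y) = rhs q v ↔
      dv (cobG q G (fun j => (ρ j).1)) y v = crs q G ρ v := by
  have h1 : rw' q G v (Wd (cd q) ρ y) = dv (cobG q G (fun j => (ρ j).1)) y v +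
      ∑ j, if (ρ j).1 = true then 0 else inc q G v j * vl q (ρ j).2 := by
    unfold rw' dv
    rw [← sum_add_distrib]
    refine sum_congr rfl fun j _ => ?_
    rw [cobG_single]
    unfold Wd
    by_cases h : (ρ j).1 = true
    · simp only [h, if_true, vl_cd, add_zero]
    · simp [h]
  rw [h1]
  unfold crs
  constructor
  · intro h; rw [← h]; ring
  · intro h; rw [h]; ring

/-- assignment of the variables determined by the columns -/
def xT {n s : ℕ} (x : Fin n → Fin s → Bool) : Fin n × Fin s → Bool := fun z => x z.1 z.2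

lemma Dep_clause {K' : Type} [Field K'] (G : Fin n → Fin m × Fin m) (ρ : Fin n → Bool × Tq q)
    (v : Fin m) (x : Fin n → Tq q) :
    Junta (q := q) (Ic G v) (open Classical in fun y : Fin n → ZMod q =>
      if ClTrue (xT (Wd (cd q) ρ y)) (clse q G v x) then (0 : K') else 1) := by
  classical
  intro y y' hy
  have h1 : ClTrue (xT (Wd (cd q) ρ y)) (clse q G v x) ↔
      ClTrue (xT (Wd (cd q) ρ y')) (clse q G v x) := by
    rw [ClTrue_clse, ClTrue_clse]
    have : ∀ j ∈ Ic G v, (fun i => xT (Wd (cd q) ρ y) (j, i)) = fun i => xT (Wd (cd q) ρ y') (j, i) := by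
      intro j hj
      funext i
      unfold xT Wd
      simp only [hy j hj]
    constructor
    · intro h hcon
      exact h fun j hj => by rw [this j hj]; exact hcon j hj
    · intro h hcon
      exact h fun j hj => by rw [← this j hj]; exact hcon j hj
  by_cases h : ClTrue (xT (Wd (cd q) ρ y)) (clse q G v x)
  · simp only [if_pos h, if_pos (h1.mp h)]
  · simp only [if_neg h, if_neg (fun h' => h (h1.mpr h'))]

end

end Pool.Agent.Work.MP_c04246_lc.X
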