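import Mathlib
import Pool.Agent.Work.MP_c04246_lc.HDefs2
import Pool.Agent.Work.MP_c04246_lc.HAlg
import Pool.Agent.Work.MP_c04246_lc.HFree
import Pool.Agent.Work.MP_c04246_lc.XFamily

set_option autoImplicit false
set_option linter.unusedSectionVars false
set_option linter.unusedSimpArgs false
set_option linter.unusedVariables false
set_option linter.unnecessarySeqFocus false

namespace Pool.Agent.Work.MP_c04246_lc.H

open Finset

section pciG

variable {J R : Type} [Fintype J] [DecidableEq J] [Fintype R] [DecidableEq R] {q : ℕ} [NeZero q]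
  {K : Type} [Field K]

/-- the ideal of the linear system -/
def pciG {cob : (R → ZMod q) →ₗ[ZMod q] (J → ZMod q)} {e r0 B : ℕ} {ψ : AddChar (ZMod q) K}
    (hψ : ψ.IsPrimitive) (hq : (q : K) ≠ 0) (hE : X.Expd cob e r0) (he : 1 ≤ e)
    (hB : 2 * B ≤ e * r0) (c : R → ZMod q) : PCI (J → ZMod q) K where
  Deg D := Submodule.span K {g : (J → ZMod q) → K | ∃ a : J → ZMod q, X.sc a ≤ D ∧ g = X.chr ψ a}
  Zr :=
    { carrier := {f | X.Zr cob r0 ψ c B f}
      add_mem' := fun hf hg => X.Zr.add hf hg
      zero_mem' := X.Zr.zero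
      smul_mem' := fun r f hf => X.Zr.smul r hf }
  B := B
  mono := fun h f hf => X.Deg.mono h hf
  one := X.Deg.one
  mul := fun hf hg => X.Deg.mul hf hg
  zmul := fun hD hf hz hg => X.Zr.mul hψ hq hE he hB hD hf hz hg

end pciG

section gsys

variable {q n k M : ℕ} {G : Fin n → Fin k × Fin k}

/-- points near the vertex `v` -/
def ptsAt (G : Fin n → Fin k × Fin k) (M : ℕ) (v : Fin k) : Finset (Fin n × Fin M) :=
  univ.filter fun u => (G u.1).1 = v ∨ (G u.1).2 = v

lemma mem_ptsAt {v : Fin k} {u : Fin n × Fin M} :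
    u ∈ ptsAt G M v ↔ (G u.1).1 = v ∨ (G u.1).2 = v := by simp [ptsAt]

/-- the hypergraph of a graph -/
def gSys (q : ℕ) {n k : ℕ} (G : Fin n → Fin k × Fin k) (M : ℕ) :
    Sys (Fin n × Fin M) (HE q G M) (Fin k) (Fin n) q where
  es := HE.pts
  wd x := x.1.1
  Wv := ptsAt G M
  bl := Prod.fst
  card_es x := x.2.1
  sub x := fun u hu => mem_ptsAt.mpr (x.2.2 u hu)
  ex v S hS hc := ⟨⟨(v, S), hc, fun u hu => mem_ptsAt.mp (hS hu)⟩, rfl, rfl⟩
  inj x y h1 h2 := Subtype.ext (Prod.ext h1 h2)
  two u := by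
    have h1 : (univ.filter fun v => u ∈ ptsAt G M v) ⊆ {(G u.1).1, (G u.1).2} := by
      intro v hv
      rw [mem_filter, mem_ptsAt] at hv
      rw [mem_insert, mem_singleton]
      rcases hv.2 with h | h
      · exact Or.inl h.symm
      · exact Or.inr h.symm
    exact (card_le_card h1).trans card_le_two

lemma es_def (x : HE q G M) : (gSys q G M).es x = x.1.2 := rfl

/-- partition of a set of points near a vertex -/
lemma exists_part (hq : 0 < q) (v : Fin k) (N : ℕ) : ∀ A : Finset (Fin n × Fin M), A.card ≤ N →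
    A ⊆ ptsAt G M v → q ∣ A.card →
    ∃ π : Finset (HE q G M), PP (gSys q G M).es π ∧ cov (gSys q G M).es π = A ∧
      ∀ x ∈ π, x.1.1 = v := by
  classical
  induction N with
  | zero =>
    intro A hA _ _
    have : A = ∅ := by rw [← card_eq_zero]; omega
    subst this
    exact ⟨∅, PP.empty, cov_empty, fun x hx => absurd hx (notMem_empty x)⟩
  | succ N ih =>
    intro A hA hAv hdiv
    rcases A.eq_empty_or_nonempty with rfl | hne
    · exact ⟨∅, PP.empty, cov_empty, fun x hx => absurd hx (notMem_empty x)⟩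
    · have h2 : q ≤ A.card := Nat.le_of_dvd (card_pos.mpr hne) hdiv
      obtain ⟨S, hS, hSq⟩ := exists_subset_card_eq h2
      obtain ⟨x, hx1, hx2⟩ := (gSys q G M).ex v S (hS.trans hAv) hSq
      obtain ⟨π, hπ, hc, hv⟩ := ih (A \ S) (by
        rw [card_sdiff_of_subset hS]; omega) (sdiff_subset.trans hAv) (by
        rw [card_sdiff_of_subset hS, hSq]; exact Nat.dvd_sub hdiv (dvd_refl q))
      refine ⟨insert x π, hπ.insert ?_, ?_, ?_⟩
      · rw [hx2, hc]; exact disjoint_sdiff
      · rw [cov_insert, hx2, hc]; exact union_sdiff_of_subset hS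
      · intro z hz
        rcases mem_insert.mp hz with rfl | hz
        · exact hx1
        · exact hv z hz

open Classical in
/-- the chosen partition -/
noncomputable def part (q : ℕ) (G : Fin n → Fin k × Fin k) (M : ℕ) (v : Fin k)
    (A : Finset (Fin n × Fin M)) : Finset (HE q G M) :=
  if h : ∃ π : Finset (HE q G M), PP (gSys q G M).es π ∧ cov (gSys q G M).es π = A ∧
      ∀ x ∈ π, x.1.1 = v then Classical.choose h else ∅

lemma part_wd {v : Fin k} {A : Finset (Fin n × Fin M)} {x : HE q G M} (hx : x ∈ part q G M v A) :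
    x.1.1 = v := by
  unfold part at hx
  split_ifs at hx with h
  · exact (Classical.choose_spec h).2.2 x hx
  · exact absurd hx (notMem_empty x)

lemma part_PP {v : Fin k} {A : Finset (Fin n × Fin M)} :
    PP (gSys q G M).es (part q G M v A) := by
  unfold part
  split_ifs with h
  · exact (Classical.choose_spec h).1
  · exact PP.empty

lemma part_cov (hq : 0 < q) {v : Fin k} {A : Finset (Fin n × Fin M)} (hA : A ⊆ ptsAt G M v) :
    cov (gSys q G M).es (part q G M v A) = if q ∣ A.card then A else ∅ := by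
  by_cases hd : q ∣ A.card
  · rw [if_pos hd]
    have h := exists_part hq v _ A le_rfl hA hd
    unfold part
    rw [dif_pos h]
    exact (Classical.choose_spec h).2.1
  · rw [if_neg hd]
    unfold part
    rw [dif_neg, cov_empty]
    rintro ⟨π, h1, h2, _⟩
    apply hd
    rw [← h2, h1.card_cov (gSys q G M).card_es]
    exact dvd_mul_right _ _

lemma part_cov_sub {v : Fin k} {A : Finset (Fin n × Fin M)} :
    cov (gSys q G M).es (part q G M v A) ⊆ A := by
  unfold part
  split_ifs with h
  · exact (Classical.choose_spec h).2.1.subset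
  · rw [cov_empty]; exact empty_subset _

variable (ρ : Finset (HE q G M))

/-- uncovered points of an edge -/
def fr (ρ : Finset (HE q G M)) (e : Fin n) : Finset (Fin n × Fin M) := (gSys q G M).fb e ρ

lemma mem_fr {e : Fin n} {u : Fin n × Fin M} :
    u ∈ fr ρ e ↔ u.1 = e ∧ u ∉ cov (gSys q G M).es ρ := by
  unfold fr Sys.fb
  rw [mem_sdiff, mem_filter]
  simp [gSys]

open Classical in
/-- chosen sets of `j` uncovered points of an edge -/
noncomputable def hd (e : Fin n) (j : ℕ) : Finset (Fin n × Fin M) :=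
  if h : j ≤ (fr ρ e).card then Classical.choose (exists_subset_card_eq h) else ∅

lemma hd_sub (e : Fin n) (j : ℕ) : hd ρ e j ⊆ fr ρ e := by
  unfold hd
  split_ifs with h
  · exact (Classical.choose_spec (exists_subset_card_eq h)).1
  · exact empty_subset _

lemma hd_card {e : Fin n} {j : ℕ} (h : j ≤ (fr ρ e).card) : (hd ρ e j).card = j := by
  unfold hd
  rw [dif_pos h]
  exact (Classical.choose_spec (exists_subset_card_eq h)).2

/-- the vertex which receives the point -/
noncomputable def asg (y : Fin n → ZMod q) (u : Fin n × Fin M) : Fin k :=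
  if u ∈ hd ρ u.1 (y u.1).val then (G u.1).1 else (G u.1).2

/-- the points received by a vertex -/
noncomputable def rcv (y : Fin n → ZMod q) (v : Fin k) : Finset (Fin n × Fin M) :=
  univ.filter fun u => u ∉ cov (gSys q G M).es ρ ∧ asg ρ y u = v

lemma mem_rcv {y : Fin n → ZMod q} {v : Fin k} {u : Fin n × Fin M} :
    u ∈ rcv ρ y v ↔ u ∉ cov (gSys q G M).es ρ ∧ asg ρ y u = v := by simp [rcv]

lemma rcv_sub (y : Fin n → ZMod q) (v : Fin k) : rcv ρ y v ⊆ ptsAt G M v := by
  intro u hu
  rw [mem_rcv] at hu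
  rw [mem_ptsAt, ← hu.2]
  unfold asg
  split_ifs
  · exact Or.inl rfl
  · exact Or.inr rfl

/-- the partial matching of a flow -/
noncomputable def wm (y : Fin n → ZMod q) : Finset (HE q G M) :=
  ρ ∪ univ.biUnion fun v => part q G M v (rcv ρ y v)

lemma mem_wm {y : Fin n → ZMod q} {x : HE q G M} :
    x ∈ wm ρ y ↔ x ∈ ρ ∨ x ∈ part q G M x.1.1 (rcv ρ y x.1.1) := by
  unfold wm
  rw [mem_union, mem_biUnion]
  constructor
  · rintro (h | ⟨v, _, h⟩)
    · exact Or.inl h
    · have := part_wd h
      rw [this]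
      exact Or.inr h
  · rintro (h | h)
    · exact Or.inl h
    · exact Or.inr ⟨_, mem_univ _, h⟩

lemma wm_PP (hρ : PP (gSys q G M).es ρ) (y : Fin n → ZMod q) : PP (gSys q G M).es (wm ρ y) := by
  have h1 : ∀ x, x ∈ part q G M x.1.1 (rcv ρ y x.1.1) → ∀ u ∈ (gSys q G M).es x,
      u ∉ cov (gSys q G M).es ρ ∧ asg ρ y u = x.1.1 := by
    intro x hx u hu
    have := part_cov_sub (es_subset_cov hx hu)
    exact (mem_rcv ρ).mp this
  intro x hx z hz hne
  rw [mem_wm] at hx hz
  rcases hx with hx | hx
  · rcases hz with hz | hz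
    · exact hρ x hx z hz hne
    · rw [disjoint_left]
      intro u hu hu'
      exact (h1 z hz u hu').1 (es_subset_cov hx hu)
  · rcases hz with hz | hz
    · rw [disjoint_left]
      intro u hu hu'
      exact (h1 x hx u hu).1 (es_subset_cov hz hu')
    · by_cases hv : x.1.1 = z.1.1
      · rw [← hv] at hz
        exact part_PP x hx z hz hne
      · rw [disjoint_left]
        intro u hu hu'
        exact hv ((h1 x hx u hu).2.symm.trans (h1 z hz u hu').2)

lemma cov_wm (hq : 0 < q) (y : Fin n → ZMod q) {u : Fin n × Fin M}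
    (hu : u ∉ cov (gSys q G M).es ρ) :
    u ∈ cov (gSys q G M).es (wm ρ y) ↔ q ∣ (rcv ρ y (asg ρ y u)).card := by
  have hur : u ∈ rcv ρ y (asg ρ y u) := (mem_rcv ρ).mpr ⟨hu, rfl⟩
  rw [mem_cov]
  constructor
  · rintro ⟨x, hx, hux⟩
    rw [mem_wm] at hx
    rcases hx with hx | hx
    · exact absurd (es_subset_cov hx hux) hu
    · have h1 := es_subset_cov hx hux
      have h2 := (mem_rcv ρ).mp (part_cov_sub h1)
      rw [part_cov hq (rcv_sub ρ y _)] at h1
      rw [h2.2]
      by_contra hcon
      rw [if_neg hcon] at h1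
      exact absurd h1 (notMem_empty u)
  · intro hd
    have h1 := part_cov hq (rcv_sub ρ y (asg ρ y u))
    rw [if_pos hd] at h1
    rw [← h1] at hur
    obtain ⟨x, hx, hux⟩ := mem_cov.mp hur
    refine ⟨x, ?_, hux⟩
    rw [mem_wm]
    right
    rw [part_wd hx]; exact hx

/-- right hand sides -/
def crhs (v : Fin k) : ZMod q := -∑ e, if (G e).2 = v then ((fr ρ e).card : ZMod q) else 0

variable [Fact q.Prime]

lemma rcv_card (hfr : ∀ e, q ≤ (fr ρ e).card + 1) (y : Fin n → ZMod q) (v : Fin k) :
    q ∣ (rcv ρ y v).card ↔ X.dv (X.cobG q G (fun _ => true)) y v = crhs ρ v := by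
  classical
  have hq : 0 < q := (Fact.out : q.Prime).pos
  have : NeZero q := ⟨hq.ne'⟩
  have h1 : (rcv ρ y v).card = ∑ e, (rcv ρ y v ∩ fr ρ e).card := by
    rw [← card_biUnion]
    · congr 1
      ext u
      rw [mem_biUnion]
      constructor
      · intro hu
        exact ⟨u.1, mem_univ _, mem_inter.mpr ⟨hu, (mem_fr ρ).mpr ⟨rfl, ((mem_rcv ρ).mp hu).1⟩⟩⟩
      · rintro ⟨e, _, hu⟩
        exact (mem_inter.mp hu).1
    · intro e _ e' _ hne
      rw [Function.onFun, disjoint_left]
      intro u hu hu'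
      exact hne (((mem_fr ρ).mp (mem_inter.mp hu).2).1.symm.trans
        ((mem_fr ρ).mp (mem_inter.mp hu').2).1)
  have h2 : ∀ e, (((rcv ρ y v ∩ fr ρ e).card : ℕ) : ZMod q) =
      (if (G e).1 = v then y e else 0) +
        (if (G e).2 = v then (((fr ρ e).card : ℕ) : ZMod q) - y e else 0) := by
    intro e
    have hye : (y e).val ≤ (fr ρ e).card := by
      have := ZMod.val_lt (y e)
      have := hfr e
      omega
    have hHc := hd_card ρ hye
    have hHs := hd_sub ρ e (y e).val
    have h3 : rcv ρ y v ∩ fr ρ e = (if (G e).1 = v then hd ρ e (y e).val else ∅) ∪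
        (if (G e).2 = v then fr ρ e \ hd ρ e (y e).val else ∅) := by
      ext u
      rw [mem_inter, mem_rcv, mem_union]
      constructor
      · rintro ⟨⟨_, ha⟩, hu⟩
        have hue := ((mem_fr ρ).mp hu).1
        unfold asg at ha
        rw [hue] at ha
        by_cases hH : u ∈ hd ρ e (y e).val
        · rw [if_pos hH] at ha
          left; rw [if_pos ha]; exact hH
        · rw [if_neg hH] at ha
          right; rw [if_pos ha]; exact mem_sdiff.mpr ⟨hu, hH⟩
      · rintro (h | h)
        · split_ifs at h with hv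
          · have hu := hHs h
            have hue := ((mem_fr ρ).mp hu).1
            refine ⟨⟨((mem_fr ρ).mp hu).2, ?_⟩, hu⟩
            unfold asg
            rw [hue, if_pos h]; exact hv
          · exact absurd h (notMem_empty u)
        · split_ifs at h with hv
          · rw [mem_sdiff] at h
            have hu := h.1
            have hue := ((mem_fr ρ).mp hu).1
            refine ⟨⟨((mem_fr ρ).mp hu).2, ?_⟩, hu⟩
            unfold asg
            rw [hue, if_neg h.2]; exact hv
          · exact absurd h (notMem_empty u)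
    rw [h3, card_union_of_disjoint]
    · have hs := card_sdiff_of_subset hHs
      rw [hHc] at hs
      push_cast
      congr 1
      · split_ifs
        · rw [hHc, ZMod.natCast_zmod_val]
        · simp
      · split_ifs
        · rw [hs, Nat.cast_sub hye, ZMod.natCast_zmod_val]
        · simp
    · split_ifs
      · exact disjoint_sdiff
      · exact disjoint_empty_right _
      · exact disjoint_empty_left _
      · exact disjoint_empty_left _
  have h4 : (((rcv ρ y v).card : ℕ) : ZMod q) =
      X.dv (X.cobG q G (fun _ => true)) y v - crhs ρ v := by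
    rw [h1]
    push_cast
    simp_rw [h2]
    unfold X.dv crhs
    rw [sub_neg_eq_add, ← sum_add_distrib]
    refine sum_congr rfl fun e _ => ?_
    rw [X.cobG_single]
    simp only [if_true]
    unfold X.inc
    split_ifs <;> ring
  rw [← ZMod.natCast_eq_zero_iff, h4, sub_eq_zero]

end gsys

section wdG

variable {q n k M : ℕ} [Fact q.Prime] [NeZero q] {G : Fin n → Fin k × Fin k} {K : Type} [Field K]
  {e r0 B : ℕ} {ψ : AddChar (ZMod q) K}

/-- indicator that the point goes to the first vertex of its edge -/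
noncomputable def hI (K : Type) [Field K] (ρ : Finset (HE q G M)) (u : Fin n × Fin M)
    (y : Fin n → ZMod q) : K := if u ∈ hd ρ u.1 (y u.1).val then 1 else 0

lemma hI_deg (hψ : ψ.IsPrimitive) (hq : (q : K) ≠ 0) (ρ : Finset (HE q G M)) (u : Fin n × Fin M) :
    X.Deg ψ 1 (hI K ρ u) := by
  refine X.Deg.mono (by simp) (X.Deg.of_junta hψ hq {u.1} _ ?_)
  intro y y' hy
  unfold hI
  simp only [hy u.1 (mem_singleton_self _)]

lemma viol_rcv {ρ : Finset (HE q G M)} (hfr : ∀ e, q ≤ (fr ρ e).card + 1) (v : Fin k)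
    (y : Fin n → ZMod q) : X.viol K (X.cobG q G (fun _ => true)) (crhs ρ) v y =
      if q ∣ (rcv ρ y v).card then 0 else 1 := by
  unfold X.viol
  by_cases h : q ∣ (rcv ρ y v).card
  · rw [if_pos h, if_pos ((rcv_card ρ hfr y v).mp h)]
  · rw [if_neg h, if_neg (fun h' => h ((rcv_card ρ hfr y v).mpr h'))]

lemma unc_eq {ρ : Finset (HE q G M)} (hfr : ∀ e, q ≤ (fr ρ e).card + 1) {u : Fin n × Fin M}
    (hu : u ∉ cov (gSys q G M).es ρ) :
    (fun y => if u ∈ cov (gSys q G M).es (wm ρ y) then (0 : K) else 1) =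
      X.viol K (X.cobG q G (fun _ => true)) (crhs ρ) (G u.1).1 * hI K ρ u +
        X.viol K (X.cobG q G (fun _ => true)) (crhs ρ) (G u.1).2 * (1 - hI K ρ u) := by
  funext y
  simp only [Pi.add_apply, Pi.mul_apply, Pi.sub_apply, Pi.one_apply]
  rw [viol_rcv hfr, viol_rcv hfr]
  have h2 := cov_wm ρ (Fact.out : q.Prime).pos y hu
  unfold hI
  by_cases hh : u ∈ hd ρ u.1 (y u.1).val
  · have h3 : asg ρ y u = (G u.1).1 := by unfold asg; rw [if_pos hh]
    rw [h3] at h2
    simp only [h2, if_pos hh, mul_one, sub_self, mul_zero, add_zero]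
  · have h3 : asg ρ y u = (G u.1).2 := by unfold asg; rw [if_neg hh]
    rw [h3] at h2
    simp only [h2, if_neg hh, mul_zero, sub_zero, mul_one, zero_add]

/-- the worlds -/
noncomputable def wdG (hψ : ψ.IsPrimitive) (hq : (q : K) ≠ 0)
    (hE : X.Expd (X.cobG q G (fun _ => true)) e r0) (he : 1 ≤ e) (hB : 2 * B ≤ e * r0)
    (hr0 : 1 ≤ r0) {ρ : Finset (HE q G M)} (hρ : PP (gSys q G M).es ρ)
    (hfr : ∀ e, q ≤ (fr ρ e).card + 1) {D : ℕ} (hD : ∀ v, X.dg G v ≤ D) (hDB : D + 1 ≤ B) :
    WD (pciG hψ hq hE he hB (crhs ρ)) (gSys q G M).es ρ (D + 1) where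
  m := wm ρ
  pp := wm_PP ρ hρ
  sub y := by unfold wm; exact subset_union_left
  degx x := by
    refine X.Deg.mono ((hD x.1.1).trans (Nat.le_succ _))
      (X.Deg.of_junta hψ hq (X.Ic G x.1.1) _ ?_)
    intro y y' hy
    have h1 : rcv ρ y x.1.1 = rcv ρ y' x.1.1 := by
      ext u
      rw [mem_rcv, mem_rcv]
      apply and_congr_right
      intro _
      by_cases hu : u.1 ∈ X.Ic G x.1.1
      · unfold asg
        rw [hy u.1 hu]
      · have h2 : ∀ y : Fin n → ZMod q, asg ρ y u ≠ x.1.1 := by
          intro y h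
          apply hu
          unfold X.Ic
          rw [mem_filter]
          refine ⟨mem_univ _, ?_⟩
          unfold asg at h
          split_ifs at h
          · exact Or.inl h
          · exact Or.inr h
        exact ⟨fun h => absurd h (h2 y), fun h => absurd h (h2 y')⟩
    simp only [mem_wm]
    rw [h1]
  degu u := by
    by_cases hu : u ∈ cov (gSys q G M).es ρ
    · have h1 : (fun y => if u ∈ cov (gSys q G M).es (wm ρ y) then (0 : K) else 1) =
          fun _ => (0 : K) := by
        funext y
        rw [if_pos (cov_mono (by unfold wm; exact subset_union_left) hu)]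
      rw [h1]; exact X.Deg.const _
    · rw [unc_eq hfr hu]
      have hv : ∀ v, X.Deg ψ D (X.viol K (X.cobG q G (fun _ => true)) (crhs ρ) v) := fun v =>
        X.Deg.of_viol hψ hq v ((X.sc_cobG_single G _ v).trans (hD v))
      exact X.Deg.add (X.Deg.mul (hv _) (hI_deg hψ hq ρ u))
        (X.Deg.mul (hv _) (X.Deg.sub X.Deg.one (hI_deg hψ hq ρ u)))
  zru u := by
    by_cases hu : u ∈ cov (gSys q G M).es ρ
    · have h1 : (fun y => if u ∈ cov (gSys q G M).es (wm ρ y) then (0 : K) else 1) = 0 := by
        funext y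
        rw [if_pos (cov_mono (by unfold wm; exact subset_union_left) hu)]
        rfl
      rw [h1]; exact Submodule.zero_mem _
    · rw [unc_eq hfr hu]
      have hv : ∀ v, X.Deg ψ D (X.viol K (X.cobG q G (fun _ => true)) (crhs ρ) v) := fun v =>
        X.Deg.of_viol hψ hq v ((X.sc_cobG_single G _ v).trans (hD v))
      have hz : ∀ v, X.Zr (X.cobG q G (fun _ => true)) r0 ψ (crhs ρ) B
          (X.viol K (X.cobG q G (fun _ => true)) (crhs ρ) v) := fun v =>
        X.Zr.of_viol hψ hq hE he hB hr0 (by omega) v ((X.sc_cobG_single G _ v).trans (hD v))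
      exact X.Zr.add (X.Zr.mul hψ hq hE he hB (D' := 1) (by omega) (hv _) (hz _)
          (hI_deg hψ hq ρ u))
        (X.Zr.mul hψ hq hE he hB (D' := 1) (by omega) (hv _) (hz _)
          (X.Deg.sub X.Deg.one (hI_deg hψ hq ρ u)))

end wdG

end Pool.Agent.Work.MP_c04246_lc.H
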