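import Mathlib
import Pool.Agent.Work.MP_c04246_lc.HLast
import Pool.Agent.Work.MP_c04246_lc.HWorld

set_option autoImplicit false
set_option linter.unusedSectionVars false
set_option linter.unusedSimpArgs false
set_option linter.unusedVariables false
set_option linter.unnecessarySeqFocus false

namespace Pool.Agent.Work.MP_c04246_lc.H

open Finset Fml

section env

variable {Y K : Type} [Field K] {p : ℕ} {P : PCI Y K} {U X : Type} [DecidableEq U]
  [DecidableEq X] [Fintype X] {es : X → Finset U}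

open Classical in
/-- chosen chains -/
noncomputable def chn (es : X → Finset U) (w m : ℕ) (κ s : ℕ → ℕ) (ρ : ℕ → Finset X) (d : ℕ)
    (c : Fml p X × Finset (Fml p X)) (σ : Finset X) : ℕ → Finset X :=
  if h : ∃ θ : ℕ → Finset X, Ch es w m (gs c.2) κ s (subs c.1) ρ d θ ∧ θ d = σ then
    Classical.choose h else fun _ => σ

lemma chn_spec {w m : ℕ} {κ s : ℕ → ℕ} {ρ : ℕ → Finset X} {d : ℕ}
    {c : Fml p X × Finset (Fml p X)} {σ : Finset X}
    (h : σ ∈ LL es w m (gs c.2) κ s (subs c.1) ρ d) :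
    Ch es w m (gs c.2) κ s (subs c.1) ρ d (chn es w m κ s ρ d c σ) ∧
      chn es w m κ s ρ d c σ d = σ := by
  have h' : ∃ θ : ℕ → Finset X, Ch es w m (gs c.2) κ s (subs c.1) ρ d θ ∧ θ d = σ := h
  unfold chn
  rw [dif_pos h']
  exact Classical.choose_spec h'

theorem exists_env (ρ : ℕ → Finset X) (d : ℕ) {δ : ℕ} (W : WD P es (ρ d) δ)
    (w m g r nt : ℕ)
    (κ s : ℕ → ℕ) (hκm : Monotone κ) (S : Finset (Fml p X)) (hS : SC S)
    (hlv : ∀ a ∈ S, lv w m none a ≤ d) (hlay : ∀ a ∈ S, Lay w m g r nt a)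
    (hB1 : δ * s d ≤ P.B) (hB2 : δ * κ d ≤ P.B)
    (hD : ∀ c : Fml p X × Finset (Fml p X), c.1 ∈ S → c.2 ⊆ gset w m g c.1 →
      Dec es (LL es w m (gs c.2) κ s (subs c.1) ρ d) (ρ d) (s d)) :
    ∃ E : Env P p es, E.w = w ∧ E.m = m ∧ E.d = d ∧ E.g = g ∧ E.r = r ∧ E.nt = nt ∧ E.δ = δ ∧
      E.hs = s d ∧ E.hk = κ d ∧ E.κ = κ ∧ E.S = S := by
  classical
  have hm : ∀ c : Fml p X × Finset (Fml p X), Nonempty (Run W
      (c.1 ∈ S ∧ c.2 ⊆ gset w m g c.1)
      (LL es w m (gs c.2) κ s (subs c.1) ρ d) (ρ d) (s d)) := fun c =>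
    exists_run W _ hB1 fun h => hD c h.1 h.2
  have hs : ∀ (c : Fml p X × Finset (Fml p X)) (σ : Finset X) (φ : Fml p X),
      Nonempty (Run W (c.1 ∈ S ∧ σ ∈ LL es w m (gs c.2) κ s (subs c.1) ρ d ∧ φ ∈ subs c.1)
        (DS es w m (gs c.2) (chn es w m κ s ρ d c σ) κ φ) σ (κ d)) := by
    intro c σ φ
    refine exists_run W _ hB2 fun h => ?_
    obtain ⟨hc, hσ, hφ⟩ := h
    obtain ⟨h1, h2⟩ := chn_spec hσ
    have hl := hlv φ (hS _ hc hφ)
    have h3 := h1.good φ hφ hl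
    unfold Good at h3
    have h4 := h3.mono_ctx DS_up (chn es w m κ s ρ d c σ d) (h1.mono _ _ hl le_rfl)
      (h1.pp d le_rfl)
    rw [h2] at h4
    exact h4.mono_h _ (hκm hl)
  refine ⟨{
    ρ := ρ d
    δ := δ
    W := W
    w := w
    m := m
    d := d
    g := g
    r := r
    nt := nt
    hs := s d
    hk := κ d
    κ := κ
    κle := fun j hj => hκm hj
    S := S
    sc := hS
    lvd := hlv
    lay := hlay
    L := fun c => LL es w m (gs c.2) κ s (subs c.1) ρ d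
    θ := chn es w m κ s ρ d
    top := fun c σ hσ => (chn_spec hσ).2
    thpp := fun c σ hσ => (chn_spec hσ).1.pp
    thmono := fun c σ hσ => (chn_spec hσ).1.mono
    good := fun c σ hσ φ hφ hl => (chn_spec hσ).1.good φ hφ hl
    Rm := fun c => (hm c).some
    Rs := fun c σ φ => (hs c σ φ).some }, rfl, rfl, rfl, rfl, rfl, rfl, rfl, rfl, rfl,
    rfl, rfl⟩

end env

end Pool.Agent.Work.MP_c04246_lc.H
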