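import Mathlib
import Pool.Agent.Work.MP_c04246_lc.HLast
import Pool.Agent.Work.MP_c04246_lc.HDefs3

set_option autoImplicit false
set_option linter.unusedSectionVars false
set_option linter.unusedSimpArgs false
set_option linter.unusedVariables false
set_option linter.unnecessarySeqFocus false

namespace Pool.Agent.Work.MP_c04246_lc.H

open Finset Fml

section walk

variable {Y K : Type} [Field K] {p : ℕ} [Fact p.Prime] [CharP K p] {P : PCI Y K} {U X : Type}
  [DecidableEq U] [DecidableEq X] [Fintype X] {es : X → Finset U}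

open Classical in
/-- the pattern of the truth values on `N` is `α` -/
noncomputable def pt (v : Fml p X → Y → Bool) (N α : Finset (Fml p X)) (y : Y) : Bool :=
  decide (∀ a ∈ N, v a y = true ↔ a ∈ α)

lemma pt_iff {v : Fml p X → Y → Bool} {N α : Finset (Fml p X)} {y : Y} :
    pt v N α y = true ↔ ∀ a ∈ N, v a y = true ↔ a ∈ α := by
  classical
  unfold pt; simp

lemma deg_pt {D : ℕ} {v : Fml p X → Y → Bool} {N : Finset (Fml p X)} (α : Finset (Fml p X))
    (h : ∀ a ∈ N, bF K (v a) ∈ P.Deg D) : bF K (pt v N α) ∈ P.Deg (N.card * D) := by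
  classical
  have h1 : bF K (pt v N α) = ∏ a ∈ N, bF K (fun y => v a y == decide (a ∈ α)) := by
    funext y
    rw [Finset.prod_apply]
    by_cases h : ∀ a ∈ N, v a y = true ↔ a ∈ α
    · rw [bF_true (pt_iff.mpr h), prod_eq_one]
      intro a ha
      refine bF_true ?_
      have := h a ha
      by_cases h1 : a ∈ α
      · simp [h1, this.mpr h1]
      · have h2 : v a y = false := by
          by_contra hcon
          exact h1 (this.mp (by simpa using hcon))
        simp [h1, h2]
    · rw [bF_false (by rw [← Bool.not_eq_true, pt_iff]; exact h)]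
      simp only [not_forall] at h
      obtain ⟨a, ha, hne⟩ := h
      rw [prod_eq_zero ha]
      refine bF_false ?_
      by_cases h1 : a ∈ α
      · have h2 : v a y ≠ true := fun h2 => hne ⟨fun _ => h1, fun _ => h2⟩
        simp [h1, h2]
      · have h2 : v a y = true := by
          by_contra hcon
          exact hne ⟨fun h => absurd h hcon, fun h => absurd h h1⟩
        simp [h1, h2]
  rw [h1]
  refine P.prod N _ fun a ha => ?_
  have h2 := bF_comb (P := P) (D' := 0) (fun a b => a == b) (h a ha) (bF_const 0 (decide (a ∈ α)))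
  exact h2

/-- the patterns cover everything -/
lemma sum_pt (v : Fml p X → Y → Bool) (N : Finset (Fml p X)) (χ : Y → K) :
    χ = ∑ α ∈ N.powerset, χ * bF K (pt v N α) := by
  classical
  funext y
  rw [Finset.sum_apply, sum_eq_single (N.filter fun a => v a y = true)]
  · rw [Pi.mul_apply, bF_true, mul_one]
    rw [pt_iff]
    intro a ha
    rw [mem_filter]
    exact ⟨fun h => ⟨ha, h⟩, fun h => h.2⟩
  · intro T hT hne
    rw [Pi.mul_apply, bF_false, mul_zero]
    rw [← Bool.not_eq_true]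
    intro h1
    rw [pt_iff] at h1
    apply hne
    ext a
    rw [mem_filter]
    constructor
    · intro ha
      have h2 := mem_powerset.mp hT ha
      exact ⟨h2, (h1 a h2).mpr ha⟩
    · rintro ⟨h2, h3⟩
      exact (h1 a h2).mp h3
  · intro h1
    exact absurd (mem_powerset.mpr (filter_subset _ _)) h1

namespace Env

variable (E : Env P p es) {L : ℕ}

/-- unit of degree for the walk -/
def D6 : ℕ := (p + 3) * E.DD

lemma deg_F6 {a : Fml p X} (ha : a ∈ E.S) : bF K (E.F a) ∈ P.Deg E.D6 := by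
  refine P.up (E.deg_F ha) ?_
  exact Nat.le_mul_of_pos_left _ (by omega)

open Classical in
lemma local_step {k : ℕ} {Pr : Fin k → Finset (Fml p X)} {G : Finset (Fml p X)}
    (hr : CRule L Pr G) (hG : ∀ a ∈ G, a ∈ E.S) (hP : ∀ i, ∀ a ∈ Pr i, a ∈ E.S)
    {χ : Y → K} {D : ℕ} (hχ : χ ∈ P.Deg D) (hroot : ∀ a ∈ G, χ * bF K (E.F a) ∈ P.Zr)
    (hw : (E.w + 10) * E.D6 ≤ P.B) (hb : D + (3 * L + L * L + 1) * E.D6 ≤ P.B)
    {α : Finset (Fml p X)}
    (hα : χ * bF K (pt E.F (univ.biUnion fun i => Pr i \ G) α) ∉ P.Zr) :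
    ∃ i, ∀ a ∈ Pr i \ G, a ∉ α := by
  obtain ⟨hkL, hnew, C, D', hC, hD', hDG, hCs, himp⟩ := hr
  by_contra hcon
  push Not at hcon
  apply hα
  set N := univ.biUnion fun i => Pr i \ G with hN
  have hNc : N.card ≤ L * L := by
    have h1 : N.card ≤ (univ : Finset (Fin k)).card * L :=
      card_biUnion_le_card_mul _ _ _ fun i _ => hnew i
    rw [card_univ, Fintype.card_fin] at h1
    exact h1.trans (Nat.mul_le_mul_right _ hkL)
  have hNS : ∀ a ∈ N, a ∈ E.S := by
    intro a ha
    obtain ⟨i, _, hi⟩ := mem_biUnion.mp ha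
    exact hP i a (mem_sdiff.mp hi).1
  have hCS : ∀ c' ∈ C, c' ∈ E.S := by
    intro c' hc'
    obtain ⟨a, ha, hca⟩ := hCs c' hc'
    rcases ha with h | ⟨i, h⟩
    · exact E.sc _ (hG a h) hca
    · exact E.sc _ (hP i a h) hca
  have hpt : bF K (pt E.F N α) ∈ P.Deg (L * L * E.D6) :=
    P.up (deg_pt (D := E.D6) α fun a ha => E.deg_F6 (hNS a ha)) (Nat.mul_le_mul_right _ hNc)
  have hχ' : χ * bF K (pt E.F N α) ∈ P.Deg (D + L * L * E.D6) := P.mul hχ hpt
  have hb' : D + 3 * L * E.D6 + L * L * E.D6 + E.D6 ≤ P.B := by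
    refine le_trans (le_of_eq ?_) hb
    ring
  have hL0 : 3 * L * E.D6 = L * E.D6 + 2 * (L * E.D6) := by ring
  refine cover_zr (M := E.D6) hχ' (C.toList.map (fun c y => !(rsp (fun φ => E.F φ y) c)) ++
    D'.toList.map E.F) ?_ ?_ ?_
  · intro x hx
    rw [List.mem_append, List.mem_map, List.mem_map] at hx
    rcases hx with ⟨b, hb, rfl⟩ | ⟨c, hc, rfl⟩
    · rw [mem_toList] at hb
      refine ⟨E.deg_rspF (hCS b hb), ?_⟩
      rw [mul_comm]
      exact P.zmul (D := E.D6) (D' := D + L * L * E.D6) (by omega) (E.deg_rspF (hCS b hb))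
        (E.respF_zr (hCS b hb) hw) hχ'
    · rw [mem_toList] at hc
      refine ⟨E.deg_F6 (hG c (hDG hc)), ?_⟩
      have h1 : χ * bF K (pt E.F N α) * bF K (E.F c) = χ * bF K (E.F c) * bF K (pt E.F N α) := by
        ring
      rw [h1]
      exact P.zmul (D := D + E.D6) (D' := L * L * E.D6) (by omega)
        (P.mul hχ (E.deg_F6 (hG c (hDG hc)))) (hroot c (hDG hc)) hpt
  · rw [List.length_append, List.length_map, List.length_map, length_toList, length_toList]
    have h1 : (C.card + D'.card) * E.D6 ≤ (2 * L) * E.D6 := Nat.mul_le_mul_right _ (by omega)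
    have h2 : 2 * L * E.D6 = 2 * (L * E.D6) := by ring
    omega
  · intro y hy
    by_contra hcon2
    push Not at hcon2
    have hpty : pt E.F N α y = true := by
      by_contra h
      rw [Pi.mul_apply] at hy
      exact right_ne_zero_of_mul hy (bF_false (by simpa using h))
    rw [pt_iff] at hpty
    obtain ⟨i, hi⟩ := himp (fun φ => E.F φ y) (fun c hc => by
      rw [← rsp_iff]
      have := hcon2 (fun y => !(rsp (fun φ => E.F φ y) c)) (by
        rw [List.mem_append, List.mem_map, List.mem_map]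
        exact Or.inl ⟨c, mem_toList.mpr hc, rfl⟩)
      simpa using this) (fun b hb => by
      have := hcon2 (E.F b) (by
        rw [List.mem_append, List.mem_map, List.mem_map]
        exact Or.inr ⟨b, mem_toList.mpr hb, rfl⟩)
      simpa using this)
    obtain ⟨a, ha, haα⟩ := hcon i
    have h3 := (hpty a (mem_biUnion.mpr ⟨i, mem_univ _, ha⟩)).mpr haα
    have h4 := hi a ha
    rw [h4] at h3; exact Bool.noConfusion h3

open Classical in
/-- all members of `G` are false -/
noncomputable def nG (G : Finset (Fml p X)) (y : Y) : Bool := pt E.F G ∅ y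

lemma nG_iff {G : Finset (Fml p X)} {y : Y} : E.nG G y = true ↔ ∀ a ∈ G, E.F a y = false := by
  unfold nG
  rw [pt_iff]
  simp

lemma deg_nG {G : Finset (Fml p X)} (hG : ∀ a ∈ G, a ∈ E.S) (hL : G.card ≤ L) :
    bF K (E.nG G) ∈ P.Deg (L * E.D6) :=
  P.up (deg_pt (D := E.D6) ∅ fun a ha => E.deg_F6 (hG a ha)) (Nat.mul_le_mul_right _ hL)

open Classical in
theorem walk (hw : (E.w + 10) * E.D6 ≤ P.B) {pi : List (Finset (Fml p X))}
    {ρ : Fin pi.length → ℕ}
    (hpi : ∀ i, ∃ (k : ℕ) (Pr : Fin k → Fin pi.length),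
      (∀ a, Pr a < i) ∧ CRule L (fun a => pi.get (Pr a)) (pi.get i) ∧
      (∀ a, L < (pi.get (Pr a)).card → ρ (Pr a) ≤ ρ i) ∧
      ∀ a b, L < (pi.get (Pr a)).card → L < (pi.get (Pr b)).card → ρ (Pr a) = ρ i →
        ρ (Pr b) = ρ i → Pr a = Pr b)
    (hS : ∀ G ∈ pi, ∀ a ∈ G, a ∈ E.S) {i0 : Fin pi.length}
    (hA : ∀ i < i0, (pi.get i).card ≤ L → bF K (E.nG (pi.get i)) ∈ P.Zr) :
    ∀ (n : ℕ) (i : Fin pi.length), i.val = n → i ≤ i0 → ∀ (χ : Y → K) (D : ℕ), χ ∈ P.Deg D →
      χ ∉ P.Zr → (∀ a ∈ pi.get i, χ * bF K (E.F a) ∈ P.Zr) →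
      D + (ρ i * (L * L) + (3 * L + L * L + 1)) * E.D6 ≤ P.B → False := by
  intro n
  induction n using Nat.strong_induction_on with
  | _ n ih =>
    intro i hin hii χ D hχ hnz hroot hb
    obtain ⟨k, Pr, hlt, hr, hrk, huq⟩ := hpi i
    set G := pi.get i with hG0
    have hG : ∀ a ∈ G, a ∈ E.S := hS G (List.get_mem _ _)
    have hP : ∀ a, ∀ b ∈ pi.get (Pr a), b ∈ E.S := fun a => hS _ (List.get_mem _ _)
    set N := univ.biUnion fun a => pi.get (Pr a) \ G with hN
    have hNc : N.card ≤ L * L := by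
      have h1 : N.card ≤ (univ : Finset (Fin k)).card * L :=
        card_biUnion_le_card_mul _ _ _ fun i _ => hr.2.1 i
      rw [card_univ, Fintype.card_fin] at h1
      exact h1.trans (Nat.mul_le_mul_right _ hr.1)
    have hNS : ∀ a ∈ N, a ∈ E.S := by
      intro a ha
      obtain ⟨i, _, hi⟩ := mem_biUnion.mp ha
      exact hP i a (mem_sdiff.mp hi).1
    have hpatD : ∀ α, bF K (pt E.F N α) ∈ P.Deg (L * L * E.D6) := fun α =>
      P.up (deg_pt (D := E.D6) α fun g hg => E.deg_F6 (hNS g hg)) (Nat.mul_le_mul_right _ hNc)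
    have hb1 : D + (3 * L + L * L + 1) * E.D6 ≤ P.B := by
      refine le_trans (Nat.add_le_add_left (Nat.mul_le_mul_right _ ?_) _) hb
      omega
    have hstep : ∀ α, χ * bF K (pt E.F N α) ∉ P.Zr → ∃ a, ∀ b ∈ pi.get (Pr a) \ G, b ∉ α :=
      fun α hα => E.local_step hr hG hP hχ hroot hw hb1 hα
    -- a formula outside `α` is false on the pattern `α`
    have hkill : ∀ α, ∀ a ∈ N, a ∉ α → bF K (pt E.F N α) * bF K (E.F a) = 0 := by
      intro α a ha haα
      funext y
      rw [Pi.mul_apply, Pi.zero_apply]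
      cases h1 : pt E.F N α y with
      | false => rw [bF_false h1, zero_mul]
      | true =>
        have h2 := (pt_iff.mp h1) a ha
        have h3 : E.F a y = false := by
          by_contra h'
          exact haα (h2.mp (by simpa using h'))
        rw [bF_false h3, mul_zero]
    have hb2 : D + (3 * L) * E.D6 + (L * L) * E.D6 + E.D6 ≤ P.B := by
      refine le_trans (le_of_eq ?_) hb1
      ring
    have hL3 : 3 * L * E.D6 = L * E.D6 + 2 * (L * E.D6) := by ring
    -- all formulas of a premise are false on a pattern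
    have hall : ∀ α, χ * bF K (pt E.F N α) ∉ P.Zr → ∀ a, (∀ b ∈ pi.get (Pr a) \ G, b ∉ α) →
        ∀ b ∈ pi.get (Pr a), χ * bF K (pt E.F N α) * bF K (E.F b) ∈ P.Zr := by
      intro α hα a ha b hb'
      by_cases hbG : b ∈ G
      · have h1 : χ * bF K (pt E.F N α) * bF K (E.F b) =
            χ * bF K (E.F b) * bF K (pt E.F N α) := by ring
        rw [h1]
        exact P.zmul (D := D + E.D6) (D' := L * L * E.D6) (by omega)
          (P.mul hχ (E.deg_F6 (hG b hbG))) (hroot b hbG) (hpatD α)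
      · have hbN : b ∈ N := mem_biUnion.mpr ⟨a, mem_univ _, mem_sdiff.mpr ⟨hb', hbG⟩⟩
        rw [mul_assoc, hkill α b hbN (ha b (mem_sdiff.mpr ⟨hb', hbG⟩)), mul_zero]
        exact Submodule.zero_mem _
    by_cases hcase : ∃ α, χ * bF K (pt E.F N α) ∉ P.Zr ∧ ∃ a, (∀ b ∈ pi.get (Pr a) \ G, b ∉ α) ∧
        ((pi.get (Pr a)).card ≤ L ∨ ρ (Pr a) < ρ i)
    · obtain ⟨α, hα, a, ha, hcs⟩ := hcase
      have hχ' : χ * bF K (pt E.F N α) ∈ P.Deg (D + L * L * E.D6) := P.mul hχ (hpatD α)
      have hroot' := hall α hα a ha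
      by_cases hsh : (pi.get (Pr a)).card ≤ L
      · -- a short premise
        have h2 : ∀ b ∈ pi.get (Pr a), b ∈ E.S := hP a
        have hd := E.deg_nG (L := L) h2 hsh
        have h3 := hA (Pr a) (lt_of_lt_of_le (hlt a) hii) hsh
        set χ' := χ * bF K (pt E.F N α) with hχ'd
        apply hα
        have : χ' = bF K (E.nG (pi.get (Pr a))) * χ' +
            χ' * (1 - bF K (E.nG (pi.get (Pr a)))) := by ring
        rw [this]
        refine Submodule.add_mem _ (P.zmul (by omega) hd h3 hχ') ?_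
        have hχ1 : χ' * (1 - bF K (E.nG (pi.get (Pr a)))) ∈
            P.Deg (D + L * L * E.D6 + L * E.D6) :=
          P.mul hχ' (Submodule.sub_mem _ (P.one' _) hd)
        refine cover_zr (M := E.D6) hχ1 ((pi.get (Pr a)).toList.map E.F) ?_ ?_ ?_
        · intro x hx
          rw [List.mem_map] at hx
          obtain ⟨b, hb', rfl⟩ := hx
          rw [mem_toList] at hb'
          refine ⟨E.deg_F6 (h2 b hb'), ?_⟩
          have h4 : χ' * (1 - bF K (E.nG (pi.get (Pr a)))) * bF K (E.F b) =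
              χ' * bF K (E.F b) * (1 - bF K (E.nG (pi.get (Pr a)))) := by ring
          rw [h4]
          exact P.zmul (D := D + L * L * E.D6 + E.D6) (D' := L * E.D6) (by omega)
            (P.mul hχ' (E.deg_F6 (h2 b hb'))) (hroot' b hb')
            (Submodule.sub_mem _ (P.one' _) hd)
        · rw [List.length_map, length_toList]
          have h4 : (pi.get (Pr a)).card * E.D6 ≤ L * E.D6 := Nat.mul_le_mul_right _ hsh
          omega
        · intro y hy
          rw [Pi.mul_apply] at hy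
          by_contra hcon
          push Not at hcon
          apply right_ne_zero_of_mul hy
          rw [Pi.sub_apply, Pi.one_apply, bF_true, sub_self]
          rw [E.nG_iff]
          intro b hb'
          have := hcon (E.F b) (List.mem_map.mpr ⟨b, mem_toList.mpr hb', rfl⟩)
          simpa using this
      · -- a premise of smaller rank
        have hlt' : ρ (Pr a) < ρ i := hcs.resolve_left hsh
        refine ih (Pr a).val (by rw [← hin]; exact hlt a) (Pr a) rfl
          ((hlt a).le.trans hii) _ _ hχ' hα hroot' ?_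
        refine le_trans ?_ hb
        have h5 : (ρ (Pr a) + 1) * (L * L) ≤ ρ i * (L * L) := Nat.mul_le_mul_right _ hlt'
        have h6 : D + L * L * E.D6 + (ρ (Pr a) * (L * L) + (3 * L + L * L + 1)) * E.D6 =
            D + ((ρ (Pr a) + 1) * (L * L) + (3 * L + L * L + 1)) * E.D6 := by ring
        rw [h6]
        exact Nat.add_le_add_left (Nat.mul_le_mul_right _ (Nat.add_le_add_right h5 _)) _
    · push Not at hcase
      have hexp := sum_pt (K := K) E.F N χ
      obtain ⟨α0, hα0⟩ : ∃ α, χ * bF K (pt E.F N α) ∉ P.Zr := by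
        by_contra hcon
        push Not at hcon
        apply hnz
        rw [hexp]
        exact Submodule.sum_mem _ fun α _ => hcon α
      obtain ⟨a0, ha0⟩ := hstep α0 hα0
      obtain ⟨hlong0, hrk0⟩ := hcase α0 hα0 a0 ha0
      have heq0 : ρ (Pr a0) = ρ i := le_antisymm (hrk a0 hlong0) hrk0
      have honly : ∀ α, χ * bF K (pt E.F N α) ∉ P.Zr → ∀ b ∈ pi.get (Pr a0) \ G, b ∉ α := by
        intro α hα
        obtain ⟨a, ha⟩ := hstep α hα
        obtain ⟨hlong, hrk'⟩ := hcase α hα a ha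
        have heq : ρ (Pr a) = ρ i := le_antisymm (hrk a hlong) hrk'
        rw [huq a0 a hlong0 hlong heq0 heq]
        exact ha
      refine ih (Pr a0).val (by rw [← hin]; exact hlt a0) (Pr a0) rfl
        ((hlt a0).le.trans hii) χ D hχ hnz ?_ (by rw [heq0]; exact hb)
      intro b hb'
      by_cases hbG : b ∈ G
      · exact hroot b hbG
      · have hbN : b ∈ N := mem_biUnion.mpr ⟨a0, mem_univ _, mem_sdiff.mpr ⟨hb', hbG⟩⟩
        have h1 : χ * bF K (E.F b) = ∑ α ∈ N.powerset,
            χ * bF K (pt E.F N α) * bF K (E.F b) := by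
          rw [← sum_mul, ← hexp]
        rw [h1]
        refine Submodule.sum_mem _ fun α _ => ?_
        by_cases hα : χ * bF K (pt E.F N α) ∈ P.Zr
        · exact P.zmul (D := D + L * L * E.D6) (D' := E.D6) (by omega)
            (P.mul hχ (hpatD α)) hα (E.deg_F6 (hNS b hbN))
        · rw [mul_assoc, hkill α b hbN (honly α hα b (mem_sdiff.mpr ⟨hb', hbG⟩)), mul_zero]
          exact Submodule.zero_mem _

open Classical in
/-- all short lines are true up to the ideal -/
theorem short_true {h : ℕ} {pi : List (Finset (Fml p X))} (hpi : Ranked L h pi)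
    (hS : ∀ G ∈ pi, ∀ a ∈ G, a ∈ E.S) (hw : (E.w + 10) * E.D6 ≤ P.B)
    (hb : L * E.D6 + (h * (L * L) + (3 * L + L * L + 1)) * E.D6 ≤ P.B) :
    ∀ G ∈ pi, G.card ≤ L → bF K (E.nG G) ∈ P.Zr := by
  obtain ⟨ρ, hρ⟩ := hpi
  have main : ∀ (n : ℕ) (i : Fin pi.length), i.val = n → (pi.get i).card ≤ L →
      bF K (E.nG (pi.get i)) ∈ P.Zr := by
    intro n
    induction n using Nat.strong_induction_on with
    | _ n ih =>
      intro i hi hcard
      by_contra hcon
      refine E.walk (L := L) hw (ρ := ρ) (fun i => (hρ i).2) hS (i0 := i)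
        (fun j hj hc => ih j.val (by rw [← hi]; exact hj) j rfl hc) i.val i rfl le_rfl
        (bF K (E.nG (pi.get i))) (L * E.D6) (E.deg_nG (hS _ (List.get_mem _ _)) hcard) hcon ?_ ?_
      · intro a ha
        have : bF K (E.nG (pi.get i)) * bF K (E.F a) = 0 := by
          funext y
          rw [Pi.mul_apply, Pi.zero_apply]
          cases h1 : E.nG (pi.get i) y with
          | false => rw [bF_false h1, zero_mul]
          | true => rw [bF_false (E.nG_iff.mp h1 a ha), mul_zero]
        rw [this]; exact Submodule.zero_mem _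
      · refine le_trans (Nat.add_le_add_left (Nat.mul_le_mul_right _ (Nat.add_le_add_right
          (Nat.mul_le_mul_right _ (hρ i).1) _)) _) hb
  intro G hG hc
  obtain ⟨i, hi⟩ := List.get_of_mem hG
  rw [← hi] at hc ⊢
  exact main i.val i rfl hc

/-- there is no derivation -/
theorem no_derivation [Fintype U] {h : ℕ} {pi : List (Finset (Fml p X))} (hpi : Ranked E.w h pi)
    (hS : ∀ G ∈ pi, ∀ a ∈ G, a ∈ E.S)
    (hφ : {pmTaut p es} ∈ pi) (hκ0 : 1 ≤ E.κ 0) (hκm : Monotone E.κ)
    (hne : ∀ x, (es x).Nonempty) (hw : 10 ≤ E.w)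
    (hB : 2 * E.δ + 2 * (h + 1) * E.w ^ 3 * ((p + 3) * E.DD) ≤ P.B)
    (h1 : (1 : Y → K) ∉ P.Zr) : False := by
  classical
  have hB' : 2 * E.δ + 2 * (h + 1) * E.w ^ 3 * E.D6 ≤ P.B := hB
  have hw2 : 10 * E.w ≤ E.w ^ 2 := by rw [pow_two]; exact Nat.mul_le_mul_right _ hw
  have hw3 : 10 * E.w ^ 2 ≤ E.w ^ 3 := by
    calc 10 * E.w ^ 2 ≤ E.w * E.w ^ 2 := Nat.mul_le_mul_right _ hw
      _ = E.w ^ 3 := by ring
  have hw3' : E.w ^ 3 ≤ (h + 1) * E.w ^ 3 := Nat.le_mul_of_pos_left _ (by omega)
  have ex : 2 * (h + 1) * E.w ^ 3 = 2 * ((h + 1) * E.w ^ 3) := by ring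
  have e1 : (E.w + 10) * E.D6 ≤ 2 * (h + 1) * E.w ^ 3 * E.D6 :=
    Nat.mul_le_mul_right _ (by omega)
  have e2 : E.w * E.D6 + (h * (E.w * E.w) + (3 * E.w + E.w * E.w + 1)) * E.D6 ≤
      2 * (h + 1) * E.w ^ 3 * E.D6 := by
    rw [← Nat.add_mul]
    apply Nat.mul_le_mul_right
    have e4 : E.w * E.w = E.w ^ 2 := by ring
    have e5 : h * E.w ^ 2 ≤ h * E.w ^ 3 := Nat.mul_le_mul_left _ (by omega)
    have e6 : (h + 1) * E.w ^ 3 = h * E.w ^ 3 + E.w ^ 3 := by ring
    rw [ex, e4, e6]
    omega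
  have e5 : 10 * E.D6 ≤ 2 * (h + 1) * E.w ^ 3 * E.D6 := Nat.mul_le_mul_right _ (by omega)
  have h2 := E.short_true hpi hS (by omega) (by omega) _ hφ
    (by rw [card_singleton]; omega)
  have hφS : pmTaut p es ∈ E.S := hS _ hφ _ (mem_singleton_self _)
  have h5 := E.last_zr hφS hκ0 hκm hne (by
    have : 10 * ((p + 3) * E.DD) = 10 * E.D6 := rfl
    omega)
  apply h1
  have h4 : (1 : Y → K) = bF K (E.nG {pmTaut p es}) + bF K (E.F (pmTaut p es)) := by
    funext y
    rw [Pi.add_apply, Pi.one_apply]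
    cases h6 : E.F (pmTaut p es) y with
    | false =>
      rw [bF_false h6, bF_true, add_zero]
      rw [E.nG_iff]
      intro a ha
      rw [mem_singleton] at ha
      rw [ha]; exact h6
    | true =>
      rw [bF_true h6, bF_false, zero_add]
      rw [← Bool.not_eq_true, E.nG_iff]
      intro h7
      have := h7 _ (mem_singleton_self _)
      rw [h6] at this
      exact Bool.noConfusion this
  rw [h4]
  exact Submodule.add_mem _ h2 h5

end Env

end walk

end Pool.Agent.Work.MP_c04246_lc.H
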