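import Mathlib
import Pool.Agent.Work.MP_c04246_lc.HWalk

set_option autoImplicit false
set_option linter.unusedSectionVars false
set_option linter.unusedSimpArgs false
set_option linter.unusedVariables false

namespace Pool.Agent.Work.MP_c04246_lc.H

open Finset Fml

section forms

variable {p : ℕ} {V : Type}

open Classical in
/-- subformulas of formulas occurring in the derivation -/
noncomputable def Sl (l : List (Finset (Fml p V))) : Finset (Fml p V) :=
  l.toFinset.biUnion fun G => G.biUnion subs

lemma mem_Sl {l : List (Finset (Fml p V))} {x : Fml p V} :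
    x ∈ Sl l ↔ ∃ G ∈ l, ∃ a ∈ G, x ∈ subs a := by
  classical
  simp only [Sl, mem_biUnion, List.mem_toFinset]

lemma card_Sl (l : List (Finset (Fml p V))) :
    (Sl l).card ≤ (l.map fun G => ∑ a ∈ G, size a).sum := by
  classical
  induction l with
  | nil => simp [Sl]
  | cons G l ih =>
    have : Sl (G :: l) = G.biUnion subs ∪ Sl l := by
      ext x
      simp only [mem_Sl, List.mem_cons, exists_eq_or_imp, mem_union, mem_biUnion]
    rw [this, List.map_cons, List.sum_cons]
    refine (card_union_le _ _).trans (add_le_add ?_ ih)
    exact card_biUnion_le.trans (sum_le_sum fun a _ => card_subs a)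

end forms

end Pool.Agent.Work.MP_c04246_lc.H
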