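import Mathlib
import Pool.Agent.Work.MP_c04246_lc.HWorld
import Pool.Agent.Work.MP_c04246_lc.HStage

set_option autoImplicit false
set_option linter.unusedSectionVars false
set_option linter.unusedSimpArgs false
set_option linter.unusedVariables false
set_option linter.unnecessarySeqFocus false

namespace Pool.Agent.Work.MP_c04246_lc.H

open Finset Fml

section count

lemma sum_choose_le (N s : ℕ) : ∑ j ∈ range (s + 1), N.choose j ≤ (N + 1) ^ s := by
  induction s with
  | zero => simp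
  | succ s ih =>
    rw [sum_range_succ]
    have h1 : N.choose (s + 1) ≤ N ^ (s + 1) := Nat.choose_le_pow _ _
    have h2 : N ^ s ≤ (N + 1) ^ s := Nat.pow_le_pow_left (by omega) _
    calc ∑ j ∈ range (s + 1), N.choose j + N.choose (s + 1) ≤ (N + 1) ^ s + N ^ (s + 1) := by omega
      _ = (N + 1) ^ s + N * N ^ s := by rw [pow_succ']
      _ ≤ (N + 1) ^ s + N * (N + 1) ^ s := Nat.add_le_add_left (Nat.mul_le_mul_left _ h2) _
      _ = (N + 1) ^ (s + 1) := by rw [pow_succ]; ring

lemma card_small_sets {X : Type} [DecidableEq X] (A : Finset X) (s : ℕ) :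
    (A.powerset.filter fun B => B.card ≤ s).card ≤ (A.card + 1) ^ s := by
  refine le_trans (card_le_card (t := (range (s + 1)).biUnion fun j => powersetCard j A) ?_) ?_
  · intro B hB
    rw [mem_filter, mem_powerset] at hB
    rw [mem_biUnion]
    exact ⟨B.card, mem_range.mpr (by omega), mem_powersetCard.mpr ⟨hB.1, rfl⟩⟩
  · refine card_biUnion_le.trans ?_
    simp_rw [card_powersetCard]
    exact sum_choose_le _ _

end count

section init

variable {q n k M : ℕ} {G : Fin n → Fin k × Fin k}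

lemma card_blk (e : Fin n) : (blk (gSys q G M).bl e).card = M := by
  have h1 : blk (gSys q G M).bl e = ({e} : Finset (Fin n)) ×ˢ (univ : Finset (Fin M)) := by
    ext u
    unfold blk
    rw [mem_filter, mem_product, mem_singleton]
    simp [gSys]
  rw [h1, card_product, card_singleton, card_univ, Fintype.card_fin, one_mul]

/-- facts about the first restriction -/
structure Ini (q : ℕ) (G : Fin n → Fin k × Fin k) (M k0 : ℕ) (ρ0 : Finset (HE q G M))
    (W : Finset (Fin n × Fin M)) : Prop where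
  pp : PP (gSys q G M).es ρ0
  cv : cov (gSys q G M).es ρ0 = univ \ W
  card : ∀ e, (W ∩ blk (gSys q G M).bl e).card = k0

lemma exists_init {p : ℕ} (hq : 0 < q) {k0 : ℕ} (hk0 : k0 ≤ M) (hdiv : q ∣ M - k0) (hM : 0 < M)
    (S : Finset (Fml p (HE q G M))) {J m : ℕ} (hS : S.card < 2 ^ J)
    (hm : 2 * ((m + 1) * k0 ^ q) ≤ M ^ q) :
    ∃ (ρ0 : Finset (HE q G M)) (W : Finset (Fin n × Fin M)), Ini q G M k0 ρ0 W ∧
      ∀ a ∈ S, isL m a → Dec (gSys q G M).es {τ | ∀ x ∈ vars a, Dcd (gSys q G M).es τ x} ρ0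
        (q * J) := by
  classical
  obtain ⟨W, hW1, hW2⟩ := exists_free (es := (gSys q G M).es) (bl := (gSys q G M).bl) (k := k0)
    (M := M) card_blk hk0 (gSys q G M).card_es (S.filter fun a => isL m a) vars (m := m + 1)
    (J := J) (by
      intro a ha
      rw [mem_filter] at ha
      exact isL_card (m := m + 1) (by omega) (by
        have h := ha.2
        cases a with
        | var x => trivial
        | cst b => trivial
        | neg a => exact le_trans h (Nat.le_succ _)
        | bin c a b => exact le_trans h (Nat.le_succ _)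
        | mod i l f => exact le_trans h (Nat.le_succ _)))
    (lt_of_le_of_lt (card_filter_le _ _) hS) hm hM
  obtain ⟨ρ0, h1, h2⟩ := exists_fill (es := (gSys q G M).es) (bl := (gSys q G M).bl) hq
    (gSys q G M).card_es (by
      intro e S hS hc
      obtain ⟨x, _, hx⟩ := (gSys q G M).ex (G e).1 S (by
        intro u hu
        have h := hS hu
        unfold blk at h
        rw [mem_filter] at h
        have h' : u.1 = e := h.2
        show u ∈ ptsAt G M (G e).1
        rw [mem_ptsAt, h']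
        exact Or.inl rfl) hc
      exact ⟨x, hx⟩) _ (univ \ W) le_rfl (by
      intro e
      have h3 : (univ \ W) ∩ blk (gSys q G M).bl e =
          blk (gSys q G M).bl e \ (W ∩ blk (gSys q G M).bl e) := by
        ext u; simp only [mem_inter, mem_sdiff, mem_univ, true_and]; tauto
      rw [h3, card_sdiff_of_subset inter_subset_right, hW1, card_blk]
      exact hdiv)
  refine ⟨ρ0, W, ⟨h1, h2, hW1⟩, ?_⟩
  intro a ha hl
  exact dec_vars hq (gSys q G M).card_es (hW2 a (mem_filter.mpr ⟨ha, hl⟩)) h2 J ρ0 ∅ h1 Subset.rfl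
    (empty_subset _) PP.empty (by rw [cov_empty]; exact empty_subset _)
    (by rw [cov_empty]; exact empty_subset _) (by simp)

variable {k0 : ℕ} {ρ0 : Finset (HE q G M)} {W : Finset (Fin n × Fin M)}

lemma Ini.notMem (h : Ini q G M k0 ρ0 W) {u : Fin n × Fin M} :
    u ∉ cov (gSys q G M).es ρ0 ↔ u ∈ W := by
  rw [h.cv, mem_sdiff]
  simp

lemma Ini.bf (h : Ini q G M k0 ρ0 W) (e : Fin n) : (gSys q G M).bf e ρ0 = k0 := by
  rw [← h.card e]
  unfold Sys.bf Sys.fb
  congr 1
  ext u
  rw [mem_sdiff, h.notMem, mem_inter]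
  unfold blk
  tauto

lemma Ini.near (h : Ini q G M k0 ρ0 W) {D : ℕ} (hD : ∀ v, X.dg G v ≤ D) (v : Fin k) :
    (ptsAt G M v ∩ W).card ≤ D * k0 := by
  classical
  have h1 : ptsAt G M v ∩ W ⊆ (X.Ic G v).biUnion fun e => W ∩ blk (gSys q G M).bl e := by
    intro u hu
    rw [mem_inter, mem_ptsAt] at hu
    rw [mem_biUnion]
    refine ⟨u.1, ?_, ?_⟩
    · unfold X.Ic; rw [mem_filter]; exact ⟨mem_univ _, hu.1⟩
    · rw [mem_inter]
      refine ⟨hu.2, ?_⟩
      unfold blk; rw [mem_filter]; exact ⟨mem_univ _, rfl⟩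
  calc (ptsAt G M v ∩ W).card ≤ ∑ e ∈ X.Ic G v, (W ∩ blk (gSys q G M).bl e).card :=
        (card_le_card h1).trans card_biUnion_le
    _ = ∑ e ∈ X.Ic G v, k0 := sum_congr rfl fun e _ => h.card e
    _ = (X.Ic G v).card * k0 := by rw [sum_const, smul_eq_mul]
    _ ≤ D * k0 := Nat.mul_le_mul_right _ (hD v)

lemma Ini.wf (h : Ini q G M k0 ρ0 W) {D : ℕ} (hD : ∀ v, X.dg G v ≤ D) (v : Fin k) :
    (gSys q G M).wf v ρ0 ≤ D * k0 := by
  refine le_trans (le_of_eq ?_) (h.near hD v)
  unfold Sys.wf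
  congr 1
  ext u
  rw [mem_sdiff, h.notMem, mem_inter]
  rfl

lemma Ini.count (h : Ini q G M k0 ρ0 W) {D : ℕ} (hD : ∀ v, X.dg G v ≤ D)
    {ρ : Finset (HE q G M)} (hρ : PP (gSys q G M).es ρ) (hsub : ρ0 ⊆ ρ) (hq : 0 < q) (s : ℕ) :
    (SE (gSys q G M).es ρ s).card ≤ (k * (D * k0) ^ q + 1) ^ s := by
  classical
  set X1 : Finset (HE q G M) := univ.biUnion fun v => (gSys q G M).inW v
    ((gSys q G M).Wv v ∩ W) with hX1
  have hX1c : X1.card ≤ k * (D * k0) ^ q := by
    calc X1.card ≤ ∑ v, ((gSys q G M).inW v ((gSys q G M).Wv v ∩ W)).card := card_biUnion_le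
      _ = ∑ v, ((gSys q G M).Wv v ∩ W).card.choose q :=
          sum_congr rfl fun v _ => (gSys q G M).card_inW v W
      _ ≤ ∑ v : Fin k, (D * k0) ^ q := sum_le_sum fun v _ =>
          (Nat.choose_le_pow _ _).trans (Nat.pow_le_pow_left (h.near hD v) _)
      _ = k * (D * k0) ^ q := by rw [sum_const, card_univ, Fintype.card_fin, smul_eq_mul]
  refine le_trans ?_ (Nat.pow_le_pow_left (Nat.succ_le_succ hX1c) s)
  refine le_trans ?_ (card_small_sets X1 s)
  refine card_le_card_of_injOn (fun τ => τ \ ρ) ?_ ?_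
  · intro τ hτ
    rw [mem_coe] at hτ
    unfold SE at hτ
    rw [mem_filter] at hτ
    obtain ⟨_, h1, h2, h3⟩ := hτ
    rw [mem_coe, mem_filter, mem_powerset]
    refine ⟨?_, h3⟩
    intro x hx
    rw [mem_sdiff] at hx
    rw [hX1, mem_biUnion]
    refine ⟨x.1.1, mem_univ _, ?_⟩
    unfold Sys.inW
    rw [mem_filter]
    refine ⟨mem_univ _, rfl, ?_⟩
    intro u hu
    rw [mem_inter]
    refine ⟨(gSys q G M).sub x hu, ?_⟩
    rw [← h.notMem]
    intro hc
    obtain ⟨z, hz, huz⟩ := mem_cov.mp hc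
    have hzx : z ≠ x := by
      rintro rfl
      exact hx.2 (hsub hz)
    exact disjoint_left.mp (h1 z (h2 (hsub hz)) x hx.1 hzx) huz hu
  · intro τ hτ τ' hτ' heq
    rw [mem_coe] at hτ hτ'
    unfold SE at hτ hτ'
    rw [mem_filter] at hτ hτ'
    simp only at heq
    rw [← union_sdiff_of_subset hτ.2.2.1, ← union_sdiff_of_subset hτ'.2.2.1, heq]

end init

end Pool.Agent.Work.MP_c04246_lc.H
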