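import Mathlib
import Pool.Agent.Work.MP_c04246_lc.HStage

set_option autoImplicit false
set_option linter.unusedSectionVars false
set_option linter.unusedSimpArgs false
set_option linter.unusedVariables false
set_option linter.unnecessarySeqFocus false

namespace Pool.Agent.Work.MP_c04246_lc.H

/-- `w` is large compared to `q` -/
structure Big (q w : ℕ) : Prop where
  c1 : 2 * (q.factorial * 2 ^ q) ≤ w
  c2 : 2 ^ (q + 2) ≤ w
  c3 : q + 2 ≤ w
  c4 : 2 ^ (4 + q + q * q) ≤ w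
  c5 : 4 * q ≤ w

lemma Big.exists (q : ℕ) : ∃ w0, ∀ w ≥ w0, Big q w := by
  have key : ∀ a b c d e w : ℕ, a + b + c + d + e ≤ w →
      a ≤ w ∧ b ≤ w ∧ c ≤ w ∧ d ≤ w ∧ e ≤ w := by
    intro a b c d e w h
    omega
  refine ⟨2 * (q.factorial * 2 ^ q) + 2 ^ (q + 2) + (q + 2) + 2 ^ (4 + q + q * q) + 4 * q,
    fun w hw => ?_⟩
  obtain ⟨h1, h2, h3, h4, h5⟩ := key _ _ _ _ _ _ hw
  exact ⟨h1, h2, h3, h4, h5⟩

lemma rd_ex {q w t t' b b' D r nR nE : ℕ} (hq : 1 ≤ q) (hw : Big q w) (ht' : 3 ≤ t')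
    (hb' : 2 ≤ b') (ht : t = q ^ 3 * t' + (D + 2)) (hb : b + t' = b' + t + 3)
    (hr : r ≤ w ^ (D + 1)) (hR : 4 * nR ≤ 2 ^ (w + 3)) (hE : 4 * nE ≤ 2 ^ (w + 3)) :
    ∃ θ Δ t1 k a j0 : ℕ, w ^ t' = t1 + q * k ∧ 2 * w ^ t ≤ t1.choose q * θ ∧
    q * a + (w ^ b' + q * j0) ≤ w ^ b ∧
    2 * (((w ^ b' + q * j0) * (2 * (t1 + q * k + q * j0) ^ (q - 1))) * θ) ≤ a ∧ 0 < t1 ∧
    2 * (t1 + q * k) ^ (q - 1) ≤ Δ ∧ 2 * (8 * (r * Δ ^ (q + q * q))) ≤ θ ∧
    4 * nR ≤ 2 ^ k ∧ 4 * nE ≤ 2 ^ j0 := by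
  have hw1 : 1 ≤ w := by have := hw.c3; omega
  have hw4 : 4 ≤ w := by have := hw.c5; omega
  have hsq : 2 * (q * (w + 3) + q) ≤ w ^ 2 := by
    have h1 := hw.c5
    have h2 : 4 * q * w ≤ w * w := Nat.mul_le_mul_right _ h1
    have h3 : q * 4 ≤ q * w := Nat.mul_le_mul_left _ hw4
    nlinarith
  have hpt : w ^ 2 ≤ w ^ t' := Nat.pow_le_pow_right hw1 (by omega)
  have hpb : w ^ 2 ≤ w ^ b' := Nat.pow_le_pow_right hw1 hb'
  have hq3 : q * t' ≤ q ^ 3 * t' := Nat.mul_le_mul_right _ (Nat.le_self_pow (by norm_num) q)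
  -- exponents
  obtain ⟨e, he⟩ : ∃ e, t = q * t' + e := ⟨t - q * t', by omega⟩
  have hqt' : t' ≤ q * t' := Nat.le_mul_of_pos_left _ hq
  obtain ⟨f, hf⟩ : ∃ f, b = b' + f + 3 ∧ t = t' + f := ⟨t - t', by omega, by omega⟩
  obtain ⟨q', rfl⟩ : ∃ q', q = q' + 1 := ⟨q - 1, by omega⟩
  set q := q' + 1 with hqq
  have hef : t' * q' + e = f := by
    have h1 : q * t' = t' * q' + t' := by rw [hqq]; ring
    omega
  refine ⟨w ^ (e + 1), 2 * (w ^ t') ^ q', w ^ t' - q * (w + 3), w + 3, w ^ (b' + f + 2), w + 3,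
    ?_, ?_, ?_, ?_, ?_, ?_, ?_, hR, hE⟩
  · omega
  · have h1 : (w ^ t' - q * (w + 3) + 1 - q) ^ q ≤
        q.factorial * (w ^ t' - q * (w + 3)).choose q := by
      rw [← Nat.descFactorial_eq_factorial_mul_choose]
      exact Nat.pow_sub_le_descFactorial _ _
    have h2 : w ^ t' ≤ 2 * (w ^ t' - q * (w + 3) + 1 - q) := by omega
    have h3 : (w ^ t') ^ q ≤ 2 ^ q * (q.factorial * (w ^ t' - q * (w + 3)).choose q) := by
      calc (w ^ t') ^ q ≤ (2 * (w ^ t' - q * (w + 3) + 1 - q)) ^ q := Nat.pow_le_pow_left h2 _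
        _ = 2 ^ q * (w ^ t' - q * (w + 3) + 1 - q) ^ q := mul_pow _ _ _
        _ ≤ _ := Nat.mul_le_mul_left _ h1
    calc 2 * w ^ t = 2 * ((w ^ t') ^ q * w ^ e) := by rw [he, pow_add, ← pow_mul, mul_comm t' q]
      _ ≤ 2 * (2 ^ q * (q.factorial * (w ^ t' - q * (w + 3)).choose q) * w ^ e) :=
          Nat.mul_le_mul_left _ (Nat.mul_le_mul_right _ h3)
      _ = (2 * (q.factorial * 2 ^ q)) * ((w ^ t' - q * (w + 3)).choose q * w ^ e) := by ring
      _ ≤ w * ((w ^ t' - q * (w + 3)).choose q * w ^ e) := Nat.mul_le_mul_right _ hw.c1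
      _ = (w ^ t' - q * (w + 3)).choose q * w ^ (e + 1) := by rw [pow_succ]; ring
  · rw [hf.1]
    have h1 : w ^ b' ≤ w ^ (b' + f + 2) := Nat.pow_le_pow_right hw1 (by omega)
    have h2 : (q + 2) * w ^ (b' + f + 2) ≤ w * w ^ (b' + f + 2) := Nat.mul_le_mul_right _ hw.c3
    have h3 : w ^ (b' + f + 3) = w * w ^ (b' + f + 2) := by rw [← pow_succ']
    rw [h3]
    have h4 : (q + 2) * w ^ (b' + f + 2) = q * w ^ (b' + f + 2) + 2 * w ^ (b' + f + 2) := by ring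
    omega
  · have h1 : w ^ b' + q * (w + 3) ≤ 2 * w ^ b' := by omega
    have h2 : w ^ t' - q * (w + 3) + q * (w + 3) + q * (w + 3) ≤ 2 * w ^ t' := by omega
    have h3 : (w ^ t' - q * (w + 3) + q * (w + 3) + q * (w + 3)) ^ (q - 1) ≤ (2 * w ^ t') ^ q' := by
      have : q - 1 = q' := by omega
      rw [this]
      exact Nat.pow_le_pow_left h2 _
    calc 2 * (((w ^ b' + q * (w + 3)) *
          (2 * (w ^ t' - q * (w + 3) + q * (w + 3) + q * (w + 3)) ^ (q - 1))) * w ^ (e + 1))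
        ≤ 2 * (((2 * w ^ b') * (2 * (2 * w ^ t') ^ q')) * w ^ (e + 1)) :=
          Nat.mul_le_mul_left _ (Nat.mul_le_mul_right _ (Nat.mul_le_mul h1
            (Nat.mul_le_mul_left _ h3)))
      _ = 2 ^ (q' + 3) * (w ^ b' * (w ^ t') ^ q' * w ^ (e + 1)) := by
          rw [mul_pow, pow_add]; ring
      _ = 2 ^ (q' + 3) * w ^ (b' + f + 1) := by
          rw [← pow_mul, ← pow_add, ← pow_add]
          congr 2
          omega
      _ ≤ w * w ^ (b' + f + 1) := by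
          apply Nat.mul_le_mul_right
          exact hw.c2
      _ = w ^ (b' + f + 2) := by rw [← pow_succ']
  · omega
  · have h1 : w ^ t' - q * (w + 3) + q * (w + 3) = w ^ t' := by omega
    have h2 : q - 1 = q' := by omega
    rw [h1, h2]
  · have h1 : q' * (q + q * q) = q ^ 3 - q := by
      have h2 : q ^ 3 = q' * (q + q * q) + q := by rw [hqq]; ring
      omega
    have h3 : t' * (q' * (q + q * q)) + (D + 2) = e := by
      have h4 : q ^ 3 * t' = t' * (q' * (q + q * q)) + q * t' := by rw [hqq]; ring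
      omega
    calc 2 * (8 * (r * (2 * (w ^ t') ^ q') ^ (q + q * q)))
        ≤ 2 * (8 * (w ^ (D + 1) * (2 * (w ^ t') ^ q') ^ (q + q * q))) := by gcongr
      _ = 2 ^ (4 + q + q * q) * (w ^ (D + 1) * w ^ (t' * (q' * (q + q * q)))) := by
          rw [mul_pow, ← pow_mul, ← pow_mul, ← mul_assoc t', pow_add 2 (4 + q), pow_add 2 4]
          ring
      _ ≤ w * (w ^ (D + 1) * w ^ (t' * (q' * (q + q * q)))) := Nat.mul_le_mul_right _ hw.c4
      _ = w ^ e := by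
          rw [← h3, ← pow_add, ← pow_succ']
          congr 1; ring
      _ ≤ w ^ (e + 1) := Nat.pow_le_pow_right hw1 (by omega)

/-- exponents, in reverse order -/
def tt (q d : ℕ) : ℕ → ℕ
  | 0 => 3 * d + 5
  | j + 1 => q ^ 3 * tt q d j + (d + 2)

lemma tt_ge {q d : ℕ} (hq : 1 ≤ q) (j : ℕ) : 3 * d + 5 ≤ tt q d j := by
  induction j with
  | zero => exact le_rfl
  | succ j ih =>
    have : tt q d j ≤ q ^ 3 * tt q d j := Nat.le_mul_of_pos_left _ (Nat.pow_pos hq)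
    show 3 * d + 5 ≤ q ^ 3 * tt q d j + (d + 2)
    omega

lemma pow_le_two (c : ℕ) : ∃ w0 : ℕ, ∀ w ≥ w0, w ^ c ≤ 2 ^ w := by
  have h := tendsto_pow_const_div_const_pow_of_one_lt c (r := (2 : ℝ)) (by norm_num)
  have h1 := (tendsto_order.1 h).2 1 (by norm_num)
  rw [Filter.eventually_atTop] at h1
  obtain ⟨w0, hw0⟩ := h1
  refine ⟨w0, fun w hw => ?_⟩
  have h2 := hw0 w hw
  rw [div_lt_one (by positivity)] at h2
  exact_mod_cast h2.le

/-- the number of tests is small -/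
lemma cnt_ok {q w g i V nt P : ℕ} (hw : q + 2 ≤ w) (hw4 : 4 ≤ w)
    (hV : V + 1 ≤ 2 ^ (w ^ 2)) (hP : P ≤ (V + 1) ^ ((g + 1) * w ^ (4 * i)))
    (hnt : nt ≤ 2 ^ (w + g) * P) :
    4 * (nt * (q * ((g + 1) * w ^ (4 * i + 3)) + q * w + w ^ (i + 2))) ≤
      2 ^ ((g + 1) * w ^ (4 * i + 3)) := by
  have hw1 : 1 ≤ w := by omega
  set h2 := (g + 1) * w ^ (4 * i + 2) with hh2
  have hh : (g + 1) * w ^ (4 * i + 3) = w * h2 := by
    rw [hh2, show 4 * i + 3 = (4 * i + 2) + 1 by ring, pow_succ]; ring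
  have e1 : P ≤ 2 ^ h2 := by
    calc P ≤ (V + 1) ^ ((g + 1) * w ^ (4 * i)) := hP
      _ ≤ (2 ^ (w ^ 2)) ^ ((g + 1) * w ^ (4 * i)) := Nat.pow_le_pow_left hV _
      _ = 2 ^ h2 := by
          rw [← pow_mul, hh2, pow_add]
          congr 1; ring
  have e2 : w ≤ w * h2 := Nat.le_mul_of_pos_right _ (by positivity)
  have e3 : w ^ (i + 2) ≤ w * h2 := by
    rw [← hh]
    calc w ^ (i + 2) ≤ w ^ (4 * i + 3) := Nat.pow_le_pow_right hw1 (by omega)
      _ ≤ _ := Nat.le_mul_of_pos_left _ (by omega)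
  have e4 : q * w ≤ w * h2 := by
    have : w ≤ h2 := by
      rw [hh2]
      calc w = w ^ 1 := (pow_one w).symm
        _ ≤ w ^ (4 * i + 2) := Nat.pow_le_pow_right hw1 (by omega)
        _ ≤ _ := Nat.le_mul_of_pos_left _ (by omega)
    calc q * w ≤ w * w := Nat.mul_le_mul_right _ (by omega)
      _ ≤ w * h2 := Nat.mul_le_mul_left _ this
  have e5 : q * (w * h2) + q * w + w ^ (i + 2) ≤ w * (w * h2) := by
    have : (q + 2) * (w * h2) ≤ w * (w * h2) := Nat.mul_le_mul_right _ hw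
    have h3 : (q + 2) * (w * h2) = q * (w * h2) + 2 * (w * h2) := by ring
    omega
  have e6 : w * (w * h2) ≤ 2 ^ (w + w + h2) := by
    rw [pow_add, pow_add, mul_assoc]
    exact Nat.mul_le_mul (Nat.lt_two_pow_self).le (Nat.mul_le_mul (Nat.lt_two_pow_self).le
      (Nat.lt_two_pow_self).le)
  have e7 : 2 + (w + g) + h2 + (w + w + h2) ≤ w * h2 := by
    have h3 : 2 + 3 * w + g ≤ h2 := by
      have h4 : (g + 1) * w ^ 2 ≤ h2 := Nat.mul_le_mul_left _ (Nat.pow_le_pow_right hw1 (by omega))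
      have h5 : (g + 1) * (3 * w + 2) ≤ (g + 1) * w ^ 2 := by
        apply Nat.mul_le_mul_left
        nlinarith
      have h6 : 2 + 3 * w + g ≤ (g + 1) * (3 * w + 2) := by nlinarith [Nat.zero_le (g * w)]
      omega
    have h7 : 4 * h2 ≤ w * h2 := Nat.mul_le_mul_right _ hw4
    omega
  rw [hh]
  calc 4 * (nt * (q * (w * h2) + q * w + w ^ (i + 2)))
      ≤ 2 ^ 2 * ((2 ^ (w + g) * 2 ^ h2) * 2 ^ (w + w + h2)) := by
        refine Nat.mul_le_mul (by norm_num) (Nat.mul_le_mul (hnt.trans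
          (Nat.mul_le_mul_left _ e1)) (e5.trans e6))
    _ = 2 ^ (2 + (w + g) + h2 + (w + w + h2)) := by
        simp only [pow_add]; ring
    _ ≤ 2 ^ (w * h2) := Nat.pow_le_pow_right (by norm_num) e7

end Pool.Agent.Work.MP_c04246_lc.H
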