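import Mathlib

set_option autoImplicit false

namespace Pool.Agent.Work.MP_c04246_lc.X

lemma exists_fld (p q : ℕ) [Fact p.Prime] [Fact q.Prime] (hpq : p ≠ q) :
    ∃ (K : Type) (_ : Field K) (_ : CharP K p) (ψ : AddChar (ZMod q) K),
      ψ.IsPrimitive ∧ (q : K) ≠ 0 := by
  have hq0 : ((q : ℕ) : ZMod p) ≠ 0 := by
    intro h
    rw [ZMod.natCast_eq_zero_iff] at h
    exact hpq ((Nat.prime_dvd_prime_iff_eq Fact.out Fact.out).mp h)
  let n : ℕ+ := ⟨q, (Fact.out : q.Prime).pos⟩
  let P := AddChar.primitiveZModChar n (ZMod p) (by exact_mod_cast hq0)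
  have hchar : CharP (CyclotomicField P.n (ZMod p)) p :=
    charP_of_injective_algebraMap (algebraMap (ZMod p) _).injective p
  refine ⟨CyclotomicField P.n (ZMod p), inferInstance, hchar, P.char, P.prim, ?_⟩
  intro h
  rw [CharP.cast_eq_zero_iff (CyclotomicField P.n (ZMod p)) p] at h
  exact hpq ((Nat.prime_dvd_prime_iff_eq Fact.out Fact.out).mp h)

end Pool.Agent.Work.MP_c04246_lc.X
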