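import Mathlib
import Pool.Agent.Work.MP_c04246_lc.HEnv
import Pool.Agent.Work.MP_c04246_lc.HInit
import Pool.Agent.Work.MP_c04246_lc.HParams
import Pool.Agent.Work.MP_c04246_lc.XField
import Pool.Agent.Work.MP_c04246_lc.HForms

set_option autoImplicit false
set_option linter.unusedSectionVars false
set_option linter.unusedSimpArgs false
set_option linter.unusedVariables false
set_option linter.unnecessarySeqFocus false

namespace Pool.Agent.Work.MP_c04246_lc.H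

open Finset Fml

/-- numerical facts about the final ideal -/
lemma final_num {w g G r nt d p δ h : ℕ} (hw : 256 ≤ w) (hd : d + 9 + 2 * p ≤ w)
    (hp : 3 * ((p + 3) * (p * p ^ nt)) ≤ w) (hδ : δ ≤ w ^ 2) (hgG : g ≤ G) :
    2 * δ + 2 * (h + 1) * w ^ 3 * ((p + 3) * (((r + 1) * p) ^ nt * (p *
      (4 * (δ * ((G + 1) * w ^ (4 * d))) +
      (d + 5) * (δ * w ^ (d + 2)) + (g + 2) * (p * (δ * w ^ (d + 2))))))) ≤
      (h + 1) * (G + 1) * (r + 1) ^ nt * w ^ (4 * d + 10) := by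
  have hw1 : 1 ≤ w := by omega
  set Z := (G + 1) * w ^ (4 * d + 4) with hZ
  have hR : 1 ≤ (r + 1) ^ nt := Nat.one_le_pow _ _ (by omega)
  set R := (r + 1) ^ nt with hRd
  have h1 : δ * ((G + 1) * w ^ (4 * d)) ≤ Z := by
    calc δ * ((G + 1) * w ^ (4 * d)) ≤ w ^ 2 * ((G + 1) * w ^ (4 * d)) := Nat.mul_le_mul_right _ hδ
      _ = (G + 1) * w ^ (4 * d + 2) := by ring
      _ ≤ Z := Nat.mul_le_mul_left _ (Nat.pow_le_pow_right hw1 (by omega))
  have h2 : δ * w ^ (d + 2) ≤ w ^ (4 * d + 4) := by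
    calc δ * w ^ (d + 2) ≤ w ^ 2 * w ^ (d + 2) := Nat.mul_le_mul_right _ hδ
      _ = w ^ (d + 4) := by ring
      _ ≤ _ := Nat.pow_le_pow_right hw1 (by omega)
  have h3 : w ^ (4 * d + 4) ≤ Z := Nat.le_mul_of_pos_left _ (by omega)
  have h4 : (g + 2) * (p * (δ * w ^ (d + 2))) ≤ 2 * p * Z := by
    calc (g + 2) * (p * (δ * w ^ (d + 2))) ≤ (2 * (G + 1)) * (p * w ^ (4 * d + 4)) :=
          Nat.mul_le_mul (by omega) (Nat.mul_le_mul_left _ h2)
      _ = 2 * p * Z := by rw [hZ]; ring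
  have h5 : (d + 5) * (δ * w ^ (d + 2)) ≤ (d + 5) * Z := Nat.mul_le_mul_left _ (h2.trans h3)
  have h6 : 4 * (δ * ((G + 1) * w ^ (4 * d))) + (d + 5) * (δ * w ^ (d + 2)) +
      (g + 2) * (p * (δ * w ^ (d + 2))) ≤ w * Z := by
    have h7 : (4 + (d + 5) + 2 * p) * Z ≤ w * Z := Nat.mul_le_mul_right _ (by omega)
    have h8 : (4 + (d + 5) + 2 * p) * Z = 4 * Z + (d + 5) * Z + 2 * p * Z := by ring
    omega
  have h9 : 2 * w ^ 3 * ((p + 3) * (((r + 1) * p) ^ nt *
      (p * (4 * (δ * ((G + 1) * w ^ (4 * d))) +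
      (d + 5) * (δ * w ^ (d + 2)) + (g + 2) * (p * (δ * w ^ (d + 2))))))) ≤ R * (w ^ 5 * Z) := by
    calc _ ≤ (3 * w ^ 3) * ((p + 3) * (((r + 1) * p) ^ nt * (p * (w * Z)))) :=
          Nat.mul_le_mul (by omega) (Nat.mul_le_mul_left _ (Nat.mul_le_mul_left _
            (Nat.mul_le_mul_left _ h6)))
      _ = (3 * ((p + 3) * (p * p ^ nt))) * (w ^ 4 * (R * Z)) := by
          rw [mul_pow, ← hRd]; ring
      _ ≤ w * (w ^ 4 * (R * Z)) := Nat.mul_le_mul_right _ hp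
      _ = R * (w ^ 5 * Z) := by ring
  have h10 : 2 * δ ≤ w ^ 5 * Z := by
    have h11 : w ^ 2 ≤ Z := by
      refine le_trans ?_ h3
      exact Nat.pow_le_pow_right hw1 (by omega)
    have h12 : 2 * Z ≤ w ^ 5 * Z := by
      apply Nat.mul_le_mul_right
      calc 2 ≤ w := by omega
        _ = w ^ 1 := (pow_one w).symm
        _ ≤ w ^ 5 := Nat.pow_le_pow_right hw1 (by omega)
    omega
  have h10' : w ^ 5 * Z ≤ R * (w ^ 5 * Z) := Nat.le_mul_of_pos_left _ hR
  have h13 : 2 * (R * (w ^ 5 * Z)) ≤ w * (R * (w ^ 5 * Z)) := Nat.mul_le_mul_right _ (by omega)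
  have h14 : w * (R * (w ^ 5 * Z)) = (G + 1) * R * w ^ (4 * d + 10) := by rw [hZ]; ring
  have h15 : 2 * δ + 2 * w ^ 3 * ((p + 3) * (((r + 1) * p) ^ nt *
      (p * (4 * (δ * ((G + 1) * w ^ (4 * d))) +
      (d + 5) * (δ * w ^ (d + 2)) + (g + 2) * (p * (δ * w ^ (d + 2))))))) ≤
      (G + 1) * R * w ^ (4 * d + 10) := by omega
  have h16 : 2 * δ ≤ (h + 1) * (2 * δ) := Nat.le_mul_of_pos_left _ (by omega)
  have h17 := Nat.mul_le_mul_left (h + 1) h15
  have h18 : (h + 1) * ((G + 1) * R * w ^ (4 * d + 10)) =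
      (h + 1) * (G + 1) * R * w ^ (4 * d + 10) := by ring
  rw [h18, Nat.mul_add] at h17
  refine le_trans (Nat.add_le_add h16 (le_of_eq ?_)) h17
  ring

lemma gset_card {p : ℕ} {X : Type} {w m g r nt : ℕ} {a : Fml p X} (h : Lay w m g r nt a) :
    (gset w m g a).card ≤ g + r := by
  unfold gset
  split_ifs with hb
  · omega
  · cases nt with
    | zero => exact absurd h hb
    | succ nt =>
      rcases h with h | h
      · exact absurd h hb
      · exact h.1.trans (by omega)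

theorem lower_bound (q p : ℕ) [Fact q.Prime] [Fact p.Prime] (hpq : p ≠ q) (d nt : ℕ) :
    ∃ a w0 : ℕ, ∀ (n w M m g r h k : ℕ) (G : Fin n → Fin k × Fin k), w0 ≤ w → Nat.log 2 n ≤ w →
      (∀ v, X.dg G v ≤ 65 * (Nat.log 2 n + 5)) → X.ExpOK (Nat.log 2 n + 5) G (fun _ => true) →
      8 * (Nat.log 2 n + 5) * k ≤ n → n ≤ 16 * (Nat.log 2 n + 5) * k →
      w ^ a ≤ M → (h + 1) * (g + r + 1) * (r + 1) ^ nt * w ^ a ≤ n → m * w ^ a ≤ M ^ q →
      ∀ l : List (Finset (Fml p (HE q G M))), Ranked w h l → {graphTaut p q G M} ∈ l →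
        (∀ C ∈ l, ∀ b ∈ C, Lay w m g r nt b ∧ Bdepth w m d b) →
        2 ^ w ≤ (l.map fun C => ∑ b ∈ C, size b).sum := by
  classical
  have hqp := (Fact.out : q.Prime)
  have hpp := (Fact.out : p.Prime)
  have hq0 : 0 < q := hqp.pos
  have hq2 : 2 ≤ q := hqp.two_le
  have : NeZero q := ⟨hq0.ne'⟩
  obtain ⟨K, _, _, ψ, hψ, hqK⟩ := X.exists_fld p q hpq
  set t : ℕ → ℕ := fun i => tt q d (d - i) with ht
  set b : ℕ → ℕ := fun i => t i - 3 * (i + 1) with hb
  have htge : ∀ i, 3 * d + 5 ≤ t i := fun i => tt_ge hq0 _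
  obtain ⟨wB, hwB⟩ := Big.exists q
  obtain ⟨wP, hwP⟩ := pow_le_two (q * (b 0 + 3))
  refine ⟨q * b 0 + 4 * d + 12, max (max wB wP) (max 400 (max (d + 9 + 2 * p)
    (3 * ((p + 3) * (p * p ^ nt))))), ?_⟩
  intro n w M m g0 r h k G hw hnw hdg hexp hk8 hk16 hM hg hm l hl hφ hlines
  have hBig : Big q w := hwB w ((le_max_left _ _).trans ((le_max_left _ _).trans hw))
  have hwP' := hwP w ((le_max_right _ _).trans ((le_max_left _ _).trans hw))
  have hw400 : 400 ≤ w := (le_max_left _ _).trans ((le_max_right _ _).trans hw)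
  have hwd : d + 9 + 2 * p ≤ w := (le_max_left _ _).trans ((le_max_right _ _).trans
    ((le_max_right _ _).trans hw))
  have hwp : 3 * ((p + 3) * (p * p ^ nt)) ≤ w := (le_max_right _ _).trans ((le_max_right _ _).trans
    ((le_max_right _ _).trans hw))
  have hw1 : 1 ≤ w := by omega
  have hqw : q + 2 ≤ w := hBig.c3
  have hqq : q * q + 1 ≤ w := by
    have h1 := hBig.c4
    have h2 : 4 + q + q * q < 2 ^ (4 + q + q * q) := Nat.lt_two_pow_self
    omega
  have hqw2 : q * w ≤ w ^ 2 := by rw [pow_two]; exact Nat.mul_le_mul_right _ (by omega)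
  by_contra hsize
  push Not at hsize
  set ℓ := Nat.log 2 n + 5 with hℓ
  have hn2 : n < 2 ^ (w + 1) := lt_of_lt_of_le (Nat.lt_pow_succ_log_self (by norm_num) n)
    (Nat.pow_le_pow_right (by norm_num) (by omega))
  have hkn : k ≤ n := by
    calc k ≤ 8 * ℓ * k := Nat.le_mul_of_pos_left _ (by omega)
      _ ≤ n := hk8
  have hℓw : ℓ ≤ w + 5 := by omega
  have hδ : 65 * ℓ + 1 ≤ w ^ 2 := by
    have : 66 * w ≤ w ^ 2 := by rw [pow_two]; exact Nat.mul_le_mul_right _ (by omega)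
    omega
  have hb0 : b 0 + 3 = t 0 := by have := htge 0; simp only [hb]; omega
  have hb0' : 2 ≤ b 0 := by have := htge 0; simp only [hb]; omega
  -- the set of formulas
  set S : Finset (Fml p (HE q G M)) := Sl l with hSdef
  have hScard : S.card < 2 ^ w := lt_of_le_of_lt (card_Sl l) hsize
  have hSsub : ∀ a ∈ S, ∃ c, (Lay w m g0 r nt c ∧ Bdepth w m d c) ∧ a ∈ subs c := by
    intro a ha
    obtain ⟨C, hC, c, hc, hac⟩ := mem_Sl.mp ha
    exact ⟨c, hlines C hC c hc, hac⟩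
  have hSC : SC S := by
    intro a ha x hx
    obtain ⟨C, hC, c, hc, hac⟩ := mem_Sl.mp ha
    exact mem_Sl.mpr ⟨C, hC, c, hc, subs_trans _ _ hac hx⟩
  have hSpi : ∀ C ∈ l, ∀ a ∈ C, a ∈ S := by
    intro C hC a ha
    exact mem_Sl.mpr ⟨C, hC, a, ha, subs_self _⟩
  have hSlv : ∀ a ∈ S, lv w m none a ≤ d := by
    intro a ha
    obtain ⟨c, hc, hac⟩ := hSsub a ha
    exact lv_le_of_Bdepth hc.2 a hac
  have hSw : ∀ a ∈ S, Lay w m g0 r nt a := by
    intro a ha
    obtain ⟨c, hc, hac⟩ := hSsub a ha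
    exact Lay_sub hc.1 hac
  set g := g0 + r with hgdef
  -- the first restriction
  set k0 := w ^ b 0 + (M - w ^ b 0) % q with hk0
  have hMb : w ^ b 0 ≤ M := by
    refine le_trans (Nat.pow_le_pow_right hw1 ?_) hM
    have : b 0 ≤ q * b 0 := Nat.le_mul_of_pos_left _ hq0
    omega
  have hk0M : k0 ≤ M := by
    have := Nat.mod_le (M - w ^ b 0) q
    omega
  have hk0d : q ∣ M - k0 := by
    have h1 : M - k0 = (M - w ^ b 0) - (M - w ^ b 0) % q := by omega
    rw [h1]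
    exact Nat.dvd_sub_mod _
  have hqb : q ≤ w ^ b 0 := by
    calc q ≤ w := by omega
      _ = w ^ 1 := (pow_one w).symm
      _ ≤ w ^ b 0 := Nat.pow_le_pow_right hw1 (by omega)
  have hk02 : k0 ≤ 2 * w ^ b 0 := by
    have := Nat.mod_lt (M - w ^ b 0) hq0
    omega
  have hMpos : 0 < M := lt_of_lt_of_le (Nat.pow_pos hw1) hMb
  have hm2 : 2 * ((m + 1) * k0 ^ q) ≤ M ^ q := by
    have h1 : (m + 1) * w ^ (q * b 0 + 1) ≤ 2 * M ^ q := by
      have h2 : w ^ (q * b 0 + 4 * d + 12) ≤ M ^ q := hM.trans (Nat.le_self_pow hq0.ne' M)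
      calc (m + 1) * w ^ (q * b 0 + 1) ≤ (m + 1) * w ^ (q * b 0 + 4 * d + 12) :=
            Nat.mul_le_mul_left _ (Nat.pow_le_pow_right hw1 (by omega))
        _ = m * w ^ (q * b 0 + 4 * d + 12) + w ^ (q * b 0 + 4 * d + 12) := by ring
        _ ≤ 2 * M ^ q := by omega
    have h3 : 2 * (2 * ((m + 1) * k0 ^ q)) ≤ 2 * M ^ q := by
      calc 2 * (2 * ((m + 1) * k0 ^ q)) ≤ 2 * (2 * ((m + 1) * (2 * w ^ b 0) ^ q)) := by gcongr
        _ = 2 ^ (q + 2) * ((m + 1) * w ^ (q * b 0)) := by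
            rw [mul_pow, ← pow_mul, mul_comm (b 0) q, pow_add]; ring
        _ ≤ w * ((m + 1) * w ^ (q * b 0)) := Nat.mul_le_mul_right _ hBig.c2
        _ = (m + 1) * w ^ (q * b 0 + 1) := by rw [pow_succ]; ring
        _ ≤ _ := h1
    omega
  obtain ⟨ρ0, Wf, hini, hloc⟩ := exists_init (G := G) hq0 hk0M hk0d hMpos S hScard hm2
  -- systems
  set sys : Finset (Fml p (HE q G M) × Finset (Fml p (HE q G M))) :=
    S.biUnion fun a => (gset w m g0 a).powerset.image fun T => (a, T) with hsys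
  have hsysc : sys.card ≤ 2 ^ (w + g) := by
    calc sys.card ≤ ∑ a ∈ S, ((gset w m g0 a).powerset.image fun T => (a, T)).card :=
          card_biUnion_le
      _ ≤ ∑ a ∈ S, 2 ^ g := sum_le_sum fun a ha => by
          refine card_image_le.trans ?_
          rw [card_powerset]
          exact Nat.pow_le_pow_right (by norm_num) (gset_card (hSw a ha))
      _ = S.card * 2 ^ g := by rw [sum_const, smul_eq_mul]
      _ ≤ 2 ^ w * 2 ^ g := Nat.mul_le_mul_right _ hScard.le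
      _ = 2 ^ (w + g) := (pow_add _ _ _).symm
  have hsysm : ∀ c, c ∈ sys ↔ c.1 ∈ S ∧ c.2 ⊆ gset w m g0 c.1 := by
    intro c
    rw [hsys, mem_biUnion]
    constructor
    · rintro ⟨a, ha, hc⟩
      rw [mem_image] at hc
      obtain ⟨T, hT, rfl⟩ := hc
      exact ⟨ha, mem_powerset.mp hT⟩
    · rintro ⟨h1, h2⟩
      exact ⟨c.1, h1, mem_image.mpr ⟨c.2, mem_powerset.mpr h2, rfl⟩⟩
  -- the rounds
  have hdg' : ∀ v, X.dg G v ≤ 65 * ℓ := hdg
  have hDk0 : 65 * ℓ * k0 ≤ w ^ t 0 := by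
    calc 65 * ℓ * k0 ≤ w ^ 2 * (2 * w ^ b 0) := Nat.mul_le_mul (by omega) hk02
      _ = 2 * w ^ (b 0 + 2) := by rw [pow_add]; ring
      _ ≤ w * w ^ (b 0 + 2) := Nat.mul_le_mul_right _ (by omega)
      _ = w ^ t 0 := by rw [← hb0, ← pow_succ']
  have hV : k * (65 * ℓ * k0) ^ q + 1 ≤ 2 ^ (w ^ 2) := by
    have h1 : (65 * ℓ * k0) ^ q ≤ 2 ^ w := by
      calc (65 * ℓ * k0) ^ q ≤ (w ^ t 0) ^ q := Nat.pow_le_pow_left hDk0 _
        _ = w ^ (q * (b 0 + 3)) := by rw [← pow_mul, ← hb0, mul_comm]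
        _ ≤ 2 ^ w := hwP'
    have h2 : k * (65 * ℓ * k0) ^ q ≤ 2 ^ (w + 1) * 2 ^ w :=
      Nat.mul_le_mul (hkn.trans hn2.le) h1
    have h3 : 1 ≤ 2 ^ (w + 1) * 2 ^ w := Nat.mul_pos (by positivity) (by positivity)
    calc k * (65 * ℓ * k0) ^ q + 1 ≤ 2 * (2 ^ (w + 1) * 2 ^ w) := by omega
      _ = 2 ^ (2 * w + 2) := by rw [← pow_add, ← pow_succ']; congr 1; ring
      _ ≤ 2 ^ (w ^ 2) := Nat.pow_le_pow_right (by norm_num) (by nlinarith)
  obtain ⟨ρ, hρ0, hρPP, hρm, hρT, hρM, hρD⟩ := exists_stages (p := p) (w := w) (m := m)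
    (Sy := gSys q G M) hq0 sys
    (fun c => subs c.1) (fun c => gs c.2) (fun c _ => subs_trans c.1) hini.pp
    (κ := fun i => w ^ (i + 2)) (s := fun i => (g + 1) * w ^ (4 * i)) (T := fun i => w ^ t i)
    (M := fun i => w ^ b i) (h := fun i => (g + 1) * w ^ (4 * i + 3))
    (Pn := fun i => (k * (65 * ℓ * k0) ^ q + 1) ^ ((g + 1) * w ^ (4 * i))) (ℓ := q * w) (A := 2)
    (d := d)
    (by
      intro c hc a ha hl
      refine (hloc a (hSC _ ((hsysm c).mp hc).1 ha) hl).mono_h _ ?_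
      simpa using hqw2)
    (by
      intro c hc j hj
      have h1 : w < j := Nat.lt_of_mul_lt_mul_left hj
      have h2 : (subs c.1).card ≤ S.card := card_le_card (hSC _ ((hsysm c).mp hc).1)
      exact h2.trans (hScard.le.trans (Nat.pow_le_pow_right (by norm_num) h1.le)))
    (by
      intro i j hij
      exact Nat.pow_le_pow_right hw1 (by omega))
    (by
      intro i
      refine hqw2.trans (Nat.pow_le_pow_right hw1 (by omega)))
    (by
      intro i
      rw [← pow_succ'])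
    (by
      intro i _
      have h1 : (g + 1) * w ^ (4 * i) ≤ (g + 1) * w ^ (4 * i + 3) :=
        Nat.mul_le_mul_left _ (Nat.pow_le_pow_right hw1 (by omega))
      have h2 : (q * q + 1) * ((g + 1) * w ^ (4 * i + 3)) ≤ w * ((g + 1) * w ^ (4 * i + 3)) :=
        Nat.mul_le_mul_right _ hqq
      have h3 : w * ((g + 1) * w ^ (4 * i + 3)) = (g + 1) * w ^ (4 * (i + 1)) := by ring
      have h4 : (q * q + 1) * ((g + 1) * w ^ (4 * i + 3)) =
        q * (q * ((g + 1) * w ^ (4 * i + 3))) + (g + 1) * w ^ (4 * i + 3) := by ring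
      omega)
    (by
      intro i _ ρ h1 h2
      exact hini.count hdg' h1 h2 hq0 _)
    (fun v => (hini.wf hdg' v).trans hDk0)
    (fun e => by
      rw [hini.bf e]; exact Nat.le_add_right _ _)
    (by
      intro i hi
      have ht1 := htge i
      have ht2 := htge (i + 1)
      have ht3 : t i = q ^ 3 * t (i + 1) + (d + 2) := by
        simp only [ht]
        rw [show d - i = (d - (i + 1)) + 1 by omega]
        rfl
      have h4k : 4 * k ≤ 2 ^ (w + 3) := by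
        have : 2 ^ (w + 3) = 4 * 2 ^ (w + 1) := by rw [pow_add, pow_add]; ring
        omega
      have h4n : 4 * n ≤ 2 ^ (w + 3) := by
        have : 2 ^ (w + 3) = 4 * 2 ^ (w + 1) := by rw [pow_add, pow_add]; ring
        omega
      refine ⟨?_, Nat.pow_pos hw1, Nat.pow_pos hw1, Nat.pow_pos hw1, by norm_num, ?_⟩
      · refine rd_ex (q := q) (w := w) (t := t i) (t' := t (i + 1)) (b := b i) (b' := b (i + 1))
          (D := d) (r := w ^ (i + 2)) hq0 hBig (by omega) ?_ ht3 ?_ ?_ ?_ ?_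
        · simp only [hb]; omega
        · have h5 : t (i + 1) ≤ t i := by
            rw [ht3]
            have : t (i + 1) ≤ q ^ 3 * t (i + 1) := Nat.le_mul_of_pos_left _ (Nat.pow_pos hq0)
            omega
          simp only [hb]; omega
        · exact Nat.pow_le_pow_right hw1 (by omega)
        · rw [Fintype.card_fin]; exact h4k
        · rw [Fintype.card_fin]; exact h4n
      · exact cnt_ok (q := q) (w := w) (g := g) (i := i) hqw (by omega) hV le_rfl
          (Nat.mul_le_mul_right _ hsysc)) d le_rfl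
  -- the ideal
  have hR : 1 ≤ (r + 1) ^ nt := Nat.one_le_pow _ _ (by omega)
  have hga : (h + 1) * (g + 1) * (r + 1) ^ nt * w ^ (4 * d + 11) ≤ n := by
    refine le_trans (Nat.mul_le_mul_left _ (Nat.pow_le_pow_right hw1 ?_)) hg
    omega
  have hgR : g + 1 ≤ (h + 1) * (g + 1) * (r + 1) ^ nt :=
    (Nat.le_mul_of_pos_left _ (Nat.succ_pos h)).trans (Nat.le_mul_of_pos_right _ hR)
  have hgR0 : 0 < (h + 1) * (g + 1) * (r + 1) ^ nt :=
    Nat.mul_pos (Nat.mul_pos (Nat.succ_pos _) (Nat.succ_pos _)) hR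
  have hn256 : 256 * ((h + 1) * (g + 1) * (r + 1) ^ nt * w ^ (4 * d + 10)) ≤ n := by
    calc 256 * ((h + 1) * (g + 1) * (r + 1) ^ nt * w ^ (4 * d + 10)) ≤
          w * ((h + 1) * (g + 1) * (r + 1) ^ nt * w ^ (4 * d + 10)) :=
          Nat.mul_le_mul_right _ (by omega)
      _ = (h + 1) * (g + 1) * (r + 1) ^ nt * w ^ (4 * d + 11) := by ring
      _ ≤ n := hga
  have hk4 : 4 ≤ k := by
    by_contra hcon
    have h1 : n ≤ 48 * ℓ := by
      calc n ≤ 16 * ℓ * k := hk16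
        _ ≤ 16 * ℓ * 3 := Nat.mul_le_mul_left _ (by omega)
        _ = 48 * ℓ := by ring
    have h2 : w ^ 2 ≤ n := by
      refine le_trans ?_ hga
      calc w ^ 2 ≤ w ^ (4 * d + 11) := Nat.pow_le_pow_right hw1 (by omega)
        _ ≤ _ := Nat.le_mul_of_pos_left _ hgR0
    have h3 : 66 * w ≤ w ^ 2 := by rw [pow_two]; exact Nat.mul_le_mul_right _ (by omega)
    omega
  have hB : 2 * ((h + 1) * (g + 1) * (r + 1) ^ nt * w ^ (4 * d + 10)) ≤ ℓ * (k / 4) := by
    have h2 : k ≤ 8 * (k / 4) := by omega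
    have h3 : n ≤ 128 * (ℓ * (k / 4)) := by
      calc n ≤ 16 * ℓ * k := hk16
        _ ≤ 16 * ℓ * (8 * (k / 4)) := Nat.mul_le_mul_left _ h2
        _ = 128 * (ℓ * (k / 4)) := by ring
    omega
  have hE := X.Expd_cobG (q := q) hexp (r0 := k / 4) (by omega)
  have hfr : ∀ e, q ≤ (fr (ρ d) e).card + 1 := by
    intro e
    have h1 : w ^ b d ≤ (fr (ρ d) e).card := hρM e
    have h2 : q ≤ w ^ b d := by
      have ht1 := htge d
      have h3 : 2 ≤ b d := by simp only [hb]; omega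
      calc q ≤ w := by omega
        _ = w ^ 1 := (pow_one w).symm
        _ ≤ w ^ b d := Nat.pow_le_pow_right hw1 (by omega)
    omega
  have hδB : 65 * ℓ + 1 ≤ (h + 1) * (g + 1) * (r + 1) ^ nt * w ^ (4 * d + 10) := by
    refine hδ.trans ?_
    calc w ^ 2 ≤ w ^ (4 * d + 10) := Nat.pow_le_pow_right hw1 (by omega)
      _ ≤ _ := Nat.le_mul_of_pos_left _ hgR0
  have hB' : (65 * ℓ + 1) * ((g + 1) * w ^ (4 * d)) ≤
      (h + 1) * (g + 1) * (r + 1) ^ nt * w ^ (4 * d + 10) := by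
    calc (65 * ℓ + 1) * ((g + 1) * w ^ (4 * d)) ≤ w ^ 2 * ((g + 1) * w ^ (4 * d)) :=
          Nat.mul_le_mul_right _ hδ
      _ = (g + 1) * w ^ (4 * d + 2) := by ring
      _ ≤ _ := Nat.mul_le_mul hgR (Nat.pow_le_pow_right hw1 (by omega))
  have hB'' : (65 * ℓ + 1) * w ^ (d + 2) ≤ (h + 1) * (g + 1) * (r + 1) ^ nt * w ^ (4 * d + 10) := by
    calc (65 * ℓ + 1) * w ^ (d + 2) ≤ w ^ 2 * w ^ (d + 2) := Nat.mul_le_mul_right _ hδ
      _ = w ^ (d + 4) := by ring
      _ ≤ w ^ (4 * d + 10) := Nat.pow_le_pow_right hw1 (by omega)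
      _ ≤ _ := Nat.le_mul_of_pos_left _ hgR0
  set Wd := wdG hψ hqK hE (by omega : 1 ≤ ℓ) hB (by omega : 1 ≤ k / 4) (hρPP d le_rfl) hfr hdg'
    hδB with hWd
  obtain ⟨E, e1, e2, e3, e4, er, ent, e5, e6, e7, e8, e9⟩ := exists_env (p := p) ρ d Wd w m g0 r nt
    (fun i => w ^ (i + 2)) (fun i => (g + 1) * w ^ (4 * i)) (by
      intro i j hij
      exact Nat.pow_le_pow_right hw1 (by omega)) S hSC hSlv hSw hB' hB''
    (fun c h1 h2 => hρD c ((hsysm c).mpr ⟨h1, h2⟩))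
  refine E.no_derivation (pi := l) (h := h) (by rw [e1]; exact hl) (by rw [e9]; exact hSpi) hφ
    (by rw [e8]; exact Nat.pow_pos hw1) (by
      rw [e8]
      intro i j hij
      exact Nat.pow_le_pow_right hw1 (by omega)) ?_ (by rw [e1]; omega) ?_ ?_
  · intro x
    rw [← card_pos, (gSys q G M).card_es]; exact hq0
  · have hN : E.N = 4 * ((65 * ℓ + 1) * ((g + 1) * w ^ (4 * d))) +
        (d + 5) * ((65 * ℓ + 1) * w ^ (d + 2)) + (g0 + 2) * (p * ((65 * ℓ + 1) * w ^ (d + 2))) := by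
      unfold Env.N
      rw [e3, e4, e5, e6, e7]
    have hDD : E.DD = ((r + 1) * p) ^ nt * (p * E.N) := by
      unfold Env.DD Env.Dt
      rw [er, ent]
    rw [hDD, hN, e1, e5]
    exact final_num (by omega) hwd hwp hδ (by omega)
  · exact X.not_Zr_one hψ hqK hE (by omega)

end Pool.Agent.Work.MP_c04246_lc.H
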