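import Mathlib

set_option autoImplicit false
set_option linter.unusedSectionVars false
set_option linter.unusedSimpArgs false
set_option linter.unusedVariables false

namespace Pool.Agent.Work.MP_c04246_lc

open Finset

/-- Flows mod `q` on the complete digraph (with loops) on `t` vertices. -/
abbrev Flow (q t : ℕ) := Fin t × Fin t → ZMod q

/-- number of nonzero coordinates -/
def sc {ι M : Type*} [Fintype ι] [Zero M] [DecidableEq M] (a : ι → M) : ℕ :=
  (univ.filter (fun i => a i ≠ 0)).card

section basic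

variable {ι M : Type*} [Fintype ι] [AddCommGroup M] [DecidableEq M]

lemma sc_zero : sc (0 : ι → M) = 0 := by simp [sc]

lemma sc_add_le [DecidableEq ι] (a b : ι → M) : sc (a + b) ≤ sc a + sc b := by
  unfold sc
  refine le_trans (card_le_card ?_) (card_union_le _ _)
  intro i hi
  simp only [mem_filter, mem_univ, true_and, Pi.add_apply, mem_union] at *
  by_contra h
  push Not at h
  exact hi (by rw [h.1, h.2, add_zero])

lemma sc_neg (a : ι → M) : sc (-a) = sc a := by
  unfold sc; congr 1; ext i; simp

lemma sc_sub_le [DecidableEq ι] (a b : ι → M) : sc (a - b) ≤ sc a + sc b := by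
  rw [sub_eq_add_neg]
  exact (sc_add_le a (-b)).trans (by rw [sc_neg])

end basic

section PC

variable {q t : ℕ} [NeZero q] {K : Type*} [Field K]

/-- coboundary -/
def cob (k : Fin t → ZMod q) : Flow q t := fun e => k e.2 - k e.1

lemma cob_add (k l : Fin t → ZMod q) : cob (k + l) = cob k + cob l := by
  funext e; simp [cob]; ring

lemma cob_sub (k l : Fin t → ZMod q) : cob (k - l) = cob k - cob l := by
  funext e; simp [cob]; ring

lemma cob_zero : cob (0 : Fin t → ZMod q) = 0 := by
  funext e; simp [cob]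

/-- isoperimetry of the complete digraph -/
lemma iso (k : Fin t → ZMod q) (h2 : 2 * sc k < t) (hc : 4 * sc (cob k) < t * t) :
    4 * sc k < t := by
  by_contra hcon
  push Not at hcon
  set S := univ.filter (fun i => k i ≠ 0) with hS
  have hsc : sc k = S.card := rfl
  have hcompl : Sᶜ.card = t - S.card := by
    rw [card_compl, Fintype.card_fin]
  have hsub : (S ×ˢ Sᶜ) ∪ (Sᶜ ×ˢ S) ⊆ univ.filter (fun e => cob k e ≠ 0) := by
    intro e he
    simp only [mem_union, mem_product, mem_compl, hS, mem_filter, mem_univ, true_and,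
      not_not] at he
    refine mem_filter.mpr ⟨mem_univ _, ?_⟩
    show k e.2 - k e.1 ≠ 0
    rcases he with ⟨h1, h2⟩ | ⟨h1, h2⟩
    · rw [h2, zero_sub]; simpa using h1
    · rw [h1, sub_zero]; exact h2
  have hdisj : Disjoint (S ×ˢ Sᶜ) (Sᶜ ×ˢ S) := by
    rw [disjoint_left]
    intro e he he'
    simp only [mem_product, mem_compl] at he he'
    exact he'.1 he.1
  have h1 := card_le_card hsub
  rw [card_union_of_disjoint hdisj, card_product, card_product, hcompl] at h1
  have h3 : sc (cob k) = (univ.filter (fun e => cob k e ≠ 0)).card := rfl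
  rw [← h3] at h1
  rw [hsc] at hcon h2
  obtain ⟨m, hm⟩ : ∃ m, t = S.card + m := ⟨t - S.card, by omega⟩
  have hm' : t - S.card = m := by omega
  rw [hm'] at h1
  have h4 : t < 2 * m := by omega
  nlinarith

variable (ψ : AddChar (ZMod q) K)

lemma addChar_sum {ι : Type*} (s : Finset ι) (f : ι → ZMod q) :
    ψ (∑ i ∈ s, f i) = ∏ i ∈ s, ψ (f i) := by
  classical
  induction s using Finset.induction_on with
  | empty => simp
  | insert a s ha ih => rw [sum_insert ha, prod_insert ha, AddChar.map_add_eq_mul, ih]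

/-- characters -/
def chr (a y : Flow q t) : K := ψ (∑ e, a e * y e)

lemma chr_add (a b y : Flow q t) : chr ψ (a + b) y = chr ψ a y * chr ψ b y := by
  unfold chr
  rw [← AddChar.map_add_eq_mul, ← sum_add_distrib]
  congr 1
  exact sum_congr rfl fun e _ => by simp [add_mul]

lemma chr_zero (y : Flow q t) : chr ψ 0 y = 1 := by simp [chr]

lemma sum_chr (hψ : ψ.IsPrimitive) (a : Flow q t) :
    ∑ y : Flow q t, chr ψ a y = if a = 0 then (Fintype.card (Flow q t) : K) else 0 := by
  split_ifs with h
  · subst h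
    simp [chr_zero]
  · have hne : ∃ e, a e ≠ 0 := by
      by_contra hcon
      push Not at hcon
      exact h (funext hcon)
    obtain ⟨e, he⟩ := hne
    have key : ∀ y : Flow q t, chr ψ a y = ∏ e, ψ (a e * y e) := by
      intro y
      unfold chr
      rw [addChar_sum]
    simp_rw [key]
    have := (Finset.prod_univ_sum (fun _ : Fin t × Fin t => (univ : Finset (ZMod q)))
      (fun e x => ψ (a e * x))).symm
    rw [Fintype.piFinset_univ] at this
    rw [this]
    apply prod_eq_zero (mem_univ e)
    have h2 := AddChar.sum_mulShift (a e) hψ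
    simp only [he, if_false, Nat.cast_zero] at h2
    rw [← h2]
    exact sum_congr rfl fun x _ => by rw [mul_comm]

/-- small vertex labelings -/
def Small (q t : ℕ) [NeZero q] : Finset (Fin t → ZMod q) := univ.filter (fun k => 4 * sc k < t)

/-- phase -/
def ph (c : Fin t → ZMod q) (k : Fin t → ZMod q) : K := ψ (∑ v, k v * c v)

lemma ph_add (c k l : Fin t → ZMod q) : ph ψ c (k + l) = ph ψ c k * ph ψ c l := by
  unfold ph
  rw [← AddChar.map_add_eq_mul, ← sum_add_distrib]
  congr 1
  exact sum_congr rfl fun e _ => by simp [add_mul]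

lemma ph_zero (c : Fin t → ZMod q) : ph ψ c 0 = 1 := by simp [ph]

/-- the functional -/
noncomputable def Lf (c : Fin t → ZMod q) (b : Flow q t) (f : Flow q t → K) : K :=
  (∑ y, f y * (chr ψ (-b) y * ∑ k ∈ Small q t, ph ψ c k * chr ψ (-cob k) y)) /
    (Fintype.card (Flow q t) : K)

variable {ψ} {c : Fin t → ZMod q}

lemma Lf_add (b : Flow q t) (f g : Flow q t → K) :
    Lf ψ c b (f + g) = Lf ψ c b f + Lf ψ c b g := by
  unfold Lf
  rw [← add_div, ← sum_add_distrib]
  congr 1
  exact sum_congr rfl fun y _ => by simp [add_mul]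

lemma Lf_smul (b : Flow q t) (r : K) (f : Flow q t → K) :
    Lf ψ c b (r • f) = r * Lf ψ c b f := by
  unfold Lf
  rw [← mul_div_assoc, mul_sum]
  congr 1
  exact sum_congr rfl fun y _ => by simp [mul_assoc]

lemma Lf_zero (b : Flow q t) : Lf ψ c b (0 : Flow q t → K) = 0 := by
  unfold Lf; simp

lemma Lf_mul_chr (b a : Flow q t) (f : Flow q t → K) :
    Lf ψ c b (f * chr ψ a) = Lf ψ c (b - a) f := by
  unfold Lf
  congr 1
  refine sum_congr rfl fun y _ => ?_
  have : (-(b - a)) = a + -b := by abel
  rw [this, chr_add, Pi.mul_apply]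
  ring

lemma Lf_chr (hψ : ψ.IsPrimitive) (hq : (q : K) ≠ 0) (b a : Flow q t) :
    Lf ψ c b (chr ψ a) = ∑ k ∈ (Small q t).filter (fun k => cob k = a - b), ph ψ c k := by
  unfold Lf
  have hcard : (Fintype.card (Flow q t) : K) ≠ 0 := by
    have : Fintype.card (Flow q t) = q ^ (t * t) := by
      simp [Flow, ZMod.card]
    rw [this]
    push_cast
    exact pow_ne_zero _ hq
  have h1 : ∀ y : Flow q t, chr ψ a y * (chr ψ (-b) y * ∑ k ∈ Small q t, ph ψ c k * chr ψ (-cob k) y)
      = ∑ k ∈ Small q t, ph ψ c k * chr ψ (a - b - cob k) y := by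
    intro y
    rw [mul_sum, mul_sum]
    refine sum_congr rfl fun k _ => ?_
    rw [sub_eq_add_neg, chr_add, sub_eq_add_neg, chr_add]
    ring
  simp_rw [h1]
  rw [sum_comm]
  simp_rw [← mul_sum, sum_chr ψ hψ]
  rw [sum_filter, sum_div]
  refine sum_congr rfl fun k _ => ?_
  by_cases h : cob k = a - b
  · have h' : a - b - cob k = 0 := by rw [h]; abel
    rw [if_pos h', if_pos h]
    field_simp
  · have h' : ¬ (a - b - cob k = 0) := fun h0 => h (sub_eq_zero.mp h0).symm
    rw [if_neg h', if_neg h]
    simp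

/-- transport along a small coboundary -/
lemma Lf_transport (hψ : ψ.IsPrimitive) (hq : (q : K) ≠ 0) (b a : Flow q t)
    (k0 : Fin t → ZMod q) (hk0 : k0 ∈ Small q t)
    (h1 : 4 * sc (a - b) < t * t) (h2 : 4 * sc (a - (b + cob k0)) < t * t) :
    Lf ψ c b (chr ψ a) = ph ψ c k0 * Lf ψ c (b + cob k0) (chr ψ a) := by
  rw [Lf_chr hψ hq, Lf_chr hψ hq, mul_sum]
  have hk0' : 4 * sc k0 < t := by simpa [Small] using hk0
  refine sum_nbij' (fun k => k - k0) (fun k => k + k0) ?_ ?_ ?_ ?_ ?_
  · intro k hk
    simp only [mem_filter, Small, mem_univ, true_and] at hk ⊢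
    have hcob : cob (k - k0) = a - (b + cob k0) := by
      rw [cob_sub, hk.2]; abel
    refine ⟨iso _ ?_ ?_, hcob⟩
    · have := sc_sub_le k k0; omega
    · rw [hcob]; exact h2
  · intro k hk
    simp only [mem_filter, Small, mem_univ, true_and] at hk ⊢
    have hcob : cob (k + k0) = a - b := by
      rw [cob_add, hk.2]; abel
    refine ⟨iso _ ?_ ?_, hcob⟩
    · have := sc_add_le k k0; omega
    · rw [hcob]; exact h1
  · intro k _; simp
  · intro k _; simp
  · intro k _
    rw [← ph_add]; congr 1; abel

variable (ψ) in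
/-- functions of degree at most `D` -/
def Deg (D : ℕ) (f : Flow q t → K) : Prop :=
  f ∈ Submodule.span K {g : Flow q t → K | ∃ a : Flow q t, sc a ≤ D ∧ g = chr ψ a}

variable (ψ) in
lemma Deg.of_chr {D : ℕ} {a : Flow q t} (h : sc a ≤ D) : Deg ψ D (chr ψ a) :=
  Submodule.subset_span ⟨a, h, rfl⟩

lemma Deg.mono {D D' : ℕ} (h : D ≤ D') {f : Flow q t → K} (hf : Deg ψ D f) : Deg ψ D' f := by
  refine Submodule.span_mono ?_ hf
  rintro g ⟨a, ha, hg⟩
  exact ⟨a, ha.trans h, hg⟩

lemma Deg.add {D : ℕ} {f g : Flow q t → K} (hf : Deg ψ D f) (hg : Deg ψ D g) :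
    Deg ψ D (f + g) := Submodule.add_mem _ hf hg

lemma Deg.sub {D : ℕ} {f g : Flow q t → K} (hf : Deg ψ D f) (hg : Deg ψ D g) :
    Deg ψ D (f - g) := Submodule.sub_mem _ hf hg

lemma Deg.smul {D : ℕ} (r : K) {f : Flow q t → K} (hf : Deg ψ D f) :
    Deg ψ D (r • f) := Submodule.smul_mem _ _ hf

lemma Deg.zero {D : ℕ} : Deg ψ D (0 : Flow q t → K) := Submodule.zero_mem _

lemma Deg.one {D : ℕ} : Deg ψ D (1 : Flow q t → K) := by
  have : (1 : Flow q t → K) = chr ψ 0 := by
    funext y; simp [chr_zero]
  rw [this]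
  exact Deg.of_chr ψ (by rw [sc_zero]; exact Nat.zero_le _)

lemma Deg.const {D : ℕ} (r : K) : Deg ψ D (fun _ : Flow q t => r) := by
  have : (fun _ : Flow q t => r) = r • (1 : Flow q t → K) := by
    funext y; simp
  rw [this]; exact Deg.one.smul r

lemma Deg.sum {D : ℕ} {ι : Type*} (s : Finset ι) (f : ι → Flow q t → K)
    (h : ∀ i ∈ s, Deg ψ D (f i)) : Deg ψ D (∑ i ∈ s, f i) := Submodule.sum_mem _ h

lemma Deg.mul {D D' : ℕ} {f g : Flow q t → K} (hf : Deg ψ D f) (hg : Deg ψ D' g) :
    Deg ψ (D + D') (f * g) := by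
  unfold Deg at hf hg
  induction hf using Submodule.span_induction with
  | mem x hx =>
    obtain ⟨a, ha, rfl⟩ := hx
    induction hg using Submodule.span_induction with
    | mem y hy =>
      obtain ⟨b, hb, rfl⟩ := hy
      have : chr ψ a * chr ψ b = chr ψ (a + b) := by
        funext z; simp [chr_add]
      rw [this]
      exact Deg.of_chr ψ ((sc_add_le a b).trans (by omega))
    | zero => rw [mul_zero]; exact Deg.zero
    | add x y _ _ h1 h2 => rw [mul_add]; exact h1.add h2
    | smul r x _ h1 => rw [mul_smul_comm]; exact h1.smul r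
  | zero => rw [zero_mul]; exact Deg.zero
  | add x y _ _ h1 h2 => rw [add_mul]; exact h1.add h2
  | smul r x _ h1 => rw [smul_mul_assoc]; exact h1.smul r

variable (ψ c) in
/-- functions killed by all functionals indexed by characters of weight at most `B` -/
def Zr (B : ℕ) (f : Flow q t → K) : Prop := ∀ b : Flow q t, sc b ≤ B → Lf ψ c b f = 0

lemma Zr.add {B : ℕ} {f g : Flow q t → K} (hf : Zr ψ c B f) (hg : Zr ψ c B g) :
    Zr ψ c B (f + g) := fun b hb => by rw [Lf_add, hf b hb, hg b hb, add_zero]

lemma Zr.smul {B : ℕ} (r : K) {f : Flow q t → K} (hf : Zr ψ c B f) :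
    Zr ψ c B (r • f) := fun b hb => by rw [Lf_smul, hf b hb, mul_zero]

lemma Zr.zero {B : ℕ} : Zr ψ c B (0 : Flow q t → K) := fun b _ => Lf_zero b

lemma Zr.sum {B : ℕ} {ι : Type*} (s : Finset ι) (f : ι → Flow q t → K)
    (h : ∀ i ∈ s, Zr ψ c B (f i)) : Zr ψ c B (∑ i ∈ s, f i) := by
  classical
  induction s using Finset.induction_on with
  | empty => simpa using Zr.zero
  | insert a s ha ih =>
    rw [sum_insert ha]
    exact (h a (mem_insert_self a s)).add (ih fun i hi => h i (mem_insert_of_mem hi))

/-- key closure property: multiplying an element of the low degree ideal by a function of low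
degree stays in the ideal -/
lemma Zr.mul (hψ : ψ.IsPrimitive) (hq : (q : K) ≠ 0) {B D D' : ℕ} (hB : 8 * B < t * t)
    (hD : D + D' ≤ B) {f g : Flow q t → K} (hfD : Deg ψ D f) (hf : Zr ψ c B f)
    (hg : Deg ψ D' g) : Zr ψ c B (f * g) := by
  unfold Deg at hg
  induction hg using Submodule.span_induction with
  | mem x hx =>
    obtain ⟨a, ha, rfl⟩ := hx
    intro b hb
    rw [Lf_mul_chr]
    by_cases hex : ∃ k0 ∈ Small q t, sc ((b - a) + cob k0) ≤ D
    · obtain ⟨k0, hk0, hk0D⟩ := hex
      have hbase : Lf ψ c ((b - a) + cob k0) f = 0 := hf _ (hk0D.trans (by omega))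
      have htr : Lf ψ c (b - a) f = ph ψ c k0 * Lf ψ c ((b - a) + cob k0) f := by
        clear hbase hf
        unfold Deg at hfD
        induction hfD using Submodule.span_induction with
        | mem x hx =>
          obtain ⟨a', ha', rfl⟩ := hx
          refine Lf_transport hψ hq _ _ k0 hk0 ?_ ?_
          · have h1 := sc_sub_le a' (b - a)
            have h2 := sc_sub_le b a
            omega
          · have h1 := sc_sub_le a' ((b - a) + cob k0)
            omega
        | zero => simp [Lf_zero]
        | add x y _ _ h1 h2 => rw [Lf_add, Lf_add, h1, h2]; ring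
        | smul r x _ h1 => rw [Lf_smul, Lf_smul, h1]; ring
      rw [htr, hbase, mul_zero]
    · push Not at hex
      clear hf
      unfold Deg at hfD
      induction hfD using Submodule.span_induction with
      | mem x hx =>
        obtain ⟨a', ha', rfl⟩ := hx
        rw [Lf_chr hψ hq]
        apply sum_eq_zero
        intro k hk
        rw [mem_filter] at hk
        exfalso
        have := hex k hk.1
        rw [hk.2, add_sub_cancel] at this
        omega
      | zero => exact Lf_zero _
      | add x y _ _ h1 h2 => rw [Lf_add, h1, h2, add_zero]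
      | smul r x _ h1 => rw [Lf_smul, h1, mul_zero]
  | zero => rw [mul_zero]; exact Zr.zero
  | add x y _ _ h1 h2 => rw [mul_add]; exact h1.add h2
  | smul r x _ h1 => rw [mul_smul_comm]; exact h1.smul r

lemma cob_eq_zero {k : Fin t → ZMod q} (hk : k ∈ Small q t) (h : cob k = 0) : k = 0 := by
  have hk' : 4 * sc k < t := by simpa [Small] using hk
  by_contra hne
  have : ∃ v, k v ≠ 0 := by
    by_contra hcon
    push Not at hcon
    exact hne (funext hcon)
  obtain ⟨v, hv⟩ := this
  have hall : ∀ w, k w ≠ 0 := by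
    intro w
    have h1 : cob k (w, v) = 0 := by rw [h]; rfl
    have h2 : k v - k w = 0 := h1
    rw [sub_eq_zero] at h2
    rw [← h2]; exact hv
  have : sc k = t := by
    unfold sc
    rw [filter_true_of_mem (fun w _ => hall w)]
    simp
  omega

/-- the constant function one is not in the ideal -/
lemma not_Zr_one (hψ : ψ.IsPrimitive) (hq : (q : K) ≠ 0) {B : ℕ} (ht : 0 < t) :
    ¬ Zr ψ c B (1 : Flow q t → K) := by
  intro h
  have h0 := h 0 (by rw [sc_zero]; exact Nat.zero_le _)
  have h1 : (1 : Flow q t → K) = chr ψ 0 := by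
    funext y; simp [chr_zero]
  rw [h1, Lf_chr hψ hq] at h0
  have h2 : (Small q t).filter (fun k => cob k = (0 : Flow q t) - 0) = {0} := by
    ext k
    simp only [mem_filter, sub_zero, mem_singleton]
    constructor
    · rintro ⟨hk, hk'⟩; exact cob_eq_zero hk hk'
    · rintro rfl
      refine ⟨by simp [Small, sc_zero, ht], cob_zero⟩
  rw [h2, sum_singleton, ph_zero] at h0
  exact one_ne_zero h0

/-- net inflow -/
def dv (y : Flow q t) (v : Fin t) : ZMod q := ∑ a, y (a, v) - ∑ b, y (v, b)

/-- character of a coboundary of a single vertex -/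
lemma chr_cob_single (v : Fin t) (j : ZMod q) (y : Flow q t) :
    chr ψ (cob (Pi.single v j)) y = ψ (j * dv y v) := by
  unfold chr dv cob
  congr 1
  have h1 : ∀ e : Fin t × Fin t, ((Pi.single v j : Fin t → ZMod q) e.2 - (Pi.single v j : Fin t → ZMod q) e.1) * y e
      = (if e.2 = v then j * y e else 0) - (if e.1 = v then j * y e else 0) := by
    intro e
    rw [Pi.single_apply, Pi.single_apply]
    split_ifs <;> ring
  simp_rw [h1]
  rw [sum_sub_distrib, Fintype.sum_prod_type, Fintype.sum_prod_type, mul_sub, mul_sum, mul_sum]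
  congr 1
  · refine sum_congr rfl fun a _ => ?_
    simp
  · rw [sum_comm]
    refine sum_congr rfl fun a _ => ?_
    simp

lemma sc_cob_single (v : Fin t) (j : ZMod q) : sc (cob (Pi.single v j)) ≤ 2 * t := by
  unfold sc
  have hsub : univ.filter (fun e : Fin t × Fin t => cob (Pi.single v j) e ≠ 0) ⊆
      (univ.image (fun a : Fin t => (a, v))) ∪ (univ.image (fun b : Fin t => (v, b))) := by
    intro e he
    rw [mem_filter] at he
    rw [mem_union, mem_image, mem_image]
    by_contra hcon
    push Not at hcon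
    apply he.2
    show (Pi.single v j : Fin t → ZMod q) e.2 - (Pi.single v j : Fin t → ZMod q) e.1 = 0
    have h1 : e.2 ≠ v := fun h => hcon.1 e.1 (mem_univ _) (by rw [← h])
    have h2 : e.1 ≠ v := fun h => hcon.2 e.2 (mem_univ _) (by rw [← h])
    rw [Pi.single_eq_of_ne h1, Pi.single_eq_of_ne h2, sub_zero]
  refine (card_le_card hsub).trans ((card_union_le _ _).trans ?_)
  have h1 : (univ.image (fun a : Fin t => (a, v))).card ≤ t :=
    card_image_le.trans (by simp)
  have h2 : (univ.image (fun b : Fin t => (v, b))).card ≤ t :=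
    card_image_le.trans (by simp)
  omega

/-- indicator that the constraint at `v` is violated -/
def viol (K : Type*) [Field K] (c : Fin t → ZMod q) (v : Fin t) (y : Flow q t) : K :=
  if dv y v = c v then 0 else 1

lemma viol_eq (hψ : ψ.IsPrimitive) (hq : (q : K) ≠ 0) (v : Fin t) :
    viol K c v = ∑ j : ZMod q, ((q : K)⁻¹) •
      (1 - ψ (-(j * c v)) • chr ψ (cob (Pi.single v j))) := by
  funext y
  simp only [viol, Finset.sum_apply, Pi.smul_apply, Pi.sub_apply, Pi.one_apply, smul_eq_mul]
  have h1 : ∀ j : ZMod q, ψ (-(j * c v)) * chr ψ (cob (Pi.single v j)) y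
      = ψ (j * (dv y v - c v)) := by
    intro j
    rw [chr_cob_single, ← AddChar.map_add_eq_mul]
    congr 1; ring
  simp_rw [h1]
  rw [← mul_sum, sum_sub_distrib, AddChar.sum_mulShift _ hψ]
  simp only [sum_const, card_univ, ZMod.card, nsmul_eq_mul, mul_one]
  by_cases h : dv y v = c v
  · rw [if_pos h, if_pos (by rw [h, sub_self]), sub_self, mul_zero]
  · rw [if_neg h, if_neg (by rwa [sub_eq_zero])]
    simp [hq]

lemma Deg.of_viol (hψ : ψ.IsPrimitive) (hq : (q : K) ≠ 0) (v : Fin t) :
    Deg ψ (2 * t) (viol K c v) := by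
  rw [viol_eq hψ hq]
  refine Deg.sum _ _ fun j _ => Deg.smul _ (Deg.sub Deg.one (Deg.smul _ (Deg.of_chr ψ ?_)))
  exact sc_cob_single v j

/-- violation indicators are in the ideal -/
lemma Zr.of_viol (hψ : ψ.IsPrimitive) (hq : (q : K) ≠ 0) {B : ℕ} (hB : 8 * B < t * t)
    (hBt : 2 * t ≤ B) (v : Fin t) : Zr ψ c B (viol K c v) := by
  rw [viol_eq hψ hq]
  refine Zr.sum _ _ fun j _ => Zr.smul _ ?_
  intro b hb
  have h0 : (1 : Flow q t → K) = chr ψ 0 := by
    funext y; simp [chr_zero]
  have h1 : (1 - ψ (-(j * c v)) • chr ψ (cob (Pi.single v j)) : Flow q t → K)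
      = chr ψ 0 + (-ψ (-(j * c v))) • chr ψ (cob (Pi.single v j)) := by
    rw [h0, neg_smul, sub_eq_add_neg]
  rw [h1, Lf_add, Lf_smul, Lf_chr hψ hq, Lf_chr hψ hq]
  have ht : 16 < t := by nlinarith
  have h2 : ∑ k ∈ (Small q t).filter (fun k => cob k = cob (Pi.single v j) - b), ph ψ c k
      = ψ (j * c v) * ∑ k ∈ (Small q t).filter (fun k => cob k = (0 : Flow q t) - b), ph ψ c k := by
    rw [mul_sum]
    have hsingle : sc (Pi.single v j : Fin t → ZMod q) ≤ 1 := by
      unfold sc
      have : univ.filter (fun i => (Pi.single v j : Fin t → ZMod q) i ≠ 0) ⊆ {v} := by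
        intro i hi
        rw [mem_filter] at hi
        rw [mem_singleton]
        by_contra hne
        exact hi.2 (Pi.single_eq_of_ne hne _)
      exact (card_le_card this).trans (by simp)
    refine sum_nbij' (fun k => k - Pi.single v j) (fun k => k + Pi.single v j) ?_ ?_ ?_ ?_ ?_
    · intro k hk
      simp only [mem_filter, Small, mem_univ, true_and] at hk ⊢
      have hcob : cob (k - Pi.single v j) = (0 : Flow q t) - b := by
        rw [cob_sub, hk.2]; abel
      refine ⟨iso _ ?_ ?_, hcob⟩
      · have := sc_sub_le k (Pi.single v j); omega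
      · rw [hcob]
        have := sc_sub_le (0 : Flow q t) b
        rw [sc_zero] at this
        omega
    · intro k hk
      simp only [mem_filter, Small, mem_univ, true_and] at hk ⊢
      have hcob : cob (k + Pi.single v j) = cob (Pi.single v j) - b := by
        rw [cob_add, hk.2]; abel
      refine ⟨iso _ ?_ ?_, hcob⟩
      · have := sc_add_le k (Pi.single v j); omega
      · rw [hcob]
        have := sc_sub_le (cob (Pi.single v j)) b
        have := sc_cob_single v j
        omega
    · intro k _; simp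
    · intro k _; simp
    · intro k _
      have h3 : k = Pi.single v j + (k - Pi.single v j) := by abel
      conv_lhs => rw [h3]
      rw [ph_add]
      congr 1
      unfold ph
      congr 1
      simp [Pi.single_apply, ite_mul]
  rw [h2]
  have h3 : ψ (-(j * c v)) * ψ (j * c v) = 1 := by
    rw [← AddChar.map_add_eq_mul]; simp
  linear_combination (-(∑ k ∈ (Small q t).filter (fun k => cob k = (0 : Flow q t) - b), ph ψ c k)) * h3

/-- `f` depends only on the coordinates in `A` -/
def Junta (A : Finset (Fin t × Fin t)) (f : Flow q t → K) : Prop :=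
  ∀ y y' : Flow q t, (∀ e ∈ A, y e = y' e) → f y = f y'

lemma chr_single (e : Fin t × Fin t) (i : ZMod q) (y : Flow q t) :
    chr ψ (Pi.single e i) y = ψ (i * y e) := by
  unfold chr
  congr 1
  rw [sum_eq_single e]
  · simp
  · intro e' _ he'
    rw [Pi.single_eq_of_ne he', zero_mul]
  · intro h; exact absurd (mem_univ e) h

lemma Deg.of_ind (hψ : ψ.IsPrimitive) (hq : (q : K) ≠ 0) (e : Fin t × Fin t) (j : ZMod q) :
    Deg ψ 1 (fun y : Flow q t => if y e = j then (1 : K) else 0) := by
  have h1 : (fun y : Flow q t => if y e = j then (1 : K) else 0) =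
      ∑ i : ZMod q, ((q : K)⁻¹ * ψ (-(i * j))) • chr ψ (Pi.single e i) := by
    funext y
    simp only [Finset.sum_apply, Pi.smul_apply, smul_eq_mul]
    have h1 : ∀ i : ZMod q, (q : K)⁻¹ * ψ (-(i * j)) * chr ψ (Pi.single e i) y
        = (q : K)⁻¹ * ψ (i * (y e - j)) := by
      intro i
      rw [chr_single, mul_assoc, ← AddChar.map_add_eq_mul]
      congr 2; ring
    simp_rw [h1]
    rw [← mul_sum, AddChar.sum_mulShift _ hψ]
    by_cases h : y e = j
    · rw [if_pos h, if_pos (by rw [h, sub_self]), ZMod.card, inv_mul_cancel₀ hq]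
    · rw [if_neg h, if_neg (by rwa [sub_eq_zero])]
      simp
  rw [h1]
  refine Deg.sum _ _ fun i _ => Deg.smul _ (Deg.of_chr ψ ?_)
  unfold sc
  have : univ.filter (fun e' => (Pi.single e i : Flow q t) e' ≠ 0) ⊆ {e} := by
    intro e' he'
    rw [mem_filter] at he'
    rw [mem_singleton]
    by_contra hne
    exact he'.2 (Pi.single_eq_of_ne hne _)
  exact (card_le_card this).trans (by simp)

lemma Deg.of_junta (hψ : ψ.IsPrimitive) (hq : (q : K) ≠ 0) (A : Finset (Fin t × Fin t)) :
    ∀ f : Flow q t → K, Junta A f → Deg ψ A.card f := by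
  induction A using Finset.induction_on with
  | empty =>
    intro f hf
    have : f = fun _ => f 0 := by
      funext y
      exact hf y 0 (by simp)
    rw [this]
    exact Deg.const _
  | insert e A he ih =>
    intro f hf
    have h1 : f = ∑ j : ZMod q, (fun y : Flow q t => if y e = j then (1 : K) else 0) *
        (fun y => f (Function.update y e j)) := by
      funext y
      simp only [Finset.sum_apply, Pi.mul_apply, ite_mul, one_mul, zero_mul]
      rw [sum_ite_eq]
      simp
    rw [h1, card_insert_of_notMem he]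
    refine Deg.sum _ _ fun j _ => ?_
    rw [add_comm]
    refine Deg.mul (Deg.of_ind hψ hq e j) (ih _ ?_)
    intro y y' hyy
    apply hf
    intro e' he'
    by_cases h : e' = e
    · subst h; simp
    · rw [Function.update_of_ne h, Function.update_of_ne h]
      exact hyy e' ((mem_insert.mp he').resolve_left h)

end PC

end Pool.Agent.Work.MP_c04246_lc
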