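import Mathlib
import Pool.Agent.Work.MP_c04246_lc.TseitinPC

set_option autoImplicit false
set_option linter.unusedSectionVars false
set_option linter.unusedSimpArgs false
set_option linter.unusedVariables false

namespace Pool.Agent.Work.MP_c04246_lc

open Finset

section PPs

variable {U : Type*} [DecidableEq U]

/-- `m` is a family of pairwise disjoint sets of size `q` -/
def PP (q : ℕ) (m : Finset (Finset U)) : Prop :=
  (∀ S ∈ m, S.card = q) ∧ ∀ S ∈ m, ∀ T ∈ m, S ≠ T → Disjoint S T

/-- covered elements -/
def cov (m : Finset (Finset U)) : Finset U := m.biUnion id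

lemma mem_cov {m : Finset (Finset U)} {u : U} : u ∈ cov m ↔ ∃ S ∈ m, u ∈ S := by
  simp [cov]

lemma cov_union (m m' : Finset (Finset U)) : cov (m ∪ m') = cov m ∪ cov m' := by
  ext u; simp only [mem_cov, mem_union]
  constructor
  · rintro ⟨S, hS | hS, hu⟩
    · exact Or.inl ⟨S, hS, hu⟩
    · exact Or.inr ⟨S, hS, hu⟩
  · rintro (⟨S, hS, hu⟩ | ⟨S, hS, hu⟩)
    · exact ⟨S, Or.inl hS, hu⟩
    · exact ⟨S, Or.inr hS, hu⟩

lemma cov_mono {m m' : Finset (Finset U)} (h : m ⊆ m') : cov m ⊆ cov m' := by
  intro u hu
  rw [mem_cov] at *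
  obtain ⟨S, hS, hu⟩ := hu
  exact ⟨S, h hS, hu⟩

lemma PP.mono {q : ℕ} {m m' : Finset (Finset U)} (h : m ⊆ m') (h' : PP q m') : PP q m :=
  ⟨fun S hS => h'.1 S (h hS), fun S hS T hT => h'.2 S (h hS) T (h hT)⟩

lemma PP.empty (q : ℕ) : PP q (∅ : Finset (Finset U)) :=
  ⟨fun S hS => absurd hS (notMem_empty S), fun S hS => absurd hS (notMem_empty S)⟩

lemma PP.card_cov {q : ℕ} {m : Finset (Finset U)} (h : PP q m) : (cov m).card = q * m.card := by
  unfold cov
  have h1 := card_biUnion (s := m) (t := id) (fun S hS T hT hne => h.2 S hS T hT hne)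
  rw [h1]
  have h2 : ∑ S ∈ m, (id S).card = ∑ _S ∈ m, q := sum_congr rfl (fun S hS => h.1 S hS)
  rw [h2, sum_const, smul_eq_mul, mul_comm]

lemma exists_part {q : ℕ} (hq : 0 < q) (n : ℕ) : ∀ G : Finset U, G.card = q * n →
    ∃ P : Finset (Finset U), PP q P ∧ cov P = G := by
  induction n with
  | zero =>
    intro G hG
    refine ⟨∅, PP.empty q, ?_⟩
    rw [mul_zero, card_eq_zero] at hG
    rw [hG]; simp [cov]
  | succ n ih =>
    intro G hG
    obtain ⟨S, hSG, hS⟩ := exists_subset_card_eq (s := G) (n := q) (by rw [hG]; nlinarith)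
    obtain ⟨P, hP, hcov⟩ := ih (G \ S) (by rw [card_sdiff_of_subset hSG, hG, hS]; ring_nf; omega)
    refine ⟨insert S P, ⟨?_, ?_⟩, ?_⟩
    · intro T hT
      rcases mem_insert.mp hT with rfl | hT
      · exact hS
      · exact hP.1 T hT
    · have hdis : ∀ T ∈ P, Disjoint S T := by
        intro T hT
        have : T ⊆ G \ S := by rw [← hcov]; intro u hu; exact mem_cov.mpr ⟨T, hT, hu⟩
        exact disjoint_left.mpr fun u hu hu' => (mem_sdiff.mp (this hu')).2 hu
      intro T hT T' hT' hne
      rcases mem_insert.mp hT with h1 | h1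
      · rcases mem_insert.mp hT' with h2 | h2
        · exact absurd (h1.trans h2.symm) hne
        · rw [h1]; exact hdis T' h2
      · rcases mem_insert.mp hT' with h2 | h2
        · rw [h2]; exact (hdis T h1).symm
        · exact hP.2 T h1 T' h2 hne
    · ext u
      rw [mem_cov]
      constructor
      · rintro ⟨T, hT, hu⟩
        rcases mem_insert.mp hT with rfl | hT
        · exact hSG hu
        · have : u ∈ cov P := mem_cov.mpr ⟨T, hT, hu⟩
          rw [hcov] at this
          exact (mem_sdiff.mp this).1
      · intro hu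
        by_cases h : u ∈ S
        · exact ⟨S, mem_insert_self _ _, h⟩
        · have : u ∈ cov P := by rw [hcov]; exact mem_sdiff.mpr ⟨hu, h⟩
          obtain ⟨T, hT, hu'⟩ := mem_cov.mp this
          exact ⟨T, mem_insert_of_mem hT, hu'⟩

/-- a canonical partition of `G` into `q`-sets, empty if `q` does not divide `G.card` -/
noncomputable def part (q : ℕ) (G : Finset U) : Finset (Finset U) :=
  open Classical in
  if h : ∃ P : Finset (Finset U), PP q P ∧ cov P = G then h.choose else ∅

lemma part_PP (q : ℕ) (G : Finset U) : PP q (part q G) := by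
  unfold part
  split_ifs with h
  · exact h.choose_spec.1
  · exact PP.empty q

lemma part_subset {q : ℕ} {G S : Finset U} (h : S ∈ part q G) : S ⊆ G := by
  unfold part at h
  split_ifs at h with h'
  · have := h'.choose_spec.2
    rw [← this]
    intro u hu
    exact mem_cov.mpr ⟨S, h, hu⟩
  · exact absurd h (notMem_empty S)

lemma cov_part {q : ℕ} (hq : 0 < q) {G : Finset U} (h : q ∣ G.card) : cov (part q G) = G := by
  obtain ⟨n, hn⟩ := h
  have h' := exists_part hq n G hn
  unfold part
  rw [dif_pos h']
  exact h'.choose_spec.2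

lemma cov_part_of_not {q : ℕ} {G : Finset U} (h : ¬ q ∣ G.card) : cov (part q G) = ∅ := by
  have h' : ¬ ∃ P : Finset (Finset U), PP q P ∧ cov P = G := by
    rintro ⟨P, hP, hcov⟩
    apply h
    rw [← hcov, hP.card_cov]
    exact dvd_mul_right _ _
  unfold part
  rw [dif_neg h']
  simp [cov]

end PPs

section TW

variable {q t s : ℕ} [NeZero q]

/-- universe associated with the Tseitin instance -/
abbrev UT (q t s : ℕ) := (Fin t × Fin t × Fin q) ⊕ Fin s

/-- the vertex owning an element -/
def owner (v0 : Fin t) (y : Flow q t) : UT q t s → Fin t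
  | Sum.inl (a, b, i) => if i.val < (y (a, b)).val then b else a
  | Sum.inr _ => v0

/-- elements owned by `v` -/
def grp (v0 : Fin t) (y : Flow q t) (v : Fin t) : Finset (UT q t s) :=
  univ.filter (fun u => owner v0 y u = v)

/-- charges -/
def chg (q s : ℕ) (v0 : Fin t) (v : Fin t) : ZMod q := if v0 = v then -(s : ZMod q) else 0

lemma sum_ite_lt (k : ℕ) (hk : k ≤ q) (x z : ZMod q) :
    ∑ i : Fin q, (if i.val < k then x else z) = k * x - k * z := by
  have h1 : ∑ i : Fin q, (if i.val < k then x else z)
      = ∑ i ∈ range q, (if i < k then x else z) := by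
    rw [sum_range]
  rw [h1, sum_ite, sum_const, sum_const]
  have h2 : (range q).filter (fun i => i < k) = range k := by
    ext i; simp only [mem_filter, mem_range]; omega
  have h3 : ((range q).filter (fun i => ¬ i < k)).card = q - k := by
    rw [filter_not, h2, card_sdiff_of_subset (range_subset_range.mpr hk), card_range, card_range]
  rw [h2, h3, card_range, nsmul_eq_mul, nsmul_eq_mul, Nat.cast_sub hk, ZMod.natCast_self]
  ring

lemma card_grp (v0 : Fin t) (y : Flow q t) (v : Fin t) :
    ((grp (s := s) v0 y v).card : ZMod q) = dv y v - chg q s v0 v := by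
  have h0 : ((grp (s := s) v0 y v).card : ZMod q)
      = ∑ u : UT q t s, (if owner v0 y u = v then (1 : ZMod q) else 0) := by
    unfold grp
    rw [sum_boole]
  rw [h0, Fintype.sum_sum_type, Fintype.sum_prod_type]
  simp only [Fintype.sum_prod_type, owner]
  have h1 : ∀ a b : Fin t, ∑ i : Fin q,
      (if (if i.val < (y (a, b)).val then b else a) = v then (1 : ZMod q) else 0)
      = (if b = v then y (a, b) else 0) - (if a = v then y (a, b) else 0) := by
    intro a b
    have h2 : ∀ i : Fin q, (if (if i.val < (y (a, b)).val then b else a) = v then (1 : ZMod q) else 0)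
        = (if i.val < (y (a, b)).val then (if b = v then 1 else 0) else (if a = v then 1 else 0)) := by
      intro i; split_ifs <;> rfl
    simp_rw [h2]
    rw [sum_ite_lt _ (ZMod.val_lt _).le, ZMod.natCast_val, ZMod.cast_id', id_eq]
    split_ifs <;> ring
  simp_rw [h1]
  have h3 : ∑ x : Fin t, ∑ x_1 : Fin t, ((if x_1 = v then y (x, x_1) else 0) -
      (if x = v then y (x, x_1) else 0)) = dv y v := by
    unfold dv
    simp_rw [sum_sub_distrib]
    congr 1
    · refine sum_congr rfl fun a _ => ?_
      simp
    · rw [sum_comm]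
      refine sum_congr rfl fun a _ => ?_
      simp
  rw [h3]
  unfold chg
  split_ifs with h
  · simp [h]
  · simp [h]

lemma dvd_card_grp (v0 : Fin t) (y : Flow q t) (v : Fin t) :
    q ∣ (grp (s := s) v0 y v).card ↔ dv y v = chg q s v0 v := by
  rw [← ZMod.natCast_eq_zero_iff, card_grp, sub_eq_zero]

/-- partial partition of the universe given by a flow -/
noncomputable def MT (v0 : Fin t) (y : Flow q t) : Finset (Finset (UT q t s)) :=
  univ.biUnion (fun v => part q (grp v0 y v))

lemma mem_MT {v0 : Fin t} {y : Flow q t} {S : Finset (UT q t s)} :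
    S ∈ MT v0 y ↔ ∃ v, S ∈ part q (grp v0 y v) := by
  simp [MT]

lemma MT_PP (v0 : Fin t) (y : Flow q t) : PP q (MT (s := s) v0 y) := by
  constructor
  · intro S hS
    obtain ⟨v, hv⟩ := mem_MT.mp hS
    exact (part_PP q _).1 S hv
  · intro S hS T hT hne
    obtain ⟨v, hv⟩ := mem_MT.mp hS
    obtain ⟨w, hw⟩ := mem_MT.mp hT
    by_cases hvw : v = w
    · subst hvw
      exact (part_PP q _).2 S hv T hw hne
    · rw [disjoint_left]
      intro u hu hu'
      have h1 := part_subset hv hu
      have h2 := part_subset hw hu'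
      simp only [grp, mem_filter, mem_univ, true_and] at h1 h2
      exact hvw (h1.symm.trans h2)

lemma mem_MT_iff_of_mem {v0 : Fin t} {y : Flow q t} {S : Finset (UT q t s)} {u : UT q t s}
    (hu : u ∈ S) : S ∈ MT v0 y ↔ S ∈ part q (grp v0 y (owner v0 y u)) := by
  rw [mem_MT]
  constructor
  · rintro ⟨v, hv⟩
    have h1 := part_subset hv hu
    simp only [grp, mem_filter, mem_univ, true_and] at h1
    rwa [h1]
  · intro h; exact ⟨_, h⟩

lemma notMem_cov_MT {v0 : Fin t} {y : Flow q t} {u : UT q t s} :
    u ∉ cov (MT v0 y) ↔ dv y (owner v0 y u) ≠ chg q s v0 (owner v0 y u) := by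
  rw [← not_iff_not, not_not, not_not, mem_cov]
  have hmem : u ∈ grp v0 y (owner v0 y u) := by simp [grp]
  constructor
  · rintro ⟨S, hS, hu⟩
    rw [mem_MT_iff_of_mem hu] at hS
    rw [← dvd_card_grp]
    by_contra hcon
    have := cov_part_of_not hcon
    have h2 : u ∈ cov (part q (grp v0 y (owner v0 y u))) := mem_cov.mpr ⟨S, hS, hu⟩
    rw [this] at h2
    exact notMem_empty _ h2
  · intro h
    rw [← dvd_card_grp] at h
    have h2 := cov_part (NeZero.pos q) h
    rw [← h2] at hmem
    obtain ⟨S, hS, hu⟩ := mem_cov.mp hmem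
    exact ⟨S, mem_MT.mpr ⟨_, hS⟩, hu⟩

/-- the edges at `a` -/
def star (a : Fin t) : Finset (Fin t × Fin t) :=
  (univ.image (fun b => (a, b))) ∪ (univ.image (fun b => (b, a)))

lemma mem_star {a : Fin t} {e : Fin t × Fin t} : e ∈ star a ↔ e.1 = a ∨ e.2 = a := by
  simp only [star, mem_union, mem_image, mem_univ, true_and]
  constructor
  · rintro (⟨b, rfl⟩ | ⟨b, rfl⟩)
    · exact Or.inl rfl
    · exact Or.inr rfl
  · rintro (h | h)
    · exact Or.inl ⟨e.2, by rw [← h]⟩
    · exact Or.inr ⟨e.1, by rw [← h]⟩

lemma card_star (a : Fin t) : (star a).card ≤ 2 * t := by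
  unfold star
  refine (card_union_le _ _).trans ?_
  have h1 : (univ.image (fun b : Fin t => (a, b))).card ≤ t := card_image_le.trans (by simp)
  have h2 : (univ.image (fun b : Fin t => (b, a))).card ≤ t := card_image_le.trans (by simp)
  omega

lemma grp_congr {v0 v : Fin t} {y y' : Flow q t} (h : ∀ e ∈ star v, y e = y' e) :
    grp (s := s) v0 y v = grp v0 y' v := by
  ext u
  simp only [grp, mem_filter, mem_univ, true_and]
  rcases u with ⟨a, b, i⟩ | j
  · simp only [owner]
    by_cases hab : a = v ∨ b = v
    · rw [h (a, b) (mem_star.mpr hab)]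
    · push Not at hab
      constructor
      · intro h'
        split_ifs at h'
        · exact absurd h' hab.2
        · exact absurd h' hab.1
      · intro h'
        split_ifs at h'
        · exact absurd h' hab.2
        · exact absurd h' hab.1
  · simp [owner]

variable {K : Type*} [Field K] {ψ : AddChar (ZMod q) K}

lemma Deg_mem_MT (hψ : ψ.IsPrimitive) (hq : (q : K) ≠ 0) (v0 : Fin t) (S : Finset (UT q t s)) :
    Deg ψ (4 * t) (fun y : Flow q t => open Classical in if S ∈ MT v0 y then (1 : K) else 0) := by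
  classical
  rcases S.eq_empty_or_nonempty with rfl | ⟨u, hu⟩
  · have : (fun y : Flow q t => if (∅ : Finset (UT q t s)) ∈ MT v0 y then (1 : K) else 0) = 0 := by
      funext y
      rw [if_neg]
      · rfl
      · intro h
        have := (MT_PP v0 y).1 _ h
        simp at this
        exact NeZero.ne q this.symm
    rw [this]; exact Deg.zero
  · -- the set of relevant edges
    have key : ∃ A : Finset (Fin t × Fin t), A.card ≤ 4 * t ∧ ∀ y y' : Flow q t,
        (∀ e ∈ A, y e = y' e) → owner v0 y u = owner v0 y' u ∧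
          grp (s := s) v0 y (owner v0 y u) = grp v0 y' (owner v0 y u) := by
      rcases u with ⟨a, b, i⟩ | j
      · refine ⟨star a ∪ star b, (card_union_le _ _).trans (by have := card_star a; have := card_star b; omega), ?_⟩
        intro y y' h
        have h1 : owner (s := s) v0 y (Sum.inl (a, b, i)) = owner (s := s) v0 y' (Sum.inl (a, b, i)) := by
          simp only [owner]
          rw [h (a, b) (mem_union_left _ (mem_star.mpr (Or.inl rfl)))]
        refine ⟨h1, grp_congr ?_⟩
        intro e he
        apply h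
        simp only [owner] at he
        split_ifs at he
        · exact mem_union_right _ he
        · exact mem_union_left _ he
      · refine ⟨star v0, (card_star v0).trans (by omega), ?_⟩
        intro y y' h
        exact ⟨rfl, grp_congr h⟩
    obtain ⟨A, hA, hAy⟩ := key
    refine Deg.mono hA (Deg.of_junta hψ hq A _ ?_)
    intro y y' h
    obtain ⟨h1, h2⟩ := hAy y y' h
    have : S ∈ MT v0 y ↔ S ∈ MT v0 y' := by
      rw [mem_MT_iff_of_mem hu, mem_MT_iff_of_mem hu, ← h1, h2]
    simp only [this]

/-- indicator that `u` is uncovered -/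
lemma unc_eq (v0 : Fin t) (u : UT q t s) :
    (fun y : Flow q t => open Classical in if u ∉ cov (MT v0 y) then (1 : K) else 0) =
      ∑ v : Fin t, viol K (chg q s v0) v * (fun y : Flow q t => if owner v0 y u = v then (1 : K) else 0) := by
  classical
  funext y
  simp only [Finset.sum_apply, Pi.mul_apply, mul_ite, mul_one, mul_zero]
  rw [sum_ite_eq]
  simp only [mem_univ, if_true, viol]
  by_cases h : u ∉ cov (MT v0 y)
  · rw [if_pos h, if_neg (notMem_cov_MT.mp h)]
  · rw [if_neg h]
    rw [if_pos]
    by_contra hcon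
    exact h (notMem_cov_MT.mpr hcon)

lemma Deg_owner (hψ : ψ.IsPrimitive) (hq : (q : K) ≠ 0) (v0 v : Fin t) (u : UT q t s) :
    Deg ψ 1 (fun y : Flow q t => if owner v0 y u = v then (1 : K) else 0) := by
  rcases u with ⟨a, b, i⟩ | j
  · have : ({(a, b)} : Finset (Fin t × Fin t)).card ≤ 1 := by simp
    refine Deg.mono this (Deg.of_junta hψ hq _ _ ?_)
    intro y y' h
    have h1 : owner (s := s) v0 y (Sum.inl (a, b, i)) = owner (s := s) v0 y' (Sum.inl (a, b, i)) := by
      simp only [owner]
      rw [h (a, b) (mem_singleton_self _)]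
    simp only [h1]
  · have : ((∅ : Finset (Fin t × Fin t))).card ≤ 1 := by simp
    refine Deg.mono this (Deg.of_junta hψ hq _ _ ?_)
    intro y y' h
    rfl

lemma Deg_unc (hψ : ψ.IsPrimitive) (hq : (q : K) ≠ 0) (v0 : Fin t) (u : UT q t s) :
    Deg ψ (2 * t + 1) (fun y : Flow q t => open Classical in if u ∉ cov (MT v0 y) then (1 : K) else 0) := by
  rw [unc_eq]
  exact Deg.sum _ _ fun v _ => Deg.mul (Deg.of_viol hψ hq v) (Deg_owner hψ hq v0 v u)

lemma Zr_unc (hψ : ψ.IsPrimitive) (hq : (q : K) ≠ 0) {B : ℕ} (hB : 8 * B < t * t)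
    (hBt : 2 * t + 1 ≤ B) (v0 : Fin t) (u : UT q t s) :
    Zr ψ (chg q s v0) B
      (fun y : Flow q t => open Classical in if u ∉ cov (MT v0 y) then (1 : K) else 0) := by
  rw [unc_eq]
  refine Zr.sum _ _ fun v _ => Zr.mul hψ hq hB hBt (Deg.of_viol hψ hq v)
    (Zr.of_viol hψ hq hB (by omega) v) (Deg_owner hψ hq v0 v u)

/-- Transfer to an arbitrary universe in which exactly `q*t*t+s` elements are not covered by the
partial partition `ρ`. -/
theorem exists_worlds {U : Type*} [DecidableEq U] [Fintype U] (hψ : ψ.IsPrimitive)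
    (hq : (q : K) ≠ 0) (ht : 0 < t) {B : ℕ} (hB : 8 * B < t * t) (hBt : 2 * t + 1 ≤ B)
    {ρ : Finset (Finset U)} (hρ : PP q ρ) (hcard : (univ \ cov ρ).card = q * (t * t) + s) :
    ∃ (c : Fin t → ZMod q) (m : Flow q t → Finset (Finset U)),
      (∀ y, PP q (m y)) ∧ (∀ y, ρ ⊆ m y) ∧
      (∀ S, Deg ψ (4 * t) (fun y : Flow q t => open Classical in if S ∈ m y then (1 : K) else 0)) ∧
      (∀ u, Deg ψ (2 * t + 1) (fun y : Flow q t => open Classical in
        if u ∉ cov (m y) then (1 : K) else 0)) ∧
      (∀ u, Zr ψ c B (fun y : Flow q t => open Classical in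
        if u ∉ cov (m y) then (1 : K) else 0)) := by
  classical
  let v0 : Fin t := ⟨0, ht⟩
  have hc : Nonempty (UT q t s ≃ {u : U // u ∈ univ \ cov ρ}) := by
    apply Fintype.card_eq.mp
    rw [Fintype.card_coe, hcard]
    simp [UT]
    ring
  let e : UT q t s ≃ {u : U // u ∈ univ \ cov ρ} := Classical.choice hc
  let g : UT q t s ↪ U := e.toEmbedding.trans (Function.Embedding.subtype _)
  have hg : ∀ a, g a ∉ cov ρ := fun a => (mem_sdiff.mp (e a).2).2
  have hgs : ∀ u, u ∉ cov ρ → ∃ a, g a = u := by
    intro u hu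
    refine ⟨e.symm ⟨u, mem_sdiff.mpr ⟨mem_univ _, hu⟩⟩, ?_⟩
    simp [g]
  let m : Flow q t → Finset (Finset U) := fun y => ρ ∪ (MT v0 y).image (Finset.map g)
  have hmem : ∀ (y : Flow q t) (u : UT q t s), g u ∉ cov (m y) ↔ u ∉ cov (MT v0 y) := by
    intro y u
    rw [not_iff_not, mem_cov, mem_cov]
    constructor
    · rintro ⟨S, hS, hu⟩
      rcases mem_union.mp hS with h | h
      · exact absurd (mem_cov.mpr ⟨S, h, hu⟩) (hg u)
      · obtain ⟨S', hS', rfl⟩ := mem_image.mp h
        rw [mem_map'] at hu
        exact ⟨S', hS', hu⟩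
    · rintro ⟨S, hS, hu⟩
      exact ⟨S.map g, mem_union_right _ (mem_image_of_mem _ hS), (mem_map' g).mpr hu⟩
  have hcovρ : ∀ (y : Flow q t) (u : U), u ∈ cov ρ → u ∈ cov (m y) :=
    fun y u hu => cov_mono subset_union_left hu
  refine ⟨chg q s v0, m, ?_, fun y => subset_union_left, ?_, ?_, ?_⟩
  · intro y
    constructor
    · intro S hS
      rcases mem_union.mp hS with h | h
      · exact hρ.1 S h
      · obtain ⟨S', hS', rfl⟩ := mem_image.mp h
        rw [card_map]
        exact (MT_PP v0 y).1 S' hS'
    · have hd : ∀ S ∈ ρ, ∀ T ∈ (MT v0 y).image (Finset.map g), Disjoint S T := by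
        intro S hS T hT
        obtain ⟨T', hT', rfl⟩ := mem_image.mp hT
        rw [disjoint_left]
        intro u hu hu'
        obtain ⟨a, _, rfl⟩ := mem_map.mp hu'
        exact hg a (mem_cov.mpr ⟨S, hS, hu⟩)
      intro S hS T hT hne
      rcases mem_union.mp hS with h | h
      · rcases mem_union.mp hT with h' | h'
        · exact hρ.2 S h T h' hne
        · exact hd S h T h'
      · rcases mem_union.mp hT with h' | h'
        · exact (hd T h' S h).symm
        · obtain ⟨S', hS', rfl⟩ := mem_image.mp h
          obtain ⟨T', hT', rfl⟩ := mem_image.mp h'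
          have hne' : S' ≠ T' := fun h0 => hne (by rw [h0])
          exact (Finset.disjoint_map g).mpr ((MT_PP v0 y).2 S' hS' T' hT' hne')
  · intro S
    by_cases hS : S ∈ ρ
    · have : (fun y : Flow q t => if S ∈ m y then (1 : K) else 0) = 1 := by
        funext y
        rw [if_pos (mem_union_left _ hS)]; rfl
      rw [this]; exact Deg.one
    · by_cases hS' : ∃ S' : Finset (UT q t s), S'.map g = S
      · obtain ⟨S', rfl⟩ := hS'
        have : (fun y : Flow q t => if S'.map g ∈ m y then (1 : K) else 0) =
            (fun y : Flow q t => if S' ∈ MT v0 y then (1 : K) else 0) := by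
          funext y
          have : S'.map g ∈ m y ↔ S' ∈ MT v0 y := by
            constructor
            · intro h
              rcases mem_union.mp h with h | h
              · exact absurd h hS
              · obtain ⟨S'', hS'', h2⟩ := mem_image.mp h
                rwa [← map_injective g h2]
            · intro h
              exact mem_union_right _ (mem_image_of_mem _ h)
          simp only [this]
        rw [this]
        exact Deg_mem_MT hψ hq v0 S'
      · have : (fun y : Flow q t => if S ∈ m y then (1 : K) else 0) = 0 := by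
          funext y
          rw [if_neg]
          · rfl
          · intro h
            rcases mem_union.mp h with h | h
            · exact hS h
            · obtain ⟨S'', hS'', h2⟩ := mem_image.mp h
              exact hS' ⟨S'', h2⟩
        rw [this]; exact Deg.zero
  · intro u
    by_cases hu : u ∈ cov ρ
    · have : (fun y : Flow q t => if u ∉ cov (m y) then (1 : K) else 0) = 0 := by
        funext y
        rw [if_neg (not_not.mpr (hcovρ y u hu))]; rfl
      rw [this]; exact Deg.zero
    · obtain ⟨a, rfl⟩ := hgs u hu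
      simp_rw [hmem]
      exact Deg_unc hψ hq v0 a
  · intro u
    by_cases hu : u ∈ cov ρ
    · have : (fun y : Flow q t => if u ∉ cov (m y) then (1 : K) else 0) = 0 := by
        funext y
        rw [if_neg (not_not.mpr (hcovρ y u hu))]; rfl
      rw [this]; exact Zr.zero
    · obtain ⟨a, rfl⟩ := hgs u hu
      simp_rw [hmem]
      exact Zr_unc hψ hq hB hBt v0 a

end TW

end Pool.Agent.Work.MP_c04246_lc
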