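import Mathlib
import Pool.Agent.Work.MP_c04246_lc.Worlds

set_option autoImplicit false
set_option linter.unusedSectionVars false
set_option linter.unusedSimpArgs false
set_option linter.unusedVariables false

namespace Pool.Agent.Work.MP_c04246_lc

open Finset

section Trees

variable {U : Type*} [DecidableEq U] {q : ℕ}

/-- admissible answers to the query `u` in state `τ` -/
def Adm (q : ℕ) (τ : Finset (Finset U)) (u : U) (S : Finset U) : Prop :=
  u ∈ S ∧ S.card = q ∧ Disjoint S (cov τ)

/-- the family `L` is reached from `τ` by asking at most `h` queries -/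
inductive Dec (q : ℕ) (L : Set (Finset (Finset U))) : Finset (Finset U) → ℕ → Prop
  | leaf {τ : Finset (Finset U)} {h : ℕ} : τ ∈ L → Dec q L τ h
  | query {τ : Finset (Finset U)} {h : ℕ} (u : U) : u ∉ cov τ →
      (∀ S, Adm q τ u S → Dec q L (insert S τ) h) → Dec q L τ (h + 1)

lemma disjoint_cov_iff {S : Finset U} {τ : Finset (Finset U)} :
    Disjoint S (cov τ) ↔ ∀ T ∈ τ, Disjoint S T := by
  constructor
  · intro h T hT
    rw [disjoint_left] at h ⊢
    intro u hu hu'
    exact h hu (mem_cov.mpr ⟨T, hT, hu'⟩)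
  · intro h
    rw [disjoint_left]
    intro u hu hu'
    obtain ⟨T, hT, hu''⟩ := mem_cov.mp hu'
    exact (disjoint_left.mp (h T hT)) hu hu''

lemma PP.insert {τ : Finset (Finset U)} (hτ : PP q τ) {S : Finset U} (hS : S.card = q)
    (hd : Disjoint S (cov τ)) : PP q (insert S τ) := by
  rw [disjoint_cov_iff] at hd
  constructor
  · intro T hT
    rcases mem_insert.mp hT with h | h
    · rw [h]; exact hS
    · exact hτ.1 T h
  · intro T hT T' hT' hne
    rcases mem_insert.mp hT with h1 | h1
    · rcases mem_insert.mp hT' with h2 | h2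
      · exact absurd (h1.trans h2.symm) hne
      · rw [h1]; exact hd T' h2
    · rcases mem_insert.mp hT' with h2 | h2
      · rw [h2]; exact (hd T h1).symm
      · exact hτ.2 T h1 T' h2 hne

lemma Adm.PP {τ : Finset (Finset U)} (hτ : PP q τ) {u : U} {S : Finset U} (h : Adm q τ u S) :
    PP q (Insert.insert S τ) := hτ.insert h.2.1 h.2.2

lemma cov_insert (S : Finset U) (τ : Finset (Finset U)) : cov (insert S τ) = S ∪ cov τ := by
  ext u
  simp only [mem_cov, mem_insert, mem_union]
  constructor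
  · rintro ⟨T, rfl | hT, hu⟩
    · exact Or.inl hu
    · exact Or.inr ⟨T, hT, hu⟩
  · rintro (hu | ⟨T, hT, hu⟩)
    · exact ⟨S, Or.inl rfl, hu⟩
    · exact ⟨T, Or.inr hT, hu⟩

lemma Dec.mono_h {L : Set (Finset (Finset U))} {τ : Finset (Finset U)} {h : ℕ}
    (hd : Dec q L τ h) : ∀ h', h ≤ h' → Dec q L τ h' := by
  induction hd with
  | leaf hL => intro h' _; exact Dec.leaf hL
  | query u hu _ ih =>
    intro h' hh'
    obtain ⟨h'', rfl⟩ : ∃ h'', h' = h'' + 1 := ⟨h' - 1, by omega⟩
    exact Dec.query u hu fun S hS => ih S hS h'' (by omega)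

lemma Dec.mono_L {L L' : Set (Finset (Finset U))} (hLL : L ⊆ L') {τ : Finset (Finset U)} {h : ℕ}
    (hd : Dec q L τ h) : Dec q L' τ h := by
  induction hd with
  | leaf hL => exact Dec.leaf (hLL hL)
  | query u hu _ ih => exact Dec.query u hu fun S hS => ih S hS

lemma Dec.mono_ctx {L : Set (Finset (Finset U))} (hL : ∀ τ τ', τ ∈ L → τ ⊆ τ' → τ' ∈ L)
    {τ : Finset (Finset U)} {h : ℕ} (hd : Dec q L τ h) :
    ∀ τ', τ ⊆ τ' → PP q τ' → Dec q L τ' h := by
  induction hd with
  | leaf hτ => intro τ' hsub _; exact Dec.leaf (hL _ _ hτ hsub)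
  | @query τ h u hu _ ih =>
    intro τ' hsub hPP
    by_cases hu' : u ∈ cov τ'
    · obtain ⟨S, hS, huS⟩ := mem_cov.mp hu'
      have hSτ : S ∉ τ := fun h => hu (mem_cov.mpr ⟨S, h, huS⟩)
      have hadm : Adm q τ u S := ⟨huS, hPP.1 S hS, by
        rw [disjoint_cov_iff]
        intro T hT
        exact hPP.2 S hS T (hsub hT) (fun h => hSτ (h ▸ hT))⟩
      have := ih S hadm τ' (by
        intro T hT
        rcases mem_insert.mp hT with h | h
        · rw [h]; exact hS
        · exact hsub h) hPP
      exact this.mono_h _ (by omega)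
    · refine Dec.query u hu' fun S hS => ?_
      have hadm : Adm q τ u S := ⟨hS.1, hS.2.1, Disjoint.mono_right (cov_mono hsub) hS.2.2⟩
      exact ih S hadm _ (insert_subset_insert _ hsub) (hS.PP hPP)

lemma Dec.small {L : Set (Finset (Finset U))} {τ : Finset (Finset U)} {h : ℕ}
    (hd : Dec q L τ h) : ∀ (ρ : Finset (Finset U)) (k : ℕ), ρ ⊆ τ → PP q τ → (τ \ ρ).card + h ≤ k →
      Dec q (L ∩ {τ' | PP q τ' ∧ ρ ⊆ τ' ∧ (τ' \ ρ).card ≤ k}) τ h := by
  induction hd with
  | leaf hτ =>
    intro ρ k hρ hPP hk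
    exact Dec.leaf ⟨hτ, hPP, hρ, by omega⟩
  | @query τ h u hu _ ih =>
    intro ρ k hρ hPP hk
    refine Dec.query u hu fun S hS => ?_
    refine ih S hS ρ k (hρ.trans (subset_insert _ _)) (hS.PP hPP) ?_
    have : (insert S τ \ ρ).card ≤ (τ \ ρ).card + 1 := by
      have h1 : insert S τ \ ρ ⊆ insert S (τ \ ρ) := by
        intro T hT
        rw [mem_sdiff, mem_insert] at hT
        rw [mem_insert, mem_sdiff]
        rcases hT.1 with h | h
        · exact Or.inl h
        · exact Or.inr ⟨h, hT.2⟩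
      exact (card_le_card h1).trans (card_insert_le _ _)
    omega

/-- `π` covers `Q` inside the uncovered part of `τ`, and every member of `π` meets `Q` -/
def Cover (q : ℕ) (τ : Finset (Finset U)) (Q : Finset U) (π : Finset (Finset U)) : Prop :=
  PP q π ∧ (∀ S ∈ π, Disjoint S (cov τ)) ∧ Q ⊆ cov π ∧ ∀ S ∈ π, (S ∩ Q).Nonempty

lemma Cover.PP_union {τ : Finset (Finset U)} (hτ : PP q τ) {Q : Finset U} {π : Finset (Finset U)}
    (h : Cover q τ Q π) : PP q (τ ∪ π) := by
  obtain ⟨h1, h2, h3, h4⟩ := h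
  constructor
  · intro S hS
    rcases mem_union.mp hS with h | h
    · exact hτ.1 S h
    · exact h1.1 S h
  · intro S hS T hT hne
    rcases mem_union.mp hS with h | h
    · rcases mem_union.mp hT with h' | h'
      · exact hτ.2 S h T h' hne
      · exact ((disjoint_cov_iff.mp (h2 T h')) S h).symm
    · rcases mem_union.mp hT with h' | h'
      · exact (disjoint_cov_iff.mp (h2 S h)) T h'
      · exact h1.2 S h T h' hne

lemma Cover.disj {τ : Finset (Finset U)} {Q : Finset U} {π : Finset (Finset U)}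
    (h : Cover q τ Q π) : Disjoint τ π := by
  rw [disjoint_left]
  intro S hS hS'
  have h1 := disjoint_cov_iff.mp (h.2.1 S hS') S hS
  obtain ⟨u, hu⟩ := h.2.2.2 S hS'
  exact (disjoint_left.mp h1) (mem_inter.mp hu).1 (mem_inter.mp hu).1

lemma Cover.card_le {τ : Finset (Finset U)} {Q : Finset U} {π : Finset (Finset U)}
    (h : Cover q τ Q π) : π.card ≤ Q.card := by
  have h1 : π.card = ∑ S ∈ π, 1 := by simp
  have h2 : ∑ S ∈ π, 1 ≤ ∑ S ∈ π, (S ∩ Q).card :=
    sum_le_sum fun S hS => card_pos.mpr (h.2.2.2 S hS)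
  have h3 : ∑ S ∈ π, (S ∩ Q).card = (π.biUnion (fun S => S ∩ Q)).card := by
    rw [card_biUnion]
    intro S hS T hT hne
    exact Disjoint.mono inter_subset_left inter_subset_left (h.1.2 S hS T hT hne)
  have h4 : (π.biUnion (fun S => S ∩ Q)).card ≤ Q.card := by
    apply card_le_card
    intro u hu
    obtain ⟨S, hS, hu⟩ := mem_biUnion.mp hu
    exact (mem_inter.mp hu).2
  omega

variable [Fintype U]

/-- number of uncovered elements -/
def nun (τ : Finset (Finset U)) : ℕ := (univ \ cov τ).card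

lemma nun_add {τ : Finset (Finset U)} (h : PP q τ) : nun τ + q * τ.card = Fintype.card U := by
  unfold nun
  rw [← h.card_cov, ← card_univ]
  exact card_sdiff_add_card_eq_card (subset_univ _)

lemma exists_adm (hq : 0 < q) {τ : Finset (Finset U)} {u : U} (hu : u ∉ cov τ) (h : q ≤ nun τ) :
    ∃ S, Adm q τ u S := by
  obtain ⟨S, hS1, hS2, hS3⟩ := exists_subsuperset_card_eq (s := {u}) (t := univ \ cov τ) (n := q)
    (by intro v hv; rw [mem_singleton] at hv; subst hv; exact mem_sdiff.mpr ⟨mem_univ _, hu⟩)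
    (by rw [card_singleton]; omega) h
  refine ⟨S, hS1 (mem_singleton_self _), hS3, ?_⟩
  rw [disjoint_left]
  intro v hv hv'
  exact (mem_sdiff.mp (hS2 hv)).2 hv'

lemma nun_insert {τ : Finset (Finset U)} (hτ : PP q τ) {u : U} {S : Finset U}
    (h : Adm q τ u S) : nun (insert S τ) + q = nun τ := by
  have h1 := nun_add hτ
  have h2 := nun_add (h.PP hτ)
  have h3 : S ∉ τ := by
    intro hS
    have := disjoint_cov_iff.mp h.2.2 S hS
    exact (disjoint_left.mp this) h.1 h.1
  rw [card_insert_of_notMem h3] at h2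
  linarith [Nat.mul_succ q τ.card]

lemma cover_insert {τ : Finset (Finset U)} {u : U} {S : Finset U} {Q : Finset U}
    (hu : u ∈ Q) (h : Adm q τ u S) {π : Finset (Finset U)}
    (hπ : Cover q (insert S τ) (Q \ S) π) :
    Cover q τ Q (insert S π) ∧ S ∉ π := by
  obtain ⟨h1, h2, h3, h4⟩ := hπ
  have hSπ : ∀ T ∈ π, Disjoint T S := fun T hT =>
    disjoint_cov_iff.mp (h2 T hT) S (mem_insert_self _ _)
  refine ⟨⟨?_, ?_, ?_, ?_⟩, ?_⟩
  · refine h1.insert h.2.1 ?_
    rw [disjoint_cov_iff]
    intro T hT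
    exact (hSπ T hT).symm
  · intro T hT
    rcases mem_insert.mp hT with h' | h'
    · rw [h']; exact h.2.2
    · have := h2 T h'
      rw [cov_insert] at this
      exact Disjoint.mono_right subset_union_right this
  · intro v hv
    rw [cov_insert, mem_union]
    by_cases hvS : v ∈ S
    · exact Or.inl hvS
    · exact Or.inr (h3 (mem_sdiff.mpr ⟨hv, hvS⟩))
  · intro T hT
    rcases mem_insert.mp hT with h' | h'
    · rw [h']; exact ⟨u, mem_inter.mpr ⟨h.1, hu⟩⟩
    · obtain ⟨v, hv⟩ := h4 T h'
      rw [mem_inter, mem_sdiff] at hv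
      exact ⟨v, mem_inter.mpr ⟨hv.1, hv.2.1⟩⟩
  · intro hS
    have := hSπ S hS
    exact (disjoint_left.mp this) h.1 h.1

lemma exists_cover (hq : 0 < q) (n : ℕ) : ∀ (τ : Finset (Finset U)) (Q : Finset U), PP q τ →
    Q.card ≤ n → Disjoint Q (cov τ) → q * Q.card ≤ nun τ → ∃ π, Cover q τ Q π := by
  induction n with
  | zero =>
    intro τ Q hτ hQ hd hn
    have : Q = ∅ := by rw [← card_eq_zero]; omega
    subst this
    exact ⟨∅, PP.empty q, by simp, by simp, by simp⟩
  | succ n ih =>
    intro τ Q hτ hQ hd hn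
    rcases Q.eq_empty_or_nonempty with rfl | ⟨u, hu⟩
    · exact ⟨∅, PP.empty q, by simp, by simp, by simp⟩
    · have hu' : u ∉ cov τ := disjoint_left.mp hd hu
      have hQ1 : 1 ≤ Q.card := card_pos.mpr ⟨u, hu⟩
      obtain ⟨S, hS⟩ := exists_adm hq hu' (by nlinarith)
      have hlt : (Q \ S).card + 1 ≤ Q.card := by
        have : Q \ S ⊂ Q := by
          refine ⟨sdiff_subset, fun h => ?_⟩
          exact (mem_sdiff.mp (h hu)).2 hS.1
        exact card_lt_card this
      have hnun := nun_insert hτ hS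
      obtain ⟨π, hπ⟩ := ih (insert S τ) (Q \ S) (hS.PP hτ) (by omega) (by
        rw [cov_insert, disjoint_left]
        intro v hv hv'
        rw [mem_sdiff] at hv
        rcases mem_union.mp hv' with h | h
        · exact hv.2 h
        · exact (disjoint_left.mp hd) hv.1 h) (by nlinarith)
      exact ⟨insert S π, (cover_insert hu hS hπ).1⟩

lemma query_all (hq : 0 < q) {L : Set (Finset (Finset U))} (n : ℕ) :
    ∀ (h : ℕ) (τ : Finset (Finset U)) (Q : Finset U), PP q τ → Q.card ≤ n →
    Disjoint Q (cov τ) → q * Q.card ≤ nun τ →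
    (∀ π, Cover q τ Q π → π.card ≤ h ∧ Dec q L (τ ∪ π) (h - π.card)) → Dec q L τ h := by
  induction n with
  | zero =>
    intro h τ Q hτ hQ hd hn hall
    have : Q = ∅ := by rw [← card_eq_zero]; omega
    subst this
    have := (hall ∅ ⟨PP.empty q, by simp, by simp, by simp⟩).2
    simpa using this
  | succ n ih =>
    intro h τ Q hτ hQ hd hn hall
    rcases Q.eq_empty_or_nonempty with rfl | ⟨u, hu⟩
    · have := (hall ∅ ⟨PP.empty q, by simp, by simp, by simp⟩).2
      simpa using this
    · have hu' : u ∉ cov τ := disjoint_left.mp hd hu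
      have hQ1 : 1 ≤ Q.card := card_pos.mpr ⟨u, hu⟩
      have hkey : ∀ S, Adm q τ u S → 1 ≤ h ∧ Dec q L (insert S τ) (h - 1) := by
        intro S hS
        have hlt : (Q \ S).card + 1 ≤ Q.card := by
          have : Q \ S ⊂ Q := by
            refine ⟨sdiff_subset, fun h => ?_⟩
            exact (mem_sdiff.mp (h hu)).2 hS.1
          exact card_lt_card this
        have hnun := nun_insert hτ hS
        have hdd : Disjoint (Q \ S) (cov (insert S τ)) := by
          rw [cov_insert, disjoint_left]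
          intro v hv hv'
          rw [mem_sdiff] at hv
          rcases mem_union.mp hv' with h | h
          · exact hv.2 h
          · exact (disjoint_left.mp hd) hv.1 h
        have hroom : q * (Q \ S).card ≤ nun (insert S τ) := by nlinarith
        have hstep : ∀ π, Cover q (insert S τ) (Q \ S) π → 1 ≤ h ∧ π.card ≤ h - 1 ∧
            Dec q L (insert S τ ∪ π) (h - 1 - π.card) := by
          intro π hπ
          obtain ⟨hc, hnot⟩ := cover_insert hu hS hπ
          obtain ⟨h1, h2⟩ := hall _ hc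
          rw [card_insert_of_notMem hnot] at h1 h2
          refine ⟨by omega, by omega, ?_⟩
          have h3 : τ ∪ insert S π = insert S τ ∪ π := by
            ext T; simp only [mem_union, mem_insert]; tauto
          rw [h3] at h2
          have h4 : h - (π.card + 1) = h - 1 - π.card := by omega
          rw [h4] at h2
          exact h2
        obtain ⟨π0, hπ0⟩ := exists_cover hq n (insert S τ) (Q \ S) (hS.PP hτ) (by omega) hdd hroom
        refine ⟨(hstep π0 hπ0).1, ?_⟩
        exact ih (h - 1) (insert S τ) (Q \ S) (hS.PP hτ) (by omega) hdd hroom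
          fun π hπ => (hstep π hπ).2
      obtain ⟨S0, hS0⟩ := exists_adm hq hu' (by nlinarith)
      have h1 := (hkey S0 hS0).1
      obtain ⟨h', rfl⟩ : ∃ h', h = h' + 1 := ⟨h - 1, by omega⟩
      exact Dec.query u hu' fun S hS => (hkey S hS).2

end Trees

end Pool.Agent.Work.MP_c04246_lc
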