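import Mathlib
import Pool.Agent.Work.MP_c04246_lc.Switch

set_option autoImplicit false
set_option linter.unusedSectionVars false
set_option linter.unusedSimpArgs false
set_option linter.unusedVariables false

namespace Pool.Agent.Work.MP_c04246_lc

open Finset

section Reach

variable {U : Type*} [DecidableEq U] [Fintype U] {q : ℕ}

open Classical in
/-- first term of `F` compatible with `τ` -/
noncomputable def fstc (q : ℕ) (F : List (Finset (Finset U))) (τ : Finset (Finset U)) :
    Option (Finset (Finset U)) := F.find? (fun t => decide (PP q (t ∪ τ)))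

/-- states deciding the disjunction of the terms in `F` -/
def LF (q : ℕ) (F : List (Finset (Finset U))) : Set (Finset (Finset U)) :=
  {τ | (∃ t ∈ F, t ⊆ τ) ∨ ∀ t ∈ F, ¬ PP q (t ∪ τ)}

lemma fstc_some {F : List (Finset (Finset U))} {τ t : Finset (Finset U)}
    (h : fstc q F τ = some t) : t ∈ F ∧ PP q (t ∪ τ) := by
  unfold fstc at h
  refine ⟨List.mem_of_find?_eq_some h, ?_⟩
  have := List.find?_some h
  simpa using this

lemma fstc_ext {F : List (Finset (Finset U))} {τ t ρ : Finset (Finset U)}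
    (h : fstc q F τ = some t) (hτ : τ ⊆ ρ) (ht : t ⊆ ρ) (hρ : PP q ρ) :
    fstc q F ρ = some t := by
  unfold fstc at h ⊢
  rw [List.find?_eq_some_iff_append] at h ⊢
  obtain ⟨h1, as, bs, h2, h3⟩ := h
  refine ⟨?_, as, bs, h2, ?_⟩
  · simp only [decide_eq_true_eq]
    rw [union_eq_right.mpr ht]
    exact hρ
  · intro a ha
    have := h3 a ha
    simp only [Bool.not_eq_true', decide_eq_false_iff_not] at this ⊢
    intro hcon
    exact this (hcon.mono (union_subset_union_right hτ))

inductive Reach (q : ℕ) (F : List (Finset (Finset U))) :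
    Finset (Finset U) → Finset (Finset U) → ℕ → Prop
  | nil (τ : Finset (Finset U)) : Reach q F τ τ 0
  | step {τ t π ρ' : Finset (Finset U)} {J : ℕ} : fstc q F τ = some t → (t \ τ).Nonempty →
      Cover q τ (cov (t \ τ)) π → Reach q F (τ ∪ π) ρ' J →
      Reach q F τ ((ρ' \ π) ∪ (t \ τ)) (J + (t \ τ).card)

lemma disj_of_PP {q : ℕ} {ρ' π σ : Finset (Finset U)} (hρ' : PP q ρ') (hπ : π ⊆ ρ')
    (hcov : cov σ ⊆ cov π) {S T : Finset U} (hS : S ∈ σ) (hT : T ∈ ρ' \ π) : Disjoint S T := by
  rw [mem_sdiff] at hT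
  rw [disjoint_left]
  intro v hv hv'
  have : v ∈ cov π := hcov (mem_cov.mpr ⟨S, hS, hv⟩)
  obtain ⟨P, hP, hvP⟩ := mem_cov.mp this
  have hne : P ≠ T := fun h => hT.2 (h ▸ hP)
  exact (disjoint_left.mp (hρ'.2 P (hπ hP) T hT.1 hne)) hvP hv'

lemma nonempty_of_mem (hq : 0 < q) {τ : Finset (Finset U)} (h : PP q τ) {S : Finset U}
    (hS : S ∈ τ) : S.Nonempty := by
  rw [← card_pos, h.1 S hS]; exact hq

lemma Reach.facts (hq : 0 < q) {F : List (Finset (Finset U))} {τ ρ : Finset (Finset U)} {J : ℕ}
    (h : Reach q F τ ρ J) : PP q τ → τ ⊆ ρ ∧ PP q ρ ∧ ρ.card = τ.card + J := by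
  induction h with
  | nil τ => intro hτ; exact ⟨Subset.rfl, hτ, rfl⟩
  | @step τ t π ρ' J hf hne hc hr ih =>
    intro hτ
    obtain ⟨h1, h2, h3⟩ := ih (hc.PP_union hτ)
    obtain ⟨hf1, hf2⟩ := fstc_some hf
    have hπρ : π ⊆ ρ' := subset_union_right.trans h1
    have hτρ : τ ⊆ ρ' := subset_union_left.trans h1
    have hd : ∀ S ∈ t \ τ, ∀ T ∈ ρ' \ π, Disjoint S T :=
      fun S hS T hT => disj_of_PP h2 hπρ hc.2.2.1 hS hT
    have htPP : PP q (t \ τ) := hf2.mono (sdiff_subset.trans subset_union_left)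
    refine ⟨?_, ?_, ?_⟩
    · intro S hS
      refine mem_union_left _ (mem_sdiff.mpr ⟨hτρ hS, ?_⟩)
      exact disjoint_left.mp hc.disj hS
    · constructor
      · intro S hS
        rcases mem_union.mp hS with h | h
        · exact h2.1 S (mem_sdiff.mp h).1
        · exact htPP.1 S h
      · intro S hS T hT hne'
        rcases mem_union.mp hS with h | h
        · rcases mem_union.mp hT with h' | h'
          · exact h2.2 S (mem_sdiff.mp h).1 T (mem_sdiff.mp h').1 hne'
          · exact (hd T h' S h).symm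
        · rcases mem_union.mp hT with h' | h'
          · exact hd S h T h'
          · exact htPP.2 S h T h' hne'
    · have hdd : Disjoint (ρ' \ π) (t \ τ) := by
        rw [disjoint_left]
        intro S hS hS'
        have := hd S hS' S hS
        obtain ⟨u, hu⟩ := nonempty_of_mem hq htPP hS'
        exact (disjoint_left.mp this) hu hu
      rw [card_union_of_disjoint hdd, card_sdiff_of_subset hπρ, h3,
        card_union_of_disjoint hc.disj]
      omega

lemma cov_disjoint_of_PP_union {τ t : Finset (Finset U)} (h : PP q (t ∪ τ)) :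
    Disjoint (cov (t \ τ)) (cov τ) := by
  rw [disjoint_cov_iff]
  intro T hT
  rw [disjoint_comm, disjoint_cov_iff]
  intro S hS
  rw [mem_sdiff] at hS
  exact h.2 T (mem_union_right _ hT) S (mem_union_left _ hS.1) (fun h0 => hS.2 (h0 ▸ hT))

/-- a state which cannot be decided by few queries has a long reach -/
lemma long_reach (hq : 0 < q) {F : List (Finset (Finset U))} {r : ℕ} {ρ0 : Finset (Finset U)}
    (hF : ∀ t ∈ F, (t \ ρ0).card ≤ r) (n : ℕ) :
    ∀ (h : ℕ) (τ : Finset (Finset U)), h ≤ n → PP q τ → ρ0 ⊆ τ → q * h + q * (q * r) ≤ nun τ →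
      ¬ Dec q (LF q F) τ h → ∃ ρ J, Reach q F τ ρ J ∧ h < q * J := by
  induction n with
  | zero =>
    intro h τ hn hτ hρ0 hroom hnd
    have hh : h = 0 := by omega
    subst hh
    -- same argument, without induction
    have hnL : τ ∉ LF q F := fun hL => hnd (Dec.leaf hL)
    simp only [LF, Set.mem_ofPred_eq, not_or, not_exists, not_and, not_forall, not_not] at hnL
    obtain ⟨hn1, t0, ht0, ht0'⟩ := hnL
    have hsome : ∃ t, fstc q F τ = some t := by
      rw [← Option.isSome_iff_exists]
      unfold fstc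
      rw [List.find?_isSome]
      exact ⟨t0, ht0, by simpa using ht0'⟩
    obtain ⟨t, ht⟩ := hsome
    obtain ⟨htF, htPP⟩ := fstc_some ht
    have hne : (t \ τ).Nonempty := by
      rw [nonempty_iff_ne_empty]
      intro h0
      exact hn1 t htF (sdiff_eq_empty_iff_subset.mp h0)
    have hσPP : PP q (t \ τ) := htPP.mono (sdiff_subset.trans subset_union_left)
    have hσr : (t \ τ).card ≤ r := (card_le_card (sdiff_subset_sdiff Subset.rfl hρ0)).trans (hF t htF)
    have hQ : (cov (t \ τ)).card = q * (t \ τ).card := hσPP.card_cov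
    have hd : Disjoint (cov (t \ τ)) (cov τ) := cov_disjoint_of_PP_union htPP
    have hroomQ : q * (cov (t \ τ)).card ≤ nun τ := by
      rw [hQ]
      have := Nat.mul_le_mul_left q (Nat.mul_le_mul_left q hσr)
      omega
    have h3 : ¬ ∀ π, Cover q τ (cov (t \ τ)) π → π.card ≤ 0 ∧ Dec q (LF q F) (τ ∪ π) (0 - π.card) :=
      fun hall => hnd (query_all hq _ 0 τ (cov (t \ τ)) hτ le_rfl hd hroomQ hall)
    push Not at h3
    obtain ⟨π, hπ, _⟩ := h3
    refine ⟨_, _, Reach.step ht hne hπ (Reach.nil _), ?_⟩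
    have := card_pos.mpr hne
    positivity
  | succ n ih =>
    intro h τ hn hτ hρ0 hroom hnd
    have hnL : τ ∉ LF q F := fun hL => hnd (Dec.leaf hL)
    simp only [LF, Set.mem_ofPred_eq, not_or, not_exists, not_and, not_forall, not_not] at hnL
    obtain ⟨hn1, t0, ht0, ht0'⟩ := hnL
    have hsome : ∃ t, fstc q F τ = some t := by
      rw [← Option.isSome_iff_exists]
      unfold fstc
      rw [List.find?_isSome]
      exact ⟨t0, ht0, by simpa using ht0'⟩
    obtain ⟨t, ht⟩ := hsome
    obtain ⟨htF, htPP⟩ := fstc_some ht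
    have hne : (t \ τ).Nonempty := by
      rw [nonempty_iff_ne_empty]
      intro h0
      exact hn1 t htF (sdiff_eq_empty_iff_subset.mp h0)
    have hσPP : PP q (t \ τ) := htPP.mono (sdiff_subset.trans subset_union_left)
    have hσr : (t \ τ).card ≤ r := (card_le_card (sdiff_subset_sdiff Subset.rfl hρ0)).trans (hF t htF)
    have hQ : (cov (t \ τ)).card = q * (t \ τ).card := hσPP.card_cov
    have hd : Disjoint (cov (t \ τ)) (cov τ) := cov_disjoint_of_PP_union htPP
    have hroomQ : q * (cov (t \ τ)).card ≤ nun τ := by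
      rw [hQ]
      have := Nat.mul_le_mul_left q (Nat.mul_le_mul_left q hσr)
      omega
    have h3 : ¬ ∀ π, Cover q τ (cov (t \ τ)) π → π.card ≤ h ∧ Dec q (LF q F) (τ ∪ π) (h - π.card) :=
      fun hall => hnd (query_all hq _ h τ (cov (t \ τ)) hτ le_rfl hd hroomQ hall)
    push Not at h3
    obtain ⟨π, hπ, hπ2⟩ := h3
    have hπQ := hπ.card_le
    rw [hQ] at hπQ
    by_cases hle : π.card ≤ h
    · have hnd' := hπ2 hle
      have hπne : 1 ≤ π.card := by
        obtain ⟨S, hS⟩ := hne
        obtain ⟨u, hu⟩ := nonempty_of_mem hq hσPP hS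
        have : u ∈ cov π := hπ.2.2.1 (mem_cov.mpr ⟨S, hS, hu⟩)
        obtain ⟨P, hP, _⟩ := mem_cov.mp this
        exact card_pos.mpr ⟨P, hP⟩
      have hPPu := hπ.PP_union hτ
      have hnun1 := nun_add hPPu
      have hnun2 := nun_add hτ
      rw [card_union_of_disjoint hπ.disj, mul_add] at hnun1
      have hsub : q * (h - π.card) + q * π.card = q * h := by
        rw [← mul_add]; congr 1; omega
      obtain ⟨ρ', J', hR, hJ'⟩ := ih (h - π.card) (τ ∪ π) (by omega) hPPu
        (hρ0.trans subset_union_left) (by omega) hnd'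
      refine ⟨_, _, Reach.step ht hne hπ hR, ?_⟩
      rw [mul_add]
      omega
    · refine ⟨_, _, Reach.step ht hne hπ (Reach.nil _), ?_⟩
      rw [zero_add]
      omega

open Classical in
/-- starting points of reaches ending in `ρ` -/
noncomputable def Bk (q : ℕ) (F : List (Finset (Finset U))) (ρ0 ρ : Finset (Finset U)) (J : ℕ) :
    Finset (Finset (Finset U)) :=
  univ.filter (fun τ => PP q τ ∧ ρ0 ⊆ τ ∧ Reach q F τ ρ J)

open Classical in
/-- candidates for the answers to the queries of `cov σ` -/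
noncomputable def Pk (q : ℕ) (W Q : Finset U) : Finset (Finset (Finset U)) :=
  univ.filter (fun π => PP q π ∧ cov π ⊆ W ∧ Q ⊆ cov π ∧ ∀ S ∈ π, (S ∩ Q).Nonempty)

lemma card_Pk (W Q : Finset U) : (Pk q W Q).card ≤ (W.card ^ q) ^ Q.card := by
  classical
  let g : Finset (Finset U) → (a : U) → a ∈ Q → Finset U := fun π a _ =>
    (π.filter (fun S => a ∈ S)).biUnion id
  have hg : ∀ π ∈ Pk q W Q, ∀ a (ha : a ∈ Q), g π a ha ∈ π ∧ a ∈ g π a ha := by
    intro π hπ a ha
    simp only [Pk, mem_filter, mem_univ, true_and] at hπ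
    obtain ⟨S, hS, haS⟩ := mem_cov.mp (hπ.2.2.1 ha)
    have : π.filter (fun S => a ∈ S) = {S} := by
      ext T
      rw [mem_filter, mem_singleton]
      constructor
      · rintro ⟨hT, haT⟩
        by_contra hne
        exact (disjoint_left.mp (hπ.1.2 T hT S hS hne)) haT haS
      · rintro rfl; exact ⟨hS, haS⟩
    have h2 : g π a ha = S := by
      show (π.filter (fun S => a ∈ S)).biUnion id = S
      rw [this]; simp
    rw [h2]; exact ⟨hS, haS⟩
  have hmaps : ∀ π ∈ Pk q W Q, g π ∈ Q.pi (fun _ => powersetCard q W) := by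
    intro π hπ
    rw [mem_pi]
    intro a ha
    have h1 := hg π hπ a ha
    simp only [Pk, mem_filter, mem_univ, true_and] at hπ
    rw [mem_powersetCard]
    refine ⟨?_, hπ.1.1 _ h1.1⟩
    intro v hv
    exact hπ.2.1 (mem_cov.mpr ⟨_, h1.1, hv⟩)
  have hsub : ∀ π ∈ Pk q W Q, ∀ π' ∈ Pk q W Q, g π = g π' → π ⊆ π' := by
    intro π hπ π' hπ' hgg S hS
    have hπ0 := hπ
    simp only [Pk, mem_filter, mem_univ, true_and] at hπ0
    obtain ⟨a, ha⟩ := hπ0.2.2.2 S hS
    rw [mem_inter] at ha
    have h1 := hg π hπ a ha.2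
    have h2 := hg π' hπ' a ha.2
    have h3 : g π a ha.2 = S := by
      by_contra hne
      exact (disjoint_left.mp (hπ0.1.2 _ h1.1 S hS hne)) h1.2 ha.1
    rw [← h3, hgg]
    exact h2.1
  have hcard := card_le_card_of_injOn g hmaps (by
    intro π hπ π' hπ' hgg
    exact Subset.antisymm (hsub π hπ π' hπ' hgg) (hsub π' hπ' π hπ hgg.symm))
  refine hcard.trans ?_
  rw [card_pi, prod_const]
  apply Nat.pow_le_pow_left
  rw [card_powersetCard]
  exact Nat.choose_le_pow _ _

lemma geo_sum' (J : ℕ) : ∑ j ∈ range J, 2 ^ (J - (j + 1)) + 1 ≤ 2 ^ J := by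
  induction J with
  | zero => simp
  | succ J ih =>
    rw [sum_range_succ']
    have h2 : ∑ j ∈ range J, 2 ^ (J + 1 - (j + 1 + 1)) = ∑ j ∈ range J, 2 ^ (J - (j + 1)) := by
      refine sum_congr rfl fun j _ => ?_
      congr 1
      omega
    have h3 : J + 1 - (0 + 1) = J := by omega
    rw [h2, h3, pow_succ]
    omega

lemma geo_sum (J : ℕ) : ∑ j ∈ range (J + 1), (if 1 ≤ j then 2 ^ (J - j) else 0) ≤ 2 ^ J := by
  rw [sum_range_succ']
  have h1 : ∑ j ∈ range J, (if 1 ≤ j + 1 then 2 ^ (J - (j + 1)) else 0)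
      = ∑ j ∈ range J, 2 ^ (J - (j + 1)) := by
    refine sum_congr rfl fun j _ => ?_
    rw [if_pos (by omega)]
  rw [h1, if_neg (by omega)]
  have := geo_sum' J
  omega

lemma sum_weights (T : Finset (Finset U)) (r Y J : ℕ) (hT : T.card ≤ r) :
    ∑ σ ∈ T.powerset.filter (fun σ => 1 ≤ σ.card ∧ σ.card ≤ J),
      Y ^ σ.card * (2 * (r * Y)) ^ (J - σ.card) ≤ (2 * (r * Y)) ^ J := by
  rw [sum_filter]
  have h1 := sum_powerset_apply_card
    (fun j => if 1 ≤ j ∧ j ≤ J then Y ^ j * (2 * (r * Y)) ^ (J - j) else 0) (x := T)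
  rw [h1]
  have h2 : ∀ j, T.card.choose j • (if 1 ≤ j ∧ j ≤ J then Y ^ j * (2 * (r * Y)) ^ (J - j) else 0)
      ≤ if j ≤ J then (r * Y) ^ J * (if 1 ≤ j then 2 ^ (J - j) else 0) else 0 := by
    intro j
    by_cases hj : 1 ≤ j ∧ j ≤ J
    · rw [if_pos hj, if_pos hj.2, if_pos hj.1, smul_eq_mul]
      have h3 : T.card.choose j ≤ r ^ j := (Nat.choose_le_pow _ _).trans (Nat.pow_le_pow_left hT j)
      have h4 : (r * Y) ^ J = (r * Y) ^ j * (r * Y) ^ (J - j) := by
        rw [← pow_add]; congr 1; omega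
      calc T.card.choose j * (Y ^ j * (2 * (r * Y)) ^ (J - j))
          ≤ r ^ j * (Y ^ j * (2 * (r * Y)) ^ (J - j)) := Nat.mul_le_mul_right _ h3
        _ = (r * Y) ^ J * 2 ^ (J - j) := by
            rw [h4, mul_pow 2, mul_pow r Y j]; ring
    · rw [if_neg hj]
      simp
  refine (sum_le_sum (fun j _ => h2 j)).trans ?_
  have h5 : ∑ j ∈ range (T.card + 1),
      (if j ≤ J then (r * Y) ^ J * (if 1 ≤ j then 2 ^ (J - j) else 0) else 0)
      ≤ ∑ j ∈ range (J + 1), (r * Y) ^ J * (if 1 ≤ j then 2 ^ (J - j) else 0) := by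
    rw [← sum_filter]
    apply sum_le_sum_of_subset
    intro j hj
    rw [mem_filter] at hj
    rw [mem_range]
    omega
  refine h5.trans ?_
  rw [← mul_sum, mul_pow 2, mul_comm (2 ^ J)]
  exact Nat.mul_le_mul_left _ (geo_sum J)

/-- counting the starting points -/
lemma card_Bk (hq : 0 < q) {F : List (Finset (Finset U))} {r ℓ : ℕ} {ρ0 : Finset (Finset U)}
    (hF : ∀ t ∈ F, (t \ ρ0).card ≤ r) (J : ℕ) : ∀ ρ, PP q ρ → nun ρ + q * J ≤ ℓ →
      (Bk q F ρ0 ρ J).card ≤ (2 * (r * (ℓ ^ (q * q)))) ^ J := by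
  classical
  induction J using Nat.strong_induction_on with
  | _ J ih =>
  intro ρ hρ hnun
  rcases Nat.eq_zero_or_pos J with rfl | hJ
  · rw [pow_zero]
    have : Bk q F ρ0 ρ 0 ⊆ {ρ} := by
      intro τ hτ
      simp only [Bk, mem_filter, mem_univ, true_and] at hτ
      have h1 := hτ.2.2.facts hq hτ.1
      rw [mem_singleton]
      exact eq_of_subset_of_card_le h1.1 (by omega)
    exact (card_le_card this).trans (by simp)
  · set t0 : Finset (Finset U) := (fstc q F ρ).getD ∅ with ht0
    set T := (t0 ∩ ρ) \ ρ0 with hT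
    set Ss := T.powerset.filter (fun σ => 1 ≤ σ.card ∧ σ.card ≤ J) with hSs
    have hTr : T.card ≤ r := by
      cases hfo : fstc q F ρ with
      | none =>
        have : t0 = ∅ := by rw [ht0, hfo]; rfl
        rw [hT, this]; simp
      | some t =>
        have : t0 = t := by rw [ht0, hfo]; rfl
        rw [hT, this]
        refine (card_le_card ?_).trans (hF t (fstc_some hfo).1)
        exact sdiff_subset_sdiff inter_subset_left Subset.rfl
    have hsub : Bk q F ρ0 ρ J ⊆ Ss.biUnion (fun σ =>
        (Pk q ((univ \ cov ρ) ∪ cov σ) (cov σ)).biUnion (fun π =>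
          (Bk q F ρ0 ((ρ \ σ) ∪ π) (J - σ.card)).image (fun τ' => τ' \ π))) := by
      intro τ hτ
      simp only [Bk, mem_filter, mem_univ, true_and] at hτ
      obtain ⟨hτPP, hρ0τ, hR⟩ := hτ
      cases hR with
      | nil => omega
      | @step _ t π ρ' J' hf hne hc hr =>
        obtain ⟨h1, h2, h3⟩ := (Reach.step hf hne hc hr).facts hq hτPP
        obtain ⟨h1', h2', h3'⟩ := hr.facts hq (hc.PP_union hτPP)
        obtain ⟨hf1, hf2⟩ := fstc_some hf
        have hπρ : π ⊆ ρ' := subset_union_right.trans h1'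
        have hd : ∀ S ∈ t \ τ, ∀ T ∈ ρ' \ π, Disjoint S T :=
          fun S hS T hT => disj_of_PP h2' hπρ hc.2.2.1 hS hT
        have htPP : PP q (t \ τ) := hf2.mono (sdiff_subset.trans subset_union_left)
        have htρ : t ⊆ ρ' \ π ∪ t \ τ := by
          intro S hS
          by_cases hSτ : S ∈ τ
          · exact h1 hSτ
          · exact mem_union_right _ (mem_sdiff.mpr ⟨hS, hSτ⟩)
        have hfρ : fstc q F (ρ' \ π ∪ t \ τ) = some t := fstc_ext hf h1 htρ h2
        have ht0t : t0 = t := by rw [ht0, hfρ]; rfl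
        have hdd : Disjoint (ρ' \ π) (t \ τ) := by
          rw [disjoint_left]
          intro S hS hS'
          have := hd S hS' S hS
          obtain ⟨u, hu⟩ := nonempty_of_mem hq htPP hS'
          exact (disjoint_left.mp this) hu hu
        have hρ' : (ρ' \ π ∪ t \ τ) \ (t \ τ) ∪ π = ρ' := by
          rw [union_sdiff_cancel_right hdd, sdiff_union_of_subset hπρ]
        rw [mem_biUnion]
        refine ⟨t \ τ, ?_, ?_⟩
        · rw [hSs, mem_filter, mem_powerset]
          refine ⟨?_, card_pos.mpr hne, by omega⟩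
          intro S hS
          rw [hT, mem_sdiff, mem_inter, ht0t]
          exact ⟨⟨(mem_sdiff.mp hS).1, mem_union_right _ hS⟩,
            fun h => (mem_sdiff.mp hS).2 (hρ0τ h)⟩
        · rw [mem_biUnion]
          refine ⟨π, ?_, ?_⟩
          · simp only [Pk, mem_filter, mem_univ, true_and]
            refine ⟨hc.1, ?_, hc.2.2.1, hc.2.2.2⟩
            intro v hv
            by_cases hvc : v ∈ cov (t \ τ)
            · exact mem_union_right _ hvc
            · refine mem_union_left _ (mem_sdiff.mpr ⟨mem_univ _, ?_⟩)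
              intro hv2
              rw [cov_union, mem_union] at hv2
              rcases hv2 with h | h
              · obtain ⟨P, hP, hvP⟩ := mem_cov.mp hv
                obtain ⟨P', hP', hvP'⟩ := mem_cov.mp h
                rw [mem_sdiff] at hP'
                have hne' : P ≠ P' := fun h0 => hP'.2 (h0 ▸ hP)
                exact (disjoint_left.mp (h2'.2 P (hπρ hP) P' hP'.1 hne')) hvP hvP'
              · exact hvc h
          · rw [mem_image]
            refine ⟨τ ∪ π, ?_, ?_⟩
            · simp only [Bk, mem_filter, mem_univ, true_and]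
              refine ⟨hc.PP_union hτPP, hρ0τ.trans subset_union_left, ?_⟩
              rw [hρ', Nat.add_sub_cancel]
              exact hr
            · exact union_sdiff_cancel_right hc.disj
    refine (card_le_card hsub).trans ?_
    refine card_biUnion_le.trans ?_
    have hX : ∀ σ ∈ Ss, ((Pk q ((univ \ cov ρ) ∪ cov σ) (cov σ)).biUnion (fun π =>
          (Bk q F ρ0 ((ρ \ σ) ∪ π) (J - σ.card)).image (fun τ' => τ' \ π))).card ≤
          (ℓ ^ (q * q)) ^ σ.card * (2 * (r * (ℓ ^ (q * q)))) ^ (J - σ.card) := by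
      intro σ hσ
      rw [hSs, mem_filter, mem_powerset] at hσ
      obtain ⟨hσT, hσ1, hσJ⟩ := hσ
      have hσρ : σ ⊆ ρ := by
        intro S hS
        have := hσT hS
        rw [hT, mem_sdiff, mem_inter] at this
        exact this.1.2
      have hσPP : PP q σ := hρ.mono hσρ
      have hcovσ : (cov σ).card = q * σ.card := hσPP.card_cov
      have hqσ : q * σ.card ≤ q * J := Nat.mul_le_mul_left _ hσJ
      have hW : ((univ \ cov ρ) ∪ cov σ).card ≤ ℓ := by
        refine (card_union_le _ _).trans ?_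
        have : (univ \ cov ρ).card = nun ρ := rfl
        omega
      have hP : (Pk q ((univ \ cov ρ) ∪ cov σ) (cov σ)).card ≤ (ℓ ^ (q * q)) ^ σ.card := by
        refine (card_Pk _ _).trans ?_
        rw [hcovσ, ← pow_mul, ← pow_mul]
        have : q * (q * σ.card) = q * q * σ.card := by ring
        rw [this]
        exact Nat.pow_le_pow_left hW _
      refine card_biUnion_le.trans ?_
      have hB : ∀ π ∈ Pk q ((univ \ cov ρ) ∪ cov σ) (cov σ),
          ((Bk q F ρ0 ((ρ \ σ) ∪ π) (J - σ.card)).image (fun τ' => τ' \ π)).card ≤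
          (2 * (r * (ℓ ^ (q * q)))) ^ (J - σ.card) := by
        intro π hπ
        refine card_image_le.trans ?_
        simp only [Pk, mem_filter, mem_univ, true_and] at hπ
        by_cases hPP : PP q ((ρ \ σ) ∪ π)
        · refine ih (J - σ.card) (by omega) _ hPP ?_
          have hn1 := nun_add hPP
          have hn2 := nun_add hρ
          have hdis : Disjoint (ρ \ σ) π := by
            rw [disjoint_left]
            intro S hS hS'
            rw [mem_sdiff] at hS
            obtain ⟨v, hv⟩ := nonempty_of_mem hq hρ hS.1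
            have hvW := hπ.2.1 (mem_cov.mpr ⟨S, hS', hv⟩)
            rcases mem_union.mp hvW with h | h
            · exact (mem_sdiff.mp h).2 (mem_cov.mpr ⟨S, hS.1, hv⟩)
            · obtain ⟨P, hP, hvP⟩ := mem_cov.mp h
              have hne : P ≠ S := fun h0 => hS.2 (h0 ▸ hP)
              exact (disjoint_left.mp (hρ.2 P (hσρ hP) S hS.1 hne)) hvP hv
          rw [card_union_of_disjoint hdis, card_sdiff_of_subset hσρ, mul_add, Nat.mul_sub] at hn1
          have h5 : q * σ.card ≤ q * ρ.card := Nat.mul_le_mul_left _ (card_le_card hσρ)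
          rw [Nat.mul_sub]
          omega
        · have : Bk q F ρ0 ((ρ \ σ) ∪ π) (J - σ.card) = ∅ := by
            rw [eq_empty_iff_forall_notMem]
            intro τ hτ
            simp only [Bk, mem_filter, mem_univ, true_and] at hτ
            exact hPP (hτ.2.2.facts hq hτ.1).2.1
          rw [this]; simp
      refine (sum_le_sum hB).trans ?_
      rw [sum_const, smul_eq_mul]
      exact Nat.mul_le_mul_right _ hP
    refine (sum_le_sum hX).trans ?_
    exact sum_weights T r _ J hTr

end Reach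

end Pool.Agent.Work.MP_c04246_lc
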