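import Mathlib
import Pool.Agent.Work.MP_c04246_lc.Switch2

set_option autoImplicit false
set_option linter.unusedSectionVars false
set_option linter.unusedSimpArgs false
set_option linter.unusedVariables false

namespace Pool.Agent.Work.MP_c04246_lc

open Finset

section Count

variable {U : Type*} [DecidableEq U] [Fintype U] {q : ℕ}

open Classical in
/-- extensions of `ρ0` leaving exactly `ℓ` elements uncovered -/
noncomputable def Rk (q : ℕ) (ρ0 : Finset (Finset U)) (ℓ : ℕ) : Finset (Finset (Finset U)) :=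
  univ.filter (fun ρ => PP q ρ ∧ ρ0 ⊆ ρ ∧ nun ρ = ℓ)

lemma mem_Rk {ρ0 ρ : Finset (Finset U)} {ℓ : ℕ} :
    ρ ∈ Rk q ρ0 ℓ ↔ PP q ρ ∧ ρ0 ⊆ ρ ∧ nun ρ = ℓ := by
  simp [Rk]

lemma Rk_ratio (hq : 0 < q) {ρ0 : Finset (Finset U)} (hρ0 : PP q ρ0) (ℓ : ℕ) :
    (Rk q ρ0 ℓ).card * (nun ρ0 - ℓ) ≤ q * ((Rk q ρ0 (ℓ + q)).card * (ℓ + q) ^ q) := by
  classical
  have h1 : ∀ ρ ∈ Rk q ρ0 ℓ, q * (ρ \ ρ0).card = nun ρ0 - ℓ := by
    intro ρ hρ
    obtain ⟨h1, h2, h3⟩ := mem_Rk.mp hρ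
    have h4 := nun_add h1
    have h5 := nun_add hρ0
    rw [card_sdiff_of_subset h2, Nat.mul_sub]
    have := Nat.mul_le_mul_left q (card_le_card h2)
    omega
  have h2 : (Rk q ρ0 ℓ).card * (nun ρ0 - ℓ) = q * ∑ ρ ∈ Rk q ρ0 ℓ, (ρ \ ρ0).card := by
    rw [mul_sum, sum_congr rfl h1, sum_const, smul_eq_mul]
  rw [h2]
  apply Nat.mul_le_mul_left
  have h3 : ∑ ρ ∈ Rk q ρ0 ℓ, (ρ \ ρ0).card = ((Rk q ρ0 ℓ).sigma (fun ρ => ρ \ ρ0)).card := by
    rw [card_sigma]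
  have h4 : ((Rk q ρ0 (ℓ + q)).sigma (fun ρ => powersetCard q (univ \ cov ρ))).card
      ≤ (Rk q ρ0 (ℓ + q)).card * (ℓ + q) ^ q := by
    rw [card_sigma]
    have : ∀ ρ ∈ Rk q ρ0 (ℓ + q), (powersetCard q (univ \ cov ρ)).card ≤ (ℓ + q) ^ q := by
      intro ρ hρ
      obtain ⟨_, _, h3⟩ := mem_Rk.mp hρ
      rw [card_powersetCard]
      have : (univ \ cov ρ).card = ℓ + q := h3
      rw [this]
      exact Nat.choose_le_pow _ _
    refine (sum_le_sum this).trans ?_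
    rw [sum_const, smul_eq_mul]
  rw [h3]
  refine le_trans ?_ h4
  refine card_le_card_of_injOn (fun x => ⟨x.1.erase x.2, x.2⟩) ?_ ?_
  · rintro ⟨ρ, S⟩ hx
    rw [mem_coe, mem_sigma] at hx
    obtain ⟨hρ, hS⟩ := hx
    simp only at hρ hS
    obtain ⟨h1, h2, h3⟩ := mem_Rk.mp hρ
    rw [mem_sdiff] at hS
    have hPP : PP q (ρ.erase S) := h1.mono (erase_subset _ _)
    rw [mem_coe, mem_sigma]
    refine ⟨mem_Rk.mpr ⟨hPP, ?_, ?_⟩, ?_⟩
    · intro T hT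
      refine mem_erase.mpr ⟨fun h => hS.2 ?_, h2 hT⟩
      have h' : T = S := h
      rw [← h']; exact hT
    · show nun (ρ.erase S) = ℓ + q
      have h4 := nun_add hPP
      have h5 := nun_add h1
      have h6 := card_erase_add_one hS.1
      have h7 : q * ρ.card = q * (ρ.erase S).card + q := by rw [← h6]; ring
      omega
    · show S ∈ powersetCard q (univ \ cov (ρ.erase S))
      rw [mem_powersetCard]
      refine ⟨?_, h1.1 S hS.1⟩
      intro u hu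
      rw [mem_sdiff]
      refine ⟨mem_univ _, fun hu' => ?_⟩
      obtain ⟨T, hT, huT⟩ := mem_cov.mp hu'
      rw [mem_erase] at hT
      exact (disjoint_left.mp (h1.2 T hT.2 S hS.1 hT.1)) huT hu
  · rintro ⟨ρ, S⟩ hx ⟨ρ', S'⟩ hx' heq
    rw [mem_coe, mem_sigma] at hx hx'
    simp only at hx hx'
    simp only [Sigma.mk.injEq] at heq
    obtain ⟨h1, h2⟩ := heq
    have h2' : S = S' := eq_of_heq h2
    subst h2'
    have hS := (mem_sdiff.mp hx.2).1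
    have hS' := (mem_sdiff.mp hx'.2).1
    have : ρ = ρ' := by
      rw [← insert_erase hS, ← insert_erase hS', h1]
    subst this
    rfl

lemma Rk_iter (hq : 0 < q) {ρ0 : Finset (Finset U)} (hρ0 : PP q ρ0) {ℓ : ℕ}
    (hℓ : 2 * ℓ ≤ nun ρ0) (J : ℕ) : q * J ≤ ℓ →
    (Rk q ρ0 (ℓ - q * J)).card * (nun ρ0) ^ J ≤ (2 * (q * ℓ ^ q)) ^ J * (Rk q ρ0 ℓ).card := by
  induction J with
  | zero => intro _; simp
  | succ J ih =>
    intro hJ
    have hJ' : q * J + q ≤ ℓ := by rw [← Nat.mul_succ]; exact hJ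
    have ih' := ih (by omega)
    have h1 := Rk_ratio hq hρ0 (ℓ - q * (J + 1))
    have h2 : ℓ - q * (J + 1) + q = ℓ - q * J := by rw [Nat.mul_succ]; omega
    rw [h2] at h1
    have h3 : nun ρ0 ≤ 2 * (nun ρ0 - (ℓ - q * (J + 1))) := by omega
    have h4 : (ℓ - q * J) ^ q ≤ ℓ ^ q := Nat.pow_le_pow_left (Nat.sub_le _ _) _
    calc (Rk q ρ0 (ℓ - q * (J + 1))).card * nun ρ0 ^ (J + 1)
        = ((Rk q ρ0 (ℓ - q * (J + 1))).card * nun ρ0) * nun ρ0 ^ J := by ring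
      _ ≤ ((Rk q ρ0 (ℓ - q * (J + 1))).card * (2 * (nun ρ0 - (ℓ - q * (J + 1))))) * nun ρ0 ^ J :=
          Nat.mul_le_mul_right _ (Nat.mul_le_mul_left _ h3)
      _ = 2 * ((Rk q ρ0 (ℓ - q * (J + 1))).card * (nun ρ0 - (ℓ - q * (J + 1)))) * nun ρ0 ^ J := by
          ring
      _ ≤ 2 * (q * ((Rk q ρ0 (ℓ - q * J)).card * (ℓ - q * J) ^ q)) * nun ρ0 ^ J :=
          Nat.mul_le_mul_right _ (Nat.mul_le_mul_left _ h1)
      _ ≤ 2 * (q * ((Rk q ρ0 (ℓ - q * J)).card * ℓ ^ q)) * nun ρ0 ^ J :=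
          Nat.mul_le_mul_right _ (Nat.mul_le_mul_left _ (Nat.mul_le_mul_left _
            (Nat.mul_le_mul_left _ h4)))
      _ = (2 * (q * ℓ ^ q)) * ((Rk q ρ0 (ℓ - q * J)).card * nun ρ0 ^ J) := by ring
      _ ≤ (2 * (q * ℓ ^ q)) * ((2 * (q * ℓ ^ q)) ^ J * (Rk q ρ0 ℓ).card) :=
          Nat.mul_le_mul_left _ ih'
      _ = (2 * (q * ℓ ^ q)) ^ (J + 1) * (Rk q ρ0 ℓ).card := by ring

lemma Rk_nonempty (hq : 0 < q) {ρ0 : Finset (Finset U)} (hρ0 : PP q ρ0) {ℓ m : ℕ}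
    (h : nun ρ0 = ℓ + q * m) : (Rk q ρ0 ℓ).Nonempty := by
  obtain ⟨G, hG1, hG2⟩ := exists_subset_card_eq (s := univ \ cov ρ0) (n := q * m)
    (by show q * m ≤ nun ρ0; omega)
  obtain ⟨P, hP, hcov⟩ := exists_part hq m G hG2
  have hd : ∀ S ∈ ρ0, ∀ T ∈ P, Disjoint S T := by
    intro S hS T hT
    rw [disjoint_left]
    intro u hu hu'
    have : u ∈ G := by rw [← hcov]; exact mem_cov.mpr ⟨T, hT, hu'⟩
    exact (mem_sdiff.mp (hG1 this)).2 (mem_cov.mpr ⟨S, hS, hu⟩)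
  have hPP : PP q (ρ0 ∪ P) := by
    constructor
    · intro S hS
      rcases mem_union.mp hS with h | h
      · exact hρ0.1 S h
      · exact hP.1 S h
    · intro S hS T hT hne
      rcases mem_union.mp hS with h | h
      · rcases mem_union.mp hT with h' | h'
        · exact hρ0.2 S h T h' hne
        · exact hd S h T h'
      · rcases mem_union.mp hT with h' | h'
        · exact (hd T h' S h).symm
        · exact hP.2 S h T h' hne
  refine ⟨ρ0 ∪ P, mem_Rk.mpr ⟨hPP, subset_union_left, ?_⟩⟩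
  have h1 := nun_add hPP
  have h2 := nun_add hρ0
  have h3 := hP.card_cov
  rw [hcov, hG2] at h3
  have hdd : Disjoint ρ0 P := by
    rw [disjoint_left]
    intro S hS hS'
    obtain ⟨u, hu⟩ := nonempty_of_mem hq hρ0 hS
    exact (disjoint_left.mp (hd S hS S hS')) hu hu
  rw [card_union_of_disjoint hdd, mul_add, ← h3] at h1
  omega

/-- the switching lemma, for a family of disjunctions -/
theorem switching {ι : Type*} (hq : 0 < q) (s : Finset ι) (F : ι → List (Finset (Finset U)))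
    {r ℓ a m : ℕ} {ρ0 : Finset (Finset U)} (hρ0 : PP q ρ0)
    (hF : ∀ i ∈ s, ∀ t ∈ F i, (t \ ρ0).card ≤ r) (hr : 1 ≤ r) (hℓ : 1 ≤ ℓ)
    (hn : nun ρ0 = ℓ + q * m) (h16 : 16 * (q * (r * ℓ ^ (q * q + q))) ≤ nun ρ0)
    (hroom : q * (q * a) + q * (q * r) ≤ ℓ) (hs : s.card < 2 ^ (a + 1)) :
    ∃ ρ, PP q ρ ∧ ρ0 ⊆ ρ ∧ nun ρ = ℓ ∧ ∀ i ∈ s, Dec q (LF q (F i)) ρ (q * a) := by
  classical
  set R := (Rk q ρ0 ℓ).card with hR
  have hRpos : 0 < R := card_pos.mpr (Rk_nonempty hq hρ0 hn)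
  have hqℓ : 0 < ℓ ^ q := Nat.pow_pos hℓ
  have hqℓ2 : 0 < ℓ ^ (q * q) := Nat.pow_pos hℓ
  have h2ℓ : 2 * ℓ ≤ nun ρ0 := by
    have h1 : ℓ ≤ ℓ ^ (q * q + q) := Nat.le_self_pow (by positivity) ℓ
    have h2 : ℓ ^ (q * q + q) ≤ q * (r * ℓ ^ (q * q + q)) := by
      have : 1 * (1 * ℓ ^ (q * q + q)) ≤ q * (r * ℓ ^ (q * q + q)) :=
        Nat.mul_le_mul hq (Nat.mul_le_mul_right _ hr)
      simpa using this
    omega
  -- main bound for a single disjunction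
  have hbad : ∀ i ∈ s, ((Rk q ρ0 ℓ).filter (fun ρ => ¬ Dec q (LF q (F i)) ρ (q * a))).card
      * 2 ^ (a + 1) < R := by
    intro i hi
    set Js := (range (ℓ + 1)).filter (fun J => a < J ∧ q * J ≤ ℓ) with hJs
    have hsub : (Rk q ρ0 ℓ).filter (fun ρ => ¬ Dec q (LF q (F i)) ρ (q * a)) ⊆
        Js.biUnion (fun J => (Rk q ρ0 (ℓ - q * J)).biUnion (fun ρ => Bk q (F i) ρ0 ρ J)) := by
      intro τ hτ
      rw [mem_filter] at hτ
      obtain ⟨hτR, hnd⟩ := hτ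
      obtain ⟨h1, h2, h3⟩ := mem_Rk.mp hτR
      obtain ⟨ρ, J, hreach, hJ⟩ := long_reach hq (hF i hi) (q * a) (q * a) τ le_rfl h1 h2
        (by rw [h3]; exact hroom) hnd
      obtain ⟨h4, h5, h6⟩ := hreach.facts hq h1
      have h7 := nun_add h5
      have h8 := nun_add h1
      rw [h6, mul_add] at h7
      have haJ : a < J := Nat.lt_of_mul_lt_mul_left hJ
      have hJℓ : J ≤ q * J := Nat.le_mul_of_pos_left _ hq
      rw [mem_biUnion]
      refine ⟨J, ?_, ?_⟩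
      · rw [hJs, mem_filter, mem_range]
        exact ⟨by omega, haJ, by omega⟩
      · rw [mem_biUnion]
        refine ⟨ρ, mem_Rk.mpr ⟨h5, h2.trans h4, by omega⟩, ?_⟩
        simp only [Bk, mem_filter, mem_univ, true_and]
        exact ⟨h1, h2, hreach⟩
    set X := 2 * (r * (ℓ ^ (q * q))) with hX
    have hcard : ((Rk q ρ0 ℓ).filter (fun ρ => ¬ Dec q (LF q (F i)) ρ (q * a))).card
        ≤ ∑ J ∈ Js, (Rk q ρ0 (ℓ - q * J)).card * X ^ J := by
      refine (card_le_card hsub).trans (card_biUnion_le.trans (sum_le_sum ?_))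
      intro J hJ
      rw [hJs, mem_filter, mem_range] at hJ
      refine card_biUnion_le.trans ?_
      have : ∀ ρ ∈ Rk q ρ0 (ℓ - q * J), (Bk q (F i) ρ0 ρ J).card ≤ X ^ J := by
        intro ρ hρ
        obtain ⟨h1, h2, h3⟩ := mem_Rk.mp hρ
        refine card_Bk hq (hF i hi) J ρ h1 ?_
        rw [h3]; omega
      refine (sum_le_sum this).trans ?_
      rw [sum_const, smul_eq_mul]
    have hterm : ∀ J ∈ Js, (Rk q ρ0 (ℓ - q * J)).card * X ^ J * 4 ^ J ≤ R := by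
      intro J hJ
      rw [hJs, mem_filter, mem_range] at hJ
      have h1 := Rk_iter hq hρ0 h2ℓ J hJ.2.2
      have h2 : ((2 * (q * ℓ ^ q)) * X * 4) ^ J ≤ (nun ρ0) ^ J := by
        apply Nat.pow_le_pow_left
        refine le_trans (le_of_eq ?_) h16
        rw [hX, pow_add]; ring
      have h3 : (2 * (q * ℓ ^ q)) ^ J * ((Rk q ρ0 (ℓ - q * J)).card * X ^ J * 4 ^ J)
          ≤ (2 * (q * ℓ ^ q)) ^ J * R := by
        calc (2 * (q * ℓ ^ q)) ^ J * ((Rk q ρ0 (ℓ - q * J)).card * X ^ J * 4 ^ J)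
            = (Rk q ρ0 (ℓ - q * J)).card * ((2 * (q * ℓ ^ q)) * X * 4) ^ J := by
              rw [mul_pow ((2 * (q * ℓ ^ q)) * X), mul_pow (2 * (q * ℓ ^ q)) X]; ring
          _ ≤ (Rk q ρ0 (ℓ - q * J)).card * (nun ρ0) ^ J := Nat.mul_le_mul_left _ h2
          _ ≤ _ := h1
      exact Nat.le_of_mul_le_mul_left h3 (by positivity)
    have hterm2 : ∀ J ∈ Js, (Rk q ρ0 (ℓ - q * J)).card * X ^ J * 2 ^ (a + 1) * 2 ^ (ℓ + 1)
        ≤ R * 2 ^ (ℓ + 1 - J) := by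
      intro J hJ
      have h1 := hterm J hJ
      rw [hJs, mem_filter, mem_range] at hJ
      have h2 : 2 ^ (a + 1) * 2 ^ (ℓ + 1) ≤ 4 ^ J * 2 ^ (ℓ + 1 - J) := by
        have : (4 : ℕ) ^ J = 2 ^ J * 2 ^ J := by
          rw [← mul_pow]; norm_num
        rw [this, mul_assoc, ← pow_add 2 J (ℓ + 1 - J)]
        have h3 : J + (ℓ + 1 - J) = ℓ + 1 := by omega
        rw [h3]
        exact Nat.mul_le_mul_right _ (Nat.pow_le_pow_right (by norm_num) hJ.2.1)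
      calc (Rk q ρ0 (ℓ - q * J)).card * X ^ J * 2 ^ (a + 1) * 2 ^ (ℓ + 1)
          = (Rk q ρ0 (ℓ - q * J)).card * X ^ J * (2 ^ (a + 1) * 2 ^ (ℓ + 1)) := by ring
        _ ≤ (Rk q ρ0 (ℓ - q * J)).card * X ^ J * (4 ^ J * 2 ^ (ℓ + 1 - J)) :=
            Nat.mul_le_mul_left _ h2
        _ = ((Rk q ρ0 (ℓ - q * J)).card * X ^ J * 4 ^ J) * 2 ^ (ℓ + 1 - J) := by ring
        _ ≤ R * 2 ^ (ℓ + 1 - J) := Nat.mul_le_mul_right _ h1
    have hgeo : ∑ J ∈ Js, 2 ^ (ℓ + 1 - J) < 2 ^ (ℓ + 1) := by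
      have h1 := geo_sum' (ℓ + 1)
      have h2 : ∑ J ∈ Js, 2 ^ (ℓ + 1 - J) ≤ ∑ j ∈ range (ℓ + 1), 2 ^ (ℓ + 1 - (j + 1)) := by
        have h3 : Js ⊆ (range (ℓ + 1)).image (fun j => j + 1) := by
          intro J hJ
          rw [hJs, mem_filter, mem_range] at hJ
          rw [mem_image]
          exact ⟨J - 1, mem_range.mpr (by omega), by omega⟩
        refine (sum_le_sum_of_subset h3).trans ?_
        rw [sum_image (by intro x _ y _ hxy; simpa using hxy)]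
      omega
    have hfin : (∑ J ∈ Js, (Rk q ρ0 (ℓ - q * J)).card * X ^ J) * 2 ^ (a + 1) * 2 ^ (ℓ + 1)
        < R * 2 ^ (ℓ + 1) := by
      rw [sum_mul, sum_mul]
      refine lt_of_le_of_lt (sum_le_sum hterm2) ?_
      rw [← mul_sum]
      exact Nat.mul_lt_mul_of_pos_left hgeo hRpos
    have hfin2 := Nat.lt_of_mul_lt_mul_right hfin
    exact lt_of_le_of_lt (Nat.mul_le_mul_right _ hcard) hfin2
  -- union bound
  by_contra hcon
  push Not at hcon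
  have hcover : Rk q ρ0 ℓ ⊆ s.biUnion (fun i =>
      (Rk q ρ0 ℓ).filter (fun ρ => ¬ Dec q (LF q (F i)) ρ (q * a))) := by
    intro ρ hρ
    obtain ⟨h1, h2, h3⟩ := mem_Rk.mp hρ
    obtain ⟨i, hi, hnd⟩ := hcon ρ h1 h2 h3
    rw [mem_biUnion]
    exact ⟨i, hi, mem_filter.mpr ⟨hρ, hnd⟩⟩
  have h1 : R ≤ ∑ i ∈ s, ((Rk q ρ0 ℓ).filter (fun ρ => ¬ Dec q (LF q (F i)) ρ (q * a))).card :=
    (card_le_card hcover).trans card_biUnion_le
  have h2 : (∑ i ∈ s, ((Rk q ρ0 ℓ).filter (fun ρ => ¬ Dec q (LF q (F i)) ρ (q * a))).card)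
      * 2 ^ (a + 1) ≤ s.card * R := by
    rw [sum_mul]
    refine (sum_le_sum (fun i hi => (hbad i hi).le)).trans ?_
    rw [sum_const, smul_eq_mul]
  have h3 : R * 2 ^ (a + 1) ≤ s.card * R := (Nat.mul_le_mul_right _ h1).trans h2
  have h4 : s.card * R < 2 ^ (a + 1) * R := Nat.mul_lt_mul_of_pos_right hs hRpos
  rw [mul_comm] at h3
  omega

end Count

end Pool.Agent.Work.MP_c04246_lc
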