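import Mathlib
import Pool.Agent.Work.MP_c04246_lc.Switch3
import Pool.Agent.Work.MP_c04246_lc.Defs

set_option autoImplicit false
set_option linter.unusedSectionVars false
set_option linter.unusedSimpArgs false
set_option linter.unusedVariables false

namespace Pool.Agent.Work.MP_c04246_lc

open Finset Fml

/-- level of a formula below a connective of kind `r` -/
def lv {p : ℕ} {V : Type} : Option Bool → Fml p V → ℕ
  | _, var _ => 0
  | _, cst _ => 0
  | _, neg a => lv none a
  | r, bin c a b => (if r = some c then 0 else 1) + max (lv (some c) a) (lv (some c) b)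
  | _, mod _ _ f => 1 + Finset.univ.sup fun j => lv none (f j)

lemma lv_le_none {p : ℕ} {V : Type} (r : Option Bool) (a : Fml p V) : lv r a ≤ lv none a := by
  cases a with
  | var _ => simp [lv]
  | cst _ => simp [lv]
  | neg a => simp [lv]
  | bin c a b => simp only [lv]; split_ifs <;> simp_all
  | mod i k f => simp [lv]

lemma lv_none_le {p : ℕ} {V : Type} (r : Option Bool) (a : Fml p V) : lv none a ≤ lv r a + 1 := by
  cases a with
  | var _ => simp [lv]
  | cst _ => simp [lv]
  | neg a => simp [lv]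
  | bin c a b => simp only [lv]; split_ifs <;> simp_all <;> omega
  | mod i k f => simp [lv]

lemma lv_bin {p : ℕ} {V : Type} (c : Bool) (a b : Fml p V) :
    lv none (bin c a b) = 1 + max (lv (some c) a) (lv (some c) b) := by
  simp [lv]

section Cert

variable {p q : ℕ} {U : Type} [DecidableEq U]

/-- variables -/
abbrev Vr (q : ℕ) (U : Type) := {S : Finset U // S.card = q}

/-- small extensions of the context `ρ i` -/
def Sm (q : ℕ) (ρ : ℕ → Finset (Finset U)) (κ : ℕ → ℕ) (i : ℕ) : Set (Finset (Finset U)) :=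
  {τ | PP q τ ∧ ρ i ⊆ τ ∧ (τ \ ρ i).card ≤ κ i}

/-- certificates: first component, certificates for the truth values of the formula; second
component, certificates for the value `c` of the arguments of the formula viewed as `bin c` -/
noncomputable def CD (q : ℕ) (ρ : ℕ → Finset (Finset U)) (κ : ℕ → ℕ) : Fml p (Vr q U) →
    (Bool → Set (Finset (Finset U))) × (Bool → Set (Finset (Finset U)))
  | var S =>
    (fun e => {τ | τ ∈ Sm q ρ κ 0 ∧ if e then S.1 ∈ τ else ∃ T ∈ τ, T ≠ S.1 ∧ ¬ Disjoint T S.1},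
     fun e => {τ | τ ∈ Sm q ρ κ 0 ∧ if e then S.1 ∈ τ else ∃ T ∈ τ, T ≠ S.1 ∧ ¬ Disjoint T S.1})
  | cst b => (fun e => {τ | τ ∈ Sm q ρ κ 0 ∧ e = b}, fun e => {τ | τ ∈ Sm q ρ κ 0 ∧ e = b})
  | neg a => (fun e => (CD q ρ κ a).1 (!e), fun e => (CD q ρ κ a).1 (!e))
  | bin c a b =>
    (fun e => if e = c then
        {τ | τ ∈ Sm q ρ κ (lv none (bin c a b)) ∧ ∃ t ∈ (CD q ρ κ a).2 c ∪ (CD q ρ κ b).2 c, t ⊆ τ}
      else {τ | τ ∈ Sm q ρ κ (lv none (bin c a b)) ∧
        ∀ t ∈ (CD q ρ κ a).2 c ∪ (CD q ρ κ b).2 c, ¬ PP q (t ∪ τ)},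
     fun e => if e = c then (CD q ρ κ a).2 c ∪ (CD q ρ κ b).2 c
      else {τ | τ ∈ Sm q ρ κ (lv none (bin c a b)) ∧
        ∀ t ∈ (CD q ρ κ a).2 c ∪ (CD q ρ κ b).2 c, ¬ PP q (t ∪ τ)})
  | mod i k f =>
    (fun e => {τ | τ ∈ Sm q ρ κ (lv none (mod i k f)) ∧ ∃ g : Fin k → Bool,
        (∀ j, ∃ t ∈ (CD q ρ κ (f j)).1 (g j), t ⊆ τ) ∧
          e = decide ((∑ j, if g j then (1 : ZMod p) else 0) = i)},
     fun e => {τ | τ ∈ Sm q ρ κ (lv none (mod i k f)) ∧ ∃ g : Fin k → Bool,
        (∀ j, ∃ t ∈ (CD q ρ κ (f j)).1 (g j), t ⊆ τ) ∧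
          e = decide ((∑ j, if g j then (1 : ZMod p) else 0) = i)})

variable {ρ ρ' : ℕ → Finset (Finset U)} {κ : ℕ → ℕ}

lemma CD_congr (a : Fml p (Vr q U)) :
    ((∀ j ≤ lv none a, ρ j = ρ' j) → (CD q ρ κ a).1 = (CD q ρ' κ a).1) ∧
    (∀ c, (∀ j ≤ lv (some c) a, ρ j = ρ' j) → (CD q ρ κ a).2 c = (CD q ρ' κ a).2 c) := by
  have hSm : ∀ i, ρ i = ρ' i → Sm q ρ κ i = Sm q ρ' κ i := by
    intro i h; unfold Sm; rw [h]
  induction a with
  | var S =>
    have : (∀ j ≤ 0, ρ j = ρ' j) → (CD q ρ κ (var S : Fml p (Vr q U))) = CD q ρ' κ (var S : Fml p (Vr q U)) := by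
      intro h
      simp only [CD]
      rw [hSm 0 (h 0 le_rfl)]
    exact ⟨fun h => by rw [this h], fun c h => by rw [this h]⟩
  | cst b =>
    have : (∀ j ≤ 0, ρ j = ρ' j) → (CD q ρ κ (cst b : Fml p (Vr q U))) = CD q ρ' κ (cst b : Fml p (Vr q U)) := by
      intro h
      simp only [CD]
      rw [hSm 0 (h 0 le_rfl)]
    exact ⟨fun h => by rw [this h], fun c h => by rw [this h]⟩
  | neg a ih =>
    have : (∀ j ≤ lv none a, ρ j = ρ' j) → (CD q ρ κ (neg a)) = CD q ρ' κ (neg a) := by
      intro h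
      simp only [CD]
      rw [ih.1 h]
    exact ⟨fun h => by rw [this h], fun c h => by rw [this h]⟩
  | bin c a b iha ihb =>
    have hD : (∀ j ≤ max (lv (some c) a) (lv (some c) b), ρ j = ρ' j) →
        (CD q ρ κ a).2 c ∪ (CD q ρ κ b).2 c = (CD q ρ' κ a).2 c ∪ (CD q ρ' κ b).2 c := by
      intro h
      rw [iha.2 c (fun j hj => h j (hj.trans (le_max_left _ _))),
        ihb.2 c (fun j hj => h j (hj.trans (le_max_right _ _)))]
    have hall : (∀ j ≤ lv none (bin c a b), ρ j = ρ' j) →
        (CD q ρ κ (bin c a b)) = CD q ρ' κ (bin c a b) := by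
      intro h
      simp only [CD]
      rw [hSm _ (h _ le_rfl), hD (fun j hj => h j (by rw [lv_bin]; omega))]
    refine ⟨fun h => by rw [hall h], fun e h => ?_⟩
    by_cases he : e = c
    · subst he
      simp only [CD, if_true]
      exact hD (fun j hj => h j (by simpa [lv] using hj))
    · rw [hall]
      intro j hj
      apply h
      have : (some e : Option Bool) ≠ some c := fun h0 => he (by simpa using h0)
      simp only [lv, this, if_false]
      simpa [lv] using hj
  | mod i k f ih =>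
    have : (∀ j ≤ lv none (mod i k f), ρ j = ρ' j) →
        (CD q ρ κ (mod i k f)) = CD q ρ' κ (mod i k f) := by
      intro h
      have h1 : ∀ j, (CD q ρ κ (f j)).1 = (CD q ρ' κ (f j)).1 := by
        intro j
        apply (ih j).1
        intro j' hj'
        apply h
        have : lv none (f j) ≤ univ.sup fun j => lv none (f j) :=
          le_sup (f := fun j => lv none (f j)) (mem_univ j)
        simp only [lv]
        omega
      simp only [CD]
      rw [hSm _ (h _ le_rfl)]
      simp only [h1]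
    exact ⟨fun h => by rw [this h], fun c h => by rw [this (by simpa [lv] using h)]⟩

lemma mem_Sm_of_C (a : Fml p (Vr q U)) : ∀ (e : Bool) (t : Finset (Finset U)),
    t ∈ (CD q ρ κ a).1 e → t ∈ Sm q ρ κ (lv none a) := by
  induction a with
  | var S => intro e t ht; exact ht.1
  | cst b => intro e t ht; exact ht.1
  | neg a ih => intro e t ht; exact ih _ t ht
  | bin c a b iha ihb =>
    intro e t ht
    simp only [CD] at ht
    split_ifs at ht
    · exact ht.1
    · exact ht.1
  | mod i k f ih => intro e t ht; exact ht.1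

/-- members of `D` are certificates of some argument of smaller level -/
lemma mem_D (a : Fml p (Vr q U)) : ∀ (c : Bool) (t : Finset (Finset U)),
    t ∈ (CD q ρ κ a).2 c → ∃ i ≤ lv (some c) a, t ∈ Sm q ρ κ i := by
  induction a with
  | var S => intro e t ht; exact ⟨0, Nat.zero_le _, ht.1⟩
  | cst b => intro e t ht; exact ⟨0, Nat.zero_le _, ht.1⟩
  | neg a ih => intro e t ht; exact ⟨lv none a, le_rfl, mem_Sm_of_C a _ t ht⟩
  | bin c a b iha ihb =>
    intro e t ht
    by_cases he : e = c
    · subst he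
      simp only [CD, if_true] at ht
      simp only [lv, if_true, zero_add]
      rcases ht with h | h
      · obtain ⟨i, hi, hi'⟩ := iha _ t h
        exact ⟨i, hi.trans (le_max_left _ _), hi'⟩
      · obtain ⟨i, hi, hi'⟩ := ihb _ t h
        exact ⟨i, hi.trans (le_max_right _ _), hi'⟩
    · simp only [CD, if_neg he] at ht
      refine ⟨_, ?_, ht.1⟩
      have : (some e : Option Bool) ≠ some c := fun h0 => he (by simpa using h0)
      simp only [lv, this, if_false]
      simp
  | mod i k f ih => intro e t ht; exact ⟨_, le_rfl, ht.1⟩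

/-- each certificate of `a` for `c` contains a member of `D a c` -/
lemma C_to_D (a : Fml p (Vr q U)) (c : Bool) (t : Finset (Finset U))
    (ht : t ∈ (CD q ρ κ a).1 c) : ∃ t1 ∈ (CD q ρ κ a).2 c, t1 ⊆ t := by
  cases a with
  | var S => exact ⟨t, ht, Subset.rfl⟩
  | cst b => exact ⟨t, ht, Subset.rfl⟩
  | neg a => exact ⟨t, ht, Subset.rfl⟩
  | bin c' a b =>
    by_cases he : c = c'
    · subst he
      simp only [CD, if_true] at ht ⊢
      exact ht.2
    · simp only [CD, if_neg he] at ht ⊢
      exact ⟨t, ht, Subset.rfl⟩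
  | mod i k f => exact ⟨t, ht, Subset.rfl⟩

/-- consistency -/
lemma C_consistent (hq : 0 < q) (a : Fml p (Vr q U)) : ∀ (t t' : Finset (Finset U)),
    t ∈ (CD q ρ κ a).1 true → t' ∈ (CD q ρ κ a).1 false → ¬ PP q (t ∪ t') := by
  induction a with
  | var S =>
    intro t t' ht ht' hPP
    simp only [CD, if_true] at ht ht'
    obtain ⟨_, hS⟩ := ht
    obtain ⟨_, T, hT, hne, hnd⟩ := ht'
    exact hnd (hPP.2 T (mem_union_right _ hT) S.1 (mem_union_left _ hS) hne)
  | cst b =>
    intro t t' ht ht' hPP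
    have h1 : true = b := ht.2
    have h2 : false = b := ht'.2
    rw [← h2] at h1
    exact Bool.noConfusion h1
  | neg a ih =>
    intro t t' ht ht' hPP
    rw [union_comm] at hPP
    exact ih t' t ht' ht hPP
  | bin c a b iha ihb =>
    intro t t' ht ht' hPP
    simp only [CD] at ht ht'
    cases c with
    | true =>
      rw [if_pos rfl] at ht
      rw [if_neg (by simp)] at ht'
      obtain ⟨_, t1, ht1, hsub⟩ := ht
      exact ht'.2 t1 ht1 (hPP.mono (union_subset_union hsub Subset.rfl))
    | false =>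
      rw [if_neg (by simp)] at ht
      rw [if_pos rfl] at ht'
      obtain ⟨_, t1, ht1, hsub⟩ := ht'
      rw [union_comm] at hPP
      exact ht.2 t1 ht1 (hPP.mono (union_subset_union hsub Subset.rfl))
  | mod i k f ih =>
    intro t t' ht ht' hPP
    obtain ⟨_, g, hg, hgi⟩ := ht
    obtain ⟨_, g', hg', hgi'⟩ := ht'
    have : g = g' := by
      funext j
      obtain ⟨s, hs, hst⟩ := hg j
      obtain ⟨s', hs', hst'⟩ := hg' j
      have hPPs : PP q (s ∪ s') := hPP.mono (union_subset_union hst hst')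
      cases hgj : g j with
      | true =>
        cases hgj' : g' j with
        | true => rfl
        | false =>
          rw [hgj] at hs; rw [hgj'] at hs'
          exact absurd hPPs (ih j s s' hs hs')
      | false =>
        cases hgj' : g' j with
        | false => rfl
        | true =>
          rw [hgj] at hs; rw [hgj'] at hs'
          rw [union_comm] at hPPs
          exact absurd hPPs (ih j s' s hs' hs)
    subst this
    rw [← hgi'] at hgi
    exact Bool.noConfusion hgi

/-- the formula is decided with value `e` in the world `m` -/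
def Vd (q : ℕ) (ρ : ℕ → Finset (Finset U)) (κ : ℕ → ℕ) (a : Fml p (Vr q U)) (e : Bool)
    (m : Finset (Finset U)) : Prop := ∃ t ∈ (CD q ρ κ a).1 e, t ⊆ m

lemma Vd_unique (hq : 0 < q) {a : Fml p (Vr q U)} {e e' : Bool} {m : Finset (Finset U)}
    (hm : PP q m) (h : Vd q ρ κ a e m) (h' : Vd q ρ κ a e' m) : e = e' := by
  obtain ⟨t, ht, hsub⟩ := h
  obtain ⟨t', ht', hsub'⟩ := h'
  cases e with
  | true =>
    cases e' with
    | true => rfl
    | false => exact absurd (hm.mono (union_subset hsub hsub')) (C_consistent hq a t t' ht ht')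
  | false =>
    cases e' with
    | false => rfl
    | true => exact absurd (hm.mono (union_subset hsub' hsub)) (C_consistent hq a t' t ht' ht)

lemma Vd_of_D (hq : 0 < q) {a : Fml p (Vr q U)} {c e : Bool} {m t : Finset (Finset U)}
    (hm : PP q m) (ht : t ∈ (CD q ρ κ a).2 c) (htm : t ⊆ m) (h : Vd q ρ κ a e m) : e = c := by
  have hsame : t ∈ (CD q ρ κ a).1 c → e = c := fun ht' => Vd_unique hq hm h ⟨t, ht', htm⟩
  cases a with
  | var S => exact hsame ht
  | cst b => exact hsame ht
  | neg a => exact hsame ht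
  | mod i k f => exact hsame ht
  | bin c' a b =>
    by_cases hc : c = c'
    · subst hc
      by_contra hne
      obtain ⟨s, hs, hsm⟩ := h
      simp only [CD, if_neg hne] at hs
      simp only [CD, if_true] at ht
      exact hs.2 t ht (hm.mono (union_subset htm hsm))
    · apply hsame
      simp only [CD, if_neg hc] at ht ⊢
      exact ht

lemma Vd_bin (hq : 0 < q) {c : Bool} {a b : Fml p (Vr q U)} {e ea eb : Bool}
    {m : Finset (Finset U)} (hm : PP q m) (h : Vd q ρ κ (bin c a b) e m)
    (ha : Vd q ρ κ a ea m) (hb : Vd q ρ κ b eb m) :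
    e = if c then (ea || eb) else (ea && eb) := by
  have key : e = if ea = c ∨ eb = c then c else !c := by
    by_cases he : e = c
    · obtain ⟨t, ht, htm⟩ := h
      simp only [CD, if_pos he] at ht
      obtain ⟨_, t1, ht1, hsub⟩ := ht
      rcases ht1 with h1 | h1
      · have := Vd_of_D hq hm h1 (hsub.trans htm) ha
        rw [if_pos (Or.inl this)]; exact he
      · have := Vd_of_D hq hm h1 (hsub.trans htm) hb
        rw [if_pos (Or.inr this)]; exact he
    · obtain ⟨t, ht, htm⟩ := h
      simp only [CD, if_neg he] at ht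
      have h1 : ¬ (ea = c ∨ eb = c) := by
        rintro (h1 | h1)
        · subst h1
          obtain ⟨s, hs, hsm⟩ := ha
          obtain ⟨s1, hs1, hss⟩ := C_to_D a _ s hs
          exact ht.2 s1 (Or.inl hs1) (hm.mono (union_subset (hss.trans hsm) htm))
        · subst h1
          obtain ⟨s, hs, hsm⟩ := hb
          obtain ⟨s1, hs1, hss⟩ := C_to_D b _ s hs
          exact ht.2 s1 (Or.inr hs1) (hm.mono (union_subset (hss.trans hsm) htm))
      rw [if_neg h1]
      cases e <;> cases c <;> simp_all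
  rw [key]
  cases c <;> cases ea <;> cases eb <;> simp

lemma Vd_mod (hq : 0 < q) {i : ZMod p} {k : ℕ} {f : Fin k → Fml p (Vr q U)} {e : Bool}
    {g : Fin k → Bool} {m : Finset (Finset U)} (hm : PP q m) (h : Vd q ρ κ (mod i k f) e m)
    (hg : ∀ j, Vd q ρ κ (f j) (g j) m) :
    e = decide ((∑ j, if g j then (1 : ZMod p) else 0) = i) := by
  obtain ⟨t, ht, htm⟩ := h
  obtain ⟨_, g', hg', hgi'⟩ := ht
  have : g' = g := by
    funext j
    obtain ⟨s, hs, hst⟩ := hg' j
    exact Vd_unique hq hm ⟨s, hs, hst.trans htm⟩ (hg j)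
  rw [← this]; exact hgi'

lemma Vd_neg {a : Fml p (Vr q U)} {e : Bool} {m : Finset (Finset U)} :
    Vd q ρ κ (neg a) e m ↔ Vd q ρ κ a (!e) m := Iff.rfl

lemma Vd_cst {b e : Bool} {m : Finset (Finset U)} (h : Vd q ρ κ (cst b : Fml p (Vr q U)) e m) :
    e = b := by
  obtain ⟨t, ht, _⟩ := h
  exact ht.2

end Cert

end Pool.Agent.Work.MP_c04246_lc
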