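import Mathlib
import Pool.Agent.Work.MP_c04246_lc.Cert

set_option autoImplicit false
set_option linter.unusedSectionVars false
set_option linter.unusedSimpArgs false
set_option linter.unusedVariables false

namespace Pool.Agent.Work.MP_c04246_lc

open Finset Fml

section comp

variable {U : Type*} [DecidableEq U] {q : ℕ}

/-- sequential composition of decision procedures -/
lemma Dec.comp {L1 L2 : Set (Finset (Finset U))} (hL1 : ∀ τ τ', τ ∈ L1 → τ ⊆ τ' → τ' ∈ L1)
    {τ : Finset (Finset U)} {h1 h2 : ℕ} (hd : Dec q L1 τ h1) :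
    PP q τ → (∀ τ', τ ⊆ τ' → PP q τ' → Dec q L2 τ' h2) → Dec q (L1 ∩ L2) τ (h1 + h2) := by
  induction hd with
  | @leaf τ h hτ =>
    intro hPP hall
    have h3 := (hall τ Subset.rfl hPP).small τ h2 Subset.rfl hPP (by simp)
    refine (h3.mono_L ?_).mono_h _ (by omega)
    rintro τ' ⟨h4, _, h5, _⟩
    exact ⟨hL1 _ _ hτ h5, h4⟩
  | @query τ h u hu _ ih =>
    intro hPP hall
    have : h + 1 + h2 = (h + h2) + 1 := by omega
    rw [this]
    refine Dec.query u hu fun S hS => ih S hS (hS.PP hPP) fun τ' hsub hPP' => ?_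
    exact hall τ' ((subset_insert _ _).trans hsub) hPP'

lemma Dec.inter_all {ι : Type*} (L : ι → Set (Finset (Finset U)))
    (hL : ∀ i τ τ', τ ∈ L i → τ ⊆ τ' → τ' ∈ L i) (h : ℕ) (s : Finset ι) :
    ∀ τ : Finset (Finset U), PP q τ → (∀ i ∈ s, ∀ τ', τ ⊆ τ' → PP q τ' → Dec q (L i) τ' h) →
      Dec q {τ' | ∀ i ∈ s, τ' ∈ L i} τ (s.card * h) := by
  classical
  induction s using Finset.induction_on with
  | empty =>
    intro τ _ _
    exact Dec.leaf (by intro i hi; exact absurd hi (notMem_empty i))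
  | insert i s hi ih =>
    intro τ hPP hall
    have h1 := hall i (mem_insert_self _ _) τ Subset.rfl hPP
    have h2 := h1.comp (L2 := {τ' | ∀ i ∈ s, τ' ∈ L i}) (h2 := s.card * h) (hL i) hPP ?_
    · rw [card_insert_of_notMem hi]
      have h3 : (s.card + 1) * h = h + s.card * h := by ring
      rw [h3]
      refine h2.mono_L ?_
      rintro τ' ⟨h4, h5⟩ j hj
      rcases mem_insert.mp hj with rfl | hj
      · exact h4
      · exact h5 j hj
    · intro τ' hsub hPP'
      exact ih τ' hPP' fun j hj τ'' hsub' hPP'' =>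
        hall j (mem_insert_of_mem hj) τ'' (hsub.trans hsub') hPP''

end comp

section Stage

variable {p q : ℕ} {U : Type} [DecidableEq U]

/-- states in which the formula is decided -/
def DS (q : ℕ) (ρ : ℕ → Finset (Finset U)) (κ : ℕ → ℕ) (a : Fml p (Vr q U)) :
    Set (Finset (Finset U)) := {τ | ∃ e, Vd q ρ κ a e τ}

lemma DS_up {ρ : ℕ → Finset (Finset U)} {κ : ℕ → ℕ} {a : Fml p (Vr q U)} :
    ∀ τ τ', τ ∈ DS q ρ κ a → τ ⊆ τ' → τ' ∈ DS q ρ κ a := by
  rintro τ τ' ⟨e, t, ht, hsub⟩ h
  exact ⟨e, t, ht, hsub.trans h⟩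

/-- the formula is decided by few queries -/
def Good (q : ℕ) (ρ : ℕ → Finset (Finset U)) (κ : ℕ → ℕ) (a : Fml p (Vr q U)) : Prop :=
  Dec q (DS q ρ κ a) (ρ (lv none a)) (κ (lv none a))

variable {ρ ρ' : ℕ → Finset (Finset U)} {κ : ℕ → ℕ}

lemma Good_congr (a : Fml p (Vr q U)) (h : ∀ j ≤ lv none a, ρ j = ρ' j) (hg : Good q ρ κ a) :
    Good q ρ' κ a := by
  unfold Good DS Vd at *
  rw [← (CD_congr a).1 h, ← h _ le_rfl]
  exact hg

lemma Good_cst (b : Bool) (h0 : PP q (ρ 0)) : Good q ρ κ (cst b : Fml p (Vr q U)) := by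
  refine Dec.leaf ⟨b, ρ 0, ⟨⟨h0, Subset.rfl, by simp⟩, rfl⟩, Subset.rfl⟩

lemma Good_var (hq : 0 < q) (S : Vr q U) (h0 : ρ 0 = ∅) (hκ : 1 ≤ κ 0) :
    Good q ρ κ (var S : Fml p (Vr q U)) := by
  obtain ⟨u, hu⟩ : S.1.Nonempty := by rw [← card_pos, S.2]; exact hq
  obtain ⟨k, hk⟩ : ∃ k, κ 0 = k + 1 := ⟨κ 0 - 1, by omega⟩
  unfold Good
  show Dec q _ (ρ 0) (κ 0)
  rw [hk]
  refine Dec.query u (by rw [h0]; simp [cov]) fun T hT => ?_
  rw [h0] at hT ⊢
  have hSm : ({T} : Finset (Finset U)) ∈ Sm q ρ κ 0 := by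
    refine ⟨(hT.PP (PP.empty q)), by rw [h0]; exact empty_subset _, ?_⟩
    rw [h0]; simpa using hκ
  by_cases h : T = S.1
  · refine Dec.leaf ⟨true, {T}, ⟨hSm, ?_⟩, by simp⟩
    simp [h]
  · refine Dec.leaf ⟨false, {T}, ⟨hSm, ?_⟩, by simp⟩
    simp only [Bool.false_eq_true, if_false]
    refine ⟨T, mem_singleton_self _, h, ?_⟩
    intro hd
    exact (disjoint_left.mp hd) hT.1 hu

lemma Good_neg {a : Fml p (Vr q U)} (h : Good q ρ κ a) : Good q ρ κ (neg a) := by
  unfold Good at *
  refine Dec.mono_L ?_ h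
  rintro τ ⟨e, he⟩
  exact ⟨!e, by rw [Vd_neg, Bool.not_not]; exact he⟩

lemma Good_bin {c : Bool} {a b : Fml p (Vr q U)} {F : List (Finset (Finset U))} {h : ℕ}
    (hF : ∀ t, t ∈ F ↔ t ∈ (CD q ρ κ (bin c a b)).2 c)
    (hPP : PP q (ρ (lv none (bin c a b)))) (hh : h ≤ κ (lv none (bin c a b)))
    (hd : Dec q (LF q F) (ρ (lv none (bin c a b))) h) : Good q ρ κ (bin c a b) := by
  unfold Good
  have h1 := hd.mono_h _ hh
  have h2 := h1.small _ (κ (lv none (bin c a b))) Subset.rfl hPP (by simp)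
  refine h2.mono_L ?_
  rintro τ ⟨h3, h4⟩
  have hD : (CD q ρ κ (bin c a b)).2 c = (CD q ρ κ a).2 c ∪ (CD q ρ κ b).2 c := by
    simp [CD]
  rcases h3 with ⟨t, ht, htτ⟩ | h3
  · refine ⟨c, τ, ?_, Subset.rfl⟩
    simp only [CD, if_true]
    refine ⟨h4, t, ?_, htτ⟩
    rw [← hD]; exact (hF t).mp ht
  · refine ⟨!c, τ, ?_, Subset.rfl⟩
    have hne : (!c) ≠ c := by cases c <;> simp
    simp only [CD, if_neg hne]
    refine ⟨h4, fun t ht => h3 t ?_⟩
    rw [hF, hD]; exact ht

lemma Good_mod {i : ZMod p} {k : ℕ} {f : Fin k → Fml p (Vr q U)} {l : ℕ}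
    (hl : lv none (mod i k f) = l + 1) (hPP : PP q (ρ (l + 1)))
    (hmono : ∀ j ≤ l, ρ j ⊆ ρ (l + 1)) (hκ : ∀ j ≤ l, κ j ≤ κ l) (hk : k * κ l ≤ κ (l + 1))
    (hf : ∀ j, Good q ρ κ (f j)) : Good q ρ κ (mod i k f) := by
  unfold Good
  rw [hl]
  have hlv : ∀ j, lv none (f j) ≤ l := by
    intro j
    have h1 : lv none (f j) ≤ univ.sup fun j => lv none (f j) :=
      le_sup (f := fun j => lv none (f j)) (mem_univ j)
    simp only [lv] at hl
    omega
  have h1 := Dec.inter_all (q := q) (fun j => DS q ρ κ (f j)) (fun j => DS_up) (κ l) univ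
    (ρ (l + 1)) hPP (fun j _ τ' hsub hPP' =>
      (((hf j).mono_ctx DS_up τ' ((hmono _ (hlv j)).trans hsub) hPP').mono_h _ (hκ _ (hlv j))))
  rw [card_univ, Fintype.card_fin] at h1
  have h2 := (h1.mono_h _ hk).small _ (κ (l + 1)) Subset.rfl hPP (by simp)
  refine h2.mono_L ?_
  rintro τ ⟨h3, h4⟩
  have h5 : ∀ j, ∃ e, Vd q ρ κ (f j) e τ := fun j => h3 j (mem_univ j)
  choose g hg using h5
  refine ⟨decide ((∑ j, if g j then (1 : ZMod p) else 0) = i), τ, ?_, Subset.rfl⟩
  refine ⟨?_, g, hg, rfl⟩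
  rw [hl]; exact h4

variable [Fintype U]

/-- closure conditions for the family of formulas under consideration -/
def Closed (w : ℕ) (Γ : Finset (Fml p (Vr q U))) : Prop :=
  (∀ a, neg a ∈ Γ → a ∈ Γ) ∧ (∀ c a b, bin c a b ∈ Γ → a ∈ Γ ∧ b ∈ Γ) ∧
  (∀ i k f, mod i k f ∈ Γ → k ≤ w ∧ ∀ j, f j ∈ Γ)

theorem exists_contexts (hq : 0 < q) {Γ : Finset (Fml p (Vr q U))} {w : ℕ} (hΓ : Closed w Γ)
    {a0 d : ℕ} (hcard : Γ.card < 2 ^ (a0 + 1)) {κ N : ℕ → ℕ} (hκ1 : ∀ i, 1 ≤ κ i)
    (hκa : ∀ i, q * a0 ≤ κ i) (hκm : Monotone κ) (hκw : ∀ i, w * κ i ≤ κ (i + 1))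
    (hN0 : N 0 = Fintype.card U) (hN : ∀ i < d, ∃ m, N i = N (i + 1) + q * m)
    (h16 : ∀ i < d, 16 * (q * (κ i * N (i + 1) ^ (q * q + q))) ≤ N i)
    (hroom : ∀ i < d, q * (q * a0) + q * (q * κ i) ≤ N (i + 1)) (hN1 : ∀ i, 1 ≤ N i) :
    ∀ i ≤ d, ∃ ρ : ℕ → Finset (Finset U), ρ 0 = ∅ ∧ (∀ j ≤ i, PP q (ρ j)) ∧
      (∀ j j', j ≤ j' → j' ≤ i → ρ j ⊆ ρ j') ∧ (∀ j ≤ i, nun (ρ j) = N j) ∧
      ∀ a ∈ Γ, lv none a ≤ i → Good q ρ κ a := by
  classical
  intro i
  induction i with
  | zero =>
    intro _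
    refine ⟨fun _ => ∅, rfl, fun _ _ => PP.empty q, fun _ _ _ _ => Subset.rfl, ?_, ?_⟩
    · intro j hj
      have : j = 0 := by omega
      subst this
      rw [hN0]
      have := nun_add (PP.empty (U := U) q)
      simpa using this
    · intro a
      induction a with
      | var S => intro _ _; exact Good_var hq S rfl (hκ1 0)
      | cst b => intro _ _; exact Good_cst b (PP.empty q)
      | neg a ih => intro ha hl; exact Good_neg (ih (hΓ.1 a ha) hl)
      | bin c a b _ _ => intro _ hl; rw [lv_bin] at hl; omega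
      | mod i k f _ => intro _ hl; simp only [lv] at hl; omega
  | succ i ih =>
    intro hi
    obtain ⟨ρ, hρ0, hρPP, hρm, hρN, hρG⟩ := ih (by omega)
    let F : Fml p (Vr q U) → List (Finset (Finset U)) := fun x =>
      match x with
      | bin c a b => if lv none (bin c a b) = i + 1 then
          ((CD q ρ κ (bin c a b)).2 c).toFinset.toList else []
      | _ => []
    have hF : ∀ x ∈ Γ, ∀ t ∈ F x, (t \ ρ i).card ≤ κ i := by
      intro x _ t ht
      cases x with
      | var S => simp [F] at ht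
      | cst b => simp [F] at ht
      | neg a => simp [F] at ht
      | mod _ k f => simp [F] at ht
      | bin c a b =>
        simp only [F] at ht
        split_ifs at ht with hl
        · rw [mem_toList, Set.mem_toFinset] at ht
          obtain ⟨j, hj, hjS⟩ := mem_D _ _ _ ht
          have hji : j ≤ i := by
            rw [lv_bin] at hl
            simp only [lv, if_true, zero_add] at hj
            omega
          exact (card_le_card (sdiff_subset_sdiff Subset.rfl (hρm j i hji le_rfl))).trans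
            (hjS.2.2.trans (hκm hji))
        · simp at ht
    obtain ⟨m, hm⟩ := hN i (by omega)
    obtain ⟨ρn, hn1, hn2, hn3, hn4⟩ := switching hq Γ F (hρPP i le_rfl) hF (hκ1 i) (hN1 (i + 1))
      (a := a0) (m := m) (by rw [hρN i le_rfl]; exact hm)
      (by rw [hρN i le_rfl]; exact h16 i (by omega)) (hroom i (by omega)) hcard
    have hagree : ∀ j ≤ i, ρ j = Function.update ρ (i + 1) ρn j := by
      intro j hj
      rw [Function.update_of_ne (by omega)]
    have hupd : Function.update ρ (i + 1) ρn (i + 1) = ρn := Function.update_self _ _ _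
    refine ⟨Function.update ρ (i + 1) ρn, ?_, ?_, ?_, ?_, ?_⟩
    · rw [← hagree 0 (Nat.zero_le _)]; exact hρ0
    · intro j hj
      rcases Nat.lt_or_ge j (i + 1) with h | h
      · rw [← hagree j (by omega)]; exact hρPP j (by omega)
      · have : j = i + 1 := by omega
        rw [this, hupd]; exact hn1
    · intro j j' hjj hj'
      rcases Nat.lt_or_ge j' (i + 1) with h | h
      · rw [← hagree j (by omega), ← hagree j' (by omega)]; exact hρm j j' hjj (by omega)
      · have : j' = i + 1 := by omega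
        subst this
        rw [hupd]
        rcases Nat.lt_or_ge j (i + 1) with h' | h'
        · rw [← hagree j (by omega)]
          exact (hρm j i (by omega) le_rfl).trans hn2
        · have : j = i + 1 := by omega
          rw [this, hupd]
    · intro j hj
      rcases Nat.lt_or_ge j (i + 1) with h | h
      · rw [← hagree j (by omega)]; exact hρN j (by omega)
      · have : j = i + 1 := by omega
        rw [this, hupd]; exact hn3
    · intro a
      induction a with
      | var S =>
        intro ha hl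
        exact Good_congr _ (fun j hj => hagree j (by simp [lv] at hj; omega)) (hρG _ ha (by simp [lv]))
      | cst b =>
        intro ha hl
        exact Good_congr _ (fun j hj => hagree j (by simp [lv] at hj; omega)) (hρG _ ha (by simp [lv]))
      | neg a ih => intro ha hl; exact Good_neg (ih (hΓ.1 a ha) hl)
      | bin c a b _ _ =>
        intro ha hl
        rcases Nat.lt_or_ge (lv none (bin c a b)) (i + 1) with h | h
        · exact Good_congr _ (fun j hj => hagree j (by omega)) (hρG _ ha (by omega))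
        · have hl' : lv none (bin c a b) = i + 1 := by omega
          have hFx : F (bin c a b) = ((CD q ρ κ (bin c a b)).2 c).toFinset.toList := by
            simp only [F]; rw [if_pos hl']
          have hD : (CD q ρ κ (bin c a b)).2 c
              = (CD q (Function.update ρ (i + 1) ρn) κ (bin c a b)).2 c := by
            apply (CD_congr (bin c a b)).2 c
            intro j hj
            apply hagree
            rw [lv_bin] at hl'
            simp only [lv, if_true, zero_add] at hj
            omega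
          refine Good_bin (F := F (bin c a b)) (h := q * a0) ?_ ?_ ?_ ?_
          · intro t
            rw [hFx, mem_toList, Set.mem_toFinset, hD]
          · rw [hl', hupd]; exact hn1
          · exact hκa _
          · rw [hl', hupd]; exact hn4 _ ha
      | mod z k f ih =>
        intro ha hl
        rcases Nat.lt_or_ge (lv none (mod z k f)) (i + 1) with h | h
        · exact Good_congr _ (fun j hj => hagree j (by omega)) (hρG _ ha (by omega))
        · have hl' : lv none (mod z k f) = i + 1 := by omega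
          obtain ⟨hkw, hfΓ⟩ := hΓ.2.2 _ _ _ ha
          have hlv : ∀ j, lv none (f j) ≤ i := by
            intro j
            have h1 : lv none (f j) ≤ univ.sup fun j => lv none (f j) :=
              le_sup (f := fun j => lv none (f j)) (mem_univ j)
            simp only [lv] at hl'
            omega
          refine Good_mod hl' ?_ ?_ (fun j hj => hκm hj)
            ((Nat.mul_le_mul_right _ hkw).trans (hκw i)) (fun j => ih j (hfΓ j) ?_)
          · rw [hupd]; exact hn1
          · intro j hj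
            rw [← hagree j hj, hupd]
            exact (hρm j i hj le_rfl).trans hn2
          · have := hlv j; omega

end Stage

end Pool.Agent.Work.MP_c04246_lc
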