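import Mathlib
import Pool.Agent.Work.MP_c04246_lc.Contexts

set_option autoImplicit false
set_option linter.unusedSectionVars false
set_option linter.unusedSimpArgs false
set_option linter.unusedVariables false

namespace Pool.Agent.Work.MP_c04246_lc

open Finset Fml

section Alg

variable {q t : ℕ} [NeZero q] {K : Type*} [Field K] {ψ : AddChar (ZMod q) K}
  {c : Fin t → ZMod q}

/-- zero-one function of a Boolean function -/
def bF (K : Type*) [Field K] (v : Flow q t → Bool) : Flow q t → K := fun y => if v y then 1 else 0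

lemma Deg.pow {D : ℕ} {f : Flow q t → K} (hf : Deg ψ D f) (n : ℕ) : Deg ψ (n * D) (f ^ n) := by
  induction n with
  | zero => rw [pow_zero]; exact Deg.one
  | succ n ih =>
    rw [pow_succ]
    exact (ih.mul hf).mono (by rw [Nat.succ_mul])

lemma Zr.sub {B : ℕ} {f g : Flow q t → K} (hf : Zr ψ c B f) (hg : Zr ψ c B g) :
    Zr ψ c B (f - g) := by
  have : f - g = f + (-1 : K) • g := by
    funext y; simp [sub_eq_add_neg]
  rw [this]; exact hf.add (hg.smul _)

lemma Deg.prod {D : ℕ} {ι : Type*} (s : Finset ι) (f : ι → Flow q t → K)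
    (h : ∀ i ∈ s, Deg ψ D (f i)) : Deg ψ (s.card * D) (∏ i ∈ s, f i) := by
  classical
  induction s using Finset.induction_on with
  | empty => simpa using Deg.one
  | insert a s ha ih =>
    rw [prod_insert ha, card_insert_of_notMem ha]
    have h1 := (h a (mem_insert_self a s)).mul (ih fun i hi => h i (mem_insert_of_mem hi))
    exact h1.mono (by ring_nf; rfl)

/-- products of functions congruent to one -/
lemma Zr.one_sub_prod (hψ : ψ.IsPrimitive) (hq : (q : K) ≠ 0) {B M : ℕ} (hB : 8 * B < t * t)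
    {ι : Type*} (s : Finset ι) (z : ι → Flow q t → K) (hD : ∀ i ∈ s, Deg ψ M (z i))
    (hZ : ∀ i ∈ s, Zr ψ c B (z i)) (hcard : s.card * M ≤ B) :
    Zr ψ c B (1 - ∏ i ∈ s, (1 - z i)) ∧ Deg ψ (s.card * M) (1 - ∏ i ∈ s, (1 - z i)) := by
  classical
  induction s using Finset.induction_on with
  | empty =>
    simp only [prod_empty, sub_self]
    exact ⟨Zr.zero, Deg.zero⟩
  | insert a s ha ih =>
    rw [card_insert_of_notMem ha] at hcard ⊢
    have hle : s.card * M ≤ (s.card + 1) * M := Nat.mul_le_mul_right _ (by omega)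
    obtain ⟨h1, h2⟩ := ih (fun i hi => hD i (mem_insert_of_mem hi))
      (fun i hi => hZ i (mem_insert_of_mem hi)) (hle.trans hcard)
    have ha1 := hD a (mem_insert_self a s)
    have ha2 := hZ a (mem_insert_self a s)
    rw [prod_insert ha]
    have heq : (1 - (1 - z a) * ∏ i ∈ s, (1 - z i) : Flow q t → K)
        = z a + ((1 - ∏ i ∈ s, (1 - z i)) - z a * (1 - ∏ i ∈ s, (1 - z i))) := by ring
    rw [heq]
    have hsum : M + s.card * M = (s.card + 1) * M := by ring
    constructor
    · exact ha2.add (h1.sub (Zr.mul hψ hq hB (by rw [hsum]; exact hcard) ha1 ha2 h2))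
    · refine (ha1.mono ?_).add ((h2.mono hle).sub ((ha1.mul h2).mono (le_of_eq hsum)))
      nlinarith [Nat.zero_le (s.card * M)]

/-- one step of a derivation: if `g` vanishes wherever all `z i` vanish, and all the `z i` are in the
ideal, then so is `g`. -/
lemma Zr.of_pointwise (hψ : ψ.IsPrimitive) (hq : (q : K) ≠ 0) {B M : ℕ} (hB : 8 * B < t * t)
    {ι : Type*} (s : Finset ι) (z : ι → Flow q t → K) (hD : ∀ i ∈ s, Deg ψ M (z i))
    (hZ : ∀ i ∈ s, Zr ψ c B (z i)) (h01 : ∀ i ∈ s, ∀ y, z i y = 0 ∨ z i y = 1)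
    {g : Flow q t → K} (hg : Deg ψ M g) (hcard : (s.card + 1) * M ≤ B)
    (hpt : ∀ y, (∀ i ∈ s, z i y = 0) → g y = 0) : Zr ψ c B g := by
  obtain ⟨h1, h2⟩ := Zr.one_sub_prod hψ hq hB s z hD hZ
    ((Nat.mul_le_mul_right _ (by omega)).trans hcard)
  have heq : g = (1 - ∏ i ∈ s, (1 - z i)) * g := by
    funext y
    by_cases hy : ∀ i ∈ s, z i y = 0
    · simp [hpt y hy]
    · push Not at hy
      obtain ⟨i, hi, hiy⟩ := hy
      have h3 : z i y = 1 := (h01 i hi y).resolve_left hiy
      have h4 : (∏ i ∈ s, (1 - z i) : Flow q t → K) y = 0 := by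
        rw [Finset.prod_apply]
        apply prod_eq_zero hi
        simp [h3]
      simp [h4]
  rw [heq]
  exact Zr.mul hψ hq hB (by rw [← Nat.succ_mul]; exact hcard) h2 h1 hg

end Alg

section Run

variable {p q t : ℕ} [NeZero q] {K : Type*} [Field K] {ψ : AddChar (ZMod q) K}
  {c : Fin t → ZMod q} {U : Type} [DecidableEq U] [Fintype U]
  {ρ : ℕ → Finset (Finset U)} {κ : ℕ → ℕ}

open Classical in
/-- evaluating a decision procedure on the worlds -/
lemma run_dec (hψ : ψ.IsPrimitive) (hq : (q : K) ≠ 0) (ht : 0 < t) {B : ℕ}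
    (hB : 8 * B < t * t) {m : Flow q t → Finset (Finset U)} (hm : ∀ y, PP q (m y))
    (hmD : ∀ S, Deg ψ (4 * t) (fun y : Flow q t => if S ∈ m y then (1 : K) else 0))
    (huD : ∀ u, Deg ψ (2 * t + 1) (fun y : Flow q t => if u ∉ cov (m y) then (1 : K) else 0))
    (huZ : ∀ u, Zr ψ c B (fun y : Flow q t => if u ∉ cov (m y) then (1 : K) else 0))
    {a : Fml p (Vr q U)} {τ : Finset (Finset U)} {h : ℕ} (hd : Dec q (DS q ρ κ a) τ h) :
    4 * t * h ≤ B → ∃ P s : Flow q t → K, Deg ψ (4 * t * h) P ∧ Deg ψ (4 * t * h) s ∧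
      Zr ψ c B s ∧ (∀ y, P y = 0 ∨ P y = 1) ∧ (∀ y, s y = 0 ∨ s y = 1) ∧
      ∀ y, τ ⊆ m y → s y = 0 → ∃ e, Vd q ρ κ a e (m y) ∧ P y = if e then 1 else 0 := by
  induction hd with
  | @leaf τ h hτ =>
    intro _
    obtain ⟨e, t', ht', hsub⟩ := hτ
    refine ⟨fun _ => if e then 1 else 0, 0, Deg.const _, Deg.zero, Zr.zero, ?_, ?_, ?_⟩
    · intro y; cases e <;> simp
    · intro y; left; rfl
    · intro y hy _
      exact ⟨e, ⟨t', ht', hsub.trans hy⟩, rfl⟩
  | @query τ h u hu hnext ih =>
    intro hb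
    have hb' : 4 * t * h ≤ B := le_trans (Nat.mul_le_mul_left _ (by omega)) hb
    have hex : ∀ S, Adm q τ u S → ∃ P s : Flow q t → K, Deg ψ (4 * t * h) P ∧
        Deg ψ (4 * t * h) s ∧ Zr ψ c B s ∧ (∀ y, P y = 0 ∨ P y = 1) ∧
        (∀ y, s y = 0 ∨ s y = 1) ∧ ∀ y, insert S τ ⊆ m y → s y = 0 →
          ∃ e, Vd q ρ κ a e (m y) ∧ P y = if e then 1 else 0 := fun S hS => ih S hS hb'
    choose! P s hP1 hs1 hs2 hP2 hs3 hPs using hex
    set A := univ.filter (fun S => Adm q τ u S) with hA
    have hmem : ∀ S ∈ A, Adm q τ u S := fun S hS => (mem_filter.mp hS).2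
    -- pointwise value of the sums
    have hval : ∀ (g : Finset U → Flow q t → K) (y : Flow q t),
        (∑ S ∈ A, (fun y : Flow q t => if S ∈ m y then (1 : K) else 0) * g S) y = 0 ∨
        ∃ S ∈ A, S ∈ m y ∧
          (∑ S ∈ A, (fun y : Flow q t => if S ∈ m y then (1 : K) else 0) * g S) y = g S y := by
      intro g y
      by_cases hS : ∃ S ∈ A, S ∈ m y
      · obtain ⟨S, hS, hSm⟩ := hS
        right
        refine ⟨S, hS, hSm, ?_⟩
        rw [Finset.sum_apply, sum_eq_single S]
        · simp [hSm]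
        · intro T hT hne
          have : T ∉ m y := by
            intro hTm
            exact (disjoint_left.mp ((hm y).2 T hTm S hSm hne)) (hmem T hT).1 (hmem S hS).1
          simp [this]
        · intro h0; exact absurd hS h0
      · left
        push Not at hS
        rw [Finset.sum_apply]
        apply sum_eq_zero
        intro S hS'
        simp [hS S hS']
    have hval1 : ∀ (g : Finset U → Flow q t → K) (y : Flow q t) (S : Finset U), S ∈ A → S ∈ m y →
          (∑ S ∈ A, (fun y : Flow q t => if S ∈ m y then (1 : K) else 0) * g S) y = g S y := by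
      intro g y S hS hSm
      rw [Finset.sum_apply, sum_eq_single S]
      · simp [hSm]
      · intro T hT hne
        have : T ∉ m y := by
          intro hTm
          exact (disjoint_left.mp ((hm y).2 T hTm S hSm hne)) (hmem T hT).1 (hmem S hS).1
        simp [this]
      · intro h0; exact absurd hS h0
    have harith : 4 * t + 4 * t * h = 4 * t * (h + 1) := by ring
    refine ⟨∑ S ∈ A, (fun y : Flow q t => if S ∈ m y then (1 : K) else 0) * P S,
      (fun y : Flow q t => if u ∉ cov (m y) then (1 : K) else 0) +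
        ∑ S ∈ A, (fun y : Flow q t => if S ∈ m y then (1 : K) else 0) * s S, ?_, ?_, ?_, ?_, ?_, ?_⟩
    · refine Deg.sum _ _ fun S hS => ?_
      rw [← harith]
      exact (hmD S).mul (hP1 S (hmem S hS))
    · refine Deg.add ((huD u).mono (by rw [← harith]; nlinarith)) (Deg.sum _ _ fun S hS => ?_)
      rw [← harith]
      exact (hmD S).mul (hs1 S (hmem S hS))
    · refine Zr.add (huZ u) (Zr.sum _ _ fun S hS => ?_)
      rw [mul_comm]
      refine Zr.mul hψ hq hB ?_ (hs1 S (hmem S hS)) (hs2 S (hmem S hS)) (hmD S)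
      rw [add_comm, harith]; exact hb
    · intro y
      rcases hval P y with h0 | ⟨S, hS, _, h0⟩
      · left; exact h0
      · rw [h0]; exact hP2 S (hmem S hS) y
    · intro y
      by_cases hcy : u ∉ cov (m y)
      · right
        have : ∀ S ∈ A, S ∉ m y := fun S hS hSm => hcy (mem_cov.mpr ⟨S, hSm, (hmem S hS).1⟩)
        rw [Pi.add_apply, Finset.sum_apply, sum_eq_zero (fun S hS => by simp [this S hS])]
        simp [hcy]
      · rw [Pi.add_apply]
        have h1 : (if u ∉ cov (m y) then (1 : K) else 0) = 0 := if_neg hcy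
        rw [h1, zero_add]
        rcases hval s y with h0 | ⟨S, hS, _, h0⟩
        · left; exact h0
        · rw [h0]; exact hs3 S (hmem S hS) y
    · intro y hy hs0
      have hcy : u ∈ cov (m y) := by
        by_contra hcy
        have : ∀ S ∈ A, S ∉ m y := fun S hS hSm => hcy (mem_cov.mpr ⟨S, hSm, (hmem S hS).1⟩)
        rw [Pi.add_apply, Finset.sum_apply, sum_eq_zero (fun S hS => by simp [this S hS])] at hs0
        simp [hcy] at hs0
      obtain ⟨S, hSm, huS⟩ := mem_cov.mp hcy
      have hSτ : S ∉ τ := fun h0 => hu (mem_cov.mpr ⟨S, h0, huS⟩)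
      have hadm : Adm q τ u S := ⟨huS, (hm y).1 S hSm, by
        rw [disjoint_cov_iff]
        intro T hT
        exact (hm y).2 S hSm T (hy hT) (fun h0 => hSτ (h0 ▸ hT))⟩
      have hSA : S ∈ A := by rw [hA, mem_filter]; exact ⟨mem_univ _, hadm⟩
      rw [Pi.add_apply, hval1 s y S hSA hSm] at hs0
      have h1 : (if u ∉ cov (m y) then (1 : K) else 0) = 0 := if_neg (not_not.mpr hcy)
      rw [h1, zero_add] at hs0
      rw [hval1 P y S hSA hSm]
      refine hPs S hadm y ?_ hs0
      intro T hT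
      rcases mem_insert.mp hT with h0 | h0
      · rw [h0]; exact hSm
      · exact hy h0

end Run

end Pool.Agent.Work.MP_c04246_lc
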