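import Mathlib
import Pool.Agent.Work.MP_c04246_lc.Algebra

set_option autoImplicit false
set_option linter.unusedSectionVars false
set_option linter.unusedSimpArgs false
set_option linter.unusedVariables false

namespace Pool.Agent.Work.MP_c04246_lc

open Finset Fml

section Fr

variable {p : ℕ} {V : Type}

open Classical in
/-- narrow part of a formula regarded as a `bin c` -/
noncomputable def fr (w : ℕ) (c : Bool) : Fml p V → Fml p V
  | bin c' a b => if Wide w (bin c' a b) then
      (if c' = c then bin c (fr w c a) (fr w c b) else cst (!c)) else bin c' a b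
  | var x => var x
  | cst b => cst b
  | neg a => if Wide w (neg a) then cst (!c) else neg a
  | mod i k f => if Wide w (mod i k f) then cst (!c) else mod i k f

lemma fr_narrow {w : ℕ} {c : Bool} {a : Fml p V} (h : ¬ Wide w a) : fr w c a = a := by
  cases a <;> simp_all [fr]

lemma not_wide_fr (w : ℕ) (c : Bool) (a : Fml p V) : ¬ Wide w (fr w c a) := by
  induction a with
  | var x => simp [fr, Wide]
  | cst b => simp [fr, Wide]
  | neg a ih =>
    simp only [fr]
    split_ifs with h
    · simp [Wide]
    · exact h
  | bin c' a b iha ihb =>
    simp only [fr]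
    split_ifs with h h'
    · simp only [Wide, not_or]; exact ⟨iha, ihb⟩
    · simp [Wide]
    · exact h
  | mod i k f ih =>
    simp only [fr]
    split_ifs with h
    · simp [Wide]
    · exact h

lemma dpt_le (r : Option (Option Bool)) (a : Fml p V) : dpt none a ≤ dpt r a + 1 := by
  cases a with
  | var _ => simp [dpt]
  | cst _ => simp [dpt]
  | neg a => simp only [dpt]; split_ifs <;> simp_all <;> omega
  | bin c a b => simp only [dpt]; split_ifs <;> simp_all <;> omega
  | mod i k f => simp [dpt]

lemma dpt_none_ge (r : Option (Option Bool)) (a : Fml p V) : dpt r a ≤ dpt none a := by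
  cases a with
  | var _ => simp [dpt]
  | cst _ => simp [dpt]
  | neg a => simp only [dpt]; split_ifs <;> simp_all
  | bin c a b => simp only [dpt]; split_ifs <;> simp_all
  | mod i k f => simp [dpt]

lemma lv_le_dpt (a : Fml p V) : lv none a ≤ dpt none a ∧
    ∀ c, lv (some c) a ≤ dpt (some (some c)) a := by
  induction a with
  | var _ => simp [dpt, lv]
  | cst _ => simp [dpt, lv]
  | neg a ih =>
    have := dpt_le (some none) a
    simp only [lv, dpt]
    refine ⟨?_, fun c => ?_⟩
    · have h : ¬ ((none : Option (Option Bool)) = some none) := by simp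
      rw [if_neg h]; omega
    · have h : ¬ ((some (some c) : Option (Option Bool)) = some none) := by simp
      rw [if_neg h]; omega
  | bin c a b iha ihb =>
    simp only [lv, dpt]
    refine ⟨?_, fun e => ?_⟩
    · have h1 := iha.2 c
      have h2 := ihb.2 c
      simp
      omega
    · have h1 := iha.2 c
      have h2 := ihb.2 c
      by_cases h : e = c
      · subst h; simp; omega
      · have h' : ¬ ((some e : Option Bool) = some c) := by simpa using h
        have h'' : ¬ ((some (some e) : Option (Option Bool)) = some (some c)) := by simpa using h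
        rw [if_neg h', if_neg h'']; omega
  | mod i k f ih =>
    have h : (univ.sup fun j => lv none (f j)) ≤ univ.sup fun j => dpt none (f j) :=
      Finset.sup_mono_fun fun j _ => (ih j).1
    simp only [lv, dpt]
    exact ⟨by omega, fun c => by omega⟩

lemma lv_fr (w : ℕ) (c : Bool) (a : Fml p V) : lv none (fr w c a) ≤ lv none a ∧
    lv (some c) (fr w c a) ≤ lv (some c) a := by
  induction a with
  | var _ => simp [fr]
  | cst _ => simp [fr]
  | neg a ih =>
    simp only [fr]
    split_ifs
    · simp [lv]
    · exact ⟨le_rfl, le_rfl⟩
  | bin c' a b iha ihb =>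
    simp only [fr]
    split_ifs with h h'
    · subst h'
      simp only [lv]
      have h1 := iha.2
      have h2 := ihb.2
      constructor
      · simp; omega
      · simp; omega
    · simp [lv]
    · exact ⟨le_rfl, le_rfl⟩
  | mod i k f ih =>
    simp only [fr]
    split_ifs
    · simp [lv]
    · exact ⟨le_rfl, le_rfl⟩

open Classical in
/-- values of arbitrary formulas, given the values `nv` of the narrow ones; the second component
tells whether some wide argument of the formula (regarded as a `bin c`) has the value `c` -/
noncomputable def mv {Y : Type} (w : ℕ) (nv : Fml p V → Y → Bool) :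
    Fml p V → (Y → Bool) × (Bool → Y → Bool)
  | var x => (nv (var x), fun _ _ => false)
  | cst b => (nv (cst b), fun _ _ => false)
  | neg a => if Wide w (neg a) then
      (fun y => !(mv w nv a).1 y, fun c y => (!(mv w nv a).1 y) == c)
      else (nv (neg a), fun _ _ => false)
  | bin c a b => if Wide w (bin c a b) then
      (fun y => if (nv (fr w c (bin c a b)) y == c) || ((mv w nv a).2 c y || (mv w nv b).2 c y)
        then c else !c,
       fun e y => if e = c then ((mv w nv a).2 c y || (mv w nv b).2 c y)
        else (if (nv (fr w c (bin c a b)) y == c) || ((mv w nv a).2 c y || (mv w nv b).2 c y)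
        then c else !c) == e)
      else (nv (bin c a b), fun _ _ => false)
  | mod i k f => if Wide w (mod i k f) then
      (fun y => decide ((∑ j, if (mv w nv (f j)).1 y then (1 : ZMod p) else 0) = i),
       fun e y => decide ((∑ j, if (mv w nv (f j)).1 y then (1 : ZMod p) else 0) = i) == e)
      else (nv (mod i k f), fun _ _ => false)

variable {Y : Type} {w : ℕ} {nv : Fml p V → Y → Bool}

lemma mv_narrow {a : Fml p V} (h : ¬ Wide w a) :
    (mv w nv a).1 = nv a ∧ (mv w nv a).2 = fun _ _ => false := by
  cases a with
  | var x => exact ⟨rfl, rfl⟩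
  | cst b => exact ⟨rfl, rfl⟩
  | neg a => simp only [mv, if_neg h]; exact ⟨trivial, trivial⟩
  | bin c a b => simp only [mv, if_neg h]; exact ⟨trivial, trivial⟩
  | mod i k f => simp only [mv, if_neg h]; exact ⟨trivial, trivial⟩

/-- relation between the value, the narrow part and the wide arguments -/
lemma mv_split (hc : ∀ b y, nv (cst b) y = b) (a : Fml p V) (c : Bool) (y : Y) :
    (mv w nv a).1 y = c ↔ (nv (fr w c a) y = c ∨ (mv w nv a).2 c y = true) := by
  by_cases hw : Wide w a
  · cases a with
    | var x => exact absurd hw (by simp [Wide])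
    | cst b => exact absurd hw (by simp [Wide])
    | neg a =>
      simp only [mv, if_pos hw, fr, hc]
      cases c <;> simp
    | mod i k f =>
      simp only [mv, if_pos hw, fr, hc]
      cases c <;> simp
    | bin c' a b =>
      by_cases hcc : c' = c
      · subst hcc
        simp only [mv, if_pos hw, if_true]
        cases c' <;> cases nv (fr w _ (bin _ a b)) y <;> cases (mv w nv a).2 _ y <;>
          cases (mv w nv b).2 _ y <;> simp
      · have h1 : fr w c (bin c' a b) = cst (!c) := by
          simp only [fr, if_pos hw, if_neg hcc]
        have h2 : ¬ (c = c') := fun h => hcc h.symm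
        rw [h1, hc]
        simp only [mv, if_pos hw, if_neg h2]
        cases c <;> simp
  · obtain ⟨h1, h2⟩ := mv_narrow (nv := nv) hw
    rw [h1, h2, fr_narrow hw]
    simp

/-- truth table of a wide `bin` -/
lemma mv_bin (hc : ∀ b y, nv (cst b) y = b) {c : Bool} {a b : Fml p V} {y : Y}
    (hw : Wide w (bin c a b))
    (hn : nv (bin c (fr w c a) (fr w c b)) y =
      if c then (nv (fr w c a) y || nv (fr w c b) y) else (nv (fr w c a) y && nv (fr w c b) y)) :
    (mv w nv (bin c a b)).1 y =
      if c then ((mv w nv a).1 y || (mv w nv b).1 y) else ((mv w nv a).1 y && (mv w nv b).1 y) := by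
  have h1 := mv_split (w := w) hc a c y
  have h2 := mv_split (w := w) hc b c y
  have hfr : fr w c (bin c a b) = bin c (fr w c a) (fr w c b) := by
    simp only [fr, if_pos hw, if_true]
  simp only [mv, if_pos hw]
  rw [hfr, hn]
  generalize (mv w nv a).1 y = x1 at *
  generalize (mv w nv b).1 y = x2 at *
  generalize (mv w nv a).2 c y = z1 at *
  generalize (mv w nv b).2 c y = z2 at *
  generalize nv (fr w c a) y = n1 at *
  generalize nv (fr w c b) y = n2 at *
  clear hn hfr hw
  revert h1 h2
  revert c x1 x2 z1 z2 n1 n2
  decide

lemma mv_mod {i : ZMod p} {k : ℕ} {f : Fin k → Fml p V} {y : Y} (hw : Wide w (mod i k f)) :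
    (mv w nv (mod i k f)).1 y =
      decide ((∑ j, if (mv w nv (f j)).1 y then (1 : ZMod p) else 0) = i) := by
  simp only [mv, if_pos hw]

lemma mv_neg {a : Fml p V} {y : Y} (hw : Wide w (neg a)) :
    (mv w nv (neg a)).1 y = !(mv w nv a).1 y := by
  simp only [mv, if_pos hw]

end Fr

end Pool.Agent.Work.MP_c04246_lc
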