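import Mathlib
import Pool.Agent.Work.MP_c04246_lc.Mixed

set_option autoImplicit false
set_option linter.unusedSectionVars false
set_option linter.unusedSimpArgs false
set_option linter.unusedVariables false

namespace Pool.Agent.Work.MP_c04246_lc

open Finset Fml

section Deg

variable {p q t : ℕ} [NeZero q] {K : Type} [Field K] {ψ : AddChar (ZMod q) K}

lemma bF_apply (v : Flow q t → Bool) (y : Flow q t) : bF K v y = if v y = true then 1 else 0 := rfl

lemma Deg.bF_not {D : ℕ} {v : Flow q t → Bool} (h : Deg ψ D (bF K v)) :
    Deg ψ D (bF K fun y => !v y) := by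
  have : bF K (fun y => !v y) = 1 - bF K v := by
    funext y
    rw [bF_apply, Pi.sub_apply, Pi.one_apply, bF_apply]
    by_cases h : v y = true <;> simp [h]
  rw [this]
  exact Deg.one.sub h

lemma Deg.bF_beq {D : ℕ} {v : Flow q t → Bool} (h : Deg ψ D (bF K v)) (e : Bool) :
    Deg ψ D (bF K fun y => v y == e) := by
  cases e with
  | true =>
    have : (fun y => v y == true) = v := by funext y; cases v y <;> rfl
    rw [this]; exact h
  | false =>
    have : (fun y => v y == false) = fun y => !v y := by funext y; cases v y <;> rfl
    rw [this]; exact h.bF_not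

lemma Deg.bF_or {D D' : ℕ} {v v' : Flow q t → Bool} (h : Deg ψ D (bF K v))
    (h' : Deg ψ D' (bF K v')) : Deg ψ (D + D') (bF K fun y => v y || v' y) := by
  have : bF K (fun y => v y || v' y) = 1 - (1 - bF K v) * (1 - bF K v') := by
    funext y
    rw [bF_apply, Pi.sub_apply, Pi.one_apply, Pi.mul_apply, Pi.sub_apply, Pi.sub_apply,
      Pi.one_apply, bF_apply, bF_apply]
    by_cases h : v y = true <;> by_cases h' : v' y = true <;> simp [h, h']
  rw [this]
  exact Deg.one.sub ((Deg.one.sub h).mul (Deg.one.sub h'))

/-- counting gates have small degree in characteristic `p` -/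
lemma Deg.bF_mod [Fact p.Prime] [CharP K p] {D : ℕ} {i : ZMod p} {k : ℕ}
    {v : Fin k → Flow q t → Bool} (h : ∀ j, Deg ψ D (bF K (v j))) :
    Deg ψ (p * D) (bF K fun y => decide ((∑ j, if v j y then (1 : ZMod p) else 0) = i)) := by
  have hp : 1 < p := (Fact.out : p.Prime).one_lt
  have key : (bF K fun y => decide ((∑ j, if v j y then (1 : ZMod p) else 0) = i)) =
      1 - ((∑ j, bF K (v j)) - fun _ => ZMod.castHom (dvd_refl p) K i) ^ (p - 1) := by
    funext y
    rw [bF_apply]
    simp only [Pi.sub_apply, Pi.one_apply, Pi.pow_apply, Finset.sum_apply, bF_apply,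
      decide_eq_true_eq]
    have h1 : (∑ j, if v j y = true then (1 : K) else 0) - ZMod.castHom (dvd_refl p) K i =
        ZMod.castHom (dvd_refl p) K ((∑ j, if v j y = true then (1 : ZMod p) else 0) - i) := by
      rw [map_sub, map_sum]
      congr 1
      refine sum_congr rfl fun j _ => ?_
      split_ifs <;> simp
    rw [h1, ← map_pow]
    by_cases h2 : (∑ j, if v j y = true then (1 : ZMod p) else 0) = i
    · rw [if_pos h2, h2, sub_self, zero_pow (by omega), map_zero, sub_zero]
    · rw [ZMod.pow_card_sub_one_eq_one (sub_ne_zero.mpr h2), if_neg h2, map_one, sub_self]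
  rw [key]
  refine Deg.one.sub (Deg.mono ?_ (Deg.pow ((Deg.sum _ _ fun j _ => h j).sub (Deg.const _)) _))
  exact Nat.mul_le_mul_right _ (by omega)

variable {V : Type}

lemma subs_self (a : Fml p V) : a ∈ subs a := by
  classical
  cases a <;> simp [subs]

lemma subs_trans (a : Fml p V) : ∀ b ∈ subs a, subs b ⊆ subs a := by
  classical
  induction a with
  | var x => intro b hb; simp only [subs, mem_singleton] at hb; subst hb; exact Subset.rfl
  | cst x => intro b hb; simp only [subs, mem_singleton] at hb; subst hb; exact Subset.rfl
  | neg a ih =>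
    intro b hb
    simp only [subs, mem_insert] at hb
    rcases hb with rfl | hb
    · exact Subset.rfl
    · exact (ih b hb).trans (by simp only [subs]; exact subset_insert _ _)
  | bin c a b iha ihb =>
    intro x hx
    simp only [subs, mem_insert, mem_union] at hx
    rcases hx with rfl | hx | hx
    · exact Subset.rfl
    · refine (iha x hx).trans ?_
      intro y hy; simp only [subs, mem_insert, mem_union]; exact Or.inr (Or.inl hy)
    · refine (ihb x hx).trans ?_
      intro y hy; simp only [subs, mem_insert, mem_union]; exact Or.inr (Or.inr hy)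
  | mod i k f ih =>
    intro x hx
    simp only [subs, mem_insert, mem_biUnion, mem_univ, true_and] at hx
    rcases hx with rfl | ⟨j, hx⟩
    · exact Subset.rfl
    · refine (ih j x hx).trans ?_
      intro y hy; simp only [subs, mem_insert, mem_biUnion, mem_univ, true_and]
      exact Or.inr ⟨j, hy⟩

lemma subs_neg (a : Fml p V) : subs a ⊆ subs (neg a) := by
  classical
  simp only [subs]; exact subset_insert _ _

lemma subs_bin_l (c : Bool) (a b : Fml p V) : subs a ⊆ subs (bin c a b) := by
  intro y hy; simp only [subs, mem_insert, mem_union]; exact Or.inr (Or.inl hy)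

lemma subs_bin_r (c : Bool) (a b : Fml p V) : subs b ⊆ subs (bin c a b) := by
  intro y hy; simp only [subs, mem_insert, mem_union]; exact Or.inr (Or.inr hy)

lemma subs_mod (i : ZMod p) (k : ℕ) (f : Fin k → Fml p V) (j : Fin k) :
    subs (f j) ⊆ subs (mod i k f) := by
  intro y hy; simp only [subs, mem_insert, mem_biUnion, mem_univ, true_and]; exact Or.inr ⟨j, hy⟩

lemma card_subs (a : Fml p V) : (subs a).card ≤ size a := by
  classical
  induction a with
  | var x => simp [subs, size]
  | cst x => simp [subs, size]
  | neg a ih => simp only [subs, size]; exact (card_insert_le _ _).trans (by omega)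
  | bin c a b iha ihb =>
    simp only [subs, size]
    exact (card_insert_le _ _).trans (Nat.succ_le_succ ((card_union_le _ _).trans (by omega)))
  | mod i k f ih =>
    simp only [subs, size]
    refine (card_insert_le _ _).trans (Nat.succ_le_succ (card_biUnion_le.trans ?_))
    exact sum_le_sum fun j _ => ih j

/-- subformulas do not have larger depth -/
lemma dpt_subs (a : Fml p V) : ∀ b ∈ subs a, dpt none b ≤ dpt none a := by
  induction a with
  | var x => intro b hb; simp only [subs, mem_singleton] at hb; subst hb; exact le_rfl
  | cst x => intro b hb; simp only [subs, mem_singleton] at hb; subst hb; exact le_rfl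
  | neg a ih =>
    intro b hb
    simp only [subs, mem_insert] at hb
    rcases hb with rfl | hb
    · exact le_rfl
    · have h1 := ih b hb
      have h2 := dpt_le (some none) a
      have h3 : dpt none (neg a) = 1 + dpt (some none) a := by simp [dpt]
      omega
  | bin c a b iha ihb =>
    intro x hx
    simp only [subs, mem_insert, mem_union] at hx
    have h3 : dpt none (bin c a b) = 1 + max (dpt (some (some c)) a) (dpt (some (some c)) b) := by
      simp [dpt]
    rcases hx with rfl | hx | hx
    · exact le_rfl
    · have h1 := iha x hx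
      have h2 := dpt_le (some (some c)) a
      omega
    · have h1 := ihb x hx
      have h2 := dpt_le (some (some c)) b
      omega
  | mod i k f ih =>
    intro x hx
    simp only [subs, mem_insert, mem_biUnion, mem_univ, true_and] at hx
    rcases hx with rfl | ⟨j, hx⟩
    · exact le_rfl
    · have h1 := ih j x hx
      have h2 : dpt none (f j) ≤ univ.sup fun j => dpt none (f j) :=
        le_sup (f := fun j => dpt none (f j)) (mem_univ j)
      simp only [dpt] at h2 ⊢
      omega

lemma lv_subs (a : Fml p V) : ∀ b ∈ subs a, lv none b ≤ dpt none a := fun b hb =>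
  ((lv_le_dpt b).1).trans (dpt_subs a b hb)

lemma Thin_subs {w : ℕ} (a : Fml p V) (h : Thin w a) : ∀ b ∈ subs a, Thin w b := by
  induction a with
  | var x => intro b hb; simp only [subs, mem_singleton] at hb; subst hb; exact h
  | cst x => intro b hb; simp only [subs, mem_singleton] at hb; subst hb; exact h
  | neg a ih =>
    intro b hb
    simp only [subs, mem_insert] at hb
    rcases hb with rfl | hb
    · exact h
    · exact ih h b hb
  | bin c a b iha ihb =>
    intro x hx
    simp only [subs, mem_insert, mem_union] at hx
    rcases hx with rfl | hx | hx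
    · exact h
    · exact iha h.2.1 x hx
    · exact ihb h.2.2 x hx
  | mod i k f ih =>
    intro x hx
    simp only [subs, mem_insert, mem_biUnion, mem_univ, true_and] at hx
    rcases hx with rfl | ⟨j, hx⟩
    · exact h
    · exact ih j (h j) x hx

/-- degree of the values of thin formulas -/
lemma deg_mv [Fact p.Prime] [CharP K p] {w M0 R : ℕ} {nv : Fml p V → Flow q t → Bool}
    (hR : w + 1 ≤ R) (hRp : p ≤ R) (a : Fml p V) :
    Thin w a → (∀ b ∈ subs a, ∀ c, Deg ψ M0 (bF K (nv (fr w c b)))) →
    Deg ψ (M0 * R ^ dpt none a) (bF K (mv w nv a).1) ∧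
    ∀ e, Deg ψ (wargs w e a * (M0 * R ^ dpt (some (some e)) a)) (bF K ((mv w nv a).2 e)) := by
  have hR1 : 1 ≤ R := by omega
  have hle : ∀ {i j : ℕ}, i ≤ j → M0 * R ^ i ≤ M0 * R ^ j := fun h =>
    Nat.mul_le_mul_left _ (Nat.pow_le_pow_right hR1 h)
  -- narrow formulas
  have hnar : ∀ a : Fml p V, ¬ Wide w a → (∀ b ∈ subs a, ∀ c, Deg ψ M0 (bF K (nv (fr w c b)))) →
      Deg ψ (M0 * R ^ dpt none a) (bF K (mv w nv a).1) ∧
      ∀ e, Deg ψ (wargs w e a * (M0 * R ^ dpt (some (some e)) a)) (bF K ((mv w nv a).2 e)) := by
    intro a hw hN
    obtain ⟨h1, h2⟩ := mv_narrow (nv := nv) hw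
    rw [h1, h2]
    constructor
    · have := hN a (subs_self a) true
      rw [fr_narrow hw] at this
      exact this.mono (by simpa using hle (Nat.zero_le (dpt none a)))
    · intro e
      have : bF K (fun _ : Flow q t => false) = 0 := by funext y; simp [bF]
      rw [this]; exact Deg.zero
  induction a with
  | var x => intro _ hN; exact hnar _ (by simp [Wide]) hN
  | cst x => intro _ hN; exact hnar _ (by simp [Wide]) hN
  | neg a ih =>
    intro hT hN
    by_cases hw : Wide w (neg a)
    · obtain ⟨h1, _⟩ := ih hT (fun b hb => hN b (subs_neg a hb))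
      have hd : ∀ r, r ≠ some none → dpt none a ≤ dpt r (neg a) := by
        intro r hr
        simp only [dpt, if_neg hr]
        have := dpt_le (some none) a
        omega
      simp only [mv, if_pos hw]
      refine ⟨h1.bF_not.mono (hle (hd _ (by simp))), fun e => ?_⟩
      have hwa : wargs w e (neg a) = 1 := by simp only [wargs, if_pos hw]
      rw [hwa, one_mul]
      exact (h1.bF_not.bF_beq e).mono (hle (hd _ (by simp)))
    · exact hnar _ hw hN
  | bin c a b iha ihb =>
    intro hT hN
    by_cases hw : Wide w (bin c a b)
    · obtain ⟨_, ha⟩ := iha hT.2.1 (fun b hb => hN b (subs_bin_l c _ _ hb))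
      obtain ⟨_, hb⟩ := ihb hT.2.2 (fun b hb => hN b (subs_bin_r c _ _ hb))
      have hwT : wargs w c (bin c a b) ≤ w := hT.1
      have hwa : wargs w c (bin c a b) = wargs w c a + wargs w c b := by
        simp only [wargs, if_true]
      have hdc : dpt (some (some c)) (bin c a b) =
          max (dpt (some (some c)) a) (dpt (some (some c)) b) := by simp [dpt]
      have hdn : ∀ r, r ≠ some (some c) →
          dpt r (bin c a b) = 1 + dpt (some (some c)) (bin c a b) := by
        intro r hr
        rw [hdc]; simp only [dpt, if_neg hr]
      -- the wide part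
      have hZ : Deg ψ (wargs w c (bin c a b) * (M0 * R ^ dpt (some (some c)) (bin c a b)))
          (bF K fun y => (mv w nv a).2 c y || (mv w nv b).2 c y) := by
        refine ((ha c).bF_or (hb c)).mono ?_
        rw [hwa, add_mul]
        refine add_le_add (Nat.mul_le_mul_left _ (hle ?_)) (Nat.mul_le_mul_left _ (hle ?_))
        · rw [hdc]; exact le_max_left _ _
        · rw [hdc]; exact le_max_right _ _
      -- the value
      have hV : Deg ψ (M0 * R ^ dpt none (bin c a b)) (bF K fun y =>
          if (nv (fr w c (bin c a b)) y == c) || ((mv w nv a).2 c y || (mv w nv b).2 c y)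
            then c else !c) := by
        have h1 := ((hN _ (subs_self _) c).bF_beq c).bF_or hZ
        have h2 : Deg ψ (M0 * R ^ dpt none (bin c a b)) (bF K fun y =>
          ((nv (fr w c (bin c a b)) y == c) || ((mv w nv a).2 c y || (mv w nv b).2 c y))) := by
          refine h1.mono ?_
          rw [hdn none (by simp), pow_add, pow_one]
          have h3 : M0 ≤ M0 * R ^ dpt (some (some c)) (bin c a b) := by
            simpa using hle (Nat.zero_le (dpt (some (some c)) (bin c a b)))
          calc M0 + wargs w c (bin c a b) * (M0 * R ^ dpt (some (some c)) (bin c a b))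
              ≤ M0 * R ^ dpt (some (some c)) (bin c a b) +
                w * (M0 * R ^ dpt (some (some c)) (bin c a b)) :=
                add_le_add h3 (Nat.mul_le_mul_right _ hwT)
            _ = (w + 1) * (M0 * R ^ dpt (some (some c)) (bin c a b)) := by ring
            _ ≤ R * (M0 * R ^ dpt (some (some c)) (bin c a b)) := Nat.mul_le_mul_right _ hR
            _ = M0 * (R * R ^ dpt (some (some c)) (bin c a b)) := by ring
        have h4 := h2.bF_beq c
        have h5 : (fun y => ((nv (fr w c (bin c a b)) y == c) ||
            ((mv w nv a).2 c y || (mv w nv b).2 c y)) == c) = fun y =>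
          if (nv (fr w c (bin c a b)) y == c) || ((mv w nv a).2 c y || (mv w nv b).2 c y)
            then c else !c := by
          funext y
          generalize ((nv (fr w c (bin c a b)) y == c) ||
            ((mv w nv a).2 c y || (mv w nv b).2 c y)) = z
          cases z <;> cases c <;> rfl
        rw [h5] at h4
        exact h4
      simp only [mv, if_pos hw]
      refine ⟨hV, fun e => ?_⟩
      by_cases he : e = c
      · subst he
        simp only [if_true]
        exact hZ
      · simp only [if_neg he]
        have hwe : wargs w e (bin c a b) = 1 := by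
          have : ¬ (c = e) := fun h => he h.symm
          simp only [wargs, if_neg this, if_pos hw]
        rw [hwe, one_mul]
        refine (hV.bF_beq e).mono (hle ?_)
        have h7 := hdn none (by simp)
        have h8 := hdn (some (some e)) (by simpa using he)
        omega
    · exact hnar _ hw hN
  | mod i k f ih =>
    intro hT hN
    by_cases hw : Wide w (mod i k f)
    · have h1 : ∀ j, Deg ψ (M0 * R ^ (univ.sup fun j => dpt none (f j)))
          (bF K (mv w nv (f j)).1) := fun j =>
        (ih j (hT j) (fun b hb => hN b (subs_mod i k f j hb))).1.mono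
          (hle (le_sup (f := fun j => dpt none (f j)) (mem_univ j)))
      have h2 := Deg.bF_mod (p := p) (i := i) h1
      have h3 : ∀ r, p * (M0 * R ^ (univ.sup fun j => dpt none (f j))) ≤
          M0 * R ^ dpt r (mod i k f) := by
        intro r
        simp only [dpt]
        rw [pow_add, pow_one]
        calc p * (M0 * R ^ (univ.sup fun j => dpt none (f j)))
            ≤ R * (M0 * R ^ (univ.sup fun j => dpt none (f j))) := Nat.mul_le_mul_right _ hRp
          _ = _ := by ring
      simp only [mv, if_pos hw]
      refine ⟨h2.mono (h3 _), fun e => ?_⟩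
      have hwe : wargs w e (mod i k f) = 1 := by simp only [wargs, if_pos hw]
      rw [hwe, one_mul]
      exact (h2.bF_beq e).mono (h3 _)
    · exact hnar _ hw hN

end Deg

end Pool.Agent.Work.MP_c04246_lc
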