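import Mathlib
import Pool.Agent.Work.MP_c04246_lc.Degrees

set_option autoImplicit false
set_option linter.unusedSectionVars false
set_option linter.unusedSimpArgs false
set_option linter.unusedVariables false

namespace Pool.Agent.Work.MP_c04246_lc

open Finset Fml

section Need

variable {p q : ℕ} {U : Type} [DecidableEq U]

open Classical in
/-- narrow formulas on which the truth-table condition of a formula depends -/
noncomputable def need {V : Type} (w : ℕ) : Fml p V → Finset (Fml p V)
  | var _ => ∅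
  | cst _ => ∅
  | neg a => if Wide w (neg a) then ∅ else {neg a, a}
  | bin c a b => {fr w c (bin c a b), fr w c a, fr w c b}
  | mod i k f => if Wide w (mod i k f) then ∅ else insert (mod i k f) (univ.image f)

lemma card_need {V : Type} (w : ℕ) (a : Fml p V) : (need w a).card ≤ w + 3 := by
  classical
  cases a with
  | var x => simp [need]
  | cst x => simp [need]
  | neg a =>
    simp only [need]
    split_ifs
    · simp
    · exact (card_le_two).trans (by omega)
  | bin c a b =>
    simp only [need]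
    exact (card_le_three).trans (by omega)
  | mod i k f =>
    simp only [need]
    split_ifs with h
    · simp
    · have hk : k ≤ w := by
        by_contra hk
        exact h (Or.inl (by omega))
      have h1 := card_image_le (s := (univ : Finset (Fin k))) (f := f)
      rw [card_univ, Fintype.card_fin] at h1
      exact (card_insert_le _ _).trans (by omega)

/-- all needed formulas are narrow parts of subformulas -/
lemma need_sub {V : Type} (w : ℕ) (a : Fml p V) : ∀ b ∈ need w a, ∃ x ∈ subs a, ∃ c, b = fr w c x := by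
  classical
  intro b hb
  cases a with
  | var x => simp [need] at hb
  | cst x => simp [need] at hb
  | neg a =>
    simp only [need] at hb
    split_ifs at hb with h
    · exact absurd hb (notMem_empty _)
    · simp only [mem_insert, mem_singleton] at hb
      have h' : ¬ Wide w a := h
      rcases hb with rfl | rfl
      · exact ⟨_, subs_self _, true, (fr_narrow h).symm⟩
      · exact ⟨_, subs_neg _ (subs_self _), true, (fr_narrow h').symm⟩
  | bin c a b =>
    simp only [need, mem_insert, mem_singleton] at hb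
    rcases hb with rfl | rfl | rfl
    · exact ⟨_, subs_self _, c, rfl⟩
    · exact ⟨_, subs_bin_l _ _ _ (subs_self _), c, rfl⟩
    · exact ⟨_, subs_bin_r _ _ _ (subs_self _), c, rfl⟩
  | mod i k f =>
    simp only [need] at hb
    split_ifs at hb with h
    · exact absurd hb (notMem_empty _)
    · simp only [mem_insert, mem_image, mem_univ, true_and] at hb
      rcases hb with rfl | ⟨j, rfl⟩
      · exact ⟨_, subs_self _, true, (fr_narrow h).symm⟩
      · exact ⟨_, subs_mod _ _ _ j (subs_self _), true, (fr_narrow (fun h' => h (Or.inr ⟨j, h'⟩))).symm⟩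

variable {ρ : ℕ → Finset (Finset U)} {κ : ℕ → ℕ}

lemma resp_of_need (hq : 0 < q) {Y : Type} {w : ℕ} {nv : Fml p (Vr q U) → Y → Bool}
    (hc : ∀ b y, nv (cst b) y = b) {m : Finset (Finset U)} (hm : PP q m) {y : Y}
    (a : Fml p (Vr q U)) (hV : ∀ b ∈ need w a, Vd q ρ κ b (nv b y) m) :
    Resp (fun φ => (mv w nv φ).1 y) a := by
  classical
  cases a with
  | var x => trivial
  | cst b =>
    show (mv w nv (cst b)).1 y = b
    exact hc b y
  | neg a =>
    show (mv w nv (neg a)).1 y = !(mv w nv a).1 y
    by_cases hw : Wide w (neg a)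
    · exact mv_neg hw
    · have h1 : (mv w nv (neg a)).1 = nv (neg a) := (mv_narrow hw).1
      have h2 : (mv w nv a).1 = nv a := (mv_narrow (show ¬ Wide w a from hw)).1
      rw [h1, h2]
      have h3 : Vd q ρ κ (neg a) (nv (neg a) y) m := hV _ (by simp [need, hw])
      have h4 : Vd q ρ κ a (nv a y) m := hV _ (by simp [need, hw])
      rw [Vd_neg] at h3
      have h5 := Vd_unique hq hm h3 h4
      rw [← h5, Bool.not_not]
  | bin c a b =>
    show (mv w nv (bin c a b)).1 y = if c then ((mv w nv a).1 y || (mv w nv b).1 y)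
      else ((mv w nv a).1 y && (mv w nv b).1 y)
    have hfr : fr w c (bin c a b) = bin c (fr w c a) (fr w c b) := by
      by_cases hw : Wide w (bin c a b)
      · simp only [fr, if_pos hw, if_true]
      · have ha : ¬ Wide w a := fun h => hw (Or.inl h)
        have hb : ¬ Wide w b := fun h => hw (Or.inr h)
        rw [fr_narrow hw, fr_narrow ha, fr_narrow hb]
    have h1 : Vd q ρ κ (bin c (fr w c a) (fr w c b)) (nv (bin c (fr w c a) (fr w c b)) y) m := by
      rw [← hfr]; exact hV _ (by simp [need])
    have h2 : Vd q ρ κ (fr w c a) (nv (fr w c a) y) m := hV _ (by simp [need])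
    have h3 : Vd q ρ κ (fr w c b) (nv (fr w c b) y) m := hV _ (by simp [need])
    have h4 := Vd_bin hq hm h1 h2 h3
    by_cases hw : Wide w (bin c a b)
    · exact mv_bin hc hw h4
    · have ha : ¬ Wide w a := fun h => hw (Or.inl h)
      have hb : ¬ Wide w b := fun h => hw (Or.inr h)
      rw [(mv_narrow hw).1, (mv_narrow ha).1, (mv_narrow hb).1]
      rw [fr_narrow ha, fr_narrow hb] at h4
      exact h4
  | mod i k f =>
    show (mv w nv (mod i k f)).1 y =
      decide ((∑ j, if (mv w nv (f j)).1 y then (1 : ZMod p) else 0) = i)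
    by_cases hw : Wide w (mod i k f)
    · exact mv_mod hw
    · have hj : ∀ j, (mv w nv (f j)).1 = nv (f j) := fun j =>
        (mv_narrow (fun h => hw (Or.inr ⟨j, h⟩))).1
      simp only [hj]
      rw [(mv_narrow hw).1]
      have h1 : Vd q ρ κ (mod i k f) (nv (mod i k f) y) m := hV _ (by simp [need, hw])
      have h2 : ∀ j, Vd q ρ κ (f j) (nv (f j) y) m := fun j => hV _ (by simp [need, hw])
      exact Vd_mod hq hm h1 h2

end Need

section Lines

variable {p q t : ℕ} [NeZero q] {K : Type} [Field K] {ψ : AddChar (ZMod q) K}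
  {c : Fin t → ZMod q} {U : Type} [DecidableEq U] [Fintype U]
  {ρ : ℕ → Finset (Finset U)} {κ : ℕ → ℕ}

lemma lines_Zr (hψ : ψ.IsPrimitive) (hqK : (q : K) ≠ 0) (hq : 0 < q) {B M : ℕ}
    (hB : 8 * B < t * t) {m : Flow q t → Finset (Finset U)} (hm : ∀ y, PP q (m y)) {w : ℕ}
    {Γ : Finset (Fml p (Vr q U))} {nv : Fml p (Vr q U) → Flow q t → Bool}
    {s : Fml p (Vr q U) → Flow q t → K} (hc : ∀ b y, nv (cst b) y = b)
    (hsD : ∀ b ∈ Γ, Deg ψ M (s b)) (hsZ : ∀ b ∈ Γ, Zr ψ c B (s b))
    (hs01 : ∀ b ∈ Γ, ∀ y, s b y = 0 ∨ s b y = 1)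
    (hV : ∀ b ∈ Γ, ∀ y, s b y = 0 → Vd q ρ κ b (nv b y) (m y))
    {L : ℕ} {pi : List (Fml p (Vr q U))} (hpi : IsProof L pi)
    (hΓ : ∀ a ∈ pi, ∀ b ∈ subs a, need w b ⊆ Γ)
    (hdeg : ∀ a ∈ pi, Deg ψ M (bF K (mv w nv a).1))
    (hbound : (L * (w + 3) + L + 1) * M ≤ B) :
    ∀ a ∈ pi, Zr ψ c B (1 - bF K (mv w nv a).1) := by
  classical
  have main : ∀ (n : ℕ) (i : Fin pi.length), i.val = n →
      Zr ψ c B (1 - bF K (mv w nv (pi.get i)).1) := by
    intro n
    induction n using Nat.strong_induction_on with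
    | _ n ih =>
      intro i hi
      obtain ⟨P, hP, hPc, C, hCc, hCs, himp⟩ := hpi i
      have hPpi : ∀ b ∈ P, b ∈ pi := by
        intro b hb
        obtain ⟨j, _, hj⟩ := hP b hb
        rw [← hj]; exact List.get_mem _ _
      have hPZ : ∀ b ∈ P, Zr ψ c B (1 - bF K (mv w nv b).1) := by
        intro b hb
        obtain ⟨j, hji, hj⟩ := hP b hb
        have := ih j.val (by rw [← hi]; exact hji) j rfl
        rw [hj] at this; exact this
      have hneed : ∀ c' ∈ C, need w c' ⊆ Γ := by
        intro c' hc'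
        rcases hCs c' hc' with h | ⟨b, hb, h⟩
        · exact hΓ _ (List.get_mem _ _) _ h
        · exact hΓ b (hPpi b hb) _ h
      have hbi : ∀ b ∈ C.biUnion (need w), b ∈ Γ := by
        intro b hb
        obtain ⟨c', hc', hb'⟩ := mem_biUnion.mp hb
        exact hneed c' hc' hb'
      refine Zr.of_pointwise hψ hqK hB (P.disjSum (C.biUnion (need w)))
        (Sum.elim (fun b => 1 - bF K (mv w nv b).1) s) (M := M) ?_ ?_ ?_ ?_ ?_ ?_
      · rintro (b | b) hb
        · rw [inl_mem_disjSum] at hb
          exact Deg.one.sub (hdeg b (hPpi b hb))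
        · rw [inr_mem_disjSum] at hb
          exact hsD b (hbi b hb)
      · rintro (b | b) hb
        · rw [inl_mem_disjSum] at hb
          exact hPZ b hb
        · rw [inr_mem_disjSum] at hb
          exact hsZ b (hbi b hb)
      · rintro (b | b) hb y
        · simp only [Sum.elim_inl, Pi.sub_apply, Pi.one_apply, bF_apply]
          split_ifs <;> simp
        · rw [inr_mem_disjSum] at hb
          exact hs01 b (hbi b hb) y
      · exact Deg.one.sub (hdeg _ (List.get_mem _ _))
      · rw [card_disjSum]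
        refine le_trans (Nat.mul_le_mul_right _ ?_) hbound
        have h1 : (C.biUnion (need w)).card ≤ C.card * (w + 3) :=
          card_biUnion_le_card_mul _ _ _ fun a _ => card_need w a
        have h2 : C.card * (w + 3) ≤ L * (w + 3) := Nat.mul_le_mul_right _ hCc
        omega
      · intro y hy
        have h1 : (mv w nv (pi.get i)).1 y = true := by
          apply himp (fun φ => (mv w nv φ).1 y)
          · intro c' hc'
            apply resp_of_need hq hc (hm y) c'
            intro b hb
            have hb' : b ∈ C.biUnion (need w) := mem_biUnion.mpr ⟨c', hc', hb⟩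
            exact hV b (hbi b hb') y (hy (Sum.inr b) (inr_mem_disjSum.mpr hb'))
          · intro b hb
            have h2 := hy (Sum.inl b) (inl_mem_disjSum.mpr hb)
            simp only [Sum.elim_inl, Pi.sub_apply, Pi.one_apply, bF_apply] at h2
            by_contra h3
            rw [if_neg h3] at h2
            simp at h2
        rw [Pi.sub_apply, Pi.one_apply, bF_apply, if_pos h1, sub_self]
  intro a ha
  obtain ⟨i, hi⟩ := List.get_of_mem ha
  rw [← hi]
  exact main i.val i rfl

/-- the constant a formula is equal to, if any -/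
def isC {V : Type} : Fml p V → Option Bool
  | cst b => some b
  | _ => none

lemma eq_of_isC {V : Type} {a : Fml p V} {b : Bool} (h : isC a = some b) : a = cst b := by
  cases a <;> simp_all [isC]

open Classical in
lemma exists_nv (hψ : ψ.IsPrimitive) (hqK : (q : K) ≠ 0) (ht : 0 < t) {B : ℕ}
    (hB : 8 * B < t * t) {m : Flow q t → Finset (Finset U)} (hm : ∀ y, PP q (m y))
    (hmD : ∀ S, Deg ψ (4 * t) (fun y : Flow q t => if S ∈ m y then (1 : K) else 0))
    (huD : ∀ u, Deg ψ (2 * t + 1) (fun y : Flow q t => if u ∉ cov (m y) then (1 : K) else 0))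
    (huZ : ∀ u, Zr ψ c B (fun y : Flow q t => if u ∉ cov (m y) then (1 : K) else 0))
    {Γ : Finset (Fml p (Vr q U))} {d : ℕ} (hρ0 : ρ 0 = ∅)
    (hPP : PP q (ρ d)) (hmono : ∀ j ≤ d, ρ j ⊆ ρ d) (hκm : Monotone κ)
    (hG : ∀ a ∈ Γ, lv none a ≤ d ∧ Good q ρ κ a) (hρm : ∀ y, ρ d ⊆ m y)
    (hb : 4 * t * κ d ≤ B) :
    ∃ (nv : Fml p (Vr q U) → Flow q t → Bool) (s : Fml p (Vr q U) → Flow q t → K),
      (∀ b y, nv (cst b) y = b) ∧ ∀ a ∈ Γ, Deg ψ (4 * t * κ d) (bF K (nv a)) ∧
        Deg ψ (4 * t * κ d) (s a) ∧ Zr ψ c B (s a) ∧ (∀ y, s a y = 0 ∨ s a y = 1) ∧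
        ∀ y, s a y = 0 → Vd q ρ κ a (nv a y) (m y) := by
  have hex : ∀ a ∈ Γ, ∃ P s : Flow q t → K, Deg ψ (4 * t * κ d) P ∧ Deg ψ (4 * t * κ d) s ∧
      Zr ψ c B s ∧ (∀ y, P y = 0 ∨ P y = 1) ∧ (∀ y, s y = 0 ∨ s y = 1) ∧
      ∀ y, ρ d ⊆ m y → s y = 0 → ∃ e, Vd q ρ κ a e (m y) ∧ P y = if e then 1 else 0 := by
    intro a ha
    obtain ⟨h1, h2⟩ := hG a ha
    have h3 := (Dec.mono_ctx DS_up h2 (ρ d) (hmono _ h1) hPP).mono_h _ (hκm h1)
    exact run_dec hψ hqK ht hB hm hmD huD huZ h3 hb
  choose! P s h1 h2 h3 h4 h5 h6 using hex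
  refine ⟨fun a y => (isC a).getD (decide (P a y = 1)), fun a => if isC a = none then s a else 0,
    ?_, ?_⟩
  · intro b y; rfl
  · intro a ha
    beta_reduce
    cases hC : isC a with
    | none =>
      have hP : bF K (fun y => (none : Option Bool).getD (decide (P a y = 1))) = P a := by
        funext y
        rw [bF_apply]
        rcases h4 a ha y with h | h <;> simp [h]
      refine ⟨?_, ?_, ?_, ?_, ?_⟩
      · rw [hP]; exact h1 a ha
      · rw [if_pos rfl]; exact h2 a ha
      · rw [if_pos rfl]; exact h3 a ha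
      · rw [if_pos rfl]; exact h5 a ha
      · intro y hy
        rw [if_pos rfl] at hy
        obtain ⟨e, he, hPe⟩ := h6 a ha y (hρm y) hy
        simp only [Option.getD_none]
        rw [hPe]
        cases e <;> simpa using he
    | some b =>
      have hab := eq_of_isC hC
      have h0 : (if (some b : Option Bool) = none then s a else 0) = 0 := if_neg (by simp)
      rw [h0]
      refine ⟨?_, Deg.zero, Zr.zero, fun y => Or.inl rfl, fun y _ => ?_⟩
      · exact Deg.const (K := K) (if b = true then 1 else 0)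
      · simp only [Option.getD_some]
        subst hab
        exact ⟨ρ 0, ⟨⟨by rw [hρ0]; exact PP.empty q, Subset.rfl, by simp⟩, rfl⟩,
          (hmono 0 (Nat.zero_le _)).trans (hρm y)⟩

end Lines

end Pool.Agent.Work.MP_c04246_lc
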