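import Mathlib
import Pool.Agent.Work.MP_c04246_lc.Sound

set_option autoImplicit false
set_option linter.unusedSectionVars false
set_option linter.unusedSimpArgs false
set_option linter.unusedVariables false

namespace Pool.Agent.Work.MP_c04246_lc

open Finset Fml

section disj

variable {p : ℕ} {V : Type}

lemma eval_disj (v : V → Bool) (l : List (Fml p V)) :
    eval v (disj l) = true ↔ ∃ a ∈ l, eval v a = true := by
  induction l with
  | nil => simp [disj, eval]
  | cons a l ih =>
    have : disj (a :: l) = bin true a (disj l) := rfl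
    rw [this]
    simp only [eval, if_true, Bool.or_eq_true, ih, List.mem_cons, exists_eq_or_imp]

lemma dpt_disj {D : ℕ} (l : List (Fml p V)) (h : ∀ a ∈ l, dpt (some (some true)) a ≤ D) :
    dpt (some (some true)) (disj l) ≤ D := by
  induction l with
  | nil => simp [disj, dpt]
  | cons a l ih =>
    have : disj (a :: l) = bin true a (disj l) := rfl
    rw [this]
    simp only [dpt, if_true, zero_add]
    exact max_le (h a (by simp)) (ih fun b hb => h b (by simp [hb]))

lemma lv_disj {D : ℕ} (l : List (Fml p V)) (h : ∀ a ∈ l, lv (some true) a ≤ D) :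
    lv (some true) (disj l) ≤ D := by
  induction l with
  | nil => simp [disj, lv]
  | cons a l ih =>
    have : disj (a :: l) = bin true a (disj l) := rfl
    rw [this]
    simp only [lv, if_true, zero_add]
    exact max_le (h a (by simp)) (ih fun b hb => h b (by simp [hb]))

lemma size_disj {s : ℕ} (l : List (Fml p V)) (h : ∀ a ∈ l, size a ≤ s) :
    size (disj l) ≤ l.length * (s + 1) + 1 := by
  induction l with
  | nil => simp [disj, size]
  | cons a l ih =>
    have : disj (a :: l) = bin true a (disj l) := rfl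
    rw [this]
    have h1 := h a (by simp)
    have h2 := ih fun b hb => h b (by simp [hb])
    simp only [size, List.length_cons]
    nlinarith

lemma wide_disj {w : ℕ} (l : List (Fml p V)) (h : ∀ a ∈ l, ¬ Wide w a) : ¬ Wide w (disj l) := by
  induction l with
  | nil => simp [disj, Wide]
  | cons a l ih =>
    have : disj (a :: l) = bin true a (disj l) := rfl
    rw [this]
    simp only [Wide, not_or]
    exact ⟨h a (by simp), ih fun b hb => h b (by simp [hb])⟩

end disj

section count

variable {p q n : ℕ}

lemma wide_countTaut (w : ℕ) : ¬ Wide w (countTaut p q n) := by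
  unfold countTaut
  simp only [Wide, not_or]
  constructor
  · apply wide_disj
    intro a ha
    rw [List.mem_map] at ha
    obtain ⟨u, _, rfl⟩ := ha
    simp only [Wide]
    apply wide_disj
    intro b hb
    rw [List.mem_map] at hb
    obtain ⟨S, _, rfl⟩ := hb
    simp [Wide]
  · apply wide_disj
    intro a ha
    rw [List.mem_map] at ha
    obtain ⟨x, _, rfl⟩ := ha
    simp [Wide]

lemma depth_countTaut : depth (countTaut p q n) ≤ 3 := by
  unfold countTaut depth
  have h1 : ∀ a b : Fml p {S : Finset (Fin n) // S.card = q}, dpt none (bin true a b) =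
    1 + max (dpt (some (some true)) a) (dpt (some (some true)) b) := by
    intro a b; simp [dpt]
  rw [h1]
  have h2 : dpt (some (some true)) (disj ((Finset.univ : Finset (Fin n)).toList.map fun u =>
      (neg (disj (((Finset.univ : Finset {S : Finset (Fin n) // S.card = q}).filter
        fun S => u ∈ S.1).toList.map var)) : Fml p {S : Finset (Fin n) // S.card = q}))) ≤ 2 := by
    apply dpt_disj
    intro a ha
    rw [List.mem_map] at ha
    obtain ⟨u, _, rfl⟩ := ha
    have h3 : dpt (some (some true)) (disj (((Finset.univ : Finset {S : Finset (Fin n) //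
        S.card = q}).filter fun S => u ∈ S.1).toList.map
          (var : _ → Fml p {S : Finset (Fin n) // S.card = q}))) ≤ 0 := by
      apply dpt_disj
      intro b hb
      rw [List.mem_map] at hb
      obtain ⟨S, _, rfl⟩ := hb
      simp [dpt]
    have h4 := dpt_le (some (some true)) (disj (((Finset.univ : Finset {S : Finset (Fin n) //
        S.card = q}).filter fun S => u ∈ S.1).toList.map
          (var : _ → Fml p {S : Finset (Fin n) // S.card = q})))
    have h5 := dpt_none_ge (some none) (disj (((Finset.univ : Finset {S : Finset (Fin n) //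
        S.card = q}).filter fun S => u ∈ S.1).toList.map
          (var : _ → Fml p {S : Finset (Fin n) // S.card = q})))
    simp only [dpt]
    split_ifs <;> omega
  have h6 : dpt (some (some true)) (disj (((Finset.univ : Finset ({S : Finset (Fin n) //
      S.card = q} × {S : Finset (Fin n) // S.card = q})).filter
        fun x => x.1 ≠ x.2 ∧ ¬ Disjoint x.1.1 x.2.1).toList.map
      fun x => (bin false (var x.1) (var x.2) : Fml p {S : Finset (Fin n) // S.card = q}))) ≤ 2 := by
    apply dpt_disj
    intro a ha
    rw [List.mem_map] at ha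
    obtain ⟨x, _, rfl⟩ := ha
    simp [dpt]
  omega

lemma size_countTaut (hn : 1 ≤ n) (hq : 1 ≤ q) : size (countTaut p q n) ≤ 12 * n ^ (2 * q) := by
  have hcard : Fintype.card {S : Finset (Fin n) // S.card = q} ≤ n ^ q := by
    have := Fintype.card_finset_len (α := Fin n) q
    rw [Fintype.card_fin] at this
    rw [this]
    exact Nat.choose_le_pow n q
  unfold countTaut
  have h1 : size (disj ((Finset.univ : Finset (Fin n)).toList.map fun u =>
      (neg (disj (((Finset.univ : Finset {S : Finset (Fin n) // S.card = q}).filter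
        fun S => u ∈ S.1).toList.map var)) : Fml p {S : Finset (Fin n) // S.card = q}))) ≤
      n * (2 * n ^ q + 3) + 1 := by
    refine (size_disj (s := 2 * n ^ q + 2) _ ?_).trans ?_
    · intro a ha
      rw [List.mem_map] at ha
      obtain ⟨u, _, rfl⟩ := ha
      have h2 : size (disj (((Finset.univ : Finset {S : Finset (Fin n) //
        S.card = q}).filter fun S => u ∈ S.1).toList.map
          (var : _ → Fml p {S : Finset (Fin n) // S.card = q}))) ≤ n ^ q * (1 + 1) + 1 := by
        refine (size_disj (s := 1) _ ?_).trans ?_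
        · intro b hb
          rw [List.mem_map] at hb
          obtain ⟨S, _, rfl⟩ := hb
          simp [size]
        · rw [List.length_map, length_toList]
          have := (card_filter_le (univ : Finset {S : Finset (Fin n) // S.card = q})
            (fun S => u ∈ S.1)).trans
              ((card_univ (α := {S : Finset (Fin n) // S.card = q})).le.trans hcard)
          exact Nat.succ_le_succ (Nat.mul_le_mul_right _ this)
      simp only [size]
      omega
    · rw [List.length_map, length_toList, card_univ, Fintype.card_fin]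
  have h3 : size (disj (((Finset.univ : Finset ({S : Finset (Fin n) //
      S.card = q} × {S : Finset (Fin n) // S.card = q})).filter
        fun x => x.1 ≠ x.2 ∧ ¬ Disjoint x.1.1 x.2.1).toList.map
      fun x => (bin false (var x.1) (var x.2) : Fml p {S : Finset (Fin n) // S.card = q}))) ≤
      (n ^ q * n ^ q) * (3 + 1) + 1 := by
    refine (size_disj (s := 3) _ ?_).trans ?_
    · intro a ha
      rw [List.mem_map] at ha
      obtain ⟨x, _, rfl⟩ := ha
      simp [size]
    · rw [List.length_map, length_toList]
      have := (card_filter_le (univ : Finset ({S : Finset (Fin n) //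
        S.card = q} × {S : Finset (Fin n) // S.card = q}))
            (fun x => x.1 ≠ x.2 ∧ ¬ Disjoint x.1.1 x.2.1)).trans
            ((card_univ (α := {S : Finset (Fin n) // S.card = q} ×
              {S : Finset (Fin n) // S.card = q})).le.trans
              ((Fintype.card_prod _ _).le.trans (Nat.mul_le_mul hcard hcard)))
      exact Nat.succ_le_succ (Nat.mul_le_mul_right _ this)
  simp only [size]
  have h4 : n ^ q * n ^ q = n ^ (2 * q) := by rw [← pow_add]; congr 1; omega
  have h5 : n * n ^ q ≤ n ^ (2 * q) := by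
    rw [← pow_succ']
    exact Nat.pow_le_pow_right hn (by omega)
  have h6 : n ≤ n ^ (2 * q) := by
    calc n = n ^ 1 := (pow_one n).symm
      _ ≤ n ^ (2 * q) := Nat.pow_le_pow_right hn (by omega)
  have h7 : 1 ≤ n ^ (2 * q) := hn.trans h6
  rw [h4] at h3
  have h8 : n * (2 * n ^ q + 3) = 2 * (n * n ^ q) + 3 * n := by ring
  rw [h8] at h1
  omega

lemma taut_countTaut (hn : ¬ q ∣ n) (v : {S : Finset (Fin n) // S.card = q} → Bool) :
    eval v (countTaut p q n) = true := by
  classical
  by_contra hcon
  unfold countTaut at hcon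
  simp only [eval, if_true, Bool.or_eq_true, not_or] at hcon
  obtain ⟨h1, h2⟩ := hcon
  rw [eval_disj] at h1 h2
  push Not at h1 h2
  have h3 : ∀ u : Fin n, ∃ S : {S : Finset (Fin n) // S.card = q}, u ∈ S.1 ∧ v S = true := by
    intro u
    have h4 := h1 _ (List.mem_map.mpr ⟨u, by simp, rfl⟩)
    simp only [eval, Bool.not_eq_true, Bool.not_eq_false'] at h4
    rw [eval_disj] at h4
    obtain ⟨a, ha, hva⟩ := h4
    rw [List.mem_map] at ha
    obtain ⟨S, hS, rfl⟩ := ha
    rw [mem_toList, mem_filter] at hS
    exact ⟨S, hS.2, hva⟩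
  have h5 : ∀ S T : {S : Finset (Fin n) // S.card = q}, v S = true → v T = true → S ≠ T →
      Disjoint S.1 T.1 := by
    intro S T hS hT hne
    by_contra hd
    have h6 := h2 _ (List.mem_map.mpr ⟨(S, T), by
      rw [mem_toList, mem_filter]; exact ⟨mem_univ _, hne, hd⟩, rfl⟩)
    simp [eval, hS, hT] at h6
  apply hn
  have h7 : (univ : Finset (Fin n)) =
      (univ.filter fun S : {S : Finset (Fin n) // S.card = q} => v S = true).biUnion
        (fun S => S.1) := by
    ext u
    simp only [mem_univ, mem_biUnion, mem_filter, true_and, true_iff]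
    obtain ⟨S, hS, hv⟩ := h3 u
    exact ⟨S, hv, hS⟩
  have h8 := congrArg Finset.card h7
  rw [card_univ, Fintype.card_fin, card_biUnion (by
    intro S hS T hT hne
    exact h5 S T (mem_filter.mp hS).2 (mem_filter.mp hT).2 hne),
    sum_congr rfl (fun S _ => S.2), sum_const, smul_eq_mul] at h8
  exact ⟨_, by rw [h8, mul_comm]⟩

end count

section nocert

variable {p q n : ℕ} {ρ : ℕ → Finset (Finset (Fin n))} {κ : ℕ → ℕ}

lemma D_disj_sub (l : List (Fml p (Vr q (Fin n)))) (t : Finset (Finset (Fin n)))
    (ht : t ∈ (CD q ρ κ (disj l)).2 true) : ∃ a ∈ l, t ∈ (CD q ρ κ a).2 true := by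
  induction l with
  | nil =>
    have h := ht.2
    exact Bool.noConfusion h
  | cons a l ih =>
    have : disj (a :: l) = bin true a (disj l) := rfl
    rw [this] at ht
    simp only [CD, if_true] at ht
    rcases ht with h | h
    · exact ⟨a, by simp, h⟩
    · obtain ⟨b, hb, hb'⟩ := ih h
      exact ⟨b, by simp [hb], hb'⟩

lemma D_disj_mem (l : List (Fml p (Vr q (Fin n)))) (t : Finset (Finset (Fin n))) {a}
    (ha : a ∈ l) (ht : t ∈ (CD q ρ κ a).2 true) : t ∈ (CD q ρ κ (disj l)).2 true := by
  induction l with
  | nil => simp at ha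
  | cons b l ih =>
    have : disj (b :: l) = bin true b (disj l) := rfl
    rw [this]
    simp only [CD, if_true]
    rcases List.mem_cons.mp ha with h | h
    · left; rw [← h]; exact ht
    · right; exact ih h

lemma ext_one (hq : 0 < q) {τ : Finset (Finset (Fin n))} (hτ : PP q τ) (h : q ≤ nun τ) (u : Fin n) :
    ∃ S : Finset (Fin n), S.card = q ∧ u ∈ S ∧ PP q ({S} ∪ τ) := by
  by_cases hu : u ∈ cov τ
  · obtain ⟨S, hS, huS⟩ := mem_cov.mp hu
    refine ⟨S, hτ.1 S hS, huS, ?_⟩
    have : ({S} : Finset (Finset (Fin n))) ∪ τ = τ := by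
      rw [union_eq_right]; simpa using hS
    rw [this]; exact hτ
  · obtain ⟨S, hS⟩ := exists_adm hq hu h
    exact ⟨S, hS.2.1, hS.1, hS.PP hτ⟩

lemma ext_avoid (hq : 2 ≤ q) {τ : Finset (Finset (Fin n))} (hτ : PP q τ) (h : q + 1 ≤ nun τ)
    {S : Finset (Fin n)} (hS : S.card = q) (hSτ : S ∉ τ) :
    ∃ T : Finset (Fin n), T.card = q ∧ T ≠ S ∧ ¬ Disjoint T S ∧ PP q ({T} ∪ τ) := by
  obtain ⟨u, hu⟩ : S.Nonempty := by rw [← card_pos]; omega
  by_cases hcu : u ∈ cov τ
  · obtain ⟨T, hT, huT⟩ := mem_cov.mp hcu
    refine ⟨T, hτ.1 T hT, fun h0 => hSτ (h0 ▸ hT), ?_, ?_⟩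
    · rw [not_disjoint_iff]; exact ⟨u, huT, hu⟩
    · have : ({T} : Finset (Finset (Fin n))) ∪ τ = τ := by
        rw [union_eq_right]; simpa using hT
      rw [this]; exact hτ
  · obtain ⟨v, hv, hvS⟩ : ∃ v ∈ univ \ cov τ, v ∉ S := by
      by_contra hcon
      push Not at hcon
      have := card_le_card (show univ \ cov τ ⊆ S from hcon)
      unfold nun at h
      omega
    obtain ⟨T, hT1, hT2, hT3⟩ := exists_subsuperset_card_eq (s := {u, v}) (t := univ \ cov τ)
      (n := q) (by
        intro x hx
        rcases mem_insert.mp hx with rfl | hx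
        · exact mem_sdiff.mpr ⟨mem_univ _, hcu⟩
        · rw [mem_singleton] at hx; subst hx; exact hv)
      (card_le_two.trans hq) (by unfold nun at h; omega)
    have huT : u ∈ T := hT1 (by simp)
    have hvT : v ∈ T := hT1 (by simp)
    have hadm : Adm q τ u T := ⟨huT, hT3, by
      rw [disjoint_left]
      intro x hx hx'
      exact (mem_sdiff.mp (hT2 hx)).2 hx'⟩
    refine ⟨T, hT3, fun h0 => hvS (h0 ▸ hvT), ?_, hadm.PP hτ⟩
    rw [not_disjoint_iff]; exact ⟨u, huT, hu⟩

lemma no_true (hq : 2 ≤ q) (hρ0 : ρ 0 = ∅) (hκ0 : 1 ≤ κ 0)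
    (hroom : ∀ i ≤ 1, ∀ τ ∈ Sm q ρ κ i, q + 1 ≤ nun τ) :
    (CD q ρ κ (countTaut p q n)).1 true = ∅ := by
  have hq0 : 0 < q := by omega
  have hsing : ∀ S : Finset (Fin n), S.card = q → ({S} : Finset (Finset (Fin n))) ∈ Sm q ρ κ 0 := by
    intro S hS
    refine ⟨⟨?_, ?_⟩, ?_, ?_⟩
    · intro T hT; rw [mem_singleton] at hT; rw [hT]; exact hS
    · intro T hT T' hT' hne
      rw [mem_singleton] at hT hT'
      exact absurd (hT.trans hT'.symm) hne
    · rw [hρ0]; exact empty_subset _
    · rw [hρ0]; simpa using hκ0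
  have hA : (CD q ρ κ (disj ((Finset.univ : Finset (Fin n)).toList.map fun u =>
      (neg (disj (((Finset.univ : Finset {S : Finset (Fin n) // S.card = q}).filter
        fun S => u ∈ S.1).toList.map var)) : Fml p (Vr q (Fin n)))))).2 true = ∅ := by
    rw [Set.eq_empty_iff_forall_notMem]
    intro t ht
    obtain ⟨a, ha, hta⟩ := D_disj_sub _ _ ht
    rw [List.mem_map] at ha
    obtain ⟨u, _, rfl⟩ := ha
    set l := ((Finset.univ : Finset {S : Finset (Fin n) // S.card = q}).filter
        fun S => u ∈ S.1).toList.map (var : _ → Fml p (Vr q (Fin n))) with hl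
    have h1 : t ∈ (CD q ρ κ (disj l)).1 false := hta
    have hlv : lv none (disj l) ≤ 1 := by
      have h2 : lv (some true) (disj l) ≤ 0 := by
        apply lv_disj
        intro b hb
        rw [hl, List.mem_map] at hb
        obtain ⟨S, _, rfl⟩ := hb
        simp [lv]
      have := lv_none_le (some true) (disj l)
      omega
    have hSm := mem_Sm_of_C _ _ _ h1
    have hn := hroom _ hlv t hSm
    obtain ⟨S, hS, huS, hPP⟩ := ext_one hq0 hSm.1 (by omega) u
    have hSl : (var ⟨S, hS⟩ : Fml p (Vr q (Fin n))) ∈ l := by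
      rw [hl, List.mem_map]
      refine ⟨⟨S, hS⟩, ?_, rfl⟩
      rw [mem_toList, mem_filter]
      exact ⟨mem_univ _, huS⟩
    have h3 : ({S} : Finset (Finset (Fin n))) ∈ (CD q ρ κ (disj l)).2 true := by
      apply D_disj_mem l _ hSl
      exact ⟨hsing S hS, by simp⟩
    cases hcase : l with
    | nil => rw [hcase] at hSl; simp at hSl
    | cons b l' =>
      have h4 : disj l = bin true b (disj l') := by rw [hcase]; rfl
      rw [h4] at h1 h3
      simp only [CD, if_true] at h3
      simp only [CD, Bool.false_eq_true, if_false] at h1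
      exact h1.2 _ h3 hPP
  have hB : (CD q ρ κ (disj (((Finset.univ : Finset ({S : Finset (Fin n) //
      S.card = q} × {S : Finset (Fin n) // S.card = q})).filter
        fun x => x.1 ≠ x.2 ∧ ¬ Disjoint x.1.1 x.2.1).toList.map
      fun x => (bin false (var x.1) (var x.2) : Fml p (Vr q (Fin n)))))).2 true = ∅ := by
    rw [Set.eq_empty_iff_forall_notMem]
    intro t ht
    obtain ⟨a, ha, hta⟩ := D_disj_sub _ _ ht
    rw [List.mem_map] at ha
    obtain ⟨x, hx, rfl⟩ := ha
    rw [mem_toList, mem_filter] at hx
    obtain ⟨_, hne, hnd⟩ := hx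
    simp only [CD, Bool.true_eq_false, if_false] at hta
    obtain ⟨hSm, hall⟩ := hta
    have hn := hroom _ (by simp [lv]) t hSm
    have hcase : x.1.1 ∉ t ∨ x.2.1 ∉ t := by
      by_contra hcon
      push Not at hcon
      exact hnd (hSm.1.2 _ hcon.1 _ hcon.2 (fun h => hne (Subtype.ext h)))
    rcases hcase with h | h
    · obtain ⟨T, hT, hTne, hTd, hPP⟩ := ext_avoid hq hSm.1 hn x.1.2 h
      exact hall {T} (Or.inl ⟨hsing T hT, T, by simp, hTne, hTd⟩) hPP
    · obtain ⟨T, hT, hTne, hTd, hPP⟩ := ext_avoid hq hSm.1 hn x.2.2 h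
      exact hall {T} (Or.inr ⟨hsing T hT, T, by simp, hTne, hTd⟩) hPP
  rw [Set.eq_empty_iff_forall_notMem]
  intro t ht
  unfold countTaut at ht
  simp only [CD, if_true] at ht
  obtain ⟨_, t1, ht1, _⟩ := ht
  rcases ht1 with h | h
  · exact absurd h (by rw [hA]; simp)
  · exact absurd h (by rw [hB]; simp)

end nocert

end Pool.Agent.Work.MP_c04246_lc
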