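import Mathlib
import Pool.Agent.Work.MP_c04246_lc.HLast
import Pool.Agent.Work.MP_c04246_lc.HWorld
import Pool.Agent.Work.MP_c04246_lc.Count

set_option autoImplicit false
set_option linter.unusedSectionVars false
set_option linter.unusedSimpArgs false
set_option linter.unusedVariables false

namespace Pool.Agent.Work.MP_c04246_lc.H

open Finset Fml

section taut

variable {U X : Type} [Fintype U] [Fintype X] {p q : ℕ} {es : X → Finset U}

lemma pmTaut_true (hes : ∀ x, (es x).card = q) (hd : ¬ q ∣ Fintype.card U) (v : X → Bool) :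
    eval v (pmTaut p es) = true := by
  classical
  by_contra hcon
  rw [Bool.not_eq_true] at hcon
  unfold pmTaut at hcon
  simp only [eval, if_true, Bool.or_eq_false_iff] at hcon
  obtain ⟨h1, h2⟩ := hcon
  rw [← Bool.not_eq_true, eval_disj'] at h1 h2
  push Not at h1 h2
  set τ : Finset X := univ.filter fun x => v x = true with hτ
  have hPP : PP es τ := by
    intro x hx y hy hne
    rw [hτ, mem_filter] at hx hy
    by_contra hnd
    apply h2 (bin false (var x) (var y))
    · rw [List.mem_map]
      exact ⟨(x, y), by simp [hne, hnd], rfl⟩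
    · simp [eval, hx.2, hy.2]
  have hcov : cov es τ = univ := by
    rw [eq_univ_iff_forall]
    intro u
    have h3 := h1 _ (List.mem_map.mpr ⟨u, by simp, rfl⟩)
    simp only [eval, Bool.not_eq_true, Bool.not_eq_false'] at h3
    rw [eval_disj'] at h3
    obtain ⟨a, ha, hav⟩ := h3
    rw [List.mem_map] at ha
    obtain ⟨x, hx, rfl⟩ := ha
    simp only [mem_toList, mem_filter, mem_univ, true_and] at hx
    rw [mem_cov]
    refine ⟨x, ?_, hx⟩
    rw [hτ, mem_filter]
    exact ⟨mem_univ _, hav⟩
  apply hd
  have h4 := hPP.card_cov hes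
  rw [hcov, card_univ] at h4
  rw [h4]
  exact dvd_mul_right _ _

lemma depth_pmTaut : depth (pmTaut p es) ≤ 3 := by
  classical
  unfold pmTaut depth
  have h1 : ∀ a b : Fml p X, dpt none (bin true a b) =
    1 + max (dpt (some (some true)) a) (dpt (some (some true)) b) := by
    intro a b; simp [dpt]
  rw [h1]
  have h2 : ∀ l : List X, dpt (some none) (disj (l.map (var : X → Fml p X))) ≤ 1 := by
    intro l
    have h3 : dpt (some (some true)) (disj (l.map (var : X → Fml p X))) ≤ 0 := by
      apply dpt_disj
      intro b hb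
      rw [List.mem_map] at hb
      obtain ⟨x, _, rfl⟩ := hb
      simp [dpt]
    have h4 := dpt_le (some (some true)) (disj (l.map (var : X → Fml p X)))
    have h5 := dpt_none_ge (some none) (disj (l.map (var : X → Fml p X)))
    omega
  have h6 : dpt (some (some true)) (disj ((Finset.univ : Finset U).toList.map fun u =>
      neg (disj (((Finset.univ : Finset X).filter fun x => u ∈ es x).toList.map
        (var : X → Fml p X))))) ≤ 2 := by
    apply dpt_disj
    intro a ha
    rw [List.mem_map] at ha
    obtain ⟨u, _, rfl⟩ := ha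
    have h7 := h2 ((Finset.univ : Finset X).filter fun x => u ∈ es x).toList
    simp only [dpt]
    split_ifs
    · simp at *
    · omega
  have h8 : dpt (some (some true)) (disj (((Finset.univ : Finset (X × X)).filter
        fun z => z.1 ≠ z.2 ∧ ¬ Disjoint (es z.1) (es z.2)).toList.map
      fun z => (bin false (var z.1) (var z.2) : Fml p X))) ≤ 2 := by
    apply dpt_disj
    intro a ha
    rw [List.mem_map] at ha
    obtain ⟨x, _, rfl⟩ := ha
    simp [dpt]
  omega

lemma size_pmTaut : size (pmTaut p es) ≤ 4 * (Fintype.card X + Fintype.card U + 1) ^ 2 := by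
  classical
  unfold pmTaut
  have h0 : ∀ s : Finset X, size (disj (s.toList.map (var : X → Fml p X))) ≤
      2 * Fintype.card X + 1 := by
    intro s
    have h1 := size_disj (p := p) (s := 1) (s.toList.map (var : X → Fml p X)) (by
      intro a ha
      rw [List.mem_map] at ha
      obtain ⟨x, _, rfl⟩ := ha
      simp [size])
    rw [List.length_map, length_toList] at h1
    have h2 : s.card ≤ Fintype.card X := card_le_univ s
    omega
  have h1 : size (disj ((Finset.univ : Finset U).toList.map fun u =>
      neg (disj (((Finset.univ : Finset X).filter fun x => u ∈ es x).toList.map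
        (var : X → Fml p X))))) ≤ Fintype.card U * (2 * Fintype.card X + 2 + 1) + 1 := by
    refine le_trans (size_disj (s := 2 * Fintype.card X + 2) _ ?_) ?_
    · intro a ha
      rw [List.mem_map] at ha
      obtain ⟨u, _, rfl⟩ := ha
      simp only [size]
      have := h0 ((Finset.univ : Finset X).filter fun x => u ∈ es x)
      omega
    · rw [List.length_map, length_toList, card_univ]
  have h2 : size (disj (((Finset.univ : Finset (X × X)).filter
        fun z => z.1 ≠ z.2 ∧ ¬ Disjoint (es z.1) (es z.2)).toList.map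
      fun z => (bin false (var z.1) (var z.2) : Fml p X))) ≤
      Fintype.card X * Fintype.card X * (3 + 1) + 1 := by
    refine le_trans (size_disj (s := 3) _ ?_) ?_
    · intro a ha
      rw [List.mem_map] at ha
      obtain ⟨x, _, rfl⟩ := ha
      simp [size]
    · rw [List.length_map, length_toList]
      have h3 : ((Finset.univ : Finset (X × X)).filter
        fun z => z.1 ≠ z.2 ∧ ¬ Disjoint (es z.1) (es z.2)).card ≤
        Fintype.card X * Fintype.card X := by
        refine (card_le_univ _).trans ?_
        rw [Fintype.card_prod]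
      have := Nat.mul_le_mul_right (3 + 1) h3
      omega
  simp only [size]
  nlinarith [Nat.zero_le (Fintype.card X * Fintype.card U),
    Nat.zero_le (Fintype.card U * Fintype.card U)]

end taut

section family

lemma card_ptsAt {n k M : ℕ} (G : Fin n → Fin k × Fin k) {D : ℕ} (v : Fin k)
    (hD : X.dg G v ≤ D) : (ptsAt G M v).card ≤ D * M := by
  have h1 : ptsAt G M v = (X.Ic G v) ×ˢ (univ : Finset (Fin M)) := by
    ext u
    rw [mem_ptsAt, mem_product]
    unfold X.Ic
    simp
  rw [h1, card_product, card_univ, Fintype.card_fin]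
  exact Nat.mul_le_mul_right _ hD

lemma card_HE {q n k M : ℕ} (G : Fin n → Fin k × Fin k) {D : ℕ} (hD : ∀ v, X.dg G v ≤ D) :
    Fintype.card (HE q G M) ≤ k * (D * M) ^ q := by
  classical
  have h1 : (univ : Finset (HE q G M)) ⊆ univ.biUnion fun v => (gSys q G M).inW v
      ((gSys q G M).Wv v ∩ univ) := by
    intro x _
    rw [mem_biUnion]
    refine ⟨x.1.1, mem_univ _, ?_⟩
    unfold Sys.inW
    rw [mem_filter]
    refine ⟨mem_univ _, rfl, ?_⟩
    rw [inter_univ]
    exact (gSys q G M).sub x
  calc Fintype.card (HE q G M) = (univ : Finset (HE q G M)).card := (card_univ).symm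
    _ ≤ ∑ v, ((gSys q G M).inW v ((gSys q G M).Wv v ∩ univ)).card :=
        (card_le_card h1).trans card_biUnion_le
    _ = ∑ v, ((gSys q G M).Wv v ∩ univ).card.choose q :=
        sum_congr rfl fun v _ => (gSys q G M).card_inW v univ
    _ ≤ ∑ v : Fin k, (D * M) ^ q := sum_le_sum fun v _ => by
        rw [inter_univ]
        exact (Nat.choose_le_pow _ _).trans (Nat.pow_le_pow_left (card_ptsAt G v (hD v)) _)
    _ = k * (D * M) ^ q := by rw [sum_const, card_univ, Fintype.card_fin, smul_eq_mul]

lemma ExpOK_mono {n m ℓ : ℕ} {G : Fin n → Fin m × Fin m} {al : Fin n → Bool}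
    (h : X.ExpOK ℓ G al) : X.ExpOK ℓ G (fun _ => true) := by
  intro S hS
  refine (h S hS).trans (card_le_card ?_)
  intro j hj
  rw [mem_filter] at hj ⊢
  exact ⟨hj.1, rfl, hj.2.2⟩

theorem exists_graphs (n : ℕ) : ∃ (k : ℕ) (G : Fin n → Fin k × Fin k), k ≤ n ∧
    (∀ v, X.dg G v ≤ 65 * (Nat.log 2 n + 5)) ∧ (8 * (Nat.log 2 n + 5) ≤ n →
      8 * (Nat.log 2 n + 5) * k ≤ n ∧ n ≤ 16 * (Nat.log 2 n + 5) * k ∧
      X.ExpOK (Nat.log 2 n + 5) G (fun _ => true)) := by
  classical
  set ℓ := Nat.log 2 n + 5 with hℓ
  by_cases hn : 8 * ℓ ≤ n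
  · set m := n / (8 * ℓ) with hm
    have hm1 : 1 ≤ m := by rw [hm]; exact (Nat.one_le_div_iff (by omega)).mpr hn
    have h1 : 8 * ℓ * m ≤ n := Nat.mul_div_le _ _
    have h2 : n ≤ 16 * ℓ * m := by
      have h3 : n < 8 * ℓ * m + 8 * ℓ := by
        rw [hm]
        have := Nat.div_add_mod n (8 * ℓ)
        have := Nat.mod_lt n (show 0 < 8 * ℓ by omega)
        omega
      nlinarith
    have hn0 : n ≠ 0 := by omega
    have h3 : 16 * m ≤ 2 ^ ℓ := by
      have h4 : n < 2 ^ (Nat.log 2 n + 1) := Nat.lt_pow_succ_log_self (by norm_num) n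
      have h5 : m ≤ n := Nat.div_le_self _ _
      have h6 : 2 ^ ℓ = 16 * 2 ^ (Nat.log 2 n + 1) := by
        rw [hℓ, show Nat.log 2 n + 5 = 4 + (Nat.log 2 n + 1) by ring, pow_add]; norm_num
      omega
    obtain ⟨G, hG1, hG2⟩ := X.exists_graph Unit ℓ hm1 h1 h2 h3
    refine ⟨m, G, Nat.div_le_self _ _, fun v => (hG1 v).le, fun _ => ⟨h1, h2, ?_⟩⟩
    have h7 : 0 < Fintype.card (Fin n → Bool × Unit) := Fintype.card_pos
    by_contra hcon
    have h8 : (univ.filter fun ρ : Fin n → Bool × Unit => ¬ X.ExpOK ℓ G (fun j => (ρ j).1)) =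
        univ := by
      rw [filter_eq_self]
      intro ρ _ h
      exact hcon (ExpOK_mono h)
    rw [h8, card_univ] at hG2
    omega
  · by_cases h0 : n = 0
    · subst h0
      exact ⟨0, fun e => e.elim0, le_rfl, fun v => v.elim0, fun h => absurd h hn⟩
    · refine ⟨1, fun _ => (0, 0), by omega, fun v => ?_, fun h => absurd h hn⟩
      refine le_trans (card_le_univ _) ?_
      rw [Fintype.card_fin]
      omega

end family

end Pool.Agent.Work.MP_c04246_lc.H
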