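import Mathlib
import Pool.Agent.Work.MP_c04246_lc.Count

set_option autoImplicit false
set_option linter.unusedSectionVars false
set_option linter.unusedSimpArgs false
set_option linter.unusedVariables false

namespace Pool.Agent.Work.MP_c04246_lc

open Finset Fml

lemma exists_field (p q : ℕ) [Fact p.Prime] [Fact q.Prime] (hpq : p ≠ q) :
    ∃ (K : Type) (_ : Field K) (_ : CharP K p) (ψ : AddChar (ZMod q) K),
      ψ.IsPrimitive ∧ (q : K) ≠ 0 := by
  have hq0 : ((q : ℕ) : ZMod p) ≠ 0 := by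
    intro h
    rw [ZMod.natCast_eq_zero_iff] at h
    exact hpq ((Nat.prime_dvd_prime_iff_eq Fact.out Fact.out).mp h)
  let n : ℕ+ := ⟨q, (Fact.out : q.Prime).pos⟩
  let P := AddChar.primitiveZModChar n (ZMod p) (by exact_mod_cast hq0)
  have hchar : CharP (CyclotomicField P.n (ZMod p)) p :=
    charP_of_injective_algebraMap (algebraMap (ZMod p) _).injective p
  refine ⟨CyclotomicField P.n (ZMod p), inferInstance, hchar, P.char, P.prim, ?_⟩
  intro h
  rw [CharP.cast_eq_zero_iff (CyclotomicField P.n (ZMod p)) p] at h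
  exact hpq ((Nat.prime_dvd_prime_iff_eq Fact.out Fact.out).mp h)

section family

variable {p : ℕ} {V : Type}

open Classical in
/-- subformulas of the lines -/
noncomputable def Sb (pi : List (Fml p V)) : Finset (Fml p V) := pi.toFinset.biUnion subs

open Classical in
/-- narrow parts of the subformulas -/
noncomputable def Gm (w : ℕ) (pi : List (Fml p V)) : Finset (Fml p V) :=
  (Sb pi).image (fr w true) ∪ (Sb pi).image (fr w false)

lemma mem_Sb {pi : List (Fml p V)} {x : Fml p V} : x ∈ Sb pi ↔ ∃ a ∈ pi, x ∈ subs a := by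
  classical
  simp [Sb]

lemma mem_Gm {w : ℕ} {pi : List (Fml p V)} {b : Fml p V} :
    b ∈ Gm w pi ↔ ∃ x ∈ Sb pi, ∃ c, b = fr w c x := by
  classical
  simp only [Gm, mem_union, mem_image]
  constructor
  · rintro (⟨x, hx, h⟩ | ⟨x, hx, h⟩)
    · exact ⟨x, hx, true, h.symm⟩
    · exact ⟨x, hx, false, h.symm⟩
  · rintro ⟨x, hx, c, h⟩
    cases c
    · exact Or.inr ⟨x, hx, h.symm⟩
    · exact Or.inl ⟨x, hx, h.symm⟩

lemma card_Sb (pi : List (Fml p V)) : (Sb pi).card ≤ (pi.map size).sum := by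
  classical
  induction pi with
  | nil => simp [Sb]
  | cons a l ih =>
    have : Sb (a :: l) = subs a ∪ Sb l := by
      ext x
      simp only [mem_Sb, List.mem_cons, exists_eq_or_imp, mem_union]
    rw [this, List.map_cons, List.sum_cons]
    exact (card_union_le _ _).trans (add_le_add (card_subs a) ih)

lemma card_Gm (w : ℕ) (pi : List (Fml p V)) : (Gm w pi).card ≤ 2 * (pi.map size).sum := by
  classical
  unfold Gm
  refine (card_union_le _ _).trans ?_
  have h1 := card_image_le (s := Sb pi) (f := fr w true)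
  have h2 := card_image_le (s := Sb pi) (f := fr w false)
  have h3 := card_Sb pi
  omega

lemma Sb_closed {pi : List (Fml p V)} {x : Fml p V} (hx : x ∈ Sb pi) {y : Fml p V}
    (hy : y ∈ subs x) : y ∈ Sb pi := by
  obtain ⟨a, ha, hxa⟩ := mem_Sb.mp hx
  exact mem_Sb.mpr ⟨a, ha, subs_trans a x hxa hy⟩

end family

lemma closed_Gm {p q : ℕ} {U : Type} [DecidableEq U] [Fintype U] (w : ℕ)
    (pi : List (Fml p (Vr q U))) : Closed w (Gm w pi) := by
  refine ⟨?_, ?_, ?_⟩
  · intro a ha
    obtain ⟨x, hx, c, h⟩ := mem_Gm.mp ha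
    cases x with
    | var S => simp [fr] at h
    | cst b => simp [fr] at h
    | neg x =>
      by_cases hw : Wide w (neg x)
      · simp [fr, hw] at h
      · rw [fr_narrow hw] at h
        have h' : a = x := by simpa using h
        subst h'
        exact mem_Gm.mpr ⟨a, Sb_closed hx (subs_neg _ (subs_self _)), true,
          (fr_narrow (show ¬ Wide w a from hw)).symm⟩
    | bin c' x y =>
      by_cases hw : Wide w (bin c' x y)
      · simp only [fr, if_pos hw] at h
        split_ifs at h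
      · rw [fr_narrow hw] at h
        exact absurd h (by simp)
    | mod i k f =>
      by_cases hw : Wide w (mod i k f)
      · simp [fr, hw] at h
      · rw [fr_narrow hw] at h
        exact absurd h (by simp)
  · intro c0 a b ha
    obtain ⟨x, hx, c, h⟩ := mem_Gm.mp ha
    cases x with
    | var S => simp [fr] at h
    | cst b => simp [fr] at h
    | neg x =>
      by_cases hw : Wide w (neg x)
      · simp [fr, hw] at h
      · rw [fr_narrow hw] at h
        exact absurd h (by simp)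
    | bin c' x y =>
      by_cases hw : Wide w (bin c' x y)
      · simp only [fr, if_pos hw] at h
        split_ifs at h with hc
        have h' : c0 = c ∧ a = fr w c x ∧ b = fr w c y := by simpa using h
        obtain ⟨_, rfl, rfl⟩ := h'
        exact ⟨mem_Gm.mpr ⟨x, Sb_closed hx (subs_bin_l _ _ _ (subs_self _)), c, rfl⟩,
          mem_Gm.mpr ⟨y, Sb_closed hx (subs_bin_r _ _ _ (subs_self _)), c, rfl⟩⟩
      · rw [fr_narrow hw] at h
        have h' : c0 = c' ∧ a = x ∧ b = y := by simpa using h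
        obtain ⟨_, rfl, rfl⟩ := h'
        exact ⟨mem_Gm.mpr ⟨a, Sb_closed hx (subs_bin_l _ _ _ (subs_self _)), true,
            (fr_narrow (fun h => hw (Or.inl h))).symm⟩,
          mem_Gm.mpr ⟨b, Sb_closed hx (subs_bin_r _ _ _ (subs_self _)), true,
            (fr_narrow (fun h => hw (Or.inr h))).symm⟩⟩
    | mod i k f =>
      by_cases hw : Wide w (mod i k f)
      · simp [fr, hw] at h
      · rw [fr_narrow hw] at h
        exact absurd h (by simp)
  · intro i k f ha
    obtain ⟨x, hx, c, h⟩ := mem_Gm.mp ha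
    cases x with
    | var S => simp [fr] at h
    | cst b => simp [fr] at h
    | neg x =>
      by_cases hw : Wide w (neg x)
      · simp [fr, hw] at h
      · rw [fr_narrow hw] at h
        exact absurd h (by simp)
    | bin c' x y =>
      by_cases hw : Wide w (bin c' x y)
      · simp only [fr, if_pos hw] at h
        split_ifs at h
      · rw [fr_narrow hw] at h
        exact absurd h (by simp)
    | mod i' k' f' =>
      by_cases hw : Wide w (mod i' k' f')
      · simp [fr, hw] at h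
      · rw [fr_narrow hw] at h
        have h1 : i = i' ∧ k = k' ∧ HEq f f' := by simpa using h
        obtain ⟨rfl, rfl, h2⟩ := h1
        have h3 := eq_of_heq h2
        subst h3
        refine ⟨?_, fun j => ?_⟩
        · by_contra hk
          exact hw (Or.inl (by omega))
        · exact mem_Gm.mpr ⟨f j, Sb_closed hx (subs_mod _ _ _ j (subs_self _)), true,
            (fr_narrow (fun h => hw (Or.inr ⟨j, h⟩))).symm⟩

theorem core {p q n : ℕ} [Fact p.Prime] [Fact q.Prime] (hpq : p ≠ q) {w d L t B s : ℕ}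
    {κ N : ℕ → ℕ} (hκ1 : ∀ i, 1 ≤ κ i) (hκa : ∀ i, q * w ≤ κ i) (hκm : Monotone κ)
    (hκw : ∀ i, w * κ i ≤ κ (i + 1)) (hN0 : N 0 = n) (hN : ∀ i < d, ∃ m, N i = N (i + 1) + q * m)
    (h16 : ∀ i < d, 16 * (q * (κ i * N (i + 1) ^ (q * q + q))) ≤ N i)
    (hroom : ∀ i < d, q * (q * w) + q * (q * κ i) ≤ N (i + 1))
    (hroom' : ∀ i ≤ d, q * κ i + (q + 1) ≤ N i) (hN1 : ∀ i, 1 ≤ N i)
    (hNd : N d = q * (t * t) + s) (ht : 0 < t) (hB : 8 * B < t * t) (hBt : 2 * t + 1 ≤ B)
    (hbound : (L * (w + 3) + L + 2) * (4 * t * κ d * (p * (w + 1)) ^ d) ≤ B)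
    {pi : List (Fml p {S : Finset (Fin n) // S.card = q})} (hpi : IsProof L pi)
    (hT : countTaut p q n ∈ pi) (hdep : ∀ b ∈ pi, depth b ≤ d ∧ Thin w b) :
    2 ^ w ≤ (pi.map size).sum := by
  classical
  by_contra hsize
  push Not at hsize
  have hq2 : 2 ≤ q := (Fact.out : q.Prime).two_le
  have hq0 : 0 < q := by omega
  have : NeZero q := ⟨by omega⟩
  have hp1 : 1 ≤ p := (Fact.out : p.Prime).one_lt.le
  set Γ := Gm w pi with hΓdef
  have hcardΓ : Γ.card < 2 ^ (w + 1) := by
    have := card_Gm w pi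
    rw [pow_succ, hΓdef]; omega
  have hlvΓ : ∀ a ∈ Γ, lv none a ≤ d := by
    intro a ha
    obtain ⟨x, hx, c, rfl⟩ := mem_Gm.mp ha
    obtain ⟨b, hb, hxb⟩ := mem_Sb.mp hx
    exact ((lv_fr w c x).1.trans (lv_subs b x hxb)).trans (hdep b hb).1
  obtain ⟨ρ, hρ0, hρPP, hρm, hρN, hG⟩ := exists_contexts hq0 (closed_Gm w pi) hcardΓ hκ1 hκa hκm hκw
    (N := N) (d := d) (by rw [hN0, Fintype.card_fin]) hN h16 hroom hN1 d le_rfl
  obtain ⟨K, _, _, ψ, hψ, hqK⟩ := exists_field p q hpq
  obtain ⟨c, m, hm, hρy, hmD, huD, huZ⟩ := exists_worlds (s := s) hψ hqK ht hB hBt (hρPP d le_rfl)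
    (by have := hρN d le_rfl; unfold nun at this; rw [this, hNd])
  set M0 := 4 * t * κ d with hM0
  set M := M0 * (p * (w + 1)) ^ d with hM
  have hR1 : 1 ≤ p * (w + 1) := Nat.mul_pos hp1 (by omega)
  have hM0M : M0 ≤ M := Nat.le_mul_of_pos_right _ (Nat.pow_pos hR1)
  have hMB : 2 * M ≤ B := le_trans (Nat.mul_le_mul_right _ (by omega)) hbound
  obtain ⟨nv, sf, hcst, hall⟩ := exists_nv hψ hqK ht hB hm hmD huD huZ hρ0 (hρPP d le_rfl)
    (fun j hj => hρm j d hj le_rfl) hκm (fun a ha => ⟨hlvΓ a ha, hG a ha (hlvΓ a ha)⟩) hρy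
    (by rw [← hM0]; omega)
  have hdeg : ∀ a ∈ pi, Deg ψ M (bF K (mv w nv a).1) := by
    intro a ha
    have h1 := (deg_mv (p := p) (ψ := ψ) (w := w) (M0 := M0) (R := p * (w + 1)) (nv := nv)
      (Nat.le_mul_of_pos_left _ hp1) (Nat.le_mul_of_pos_right _ (by omega)) a (hdep a ha).2
      (fun b hb e => (hall _ (mem_Gm.mpr ⟨b, mem_Sb.mpr ⟨a, ha, hb⟩, e, rfl⟩)).1)).1
    exact h1.mono (Nat.mul_le_mul_left _ (Nat.pow_le_pow_right hR1 (hdep a ha).1))
  have hlines := lines_Zr (c := c) hψ hqK hq0 hB hm hcst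
    (fun b hb => ((hall b hb).2.1).mono hM0M) (fun b hb => (hall b hb).2.2.1)
    (fun b hb => (hall b hb).2.2.2.1) (fun b hb => (hall b hb).2.2.2.2) hpi
    (by
      intro a ha b hb x hx
      obtain ⟨y, hy, e, rfl⟩ := need_sub w b x hx
      exact mem_Gm.mpr ⟨y, Sb_closed (mem_Sb.mpr ⟨a, ha, hb⟩) hy, e, rfl⟩)
    hdeg (le_trans (Nat.mul_le_mul_right _ (by omega)) hbound) _ hT
  -- the final contradiction
  set T := countTaut p q n with hTdef
  have hTn : ¬ Wide w T := wide_countTaut w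
  have hTΓ : T ∈ Γ := mem_Gm.mpr ⟨T, mem_Sb.mpr ⟨T, hT, subs_self _⟩, true, (fr_narrow hTn).symm⟩
  have hd1 : 1 ≤ d := by
    have h1 := hlvΓ T hTΓ
    rw [hTdef] at h1
    unfold countTaut at h1
    rw [lv_bin] at h1
    omega
  have hnone : (CD q ρ κ T).1 true = ∅ := by
    refine no_true hq2 hρ0 (hκ1 0) ?_
    intro i hi τ hτ
    have h1 := nun_add hτ.1
    have h2 := nun_add (hρPP i (by omega))
    have h3 := hρN i (by omega)
    have h4 := hroom' i (by omega)
    have h5 : τ.card ≤ (ρ i).card + κ i := by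
      have := card_le_card_sdiff_add_card (s := τ) (t := ρ i)
      have h6 := hτ.2.2
      omega
    have h7 : q * τ.card ≤ q * (ρ i).card + q * κ i := by
      rw [← mul_add]; exact Nat.mul_le_mul_left _ h5
    omega
  obtain ⟨hT1, hT2, hT3, hT4, hT5⟩ := hall T hTΓ
  have hfalse : ∀ y, sf T y = 0 → nv T y = false := by
    intro y hy
    have h1 := hT5 y hy
    cases h : nv T y with
    | false => rfl
    | true =>
      rw [h] at h1
      obtain ⟨t', ht', _⟩ := h1
      rw [hnone] at ht'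
      exact absurd ht' (by simp)
  have hmvT : (mv w nv T).1 = nv T := (mv_narrow hTn).1
  rw [hmvT] at hlines
  have heq : bF K (nv T) = sf T * bF K (nv T) := by
    funext y
    rw [Pi.mul_apply, bF_apply]
    rcases hT4 y with h | h
    · rw [h, zero_mul, hfalse y h]; simp
    · rw [h, one_mul]
  have hZ : Zr ψ c B (bF K (nv T)) := by
    rw [heq]
    exact Zr.mul hψ hqK hB (by omega) hT2 hT3 hT1
  have hone : (1 : Flow q t → K) = (1 - bF K (nv T)) + bF K (nv T) := by ring
  refine not_Zr_one (c := c) hψ hqK ht ?_ (B := B)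
  rw [hone]
  exact hlines.add hZ

end Pool.Agent.Work.MP_c04246_lc
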