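import Mathlib
import Pool.Agent.Work.MP_c04246_lc.Defs

set_option autoImplicit false

namespace Pool.Agent.Work.MP_c04246_lc

namespace Fml

variable {p : ℕ} {V : Type}

open Classical in
/-- The set of outermost subformulas of the form `mod i k f` with `w < k`. -/
noncomputable def outer (w : ℕ) : Fml p V → Finset (Fml p V)
  | var _ => ∅
  | cst _ => ∅
  | neg a => outer w a
  | bin _ a b => outer w a ∪ outer w b
  | mod i k f => if w < k then {mod i k f} else Finset.univ.biUnion fun j => outer w (f j)

/-- The formula, and every argument of each of its counting connectives of fan-in greater than `w`,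
has at most `w` distinct outermost subformulas with a counting connective of fan-in greater
than `w`. -/
def Sparse (w : ℕ) (a : Fml p V) : Prop :=
  (outer w a).card ≤ w ∧ ∀ (i : ZMod p) (k : ℕ) (f : Fin k → Fml p V),
    mod i k f ∈ subs a → w < k → ∀ j, (outer w (f j)).card ≤ w

open Classical in
/-- `K`-local rule deriving the cedent `G` (a finite set of formulas, read as their disjunction)
from the `k` cedents `P i`: there are at most `K` premises, each containing at most `K` formulas
outside `G`; there are a set `C` of at most `K` subformulas of the formulas involved and a set `D`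
of at most `K` members of `G`, such that every assignment of truth values to all formulas which
obeys the truth tables of the outermost connectives of the members of `C` and makes all members of
`D` false makes, for some `i`, all members of `P i` outside `G` false. -/
def Rule (K : ℕ) {k : ℕ} (P : Fin k → Finset (Fml p V)) (G : Finset (Fml p V)) : Prop :=
  k ≤ K ∧ (∀ i, (P i \ G).card ≤ K) ∧ ∃ C D : Finset (Fml p V), C.card ≤ K ∧ D.card ≤ K ∧ D ⊆ G ∧
    (∀ c ∈ C, ∃ a, (a ∈ G ∨ ∃ i, a ∈ P i) ∧ c ∈ subs a) ∧
    ∀ v : Fml p V → Bool, (∀ c ∈ C, Resp v c) → (∀ a ∈ D, v a = false) →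
      ∃ i, ∀ a ∈ P i \ G, v a = false

end Fml

/-- Trees labelled by cedents: `lem G` is a leaf quoting an earlier result `G`, `inf G k t` is an
inference of `G` from the conclusions of the `k` subtrees. -/
inductive CTree (F : Type) : Type
  | lem : Finset F → CTree F
  | inf : Finset F → (k : ℕ) → (Fin k → CTree F) → CTree F

namespace CTree

/-- the conclusion -/
def root {F : Type} : CTree F → Finset F
  | lem G => G
  | inf G _ _ => G

/-- all formulas in the tree have the property `Q` -/
def All {F : Type} (Q : F → Prop) : CTree F → Prop
  | lem G => ∀ a ∈ G, Q a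
  | inf G _ t => (∀ a ∈ G, Q a) ∧ ∀ i, All Q (t i)

variable {p : ℕ} {V : Type}

/-- number of symbols (one extra symbol for each node) -/
def size : CTree (Fml p V) → ℕ
  | lem G => (∑ a ∈ G, a.size) + 1
  | inf G _ t => (∑ a ∈ G, a.size) + 1 + ∑ i, size (t i)

/-- all inferences are `K`-local rules, and all `lem` leaves belong to `A` -/
def Valid (K : ℕ) (A : Set (Finset (Fml p V))) : CTree (Fml p V) → Prop
  | lem G => G ∈ A
  | inf G _ t => Fml.Rule K (fun i => (t i).root) G ∧ ∀ i, Valid K A (t i)

end CTree

/-- A list of trees in which the conclusions of earlier trees may be quoted in later trees; the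
conclusions have at most `K` members, whereas the cedents inside the trees may have any number of
members. -/
def IsDerivation {p : ℕ} {V : Type} (K : ℕ) (l : List (CTree (Fml p V))) : Prop :=
  ∀ i : Fin l.length, (l.get i).root.card ≤ K ∧
    (l.get i).Valid K {G | ∃ j : Fin l.length, j < i ∧ (l.get j).root = G}

end Pool.Agent.Work.MP_c04246_lc
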