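import Mathlib
import Pool.Agent.Work.MP_c04246_lc.Sound
import Pool.Agent.Work.MP_c04246_lc.Defs2

set_option autoImplicit false
set_option linter.unusedSectionVars false
set_option linter.unusedSimpArgs false
set_option linter.unusedVariables false

namespace Pool.Agent.Work.MP_c04246_lc

open Finset Fml

section outer

variable {p : ℕ} {V : Type}

lemma outer_sub_subs (w : ℕ) (a : Fml p V) : outer w a ⊆ subs a := by
  classical
  induction a with
  | var x => simp [outer]
  | cst b => simp [outer]
  | neg a ih => simp only [outer]; exact ih.trans (subs_neg a)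
  | bin c a b iha ihb =>
    simp only [outer]
    exact union_subset (iha.trans (subs_bin_l _ _ _)) (ihb.trans (subs_bin_r _ _ _))
  | mod i k f ih =>
    simp only [outer]
    split_ifs with h
    · rw [singleton_subset_iff]; exact subs_self _
    · exact biUnion_subset.mpr fun j _ => (ih j).trans (subs_mod i k f j)

open Classical in
/-- replace the outermost wide counting subformulas by truth values -/
noncomputable def sb (w : ℕ) (T : Finset (Fml p V)) : Fml p V → Fml p V
  | var x => var x
  | cst b => cst b
  | neg a => neg (sb w T a)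
  | bin c a b => bin c (sb w T a) (sb w T b)
  | mod i k f => if w < k then cst (decide (mod i k f ∈ T)) else mod i k fun j => sb w T (f j)

lemma sb_congr (w : ℕ) {T T' : Finset (Fml p V)} (a : Fml p V)
    (h : ∀ g ∈ outer w a, (g ∈ T ↔ g ∈ T')) : sb w T a = sb w T' a := by
  classical
  induction a with
  | var x => rfl
  | cst b => rfl
  | neg a ih => simp only [sb]; rw [ih h]
  | bin c a b iha ihb =>
    simp only [sb]
    rw [iha fun g hg => h g (by simp only [outer]; exact mem_union_left _ hg),
      ihb fun g hg => h g (by simp only [outer]; exact mem_union_right _ hg)]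
  | mod i k f ih =>
    simp only [sb]
    split_ifs with hk
    · have h1 := h (mod i k f) (by simp [outer, hk])
      simp only [h1]
    · congr 1
      funext j
      exact ih j fun g hg => h g (by
        simp only [outer, if_neg hk]
        exact mem_biUnion.mpr ⟨j, mem_univ _, hg⟩)

lemma lv_sb (w : ℕ) (T : Finset (Fml p V)) (a : Fml p V) : ∀ r, lv r (sb w T a) ≤ lv r a := by
  classical
  induction a with
  | var x => intro r; exact le_rfl
  | cst b => intro r; exact le_rfl
  | neg a ih => intro r; simp only [sb, lv]; exact ih none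
  | bin c a b iha ihb =>
    intro r
    simp only [sb, lv]
    have h1 := iha (some c)
    have h2 := ihb (some c)
    omega
  | mod i k f ih =>
    intro r
    simp only [sb]
    split_ifs with hk
    · simp [lv]
    · simp only [lv]
      have : (univ.sup fun j => lv none (sb w T (f j))) ≤ univ.sup fun j => lv none (f j) :=
        Finset.sup_mono_fun fun j _ => ih j none
      omega

variable {Y : Type}

open Classical in
/-- the formula with the outermost wide counting subformulas replaced by their values in `y` -/
noncomputable def sv (w : ℕ) (nv : Fml p V → Y → Bool) : Fml p V → Y → Fml p V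
  | var x, _ => var x
  | cst b, _ => cst b
  | neg a, y => neg (sv w nv a y)
  | bin c a b, y => bin c (sv w nv a y) (sv w nv b y)
  | mod i k f, y => if w < k then
      cst (decide ((∑ j, if nv (sv w nv (f j) y) y then (1 : ZMod p) else 0) = i))
      else mod i k fun j => sv w nv (f j) y

/-- the value of a formula -/
noncomputable def vl (w : ℕ) (nv : Fml p V → Y → Bool) (a : Fml p V) (y : Y) : Bool :=
  nv (sv w nv a y) y

lemma vl_wide {w : ℕ} {nv : Fml p V → Y → Bool} (hc : ∀ b y, nv (cst b) y = b) {i : ZMod p}
    {k : ℕ} {f : Fin k → Fml p V} (hk : w < k) (y : Y) :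
    vl w nv (mod i k f) y =
      decide ((∑ j, if vl w nv (f j) y then (1 : ZMod p) else 0) = i) := by
  unfold vl
  simp only [sv, if_pos hk, hc]

lemma sv_eq {w : ℕ} {nv : Fml p V → Y → Bool} (hc : ∀ b y, nv (cst b) y = b) (y : Y)
    (T : Finset (Fml p V)) (a : Fml p V)
    (h : ∀ g ∈ outer w a, (g ∈ T ↔ vl w nv g y = true)) : sv w nv a y = sb w T a := by
  classical
  induction a with
  | var x => rfl
  | cst b => rfl
  | neg a ih => simp only [sb, sv]; rw [ih h]
  | bin c a b iha ihb =>
    simp only [sb, sv]
    rw [iha fun g hg => h g (by simp only [outer]; exact mem_union_left _ hg),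
      ihb fun g hg => h g (by simp only [outer]; exact mem_union_right _ hg)]
  | mod i k f ih =>
    by_cases hk : w < k
    · have h1 := h (mod i k f) (by simp [outer, hk])
      rw [vl_wide hc hk] at h1
      simp only [sb, sv, if_pos hk]
      congr 1
      unfold vl at h1
      by_cases h2 : mod i k f ∈ T
      · rw [h1.mp h2]; simp [h2]
      · have h3 : ¬ _ := fun h' => h2 (h1.mpr h')
        rw [Bool.not_eq_true] at h3
        rw [h3]; simp [h2]
    · simp only [sb, sv, if_neg hk]
      congr 1
      funext j
      exact ih j fun g hg => h g (by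
        simp only [outer, if_neg hk]
        exact mem_biUnion.mpr ⟨j, mem_univ _, hg⟩)

open Classical in
/-- formulas on which the truth-table condition of a formula depends -/
noncomputable def nd (w : ℕ) : Fml p V → Finset (Fml p V)
  | var _ => ∅
  | cst _ => ∅
  | neg a => {neg a, a}
  | bin c a b => {bin c a b, a, b}
  | mod i k f => if w < k then ∅ else insert (mod i k f) (univ.image f)

lemma card_nd (w : ℕ) (a : Fml p V) : (nd w a).card ≤ w + 3 := by
  classical
  cases a with
  | var x => simp [nd]
  | cst x => simp [nd]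
  | neg a =>
    simp only [nd]
    exact (card_le_two).trans (by omega)
  | bin c a b =>
    simp only [nd]
    exact (card_le_three).trans (by omega)
  | mod i k f =>
    simp only [nd]
    split_ifs with h
    · simp
    · have h1 := card_image_le (s := (univ : Finset (Fin k))) (f := f)
      rw [card_univ, Fintype.card_fin] at h1
      exact (card_insert_le _ _).trans (by omega)

lemma nd_sub (w : ℕ) (a : Fml p V) : nd w a ⊆ subs a := by
  classical
  cases a with
  | var x => simp [nd]
  | cst x => simp [nd]
  | neg a =>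
    intro b hb
    simp only [nd, mem_insert, mem_singleton] at hb
    rcases hb with rfl | rfl
    · exact subs_self _
    · exact subs_neg _ (subs_self _)
  | bin c a b =>
    intro x hx
    simp only [nd, mem_insert, mem_singleton] at hx
    rcases hx with rfl | rfl | rfl
    · exact subs_self _
    · exact subs_bin_l _ _ _ (subs_self _)
    · exact subs_bin_r _ _ _ (subs_self _)
  | mod i k f =>
    intro x hx
    simp only [nd] at hx
    split_ifs at hx with h
    · exact absurd hx (notMem_empty _)
    · simp only [mem_insert, mem_image, mem_univ, true_and] at hx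
      rcases hx with rfl | ⟨j, rfl⟩
      · exact subs_self _
      · exact subs_mod _ _ _ j (subs_self _)

end outer

section resp

variable {p q : ℕ} {U : Type} [DecidableEq U] {ρ : ℕ → Finset (Finset U)} {κ : ℕ → ℕ}

lemma resp_of_nd (hq : 0 < q) {Y : Type} {w : ℕ} {nv : Fml p (Vr q U) → Y → Bool}
    (hc : ∀ b y, nv (cst b) y = b) {m : Finset (Finset U)} (hm : PP q m) {y : Y}
    (a : Fml p (Vr q U)) (hV : ∀ b ∈ nd w a, Vd q ρ κ (sv w nv b y) (nv (sv w nv b y) y) m) :
    Resp (fun φ => vl w nv φ y) a := by
  classical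
  cases a with
  | var x => trivial
  | cst b =>
    show vl w nv (cst b) y = b
    exact hc b y
  | neg a =>
    show vl w nv (neg a) y = !vl w nv a y
    have h3 := hV (neg a) (by simp [nd])
    have h4 := hV a (by simp [nd])
    have h5 : sv w nv (neg a) y = neg (sv w nv a y) := rfl
    unfold vl
    rw [h5] at h3 ⊢
    rw [Vd_neg] at h3
    have h6 := Vd_unique hq hm h3 h4
    rw [← h6, Bool.not_not]
  | bin c a b =>
    show vl w nv (bin c a b) y = if c then (vl w nv a y || vl w nv b y)
      else (vl w nv a y && vl w nv b y)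
    exact Vd_bin hq hm (hV (bin c a b) (by simp [nd])) (hV a (by simp [nd])) (hV b (by simp [nd]))
  | mod i k f =>
    show vl w nv (mod i k f) y =
      decide ((∑ j, if vl w nv (f j) y then (1 : ZMod p) else 0) = i)
    by_cases hk : w < k
    · exact vl_wide hc hk y
    · have h1 := hV (mod i k f) (by simp [nd, hk])
      have h2 : ∀ j, Vd q ρ κ (sv w nv (f j) y) (nv (sv w nv (f j) y) y) m :=
        fun j => hV (f j) (by simp [nd, hk])
      unfold vl
      have h5 : sv w nv (mod i k f) y = mod i k (fun j => sv w nv (f j) y) := by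
        simp only [sv, if_neg hk]
      rw [h5] at h1 ⊢
      exact Vd_mod hq hm h1 h2

end resp

section degs

variable {p q t : ℕ} [NeZero q] {K : Type} [Field K] {ψ : AddChar (ZMod q) K}
  {c : Fin t → ZMod q} {V : Type}

open Classical in
/-- indicator of the set `T` being the set of true members of `S` -/
noncomputable def pat (K : Type) [Field K] (F : Fml p V → Flow q t → Bool)
    (S T : Finset (Fml p V)) : Flow q t → K :=
  ∏ g ∈ S, if g ∈ T then bF K (F g) else 1 - bF K (F g)

lemma pat_apply (F : Fml p V → Flow q t → Bool) (S T : Finset (Fml p V)) (y : Flow q t) :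
    (pat K F S T y = 0 ∨ pat K F S T y = 1) ∧
    (pat K F S T y = 1 ↔ ∀ g ∈ S, (g ∈ T ↔ F g y = true)) := by
  classical
  have h0 : ∀ g, (if g ∈ T then bF K (F g) else 1 - bF K (F g)) y =
      if (g ∈ T ↔ F g y = true) then 1 else 0 := by
    intro g
    by_cases h1 : g ∈ T <;> by_cases h2 : F g y = true <;> simp [h1, h2, bF_apply]
  have h1 : pat K F S T y = ∏ g ∈ S, if (g ∈ T ↔ F g y = true) then (1 : K) else 0 := by
    unfold pat
    rw [Finset.prod_apply]
    exact prod_congr rfl fun g _ => h0 g
  by_cases h : ∀ g ∈ S, (g ∈ T ↔ F g y = true)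
  · have h2 : pat K F S T y = 1 := by
      rw [h1]; exact prod_eq_one fun g hg => if_pos (h g hg)
    exact ⟨Or.inr h2, fun _ => h, fun _ => h2⟩
  · have h2 : pat K F S T y = 0 := by
      rw [h1]
      push Not at h
      obtain ⟨g, hg, hg'⟩ := h
      apply prod_eq_zero hg
      apply if_neg
      rcases hg' with ⟨a, b⟩ | ⟨a, b⟩
      · exact fun h' => b (h'.mp a)
      · exact fun h' => a (h'.mpr b)
    refine ⟨Or.inl h2, fun h3 => ?_, fun h3 => absurd h3 h⟩
    rw [h2] at h3; exact absurd h3 zero_ne_one

lemma deg_pat {D : ℕ} (F : Fml p V → Flow q t → Bool) (S T : Finset (Fml p V))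
    (h : ∀ g ∈ S, Deg ψ D (bF K (F g))) : Deg ψ (S.card * D) (pat K F S T) := by
  classical
  unfold pat
  apply Deg.prod
  intro g hg
  split_ifs
  · exact h g hg
  · exact Deg.one.sub (h g hg)

/-- expansion over the patterns -/
lemma expand (F : Fml p V → Flow q t → Bool) (S : Finset (Fml p V))
    (H : Finset (Fml p V) → Flow q t → K) (G : Flow q t → K)
    (hG : ∀ y T, T ⊆ S → (∀ g ∈ S, (g ∈ T ↔ F g y = true)) → G y = H T y) :
    G = ∑ T ∈ S.powerset, pat K F S T * H T := by
  classical
  funext y
  rw [Finset.sum_apply]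
  set T0 := S.filter (fun g => F g y = true) with hT0
  have hT0S : T0 ⊆ S := filter_subset _ _
  have hT0p : ∀ g ∈ S, (g ∈ T0 ↔ F g y = true) := by
    intro g hg
    rw [hT0, mem_filter]
    exact ⟨fun h => h.2, fun h => ⟨hg, h⟩⟩
  rw [sum_eq_single T0]
  · rw [Pi.mul_apply, ((pat_apply F S T0 y).2).mpr hT0p, one_mul]
    exact hG y T0 hT0S hT0p
  · intro T hT hne
    rw [Pi.mul_apply]
    rcases (pat_apply (K := K) F S T y).1 with h | h
    · rw [h, zero_mul]
    · exfalso
      apply hne
      have h1 := ((pat_apply F S T y).2).mp h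
      ext g
      constructor
      · intro hg
        have hgS := mem_powerset.mp hT hg
        exact (hT0p g hgS).mpr ((h1 g hgS).mp hg)
      · intro hg
        have hgS := hT0S hg
        exact (h1 g hgS).mpr ((hT0p g hgS).mp hg)
  · intro h
    exact absurd (mem_powerset.mpr hT0S) h

lemma deg_sv {w : ℕ} {nv : Fml p V → Flow q t → Bool} (hc : ∀ b y, nv (cst b) y = b)
    {M0 D : ℕ} (a : Fml p V) (H : Fml p V → Flow q t → K)
    (hH : ∀ T ⊆ outer w a, Deg ψ M0 (H (sb w T a)))
    (hD : ∀ g ∈ outer w a, Deg ψ D (bF K (vl w nv g))) :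
    Deg ψ ((outer w a).card * D + M0) (fun y => H (sv w nv a y) y) := by
  classical
  rw [expand (vl w nv) (outer w a) (fun T => H (sb w T a)) (fun y => H (sv w nv a y) y)
    (fun y T _ hT => by rw [sv_eq hc y T a hT])]
  exact Deg.sum _ _ fun T hT => (deg_pat _ _ _ hD).mul (hH T (mem_powerset.mp hT))

lemma zr_sv (hψ : ψ.IsPrimitive) (hq : (q : K) ≠ 0) {B : ℕ} (hB : 8 * B < t * t) {w : ℕ}
    {nv : Fml p V → Flow q t → Bool} (hc : ∀ b y, nv (cst b) y = b)
    {M0 D : ℕ} (a : Fml p V) (H : Fml p V → Flow q t → K)
    (hH : ∀ T ⊆ outer w a, Deg ψ M0 (H (sb w T a)))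
    (hZ : ∀ T ⊆ outer w a, Zr ψ c B (H (sb w T a)))
    (hD : ∀ g ∈ outer w a, Deg ψ D (bF K (vl w nv g))) (hb : (outer w a).card * D + M0 ≤ B) :
    Zr ψ c B (fun y => H (sv w nv a y) y) := by
  classical
  rw [expand (vl w nv) (outer w a) (fun T => H (sb w T a)) (fun y => H (sv w nv a y) y)
    (fun y T _ hT => by rw [sv_eq hc y T a hT])]
  refine Zr.sum _ _ fun T hT => ?_
  rw [mul_comm]
  exact Zr.mul hψ hq hB (by rw [add_comm]; exact hb) (hH T (mem_powerset.mp hT))
    (hZ T (mem_powerset.mp hT)) (deg_pat _ _ _ hD)

/-- degrees of the outermost wide counting subformulas -/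
lemma deg_outer [Fact p.Prime] [CharP K p] {w M0 R : ℕ} {nv : Fml p V → Flow q t → Bool}
    (hc : ∀ b y, nv (cst b) y = b) (hR : p * (w + 1) ≤ R) (hR1 : 1 ≤ R) (a : Fml p V) :
    (∀ b ∈ subs a, ∀ T ⊆ outer w b, Deg ψ M0 (bF K (nv (sb w T b)))) →
    (∀ (i : ZMod p) (k : ℕ) (f : Fin k → Fml p V),
      mod i k f ∈ subs a → w < k → ∀ j, (outer w (f j)).card ≤ w) →
    ∀ g ∈ outer w a, Deg ψ (M0 * R ^ dpt none g) (bF K (vl w nv g)) := by
  classical
  have hle : ∀ {i j : ℕ}, i ≤ j → M0 * R ^ i ≤ M0 * R ^ j := fun h =>
    Nat.mul_le_mul_left _ (Nat.pow_le_pow_right hR1 h)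
  induction a with
  | var x => intro _ _ g hg; simp [outer] at hg
  | cst x => intro _ _ g hg; simp [outer] at hg
  | neg a ih =>
    intro hN hS
    simp only [outer]
    exact ih (fun b hb => hN b (subs_neg a hb)) (fun i k f hf => hS i k f (subs_neg a hf))
  | bin c a b iha ihb =>
    intro hN hS g hg
    simp only [outer] at hg
    rcases mem_union.mp hg with h | h
    · exact iha (fun b hb => hN b (subs_bin_l _ _ _ hb))
        (fun i k f hf => hS i k f (subs_bin_l _ _ _ hf)) g h
    · exact ihb (fun b hb => hN b (subs_bin_r _ _ _ hb))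
        (fun i k f hf => hS i k f (subs_bin_r _ _ _ hf)) g h
  | mod i k f ih =>
    intro hN hS g hg
    simp only [outer] at hg
    split_ifs at hg with hk
    · rw [mem_singleton] at hg
      subst hg
      set s := univ.sup fun j => dpt none (f j) with hs
      have hj : ∀ j, Deg ψ ((w + 1) * (M0 * R ^ s)) (bF K (vl w nv (f j))) := by
        intro j
        have hsj : dpt none (f j) ≤ s := le_sup (f := fun j => dpt none (f j)) (mem_univ j)
        have h1 := ih j (fun b hb => hN b (subs_mod i k f j hb))
          (fun i' k' f' hf => hS i' k' f' (subs_mod i k f j hf))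
        have h2 : ∀ g ∈ outer w (f j), Deg ψ (M0 * R ^ s) (bF K (vl w nv g)) := fun g hg =>
          (h1 g hg).mono (hle ((dpt_subs (f j) g (outer_sub_subs w _ hg)).trans hsj))
        have h3 := deg_sv (ψ := ψ) (K := K) (w := w) hc (f j) (fun a y => bF K (nv a) y)
          (M0 := M0) (D := M0 * R ^ s)
          (fun T hT => hN (f j) (subs_mod i k f j (subs_self _)) T hT) h2
        refine Deg.mono ?_ h3
        have h4 := hS i k f (subs_self _) hk j
        have h5 : M0 ≤ M0 * R ^ s := by simpa using hle (Nat.zero_le s)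
        calc (outer w (f j)).card * (M0 * R ^ s) + M0 ≤ w * (M0 * R ^ s) + M0 * R ^ s :=
              add_le_add (Nat.mul_le_mul_right _ h4) h5
          _ = (w + 1) * (M0 * R ^ s) := by ring
      have h6 := Deg.bF_mod (p := p) (i := i) hj
      have h7 : (fun y => decide ((∑ j, if vl w nv (f j) y then (1 : ZMod p) else 0) = i)) =
          vl w nv (mod i k f) := by
        funext y; exact (vl_wide hc hk y).symm
      rw [h7] at h6
      refine h6.mono ?_
      simp only [dpt]
      rw [pow_add, pow_one]
      calc p * ((w + 1) * (M0 * R ^ s)) = (p * (w + 1)) * (M0 * R ^ s) := by ring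
        _ ≤ R * (M0 * R ^ s) := Nat.mul_le_mul_right _ hR
        _ = M0 * (R * R ^ s) := by ring
    · obtain ⟨j, _, hj⟩ := mem_biUnion.mp hg
      exact ih j (fun b hb => hN b (subs_mod i k f j hb))
        (fun i' k' f' hf => hS i' k' f' (subs_mod i k f j hf)) g hj

end degs

end Pool.Agent.Work.MP_c04246_lc
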