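import Mathlib
import Pool.Agent.Work.MP_c04246_lc.Subst

set_option autoImplicit false
set_option linter.unusedSectionVars false
set_option linter.unusedSimpArgs false
set_option linter.unusedVariables false

namespace Pool.Agent.Work.MP_c04246_lc

open Finset Fml

section rel

variable {q t : ℕ} [NeZero q] {K : Type} [Field K] {ψ : AddChar (ZMod q) K}
  {c : Fin t → ZMod q}

lemma Zr.mul' (hψ : ψ.IsPrimitive) (hq : (q : K) ≠ 0) {B D D' : ℕ} (hB : 8 * B < t * t)
    (hD : D + D' ≤ B) {f g : Flow q t → K} (hfD : Deg ψ D f) (hf : Zr ψ c B f)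
    (hg : Deg ψ D' g) : Zr ψ c B (g * f) := by
  rw [mul_comm]; exact Zr.mul hψ hq hB hD hfD hf hg

/-- products of functions congruent to one on `χ` -/
lemma Zr.rel_prod (hψ : ψ.IsPrimitive) (hq : (q : K) ≠ 0) {B M D : ℕ} (hB : 8 * B < t * t)
    {ι : Type*} (s : Finset ι) (z : ι → Flow q t → K) (χ : Flow q t → K) (hχ : Deg ψ D χ)
    (hD : ∀ i ∈ s, Deg ψ M (z i)) (hZ : ∀ i ∈ s, Zr ψ c B (z i * χ))
    (hcard : s.card * M + D ≤ B) :
    Zr ψ c B ((1 - ∏ i ∈ s, (1 - z i)) * χ) ∧
      Deg ψ (s.card * M + D) ((1 - ∏ i ∈ s, (1 - z i)) * χ) := by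
  classical
  induction s using Finset.induction_on with
  | empty =>
    simp only [prod_empty, sub_self, zero_mul]
    exact ⟨Zr.zero, Deg.zero⟩
  | insert a s ha ih =>
    rw [card_insert_of_notMem ha] at hcard ⊢
    have hle : s.card * M + D ≤ (s.card + 1) * M + D := by nlinarith
    obtain ⟨h1, h2⟩ := ih (fun i hi => hD i (mem_insert_of_mem hi))
      (fun i hi => hZ i (mem_insert_of_mem hi)) (hle.trans hcard)
    have ha1 := hD a (mem_insert_self a s)
    have ha2 := hZ a (mem_insert_self a s)
    rw [prod_insert ha]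
    have heq : ((1 - (1 - z a) * ∏ i ∈ s, (1 - z i)) * χ : Flow q t → K)
        = z a * χ + ((1 - ∏ i ∈ s, (1 - z i)) * χ - z a * ((1 - ∏ i ∈ s, (1 - z i)) * χ)) := by ring
    rw [heq]
    have hsum : M + (s.card * M + D) = (s.card + 1) * M + D := by ring
    constructor
    · refine ha2.add (h1.sub (Zr.mul' hψ hq hB ?_ h2 h1 ha1))
      rw [add_comm, hsum]; exact hcard
    · refine ((ha1.mul hχ).mono ?_).add ((h2.mono hle).sub ((ha1.mul h2).mono (le_of_eq hsum)))
      nlinarith [Nat.zero_le (s.card * M)]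

end rel

namespace CTree

variable {p : ℕ} {V : Type}

/-- number of nodes -/
def nodes : CTree (Fml p V) → ℕ
  | lem _ => 1
  | inf _ _ t => 1 + ∑ i, nodes (t i)

lemma nodes_le (T : CTree (Fml p V)) : T.nodes ≤ T.size := by
  induction T with
  | lem G => simp only [nodes, size]; omega
  | inf G k t ih =>
    simp only [nodes, size]
    have := Finset.sum_le_sum (s := univ) (fun i _ => ih i)
    omega

end CTree

section walk

variable {p q t : ℕ} [NeZero q] {K : Type} [Field K] {ψ : AddChar (ZMod q) K}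
  {c : Fin t → ZMod q} {V : Type}

/-- evaluation of formulas up to small errors -/
structure Ev (ψ : AddChar (ZMod q) K) (c : Fin t → ZMod q) (B M w : ℕ) (S : Finset (Fml p V))
    (F : Fml p V → Flow q t → Bool) (E : Fml p V → Flow q t → K) : Prop where
  closed : ∀ a ∈ S, subs a ⊆ S
  degF : ∀ a ∈ S, Deg ψ M (bF K (F a))
  degE : ∀ a ∈ S, Deg ψ M (E a)
  zrE : ∀ a ∈ S, Zr ψ c B (E a)
  e01 : ∀ a ∈ S, ∀ y, E a y = 0 ∨ E a y = 1
  resp : ∀ a ∈ S, ∀ y, (∀ b ∈ nd w a, E b y = 0) → Resp (fun φ => F φ y) a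

variable {B M w L : ℕ} {S : Finset (Fml p V)} {F : Fml p V → Flow q t → Bool}
  {E : Fml p V → Flow q t → K}

open Classical in
lemma local_step (hψ : ψ.IsPrimitive) (hq : (q : K) ≠ 0) (hB : 8 * B < t * t)
    (hev : Ev ψ c B M w S F E) {k : ℕ} {P : Fin k → Finset (Fml p V)} {G : Finset (Fml p V)}
    (hr : Rule L P G) (hG : ∀ a ∈ G, a ∈ S) (hP : ∀ i, ∀ a ∈ P i, a ∈ S)
    {χ : Flow q t → K} {D : ℕ} (hχ : Deg ψ D χ) (hroot : ∀ a ∈ G, Zr ψ c B (bF K (F a) * χ))
    (hb : D + (L * (w + 3) + L + L * L) * M ≤ B) {α : Finset (Fml p V)}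
    (hα : ¬ Zr ψ c B (χ * pat K F (univ.biUnion fun i => P i \ G) α)) :
    ∃ i, ∀ a ∈ P i \ G, a ∉ α := by
  obtain ⟨hkL, hnew, C, D', hC, hD', hDG, hCs, himp⟩ := hr
  by_contra hcon
  push Not at hcon
  apply hα
  set N := univ.biUnion fun i => P i \ G with hN
  have hNc : N.card ≤ L * L := by
    have h1 : N.card ≤ (univ : Finset (Fin k)).card * L :=
      card_biUnion_le_card_mul _ _ _ fun i _ => hnew i
    rw [card_univ, Fintype.card_fin] at h1
    exact h1.trans (Nat.mul_le_mul_right _ hkL)
  have hNS : ∀ a ∈ N, a ∈ S := by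
    intro a ha
    obtain ⟨i, _, hi⟩ := mem_biUnion.mp ha
    exact hP i a (mem_sdiff.mp hi).1
  have hCS : ∀ b ∈ C.biUnion (nd w), b ∈ S := by
    intro b hb'
    obtain ⟨c', hc', hb''⟩ := mem_biUnion.mp hb'
    obtain ⟨a, ha, hca⟩ := hCs c' hc'
    have haS : a ∈ S := by
      rcases ha with h | ⟨i, h⟩
      · exact hG a h
      · exact hP i a h
    exact hev.closed a haS (subs_trans a c' hca (nd_sub w c' hb''))
  have hCS' : ∀ c' ∈ C, c' ∈ S := by
    intro c' hc'
    obtain ⟨a, ha, hca⟩ := hCs c' hc'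
    rcases ha with h | ⟨i, h⟩
    · exact hev.closed a (hG a h) hca
    · exact hev.closed a (hP i a h) hca
  have hcardI : ((C.biUnion (nd w)).disjSum D').card ≤ L * (w + 3) + L := by
    rw [card_disjSum]
    have h1 : (C.biUnion (nd w)).card ≤ C.card * (w + 3) :=
      card_biUnion_le_card_mul _ _ _ fun a _ => card_nd w a
    have h2 : C.card * (w + 3) ≤ L * (w + 3) := Nat.mul_le_mul_right _ hC
    omega
  have hprod : ((C.biUnion (nd w)).disjSum D').card * M + D ≤ D + (L * (w + 3) + L) * M := by
    have := Nat.mul_le_mul_right M hcardI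
    omega
  have hsplit : D + (L * (w + 3) + L + L * L) * M = D + (L * (w + 3) + L) * M + L * L * M := by ring
  obtain ⟨hz1, hz2⟩ := Zr.rel_prod (c := c) (M := M) hψ hq hB ((C.biUnion (nd w)).disjSum D')
    (Sum.elim E (fun a => bF K (F a))) χ hχ
    (by
      rintro (b | b) hb'
      · rw [inl_mem_disjSum] at hb'
        exact hev.degE b (hCS b hb')
      · rw [inr_mem_disjSum] at hb'
        exact hev.degF b (hG b (hDG hb')))
    (by
      rintro (b | b) hb'
      · rw [inl_mem_disjSum] at hb'
        have hcp : 1 ≤ ((C.biUnion (nd w)).disjSum D').card :=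
          card_pos.mpr ⟨Sum.inl b, inl_mem_disjSum.mpr hb'⟩
        refine Zr.mul hψ hq hB ?_ (hev.degE b (hCS b hb')) (hev.zrE b (hCS b hb')) hχ
        have : M ≤ ((C.biUnion (nd w)).disjSum D').card * M := Nat.le_mul_of_pos_left _ hcp
        omega
      · rw [inr_mem_disjSum] at hb'
        exact hroot b (hDG hb'))
    (by omega)
  have hpatD : Deg ψ (L * L * M) (pat K F N α) :=
    (deg_pat _ _ _ fun g hg => hev.degF g (hNS g hg)).mono (Nat.mul_le_mul_right _ hNc)
  have hz3 := Zr.mul hψ hq hB (D := D + (L * (w + 3) + L) * M) (D' := L * L * M)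
    (by omega) (hz2.mono hprod) hz1 hpatD
  have heq : χ * pat K F N α = (1 - ∏ i ∈ (C.biUnion (nd w)).disjSum D',
      (1 - Sum.elim E (fun a => bF K (F a)) i)) * χ * pat K F N α := by
    funext y
    simp only [Pi.mul_apply]
    rcases (pat_apply (K := K) F N α y).1 with h | h
    · rw [h]; simp
    · have hpat := ((pat_apply (K := K) F N α y).2).mp h
      have h0 : (∏ i ∈ (C.biUnion (nd w)).disjSum D',
          (1 - Sum.elim E (fun a => bF K (F a)) i)) y = 0 := by
        rw [Finset.prod_apply]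
        by_contra hne
        rw [prod_eq_zero_iff] at hne
        push Not at hne
        have hE : ∀ b ∈ C.biUnion (nd w), E b y = 0 := by
          intro b hb'
          have h1 := hne (Sum.inl b) (inl_mem_disjSum.mpr hb')
          simp only [Pi.sub_apply, Pi.one_apply, Sum.elim_inl] at h1
          rcases hev.e01 b (hCS b hb') y with h2 | h2
          · exact h2
          · rw [h2] at h1; simp at h1
        have hF : ∀ a ∈ D', F a y = false := by
          intro a ha
          have h1 := hne (Sum.inr a) (inr_mem_disjSum.mpr ha)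
          simp only [Pi.sub_apply, Pi.one_apply, Sum.elim_inr, bF_apply] at h1
          by_contra h2
          rw [if_pos (by simpa using h2)] at h1
          simp at h1
        obtain ⟨i, hi⟩ := himp (fun φ => F φ y) (fun c' hc' =>
          hev.resp c' (hCS' c' hc') y fun b hb' => hE b (mem_biUnion.mpr ⟨c', hc', hb'⟩)) hF
        obtain ⟨a, ha, haα⟩ := hcon i
        have h3 := (hpat a (mem_biUnion.mpr ⟨i, mem_univ _, ha⟩)).mp haα
        have h4 := hi a ha
        rw [h4] at h3; exact Bool.noConfusion h3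
      rw [Pi.sub_apply, h0, Pi.one_apply, sub_zero, one_mul]
  rw [heq]
  exact hz3

open Classical in
theorem walk (hψ : ψ.IsPrimitive) (hq : (q : K) ≠ 0) (hB : 8 * B < t * t)
    (hev : Ev ψ c B M w S F E) {A : Set (Finset (Fml p V))}
    (hA : ∀ G ∈ A, G.card ≤ L ∧ (∀ a ∈ G, a ∈ S) ∧ Zr ψ c B (∏ a ∈ G, (1 - bF K (F a))))
    (T : CTree (Fml p V)) : ∀ (h : ℕ) (χ : Flow q t → K) (D : ℕ), T.Valid L A →
      T.All (fun a => a ∈ S) → T.nodes < 2 ^ h → Deg ψ D χ → ¬ Zr ψ c B χ →
      (∀ a ∈ T.root, Zr ψ c B (bF K (F a) * χ)) →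
      D + (h * (L * L) + (L * (w + 3) + L + L * L + 1)) * M ≤ B → False := by
  induction T with
  | lem G =>
    intro h χ D hval hall hn hχ hnz hroot hb
    obtain ⟨h1, h2, h3⟩ := hA G hval
    have hGM : G.card * M + D ≤ B := by
      refine le_trans ?_ hb
      have : G.card * M ≤ (h * (L * L) + (L * (w + 3) + L + L * L + 1)) * M :=
        Nat.mul_le_mul_right _ (h1.trans (by omega))
      omega
    have hd : Deg ψ (G.card * M) (∏ a ∈ G, (1 - bF K (F a))) :=
      Deg.prod _ _ fun a ha => Deg.one.sub (hev.degF a (h2 a ha))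
    have h4 := Zr.mul hψ hq hB hGM hd h3 hχ
    have h5 := (Zr.rel_prod (c := c) (M := M) hψ hq hB G (fun a => bF K (F a)) χ hχ
      (fun a ha => hev.degF a (h2 a ha)) hroot hGM).1
    apply hnz
    have : χ = (1 - ∏ a ∈ G, (1 - bF K (F a))) * χ + (∏ a ∈ G, (1 - bF K (F a))) * χ := by ring
    rw [this]
    exact h5.add h4
  | inf G k t ih =>
    intro h χ D hval hall hn hχ hnz hroot hb
    obtain ⟨hr, hval'⟩ := hval
    obtain ⟨hG, hall'⟩ := hall
    have hP : ∀ i, ∀ a ∈ (t i).root, a ∈ S := by
      intro i a ha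
      have := hall' i
      cases hti : t i with
      | lem G' => rw [hti] at this ha; exact this a ha
      | inf G' k' t' => rw [hti] at this ha; exact this.1 a ha
    set N := univ.biUnion fun i => (t i).root \ G with hN
    have hNc : N.card ≤ L * L := by
      have h1 : N.card ≤ (univ : Finset (Fin k)).card * L :=
        card_biUnion_le_card_mul _ _ _ fun i _ => hr.2.1 i
      rw [card_univ, Fintype.card_fin] at h1
      exact h1.trans (Nat.mul_le_mul_right _ hr.1)
    have hNS : ∀ a ∈ N, a ∈ S := by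
      intro a ha
      obtain ⟨i, _, hi⟩ := mem_biUnion.mp ha
      exact hP i a (mem_sdiff.mp hi).1
    have hpatD : ∀ α, Deg ψ (L * L * M) (pat K F N α) := fun α =>
      (deg_pat _ _ _ fun g hg => hev.degF g (hNS g hg)).mono (Nat.mul_le_mul_right _ hNc)
    have hb1 : D + (L * (w + 3) + L + L * L) * M ≤ B := by
      refine le_trans (Nat.add_le_add_left (Nat.mul_le_mul_right _ ?_) _) hb
      omega
    have hstep : ∀ α, ¬ Zr ψ c B (χ * pat K F N α) → ∃ i, ∀ a ∈ (t i).root \ G, a ∉ α :=
      fun α hα => local_step hψ hq hB hev hr hG hP hχ hroot hb1 hα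
    -- a formula outside `α` is false on the pattern `α`
    have hkill : ∀ α, ∀ a ∈ N, a ∉ α → bF K (F a) * pat K F N α = 0 := by
      intro α a ha haα
      funext y
      rw [Pi.mul_apply, Pi.zero_apply]
      rcases (pat_apply (K := K) F N α y).1 with h1 | h1
      · rw [h1, mul_zero]
      · have h2 := ((pat_apply (K := K) F N α y).2).mp h1 a ha
        have h3 : ¬ F a y = true := fun h' => haα (h2.mpr h')
        rw [bF_apply, if_neg h3, zero_mul]
    obtain ⟨h', rfl⟩ : ∃ h', h = h' + 1 := by
      rcases Nat.eq_zero_or_pos h with h0 | h0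
      · subst h0
        simp only [CTree.nodes, pow_zero] at hn
        omega
      · exact ⟨h - 1, by omega⟩
    have hLLM : (h' + 1) * (L * L) = h' * (L * L) + L * L := by ring
    have hbM : D + (L * L * M + (h' * (L * L) + (L * (w + 3) + L + L * L + 1)) * M) ≤ B := by
      refine le_trans (le_of_eq ?_) hb
      ring
    have hsumn : ∀ i, (t i).nodes < (CTree.inf G k t).nodes := by
      intro i
      simp only [CTree.nodes]
      have := single_le_sum (f := fun i => (t i).nodes) (fun _ _ => Nat.zero_le _) (mem_univ i)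
      omega
    by_cases hcase : ∃ α, ¬ Zr ψ c B (χ * pat K F N α) ∧ ∃ i, (∀ a ∈ (t i).root \ G, a ∉ α) ∧
        (t i).nodes < 2 ^ h'
    · obtain ⟨α, hα, i, hi, hni⟩ := hcase
      refine ih i h' (χ * pat K F N α) (D + L * L * M) (hval' i) (hall' i) hni
        (hχ.mul (hpatD α)) hα ?_ (by omega)
      intro a ha
      by_cases haG : a ∈ G
      · rw [← mul_assoc]
        refine Zr.mul hψ hq hB (D := M + D) (D' := L * L * M) ?_
          ((hev.degF a (hG a haG)).mul hχ) (hroot a haG) (hpatD α)
        have : M ≤ (h' * (L * L) + (L * (w + 3) + L + L * L + 1)) * M :=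
          Nat.le_mul_of_pos_left _ (by omega)
        omega
      · have haN : a ∈ N := mem_biUnion.mpr ⟨i, mem_univ _, mem_sdiff.mpr ⟨ha, haG⟩⟩
        have h1 : bF K (F a) * (χ * pat K F N α) = χ * (bF K (F a) * pat K F N α) := by ring
        rw [h1, hkill α a haN (hi a (mem_sdiff.mpr ⟨ha, haG⟩)), mul_zero]
        exact Zr.zero
    · push Not at hcase
      have hexp : χ = ∑ α ∈ N.powerset, χ * pat K F N α := by
        have h1 := expand (K := K) F N (fun _ => 1) 1 (fun y T _ _ => rfl)
        calc χ = χ * 1 := (mul_one χ).symm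
          _ = _ := by
            rw [h1, mul_sum]
            exact sum_congr rfl fun T _ => by rw [mul_one]
      obtain ⟨α0, hα0⟩ : ∃ α, ¬ Zr ψ c B (χ * pat K F N α) := by
        by_contra hcon
        push Not at hcon
        apply hnz
        rw [hexp]
        exact Zr.sum _ _ fun α _ => hcon α
      obtain ⟨i0, hi0⟩ := hstep α0 hα0
      have hbig := hcase α0 hα0 i0 hi0
      have honly : ∀ α, ¬ Zr ψ c B (χ * pat K F N α) → ∀ a ∈ (t i0).root \ G, a ∉ α := by
        intro α hα
        obtain ⟨i, hi⟩ := hstep α hα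
        have hbig' := hcase α hα i hi
        have : i = i0 := by
          by_contra hne
          have h1 : (t i).nodes + (t i0).nodes ≤ ∑ i, (t i).nodes := by
            have := sum_le_sum_of_subset (f := fun i => (t i).nodes)
              (subset_univ ({i, i0} : Finset (Fin k)))
            rw [sum_pair hne] at this
            exact this
          simp only [CTree.nodes, pow_succ] at hn
          omega
        subst this; exact hi
      refine ih i0 (h' + 1) χ D (hval' i0) (hall' i0) ((hsumn i0).trans hn) hχ hnz ?_ hb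
      intro a ha
      by_cases haG : a ∈ G
      · exact hroot a haG
      · have haN : a ∈ N := mem_biUnion.mpr ⟨i0, mem_univ _, mem_sdiff.mpr ⟨ha, haG⟩⟩
        have h1 : bF K (F a) * χ = ∑ α ∈ N.powerset, bF K (F a) * (χ * pat K F N α) := by
          rw [← mul_sum, ← hexp]
        rw [h1]
        refine Zr.sum _ _ fun α _ => ?_
        by_cases hα : Zr ψ c B (χ * pat K F N α)
        · refine Zr.mul' hψ hq hB (D := D + L * L * M) (D' := M) ?_ (hχ.mul (hpatD α)) hα
            (hev.degF a (hNS a haN))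
          have : M ≤ (h' * (L * L) + (L * (w + 3) + L + L * L + 1)) * M :=
            Nat.le_mul_of_pos_left _ (by omega)
          omega
        · have h2 : bF K (F a) * (χ * pat K F N α) = χ * (bF K (F a) * pat K F N α) := by ring
          rw [h2, hkill α a haN (honly α hα a (mem_sdiff.mpr ⟨ha, haG⟩)), mul_zero]
          exact Zr.zero

open Classical in
/-- all conclusions of a short derivation are true up to the ideal -/
theorem roots_true (hψ : ψ.IsPrimitive) (hq : (q : K) ≠ 0) (hB : 8 * B < t * t)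
    (hev : Ev ψ c B M w S F E) {l : List (CTree (Fml p V))} (hl : IsDerivation L l)
    (hS : ∀ T ∈ l, T.All (fun a => a ∈ S)) {h : ℕ} (hn : ∀ T ∈ l, T.nodes < 2 ^ h)
    (hb : L * M + (h * (L * L) + (L * (w + 3) + L + L * L + 1)) * M ≤ B) :
    ∀ T ∈ l, Zr ψ c B (∏ a ∈ T.root, (1 - bF K (F a))) := by
  have hroots : ∀ T ∈ l, ∀ a ∈ T.root, a ∈ S := by
    intro T hT a ha
    have := hS T hT
    cases T with
    | lem G' => exact this a ha
    | inf G' k' t' => exact this.1 a ha
  have main : ∀ (n : ℕ) (i : Fin l.length), i.val = n →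
      Zr ψ c B (∏ a ∈ (l.get i).root, (1 - bF K (F a))) := by
    intro n
    induction n using Nat.strong_induction_on with
    | _ n ih =>
      intro i hi
      by_contra hcon
      obtain ⟨hcard, hval⟩ := hl i
      have hiS := hroots _ (List.get_mem l i)
      refine walk (L := L) hψ hq hB hev (A := {G | ∃ j : Fin l.length, j < i ∧ (l.get j).root = G})
        ?_ (l.get i) h (∏ a ∈ (l.get i).root, (1 - bF K (F a))) (L * M) hval
        (hS _ (List.get_mem l i)) (hn _ (List.get_mem l i)) ?_ hcon ?_ hb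
      · rintro G ⟨j, hj, rfl⟩
        refine ⟨(hl j).1, hroots _ (List.get_mem l j), ih j.val (by rw [← hi]; exact hj) j rfl⟩
      · exact (Deg.prod _ _ fun a ha => Deg.one.sub (hev.degF a (hiS a ha))).mono
          (Nat.mul_le_mul_right _ hcard)
      · intro a ha
        have : bF K (F a) * ∏ a ∈ (l.get i).root, (1 - bF K (F a)) = 0 := by
          funext y
          rw [Pi.mul_apply, Pi.zero_apply, Finset.prod_apply]
          by_cases h1 : F a y = true
          · rw [prod_eq_zero ha (by rw [Pi.sub_apply, Pi.one_apply, bF_apply, if_pos h1, sub_self]),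
              mul_zero]
          · rw [bF_apply, if_neg h1, zero_mul]
        rw [this]; exact Zr.zero
  intro T hT
  obtain ⟨i, hi⟩ := List.get_of_mem hT
  rw [← hi]
  exact main i.val i rfl

end walk

end Pool.Agent.Work.MP_c04246_lc
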