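import Mathlib
import Pool.Agent.Work.MP_c04246_lc.Core
import Pool.Agent.Work.MP_c04246_lc.Walk

set_option autoImplicit false
set_option linter.unusedSectionVars false
set_option linter.unusedSimpArgs false
set_option linter.unusedVariables false

namespace Pool.Agent.Work.MP_c04246_lc

open Finset Fml

section forms

variable {p : ℕ} {V : Type}

open Classical in
/-- formulas occurring in a tree -/
noncomputable def CTree.forms : CTree (Fml p V) → Finset (Fml p V)
  | CTree.lem G => G
  | CTree.inf G _ t => G ∪ Finset.univ.biUnion fun i => CTree.forms (t i)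

lemma CTree.all_iff {Q : Fml p V → Prop} (T : CTree (Fml p V)) :
    T.All Q ↔ ∀ a ∈ T.forms, Q a := by
  classical
  induction T with
  | lem G => simp only [CTree.All, CTree.forms]
  | inf G k t ih =>
    simp only [CTree.All, CTree.forms, mem_union, mem_biUnion, mem_univ, true_and]
    constructor
    · rintro ⟨h1, h2⟩ a (ha | ⟨i, ha⟩)
      · exact h1 a ha
      · exact (ih i).mp (h2 i) a ha
    · intro h
      exact ⟨fun a ha => h a (Or.inl ha), fun i => (ih i).mpr fun a ha => h a (Or.inr ⟨i, ha⟩)⟩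

open Classical in
lemma CTree.card_forms (T : CTree (Fml p V)) : (T.forms.biUnion subs).card ≤ T.size := by
  have hG : ∀ G : Finset (Fml p V), (G.biUnion subs).card ≤ ∑ a ∈ G, a.size := fun G =>
    card_biUnion_le.trans (sum_le_sum fun a _ => card_subs a)
  induction T with
  | lem G => simp only [CTree.forms, CTree.size]; exact (hG G).trans (by omega)
  | inf G k t ih =>
    simp only [CTree.forms, CTree.size]
    rw [union_biUnion, biUnion_biUnion]
    refine (card_union_le _ _).trans ?_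
    have h1 : (univ.biUnion fun i => (t i).forms.biUnion subs).card ≤ ∑ i, (t i).size :=
      card_biUnion_le.trans (sum_le_sum fun i _ => ih i)
    have h2 := hG G
    omega

open Classical in
/-- subformulas of formulas occurring in the derivation -/
noncomputable def Sl (l : List (CTree (Fml p V))) : Finset (Fml p V) :=
  (l.toFinset.biUnion CTree.forms).biUnion subs

lemma mem_Sl {l : List (CTree (Fml p V))} {x : Fml p V} :
    x ∈ Sl l ↔ ∃ T ∈ l, ∃ a ∈ T.forms, x ∈ subs a := by
  classical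
  simp only [Sl, mem_biUnion, List.mem_toFinset]
  constructor
  · rintro ⟨a, ⟨T, hT, ha⟩, hx⟩; exact ⟨T, hT, a, ha, hx⟩
  · rintro ⟨T, hT, a, ha, hx⟩; exact ⟨a, ⟨T, hT, ha⟩, hx⟩

lemma card_Sl (l : List (CTree (Fml p V))) : (Sl l).card ≤ (l.map CTree.size).sum := by
  classical
  induction l with
  | nil => simp [Sl]
  | cons T l ih =>
    have : Sl (T :: l) = T.forms.biUnion subs ∪ Sl l := by
      ext x
      simp only [mem_Sl, List.mem_cons, exists_eq_or_imp, mem_union, mem_biUnion]
    rw [this, List.map_cons, List.sum_cons]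
    exact (card_union_le _ _).trans (add_le_add T.card_forms ih)

lemma Sl_closed {l : List (CTree (Fml p V))} {x : Fml p V} (hx : x ∈ Sl l) : subs x ⊆ Sl l := by
  obtain ⟨T, hT, a, ha, hxa⟩ := mem_Sl.mp hx
  intro y hy
  exact mem_Sl.mpr ⟨T, hT, a, ha, subs_trans a x hxa hy⟩

open Classical in
/-- narrow instances of the subformulas -/
noncomputable def Gl (w : ℕ) (l : List (CTree (Fml p V))) : Finset (Fml p V) :=
  (Sl l).biUnion fun a => (outer w a).powerset.image fun T => sb w T a

lemma mem_Gl {w : ℕ} {l : List (CTree (Fml p V))} {b : Fml p V} :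
    b ∈ Gl w l ↔ ∃ a ∈ Sl l, ∃ T ⊆ outer w a, b = sb w T a := by
  classical
  simp only [Gl, mem_biUnion, mem_image, mem_powerset]
  constructor
  · rintro ⟨a, ha, T, hT, h⟩; exact ⟨a, ha, T, hT, h.symm⟩
  · rintro ⟨a, ha, T, hT, h⟩; exact ⟨a, ha, T, hT, h.symm⟩

lemma sb_mem_Gl {w : ℕ} {l : List (CTree (Fml p V))} {a : Fml p V} (ha : a ∈ Sl l)
    (T : Finset (Fml p V)) : sb w T a ∈ Gl w l := by
  classical
  refine mem_Gl.mpr ⟨a, ha, T ∩ outer w a, inter_subset_right, sb_congr w a fun g hg => ?_⟩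
  simp [hg]

lemma card_Gl {w : ℕ} {l : List (CTree (Fml p V))} (h : ∀ a ∈ Sl l, (outer w a).card ≤ w) :
    (Gl w l).card ≤ (l.map CTree.size).sum * 2 ^ w := by
  classical
  unfold Gl
  refine (card_biUnion_le_card_mul _ _ (2 ^ w) fun a ha => ?_).trans
    (Nat.mul_le_mul_right _ (card_Sl l))
  refine card_image_le.trans ?_
  rw [card_powerset]
  exact Nat.pow_le_pow_right (by norm_num) (h a ha)

lemma outer_card {w : ℕ} (hw : 1 ≤ w) (a : Fml p V) : (outer w a).card ≤ w →
    (∀ (i : ZMod p) (k : ℕ) (f : Fin k → Fml p V), mod i k f ∈ subs a → w < k →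
      ∀ j, (outer w (f j)).card ≤ w) → ∀ b ∈ subs a, (outer w b).card ≤ w := by
  classical
  induction a with
  | var x => intro h _ b hb; simp only [subs, mem_singleton] at hb; subst hb; exact h
  | cst x => intro h _ b hb; simp only [subs, mem_singleton] at hb; subst hb; exact h
  | neg a ih =>
    intro h1 h2 b hb
    simp only [subs, mem_insert] at hb
    rcases hb with rfl | hb
    · exact h1
    · exact ih h1 (fun i k f hf => h2 i k f (subs_neg a hf)) b hb
  | bin c a b iha ihb =>
    intro h1 h2 x hx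
    simp only [subs, mem_insert, mem_union] at hx
    rcases hx with rfl | hx | hx
    · exact h1
    · exact iha ((card_le_card (by simp only [outer]; exact subset_union_left)).trans h1)
        (fun i k f hf => h2 i k f (subs_bin_l _ _ _ hf)) x hx
    · exact ihb ((card_le_card (by simp only [outer]; exact subset_union_right)).trans h1)
        (fun i k f hf => h2 i k f (subs_bin_r _ _ _ hf)) x hx
  | mod i k f ih =>
    intro h1 h2 x hx
    simp only [subs, mem_insert, mem_biUnion, mem_univ, true_and] at hx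
    rcases hx with rfl | ⟨j, hx⟩
    · exact h1
    · refine ih j ?_ (fun i' k' f' hf => h2 i' k' f' (subs_mod i k f j hf)) x hx
      by_cases hk : w < k
      · exact h2 i k f (subs_self _) hk j
      · refine (card_le_card ?_).trans h1
        simp only [outer, if_neg hk]
        exact subset_biUnion_of_mem (fun j => outer w (f j)) (mem_univ j)

lemma outer_narrow {w : ℕ} (a : Fml p V) (h : ¬ Wide w a) : outer w a = ∅ := by
  classical
  induction a with
  | var x => rfl
  | cst x => rfl
  | neg a ih => simp only [outer]; exact ih h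
  | bin c a b iha ihb =>
    simp only [Wide, not_or] at h
    simp only [outer, iha h.1, ihb h.2, union_empty]
  | mod i k f ih =>
    simp only [Wide, not_or, not_exists] at h
    simp only [outer, if_neg h.1]
    rw [eq_empty_iff_forall_notMem]
    intro x hx
    obtain ⟨j, _, hj⟩ := mem_biUnion.mp hx
    rw [ih j (h.2 j)] at hj
    exact absurd hj (notMem_empty _)

lemma sb_narrow {w : ℕ} (T : Finset (Fml p V)) (a : Fml p V) (h : ¬ Wide w a) : sb w T a = a := by
  classical
  induction a with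
  | var x => rfl
  | cst x => rfl
  | neg a ih => simp only [sb]; rw [ih h]
  | bin c a b iha ihb =>
    simp only [Wide, not_or] at h
    simp only [sb, iha h.1, ihb h.2]
  | mod i k f ih =>
    simp only [Wide, not_or, not_exists] at h
    simp only [sb, if_neg h.1]
    congr 1
    funext j
    exact ih j (h.2 j)

end forms

lemma closed_Gl {p q : ℕ} {U : Type} [DecidableEq U] [Fintype U] (w : ℕ)
    (l : List (CTree (Fml p (Vr q U)))) : Closed w (Gl w l) := by
  classical
  refine ⟨?_, ?_, ?_⟩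
  · intro a ha
    obtain ⟨x, hx, T, _, h⟩ := mem_Gl.mp ha
    cases x with
    | var S => simp [sb] at h
    | cst b => simp [sb] at h
    | neg x =>
      have h' : a = sb w T x := by simpa [sb] using h
      rw [h']
      exact sb_mem_Gl (Sl_closed hx (subs_neg _ (subs_self _))) T
    | bin c' x y => simp [sb] at h
    | mod i k f =>
      simp only [sb] at h
      split_ifs at h
  · intro c0 a b ha
    obtain ⟨x, hx, T, _, h⟩ := mem_Gl.mp ha
    cases x with
    | var S => simp [sb] at h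
    | cst b => simp [sb] at h
    | neg x => simp [sb] at h
    | bin c' x y =>
      have h' : c0 = c' ∧ a = sb w T x ∧ b = sb w T y := by simpa [sb] using h
      rw [h'.2.1, h'.2.2]
      exact ⟨sb_mem_Gl (Sl_closed hx (subs_bin_l _ _ _ (subs_self _))) T,
        sb_mem_Gl (Sl_closed hx (subs_bin_r _ _ _ (subs_self _))) T⟩
    | mod i k f =>
      simp only [sb] at h
      split_ifs at h
  · intro i k f ha
    obtain ⟨x, hx, T, _, h⟩ := mem_Gl.mp ha
    cases x with
    | var S => simp [sb] at h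
    | cst b => simp [sb] at h
    | neg x => simp [sb] at h
    | bin c' x y => simp [sb] at h
    | mod i' k' f' =>
      simp only [sb] at h
      split_ifs at h with hk
      have h1 : i = i' ∧ k = k' ∧ HEq f (fun j => sb w T (f' j)) := by simpa using h
      obtain ⟨rfl, rfl, h2⟩ := h1
      have h3 := eq_of_heq h2
      subst h3
      exact ⟨by omega, fun j => sb_mem_Gl (Sl_closed hx (subs_mod _ _ _ j (subs_self _))) T⟩

theorem core2 {p q n : ℕ} [Fact p.Prime] [Fact q.Prime] (hpq : p ≠ q) {w d t B s : ℕ}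
    (hw : 1 ≤ w) {κ N : ℕ → ℕ} (hκ1 : ∀ i, 1 ≤ κ i) (hκa : ∀ i, q * (2 * w) ≤ κ i)
    (hκm : Monotone κ)
    (hκw : ∀ i, w * κ i ≤ κ (i + 1)) (hN0 : N 0 = n) (hN : ∀ i < d, ∃ m, N i = N (i + 1) + q * m)
    (h16 : ∀ i < d, 16 * (q * (κ i * N (i + 1) ^ (q * q + q))) ≤ N i)
    (hroom : ∀ i < d, q * (q * (2 * w)) + q * (q * κ i) ≤ N (i + 1))
    (hroom' : ∀ i ≤ d, q * κ i + (q + 1) ≤ N i) (hN1 : ∀ i, 1 ≤ N i)
    (hNd : N d = q * (t * t) + s) (ht : 0 < t) (hB : 8 * B < t * t) (hBt : 2 * t + 1 ≤ B)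
    (hbound : (w + (w * (w * w) + (w * (w + 3) + w + w * w + 1)) + 1) *
      ((w + 1) * (4 * t * κ d * (p * (w + 1)) ^ d)) ≤ B)
    {l : List (CTree (Fml p {S : Finset (Fin n) // S.card = q}))} (hl : IsDerivation w l)
    (hT : ∃ T ∈ l, T.root = {countTaut p q n})
    (hdep : ∀ T ∈ l, T.All fun a => depth a ≤ d ∧ Sparse w a) :
    2 ^ w ≤ (l.map CTree.size).sum := by
  classical
  by_contra hsize
  push Not at hsize
  have hq2 : 2 ≤ q := (Fact.out : q.Prime).two_le
  have hq0 : 0 < q := by omega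
  have : NeZero q := ⟨by omega⟩
  have hp1 : 1 ≤ p := (Fact.out : p.Prime).one_lt.le
  have hline : ∀ x ∈ Sl l, ∃ a, x ∈ subs a ∧ depth a ≤ d ∧ Sparse w a := by
    intro x hx
    obtain ⟨T, hT, a, ha, hxa⟩ := mem_Sl.mp hx
    exact ⟨a, hxa, (CTree.all_iff T).mp (hdep T hT) a ha⟩
  have hdpt : ∀ x ∈ Sl l, dpt none x ≤ d := by
    intro x hx
    obtain ⟨a, hxa, h1, _⟩ := hline x hx
    exact (dpt_subs a x hxa).trans h1
  have houter : ∀ x ∈ Sl l, (outer w x).card ≤ w := by
    intro x hx
    obtain ⟨a, hxa, _, h2⟩ := hline x hx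
    exact outer_card hw a h2.1 h2.2 x hxa
  have hmodS : ∀ x ∈ Sl l, ∀ (i : ZMod p) (k : ℕ) (f : Fin k → Fml p _), mod i k f ∈ subs x →
      w < k → ∀ j, (outer w (f j)).card ≤ w := by
    intro x hx i k f hf hk j
    exact houter _ (Sl_closed (Sl_closed hx hf) (subs_mod i k f j (subs_self _)))
  set Γ := Gl w l with hΓdef
  have hcardΓ : Γ.card < 2 ^ (2 * w + 1) := by
    have h1 := card_Gl houter
    rw [← hΓdef] at h1
    have h2 : (l.map CTree.size).sum * 2 ^ w < 2 ^ w * 2 ^ w :=
      Nat.mul_lt_mul_of_pos_right hsize (by positivity)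
    have h3 : 2 ^ w * 2 ^ w ≤ 2 ^ (2 * w + 1) := by
      rw [← pow_add]; exact Nat.pow_le_pow_right (by norm_num) (by omega)
    omega
  have hlvΓ : ∀ a ∈ Γ, lv none a ≤ d := by
    intro a ha
    obtain ⟨x, hx, T, _, rfl⟩ := mem_Gl.mp ha
    exact ((lv_sb w T x none).trans (lv_le_dpt x).1).trans (hdpt x hx)
  obtain ⟨ρ, hρ0, hρPP, hρm, hρN, hG⟩ := exists_contexts hq0 (closed_Gl w l) hcardΓ hκ1 hκa hκm hκw
    (N := N) (d := d) (by rw [hN0, Fintype.card_fin]) hN h16 hroom hN1 d le_rfl
  obtain ⟨K, _, _, ψ, hψ, hqK⟩ := exists_field p q hpq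
  obtain ⟨c, m, hm, hρy, hmD, huD, huZ⟩ := exists_worlds (s := s) hψ hqK ht hB hBt (hρPP d le_rfl)
    (by have := hρN d le_rfl; unfold nun at this; rw [this, hNd])
  set M0 := 4 * t * κ d with hM0
  set R := p * (w + 1) with hR
  have hR1 : 1 ≤ R := Nat.mul_pos hp1 (by omega)
  set M1 := M0 * R ^ d with hM1
  set M := (w + 1) * M1 with hM
  have hM0M1 : M0 ≤ M1 := Nat.le_mul_of_pos_right _ (Nat.pow_pos hR1)
  have hM1M : M1 ≤ M := Nat.le_mul_of_pos_left _ (by omega)
  have hM0M : M0 ≤ M := hM0M1.trans hM1M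
  have hbd : (w + (w * (w * w) + (w * (w + 3) + w + w * w + 1)) + 1) * M ≤ B := hbound
  have hbd2 : (w * M + (w * (w * w) + (w * (w + 3) + w + w * w + 1)) * M) + M ≤ B :=
    le_trans (le_of_eq (by ring)) hbd
  have hMB : 2 * M ≤ B := by
    refine le_trans ?_ hbd2
    have : 1 * M ≤ w * M := Nat.mul_le_mul_right _ hw
    omega
  obtain ⟨nv, sf, hcst, hall⟩ := exists_nv hψ hqK ht hB hm hmD huD huZ hρ0 (hρPP d le_rfl)
    (fun j hj => hρm j d hj le_rfl) hκm (fun a ha => ⟨hlvΓ a ha, hG a ha (hlvΓ a ha)⟩) hρy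
    (by rw [← hM0]; omega)
  have hsbΓ : ∀ x ∈ Sl l, ∀ T, sb w T x ∈ Γ := fun x hx T => sb_mem_Gl hx T
  have hsvΓ : ∀ x ∈ Sl l, ∀ y, sv w nv x y ∈ Γ := by
    intro x hx y
    have h1 := sv_eq (w := w) hcst y ((outer w x).filter fun g => vl w nv g y = true) x
      (fun g hg => by rw [mem_filter]; exact ⟨fun h => h.2, fun h => ⟨hg, h⟩⟩)
    rw [h1]; exact hsbΓ x hx _
  have hcardM : ∀ x ∈ Sl l, (outer w x).card * M1 + M0 ≤ M := by
    intro x hx
    have h1 := Nat.mul_le_mul_right M1 (houter x hx)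
    have h2 : M = w * M1 + M1 := by rw [hM]; ring
    omega
  have hdegO : ∀ x ∈ Sl l, ∀ g ∈ outer w x, Deg ψ M1 (bF K (vl w nv g)) := by
    intro x hx g hg
    have h1 := deg_outer (p := p) (ψ := ψ) (K := K) (M0 := M0) (nv := nv) (w := w) (R := R) hcst
      le_rfl hR1 x (fun b hb T _ => (hall _ (hsbΓ b (Sl_closed hx hb) T)).1)
      (hmodS x hx) g hg
    exact h1.mono (Nat.mul_le_mul_left _ (Nat.pow_le_pow_right hR1
      (hdpt g (Sl_closed hx (outer_sub_subs w x hg)))))
  have hev : Ev ψ c B M w (Sl l) (vl w nv) (fun a y => sf (sv w nv a y) y) := by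
    refine ⟨fun a ha => Sl_closed ha, ?_, ?_, ?_, ?_, ?_⟩
    · intro a ha
      exact (deg_sv (ψ := ψ) hcst a (fun a y => bF K (nv a) y)
        (fun T _ => (hall _ (hsbΓ a ha T)).1) (hdegO a ha)).mono (hcardM a ha)
    · intro a ha
      exact (deg_sv (ψ := ψ) hcst a sf
        (fun T _ => (hall _ (hsbΓ a ha T)).2.1) (hdegO a ha)).mono (hcardM a ha)
    · intro a ha
      refine zr_sv hψ hqK hB hcst a sf (fun T _ => (hall _ (hsbΓ a ha T)).2.1)
        (fun T _ => (hall _ (hsbΓ a ha T)).2.2.1) (hdegO a ha) ?_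
      have := hcardM a ha
      omega
    · intro a ha y
      exact (hall _ (hsvΓ a ha y)).2.2.2.1 y
    · intro a ha y hy
      refine resp_of_nd hq0 (ρ := ρ) (κ := κ) hcst (hm y) a fun b hb => ?_
      have hbS : b ∈ Sl l := Sl_closed ha (nd_sub w a hb)
      exact (hall _ (hsvΓ b hbS y)).2.2.2.2 y (hy b hb)
  have hall' : ∀ T ∈ l, T.All fun a => a ∈ Sl l := by
    intro T hT
    rw [CTree.all_iff]
    exact fun a ha => mem_Sl.mpr ⟨T, hT, a, ha, subs_self _⟩
  have hnodes : ∀ T ∈ l, T.nodes < 2 ^ w := by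
    intro T hT
    refine lt_of_le_of_lt (T.nodes_le.trans ?_) hsize
    exact List.single_le_sum (fun _ _ => Nat.zero_le _) _ (List.mem_map.mpr ⟨_, hT, rfl⟩)
  obtain ⟨T0, hT0, hroot⟩ := hT
  have hfin := roots_true (L := w) (h := w) hψ hqK hB hev hl hall' hnodes (by omega) T0 hT0
  rw [hroot, prod_singleton] at hfin
  -- the final contradiction
  set T := countTaut p q n with hTdef
  have hTn : ¬ Wide w T := wide_countTaut w
  have hTS : T ∈ Sl l := by
    refine mem_Sl.mpr ⟨T0, hT0, T, ?_, subs_self _⟩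
    have hTr : T ∈ T0.root := by rw [hroot]; exact mem_singleton_self _
    cases T0 with
    | lem G => exact hTr
    | inf G k t => exact mem_union_left _ hTr
  have hTΓ : T ∈ Γ := by
    have := hsbΓ T hTS ∅
    rwa [sb_narrow ∅ T hTn] at this
  have hd1 : 1 ≤ d := by
    have h1 := hlvΓ T hTΓ
    rw [hTdef] at h1
    unfold countTaut at h1
    rw [lv_bin] at h1
    omega
  have hnone : (CD q ρ κ T).1 true = ∅ := by
    refine no_true hq2 hρ0 (hκ1 0) ?_
    intro i hi τ hτ
    have h1 := nun_add hτ.1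
    have h2 := nun_add (hρPP i (by omega))
    have h3 := hρN i (by omega)
    have h4 := hroom' i (by omega)
    have h5 : τ.card ≤ (ρ i).card + κ i := by
      have := card_le_card_sdiff_add_card (s := τ) (t := ρ i)
      have h6 := hτ.2.2
      omega
    have h7 : q * τ.card ≤ q * (ρ i).card + q * κ i := by
      rw [← mul_add]; exact Nat.mul_le_mul_left _ h5
    omega
  obtain ⟨hT1, hT2, hT3, hT4, hT5⟩ := hall T hTΓ
  have hfalse : ∀ y, sf T y = 0 → nv T y = false := by
    intro y hy
    have h1 := hT5 y hy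
    cases h : nv T y with
    | false => rfl
    | true =>
      rw [h] at h1
      obtain ⟨t', ht', _⟩ := h1
      rw [hnone] at ht'
      exact absurd ht' (by simp)
  have hvT : vl w nv T = nv T := by
    funext y
    unfold vl
    rw [sv_eq (w := w) hcst y ∅ T (by rw [outer_narrow T hTn]; intro g hg; simp at hg),
      sb_narrow ∅ T hTn]
  rw [hvT] at hfin
  have heq : bF K (nv T) = sf T * bF K (nv T) := by
    funext y
    rw [Pi.mul_apply, bF_apply]
    rcases hT4 y with h | h
    · rw [h, zero_mul, hfalse y h]; simp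
    · rw [h, one_mul]
  have hZ : Zr ψ c B (bF K (nv T)) := by
    rw [heq]
    exact Zr.mul hψ hqK hB (by omega) hT2 hT3 hT1
  have hone : (1 : Flow q t → K) = (1 - bF K (nv T)) + bF K (nv T) := by ring
  refine not_Zr_one (c := c) hψ hqK ht ?_ (B := B)
  rw [hone]
  exact hfin.add hZ

end Pool.Agent.Work.MP_c04246_lc
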