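import Mathlib

set_option autoImplicit false

namespace Pool.Agent.Work.MP_c04246_lc

/-- Propositional formulas over the variables `V` with negation, disjunction (`bin true`),
conjunction (`bin false`) and arbitrary further connectives: `gate k g f` is the connective with
truth function `g` applied to the `k` formulas `f 0, ..., f (k-1)`. -/
inductive GF (V : Type) : Type
  | var : V → GF V
  | cst : Bool → GF V
  | neg : GF V → GF V
  | bin : Bool → GF V → GF V → GF V
  | gate : (k : ℕ) → ((Fin k → Bool) → Bool) → (Fin k → GF V) → GF V

namespace GF

variable {V : Type}

/-- truth value under an assignment -/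
def eval (v : V → Bool) : GF V → Bool
  | var x => v x
  | cst b => b
  | neg a => !(eval v a)
  | bin c a b => if c then (eval v a || eval v b) else (eval v a && eval v b)
  | gate _ g f => g fun j => eval v (f j)

/-- number of symbols -/
def size : GF V → ℕ
  | var _ => 1
  | cst _ => 1
  | neg a => size a + 1
  | bin _ a b => size a + size b + 1
  | gate _ _ f => (∑ j, size (f j)) + 1

open Classical in
/-- subformulas -/
noncomputable def subs : GF V → Finset (GF V)
  | var x => {var x}
  | cst b => {cst b}
  | neg a => insert (neg a) (subs a)
  | bin c a b => insert (bin c a b) (subs a ∪ subs b)
  | gate k g f => insert (gate k g f) (Finset.univ.biUnion fun j => subs (f j))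

open Classical in
/-- the set of variables occurring in the formula -/
noncomputable def vars : GF V → Finset V
  | var x => {x}
  | cst _ => ∅
  | neg a => vars a
  | bin _ a b => vars a ∪ vars b
  | gate _ _ f => Finset.univ.biUnion fun j => vars (f j)

open Classical in
/-- Depth below a connective of the kind `r` (`some none` is the negation, `some (some c)` is
`bin c`, `none` means: no connective, or another connective), where consecutive negations,
consecutive disjunctions and consecutive conjunctions are merged, and where subformulas containing
at most `m` distinct variables, as well as subformulas whose outermost connective is a `gate`,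
count as depth `0`. -/
noncomputable def dpt (m : ℕ) : Option (Option Bool) → GF V → ℕ
  | _, var _ => 0
  | _, cst _ => 0
  | r, neg a => if (vars (neg a)).card ≤ m then 0 else
      (if r = some none then 0 else 1) + dpt m (some none) a
  | r, bin c a b => if (vars (bin c a b)).card ≤ m then 0 else
      (if r = some (some c) then 0 else 1) +
        max (dpt m (some (some c)) a) (dpt m (some (some c)) b)
  | _, gate _ _ _ => 0

/-- depth, with consecutive connectives of the same kind merged and with subformulas containing at
most `m` distinct variables counted as depth `0` -/
noncomputable def depth (m : ℕ) (a : GF V) : ℕ := dpt m none a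

/-- The assignment `v` of truth values to all formulas obeys the truth table of the outermost
connective of the given formula. -/
def Resp (v : GF V → Bool) : GF V → Prop
  | var _ => True
  | cst b => v (cst b) = b
  | neg a => v (neg a) = !(v a)
  | bin c a b => v (bin c a b) = if c then (v a || v b) else (v a && v b)
  | gate k g f => v (gate k g f) = g fun j => v (f j)

/-- `K`-local inference of `a` from the premises `P`: there are at most `K` premises and a set `C`
of at most `K` subformulas of the premises and of `a` such that every assignment of truth values
to all formulas which obeys the truth tables of the outermost connectives of the members of `C`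
and makes all premises true makes `a` true. -/
def LocInf (K : ℕ) (P : Finset (GF V)) (a : GF V) : Prop :=
  P.card ≤ K ∧ ∃ C : Finset (GF V), C.card ≤ K ∧
    (∀ c ∈ C, c ∈ subs a ∨ ∃ b ∈ P, c ∈ subs b) ∧
    ∀ v : GF V → Bool, (∀ c ∈ C, Resp v c) → (∀ b ∈ P, v b = true) → v a = true

/-- Every line of `pi` follows from earlier lines by a `K`-local inference. -/
def IsProof (K : ℕ) (pi : List (GF V)) : Prop :=
  ∀ i : Fin pi.length, ∃ P : Finset (GF V),
    (∀ b ∈ P, ∃ j : Fin pi.length, j < i ∧ pi.get j = b) ∧ LocInf K P (pi.get i)

/-- Every subformula whose outermost connective is a `gate` contains at most `m` distinct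
variables. -/
def Local (m : ℕ) (a : GF V) : Prop :=
  ∀ (k : ℕ) (g : (Fin k → Bool) → Bool) (f : Fin k → GF V),
    gate k g f ∈ subs a → (vars (gate k g f)).card ≤ m

/-- disjunction of a list -/
def disj (l : List (GF V)) : GF V := l.foldr (bin true) (cst false)

/-- `Count_q^n`: the set `{0,...,n-1}` cannot be partitioned into sets of size `q`. Variables are
the `q`-element subsets. The formula is the disjunction of: for some `u` no `S ∋ u` is chosen; for
some two distinct intersecting sets `S`, `T`, both are chosen. -/
noncomputable def countTaut (q n : ℕ) : GF {S : Finset (Fin n) // S.card = q} :=
  bin true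
    (disj ((Finset.univ : Finset (Fin n)).toList.map fun u =>
      neg (disj (((Finset.univ : Finset {S : Finset (Fin n) // S.card = q}).filter
        fun S => u ∈ S.1).toList.map var))))
    (disj (((Finset.univ : Finset ({S : Finset (Fin n) // S.card = q} ×
        {S : Finset (Fin n) // S.card = q})).filter
        fun x => x.1 ≠ x.2 ∧ ¬ Disjoint x.1.1 x.2.1).toList.map
      fun x => bin false (var x.1) (var x.2)))

end GF

end Pool.Agent.Work.MP_c04246_lc
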