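import Mathlib
import Pool.Agent.Work.MP_c04246_lc.Contexts
import Pool.Agent.Work.MP_c04246_lc.LDefs

set_option autoImplicit false
set_option linter.unusedSectionVars false
set_option linter.unusedSimpArgs false
set_option linter.unusedVariables false

namespace Pool.Agent.Work.MP_c04246_lc

open Finset

namespace GF

section basics

variable {V : Type}

lemma eval_congr {v v' : V → Bool} (a : GF V) (h : ∀ x ∈ vars a, v x = v' x) :
    eval v a = eval v' a := by
  classical
  induction a with
  | var x => exact h x (by simp [vars])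
  | cst b => rfl
  | neg a ih => simp only [eval]; rw [ih h]
  | bin c a b iha ihb =>
    simp only [eval]
    rw [iha fun x hx => h x (by simp only [vars, mem_union]; exact Or.inl hx),
      ihb fun x hx => h x (by simp only [vars, mem_union]; exact Or.inr hx)]
  | gate k g f ih =>
    simp only [eval]
    congr 1
    funext j
    exact ih j fun x hx => h x (by
      simp only [vars, mem_biUnion, mem_univ, true_and]; exact ⟨j, hx⟩)

lemma subs_self (a : GF V) : a ∈ subs a := by
  classical
  cases a <;> simp [subs]

lemma subs_trans (a : GF V) : ∀ b ∈ subs a, subs b ⊆ subs a := by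
  classical
  induction a with
  | var x => intro b hb; simp only [subs, mem_singleton] at hb; subst hb; exact Subset.rfl
  | cst x => intro b hb; simp only [subs, mem_singleton] at hb; subst hb; exact Subset.rfl
  | neg a ih =>
    intro b hb
    simp only [subs, mem_insert] at hb
    rcases hb with rfl | hb
    · exact Subset.rfl
    · exact (ih b hb).trans (by simp only [subs]; exact subset_insert _ _)
  | bin c a b iha ihb =>
    intro x hx
    simp only [subs, mem_insert, mem_union] at hx
    rcases hx with rfl | hx | hx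
    · exact Subset.rfl
    · refine (iha x hx).trans ?_
      intro y hy; simp only [subs, mem_insert, mem_union]; exact Or.inr (Or.inl hy)
    · refine (ihb x hx).trans ?_
      intro y hy; simp only [subs, mem_insert, mem_union]; exact Or.inr (Or.inr hy)
  | gate k g f ih =>
    intro x hx
    simp only [subs, mem_insert, mem_biUnion, mem_univ, true_and] at hx
    rcases hx with rfl | ⟨j, hx⟩
    · exact Subset.rfl
    · refine (ih j x hx).trans ?_
      intro y hy; simp only [subs, mem_insert, mem_biUnion, mem_univ, true_and]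
      exact Or.inr ⟨j, hy⟩

lemma subs_neg (a : GF V) : subs a ⊆ subs (neg a) := by
  classical
  simp only [subs]; exact subset_insert _ _

lemma subs_bin_l (c : Bool) (a b : GF V) : subs a ⊆ subs (bin c a b) := by
  classical
  intro y hy; simp only [subs, mem_insert, mem_union]; exact Or.inr (Or.inl hy)

lemma subs_bin_r (c : Bool) (a b : GF V) : subs b ⊆ subs (bin c a b) := by
  classical
  intro y hy; simp only [subs, mem_insert, mem_union]; exact Or.inr (Or.inr hy)

lemma subs_gate (k : ℕ) (g : (Fin k → Bool) → Bool) (f : Fin k → GF V) (j : Fin k) :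
    subs (f j) ⊆ subs (gate k g f) := by
  classical
  intro y hy; simp only [subs, mem_insert, mem_biUnion, mem_univ, true_and]; exact Or.inr ⟨j, hy⟩

lemma vars_subs (a : GF V) : ∀ b ∈ subs a, vars b ⊆ vars a := by
  classical
  induction a with
  | var x => intro b hb; simp only [subs, mem_singleton] at hb; subst hb; exact Subset.rfl
  | cst x => intro b hb; simp only [subs, mem_singleton] at hb; subst hb; exact Subset.rfl
  | neg a ih =>
    intro b hb
    simp only [subs, mem_insert] at hb
    rcases hb with rfl | hb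
    · exact Subset.rfl
    · exact ih b hb
  | bin c a b iha ihb =>
    intro x hx
    simp only [subs, mem_insert, mem_union] at hx
    rcases hx with rfl | hx | hx
    · exact Subset.rfl
    · exact (iha x hx).trans (by simp only [vars]; exact subset_union_left)
    · exact (ihb x hx).trans (by simp only [vars]; exact subset_union_right)
  | gate k g f ih =>
    intro x hx
    simp only [subs, mem_insert, mem_biUnion, mem_univ, true_and] at hx
    rcases hx with rfl | ⟨j, hx⟩
    · exact Subset.rfl
    · refine (ih j x hx).trans ?_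
      simp only [vars]
      exact subset_biUnion_of_mem (fun j => vars (f j)) (mem_univ j)

lemma card_subs (a : GF V) : (subs a).card ≤ size a := by
  classical
  induction a with
  | var x => simp [subs, size]
  | cst x => simp [subs, size]
  | neg a ih => simp only [subs, size]; exact (card_insert_le _ _).trans (by omega)
  | bin c a b iha ihb =>
    simp only [subs, size]
    exact (card_insert_le _ _).trans (Nat.succ_le_succ ((card_union_le _ _).trans (by omega)))
  | gate k g f ih =>
    simp only [subs, size]
    refine (card_insert_le _ _).trans (Nat.succ_le_succ (card_biUnion_le.trans ?_))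
    exact sum_le_sum fun j _ => ih j

/-- local formulas: few variables (variables, constants and gates are counted as local) -/
def isL (m : ℕ) : GF V → Prop
  | neg a => (vars (neg a)).card ≤ m
  | bin c a b => (vars (bin c a b)).card ≤ m
  | var _ => True
  | cst _ => True
  | gate _ _ _ => True

lemma isL_of_card {m : ℕ} {a : GF V} (h : (vars a).card ≤ m) : isL m a := by
  cases a <;> first | exact h | trivial

open Classical in
/-- level of a formula below a connective of kind `r` -/
noncomputable def glv (m : ℕ) : Option Bool → GF V → ℕ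
  | _, var _ => 0
  | _, cst _ => 0
  | _, neg a => if isL m (neg a) then 0 else glv m none a
  | r, bin c a b => if isL m (bin c a b) then 0 else
      (if r = some c then 0 else 1) + max (glv m (some c) a) (glv m (some c) b)
  | _, gate _ _ _ => 0

lemma glv_isL {m : ℕ} {a : GF V} (h : isL m a) (r : Option Bool) : glv m r a = 0 := by
  cases a with
  | var _ => rfl
  | cst _ => rfl
  | neg a => simp only [glv, if_pos h]
  | bin c a b => simp only [glv, if_pos h]
  | gate _ _ _ => rfl

lemma glv_bin {m : ℕ} {c : Bool} {a b : GF V} (h : ¬ isL m (bin c a b)) :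
    glv m none (bin c a b) = 1 + max (glv m (some c) a) (glv m (some c) b) := by
  simp only [glv, if_neg h]
  simp

lemma glv_none_le (m : ℕ) (r : Option Bool) (a : GF V) : glv m none a ≤ glv m r a + 1 := by
  cases a with
  | var _ => simp [glv]
  | cst _ => simp [glv]
  | neg a => simp [glv]
  | bin c a b =>
    simp only [glv]
    split_ifs <;> simp_all <;> omega
  | gate k g f => simp [glv]

lemma dpt_small {m : ℕ} {a : GF V} (h : (vars a).card ≤ m) (r : Option (Option Bool)) :
    dpt m r a = 0 := by
  cases a with
  | var _ => rfl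
  | cst _ => rfl
  | neg a => simp only [dpt, if_pos h]
  | bin c a b => simp only [dpt, if_pos h]
  | gate _ _ _ => rfl

lemma dpt_le (m : ℕ) (r : Option (Option Bool)) (a : GF V) : dpt m none a ≤ dpt m r a + 1 := by
  cases a with
  | var _ => simp [dpt]
  | cst _ => simp [dpt]
  | neg a =>
    simp only [dpt]
    by_cases h : (vars (neg a)).card ≤ m
    · simp only [if_pos h]; omega
    · simp only [if_neg h]; split_ifs <;> simp_all; omega
  | bin c a b =>
    simp only [dpt]
    by_cases h : (vars (bin c a b)).card ≤ m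
    · simp only [if_pos h]; omega
    · simp only [if_neg h]; split_ifs <;> simp_all; omega
  | gate k g f => simp [dpt]

lemma Local.sub {m : ℕ} {a b : GF V} (ha : Local m a) (hb : b ∈ subs a) : Local m b :=
  fun k g f h => ha k g f (subs_trans a b hb h)

lemma dpt_subs {m : ℕ} (a : GF V) : Local m a → ∀ b ∈ subs a, dpt m none b ≤ dpt m none a := by
  classical
  have key : ∀ a : GF V, (vars a).card ≤ m → ∀ b ∈ subs a, dpt m none b ≤ dpt m none a := by
    intro a ha b hb
    rw [dpt_small ((card_le_card (vars_subs a b hb)).trans ha)]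
    exact Nat.zero_le _
  induction a with
  | var x => intro _ b hb; simp only [subs, mem_singleton] at hb; subst hb; exact le_rfl
  | cst x => intro _ b hb; simp only [subs, mem_singleton] at hb; subst hb; exact le_rfl
  | neg a ih =>
    intro hL
    by_cases hs : (vars (neg a)).card ≤ m
    · exact key _ hs
    intro b hb
    simp only [subs, mem_insert] at hb
    rcases hb with rfl | hb
    · exact le_rfl
    · have h1 := ih (hL.sub (subs_neg _ (subs_self _))) b hb
      have h2 := dpt_le m (some none) a
      have h3 : dpt m none (neg a) = 1 + dpt m (some none) a := by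
        simp only [dpt, if_neg hs]; simp
      omega
  | bin c a b iha ihb =>
    intro hL
    by_cases hs : (vars (bin c a b)).card ≤ m
    · exact key _ hs
    intro x hx
    simp only [subs, mem_insert, mem_union] at hx
    have h3 : dpt m none (bin c a b) =
        1 + max (dpt m (some (some c)) a) (dpt m (some (some c)) b) := by
      simp only [dpt, if_neg hs]; simp
    rcases hx with rfl | hx | hx
    · exact le_rfl
    · have h1 := iha (hL.sub (subs_bin_l _ _ _ (subs_self _))) x hx
      have h2 := dpt_le m (some (some c)) a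
      omega
    · have h1 := ihb (hL.sub (subs_bin_r _ _ _ (subs_self _))) x hx
      have h2 := dpt_le m (some (some c)) b
      omega
  | gate k g f ih =>
    intro hL
    exact key _ (hL k g f (subs_self _))

lemma glv_le_dpt (m : ℕ) (a : GF V) : glv m none a ≤ dpt m none a ∧
    ∀ c, glv m (some c) a ≤ dpt m (some (some c)) a := by
  induction a with
  | var _ => simp [dpt, glv]
  | cst _ => simp [dpt, glv]
  | neg a ih =>
    have h0 := dpt_le m (some none) a
    by_cases hl : (vars (neg a)).card ≤ m
    · rw [glv_isL (show isL m (neg a) from hl)]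
      exact ⟨Nat.zero_le _, fun c => by
        rw [glv_isL (show isL m (neg a) from hl)]; exact Nat.zero_le _⟩
    have hl' : ¬ isL m (neg a) := hl
    simp only [glv, dpt, if_neg hl, if_neg hl']
    refine ⟨?_, fun c => ?_⟩
    · have h : ¬ ((none : Option (Option Bool)) = some none) := by simp
      rw [if_neg h]; omega
    · have h : ¬ ((some (some c) : Option (Option Bool)) = some none) := by simp
      rw [if_neg h]; omega
  | bin c a b iha ihb =>
    by_cases hl : (vars (bin c a b)).card ≤ m
    · rw [glv_isL (show isL m (bin c a b) from hl)]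
      exact ⟨Nat.zero_le _, fun e => by
        rw [glv_isL (show isL m (bin c a b) from hl)]; exact Nat.zero_le _⟩
    have hl' : ¬ isL m (bin c a b) := hl
    simp only [glv, dpt, if_neg hl, if_neg hl']
    refine ⟨?_, fun e => ?_⟩
    · have h1 := iha.2 c
      have h2 := ihb.2 c
      split_ifs <;> simp_all; omega
    · have h1 := iha.2 c
      have h2 := ihb.2 c
      by_cases h : e = c
      · subst h
        rw [if_pos rfl, if_pos rfl]; omega
      · have h' : ¬ ((some e : Option Bool) = some c) := by simpa using h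
        have h'' : ¬ ((some (some e) : Option (Option Bool)) = some (some c)) := by simpa using h
        rw [if_neg h', if_neg h'']; omega
  | gate k g f ih => simp [glv]

end basics

section cert

variable {q : ℕ} {U : Type} [DecidableEq U]

/-- the variable is decided in the world -/
def Dcd (τ : Finset (Finset U)) (S : Vr q U) : Prop :=
  S.1 ∈ τ ∨ ∃ T ∈ τ, T ≠ S.1 ∧ ¬ Disjoint T S.1

/-- the assignment given by a world -/
def wa (τ : Finset (Finset U)) (S : Vr q U) : Bool := decide (S.1 ∈ τ)

lemma wa_mono {τ τ' : Finset (Finset U)} (h : τ ⊆ τ') (hPP : PP q τ') {a : GF (Vr q U)}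
    (hd : ∀ S ∈ vars a, Dcd τ S) : eval (wa τ) a = eval (wa τ') a := by
  apply eval_congr
  intro S hS
  unfold wa
  rw [decide_eq_decide]
  constructor
  · exact fun h' => h h'
  · intro h'
    rcases hd S hS with h1 | ⟨T, hT, hne, hnd⟩
    · exact h1
    · exact absurd (hPP.2 T (h hT) S.1 h' hne) hnd

lemma Dcd.mono {τ τ' : Finset (Finset U)} (h : τ ⊆ τ') {S : Vr q U} (hd : Dcd τ S) : Dcd τ' S := by
  rcases hd with h1 | ⟨T, hT, h1⟩
  · exact Or.inl (h h1)
  · exact Or.inr ⟨T, h hT, h1⟩

/-- certificates of local formulas -/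
def LC (q : ℕ) (ρ : ℕ → Finset (Finset U)) (κ : ℕ → ℕ) (a : GF (Vr q U)) (e : Bool) :
    Set (Finset (Finset U)) :=
  {τ | τ ∈ Sm q ρ κ 0 ∧ (∀ S ∈ vars a, Dcd τ S) ∧ eval (wa τ) a = e}

open Classical in
/-- certificates: first component, certificates for the truth values of the formula; second
component, certificates for the value `c` of the arguments of the formula viewed as `bin c` -/
noncomputable def GC (m q : ℕ) (ρ : ℕ → Finset (Finset U)) (κ : ℕ → ℕ) : GF (Vr q U) →
    (Bool → Set (Finset (Finset U))) × (Bool → Set (Finset (Finset U)))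
  | var S => (LC q ρ κ (var S), LC q ρ κ (var S))
  | cst b => (LC q ρ κ (cst b), LC q ρ κ (cst b))
  | neg a => if isL m (neg a) then (LC q ρ κ (neg a), LC q ρ κ (neg a)) else
      (fun e => (GC m q ρ κ a).1 (!e), fun e => (GC m q ρ κ a).1 (!e))
  | bin c a b => if isL m (bin c a b) then (LC q ρ κ (bin c a b), LC q ρ κ (bin c a b)) else
    (fun e => if e = c then
        {τ | τ ∈ Sm q ρ κ (glv m none (bin c a b)) ∧
          ∃ t ∈ (GC m q ρ κ a).2 c ∪ (GC m q ρ κ b).2 c, t ⊆ τ}
      else {τ | τ ∈ Sm q ρ κ (glv m none (bin c a b)) ∧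
        ∀ t ∈ (GC m q ρ κ a).2 c ∪ (GC m q ρ κ b).2 c, ¬ PP q (t ∪ τ)},
     fun e => if e = c then (GC m q ρ κ a).2 c ∪ (GC m q ρ κ b).2 c
      else {τ | τ ∈ Sm q ρ κ (glv m none (bin c a b)) ∧
        ∀ t ∈ (GC m q ρ κ a).2 c ∪ (GC m q ρ κ b).2 c, ¬ PP q (t ∪ τ)})
  | gate k g f => (LC q ρ κ (gate k g f), LC q ρ κ (gate k g f))

variable {m : ℕ} {ρ ρ' : ℕ → Finset (Finset U)} {κ : ℕ → ℕ}

lemma GC_isL {a : GF (Vr q U)} (h : isL m a) : GC m q ρ κ a = (LC q ρ κ a, LC q ρ κ a) := by
  cases a with
  | var S => rfl
  | cst b => rfl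
  | neg a => simp only [GC, if_pos h]
  | bin c a b => simp only [GC, if_pos h]
  | gate k g f => rfl

lemma GC_neg {a : GF (Vr q U)} (h : ¬ isL m (neg a)) :
    GC m q ρ κ (neg a) = (fun e => (GC m q ρ κ a).1 (!e), fun e => (GC m q ρ κ a).1 (!e)) := by
  simp only [GC, if_neg h]

lemma GC_bin {c : Bool} {a b : GF (Vr q U)} (h : ¬ isL m (bin c a b)) :
    GC m q ρ κ (bin c a b) = (fun e => if e = c then
        {τ | τ ∈ Sm q ρ κ (glv m none (bin c a b)) ∧
          ∃ t ∈ (GC m q ρ κ a).2 c ∪ (GC m q ρ κ b).2 c, t ⊆ τ}
      else {τ | τ ∈ Sm q ρ κ (glv m none (bin c a b)) ∧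
        ∀ t ∈ (GC m q ρ κ a).2 c ∪ (GC m q ρ κ b).2 c, ¬ PP q (t ∪ τ)},
     fun e => if e = c then (GC m q ρ κ a).2 c ∪ (GC m q ρ κ b).2 c
      else {τ | τ ∈ Sm q ρ κ (glv m none (bin c a b)) ∧
        ∀ t ∈ (GC m q ρ κ a).2 c ∪ (GC m q ρ κ b).2 c, ¬ PP q (t ∪ τ)}) := by
  simp only [GC, if_neg h]

lemma GC_congr (a : GF (Vr q U)) :
    ((∀ j ≤ glv m none a, ρ j = ρ' j) → (GC m q ρ κ a).1 = (GC m q ρ' κ a).1) ∧
    (∀ c, (∀ j ≤ glv m (some c) a, ρ j = ρ' j) → (GC m q ρ κ a).2 c = (GC m q ρ' κ a).2 c) := by
  have hSm : ∀ i, ρ i = ρ' i → Sm q ρ κ i = Sm q ρ' κ i := by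
    intro i h; unfold Sm; rw [h]
  have hL : ∀ a : GF (Vr q U), isL m a → ρ 0 = ρ' 0 → GC m q ρ κ a = GC m q ρ' κ a := by
    intro a ha h0
    rw [GC_isL ha, GC_isL ha]
    have : LC q ρ κ a = LC q ρ' κ a := by
      funext e; unfold LC; rw [hSm 0 h0]
    rw [this]
  induction a with
  | var S =>
    exact ⟨fun h => by rw [hL (var S) trivial (h 0 (Nat.zero_le _))],
      fun c h => by rw [hL (var S) trivial (h 0 (Nat.zero_le _))]⟩
  | cst b =>
    exact ⟨fun h => by rw [hL (cst b) trivial (h 0 (Nat.zero_le _))],
      fun c h => by rw [hL (cst b) trivial (h 0 (Nat.zero_le _))]⟩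
  | gate k g f _ =>
    exact ⟨fun h => by rw [hL (gate k g f) trivial (h 0 (Nat.zero_le _))],
      fun c h => by rw [hL (gate k g f) trivial (h 0 (Nat.zero_le _))]⟩
  | neg a ih =>
    by_cases hl : isL m (neg a)
    · exact ⟨fun h => by rw [hL _ hl (h 0 (Nat.zero_le _))],
        fun c h => by rw [hL _ hl (h 0 (Nat.zero_le _))]⟩
    · have hg : ∀ r, glv m r (neg a) = glv m none a := by
        intro r; simp only [glv, if_neg hl]
      have : (∀ j ≤ glv m none a, ρ j = ρ' j) → GC m q ρ κ (neg a) = GC m q ρ' κ (neg a) := by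
        intro h
        rw [GC_neg hl, GC_neg hl, ih.1 h]
      exact ⟨fun h => by rw [this (by rw [hg] at h; exact h)],
        fun c h => by rw [this (by rw [hg] at h; exact h)]⟩
  | bin c a b iha ihb =>
    by_cases hl : isL m (bin c a b)
    · exact ⟨fun h => by rw [hL _ hl (h 0 (Nat.zero_le _))],
        fun c h => by rw [hL _ hl (h 0 (Nat.zero_le _))]⟩
    · have hD : (∀ j ≤ max (glv m (some c) a) (glv m (some c) b), ρ j = ρ' j) →
          (GC m q ρ κ a).2 c ∪ (GC m q ρ κ b).2 c = (GC m q ρ' κ a).2 c ∪ (GC m q ρ' κ b).2 c := by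
        intro h
        rw [iha.2 c (fun j hj => h j (hj.trans (le_max_left _ _))),
          ihb.2 c (fun j hj => h j (hj.trans (le_max_right _ _)))]
      have hall : (∀ j ≤ glv m none (bin c a b), ρ j = ρ' j) →
          GC m q ρ κ (bin c a b) = GC m q ρ' κ (bin c a b) := by
        intro h
        rw [GC_bin hl, GC_bin hl, hSm _ (h _ le_rfl),
          hD (fun j hj => h j (by rw [glv_bin hl]; omega))]
      refine ⟨fun h => by rw [hall h], fun e h => ?_⟩
      by_cases he : e = c
      · subst he
        rw [GC_bin hl, GC_bin hl]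
        simp only [if_true]
        refine hD (fun j hj => h j ?_)
        simp only [glv, if_neg hl, if_true, zero_add]
        exact hj
      · rw [hall]
        intro j hj
        apply h
        have : (some e : Option Bool) ≠ some c := fun h0 => he (by simpa using h0)
        rw [glv_bin hl] at hj
        simp only [glv, if_neg hl, this, if_false]
        exact hj

lemma mem_Sm_of_GC (a : GF (Vr q U)) : ∀ (e : Bool) (t : Finset (Finset U)),
    t ∈ (GC m q ρ κ a).1 e → t ∈ Sm q ρ κ (glv m none a) := by
  induction a with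
  | var S => intro e t ht; exact ht.1
  | cst b => intro e t ht; exact ht.1
  | gate k g f _ => intro e t ht; exact ht.1
  | neg a ih =>
    intro e t ht
    by_cases hl : isL m (neg a)
    · rw [GC_isL hl] at ht
      rw [glv_isL hl]
      exact ht.1
    · rw [GC_neg hl] at ht
      have : glv m none (neg a) = glv m none a := by simp only [glv, if_neg hl]
      rw [this]
      exact ih _ t ht
  | bin c a b iha ihb =>
    intro e t ht
    by_cases hl : isL m (bin c a b)
    · rw [GC_isL hl] at ht
      rw [glv_isL hl]
      exact ht.1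
    · rw [GC_bin hl] at ht
      simp only at ht
      split_ifs at ht
      · exact ht.1
      · exact ht.1

/-- members of the second component are certificates of some argument of smaller level -/
lemma mem_GD (a : GF (Vr q U)) : ∀ (c : Bool) (t : Finset (Finset U)),
    t ∈ (GC m q ρ κ a).2 c → ∃ i ≤ glv m (some c) a, t ∈ Sm q ρ κ i := by
  induction a with
  | var S => intro e t ht; exact ⟨0, Nat.zero_le _, ht.1⟩
  | cst b => intro e t ht; exact ⟨0, Nat.zero_le _, ht.1⟩
  | gate k g f _ => intro e t ht; exact ⟨0, Nat.zero_le _, ht.1⟩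
  | neg a ih =>
    intro e t ht
    by_cases hl : isL m (neg a)
    · rw [GC_isL hl] at ht
      exact ⟨0, Nat.zero_le _, ht.1⟩
    · rw [GC_neg hl] at ht
      refine ⟨glv m none a, ?_, mem_Sm_of_GC a _ t ht⟩
      simp only [glv, if_neg hl]; exact le_rfl
  | bin c a b iha ihb =>
    intro e t ht
    by_cases hl : isL m (bin c a b)
    · rw [GC_isL hl] at ht
      exact ⟨0, Nat.zero_le _, ht.1⟩
    · rw [GC_bin hl] at ht
      by_cases he : e = c
      · subst he
        simp only [if_true] at ht
        simp only [glv, if_neg hl, if_true, zero_add]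
        rcases ht with h | h
        · obtain ⟨i, hi, hi'⟩ := iha _ t h
          exact ⟨i, hi.trans (le_max_left _ _), hi'⟩
        · obtain ⟨i, hi, hi'⟩ := ihb _ t h
          exact ⟨i, hi.trans (le_max_right _ _), hi'⟩
      · simp only [if_neg he] at ht
        refine ⟨_, ?_, ht.1⟩
        have : (some e : Option Bool) ≠ some c := fun h0 => he (by simpa using h0)
        rw [glv_bin hl]
        simp only [glv, if_neg hl, this, if_false]
        exact le_rfl

/-- each certificate of `a` for `c` contains a member of the second component -/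
lemma GC_to_GD (a : GF (Vr q U)) (c : Bool) (t : Finset (Finset U))
    (ht : t ∈ (GC m q ρ κ a).1 c) : ∃ t1 ∈ (GC m q ρ κ a).2 c, t1 ⊆ t := by
  by_cases hl : isL m a
  · rw [GC_isL hl] at ht ⊢
    exact ⟨t, ht, Subset.rfl⟩
  · cases a with
    | var S => exact absurd trivial hl
    | cst b => exact absurd trivial hl
    | gate k g f => exact absurd trivial hl
    | neg a => rw [GC_neg hl] at ht ⊢; exact ⟨t, ht, Subset.rfl⟩
    | bin c' a b =>
      rw [GC_bin hl] at ht ⊢
      by_cases he : c = c'
      · subst he
        simp only [if_true] at ht ⊢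
        exact ht.2
      · simp only [if_neg he] at ht ⊢
        exact ⟨t, ht, Subset.rfl⟩

lemma LC_consistent {a : GF (Vr q U)} {t t' : Finset (Finset U)} {e e' : Bool}
    (ht : t ∈ LC q ρ κ a e) (ht' : t' ∈ LC q ρ κ a e') (hPP : PP q (t ∪ t')) : e = e' := by
  have h1 := wa_mono subset_union_left hPP ht.2.1
  have h2 := wa_mono subset_union_right hPP ht'.2.1
  rw [← ht.2.2, ← ht'.2.2, h1, h2]

/-- consistency -/
lemma GC_consistent (a : GF (Vr q U)) : ∀ (t t' : Finset (Finset U)),
    t ∈ (GC m q ρ κ a).1 true → t' ∈ (GC m q ρ κ a).1 false → ¬ PP q (t ∪ t') := by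
  have hL : ∀ a : GF (Vr q U), isL m a → ∀ (t t' : Finset (Finset U)),
      t ∈ (GC m q ρ κ a).1 true → t' ∈ (GC m q ρ κ a).1 false → ¬ PP q (t ∪ t') := by
    intro a ha t t' ht ht' hPP
    rw [GC_isL ha] at ht ht'
    exact Bool.noConfusion (LC_consistent ht ht' hPP)
  induction a with
  | var S => exact hL _ trivial
  | cst b => exact hL _ trivial
  | gate k g f _ => exact hL _ trivial
  | neg a ih =>
    by_cases hl : isL m (neg a)
    · exact hL _ hl
    · intro t t' ht ht' hPP
      rw [GC_neg hl] at ht ht'
      rw [union_comm] at hPP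
      exact ih t' t ht' ht hPP
  | bin c a b iha ihb =>
    by_cases hl : isL m (bin c a b)
    · exact hL _ hl
    · intro t t' ht ht' hPP
      rw [GC_bin hl] at ht ht'
      simp only at ht ht'
      cases c with
      | true =>
        rw [if_pos rfl] at ht
        rw [if_neg (by simp)] at ht'
        obtain ⟨_, t1, ht1, hsub⟩ := ht
        exact ht'.2 t1 ht1 (hPP.mono (union_subset_union hsub Subset.rfl))
      | false =>
        rw [if_neg (by simp)] at ht
        rw [if_pos rfl] at ht'
        obtain ⟨_, t1, ht1, hsub⟩ := ht'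
        rw [union_comm] at hPP
        exact ht.2 t1 ht1 (hPP.mono (union_subset_union hsub Subset.rfl))

/-- the formula is decided with value `e` in the world `w` -/
def Gd (m q : ℕ) (ρ : ℕ → Finset (Finset U)) (κ : ℕ → ℕ) (a : GF (Vr q U)) (e : Bool)
    (w : Finset (Finset U)) : Prop := ∃ t ∈ (GC m q ρ κ a).1 e, t ⊆ w

lemma Gd_unique {a : GF (Vr q U)} {e e' : Bool} {w : Finset (Finset U)}
    (hw : PP q w) (h : Gd m q ρ κ a e w) (h' : Gd m q ρ κ a e' w) : e = e' := by
  obtain ⟨t, ht, hsub⟩ := h
  obtain ⟨t', ht', hsub'⟩ := h'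
  cases e with
  | true =>
    cases e' with
    | true => rfl
    | false => exact absurd (hw.mono (union_subset hsub hsub')) (GC_consistent a t t' ht ht')
  | false =>
    cases e' with
    | false => rfl
    | true => exact absurd (hw.mono (union_subset hsub' hsub)) (GC_consistent a t' t ht' ht)

lemma Gd_of_D {a : GF (Vr q U)} {c e : Bool} {w t : Finset (Finset U)}
    (hw : PP q w) (ht : t ∈ (GC m q ρ κ a).2 c) (htw : t ⊆ w) (h : Gd m q ρ κ a e w) : e = c := by
  have hsame : t ∈ (GC m q ρ κ a).1 c → e = c := fun ht' => Gd_unique hw h ⟨t, ht', htw⟩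
  by_cases hl : isL m a
  · apply hsame
    rw [GC_isL hl] at ht ⊢
    exact ht
  · cases a with
    | var S => exact absurd trivial hl
    | cst b => exact absurd trivial hl
    | gate k g f => exact absurd trivial hl
    | neg a => apply hsame; rw [GC_neg hl] at ht ⊢; exact ht
    | bin c' a b =>
      by_cases hc : c = c'
      · subst hc
        by_contra hne
        obtain ⟨s, hs, hsw⟩ := h
        rw [GC_bin hl] at hs ht
        simp only [if_neg hne] at hs
        simp only [if_true] at ht
        exact hs.2 t ht (hw.mono (union_subset htw hsw))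
      · apply hsame
        rw [GC_bin hl] at ht ⊢
        simp only [if_neg hc] at ht ⊢
        exact ht

lemma Gd_isL {a : GF (Vr q U)} (hl : isL m a) {e : Bool} {w : Finset (Finset U)} (hw : PP q w)
    (h : Gd m q ρ κ a e w) : eval (wa w) a = e := by
  obtain ⟨t, ht, htw⟩ := h
  rw [GC_isL hl] at ht
  rw [← ht.2.2]
  exact (wa_mono htw hw ht.2.1).symm

lemma isL_sub_neg {a : GF (Vr q U)} (h : isL m (neg a)) : isL m a := isL_of_card h

lemma isL_sub_bin {c : Bool} {a b : GF (Vr q U)} (h : isL m (bin c a b)) : isL m a ∧ isL m b := by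
  have h' : (vars (bin c a b)).card ≤ m := h
  exact ⟨isL_of_card ((card_le_card (vars_subs _ a (subs_bin_l _ _ _ (subs_self a)))).trans h'),
    isL_of_card ((card_le_card (vars_subs _ b (subs_bin_r _ _ _ (subs_self b)))).trans h')⟩

lemma Gd_bin {c : Bool} {a b : GF (Vr q U)} (hl : ¬ isL m (bin c a b)) {e ea eb : Bool}
    {w : Finset (Finset U)} (hw : PP q w) (h : Gd m q ρ κ (bin c a b) e w)
    (ha : Gd m q ρ κ a ea w) (hb : Gd m q ρ κ b eb w) :
    e = if c then (ea || eb) else (ea && eb) := by
  have key : e = if ea = c ∨ eb = c then c else !c := by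
    by_cases he : e = c
    · obtain ⟨t, ht, htm⟩ := h
      rw [GC_bin hl] at ht
      simp only [if_pos he] at ht
      obtain ⟨_, t1, ht1, hsub⟩ := ht
      rcases ht1 with h1 | h1
      · have := Gd_of_D hw h1 (hsub.trans htm) ha
        rw [if_pos (Or.inl this)]; exact he
      · have := Gd_of_D hw h1 (hsub.trans htm) hb
        rw [if_pos (Or.inr this)]; exact he
    · obtain ⟨t, ht, htm⟩ := h
      rw [GC_bin hl] at ht
      simp only [if_neg he] at ht
      have h1 : ¬ (ea = c ∨ eb = c) := by
        rintro (h1 | h1)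
        · subst h1
          obtain ⟨s, hs, hsm⟩ := ha
          obtain ⟨s1, hs1, hss⟩ := GC_to_GD a _ s hs
          exact ht.2 s1 (Or.inl hs1) (hw.mono (union_subset (hss.trans hsm) htm))
        · subst h1
          obtain ⟨s, hs, hsm⟩ := hb
          obtain ⟨s1, hs1, hss⟩ := GC_to_GD b _ s hs
          exact ht.2 s1 (Or.inr hs1) (hw.mono (union_subset (hss.trans hsm) htm))
      rw [if_neg h1]
      cases e <;> cases c <;> simp_all
  rw [key]
  cases c <;> cases ea <;> cases eb <;> simp

lemma Gd_neg {a : GF (Vr q U)} (hl : ¬ isL m (neg a)) {e : Bool} {w : Finset (Finset U)} :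
    Gd m q ρ κ (neg a) e w ↔ Gd m q ρ κ a (!e) w := by
  unfold Gd
  rw [GC_neg hl]

end cert

end GF

end Pool.Agent.Work.MP_c04246_lc
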