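import Mathlib
import Pool.Agent.Work.MP_c04246_lc.LCert

set_option autoImplicit false
set_option linter.unusedSectionVars false
set_option linter.unusedSimpArgs false
set_option linter.unusedVariables false

namespace Pool.Agent.Work.MP_c04246_lc

open Finset

namespace GF

section Stage

variable {q m : ℕ} {U : Type} [DecidableEq U]

/-- states in which the formula is decided -/
def GS (m q : ℕ) (ρ : ℕ → Finset (Finset U)) (κ : ℕ → ℕ) (a : GF (Vr q U)) :
    Set (Finset (Finset U)) := {τ | ∃ e, Gd m q ρ κ a e τ}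

lemma GS_up {ρ : ℕ → Finset (Finset U)} {κ : ℕ → ℕ} {a : GF (Vr q U)} :
    ∀ τ τ', τ ∈ GS m q ρ κ a → τ ⊆ τ' → τ' ∈ GS m q ρ κ a := by
  rintro τ τ' ⟨e, t, ht, hsub⟩ h
  exact ⟨e, t, ht, hsub.trans h⟩

/-- the formula is decided by few queries -/
def GG (m q : ℕ) (ρ : ℕ → Finset (Finset U)) (κ : ℕ → ℕ) (a : GF (Vr q U)) : Prop :=
  Dec q (GS m q ρ κ a) (ρ (glv m none a)) (κ (glv m none a))

variable {ρ ρ' : ℕ → Finset (Finset U)} {κ : ℕ → ℕ}

lemma GG_congr (a : GF (Vr q U)) (h : ∀ j ≤ glv m none a, ρ j = ρ' j) (hg : GG m q ρ κ a) :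
    GG m q ρ' κ a := by
  unfold GG GS Gd at *
  rw [← (GC_congr a).1 h, ← h _ le_rfl]
  exact hg

lemma GG_neg {a : GF (Vr q U)} (hl : ¬ isL m (neg a)) (h : GG m q ρ κ a) :
    GG m q ρ κ (neg a) := by
  unfold GG at *
  have h1 : glv m none (neg a) = glv m none a := by simp only [glv, if_neg hl]
  rw [h1]
  refine Dec.mono_L ?_ h
  rintro τ ⟨e, he⟩
  exact ⟨!e, by rw [Gd_neg hl, Bool.not_not]; exact he⟩

lemma GG_bin {c : Bool} {a b : GF (Vr q U)} (hl : ¬ isL m (bin c a b))
    {F : List (Finset (Finset U))} {h : ℕ}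
    (hF : ∀ t, t ∈ F ↔ t ∈ (GC m q ρ κ (bin c a b)).2 c)
    (hPP : PP q (ρ (glv m none (bin c a b)))) (hh : h ≤ κ (glv m none (bin c a b)))
    (hd : Dec q (LF q F) (ρ (glv m none (bin c a b))) h) : GG m q ρ κ (bin c a b) := by
  unfold GG
  have h1 := hd.mono_h _ hh
  have h2 := h1.small _ (κ (glv m none (bin c a b))) Subset.rfl hPP (by simp)
  refine h2.mono_L ?_
  rintro τ ⟨h3, h4⟩
  have hD : (GC m q ρ κ (bin c a b)).2 c = (GC m q ρ κ a).2 c ∪ (GC m q ρ κ b).2 c := by
    rw [GC_bin hl]; simp
  rcases h3 with ⟨t, ht, htτ⟩ | h3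
  · refine ⟨c, τ, ?_, Subset.rfl⟩
    rw [GC_bin hl]
    simp only [if_true]
    refine ⟨h4, t, ?_, htτ⟩
    rw [← hD]; exact (hF t).mp ht
  · refine ⟨!c, τ, ?_, Subset.rfl⟩
    have hne : (!c) ≠ c := by cases c <;> simp
    rw [GC_bin hl]
    simp only [if_neg hne]
    refine ⟨h4, fun t ht => h3 t ?_⟩
    rw [hF, hD]; exact ht

variable [Fintype U]

/-- closure conditions for the family of formulas under consideration -/
def GClosed (Γ : Finset (GF (Vr q U))) : Prop :=
  (∀ a, neg a ∈ Γ → a ∈ Γ) ∧ (∀ c a b, bin c a b ∈ Γ → a ∈ Γ ∧ b ∈ Γ)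

theorem exists_gcontexts (hq : 0 < q) {Γ : Finset (GF (Vr q U))} (hΓ : GClosed Γ)
    {a0 d : ℕ} (hcard : Γ.card < 2 ^ (a0 + 1)) {κ N : ℕ → ℕ} (hκ1 : ∀ i, 1 ≤ κ i)
    (hκa : ∀ i, q * a0 ≤ κ i) (hκm : Monotone κ) {ρ0 : Finset (Finset U)} (hρ0 : PP q ρ0)
    (hN0 : nun ρ0 = N 0) (hL : ∀ a ∈ Γ, isL m a → GG m q (fun _ => ρ0) κ a)
    (hN : ∀ i < d, ∃ m, N i = N (i + 1) + q * m)
    (h16 : ∀ i < d, 16 * (q * (κ i * N (i + 1) ^ (q * q + q))) ≤ N i)
    (hroom : ∀ i < d, q * (q * a0) + q * (q * κ i) ≤ N (i + 1)) (hN1 : ∀ i, 1 ≤ N i) :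
    ∀ i ≤ d, ∃ ρ : ℕ → Finset (Finset U), ρ 0 = ρ0 ∧ (∀ j ≤ i, PP q (ρ j)) ∧
      (∀ j j', j ≤ j' → j' ≤ i → ρ j ⊆ ρ j') ∧ (∀ j ≤ i, nun (ρ j) = N j) ∧
      ∀ a ∈ Γ, glv m none a ≤ i → GG m q ρ κ a := by
  classical
  have hloc : ∀ (ρ : ℕ → Finset (Finset U)), ρ 0 = ρ0 → ∀ a ∈ Γ, isL m a → GG m q ρ κ a := by
    intro ρ hρ a ha hl
    refine GG_congr a (fun j hj => ?_) (hL a ha hl)
    rw [glv_isL hl] at hj
    have : j = 0 := by omega
    rw [this, hρ]
  intro i
  induction i with
  | zero =>
    intro _
    refine ⟨fun _ => ρ0, rfl, fun _ _ => hρ0, fun _ _ _ _ => Subset.rfl, ?_, ?_⟩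
    · intro j hj
      have : j = 0 := by omega
      subst this
      exact hN0
    · intro a
      induction a with
      | var S => intro ha _; exact hL _ ha trivial
      | cst b => intro ha _; exact hL _ ha trivial
      | gate k g f _ => intro ha _; exact hL _ ha trivial
      | neg a ih =>
        intro ha hl
        by_cases h : isL m (neg a)
        · exact hL _ ha h
        · refine GG_neg h (ih (hΓ.1 a ha) ?_)
          have h1 : glv m none (neg a) = glv m none a := by simp only [glv, if_neg h]
          omega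
      | bin c a b _ _ =>
        intro ha hl
        by_cases h : isL m (bin c a b)
        · exact hL _ ha h
        · rw [glv_bin h] at hl; omega
  | succ i ih =>
    intro hi
    obtain ⟨ρ, hρ0', hρPP, hρm, hρN, hρG⟩ := ih (by omega)
    let F : GF (Vr q U) → List (Finset (Finset U)) := fun x =>
      match x with
      | bin c a b => if glv m none (bin c a b) = i + 1 then
          ((GC m q ρ κ (bin c a b)).2 c).toFinset.toList else []
      | _ => []
    have hF : ∀ x ∈ Γ, ∀ t ∈ F x, (t \ ρ i).card ≤ κ i := by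
      intro x _ t ht
      cases x with
      | var S => simp [F] at ht
      | cst b => simp [F] at ht
      | neg a => simp [F] at ht
      | gate k g f => simp [F] at ht
      | bin c a b =>
        simp only [F] at ht
        split_ifs at ht with hl
        · rw [mem_toList, Set.mem_toFinset] at ht
          have hnl : ¬ isL m (bin c a b) := by
            intro h; rw [glv_isL h] at hl; omega
          obtain ⟨j, hj, hjS⟩ := mem_GD _ _ _ ht
          have hji : j ≤ i := by
            rw [glv_bin hnl] at hl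
            simp only [glv, if_neg hnl, if_true, zero_add] at hj
            omega
          exact (card_le_card (sdiff_subset_sdiff Subset.rfl (hρm j i hji le_rfl))).trans
            (hjS.2.2.trans (hκm hji))
        · simp at ht
    obtain ⟨m', hm'⟩ := hN i (by omega)
    obtain ⟨ρn, hn1, hn2, hn3, hn4⟩ := switching hq Γ F (hρPP i le_rfl) hF (hκ1 i) (hN1 (i + 1))
      (a := a0) (m := m') (by rw [hρN i le_rfl]; exact hm')
      (by rw [hρN i le_rfl]; exact h16 i (by omega)) (hroom i (by omega)) hcard
    have hagree : ∀ j ≤ i, ρ j = Function.update ρ (i + 1) ρn j := by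
      intro j hj
      rw [Function.update_of_ne (by omega)]
    have hupd : Function.update ρ (i + 1) ρn (i + 1) = ρn := Function.update_self _ _ _
    have h00 : Function.update ρ (i + 1) ρn 0 = ρ0 := by
      rw [← hagree 0 (Nat.zero_le _)]; exact hρ0'
    refine ⟨Function.update ρ (i + 1) ρn, h00, ?_, ?_, ?_, ?_⟩
    · intro j hj
      rcases Nat.lt_or_ge j (i + 1) with h | h
      · rw [← hagree j (by omega)]; exact hρPP j (by omega)
      · have : j = i + 1 := by omega
        rw [this, hupd]; exact hn1
    · intro j j' hjj hj'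
      rcases Nat.lt_or_ge j' (i + 1) with h | h
      · rw [← hagree j (by omega), ← hagree j' (by omega)]; exact hρm j j' hjj (by omega)
      · have : j' = i + 1 := by omega
        subst this
        rw [hupd]
        rcases Nat.lt_or_ge j (i + 1) with h' | h'
        · rw [← hagree j (by omega)]
          exact (hρm j i (by omega) le_rfl).trans hn2
        · have : j = i + 1 := by omega
          rw [this, hupd]
    · intro j hj
      rcases Nat.lt_or_ge j (i + 1) with h | h
      · rw [← hagree j (by omega)]; exact hρN j (by omega)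
      · have : j = i + 1 := by omega
        rw [this, hupd]; exact hn3
    · intro a
      induction a with
      | var S => intro ha _; exact hloc _ h00 _ ha trivial
      | cst b => intro ha _; exact hloc _ h00 _ ha trivial
      | gate k g f _ => intro ha _; exact hloc _ h00 _ ha trivial
      | neg a ih =>
        intro ha hl
        by_cases h : isL m (neg a)
        · exact hloc _ h00 _ ha h
        · refine GG_neg h (ih (hΓ.1 a ha) ?_)
          have h1 : glv m none (neg a) = glv m none a := by simp only [glv, if_neg h]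
          omega
      | bin c a b _ _ =>
        intro ha hl
        by_cases hnl : isL m (bin c a b)
        · exact hloc _ h00 _ ha hnl
        rcases Nat.lt_or_ge (glv m none (bin c a b)) (i + 1) with h | h
        · exact GG_congr _ (fun j hj => hagree j (by omega)) (hρG _ ha (by omega))
        · have hl' : glv m none (bin c a b) = i + 1 := by omega
          have hFx : F (bin c a b) = ((GC m q ρ κ (bin c a b)).2 c).toFinset.toList := by
            simp only [F]; rw [if_pos hl']
          have hD : (GC m q ρ κ (bin c a b)).2 c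
              = (GC m q (Function.update ρ (i + 1) ρn) κ (bin c a b)).2 c := by
            apply (GC_congr (bin c a b)).2 c
            intro j hj
            apply hagree
            rw [glv_bin hnl] at hl'
            simp only [glv, if_neg hnl, if_true, zero_add] at hj
            omega
          refine GG_bin hnl (F := F (bin c a b)) (h := q * a0) ?_ ?_ ?_ ?_
          · intro t
            rw [hFx, mem_toList, Set.mem_toFinset, hD]
          · rw [hl', hupd]; exact hn1
          · exact hκa _
          · rw [hl', hupd]; exact hn4 _ ha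

end Stage

end GF

end Pool.Agent.Work.MP_c04246_lc
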