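import Mathlib
import Pool.Agent.Work.MP_c04246_lc.LContexts

set_option autoImplicit false
set_option linter.unusedSectionVars false
set_option linter.unusedSimpArgs false
set_option linter.unusedVariables false

namespace Pool.Agent.Work.MP_c04246_lc

open Finset

section count

variable {U : Type} [DecidableEq U] [Fintype U]

lemma card_supersets_le (B : Finset U) (k : ℕ) :
    ((powersetCard k (univ : Finset U)).filter fun A => B ⊆ A).card ≤
      (Fintype.card U - B.card).choose (k - B.card) := by
  have h1 : (powersetCard (k - B.card) (univ \ B)).card =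
      (Fintype.card U - B.card).choose (k - B.card) := by
    rw [card_powersetCard, card_sdiff_of_subset (subset_univ B), card_univ]
  rw [← h1]
  refine card_le_card_of_injOn (fun A => A \ B) ?_ ?_
  · intro A hA
    rw [mem_coe, mem_filter, mem_powersetCard] at hA
    obtain ⟨⟨_, hA1⟩, hA2⟩ := hA
    rw [mem_coe, mem_powersetCard]
    exact ⟨sdiff_subset_sdiff (subset_univ _) Subset.rfl, by
      rw [card_sdiff_of_subset hA2, hA1]⟩
  · intro A hA A' hA' h
    rw [mem_coe, mem_filter] at hA hA'
    simp only at h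
    rw [← sdiff_union_of_subset hA.2, ← sdiff_union_of_subset hA'.2, h]

lemma choose_ratio {n k : ℕ} (hkn : k ≤ n) : ∀ b, b ≤ k →
    (n - b).choose (k - b) * n ^ b ≤ n.choose k * k ^ b := by
  intro b
  induction b with
  | zero => intro _; simp
  | succ b ih =>
    intro hb
    have h1 := ih (by omega)
    rcases Nat.eq_zero_or_pos n with h0 | h0
    · subst h0
      have : k = 0 := by omega
      omega
    -- (n-b) * C(n-b-1, k-b-1) = C(n-b, k-b) * (k-b)
    have h2 : (n - b) * (n - (b + 1)).choose (k - (b + 1)) =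
        (n - b).choose (k - b) * (k - b) := by
      have h3 := Nat.add_one_mul_choose_eq (n - (b + 1)) (k - (b + 1))
      have h4 : n - (b + 1) + 1 = n - b := by omega
      have h5 : k - (b + 1) + 1 = k - b := by omega
      rw [h4, h5] at h3
      exact h3
    have h3 : (k - b) * n ≤ k * (n - b) := by
      obtain ⟨x, hx⟩ : ∃ x, k = b + x := ⟨k - b, by omega⟩
      obtain ⟨y, hy⟩ : ∃ y, n = k + y := ⟨n - k, by omega⟩
      subst hx
      subst hy
      have e1 : b + x - b = x := by omega
      have e2 : b + x + y - b = x + y := by omega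
      rw [e1, e2]
      nlinarith [Nat.zero_le (b * y)]
    have hnb : 0 < n - b := by omega
    have h4 : (n - (b + 1)).choose (k - (b + 1)) * n ≤ (n - b).choose (k - b) * k := by
      refine Nat.le_of_mul_le_mul_left ?_ hnb
      calc (n - b) * ((n - (b + 1)).choose (k - (b + 1)) * n)
          = ((n - b) * (n - (b + 1)).choose (k - (b + 1))) * n := by ring
        _ = (n - b).choose (k - b) * ((k - b) * n) := by rw [h2]; ring
        _ ≤ (n - b).choose (k - b) * (k * (n - b)) := Nat.mul_le_mul_left _ h3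
        _ = (n - b) * ((n - b).choose (k - b) * k) := by ring
    calc (n - (b + 1)).choose (k - (b + 1)) * n ^ (b + 1)
        = ((n - (b + 1)).choose (k - (b + 1)) * n) * n ^ b := by ring
      _ ≤ ((n - b).choose (k - b) * k) * n ^ b := Nat.mul_le_mul_right _ h4
      _ = ((n - b).choose (k - b) * n ^ b) * k := by ring
      _ ≤ (n.choose k * k ^ b) * k := Nat.mul_le_mul_right _ h1
      _ = n.choose k * k ^ (b + 1) := by ring

/-- a random set of `n'` points contains no large matching of any of few small families -/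
lemma exists_sparse_set {q : ℕ} {ι : Type*} (I : Finset ι) (V : ι → Finset (Finset U)) {m n' h : ℕ}
    (hV : ∀ i ∈ I, (V i).card ≤ m) (hn' : n' ≤ Fintype.card U)
    (h2 : 2 * (m * n' ^ q) ≤ Fintype.card U ^ q) (hI : I.card < 2 ^ h)
    (hpos : 0 < Fintype.card U) :
    ∃ A : Finset U, A.card = n' ∧ ∀ i ∈ I, ∀ P ⊆ V i, PP q P → P.card = h → ¬ cov P ⊆ A := by
  classical
  set n := Fintype.card U with hn
  by_contra hcon
  push Not at hcon
  -- every set is bad
  have hsub : powersetCard n' (univ : Finset U) ⊆ I.biUnion fun i =>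
      ((powersetCard h (V i)).filter fun P => PP q P).biUnion fun P =>
        (powersetCard n' (univ : Finset U)).filter fun A => cov P ⊆ A := by
    intro A hA
    obtain ⟨i, hi, P, hP, hPP, hPc, hPA⟩ := hcon A (mem_powersetCard.mp hA).2
    refine mem_biUnion.mpr ⟨i, hi, mem_biUnion.mpr ⟨P, ?_, ?_⟩⟩
    · rw [mem_filter, mem_powersetCard]; exact ⟨⟨hP, hPc⟩, hPP⟩
    · rw [mem_filter]; exact ⟨hA, hPA⟩
  have hchoose : 0 < n.choose n' := Nat.choose_pos hn'
  -- bound for a single matching
  have hone : ∀ i ∈ I, ∀ P ∈ (powersetCard h (V i)).filter fun P => PP q P,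
      ((powersetCard n' (univ : Finset U)).filter fun A => cov P ⊆ A).card * n ^ (q * h) ≤
        n.choose n' * n' ^ (q * h) := by
    intro i hi P hP
    rw [mem_filter, mem_powersetCard] at hP
    have hcov : (cov P).card = q * h := by rw [hP.2.card_cov, hP.1.2]
    by_cases hqh : q * h ≤ n'
    · refine le_trans (Nat.mul_le_mul_right _ (card_supersets_le (cov P) n')) ?_
      rw [hcov]
      exact choose_ratio hn' _ hqh
    · have : ((powersetCard n' (univ : Finset U)).filter fun A => cov P ⊆ A) = ∅ := by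
        rw [filter_eq_empty_iff]
        intro A hA hPA
        have h1 := card_le_card hPA
        rw [(mem_powersetCard.mp hA).2, hcov] at h1
        exact hqh h1
      rw [this]; simp
  have htot : n.choose n' * n ^ (q * h) ≤ I.card * (m ^ h * (n.choose n' * n' ^ (q * h))) := by
    have h3 : (powersetCard n' (univ : Finset U)).card = n.choose n' := by
      rw [card_powersetCard, card_univ]
    calc n.choose n' * n ^ (q * h)
        = (powersetCard n' (univ : Finset U)).card * n ^ (q * h) := by rw [h3]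
      _ ≤ (∑ i ∈ I, ∑ P ∈ (powersetCard h (V i)).filter fun P => PP q P,
            ((powersetCard n' (univ : Finset U)).filter fun A => cov P ⊆ A).card) *
            n ^ (q * h) := by
          refine Nat.mul_le_mul_right _ ((card_le_card hsub).trans (card_biUnion_le.trans ?_))
          exact sum_le_sum fun i _ => card_biUnion_le
      _ = ∑ i ∈ I, ∑ P ∈ (powersetCard h (V i)).filter fun P => PP q P,
            ((powersetCard n' (univ : Finset U)).filter fun A => cov P ⊆ A).card *
            n ^ (q * h) := by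
          rw [sum_mul]
          exact sum_congr rfl fun i _ => by rw [sum_mul]
      _ ≤ ∑ i ∈ I, ∑ P ∈ (powersetCard h (V i)).filter fun P => PP q P,
            (n.choose n' * n' ^ (q * h)) :=
          sum_le_sum fun i hi => sum_le_sum fun P hP => hone i hi P hP
      _ ≤ ∑ i ∈ I, m ^ h * (n.choose n' * n' ^ (q * h)) := by
          refine sum_le_sum fun i hi => ?_
          rw [sum_const, smul_eq_mul]
          refine Nat.mul_le_mul_right _ ((card_filter_le _ _).trans ?_)
          rw [card_powersetCard]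
          exact (Nat.choose_le_pow _ _).trans (Nat.pow_le_pow_left (hV i hi) _)
      _ = I.card * (m ^ h * (n.choose n' * n' ^ (q * h))) := by rw [sum_const, smul_eq_mul]
  have h4 : 2 ^ h * (m ^ h * n' ^ (q * h)) ≤ n ^ (q * h) := by
    rw [pow_mul, pow_mul, ← mul_pow, ← mul_pow]
    exact Nat.pow_le_pow_left h2 h
  have h5 : (n.choose n' * n ^ (q * h)) * 2 ^ h ≤ I.card * (n.choose n' * n ^ (q * h)) := by
    calc (n.choose n' * n ^ (q * h)) * 2 ^ h
        ≤ (I.card * (m ^ h * (n.choose n' * n' ^ (q * h)))) * 2 ^ h := Nat.mul_le_mul_right _ htot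
      _ = I.card * (n.choose n' * (2 ^ h * (m ^ h * n' ^ (q * h)))) := by ring
      _ ≤ I.card * (n.choose n' * n ^ (q * h)) :=
          Nat.mul_le_mul_left _ (Nat.mul_le_mul_left _ h4)
  have h6 : 0 < n.choose n' * n ^ (q * h) := Nat.mul_pos hchoose (Nat.pow_pos hpos)
  have h7 : I.card * (n.choose n' * n ^ (q * h)) < 2 ^ h * (n.choose n' * n ^ (q * h)) :=
    Nat.mul_lt_mul_of_pos_right hI h6
  have h8 : (n.choose n' * n ^ (q * h)) * 2 ^ h = 2 ^ h * (n.choose n' * n ^ (q * h)) := by ring
  omega

/-- a family without large matchings has a small transversal -/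
lemma exists_transversal {q : ℕ} (hq : 0 < q) (V : Finset (Finset U)) (hVq : ∀ S ∈ V, S.card = q)
    (A : Finset U) {h : ℕ} (hno : ∀ P ⊆ V, PP q P → P.card = h → ¬ cov P ⊆ A) :
    ∃ W : Finset U, W.card ≤ q * h ∧ ∀ S ∈ V, S ⊆ A → ∃ u ∈ W, u ∈ S := by
  classical
  set V' := V.filter fun S => S ⊆ A with hV'
  obtain ⟨P, hP, hmax⟩ := exists_max_image ((V'.powerset).filter fun P => PP q P) card
    ⟨∅, by rw [mem_filter]; exact ⟨empty_mem_powerset _, PP.empty q⟩⟩
  rw [mem_filter, mem_powerset] at hP
  obtain ⟨hPV, hPP⟩ := hP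
  have hPA : cov P ⊆ A := by
    intro u hu
    obtain ⟨S, hS, huS⟩ := mem_cov.mp hu
    exact (mem_filter.mp (hPV hS)).2 huS
  have hPh : P.card ≤ h := by
    by_contra hc
    push Not at hc
    obtain ⟨P', hP', hPc⟩ := exists_subset_card_eq hc.le
    refine hno P' ?_ (hPP.mono hP') hPc ((cov_mono hP').trans hPA)
    exact fun S hS => (mem_filter.mp (hPV (hP' hS))).1
  refine ⟨cov P, ?_, ?_⟩
  · rw [hPP.card_cov]; exact Nat.mul_le_mul_left _ hPh
  · intro S hS hSA
    by_contra hcon
    push Not at hcon
    have hdisj : Disjoint S (cov P) := by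
      rw [disjoint_left]
      intro u hu hu'
      exact hcon u hu' hu
    have hSP : S ∉ P := by
      intro hSP
      obtain ⟨u, hu⟩ : S.Nonempty := by rw [← card_pos, hVq S hS]; exact hq
      exact hcon u (mem_cov.mpr ⟨S, hSP, hu⟩) hu
    have h1 := hmax (insert S P) (by
      rw [mem_filter, mem_powerset]
      refine ⟨?_, hPP.insert (hVq S hS) hdisj⟩
      intro T hT
      rcases mem_insert.mp hT with rfl | hT
      · exact mem_filter.mpr ⟨hS, hSA⟩
      · exact hPV hT)
    rw [card_insert_of_notMem hSP] at h1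
    omega

end count

section decide

variable {q : ℕ} {U : Type} [DecidableEq U]

/-- query all points of a set -/
lemma Dec.cover (W : Finset U) : ∀ τ : Finset (Finset U), PP q τ →
    Dec q {τ' | W ⊆ cov τ'} τ W.card := by
  classical
  induction W using Finset.induction_on with
  | empty => intro τ _; exact Dec.leaf (empty_subset _)
  | insert u W hu ih =>
    intro τ hτ
    rw [card_insert_of_notMem hu]
    by_cases hc : u ∈ cov τ
    · have h1 := (ih τ hτ).small τ W.card Subset.rfl hτ (by simp)
      refine (h1.mono_L ?_).mono_h _ (by omega)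
      rintro τ' ⟨h2, h3, h4, _⟩
      intro x hx
      rcases mem_insert.mp hx with rfl | hx
      · exact cov_mono h4 hc
      · exact h2 hx
    · refine Dec.query u hc fun S hS => ?_
      have h1 := (ih (insert S τ) (hS.PP hτ)).small (insert S τ) W.card Subset.rfl
        (hS.PP hτ) (by simp)
      refine h1.mono_L ?_
      rintro τ' ⟨h2, h3, h4, _⟩
      intro x hx
      rcases mem_insert.mp hx with rfl | hx
      · exact mem_cov.mpr ⟨S, h4 (mem_insert_self _ _), hS.1⟩
      · exact h2 hx

/-- running a decision procedure -/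
lemma Dec.run [Fintype U] (hq : 0 < q) {L : Set (Finset (Finset U))} {τ : Finset (Finset U)} {h : ℕ}
    (hd : Dec q L τ h) : PP q τ → q * h ≤ nun τ →
    ∃ τ', τ ⊆ τ' ∧ PP q τ' ∧ τ' ∈ L ∧ nun τ ≤ nun τ' + q * h := by
  induction hd with
  | @leaf τ h hτ => intro hPP _; exact ⟨τ, Subset.rfl, hPP, hτ, by omega⟩
  | @query τ h u hu _ ih =>
    intro hPP hn
    have hqh : q * (h + 1) = q * h + q := by ring
    rw [hqh] at hn
    obtain ⟨S, hS⟩ := exists_adm hq hu (by omega)
    have h1 := nun_insert hPP hS
    obtain ⟨τ', h2, h3, h4, h5⟩ := ih S hS (hS.PP hPP) (by omega)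
    exact ⟨τ', (subset_insert _ _).trans h2, h3, h4, by omega⟩

namespace GF

variable {m : ℕ} {κ : ℕ → ℕ}

/-- a formula whose variables have a small transversal is decided by few queries -/
lemma GG_of_transversal {a : GF (Vr q U)} (hl : isL m a) {ρ0 : Finset (Finset U)}
    (hρ0 : PP q ρ0) (W : Finset U) (hW : W.card ≤ κ 0)
    (htr : ∀ S ∈ vars a, (∃ u ∈ cov ρ0, u ∈ S.1) ∨ ∃ u ∈ W, u ∈ S.1) :
    GG m q (fun _ => ρ0) κ a := by
  unfold GG
  rw [glv_isL hl]
  have h1 := ((Dec.cover W ρ0 hρ0).mono_h _ hW).small ρ0 (κ 0) Subset.rfl hρ0 (by simp)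
  refine h1.mono_L ?_
  rintro τ ⟨h2, h3, h4, h5⟩
  refine ⟨eval (wa τ) a, τ, ?_, Subset.rfl⟩
  rw [GC_isL hl]
  refine ⟨⟨h3, h4, h5⟩, ?_, rfl⟩
  intro S hS
  have h6 : ∃ u ∈ cov τ, u ∈ S.1 := by
    rcases htr S hS with ⟨u, hu, huS⟩ | ⟨u, hu, huS⟩
    · exact ⟨u, cov_mono h4 hu, huS⟩
    · exact ⟨u, h2 hu, huS⟩
  obtain ⟨u, hu, huS⟩ := h6
  obtain ⟨T, hT, huT⟩ := mem_cov.mp hu
  by_cases h : T = S.1
  · left; rw [← h]; exact hT
  · right
    refine ⟨T, hT, h, ?_⟩
    rw [not_disjoint_iff]
    exact ⟨u, huT, huS⟩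

end GF

end decide

end Pool.Agent.Work.MP_c04246_lc
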