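import Mathlib
import Pool.Agent.Work.MP_c04246_lc.LRestrict

set_option autoImplicit false
set_option linter.unusedSectionVars false
set_option linter.unusedSimpArgs false
set_option linter.unusedVariables false

namespace Pool.Agent.Work.MP_c04246_lc

open Finset

namespace GF

section sound

variable {q m : ℕ} {U : Type} [DecidableEq U] [Fintype U] {ρ : ℕ → Finset (Finset U)} {κ : ℕ → ℕ}

/-- the formula is never false beyond the last context -/
def Tr (m q : ℕ) (ρ : ℕ → Finset (Finset U)) (κ : ℕ → ℕ) (d : ℕ) (a : GF (Vr q U)) : Prop :=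
  ∀ τ, PP q τ → ρ d ⊆ τ → ¬ Gd m q ρ κ a false τ

lemma run_all (hq : 0 < q) {d : ℕ} {Γ : Finset (GF (Vr q U))} (hmono : ∀ j ≤ d, ρ j ⊆ ρ d)
    (hκm : Monotone κ) (hG : ∀ a ∈ Γ, glv m none a ≤ d ∧ GG m q ρ κ a) (F : Finset (GF (Vr q U))) :
    F ⊆ Γ → ∀ τ, PP q τ → ρ d ⊆ τ → q * (F.card * κ d) ≤ nun τ →
    ∃ τ', τ ⊆ τ' ∧ PP q τ' ∧ ∀ a ∈ F, ∃ e, Gd m q ρ κ a e τ' := by
  classical
  induction F using Finset.induction_on with
  | empty => intro _ τ hτ _ _; exact ⟨τ, Subset.rfl, hτ, fun a ha => absurd ha (notMem_empty a)⟩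
  | insert a F ha ih =>
    intro hF τ hτ hρ hn
    rw [card_insert_of_notMem ha] at hn
    have hsplit : q * ((F.card + 1) * κ d) = q * (F.card * κ d) + q * κ d := by ring
    rw [hsplit] at hn
    obtain ⟨h1, h2⟩ := hG a (hF (mem_insert_self _ _))
    have h3 := (Dec.mono_ctx GS_up h2 τ ((hmono _ h1).trans hρ) hτ).mono_h _ (hκm h1)
    obtain ⟨τ1, hs1, hPP1, hL1, hn1⟩ := h3.run hq hτ (by omega)
    obtain ⟨τ2, hs2, hPP2, hall⟩ := ih (fun x hx => hF (mem_insert_of_mem hx)) τ1 hPP1
      (hρ.trans hs1) (by omega)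
    refine ⟨τ2, hs1.trans hs2, hPP2, fun x hx => ?_⟩
    rcases mem_insert.mp hx with rfl | hx
    · exact GS_up τ1 τ2 hL1 hs2
    · exact hall x hx

open Classical in
/-- formulas on which the truth-table condition depends -/
noncomputable def gnd {V : Type} : GF V → Finset (GF V)
  | var _ => ∅
  | cst _ => ∅
  | neg a => {neg a, a}
  | bin c a b => {bin c a b, a, b}
  | gate _ _ _ => ∅

lemma card_gnd {V : Type} (a : GF V) : (gnd a).card ≤ 3 := by
  classical
  cases a with
  | var x => simp [gnd]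
  | cst x => simp [gnd]
  | neg a => simp only [gnd]; exact (card_le_two).trans (by omega)
  | bin c a b => simp only [gnd]; exact card_le_three
  | gate k g f => simp [gnd]

lemma gnd_sub {V : Type} (a : GF V) : gnd a ⊆ subs a := by
  classical
  cases a with
  | var x => simp [gnd]
  | cst x => simp [gnd]
  | neg a =>
    intro b hb
    simp only [gnd, mem_insert, mem_singleton] at hb
    rcases hb with rfl | rfl
    · exact subs_self _
    · exact subs_neg _ (subs_self _)
  | bin c a b =>
    intro x hx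
    simp only [gnd, mem_insert, mem_singleton] at hx
    rcases hx with rfl | rfl | rfl
    · exact subs_self _
    · exact subs_bin_l _ _ _ (subs_self _)
    · exact subs_bin_r _ _ _ (subs_self _)
  | gate k g f => simp [gnd]

open Classical in
/-- the truth assignment given by a world -/
noncomputable def wv (m q : ℕ) (ρ : ℕ → Finset (Finset U)) (κ : ℕ → ℕ) (τ : Finset (Finset U))
    (a : GF (Vr q U)) : Bool :=
  if isL m a then eval (wa τ) a else decide (Gd m q ρ κ a true τ)

lemma wv_eq {a : GF (Vr q U)} {e : Bool} {τ : Finset (Finset U)} (hτ : PP q τ)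
    (h : Gd m q ρ κ a e τ) : wv m q ρ κ τ a = e := by
  classical
  unfold wv
  split_ifs with hl
  · exact Gd_isL hl hτ h
  · cases e with
    | true => simpa using h
    | false =>
      rw [decide_eq_false_iff_not]
      intro h'
      exact Bool.noConfusion (Gd_unique hτ h' h)

lemma wv_isL {a : GF (Vr q U)} {τ : Finset (Finset U)} (hl : isL m a) :
    wv m q ρ κ τ a = eval (wa τ) a := by
  unfold wv; rw [if_pos hl]

lemma resp_wv {a : GF (Vr q U)} {τ : Finset (Finset U)} (hτ : PP q τ)
    (hd : ∀ b ∈ gnd a, ∃ e, Gd m q ρ κ b e τ)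
    (hgate : ∀ (k : ℕ) (g : (Fin k → Bool) → Bool) (f : Fin k → GF (Vr q U)),
      a = gate k g f → (vars a).card ≤ m) : Resp (wv m q ρ κ τ) a := by
  classical
  cases a with
  | var x => trivial
  | cst b =>
    show wv m q ρ κ τ (cst b) = b
    rw [wv_isL (show isL m (cst b) from trivial)]
    rfl
  | neg a =>
    show wv m q ρ κ τ (neg a) = !wv m q ρ κ τ a
    by_cases hl : isL m (neg a)
    · rw [wv_isL hl, wv_isL (isL_sub_neg hl)]
      rfl
    · obtain ⟨e1, h1⟩ := hd (neg a) (by simp [gnd])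
      obtain ⟨e2, h2⟩ := hd a (by simp [gnd])
      rw [wv_eq hτ h1, wv_eq hτ h2]
      rw [Gd_neg hl] at h1
      rw [← Gd_unique hτ h1 h2, Bool.not_not]
  | bin c a b =>
    show wv m q ρ κ τ (bin c a b) = if c then (wv m q ρ κ τ a || wv m q ρ κ τ b)
      else (wv m q ρ κ τ a && wv m q ρ κ τ b)
    by_cases hl : isL m (bin c a b)
    · rw [wv_isL hl, wv_isL (isL_sub_bin hl).1, wv_isL (isL_sub_bin hl).2]
      rfl
    · obtain ⟨e1, h1⟩ := hd (bin c a b) (by simp [gnd])
      obtain ⟨e2, h2⟩ := hd a (by simp [gnd])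
      obtain ⟨e3, h3⟩ := hd b (by simp [gnd])
      rw [wv_eq hτ h1, wv_eq hτ h2, wv_eq hτ h3]
      exact Gd_bin hl hτ h1 h2 h3
  | gate k g f =>
    show wv m q ρ κ τ (gate k g f) = g fun j => wv m q ρ κ τ (f j)
    have h1 := hgate k g f rfl
    rw [wv_isL (show isL m (gate k g f) from trivial)]
    have h2 : ∀ j, wv m q ρ κ τ (f j) = eval (wa τ) (f j) := fun j =>
      wv_isL (isL_of_card ((card_le_card (vars_subs _ _ (subs_gate k g f j (subs_self _)))).trans h1))
    simp only [h2]
    rfl

lemma sound_step (hq : 0 < q) {d L : ℕ} {Γ : Finset (GF (Vr q U))} (hρPP : PP q (ρ d))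
    (hmono : ∀ j ≤ d, ρ j ⊆ ρ d) (hκm : Monotone κ)
    (hG : ∀ a ∈ Γ, glv m none a ≤ d ∧ GG m q ρ κ a)
    (hgate : ∀ (k : ℕ) (g : (Fin k → Bool) → Bool) (f : Fin k → GF (Vr q U)),
      gate k g f ∈ Γ → (vars (gate k g f)).card ≤ m)
    (hroom : q * κ d + q * ((4 * L + 1) * κ d) ≤ nun (ρ d))
    {P : Finset (GF (Vr q U))} {a : GF (Vr q U)} (hinf : LocInf L P a) (haΓ : subs a ⊆ Γ)
    (hPΓ : ∀ b ∈ P, subs b ⊆ Γ) (hP : ∀ b ∈ P, Tr m q ρ κ d b) : Tr m q ρ κ d a := by
  classical
  obtain ⟨hPc, C, hC, hCs, himp⟩ := hinf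
  intro τ hτ hρτ hfalse
  obtain ⟨t, ht, htτ⟩ := hfalse
  have htS := mem_Sm_of_GC a _ _ ht
  have hlva : glv m none a ≤ d := (hG a (haΓ (subs_self a))).1
  set τ0 := t ∪ ρ d with hτ0
  have hτ0τ : τ0 ⊆ τ := union_subset htτ hρτ
  have hτ0PP : PP q τ0 := hτ.mono hτ0τ
  have hn0 : q * ((4 * L + 1) * κ d) ≤ nun τ0 := by
    have h1 := nun_add hτ0PP
    have h2 := nun_add hρPP
    have h3 : τ0.card ≤ (ρ d).card + κ d := by
      have h4 : τ0 ⊆ ρ d ∪ (t \ ρ d) := by
        intro x hx
        rcases mem_union.mp hx with h | h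
        · by_cases hxd : x ∈ ρ d
          · exact mem_union_left _ hxd
          · exact mem_union_right _ (mem_sdiff.mpr ⟨h, hxd⟩)
        · exact mem_union_left _ h
      have h5 : (t \ ρ d).card ≤ κ d :=
        (card_le_card (sdiff_subset_sdiff Subset.rfl (hmono _ hlva))).trans
          (htS.2.2.trans (hκm hlva))
      exact (card_le_card h4).trans ((card_union_le _ _).trans (by omega))
    have h6 : q * τ0.card ≤ q * (ρ d).card + q * κ d := by
      rw [← mul_add]; exact Nat.mul_le_mul_left _ h3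
    omega
  set F := (C.biUnion gnd ∪ P) ∪ {a} with hF
  have hCΓ : ∀ c ∈ C, c ∈ Γ := by
    intro c hc
    rcases hCs c hc with h | ⟨b, hb, h⟩
    · exact haΓ h
    · exact hPΓ b hb h
  have hCsub : ∀ c ∈ C, subs c ⊆ Γ := by
    intro c hc
    rcases hCs c hc with h | ⟨b, hb, h⟩
    · exact (subs_trans a c h).trans haΓ
    · exact (subs_trans b c h).trans (hPΓ b hb)
  have hFΓ : F ⊆ Γ := by
    intro x hx
    rcases mem_union.mp hx with hx | hx
    · rcases mem_union.mp hx with hx | hx
      · obtain ⟨c, hc, hxc⟩ := mem_biUnion.mp hx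
        exact hCsub c hc (gnd_sub c hxc)
      · exact hPΓ x hx (subs_self x)
    · rw [mem_singleton] at hx; rw [hx]; exact haΓ (subs_self a)
  have hFc : F.card ≤ 4 * L + 1 := by
    have h1 : (C.biUnion gnd).card ≤ C.card * 3 :=
      card_biUnion_le_card_mul _ _ _ fun c _ => card_gnd c
    have h2 := card_union_le (C.biUnion gnd ∪ P) {a}
    have h3 := card_union_le (C.biUnion gnd) P
    rw [card_singleton] at h2
    rw [← hF] at h2
    omega
  obtain ⟨τ', hs, hPP', hall⟩ := run_all hq hmono hκm hG F hFΓ τ0 hτ0PP subset_union_right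
    (le_trans (Nat.mul_le_mul_left _ (Nat.mul_le_mul_right _ hFc)) hn0)
  have hρτ' : ρ d ⊆ τ' := subset_union_right.trans hs
  have h1 : wv m q ρ κ τ' a = true := by
    apply himp
    · intro c hc
      refine resp_wv hPP' (fun b hb => hall b ?_) ?_
      · exact mem_union_left _ (mem_union_left _ (mem_biUnion.mpr ⟨c, hc, hb⟩))
      · rintro k g f rfl
        exact hgate k g f (hCΓ _ hc)
    · intro b hb
      obtain ⟨e, he⟩ := hall b (mem_union_left _ (mem_union_right _ hb))
      cases e with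
      | true => exact wv_eq hPP' he
      | false => exact absurd he (hP b hb τ' hPP' hρτ')
  have h2 : wv m q ρ κ τ' a = false :=
    wv_eq hPP' ⟨t, ht, subset_union_left.trans hs⟩
  rw [h1] at h2
  exact Bool.noConfusion h2

end sound

section taut

variable {q n m : ℕ} {ρ : ℕ → Finset (Finset (Fin n))} {κ : ℕ → ℕ}

lemma ext_one (hq : 0 < q) {τ : Finset (Finset (Fin n))} (hτ : PP q τ) (h : q ≤ nun τ) (u : Fin n) :
    ∃ S : Finset (Fin n), S.card = q ∧ u ∈ S ∧ PP q ({S} ∪ τ) := by
  by_cases hu : u ∈ cov τ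
  · obtain ⟨S, hS, huS⟩ := mem_cov.mp hu
    refine ⟨S, hτ.1 S hS, huS, ?_⟩
    have : ({S} : Finset (Finset (Fin n))) ∪ τ = τ := by
      rw [union_eq_right]; simpa using hS
    rw [this]; exact hτ
  · obtain ⟨S, hS⟩ := exists_adm hq hu h
    exact ⟨S, hS.2.1, hS.1, hS.PP hτ⟩

lemma ext_avoid (hq : 2 ≤ q) {τ : Finset (Finset (Fin n))} (hτ : PP q τ) (h : q + 1 ≤ nun τ)
    {S : Finset (Fin n)} (hS : S.card = q) (hSτ : S ∉ τ) :
    ∃ T : Finset (Fin n), T.card = q ∧ T ≠ S ∧ ¬ Disjoint T S ∧ PP q ({T} ∪ τ) := by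
  obtain ⟨u, hu⟩ : S.Nonempty := by rw [← card_pos]; omega
  by_cases hcu : u ∈ cov τ
  · obtain ⟨T, hT, huT⟩ := mem_cov.mp hcu
    refine ⟨T, hτ.1 T hT, fun h0 => hSτ (h0 ▸ hT), ?_, ?_⟩
    · rw [not_disjoint_iff]; exact ⟨u, huT, hu⟩
    · have : ({T} : Finset (Finset (Fin n))) ∪ τ = τ := by
        rw [union_eq_right]; simpa using hT
      rw [this]; exact hτ
  · obtain ⟨v, hv, hvS⟩ : ∃ v ∈ univ \ cov τ, v ∉ S := by
      by_contra hcon
      push Not at hcon
      have := card_le_card (show univ \ cov τ ⊆ S from hcon)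
      unfold nun at h
      omega
    obtain ⟨T, hT1, hT2, hT3⟩ := exists_subsuperset_card_eq (s := {u, v}) (t := univ \ cov τ)
      (n := q) (by
        intro x hx
        rcases mem_insert.mp hx with rfl | hx
        · exact mem_sdiff.mpr ⟨mem_univ _, hcu⟩
        · rw [mem_singleton] at hx; subst hx; exact hv)
      (card_le_two.trans hq) (by unfold nun at h; omega)
    have huT : u ∈ T := hT1 (by simp)
    have hvT : v ∈ T := hT1 (by simp)
    have hadm : Adm q τ u T := ⟨huT, hT3, by
      rw [disjoint_left]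
      intro x hx hx'
      exact (mem_sdiff.mp (hT2 hx)).2 hx'⟩
    refine ⟨T, hT3, fun h0 => hvS (h0 ▸ hvT), ?_, hadm.PP hτ⟩
    rw [not_disjoint_iff]; exact ⟨u, huT, hu⟩

lemma LC_or {a b : GF (Vr q (Fin n))} {t : Finset (Finset (Fin n))}
    (hl : isL m (bin true a b)) (ht : t ∈ LC q ρ κ (bin true a b) true) :
    t ∈ (GC m q ρ κ a).2 true ∨ t ∈ (GC m q ρ κ b).2 true := by
  obtain ⟨h1, h2, h3⟩ := ht
  obtain ⟨ha, hb⟩ := isL_sub_bin hl
  rw [GC_isL ha, GC_isL hb]
  simp only [eval, if_true, Bool.or_eq_true] at h3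
  rcases h3 with h | h
  · exact Or.inl ⟨h1, fun S hS => h2 S (vars_subs _ a (subs_bin_l _ _ _ (subs_self a)) hS), h⟩
  · exact Or.inr ⟨h1, fun S hS => h2 S (vars_subs _ b (subs_bin_r _ _ _ (subs_self b)) hS), h⟩

lemma GD_or {a b : GF (Vr q (Fin n))} {t : Finset (Finset (Fin n))}
    (ht : t ∈ (GC m q ρ κ (bin true a b)).2 true) :
    t ∈ (GC m q ρ κ a).2 true ∨ t ∈ (GC m q ρ κ b).2 true := by
  by_cases hl : isL m (bin true a b)
  · rw [GC_isL hl] at ht
    exact LC_or hl ht
  · rw [GC_bin hl] at ht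
    simpa using ht

lemma GD_disj (l : List (GF (Vr q (Fin n)))) (t : Finset (Finset (Fin n)))
    (ht : t ∈ (GC m q ρ κ (disj l)).2 true) : ∃ a ∈ l, t ∈ (GC m q ρ κ a).2 true := by
  induction l with
  | nil =>
    have h : eval (wa t) (cst false : GF (Vr q (Fin n))) = true := ht.2.2
    exact Bool.noConfusion h
  | cons a l ih =>
    have : disj (a :: l) = bin true a (disj l) := rfl
    rw [this] at ht
    rcases GD_or ht with h | h
    · exact ⟨a, by simp, h⟩
    · obtain ⟨b, hb, hb'⟩ := ih h
      exact ⟨b, by simp [hb], hb'⟩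

lemma vars_disj (l : List (Vr q (Fin n))) (S : Vr q (Fin n)) :
    S ∈ vars (disj (l.map var)) ↔ S ∈ l := by
  classical
  induction l with
  | nil => simp [disj, vars]
  | cons a l ih =>
    have : disj ((a :: l).map var) = bin true (var a) (disj (l.map var)) := rfl
    rw [this]
    simp only [vars, mem_union, mem_singleton, List.mem_cons, ih]

lemma eval_disj {V : Type} (v : V → Bool) (l : List (GF V)) :
    eval v (disj l) = true ↔ ∃ a ∈ l, eval v a = true := by
  induction l with
  | nil => simp [disj, eval]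
  | cons a l ih =>
    have : disj (a :: l) = bin true a (disj l) := rfl
    rw [this]
    simp only [eval, if_true, Bool.or_eq_true, ih, List.mem_cons, exists_eq_or_imp]

/-- a single part decides and satisfies a disjunction of variables through a common point -/
lemma single_mem {u : Fin n} (l : List (Vr q (Fin n))) (hl : ∀ S ∈ l, u ∈ S.1)
    {S0 : Vr q (Fin n)} (hS0 : S0 ∈ l) (hSm : ({S0.1} ∪ ρ 0) ∈ Sm q ρ κ 0) :
    ({S0.1} ∪ ρ 0) ∈ (GC m q ρ κ (disj (l.map var))).2 true := by
  have hu0 : u ∈ S0.1 := hl S0 hS0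
  induction l with
  | nil => simp at hS0
  | cons S l ih =>
    have hd : disj ((S :: l).map var) = bin true (var S) (disj (l.map var)) := rfl
    by_cases hL : isL m (disj ((S :: l).map var))
    · rw [GC_isL hL]
      refine ⟨hSm, ?_, ?_⟩
      · intro S' hS'
        rw [vars_disj] at hS'
        by_cases h : S0.1 = S'.1
        · left; rw [← h]; simp
        · right
          refine ⟨S0.1, by simp, h, ?_⟩
          rw [not_disjoint_iff]
          exact ⟨u, hu0, hl S' hS'⟩
      · rw [eval_disj]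
        exact ⟨var S0, List.mem_map.mpr ⟨S0, hS0, rfl⟩, by simp [eval, wa]⟩
    · rw [hd] at hL ⊢
      rw [GC_bin hL]
      simp only [if_true]
      rcases List.mem_cons.mp hS0 with h | h
      · left
        rw [GC_isL (show isL m (var S) from trivial), ← h]
        refine ⟨hSm, ?_, by simp [eval, wa]⟩
        intro S' hS'
        have : S' = S0 := by simpa [vars] using hS'
        rw [this]; left; simp
      · right
        exact ih (fun S' hS' => hl S' (List.mem_cons_of_mem _ hS')) h

lemma gno_true (hq : 2 ≤ q) (hκ0 : 1 ≤ κ 0)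
    (hroom : ∀ i ≤ 1, ∀ τ ∈ Sm q ρ κ i, ρ 0 ⊆ τ ∧ q + 1 ≤ nun τ)
    (τ : Finset (Finset (Fin n))) : ¬ Gd m q ρ κ (countTaut q n) true τ := by
  classical
  have hq0 : 0 < q := by omega
  have hsing : ∀ (S : Finset (Fin n)) (t : Finset (Finset (Fin n))), PP q ({S} ∪ t) → ρ 0 ⊆ t →
      ({S} ∪ ρ 0) ∈ Sm q ρ κ 0 := by
    intro S t hPP hsub
    refine ⟨hPP.mono (union_subset_union Subset.rfl hsub), subset_union_right, ?_⟩
    have : ({S} ∪ ρ 0) \ ρ 0 ⊆ {S} := by
      intro x hx
      rw [mem_sdiff, mem_union] at hx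
      rcases hx.1 with h | h
      · exact h
      · exact absurd h hx.2
    exact (card_le_card this).trans (by rw [card_singleton]; exact hκ0)
  rintro ⟨t, ht, _⟩
  obtain ⟨t1, ht1, _⟩ := GC_to_GD _ _ _ ht
  unfold countTaut at ht1
  rcases GD_or ht1 with h | h
  · obtain ⟨a, ha, hta⟩ := GD_disj _ _ h
    rw [List.mem_map] at ha
    obtain ⟨u, _, rfl⟩ := ha
    set l0 := ((Finset.univ : Finset {S : Finset (Fin n) // S.card = q}).filter
        fun S => u ∈ S.1).toList with hl0
    have hl0u : ∀ S ∈ l0, u ∈ S.1 := by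
      intro S hS
      rw [hl0, mem_toList, mem_filter] at hS
      exact hS.2
    have hl0m : ∀ S : Vr q (Fin n), u ∈ S.1 → S ∈ l0 := by
      intro S hS
      rw [hl0, mem_toList, mem_filter]
      exact ⟨mem_univ _, hS⟩
    by_cases hL : isL m (neg (disj (l0.map var)))
    · rw [GC_isL hL] at hta
      obtain ⟨hSm, hdec, hev⟩ := hta
      obtain ⟨hρt, hn⟩ := hroom 0 (by omega) t1 hSm
      obtain ⟨S, hS, huS, hPP⟩ := ext_one hq0 hSm.1 (by omega) u
      have hmem := hl0m ⟨S, hS⟩ huS
      have h1 := hdec ⟨S, hS⟩ (by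
        show _ ∈ vars (disj (l0.map var))
        rw [vars_disj]; exact hmem)
      rcases h1 with h1 | ⟨T, hT, hTne, hTd⟩
      · have h2 : eval (wa t1) (disj (l0.map var)) = true := by
          rw [eval_disj]
          exact ⟨var ⟨S, hS⟩, List.mem_map.mpr ⟨_, hmem, rfl⟩, by simpa [eval, wa] using h1⟩
        simp only [eval, h2] at hev
        exact Bool.noConfusion hev
      · exact hTd (hPP.2 T (mem_union_right _ hT) S (mem_union_left _ (mem_singleton_self _)) hTne)
    · rw [GC_neg hL] at hta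
      have hta' : t1 ∈ (GC m q ρ κ (disj (l0.map var))).1 false := hta
      cases hcase : l0 with
      | nil =>
        exfalso; apply hL
        rw [hcase]
        show (vars (disj ([] : List (GF (Vr q (Fin n)))))).card ≤ m
        simp [disj, vars]
      | cons S0 l' =>
        have hX : disj (l0.map var) = bin true (var S0) (disj (l'.map var)) := by
          rw [hcase]; rfl
        have hL' : ¬ isL m (bin true (var S0) (disj (l'.map var))) := by
          rw [← hX]
          intro h'
          rw [hX] at h'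
          apply hL
          show (vars (disj (l0.map var))).card ≤ m
          rw [hX]; exact h'
        have hlv : glv m none (disj (l0.map var)) ≤ 1 := by
          have h2 : ∀ l : List (Vr q (Fin n)), glv m (some true) (disj (l.map var)) = 0 := by
            intro l
            induction l with
            | nil => rfl
            | cons S l ih =>
              have : disj ((S :: l).map var) = bin true (var S) (disj (l.map var)) := rfl
              rw [this]
              simp only [glv, if_true, zero_add, ih, max_self, ite_self]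
          have := glv_none_le m (some true) (disj (l0.map var))
          rw [h2] at this
          omega
        have hSm := mem_Sm_of_GC _ _ _ hta'
        obtain ⟨hρt, hn⟩ := hroom _ hlv t1 hSm
        obtain ⟨S, hS, huS, hPP⟩ := ext_one hq0 hSm.1 (by omega) u
        have h3 := single_mem (m := m) (κ := κ) (ρ := ρ) l0 hl0u (hl0m ⟨S, hS⟩ huS)
          (hsing S t1 hPP hρt)
        rw [hX] at hta' h3
        rw [GC_bin hL'] at hta' h3
        simp only [if_true] at h3
        simp only [Bool.false_eq_true, if_false] at hta'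
        refine hta'.2 _ h3 (hPP.mono ?_)
        rw [union_assoc]
        exact union_subset_union Subset.rfl (union_subset hρt Subset.rfl)
  · obtain ⟨a, ha, hta⟩ := GD_disj _ _ h
    rw [List.mem_map] at ha
    obtain ⟨x, hx, rfl⟩ := ha
    rw [mem_toList, mem_filter] at hx
    obtain ⟨_, hne, hnd⟩ := hx
    by_cases hL : isL m (bin false (var x.1) (var x.2) : GF (Vr q (Fin n)))
    · rw [GC_isL hL] at hta
      obtain ⟨hSm, _, hev⟩ := hta
      simp only [eval, wa, Bool.false_eq_true, if_false, Bool.and_eq_true, decide_eq_true_eq] at hev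
      exact hnd (hSm.1.2 _ hev.1 _ hev.2 (fun h => hne (Subtype.ext h)))
    · rw [GC_bin hL] at hta
      simp only [Bool.true_eq_false, if_false] at hta
      obtain ⟨hSm, hall⟩ := hta
      have hlv : glv m none (bin false (var x.1) (var x.2) : GF (Vr q (Fin n))) ≤ 1 := by
        rw [glv_bin hL]; simp [glv]
      obtain ⟨hρt, hn⟩ := hroom _ hlv t1 hSm
      have hcase : x.1.1 ∉ t1 ∨ x.2.1 ∉ t1 := by
        by_contra hcon
        push Not at hcon
        exact hnd (hSm.1.2 _ hcon.1 _ hcon.2 (fun h => hne (Subtype.ext h)))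
      have key : ∀ S : Vr q (Fin n), S.1 ∉ t1 →
          ∃ t', t' ∈ (GC m q ρ κ (var S)).2 false ∧ PP q (t' ∪ t1) := by
        intro S hS
        obtain ⟨T, hT, hTne, hTd, hPP⟩ := ext_avoid hq hSm.1 hn S.2 hS
        refine ⟨{T} ∪ ρ 0, ?_, ?_⟩
        · rw [GC_isL (show isL m (var S) from trivial)]
          refine ⟨hsing T t1 hPP hρt, ?_, ?_⟩
          · intro S' hS'
            have : S' = S := by simpa [vars] using hS'
            rw [this]
            exact Or.inr ⟨T, by simp, hTne, hTd⟩
          · simp only [eval, wa, decide_eq_false_iff_not, mem_union, mem_singleton, not_or]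
            exact ⟨fun h => hTne h.symm, fun h => hS (hρt h)⟩
        · rw [union_assoc]
          exact hPP.mono (union_subset_union Subset.rfl (union_subset hρt Subset.rfl))
      rcases hcase with h | h
      · obtain ⟨t', h1, h2⟩ := key x.1 h
        exact hall t' (Or.inl h1) h2
      · obtain ⟨t', h1, h2⟩ := key x.2 h
        exact hall t' (Or.inr h1) h2

end taut

end GF

end Pool.Agent.Work.MP_c04246_lc
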