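import Mathlib
import Pool.Agent.Work.MP_c04246_lc.Core2

set_option autoImplicit false
set_option linter.unusedSectionVars false
set_option linter.unusedSimpArgs false
set_option linter.unusedVariables false

namespace Pool.Agent.Work.MP_c04246_lc

open Finset Fml

/-- sizes of the nested universes -/
def hg (q κd T : ℕ) : ℕ → ℕ
  | 0 => T
  | j + 1 => 16 * (κd * (q * hg q κd T j + q) ^ (q * q + q))

lemma hg_step {q κd T : ℕ} (hq : 1 ≤ q) (hκ : 1 ≤ κd) (j : ℕ) : hg q κd T j ≤ hg q κd T (j + 1) := by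
  have h1 : hg q κd T j ≤ q * hg q κd T j + q := by nlinarith
  have h2 : q * hg q κd T j + q ≤ (q * hg q κd T j + q) ^ (q * q + q) :=
    Nat.le_self_pow (by nlinarith [Nat.zero_le (q * q)]) _
  calc hg q κd T j ≤ (q * hg q κd T j + q) ^ (q * q + q) := h1.trans h2
    _ ≤ κd * (q * hg q κd T j + q) ^ (q * q + q) := Nat.le_mul_of_pos_left _ hκ
    _ ≤ 16 * (κd * (q * hg q κd T j + q) ^ (q * q + q)) := by omega

lemma hg_mono {q κd T : ℕ} (hq : 1 ≤ q) (hκ : 1 ≤ κd) : Monotone (hg q κd T) :=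
  monotone_nat_of_le_succ (hg_step hq hκ)

lemma hg_bound (q Q D A : ℕ) (hq : 1 ≤ q) (hQ : 1 ≤ Q) (hA : 1 ≤ A) (e0 : ℕ) (j : ℕ) :
    ∃ C b, 1 ≤ C ∧ ∀ w, 1 ≤ w → hg q (Q * w ^ D) (A * w ^ e0) j ≤ C * w ^ b := by
  induction j with
  | zero => exact ⟨A, e0, hA, fun w _ => le_rfl⟩
  | succ j ih =>
    obtain ⟨C, b, hC, h⟩ := ih
    refine ⟨16 * (Q * (2 * q * C) ^ (q * q + q)), D + b * (q * q + q), ?_, fun w hw => ?_⟩
    · have h1 : 1 ≤ (2 * q * C) ^ (q * q + q) := Nat.one_le_pow _ _ (by positivity)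
      nlinarith
    · have h1 : q * hg q (Q * w ^ D) (A * w ^ e0) j + q ≤ 2 * q * C * w ^ b := by
        have h2 := Nat.mul_le_mul_left q (h w hw)
        have h3 : q ≤ q * (C * w ^ b) := Nat.le_mul_of_pos_right _ (by positivity)
        calc _ ≤ q * (C * w ^ b) + q * (C * w ^ b) := add_le_add h2 h3
          _ = _ := by ring
      simp only [hg]
      calc 16 * (Q * w ^ D * (q * hg q (Q * w ^ D) (A * w ^ e0) j + q) ^ (q * q + q))
          ≤ 16 * (Q * w ^ D * (2 * q * C * w ^ b) ^ (q * q + q)) := by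
            gcongr
        _ = 16 * (Q * (2 * q * C) ^ (q * q + q)) * w ^ (D + b * (q * q + q)) := by
            rw [mul_pow, pow_add, pow_mul]; ring

/-- arithmetic facts about a family of parameters -/
structure ParamFacts (q w d n t E s : ℕ) (κ N : ℕ → ℕ) : Prop where
  hκ1 : ∀ i, 1 ≤ κ i
  hκa : ∀ i, q * (2 * w) ≤ κ i
  hκm : Monotone κ
  hκw : ∀ i, w * κ i ≤ κ (i + 1)
  hN0 : N 0 = n
  hN : ∀ i < d, ∃ m, N i = N (i + 1) + q * m
  h16 : ∀ i < d, 16 * (q * (κ i * N (i + 1) ^ (q * q + q))) ≤ N i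
  hroom : ∀ i < d, q * (q * (2 * w)) + q * (q * κ i) ≤ N (i + 1)
  hroom' : ∀ i ≤ d, q * κ i + (q + 1) ≤ N i
  hN1 : ∀ i, 1 ≤ N i
  hNd : N d = q * (t * t) + s

theorem exists_params (q : ℕ) (hq2 : 2 ≤ q) (d A e : ℕ) (hA : 2 * q + 1 ≤ A) (he : d + 2 ≤ e) :
    ∃ a n0 : ℕ, 1 ≤ n0 ∧ ∀ n ≥ n0, ∀ w : ℕ, 1 ≤ w → w ^ a ≤ n →
      ∃ N : ℕ → ℕ, ParamFacts q w (d + 1) n (9 * (A * w ^ e)) (A * w ^ e) (n % q)
        (fun i => (2 * q + 1) * w ^ (i + 1)) N := by
  obtain ⟨C, b, hC, hbd⟩ := hg_bound q (2 * q + 1) (d + 2) (81 * (A * A)) (by omega) (by omega)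
    (by nlinarith) (e + e) (d + 1)
  refine ⟨b + 1, 2 * q * C * (2 * q * C) ^ b, Nat.mul_pos (by positivity) (by positivity), ?_⟩
  intro n hn w hw1 hw
  set κ : ℕ → ℕ := fun i => (2 * q + 1) * w ^ (i + 1) with hκ
  set E := A * w ^ e with hE
  set t := 9 * E with ht
  set s := n % q with hs
  have hpow : ∀ i, 1 ≤ w ^ i := fun i => Nat.one_le_pow _ _ hw1
  have hκ1 : ∀ i, 1 ≤ κ i := fun i => Nat.mul_pos (by omega) (hpow _)
  have hκm : Monotone κ := fun i j hij => Nat.mul_le_mul_left _ (Nat.pow_le_pow_right hw1 (by omega))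
  have hκE : κ (d + 1) ≤ E := Nat.mul_le_mul hA (Nat.pow_le_pow_right hw1 (by omega))
  have hqE : 2 * q + 1 ≤ E := by
    have : 2 * q + 1 ≤ κ (d + 1) := Nat.le_mul_of_pos_right _ (hpow _)
    omega
  have hwE : w ≤ E := by
    have : w ≤ κ (d + 1) := by
      calc w = w ^ 1 := (pow_one w).symm
        _ ≤ w ^ (d + 1 + 1) := Nat.pow_le_pow_right hw1 (by omega)
        _ ≤ κ (d + 1) := Nat.le_mul_of_pos_left _ (by omega)
    omega
  set H := hg q (κ (d + 1)) (t * t) with hH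
  have hHm : Monotone H := hg_mono (by omega) (hκ1 _)
  have hHeq : H (d + 1) ≤ C * w ^ b := by
    have h1 := hbd w hw1
    have h2 : 81 * (A * A) * w ^ (e + e) = t * t := by
      rw [ht, hE, pow_add]; ring
    rw [h2] at h1
    exact h1
  have hqn : q * H (d + 1) + q ≤ n := by
    have h1 : q * H (d + 1) + q ≤ 2 * q * C * w ^ b := by
      have h2 := Nat.mul_le_mul_left q hHeq
      have h3 : q ≤ q * (C * w ^ b) := Nat.le_mul_of_pos_right _ (Nat.mul_pos hC (hpow b))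
      calc _ ≤ q * (C * w ^ b) + q * (C * w ^ b) := add_le_add h2 h3
        _ = _ := by ring
    rcases Nat.lt_or_ge w (2 * q * C) with h | h
    · exact h1.trans (le_trans (Nat.mul_le_mul_left _ (Nat.pow_le_pow_left h.le _)) hn)
    · refine h1.trans (le_trans ?_ hw)
      rw [pow_succ']; exact Nat.mul_le_mul_right _ h
  have hsq : s < q := Nat.mod_lt _ (by omega)
  have hHt : ∀ j, t * t ≤ H j := fun j => hHm (Nat.zero_le j)
  set N : ℕ → ℕ := fun i => if i = 0 then n else q * H (d + 1 - i) + s with hNdef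
  have hN0 : N 0 = n := by simp [hNdef]
  have hNs : ∀ i, N (i + 1) = q * H (d + 1 - (i + 1)) + s := by intro i; simp [hNdef]
  have hNge : ∀ i, q * H (d + 1 - i) + s ≤ N i := by
    intro i
    rcases Nat.eq_zero_or_pos i with h | h
    · subst h; rw [hN0, Nat.sub_zero]; omega
    · obtain ⟨j, rfl⟩ : ∃ j, i = j + 1 := ⟨i - 1, by omega⟩
      rw [hNs]
  have hqt : q * (t * t) = 81 * (q * (E * E)) := by
    rw [ht]; ring
  have hEE : E ≤ E * E := Nat.le_mul_of_pos_left _ (by omega)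
  have hNt : ∀ i, q * (t * t) ≤ N i := fun i =>
    le_trans (Nat.mul_le_mul_left _ (hHt _)) (le_trans (Nat.le_add_right _ _) (hNge i))
  refine ⟨N, hκ1, ?_, hκm, ?_, hN0, ?_, ?_, ?_, ?_, ?_, ?_⟩
  · intro i
    show q * (2 * w) ≤ (2 * q + 1) * w ^ (i + 1)
    have h1 : w ≤ w ^ (i + 1) := by
      calc w = w ^ 1 := (pow_one w).symm
        _ ≤ w ^ (i + 1) := Nat.pow_le_pow_right hw1 (by omega)
    calc q * (2 * w) = (2 * q) * w := by ring
      _ ≤ (2 * q + 1) * w ^ (i + 1) := Nat.mul_le_mul (by omega) h1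
  · intro i
    show w * ((2 * q + 1) * w ^ (i + 1)) ≤ (2 * q + 1) * w ^ (i + 1 + 1)
    rw [pow_succ w (i + 1)]; exact le_of_eq (by ring)
  · intro i hi
    rcases Nat.eq_zero_or_pos i with h | h
    · subst h
      rw [hN0, hNs]
      refine ⟨n / q - H (d + 1 - (0 + 1)), ?_⟩
      have h1 : H (d + 1 - (0 + 1)) ≤ n / q := by
        rw [Nat.le_div_iff_mul_le (by omega)]
        have := hHm (show d + 1 - (0 + 1) ≤ d + 1 by omega)
        nlinarith
      have h2 : q * (n / q) + s = n := by rw [hs]; exact Nat.div_add_mod n q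
      have h3 : q * (n / q - H (d + 1 - (0 + 1))) + q * H (d + 1 - (0 + 1)) = q * (n / q) := by
        rw [← mul_add, Nat.sub_add_cancel h1]
      omega
    · obtain ⟨j, rfl⟩ : ∃ j, i = j + 1 := ⟨i - 1, by omega⟩
      rw [hNs, hNs]
      have h1 : H (d + 1 - (j + 1 + 1)) ≤ H (d + 1 - (j + 1)) := hHm (by omega)
      refine ⟨H (d + 1 - (j + 1)) - H (d + 1 - (j + 1 + 1)), ?_⟩
      have h3 : q * (H (d + 1 - (j + 1)) - H (d + 1 - (j + 1 + 1))) + q * H (d + 1 - (j + 1 + 1)) =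
          q * H (d + 1 - (j + 1)) := by
        rw [← mul_add, Nat.sub_add_cancel h1]
      omega
  · intro i hi
    have h1 : H (d + 1 - i) = 16 * (κ (d + 1) * (q * H (d + 1 - (i + 1)) + q) ^ (q * q + q)) := by
      have : d + 1 - i = (d + 1 - (i + 1)) + 1 := by omega
      rw [this]; rfl
    refine le_trans ?_ ((Nat.le_add_right _ _).trans (hNge i))
    rw [h1, hNs]
    have h2 : q * H (d + 1 - (i + 1)) + s ≤ q * H (d + 1 - (i + 1)) + q := by omega
    have h3 : κ i ≤ κ (d + 1) := hκm (by omega)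
    calc 16 * (q * (κ i * (q * H (d + 1 - (i + 1)) + s) ^ (q * q + q)))
        ≤ 16 * (q * (κ (d + 1) * (q * H (d + 1 - (i + 1)) + q) ^ (q * q + q))) := by gcongr
      _ = _ := by ring
  · intro i hi
    refine le_trans ?_ (hNt (i + 1))
    have h3 : κ i ≤ E := (hκm (show i ≤ d + 1 by omega)).trans hκE
    have h4 : q * (2 * w) ≤ 2 * (E * E) := by
      calc q * (2 * w) = 2 * (q * w) := by ring
        _ ≤ 2 * (E * E) := Nat.mul_le_mul_left _ (Nat.mul_le_mul (by omega) hwE)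
    have h5 : q * κ i ≤ E * E := Nat.mul_le_mul (by omega) h3
    have h6 : q * (q * (2 * w)) ≤ 2 * (q * (E * E)) := by
      calc _ ≤ q * (2 * (E * E)) := Nat.mul_le_mul_left _ h4
        _ = _ := by ring
    have h7 : q * (q * κ i) ≤ q * (E * E) := Nat.mul_le_mul_left _ h5
    rw [hqt]
    generalize q * (q * (2 * w)) = x1 at *
    generalize q * (q * κ i) = x2 at *
    generalize q * (E * E) = x3 at *
    omega
  · intro i hi
    refine le_trans ?_ (hNt i)
    have h3 : κ i ≤ E := (hκm hi).trans hκE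
    have h5 : q * κ i ≤ q * (E * E) := Nat.mul_le_mul_left _ (h3.trans hEE)
    have h6 : q + 1 ≤ q * (E * E) :=
      ((show q + 1 ≤ E by omega).trans hEE).trans (Nat.le_mul_of_pos_left _ (by omega))
    rw [hqt]
    generalize q * κ i = x2 at *
    generalize q * (E * E) = x3 at *
    omega
  · intro i
    refine le_trans ?_ (hNt i)
    rw [hqt]
    have h6 : q + 1 ≤ q * (E * E) :=
      ((show q + 1 ≤ E by omega).trans hEE).trans (Nat.le_mul_of_pos_left _ (by omega))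
    generalize q * (E * E) = x3 at *
    omega
  · have : d + 1 - (d + 1) = 0 := by omega
    rw [hNs, this]
    rfl

theorem sparse_bound (p q : ℕ) (hp : p.Prime) (hq : q.Prime) (hpq : p ≠ q) (d : ℕ) :
    ∃ a n0 : ℕ, 1 ≤ n0 ∧ ∀ n ≥ n0, ∀ w : ℕ, w ^ a ≤ n →
      ∀ l : List (CTree (Fml p {S : Finset (Fin n) // S.card = q})),
        IsDerivation w l → (∃ T ∈ l, T.root = {countTaut p q n}) →
        (∀ T ∈ l, T.All fun a => depth a ≤ d ∧ Sparse w a) →
          2 ^ w ≤ (l.map CTree.size).sum := by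
  have := Fact.mk hp
  have := Fact.mk hq
  have hq2 := hq.two_le
  have hp2 := hp.two_le
  set A := 80 * ((2 * q + 1) * (2 * p) ^ (d + 1)) with hA
  have h2p : 1 ≤ (2 * p) ^ (d + 1) := Nat.one_le_pow _ _ (by omega)
  have hA1 : 2 * q + 1 ≤ A := by
    calc 2 * q + 1 ≤ (2 * q + 1) * (2 * p) ^ (d + 1) := Nat.le_mul_of_pos_right _ h2p
      _ ≤ _ := Nat.le_mul_of_pos_left _ (by omega)
  have hA80 : 80 ≤ A := Nat.le_mul_of_pos_right _ (Nat.mul_pos (by omega) h2p)
  obtain ⟨a, n0, hn0, hpar⟩ := exists_params q hq2 d A (2 * (d + 1) + 5) hA1 (by omega)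
  refine ⟨a, n0, hn0, ?_⟩
  intro n hn w hw l hl hT hdep
  rcases Nat.eq_zero_or_pos w with hw0 | hw1
  · obtain ⟨T, hT, _⟩ := hT
    have h1 : 1 ≤ T.size := by cases T <;> simp only [CTree.size] <;> omega
    have h2 : T.size ≤ (l.map CTree.size).sum :=
      List.single_le_sum (fun _ _ => Nat.zero_le _) _ (List.mem_map.mpr ⟨_, hT, rfl⟩)
    rw [hw0, pow_zero]
    exact h1.trans h2
  obtain ⟨N, hP⟩ := hpar n hn w hw1 hw
  set E := A * w ^ (2 * (d + 1) + 5) with hE
  have hE80 : 80 ≤ E := hA80.trans (Nat.le_mul_of_pos_right _ (Nat.one_le_pow _ _ hw1))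
  set t := 9 * E with ht
  refine core2 (s := n % q) (t := t) (B := t * E) (N := N)
    (κ := fun i => (2 * q + 1) * w ^ (i + 1)) (d := d + 1) hpq hw1 hP.hκ1 hP.hκa hP.hκm hP.hκw hP.hN0
    hP.hN hP.h16 hP.hroom hP.hroom' hP.hN1 hP.hNd (by omega) ?_ ?_ ?_ hl hT
    (fun T hT => (CTree.all_iff T).mpr fun a ha => ?_)
  · have h1 : 8 * (t * E) < 9 * (t * E) := by
      have : 0 < t * E := Nat.mul_pos (by omega) (by omega)
      omega
    refine h1.trans_le (le_of_eq ?_)
    rw [ht]; ring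
  · have h1 : t * 80 ≤ t * E := Nat.mul_le_mul_left _ hE80
    omega
  · -- the degree bound
    have h1 : w + (w * (w * w) + (w * (w + 3) + w + w * w + 1)) + 1 ≤ 10 * (w * w * w) := by
      have h2 : w ≤ w * w := Nat.le_mul_of_pos_left _ hw1
      have h3 : w * w ≤ w * w * w := Nat.le_mul_of_pos_right _ hw1
      have h4 : w * (w * w) = w * w * w := by ring
      have h5 : w * (w + 3) = w * w + 3 * w := by ring
      rw [h4, h5]
      generalize w * w * w = x3 at *
      generalize w * w = x2 at *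
      omega
    have h2 : (p * (w + 1)) ^ (d + 1) ≤ (2 * p) ^ (d + 1) * w ^ (d + 1) := by
      rw [← mul_pow]
      exact Nat.pow_le_pow_left (by nlinarith) _
    have h3 : w + 1 ≤ 2 * w := by omega
    calc (w + (w * (w * w) + (w * (w + 3) + w + w * w + 1)) + 1) *
          ((w + 1) * (4 * t * ((2 * q + 1) * w ^ (d + 1 + 1)) * (p * (w + 1)) ^ (d + 1)))
        ≤ (10 * (w * w * w)) * ((2 * w) * (4 * t * ((2 * q + 1) * w ^ (d + 1 + 1)) *
            ((2 * p) ^ (d + 1) * w ^ (d + 1)))) := by gcongr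
      _ = t * (A * (w * w * w * w * w ^ (d + 1 + 1) * w ^ (d + 1))) := by
          rw [hA]; ring
      _ = t * E := by
          rw [hE]
          have : w * w * w * w * w ^ (d + 1 + 1) * w ^ (d + 1) = w ^ (2 * (d + 1) + 5) := by
            have h6 : w * w * w * w = w ^ 4 := by ring
            rw [h6, ← pow_add, ← pow_add]; congr 1; ring
          rw [this]
  · have := (CTree.all_iff T).mp (hdep T hT) a ha
    exact ⟨this.1.trans (Nat.le_succ d), this.2⟩

end Pool.Agent.Work.MP_c04246_lc
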