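import Mathlib
import Pool.Agent.Work.MP_c04246_lc.LFinal
import Pool.Agent.Work.MP_c04246_lc.Params2

set_option autoImplicit false
set_option linter.unusedSectionVars false
set_option linter.unusedSimpArgs false
set_option linter.unusedVariables false

namespace Pool.Agent.Work.MP_c04246_lc

open Finset

namespace GF

section main

variable {q n : ℕ}

lemma card_biUnion_list {α β : Type} [DecidableEq α] [DecidableEq β] (f : α → Finset β) (g : α → ℕ)
    (h : ∀ a, (f a).card ≤ g a) (l : List α) :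
    (l.toFinset.biUnion f).card ≤ (l.map g).sum := by
  induction l with
  | nil => simp
  | cons a l ih =>
    rw [List.toFinset_cons, biUnion_insert, List.map_cons, List.sum_cons]
    exact (card_union_le _ _).trans (add_le_add (h a) ih)

theorem lcore (hq2 : 2 ≤ q) {w D n' m t E s : ℕ} {κ N : ℕ → ℕ}
    (hPF : ParamFacts q w D n' t E s κ N) (hw : 1 ≤ w) (hD : 1 ≤ D) (hm : 1 ≤ m)
    {r : ℕ} (hmod : n = n' + q * r) (hsp : 2 * (m * n' ^ q) ≤ n ^ q) (hn : 0 < n)
    (hroom2 : q * κ D + q * ((4 * w + 1) * κ D) ≤ N D)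
    {pi : List (GF (Vr q (Fin n)))} (hpi : IsProof w pi) (hc : countTaut q n ∈ pi)
    (hd : ∀ b ∈ pi, depth m b ≤ D ∧ Local m b) : 2 ^ w ≤ (pi.map size).sum := by
  classical
  by_contra hlt
  push Not at hlt
  have hq0 : 0 < q := by omega
  set Γ : Finset (GF (Vr q (Fin n))) := pi.toFinset.biUnion subs with hΓ
  have hΓcard : Γ.card < 2 ^ w :=
    (card_biUnion_list subs size card_subs pi).trans_lt hlt
  have hmem : ∀ a, a ∈ Γ ↔ ∃ b ∈ pi, a ∈ subs b := by
    intro a; rw [hΓ, mem_biUnion]; simp only [List.mem_toFinset]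
  have hsubΓ : ∀ b ∈ pi, subs b ⊆ Γ := fun b hb a ha => (hmem a).mpr ⟨b, hb, ha⟩
  have hgate : ∀ (k : ℕ) (g : (Fin k → Bool) → Bool) (f : Fin k → GF (Vr q (Fin n))),
      gate k g f ∈ Γ → (vars (gate k g f)).card ≤ m := by
    intro k g f h
    obtain ⟨b, hb, hbs⟩ := (hmem _).mp h
    exact (hd b hb).2 k g f hbs
  have hclosed : GClosed Γ := by
    constructor
    · intro a ha
      obtain ⟨b, hb, hbs⟩ := (hmem _).mp ha
      exact (hmem _).mpr ⟨b, hb, subs_trans _ _ hbs (subs_neg _ (subs_self _))⟩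
    · intro c a a' ha
      obtain ⟨b, hb, hbs⟩ := (hmem _).mp ha
      exact ⟨(hmem _).mpr ⟨b, hb, subs_trans _ _ hbs (subs_bin_l _ _ _ (subs_self _))⟩,
        (hmem _).mpr ⟨b, hb, subs_trans _ _ hbs (subs_bin_r _ _ _ (subs_self _))⟩⟩
  have hvars : ∀ a ∈ Γ, isL m a → (vars a).card ≤ m := by
    intro a ha hl
    cases a with
    | var x => simpa [vars] using hm
    | cst b => simp [vars]
    | neg a => exact hl
    | bin c a b => exact hl
    | gate k g f => exact hgate k g f ha
  -- restriction of the universe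
  obtain ⟨A, hAc, hA⟩ := exists_sparse_set (q := q) (U := Fin n) (Γ.filter (isL m))
    (fun a => (vars a).image Subtype.val) (m := m) (n' := n') (h := w)
    (by
      intro a ha
      rw [mem_filter] at ha
      exact card_image_le.trans (hvars a ha.1 ha.2))
    (by rw [Fintype.card_fin, hmod]; exact Nat.le_add_right _ _)
    (by rw [Fintype.card_fin]; exact hsp)
    ((card_filter_le _ _).trans_lt hΓcard) (by rw [Fintype.card_fin]; exact hn)
  obtain ⟨ρ0, hρ0PP, hρ0cov⟩ := exists_part hq0 r (univ \ A) (by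
    rw [card_sdiff_of_subset (subset_univ A), card_univ, Fintype.card_fin, hAc, hmod]
    omega)
  have hρ0N : nun ρ0 = N 0 := by
    unfold nun
    rw [hρ0cov, Finset.sdiff_sdiff_eq_self (subset_univ A), hAc, hPF.hN0]
  have hGL : ∀ a ∈ Γ, isL m a → GG m q (fun _ => ρ0) κ a := by
    intro a ha hl
    have hV : ∀ S ∈ (vars a).image Subtype.val, S.card = q := by
      intro S hS
      obtain ⟨T, _, rfl⟩ := mem_image.mp hS
      exact T.2
    obtain ⟨W, hW1, hW2⟩ := exists_transversal hq0 ((vars a).image Subtype.val) hV A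
      (hA a (mem_filter.mpr ⟨ha, hl⟩))
    refine GG_of_transversal hl hρ0PP W ?_ ?_
    · refine hW1.trans (le_trans ?_ (hPF.hκa 0))
      exact Nat.mul_le_mul_left _ (by omega)
    · intro S hS
      by_cases hSA : S.1 ⊆ A
      · exact Or.inr (hW2 S.1 (mem_image_of_mem _ hS) hSA)
      · left
        obtain ⟨u, hu, huA⟩ := not_subset.mp hSA
        exact ⟨u, by rw [hρ0cov]; exact mem_sdiff.mpr ⟨mem_univ _, huA⟩, hu⟩
  obtain ⟨ρ, hρ00, hρPP, hρm, hρN, hρG⟩ := exists_gcontexts hq0 hclosed (a0 := 2 * w) (d := D)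
    (hΓcard.trans_le (Nat.pow_le_pow_right (by norm_num) (by omega))) hPF.hκ1 hPF.hκa hPF.hκm
    hρ0PP hρ0N hGL hPF.hN
    (fun i hi => hPF.h16 i hi) (fun i hi => hPF.hroom i hi) hPF.hN1 D le_rfl
  have hmono : ∀ j ≤ D, ρ j ⊆ ρ D := fun j hj => hρm j D hj le_rfl
  have hG : ∀ a ∈ Γ, glv m none a ≤ D ∧ GG m q ρ κ a := by
    intro a ha
    have hl : glv m none a ≤ D := by
      obtain ⟨b, hb, hbs⟩ := (hmem _).mp ha
      exact ((glv_le_dpt m a).1.trans (dpt_subs b (hd b hb).2 a hbs)).trans (hd b hb).1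
    exact ⟨hl, hρG a ha hl⟩
  have hND : nun (ρ D) = N D := hρN D le_rfl
  have hTr : ∀ k : ℕ, ∀ (hk : k < pi.length), Tr m q ρ κ D (pi.get ⟨k, hk⟩) := by
    intro k
    induction k using Nat.strong_induction_on with
    | _ k ih =>
      intro hk
      obtain ⟨P, hPj, hinf⟩ := hpi ⟨k, hk⟩
      refine sound_step hq0 (hρPP D le_rfl) hmono hPF.hκm hG hgate (L := w)
        (by rw [hND]; exact hroom2) hinf (hsubΓ _ (List.get_mem _ _)) ?_ ?_
      · intro b hb
        obtain ⟨j, _, rfl⟩ := hPj b hb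
        exact hsubΓ _ (List.get_mem _ _)
      · intro b hb
        obtain ⟨j, hj, rfl⟩ := hPj b hb
        exact ih j.1 hj j.2
  have hTc : Tr m q ρ κ D (countTaut q n) := by
    obtain ⟨i, hi⟩ := List.get_of_mem hc
    rw [← hi]
    exact hTr i.1 i.2
  have hcΓ : countTaut q n ∈ Γ := hsubΓ _ hc (subs_self _)
  have hroom3 : q * κ D ≤ N D := le_trans (Nat.le_add_right _ _) hroom2
  obtain ⟨τ', hs, hPP', hall⟩ := run_all hq0 hmono hPF.hκm hG {countTaut q n}
    (singleton_subset_iff.mpr hcΓ) (ρ D) (hρPP D le_rfl) Subset.rfl (by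
      rw [card_singleton, one_mul, hND]; exact hroom3)
  obtain ⟨e, he⟩ := hall _ (mem_singleton_self _)
  cases e with
  | false => exact hTc τ' hPP' hs he
  | true =>
    refine gno_true hq2 (hPF.hκ1 0) ?_ τ' he
    intro i hi τ hτ
    have hiD : i ≤ D := hi.trans hD
    refine ⟨(hρm 0 i (Nat.zero_le _) hiD).trans hτ.2.1, ?_⟩
    have h1 := nun_add hτ.1
    have h2 := nun_add (hρPP i hiD)
    have h3 : τ.card ≤ (ρ i).card + κ i := by
      have h4 := card_sdiff_add_card_eq_card hτ.2.1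
      have h5 := hτ.2.2
      omega
    have h6 : q * τ.card ≤ q * (ρ i).card + q * κ i := by
      rw [← mul_add]; exact Nat.mul_le_mul_left _ h3
    have h7 := hPF.hroom' i hiD
    have h8 := hρN i hiD
    omega

end main

end GF

end Pool.Agent.Work.MP_c04246_lc
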