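import Mathlib
import Pool.Agent.Work.MP_c04246_lc.LMain

set_option autoImplicit false
set_option linter.unusedSectionVars false
set_option linter.unusedSimpArgs false
set_option linter.unusedVariables false

namespace Pool.Agent.Work.MP_c04246_lc

open Finset

namespace GF

section disj

variable {V : Type}

lemma dpt_none_ge (m : ℕ) (r : Option (Option Bool)) (a : GF V) : dpt m r a ≤ dpt m none a := by
  cases a with
  | var _ => simp [dpt]
  | cst _ => simp [dpt]
  | neg a =>
    simp only [dpt]
    by_cases h : (vars (neg a)).card ≤ m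
    · simp only [if_pos h]; omega
    · simp only [if_neg h]; split_ifs <;> simp_all
  | bin c a b =>
    simp only [dpt]
    by_cases h : (vars (bin c a b)).card ≤ m
    · simp only [if_pos h]; omega
    · simp only [if_neg h]; split_ifs <;> simp_all
  | gate k g f => simp [dpt]

lemma dpt_neg_le (m : ℕ) (r : Option (Option Bool)) (a : GF V) :
    dpt m r (neg a) ≤ 1 + dpt m (some none) a := by
  simp only [dpt]; split_ifs <;> omega

lemma dpt_bin_le (m : ℕ) (r : Option (Option Bool)) (c : Bool) (a b : GF V) :
    dpt m r (bin c a b) ≤ 1 + max (dpt m (some (some c)) a) (dpt m (some (some c)) b) := by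
  simp only [dpt]; split_ifs <;> omega

lemma dpt_disj {m D : ℕ} (l : List (GF V)) (h : ∀ a ∈ l, dpt m (some (some true)) a ≤ D) :
    dpt m (some (some true)) (disj l) ≤ D := by
  induction l with
  | nil => simp [disj, dpt]
  | cons a l ih =>
    have : disj (a :: l) = bin true a (disj l) := rfl
    rw [this]
    simp only [dpt]
    split_ifs
    · exact Nat.zero_le _
    · rw [zero_add]
      exact max_le (h a (by simp)) (ih fun b hb => h b (by simp [hb]))

lemma size_disj {s : ℕ} (l : List (GF V)) (h : ∀ a ∈ l, size a ≤ s) :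
    size (disj l) ≤ l.length * (s + 1) + 1 := by
  induction l with
  | nil => simp [disj, size]
  | cons a l ih =>
    have : disj (a :: l) = bin true a (disj l) := rfl
    rw [this]
    have h1 := h a (by simp)
    have h2 := ih fun b hb => h b (by simp [hb])
    simp only [size, List.length_cons]
    nlinarith

lemma le_size_disj (l : List (GF V)) : l.length ≤ size (disj l) := by
  induction l with
  | nil => simp
  | cons a l ih =>
    have : disj (a :: l) = bin true a (disj l) := rfl
    rw [this]
    simp only [size, List.length_cons]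
    omega

end disj

section count

variable {q n : ℕ}

lemma le_size_countTaut : n ≤ size (countTaut q n) := by
  unfold countTaut
  have h := le_size_disj ((Finset.univ : Finset (Fin n)).toList.map fun u =>
      (neg (disj (((Finset.univ : Finset {S : Finset (Fin n) // S.card = q}).filter
        fun S => u ∈ S.1).toList.map var)) : GF {S : Finset (Fin n) // S.card = q}))
  rw [List.length_map, length_toList, card_univ, Fintype.card_fin] at h
  simp only [size]
  omega

lemma depth_countTaut (m : ℕ) : depth m (countTaut q n) ≤ 3 := by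
  unfold countTaut depth
  have h2 : dpt m (some (some true)) (disj ((Finset.univ : Finset (Fin n)).toList.map fun u =>
      (neg (disj (((Finset.univ : Finset {S : Finset (Fin n) // S.card = q}).filter
        fun S => u ∈ S.1).toList.map var)) : GF {S : Finset (Fin n) // S.card = q}))) ≤ 2 := by
    apply dpt_disj
    intro a ha
    rw [List.mem_map] at ha
    obtain ⟨u, _, rfl⟩ := ha
    have h3 : dpt m (some (some true)) (disj (((Finset.univ : Finset {S : Finset (Fin n) //
        S.card = q}).filter fun S => u ∈ S.1).toList.map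
          (var : _ → GF {S : Finset (Fin n) // S.card = q}))) ≤ 0 := by
      apply dpt_disj
      intro b hb
      rw [List.mem_map] at hb
      obtain ⟨S, _, rfl⟩ := hb
      simp [dpt]
    have h4 := dpt_le m (some (some true)) (disj (((Finset.univ : Finset {S : Finset (Fin n) //
        S.card = q}).filter fun S => u ∈ S.1).toList.map
          (var : _ → GF {S : Finset (Fin n) // S.card = q})))
    have h5 := dpt_none_ge m (some none) (disj (((Finset.univ : Finset {S : Finset (Fin n) //
        S.card = q}).filter fun S => u ∈ S.1).toList.map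
          (var : _ → GF {S : Finset (Fin n) // S.card = q})))
    refine (dpt_neg_le m (some (some true)) _).trans ?_
    omega
  have h6 : dpt m (some (some true)) (disj (((Finset.univ : Finset ({S : Finset (Fin n) //
      S.card = q} × {S : Finset (Fin n) // S.card = q})).filter
        fun x => x.1 ≠ x.2 ∧ ¬ Disjoint x.1.1 x.2.1).toList.map
      fun x => (bin false (var x.1) (var x.2) : GF {S : Finset (Fin n) // S.card = q}))) ≤ 2 := by
    apply dpt_disj
    intro a ha
    rw [List.mem_map] at ha
    obtain ⟨x, _, rfl⟩ := ha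
    refine (dpt_bin_le m (some (some true)) _ _ _).trans ?_
    simp [dpt]
  refine (dpt_bin_le m none _ _ _).trans ?_
  omega

lemma size_countTaut (hn : 1 ≤ n) (hq : 1 ≤ q) : size (countTaut q n) ≤ 12 * n ^ (2 * q) := by
  have hcard : Fintype.card {S : Finset (Fin n) // S.card = q} ≤ n ^ q := by
    have := Fintype.card_finset_len (α := Fin n) q
    rw [Fintype.card_fin] at this
    rw [this]
    exact Nat.choose_le_pow n q
  unfold countTaut
  have h1 : size (disj ((Finset.univ : Finset (Fin n)).toList.map fun u =>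
      (neg (disj (((Finset.univ : Finset {S : Finset (Fin n) // S.card = q}).filter
        fun S => u ∈ S.1).toList.map var)) : GF {S : Finset (Fin n) // S.card = q}))) ≤
      n * (2 * n ^ q + 3) + 1 := by
    refine (size_disj (s := 2 * n ^ q + 2) _ ?_).trans ?_
    · intro a ha
      rw [List.mem_map] at ha
      obtain ⟨u, _, rfl⟩ := ha
      have h2 : size (disj (((Finset.univ : Finset {S : Finset (Fin n) //
        S.card = q}).filter fun S => u ∈ S.1).toList.map
          (var : _ → GF {S : Finset (Fin n) // S.card = q}))) ≤ n ^ q * (1 + 1) + 1 := by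
        refine (size_disj (s := 1) _ ?_).trans ?_
        · intro b hb
          rw [List.mem_map] at hb
          obtain ⟨S, _, rfl⟩ := hb
          simp [size]
        · rw [List.length_map, length_toList]
          have := (card_filter_le (univ : Finset {S : Finset (Fin n) // S.card = q})
            (fun S => u ∈ S.1)).trans
              ((card_univ (α := {S : Finset (Fin n) // S.card = q})).le.trans hcard)
          exact Nat.succ_le_succ (Nat.mul_le_mul_right _ this)
      simp only [size]
      omega
    · rw [List.length_map, length_toList, card_univ, Fintype.card_fin]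
  have h3 : size (disj (((Finset.univ : Finset ({S : Finset (Fin n) //
      S.card = q} × {S : Finset (Fin n) // S.card = q})).filter
        fun x => x.1 ≠ x.2 ∧ ¬ Disjoint x.1.1 x.2.1).toList.map
      fun x => (bin false (var x.1) (var x.2) : GF {S : Finset (Fin n) // S.card = q}))) ≤
      (n ^ q * n ^ q) * (3 + 1) + 1 := by
    refine (size_disj (s := 3) _ ?_).trans ?_
    · intro a ha
      rw [List.mem_map] at ha
      obtain ⟨x, _, rfl⟩ := ha
      simp [size]
    · rw [List.length_map, length_toList]
      have := (card_filter_le (univ : Finset ({S : Finset (Fin n) //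
        S.card = q} × {S : Finset (Fin n) // S.card = q}))
            (fun x => x.1 ≠ x.2 ∧ ¬ Disjoint x.1.1 x.2.1)).trans
            ((card_univ (α := {S : Finset (Fin n) // S.card = q} ×
              {S : Finset (Fin n) // S.card = q})).le.trans
              ((Fintype.card_prod _ _).le.trans (Nat.mul_le_mul hcard hcard)))
      exact Nat.succ_le_succ (Nat.mul_le_mul_right _ this)
  simp only [size]
  have h4 : n ^ q * n ^ q = n ^ (2 * q) := by rw [← pow_add]; congr 1; omega
  have h5 : n * n ^ q ≤ n ^ (2 * q) := by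
    rw [← pow_succ']
    exact Nat.pow_le_pow_right hn (by omega)
  have h6 : n ≤ n ^ (2 * q) := by
    calc n = n ^ 1 := (pow_one n).symm
      _ ≤ n ^ (2 * q) := Nat.pow_le_pow_right hn (by omega)
  have h7 : 1 ≤ n ^ (2 * q) := hn.trans h6
  rw [h4] at h3
  have h8 : n * (2 * n ^ q + 3) = 2 * (n * n ^ q) + 3 * n := by ring
  rw [h8] at h1
  omega

lemma taut_countTaut (hn : ¬ q ∣ n) (v : {S : Finset (Fin n) // S.card = q} → Bool) :
    eval v (countTaut q n) = true := by
  classical
  by_contra hcon
  unfold countTaut at hcon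
  simp only [eval, if_true, Bool.or_eq_true, not_or] at hcon
  obtain ⟨h1, h2⟩ := hcon
  rw [eval_disj] at h1 h2
  push Not at h1 h2
  have h3 : ∀ u : Fin n, ∃ S : {S : Finset (Fin n) // S.card = q}, u ∈ S.1 ∧ v S = true := by
    intro u
    have h4 := h1 _ (List.mem_map.mpr ⟨u, by simp, rfl⟩)
    simp only [eval, Bool.not_eq_true, Bool.not_eq_false'] at h4
    rw [eval_disj] at h4
    obtain ⟨a, ha, hva⟩ := h4
    rw [List.mem_map] at ha
    obtain ⟨S, hS, rfl⟩ := ha
    rw [mem_toList, mem_filter] at hS
    exact ⟨S, hS.2, hva⟩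
  have h5 : ∀ S T : {S : Finset (Fin n) // S.card = q}, v S = true → v T = true → S ≠ T →
      Disjoint S.1 T.1 := by
    intro S T hS hT hne
    by_contra hd
    have h6 := h2 _ (List.mem_map.mpr ⟨(S, T), by
      rw [mem_toList, mem_filter]; exact ⟨mem_univ _, hne, hd⟩, rfl⟩)
    simp [eval, hS, hT] at h6
  apply hn
  have h7 : (univ : Finset (Fin n)) =
      (univ.filter fun S : {S : Finset (Fin n) // S.card = q} => v S = true).biUnion
        (fun S => S.1) := by
    ext u
    simp only [mem_univ, mem_biUnion, mem_filter, true_and, true_iff]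
    obtain ⟨S, hS, hv⟩ := h3 u
    exact ⟨S, hv, hS⟩
  have h8 := congrArg Finset.card h7
  rw [card_univ, Fintype.card_fin, card_biUnion (by
    intro S hS T hT hne
    exact h5 S T (mem_filter.mp hS).2 (mem_filter.mp hT).2 hne),
    sum_congr rfl (fun S _ => S.2), sum_const, smul_eq_mul] at h8
  exact ⟨_, by rw [h8, mul_comm]⟩

end count

section final

variable {q n : ℕ}

lemma Local.mono {V : Type} {m M : ℕ} (h : m ≤ M) {a : GF V} (ha : Local m a) : Local M a :=
  fun k g f hk => (ha k g f hk).trans h

lemma dpt_anti {V : Type} {m M : ℕ} (h : m ≤ M) (a : GF V) : ∀ r : Option (Option Bool),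
    dpt M r a ≤ dpt m r a := by
  induction a with
  | var _ => intro r; exact le_rfl
  | cst _ => intro r; exact le_rfl
  | neg a ih =>
    intro r
    have h1 := ih (some none)
    by_cases hM : (vars (neg a)).card ≤ M
    · simp only [dpt, if_pos hM]; exact Nat.zero_le _
    · have hm : ¬ (vars (neg a)).card ≤ m := by omega
      simp only [dpt, if_neg hM, if_neg hm]
      omega
  | bin c a b iha ihb =>
    intro r
    have h1 := iha (some (some c))
    have h2 := ihb (some (some c))
    by_cases hM : (vars (bin c a b)).card ≤ M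
    · simp only [dpt, if_pos hM]; exact Nat.zero_le _
    · have hm : ¬ (vars (bin c a b)).card ≤ m := by omega
      simp only [dpt, if_neg hM, if_neg hm]
      omega
  | gate _ _ _ => intro r; exact le_rfl

theorem local_bound (q : ℕ) (hq2 : 2 ≤ q) (d : ℕ) :
    ∃ a n0 : ℕ, 1 ≤ n0 ∧ ∀ n ≥ n0, ∀ w : ℕ, w ^ a ≤ n → ∀ m : ℕ, m * w ^ a ≤ n.choose q →
      ∀ pi : List (GF {S : Finset (Fin n) // S.card = q}), IsProof w pi → countTaut q n ∈ pi →
        (∀ b ∈ pi, depth m b ≤ d ∧ Local m b) → 2 ^ w ≤ (pi.map size).sum := by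
  obtain ⟨a1, n01, hn01, hpar⟩ := exists_params q hq2 d (2 * q + 1) (d + 2) le_rfl le_rfl
  set c := q * (n01 + 2) with hc
  set w0 := 2 * c ^ q with hw0
  refine ⟨a1 * q + 1, 2 ^ w0, Nat.one_le_two_pow, ?_⟩
  intro n hn w hw m hm pi hpi hmem hd
  have hn1 : 1 ≤ n := Nat.one_le_two_pow.trans hn
  rcases Nat.lt_or_ge w w0 with hlt | hge
  · have h1 : size (countTaut q n) ≤ (pi.map size).sum :=
      List.single_le_sum (fun _ _ => Nat.zero_le _) _ (List.mem_map.mpr ⟨_, hmem, rfl⟩)
    calc 2 ^ w ≤ 2 ^ w0 := Nat.pow_le_pow_right (by norm_num) hlt.le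
      _ ≤ n := hn
      _ ≤ size (countTaut q n) := le_size_countTaut
      _ ≤ _ := h1
  have hc1 : 1 ≤ c := Nat.mul_pos (by omega) (by omega)
  have hcq : c ≤ c ^ q := Nat.le_self_pow (by omega) _
  have hwc : c ≤ w := by omega
  have hw1 : 1 ≤ w := hc1.trans hwc
  have hwa : 1 ≤ w ^ a1 := Nat.one_le_pow _ _ hw1
  set n' := q * (w ^ a1 + n01) + n % q with hn'
  have hn'c : n' ≤ c * w ^ a1 := by
    have h1 : n % q < q := Nat.mod_lt _ (by omega)
    have h2 : n01 + 1 ≤ (n01 + 1) * w ^ a1 := Nat.le_mul_of_pos_right _ hwa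
    calc n' ≤ q * (w ^ a1 + n01) + q := by omega
      _ = q * (w ^ a1 + (n01 + 1)) := by ring
      _ ≤ q * (w ^ a1 + (n01 + 1) * w ^ a1) := Nat.mul_le_mul_left _ (by omega)
      _ = c * w ^ a1 := by rw [hc]; ring
  have hn'q : 2 * n' ^ q ≤ w ^ (a1 * q + 1) := by
    calc 2 * n' ^ q ≤ 2 * (c * w ^ a1) ^ q := Nat.mul_le_mul_left _ (Nat.pow_le_pow_left hn'c _)
      _ = w0 * w ^ (a1 * q) := by rw [mul_pow, ← pow_mul, hw0]; ring
      _ ≤ w * w ^ (a1 * q) := Nat.mul_le_mul_right _ hge
      _ = w ^ (a1 * q + 1) := by rw [pow_succ]; ring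
  have hn'n : n' ≤ n := by
    have h1 : n' ≤ n' ^ q := Nat.le_self_pow (by omega) _
    omega
  set M := max m 1 with hM
  have hMn : M * w ^ (a1 * q + 1) ≤ n ^ q := by
    rcases Nat.eq_zero_or_pos m with h | h
    · rw [hM, h]
      simp only [Nat.zero_le, sup_of_le_right, one_mul]
      exact hw.trans (Nat.le_self_pow (by omega) _)
    · have : M = m := by rw [hM]; exact max_eq_left h
      rw [this]
      exact hm.trans (Nat.choose_le_pow _ _)
  have hn'ge : w ^ a1 + n01 ≤ n' :=
    (Nat.le_mul_of_pos_left _ (by omega)).trans (Nat.le_add_right _ _)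
  obtain ⟨N, hPF⟩ := hpar n' (by omega) w hw1 (by omega)
  have hmod : n = n' + q * (n / q - (w ^ a1 + n01)) := by
    have h1 : q * (n / q) + n % q = n := Nat.div_add_mod n q
    have h2 : w ^ a1 + n01 ≤ n / q := by
      by_contra hcon
      push Not at hcon
      have h3 := Nat.mul_le_mul_left q (Nat.succ_le_of_lt hcon)
      have h4 : q * (n / q + 1) = q * (n / q) + q := by ring
      have h5 : n % q < q := Nat.mod_lt _ (by omega)
      have h6 : n < q * (n / q) + q := by omega
      rw [Nat.succ_eq_add_one, h4] at h3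
      omega
    have h3 : q * (n / q - (w ^ a1 + n01)) + q * (w ^ a1 + n01) = q * (n / q) := by
      rw [← mul_add, Nat.sub_add_cancel h2]
    omega
  refine lcore hq2 hPF hw1 (by omega) (m := M) (le_max_right _ _) hmod ?_ hn1 ?_ hpi hmem
    (fun b hb => ⟨((dpt_anti (le_max_left m 1) b none).trans (hd b hb).1).trans (Nat.le_succ d),
      (hd b hb).2.mono (le_max_left _ _)⟩)
  · calc 2 * (M * n' ^ q) = M * (2 * n' ^ q) := by ring
      _ ≤ M * w ^ (a1 * q + 1) := Nat.mul_le_mul_left _ hn'q
      _ ≤ n ^ q := hMn
  · rw [hPF.hNd]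
    set E := (2 * q + 1) * w ^ (d + 2) with hE
    have hκ : (2 * q + 1) * w ^ (d + 1 + 1) = E := rfl
    have hE1 : 1 ≤ E := Nat.mul_pos (by omega) (Nat.one_le_pow _ _ hw1)
    have hwE : w ≤ E := by
      calc w = w ^ 1 := (pow_one w).symm
        _ ≤ w ^ (d + 2) := Nat.pow_le_pow_right hw1 (by omega)
        _ ≤ E := Nat.le_mul_of_pos_left _ (by omega)
    show q * ((2 * q + 1) * w ^ (d + 1 + 1)) + q * ((4 * w + 1) * ((2 * q + 1) * w ^ (d + 1 + 1))) ≤ _
    rw [hκ]
    have h1 : q * E + q * ((4 * w + 1) * E) ≤ q * (81 * (E * E)) := by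
      rw [← mul_add]
      refine Nat.mul_le_mul_left _ ?_
      have h2 : E ≤ E * E := Nat.le_mul_of_pos_left _ hE1
      have h3 : (4 * w + 1) * E ≤ 5 * (E * E) := by
        calc (4 * w + 1) * E ≤ (5 * E) * E := Nat.mul_le_mul_right _ (by omega)
          _ = 5 * (E * E) := by ring
      omega
    refine h1.trans (le_trans (le_of_eq ?_) (Nat.le_add_right _ _))
    ring

end final

end GF

end Pool.Agent.Work.MP_c04246_lc
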