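import Mathlib

set_option autoImplicit false
set_option linter.unusedSectionVars false
set_option linter.unusedSimpArgs false
set_option linter.unusedVariables false

namespace Pool.Agent.Work.MP_c04246_lc

open Finset

namespace Choice

section avg

variable {α X : Type*} [DecidableEq α] [Fintype X] [DecidableEq X]

lemma exp_half_le : Real.exp (1 / 2) ≤ 2 := by
  have h1 : Real.exp 1 < 2.7182818286 := Real.exp_one_lt_d9
  have h2 : Real.exp (1 / 2) * Real.exp (1 / 2) = Real.exp 1 := by
    rw [← Real.exp_add]; norm_num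
  have h3 : 0 < Real.exp (1 / 2) := Real.exp_pos _
  nlinarith

open Classical in
lemma sum_two_pow {L : ℕ} (bad : X → Fin L → Prop) :
    ∑ φ : X → Fin L, (2 : ℝ) ^ (univ.filter fun S => bad S (φ S)).card =
      ∏ S : X, ((L : ℝ) + (univ.filter fun i => bad S i).card) := by
  have h1 : ∀ φ : X → Fin L, (2 : ℝ) ^ (univ.filter fun S => bad S (φ S)).card =
      ∏ S : X, (if bad S (φ S) then (2 : ℝ) else 1) := by
    intro φ
    rw [prod_ite, prod_const, prod_const_one, mul_one]
  have h2 : ∀ S : X, ((L : ℝ) + (univ.filter fun i => bad S i).card) =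
      ∑ i : Fin L, (if bad S i then (2 : ℝ) else 1) := by
    intro S
    have h3 : ∀ i : Fin L, (if bad S i then (2 : ℝ) else 1) = 1 + if bad S i then 1 else 0 := by
      intro i; split_ifs <;> norm_num
    simp only [h3]
    rw [sum_add_distrib, sum_const, card_univ, Fintype.card_fin, sum_boole]
    simp
  simp only [h1, h2]
  rw [Finset.prod_univ_sum]
  simp only [Fintype.piFinset_univ]

open Classical in
lemma exists_choice_avg {G : Finset α} {L : ℕ} (hL : 1 ≤ L) {bad : α → X → Fin L → Prop}
    {k w s : ℕ} (hG : G.card < 2 ^ w) (hk : 1 ≤ k)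
    (hyp : ∀ A ∈ G, (univ.filter fun x : X × Fin L => bad A x.1 x.2).card * k ≤
      L * Fintype.card X) (hs : 2 * Fintype.card X ≤ s * k) :
    ∃ φ : X → Fin L, ∀ A ∈ G, (univ.filter fun S => bad A S (φ S)).card < w + s := by
  by_contra hcon
  push Not at hcon
  set B := Fintype.card X with hB
  have hL' : (0 : ℝ) < L := by exact_mod_cast hL
  have hk' : (0 : ℝ) < k := by exact_mod_cast hk
  -- one test
  have hone : ∀ A ∈ G, ∑ φ : X → Fin L, (2 : ℝ) ^ (univ.filter fun S => bad A S (φ S)).card ≤
      (L : ℝ) ^ B * 2 ^ s := by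
    intro A hA
    rw [sum_two_pow (bad A)]
    have h1 : ∀ S : X, ((L : ℝ) + (univ.filter fun i => bad A S i).card) ≤
        L * Real.exp ((univ.filter fun i => bad A S i).card / L) := by
      intro S
      have h2 := Real.add_one_le_exp (((univ.filter fun i => bad A S i).card : ℝ) / L)
      calc ((L : ℝ) + (univ.filter fun i => bad A S i).card)
          = L * (((univ.filter fun i => bad A S i).card : ℝ) / L + 1) := by
            field_simp
            ring
        _ ≤ _ := mul_le_mul_of_nonneg_left h2 hL'.le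
    refine (prod_le_prod (fun S _ => by positivity) fun S _ => h1 S).trans ?_
    rw [prod_mul_distrib, prod_const, card_univ, ← Real.exp_sum]
    refine mul_le_mul_of_nonneg_left ?_ (by positivity)
    have h3 : ∑ S : X, ((univ.filter fun i => bad A S i).card : ℝ) / L =
        ((univ.filter fun x : X × Fin L => bad A x.1 x.2).card : ℝ) / L := by
      rw [← sum_div]
      congr 1
      rw [← Nat.cast_sum]
      congr 1
      rw [card_filter, Fintype.sum_prod_type]
      refine sum_congr rfl fun S _ => ?_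
      rw [card_filter]
    rw [h3]
    have h4 : ((univ.filter fun x : X × Fin L => bad A x.1 x.2).card : ℝ) * k ≤ L * B := by
      exact_mod_cast hyp A hA
    have h5 : (2 : ℝ) * B ≤ s * k := by exact_mod_cast hs
    have h6 : ((univ.filter fun x : X × Fin L => bad A x.1 x.2).card : ℝ) / L ≤ s * (1 / 2) := by
      rw [div_le_iff₀ hL']
      have h7 : ((univ.filter fun x : X × Fin L => bad A x.1 x.2).card : ℝ) * k ≤
          (s * (1 / 2) * L) * k := by nlinarith
      exact le_of_mul_le_mul_right h7 hk'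
    refine (Real.exp_le_exp.mpr h6).trans ?_
    rw [mul_comm, Real.exp_mul, ]
    have h8 : (Real.exp (1 / 2)) ^ (s : ℝ) = (Real.exp (1 / 2)) ^ s := Real.rpow_natCast _ _
    rw [h8]
    exact pow_le_pow_left₀ (Real.exp_pos _).le exp_half_le _
  -- all tests
  have hall : (L : ℝ) ^ B * 2 ^ (w + s) ≤ G.card * ((L : ℝ) ^ B * 2 ^ s) := by
    calc (L : ℝ) ^ B * 2 ^ (w + s) = ∑ φ : X → Fin L, (2 : ℝ) ^ (w + s) := by
          rw [sum_const, card_univ, Fintype.card_fun, Fintype.card_fin, nsmul_eq_mul]
          push_cast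
          rfl
      _ ≤ ∑ φ : X → Fin L, ∑ A ∈ G, (2 : ℝ) ^ (univ.filter fun S => bad A S (φ S)).card := by
          refine sum_le_sum fun φ _ => ?_
          obtain ⟨A, hA, hAc⟩ := hcon φ
          refine le_trans (pow_le_pow_right₀ (by norm_num) hAc) ?_
          exact single_le_sum (f := fun A =>
            (2 : ℝ) ^ (univ.filter fun S => bad A S (φ S)).card)
            (fun A _ => by positivity) hA
      _ = ∑ A ∈ G, ∑ φ : X → Fin L, (2 : ℝ) ^ (univ.filter fun S => bad A S (φ S)).card :=
          sum_comm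
      _ ≤ ∑ A ∈ G, ((L : ℝ) ^ B * 2 ^ s) := sum_le_sum hone
      _ = _ := by rw [sum_const, nsmul_eq_mul]
  have h9 : (G.card : ℝ) < 2 ^ w := by exact_mod_cast hG
  have h10 : (0 : ℝ) < (L : ℝ) ^ B * 2 ^ s := by positivity
  have h11 : (G.card : ℝ) * ((L : ℝ) ^ B * 2 ^ s) < 2 ^ w * ((L : ℝ) ^ B * 2 ^ s) :=
    mul_lt_mul_of_pos_right h9 h10
  have h12 : (2 : ℝ) ^ w * ((L : ℝ) ^ B * 2 ^ s) = (L : ℝ) ^ B * 2 ^ (w + s) := by
    rw [pow_add]; ring
  linarith

end avg

end Choice

end Pool.Agent.Work.MP_c04246_lc
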