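import Mathlib
import Pool.Agent.Work.MP_c04246_lc.LDefs

set_option autoImplicit false

namespace Pool.Agent.Work.MP_c04246_lc

namespace GF

/-- substitution of formulas for the variables -/
def sub {V W : Type} (s : V → GF W) : GF V → GF W
  | var x => s x
  | cst b => cst b
  | neg a => neg (sub s a)
  | bin c a b => bin c (sub s a) (sub s b)
  | gate k g f => gate k g fun i => sub s (f i)

/-- conjunction of a list -/
def conj {V : Type} (l : List (GF V)) : GF V := l.foldr (bin false) (cst true)

open Classical in
/-- The variables `(S, j)` with `j ∈ J` are identified: they all become `(S, none)`. All other
variables `(T, j)` become `(T, some j)`. -/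
noncomputable def glue {X : Type} {M : ℕ} (S : X) (J : Finset (Fin M)) :
    GF (X × Fin M) → GF (X × Option (Fin M)) :=
  sub fun x => var (x.1, if x.1 = S ∧ x.2 ∈ J then none else some x.2)

/-- The value of the formula is blind to the variables `(S, j)`, `j ∈ J`: a variable is blind if it
is not one of them; negations, disjunctions and conjunctions of blind formulas are blind; a `gate`
is blind if its truth function `g` does not depend on those arguments which are not blind, as long
as arguments which become equal when the variables `(S, j)`, `j ∈ J`, are identified have equal
truth values. -/
def Blind {X : Type} {M : ℕ} (S : X) (J : Finset (Fin M)) : GF (X × Fin M) → Prop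
  | var x => ¬ (x.1 = S ∧ x.2 ∈ J)
  | cst _ => True
  | neg a => Blind S J a
  | bin _ a b => Blind S J a ∧ Blind S J b
  | gate k g f => ∀ b b' : Fin k → Bool,
      (∀ i i', glue S J (f i) = glue S J (f i') → b i = b i' ∧ b' i = b' i') →
      (∀ i, Blind S J (f i) → b i = b' i) → g b = g b'

open Classical in
/-- the number of different `S` such that some variable `(S, j)` occurs in the formula -/
noncomputable def scope {X : Type} {M : ℕ} (a : GF (X × Fin M)) : ℕ :=
  ((vars a).image Prod.fst).card

/-- Depth below a connective of the kind `r` (`some none` is the negation, `some (some c)` is
`bin c`, `none` means: no connective, or another connective), where consecutive negations,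
consecutive disjunctions and consecutive conjunctions are merged, and where subformulas of scope
at most `m`, as well as subformulas whose outermost connective is a `gate`, count as depth `0`. -/
noncomputable def cdpt {X : Type} {M : ℕ} (m : ℕ) : Option (Option Bool) → GF (X × Fin M) → ℕ
  | _, var _ => 0
  | _, cst _ => 0
  | r, neg a => if scope (neg a) ≤ m then 0 else
      (if r = some none then 0 else 1) + cdpt m (some none) a
  | r, bin c a b => if scope (bin c a b) ≤ m then 0 else
      (if r = some (some c) then 0 else 1) +
        max (cdpt m (some (some c)) a) (cdpt m (some (some c)) b)
  | _, gate _ _ _ => 0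

/-- depth, with consecutive connectives of the same kind merged and with subformulas of scope at
most `m` counted as depth `0` -/
noncomputable def cdepth {X : Type} {M : ℕ} (m : ℕ) (a : GF (X × Fin M)) : ℕ := cdpt m none a

/-- The variables `(S, j)` that contain the point `u`: pairs of a `q`-element set `S ∋ u` and the
number `j` of a copy. -/
def star {q n : ℕ} (M : ℕ) (u : Fin n) : Finset ({S : Finset (Fin n) // S.card = q} × Fin M) :=
  Finset.univ.filter fun x => u ∈ x.1.1

/-- Multiple counting: it is impossible to choose some of the `M` copies of each of the `q`-element
subsets of `{0,...,n-1}` so that each point lies in exactly `P` chosen copies. The formula is the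
disjunction of: for some `u` no `P` different copies of sets containing `u` are all chosen; for
some `u` some `P + 1` different copies of sets containing `u` are all chosen. -/
noncomputable def foldTaut (q P n M : ℕ) : GF ({S : Finset (Fin n) // S.card = q} × Fin M) :=
  bin true
    (disj ((Finset.univ : Finset (Fin n)).toList.map fun u =>
      neg (disj ((Finset.powersetCard P (star M u)).toList.map fun A =>
        conj (A.toList.map var)))))
    (disj ((Finset.univ : Finset (Fin n)).toList.map fun u =>
      disj ((Finset.powersetCard (P + 1) (star M u)).toList.map fun A =>
        conj (A.toList.map var))))

end GF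

end Pool.Agent.Work.MP_c04246_lc
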