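import Mathlib
import Pool.Agent.Work.MP_c04246_lc.TDefs
import Pool.Agent.Work.MP_c04246_lc.LFinal

set_option autoImplicit false
set_option linter.unusedSectionVars false
set_option linter.unusedSimpArgs false
set_option linter.unusedVariables false

namespace Pool.Agent.Work.MP_c04246_lc

open Finset

namespace GF

section sub

variable {V W X : Type}

lemma eval_sub (s : V → GF W) (v : W → Bool) (a : GF V) :
    eval v (sub s a) = eval (fun x => eval v (s x)) a := by
  induction a with
  | var x => rfl
  | cst b => rfl
  | neg a ih => simp only [sub, eval, ih]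
  | bin c a b iha ihb => simp only [sub, eval, iha, ihb]
  | gate k g f ih => simp only [sub, eval]; congr 1; funext j; exact ih j

lemma sub_sub (s : W → GF X) (t : V → GF W) (a : GF V) :
    sub s (sub t a) = sub (fun x => sub s (t x)) a := by
  induction a with
  | var x => rfl
  | cst b => rfl
  | neg a ih => simp only [sub, ih]
  | bin c a b iha ihb => simp only [sub, iha, ihb]
  | gate k g f ih => simp only [sub]; congr 1; funext j; exact ih j

lemma mem_vars_sub (s : V → GF W) (a : GF V) (y : W) :
    y ∈ vars (sub s a) ↔ ∃ x ∈ vars a, y ∈ vars (s x) := by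
  classical
  induction a with
  | var x => simp [sub, vars]
  | cst b => simp [sub, vars]
  | neg a ih => simpa only [sub, vars] using ih
  | bin c a b iha ihb =>
    simp only [sub, vars, mem_union, iha, ihb]
    constructor
    · rintro (⟨x, hx, hy⟩ | ⟨x, hx, hy⟩)
      · exact ⟨x, Or.inl hx, hy⟩
      · exact ⟨x, Or.inr hx, hy⟩
    · rintro ⟨x, hx | hx, hy⟩
      · exact Or.inl ⟨x, hx, hy⟩
      · exact Or.inr ⟨x, hx, hy⟩
  | gate k g f ih =>
    simp only [sub, vars, mem_biUnion, mem_univ, true_and, ih]
    constructor
    · rintro ⟨j, x, hx, hy⟩; exact ⟨x, ⟨j, hx⟩, hy⟩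
    · rintro ⟨x, ⟨j, hx⟩, hy⟩; exact ⟨j, x, hx, hy⟩

lemma card_vars_sub {s : V → GF W} (hs : ∀ x, (vars (s x)).card ≤ 1) (a : GF V) :
    (vars (sub s a)).card ≤ (vars a).card := by
  classical
  have h : vars (sub s a) ⊆ (vars a).biUnion fun x => vars (s x) := by
    intro y hy
    rw [mem_vars_sub] at hy
    obtain ⟨x, hx, hy⟩ := hy
    exact mem_biUnion.mpr ⟨x, hx, hy⟩
  refine (card_le_card h).trans ((card_biUnion_le_card_mul _ _ 1 fun x _ => hs x).trans ?_)
  rw [mul_one]

/-- a variable or a constant -/
def Atom (a : GF V) : Prop := (∃ x, a = var x) ∨ ∃ b, a = cst b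

lemma Atom.vars_le {a : GF V} (h : Atom a) : (vars a).card ≤ 1 := by
  classical
  rcases h with ⟨x, rfl⟩ | ⟨b, rfl⟩ <;> simp [vars]

lemma size_sub {s : V → GF W} (hs : ∀ x, Atom (s x)) (a : GF V) : size (sub s a) ≤ size a := by
  induction a with
  | var x => rcases hs x with ⟨y, h⟩ | ⟨b, h⟩ <;> simp [sub, h, size]
  | cst b => exact le_rfl
  | neg a ih => simp only [sub, size]; omega
  | bin c a b iha ihb => simp only [sub, size]; omega
  | gate k g f ih =>
    simp only [sub, size]
    exact Nat.succ_le_succ (sum_le_sum fun j _ => ih j)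

end sub

section red

variable {V W : Type}

/-- The truth function of the gate does not depend on the arguments containing `x`, as long as
equal arguments have equal truth values. -/
def FB (x : V) (k : ℕ) (g : (Fin k → Bool) → Bool) (f : Fin k → GF V) : Prop :=
  ∀ b b' : Fin k → Bool, (∀ i i', f i = f i' → b i = b i' ∧ b' i = b' i') →
    (∀ i, x ∉ vars (f i) → b i = b' i) → g b = g b'

open Classical in
/-- the variables on which the gate may depend -/
noncomputable def EG (k : ℕ) (g : (Fin k → Bool) → Bool) (f : Fin k → GF V) : Finset V :=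
  (vars (gate k g f)).filter fun x => ¬ FB x k g f

open Classical in
/-- the arguments on which a gate does not depend are removed -/
noncomputable def red : GF V → GF V
  | var x => var x
  | cst b => cst b
  | neg a => neg (red a)
  | bin c a b => bin c (red a) (red b)
  | gate k g f => gate k g fun i =>
      if vars (red (f i)) ⊆ EG k g (fun i => red (f i)) then red (f i) else cst false

lemma FB_finset {k : ℕ} {g : (Fin k → Bool) → Bool} {f : Fin k → GF V} (B : Finset V) :
    (∀ x ∈ B, FB x k g f) → ∀ b b' : Fin k → Bool,
      (∀ i i', f i = f i' → b i = b i' ∧ b' i = b' i') →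
      (∀ i, (∀ x ∈ B, x ∉ vars (f i)) → b i = b' i) → g b = g b' := by
  classical
  induction B using Finset.induction_on with
  | empty =>
    intro _ b b' _ h
    congr 1
    funext i
    exact h i (by simp)
  | insert x B hx ih =>
    intro hB b b' hc h
    have h1 : g b = g fun i => if x ∈ vars (f i) then b' i else b i := by
      refine hB x (mem_insert_self _ _) b _ ?_ ?_
      · intro i i' hi
        refine ⟨(hc i i' hi).1, ?_⟩
        simp only [hi, (hc i i' hi).1, (hc i i' hi).2]
      · intro i hi
        simp only [if_neg hi]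
    rw [h1]
    refine ih (fun y hy => hB y (mem_insert_of_mem hy)) _ _ ?_ ?_
    · intro i i' hi
      refine ⟨?_, (hc i i' hi).2⟩
      simp only [hi, (hc i i' hi).1, (hc i i' hi).2]
    · intro i hi
      by_cases hxi : x ∈ vars (f i)
      · simp only [if_pos hxi]
      · simp only [if_neg hxi]
        refine h i ?_
        intro y hy
        rcases mem_insert.mp hy with rfl | hy
        · exact hxi
        · exact hi y hy

lemma FB_all {k : ℕ} {g : (Fin k → Bool) → Bool} {f : Fin k → GF V} (b b' : Fin k → Bool)
    (hc : ∀ i i', f i = f i' → b i = b i' ∧ b' i = b' i')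
    (h : ∀ i, vars (f i) ⊆ EG k g f → b i = b' i) : g b = g b' := by
  classical
  refine FB_finset ((vars (gate k g f)).filter fun x => FB x k g f)
    (fun x hx => (mem_filter.mp hx).2) b b' hc ?_
  intro i hi
  apply h
  intro x hx
  have hx' : x ∈ vars (gate k g f) := by
    simp only [vars, mem_biUnion, mem_univ, true_and]; exact ⟨i, hx⟩
  unfold EG
  rw [mem_filter]
  refine ⟨hx', fun hF => ?_⟩
  exact hi x (mem_filter.mpr ⟨hx', hF⟩) hx

lemma vars_red (a : GF V) : vars (red a) ⊆ vars a := by
  classical
  induction a with
  | var x => exact Subset.rfl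
  | cst b => exact Subset.rfl
  | neg a ih => exact ih
  | bin c a b iha ihb => exact union_subset_union iha ihb
  | gate k g f ih =>
    intro x hx
    simp only [red, vars, mem_biUnion, mem_univ, true_and] at hx ⊢
    obtain ⟨i, hi⟩ := hx
    split_ifs at hi with h
    · exact ⟨i, ih i hi⟩
    · simp [vars] at hi

lemma vars_red_gate (k : ℕ) (g : (Fin k → Bool) → Bool) (f : Fin k → GF V) :
    vars (red (gate k g f)) ⊆ EG k g fun i => red (f i) := by
  classical
  intro x hx
  simp only [red, vars, mem_biUnion, mem_univ, true_and] at hx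
  obtain ⟨i, hi⟩ := hx
  split_ifs at hi with h
  · exact h hi
  · simp [vars] at hi

lemma size_pos (a : GF V) : 1 ≤ size a := by
  cases a <;> simp only [size] <;> omega

lemma size_red (a : GF V) : size (red a) ≤ size a := by
  classical
  induction a with
  | var x => exact le_rfl
  | cst b => exact le_rfl
  | neg a ih => simp only [red, size]; omega
  | bin c a b iha ihb => simp only [red, size]; omega
  | gate k g f ih =>
    simp only [red, size]
    refine Nat.succ_le_succ (sum_le_sum fun j _ => ?_)
    split_ifs
    · exact ih j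
    · exact size_pos _

lemma red_atom {a : GF V} (h : Atom a) : red a = a := by
  rcases h with ⟨x, rfl⟩ | ⟨b, rfl⟩ <;> rfl

end red

section tr

variable {V W : Type} {s : V → GF W}

/-- substitution followed by the removal of irrelevant arguments -/
noncomputable def tr (s : V → GF W) (a : GF V) : GF W := red (sub s a)

lemma tr_var (hs : ∀ x, Atom (s x)) (x : V) : tr s (var x) = s x := red_atom (hs x)

lemma card_vars_tr (hs : ∀ x, Atom (s x)) (a : GF V) : (vars (tr s a)).card ≤ (vars a).card :=
  (card_le_card (vars_red _)).trans (card_vars_sub (fun x => (hs x).vars_le) a)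

lemma size_tr (hs : ∀ x, Atom (s x)) (a : GF V) : size (tr s a) ≤ size a :=
  (size_red _).trans (size_sub hs a)

lemma resp_tr {v : GF W → Bool} {c : GF V} (h : Resp v (tr s c)) :
    Resp (fun a => v (tr s a)) c := by
  classical
  cases c with
  | var x => trivial
  | cst b => exact h
  | neg a => exact h
  | bin c a b => exact h
  | gate k g f =>
    have h1 : v (tr s (gate k g f)) = g fun i => v (if vars (tr s (f i)) ⊆
        EG k g (fun i => tr s (f i)) then tr s (f i) else cst false) := h
    show v (tr s (gate k g f)) = g fun i => v (tr s (f i))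
    rw [h1]
    refine FB_all (f := fun i => tr s (f i)) _ _ ?_ ?_
    · intro i i' hi
      have hi' : tr s (f i) = tr s (f i') := hi
      simp only [hi', and_self]
    · intro i hi
      exact congrArg v (if_pos hi)

lemma subs_atom {a : GF V} (h : Atom a) : subs a = {a} := by
  classical
  rcases h with ⟨x, rfl⟩ | ⟨b, rfl⟩ <;> simp [subs]

lemma subs_tr (hs : ∀ x, Atom (s x)) (a : GF V) :
    ∀ c ∈ subs (tr s a), c = cst false ∨ ∃ c' ∈ subs a, c = tr s c' := by
  classical
  induction a with
  | var x =>
    intro c hc
    rw [tr_var hs, subs_atom (hs x), mem_singleton] at hc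
    exact Or.inr ⟨var x, subs_self _, by rw [tr_var hs, hc]⟩
  | cst b =>
    intro c hc
    have : c = cst b := by simpa [tr, sub, red, subs] using hc
    exact Or.inr ⟨cst b, subs_self _, this⟩
  | neg a ih =>
    intro c hc
    have hc' : c ∈ insert (tr s (neg a)) (subs (tr s a)) := hc
    rcases mem_insert.mp hc' with h | h
    · exact Or.inr ⟨neg a, subs_self _, h⟩
    · rcases ih c h with h | ⟨c', h1, h2⟩
      · exact Or.inl h
      · exact Or.inr ⟨c', subs_neg _ h1, h2⟩
  | bin e a b iha ihb =>
    intro c hc
    have hc' : c ∈ insert (tr s (bin e a b)) (subs (tr s a) ∪ subs (tr s b)) := hc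
    rcases mem_insert.mp hc' with h | h
    · exact Or.inr ⟨bin e a b, subs_self _, h⟩
    · rcases mem_union.mp h with h | h
      · rcases iha c h with h | ⟨c', h1, h2⟩
        · exact Or.inl h
        · exact Or.inr ⟨c', subs_bin_l _ _ _ h1, h2⟩
      · rcases ihb c h with h | ⟨c', h1, h2⟩
        · exact Or.inl h
        · exact Or.inr ⟨c', subs_bin_r _ _ _ h1, h2⟩
  | gate k g f ih =>
    intro c hc
    have hc' : c ∈ insert (tr s (gate k g f)) (Finset.univ.biUnion fun i =>
        subs (if vars (tr s (f i)) ⊆ EG k g (fun i => tr s (f i)) then tr s (f i)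
          else cst false)) := hc
    rcases mem_insert.mp hc' with h | h
    · exact Or.inr ⟨gate k g f, subs_self _, h⟩
    · obtain ⟨i, _, hi⟩ := mem_biUnion.mp h
      split_ifs at hi
      · rcases ih i c hi with h | ⟨c', h1, h2⟩
        · exact Or.inl h
        · exact Or.inr ⟨c', subs_gate k g f i h1, h2⟩
      · left; simpa [subs] using hi

lemma gate_tr (hs : ∀ x, Atom (s x)) {a : GF V} {k : ℕ} {g : (Fin k → Bool) → Bool}
    {f : Fin k → GF W} (h : tr s a = gate k g f) : ∃ f' : Fin k → GF V, a = gate k g f' := by
  cases a with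
  | var x =>
    rw [tr_var hs] at h
    rcases hs x with ⟨y, h'⟩ | ⟨b, h'⟩ <;> rw [h'] at h <;> cases h
  | cst b => cases h
  | neg a => cases h
  | bin c a b => cases h
  | gate k' g' f' =>
    simp only [tr, sub, red] at h
    injection h with h1 h2 h3
    subst h1
    have h2' := eq_of_heq h2
    subst h2'
    exact ⟨f', rfl⟩

end tr

section lanes

variable {X : Type} {M : ℕ}

open Classical in
/-- the substitution which keeps the copies `j ∈ J S` of `S` -/
noncomputable def th (J : X → Finset (Fin M)) (x : X × Fin M) : GF X :=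
  if x.2 ∈ J x.1 then var x.1 else cst false

lemma atom_th (J : X → Finset (Fin M)) (x : X × Fin M) : Atom (th J x) := by
  unfold th
  split_ifs
  · exact Or.inl ⟨_, rfl⟩
  · exact Or.inr ⟨_, rfl⟩

open Classical in
lemma th_glue (J : X → Finset (Fin M)) (S : X) (a : GF (X × Fin M)) :
    sub (fun y : X × Option (Fin M) => match y.2 with
      | none => var y.1
      | some j => if j ∈ J y.1 then var y.1 else cst false) (glue S (J S) a) = sub (th J) a := by
  unfold glue
  rw [sub_sub]
  congr 1
  funext x
  by_cases h : x.1 = S ∧ x.2 ∈ J S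
  · simp only [sub, if_pos h]
    unfold th
    rw [if_pos]
    rw [h.1]; exact h.2
  · simp only [sub, if_neg h]
    rfl

lemma mem_vars_th (J : X → Finset (Fin M)) (S : X) (a : GF (X × Fin M)) :
    S ∈ vars (sub (th J) a) ↔ ∃ j ∈ J S, (S, j) ∈ vars a := by
  classical
  rw [mem_vars_sub]
  constructor
  · rintro ⟨x, hx, hS⟩
    unfold th at hS
    split_ifs at hS with h
    · simp only [vars, mem_singleton] at hS
      subst hS
      exact ⟨x.2, h, hx⟩
    · simp [vars] at hS
  · rintro ⟨j, hj, hx⟩
    refine ⟨(S, j), hx, ?_⟩
    unfold th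
    rw [if_pos (show (S, j).2 ∈ J (S, j).1 from hj)]
    simp [vars]

/-- a blind formula loses the variable -/
lemma not_mem_of_blind {J : X → Finset (Fin M)} {S : X} (a : GF (X × Fin M)) :
    Blind S (J S) a → S ∉ vars (tr (th J) a) := by
  classical
  induction a with
  | var x =>
    intro h hS
    rw [tr_var (atom_th J)] at hS
    unfold th at hS
    split_ifs at hS with hx
    · simp only [vars, mem_singleton] at hS
      subst hS
      exact h ⟨rfl, hx⟩
    · simp [vars] at hS
  | cst b => intro _ hS; simp [tr, sub, red, vars] at hS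
  | neg a ih => exact ih
  | bin c a b iha ihb =>
    intro h hS
    have hS' : S ∈ vars (tr (th J) a) ∪ vars (tr (th J) b) := hS
    rcases mem_union.mp hS' with h1 | h1
    · exact iha h.1 h1
    · exact ihb h.2 h1
  | gate k g f ih =>
    intro h hS
    have h1 : S ∈ EG k g fun i => tr (th J) (f i) :=
      vars_red_gate k g (fun i => sub (th J) (f i)) hS
    unfold EG at h1
    refine (mem_filter.mp h1).2 ?_
    intro b b' hc hv
    refine h b b' ?_ ?_
    · intro i i' hi
      apply hc
      show red _ = red _
      rw [← th_glue J S (f i), ← th_glue J S (f i'), hi]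
    · intro i hi
      exact hv i (ih i hi)

lemma vars_tr_sub_image (J : X → Finset (Fin M)) (a : GF (X × Fin M)) [DecidableEq X] :
    vars (tr (th J) a) ⊆ (vars a).image Prod.fst := by
  intro S hS
  have h1 := (mem_vars_th J S a).mp (vars_red _ hS)
  obtain ⟨j, _, hj⟩ := h1
  exact mem_image.mpr ⟨_, hj, rfl⟩

lemma card_vars_tr_th (J : X → Finset (Fin M)) (a : GF (X × Fin M)) :
    (vars (tr (th J) a)).card ≤ scope a := by
  classical
  unfold scope
  refine (card_le_card (vars_tr_sub_image J a)).trans (le_of_eq ?_)
  congr

lemma dpt_tr {m m' : ℕ} (hm : m ≤ m') (J : X → Finset (Fin M)) (a : GF (X × Fin M)) :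
    ∀ r : Option (Option Bool), dpt m' r (tr (th J) a) ≤ cdpt m r a := by
  classical
  have hs := atom_th J
  have hsmall : ∀ (a : GF (X × Fin M)) (r : Option (Option Bool)), scope a ≤ m →
      dpt m' r (tr (th J) a) = 0 := by
    intro a r h
    exact dpt_small ((card_vars_tr_th J a).trans (h.trans hm)) r
  induction a with
  | var x =>
    intro r
    rw [tr_var hs]
    rcases hs x with ⟨y, h'⟩ | ⟨b, h'⟩ <;> rw [h'] <;> simp [dpt]
  | cst b => intro r; simp [tr, sub, red, dpt]
  | neg a ih =>
    intro r
    by_cases h : scope (neg a) ≤ m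
    · rw [hsmall _ _ h]; exact Nat.zero_le _
    · have h1 : tr (th J) (neg a) = neg (tr (th J) a) := rfl
      have h2 := ih (some none)
      rw [h1]
      simp only [dpt, cdpt, if_neg h]
      split_ifs <;> omega
  | bin c a b iha ihb =>
    intro r
    by_cases h : scope (bin c a b) ≤ m
    · rw [hsmall _ _ h]; exact Nat.zero_le _
    · have h1 : tr (th J) (bin c a b) = bin c (tr (th J) a) (tr (th J) b) := rfl
      have h2 := iha (some (some c))
      have h3 := ihb (some (some c))
      rw [h1]
      simp only [dpt, cdpt, if_neg h]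
      split_ifs <;> omega
  | gate k g f ih => intro r; simp [tr, sub, red, dpt]

lemma cdpt_le_dpt (m : ℕ) (a : GF (X × Fin M)) :
    ∀ r : Option (Option Bool), cdpt m r a ≤ dpt m r a := by
  classical
  have hsc : ∀ a : GF (X × Fin M), scope a ≤ (vars a).card := by
    intro a
    unfold scope
    exact card_image_le
  induction a with
  | var x => intro r; simp [cdpt]
  | cst b => intro r; simp [cdpt]
  | neg a ih =>
    intro r
    have h1 := hsc (neg a)
    have h2 := ih (some none)
    simp only [dpt, cdpt]
    split_ifs <;> omega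
  | bin c a b iha ihb =>
    intro r
    have h1 := hsc (bin c a b)
    have h2 := iha (some (some c))
    have h3 := ihb (some (some c))
    simp only [dpt, cdpt]
    split_ifs <;> omega
  | gate k g f ih => intro r; simp [cdpt]

end lanes

end GF

end Pool.Agent.Work.MP_c04246_lc
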