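import Mathlib
import Pool.Agent.Work.MP_c04246_lc.TSub
import Pool.Agent.Work.MP_c04246_lc.LMain

set_option autoImplicit false
set_option linter.unusedSectionVars false
set_option linter.unusedSimpArgs false
set_option linter.unusedVariables false

namespace Pool.Agent.Work.MP_c04246_lc

open Finset

namespace GF

section sound

variable {q m : ℕ} {U : Type} [DecidableEq U] [Fintype U] {ρ : ℕ → Finset (Finset U)} {κ : ℕ → ℕ}

lemma sound_step2 (hq : 0 < q) {d L : ℕ} {Γ : Finset (GF (Vr q U))} (hρPP : PP q (ρ d))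
    (hmono : ∀ j ≤ d, ρ j ⊆ ρ d) (hκm : Monotone κ)
    (hG : ∀ a ∈ Γ, glv m none a ≤ d ∧ GG m q ρ κ a)
    (hgate : ∀ (k : ℕ) (g : (Fin k → Bool) → Bool) (f : Fin k → GF (Vr q U)),
      gate k g f ∈ Γ → (vars (gate k g f)).card ≤ m)
    (hsub : ∀ a ∈ Γ, subs a ⊆ Γ)
    (hroom : q * κ d + q * ((4 * L + 1) * κ d) ≤ nun (ρ d))
    {P C : Finset (GF (Vr q U))} {a : GF (Vr q U)} (hPc : P.card ≤ L) (hC : C.card ≤ L)
    (hCΓ : ∀ c ∈ C, c ∈ Γ)
    (himp : ∀ v : GF (Vr q U) → Bool, (∀ c ∈ C, Resp v c) → (∀ b ∈ P, v b = true) → v a = true)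
    (haΓ : a ∈ Γ) (hPΓ : ∀ b ∈ P, b ∈ Γ) (hP : ∀ b ∈ P, Tr m q ρ κ d b) : Tr m q ρ κ d a := by
  classical
  intro τ hτ hρτ hfalse
  obtain ⟨t, ht, htτ⟩ := hfalse
  have htS := mem_Sm_of_GC a _ _ ht
  have hlva : glv m none a ≤ d := (hG a haΓ).1
  set τ0 := t ∪ ρ d with hτ0
  have hτ0τ : τ0 ⊆ τ := union_subset htτ hρτ
  have hτ0PP : PP q τ0 := hτ.mono hτ0τ
  have hn0 : q * ((4 * L + 1) * κ d) ≤ nun τ0 := by
    have h1 := nun_add hτ0PP
    have h2 := nun_add hρPP
    have h3 : τ0.card ≤ (ρ d).card + κ d := by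
      have h4 : τ0 ⊆ ρ d ∪ (t \ ρ d) := by
        intro x hx
        rcases mem_union.mp hx with h | h
        · by_cases hxd : x ∈ ρ d
          · exact mem_union_left _ hxd
          · exact mem_union_right _ (mem_sdiff.mpr ⟨h, hxd⟩)
        · exact mem_union_left _ h
      have h5 : (t \ ρ d).card ≤ κ d :=
        (card_le_card (sdiff_subset_sdiff Subset.rfl (hmono _ hlva))).trans
          (htS.2.2.trans (hκm hlva))
      exact (card_le_card h4).trans ((card_union_le _ _).trans (by omega))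
    have h6 : q * τ0.card ≤ q * (ρ d).card + q * κ d := by
      rw [← mul_add]; exact Nat.mul_le_mul_left _ h3
    omega
  set F := (C.biUnion gnd ∪ P) ∪ {a} with hF
  have hFΓ : F ⊆ Γ := by
    intro x hx
    rcases mem_union.mp hx with hx | hx
    · rcases mem_union.mp hx with hx | hx
      · obtain ⟨c, hc, hxc⟩ := mem_biUnion.mp hx
        exact hsub c (hCΓ c hc) (gnd_sub c hxc)
      · exact hPΓ x hx
    · rw [mem_singleton] at hx; rw [hx]; exact haΓ
  have hFc : F.card ≤ 4 * L + 1 := by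
    have h1 : (C.biUnion gnd).card ≤ C.card * 3 :=
      card_biUnion_le_card_mul _ _ _ fun c _ => card_gnd c
    have h2 := card_union_le (C.biUnion gnd ∪ P) {a}
    have h3 := card_union_le (C.biUnion gnd) P
    rw [card_singleton] at h2
    rw [← hF] at h2
    omega
  obtain ⟨τ', hs, hPP', hall⟩ := run_all hq hmono hκm hG F hFΓ τ0 hτ0PP subset_union_right
    (le_trans (Nat.mul_le_mul_left _ (Nat.mul_le_mul_right _ hFc)) hn0)
  have hρτ' : ρ d ⊆ τ' := subset_union_right.trans hs
  have h1 : wv m q ρ κ τ' a = true := by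
    apply himp
    · intro c hc
      refine resp_wv hPP' (fun b hb => hall b ?_) ?_
      · exact mem_union_left _ (mem_union_left _ (mem_biUnion.mpr ⟨c, hc, hb⟩))
      · rintro k g f rfl
        exact hgate k g f (hCΓ _ hc)
    · intro b hb
      obtain ⟨e, he⟩ := hall b (mem_union_left _ (mem_union_right _ hb))
      cases e with
      | true => exact wv_eq hPP' he
      | false => exact absurd he (hP b hb τ' hPP' hρτ')
  have h2 : wv m q ρ κ τ' a = false :=
    wv_eq hPP' ⟨t, ht, subset_union_left.trans hs⟩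
  rw [h1] at h2
  exact Bool.noConfusion h2

end sound

section core

variable {q n : ℕ}

/-- The lower bound argument for a closed set `Γ` of formulas. -/
theorem lcore2 (hq2 : 2 ≤ q) {w D n' m t E s : ℕ} {κ N : ℕ → ℕ}
    (hPF : ParamFacts q w D n' t E s κ N) (hw : 1 ≤ w) (hD : 1 ≤ D) (hm : 1 ≤ m)
    {r : ℕ} (hmod : n = n' + q * r) (hsp : 2 * (m * n' ^ q) ≤ n ^ q) (hn : 0 < n)
    (hroom2 : q * κ D + q * ((4 * w + 1) * κ D) ≤ N D)
    {Γ : Finset (GF (Vr q (Fin n)))} (hΓcard : Γ.card ≤ 2 ^ w) (hsub : ∀ a ∈ Γ, subs a ⊆ Γ)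
    (hgate : ∀ (k : ℕ) (g : (Fin k → Bool) → Bool) (f : Fin k → GF (Vr q (Fin n))),
      gate k g f ∈ Γ → (vars (gate k g f)).card ≤ m)
    (hlev : ∀ a ∈ Γ, glv m none a ≤ D)
    {pi : List (GF (Vr q (Fin n)))} (hpiΓ : ∀ b ∈ pi, b ∈ Γ)
    (hpi : ∀ i : Fin pi.length, ∃ P C : Finset (GF (Vr q (Fin n))),
      (∀ b ∈ P, ∃ j : Fin pi.length, j < i ∧ pi.get j = b) ∧ P.card ≤ w ∧ C.card ≤ w ∧
      (∀ c ∈ C, c ∈ Γ) ∧ ∀ v : GF (Vr q (Fin n)) → Bool,
        (∀ c ∈ C, Resp v c) → (∀ b ∈ P, v b = true) → v (pi.get i) = true)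
    {X : GF (Vr q (Fin n))} (hc : X ∈ pi)
    (hX : ∀ ρ : ℕ → Finset (Finset (Fin n)), 1 ≤ κ 0 →
      (∀ i ≤ 1, ∀ τ ∈ Sm q ρ κ i, ρ 0 ⊆ τ ∧ q + 1 ≤ nun τ) → ∀ τ, ¬ Gd m q ρ κ X true τ) :
    False := by
  classical
  have hq0 : 0 < q := by omega
  have hclosed : GClosed Γ := by
    constructor
    · intro a ha
      exact hsub _ ha (subs_neg _ (subs_self _))
    · intro c a a' ha
      exact ⟨hsub _ ha (subs_bin_l _ _ _ (subs_self _)), hsub _ ha (subs_bin_r _ _ _ (subs_self _))⟩
  have hvars : ∀ a ∈ Γ, isL m a → (vars a).card ≤ m := by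
    intro a ha hl
    cases a with
    | var x => simpa [vars] using hm
    | cst b => simp [vars]
    | neg a => exact hl
    | bin c a b => exact hl
    | gate k g f => exact hgate k g f ha
  have h2w : 2 ^ w < 2 ^ (w + 1) := Nat.pow_lt_pow_right (by norm_num) (by omega)
  -- restriction of the universe
  obtain ⟨A, hAc, hA⟩ := exists_sparse_set (q := q) (U := Fin n) (Γ.filter (isL m))
    (fun a => (vars a).image Subtype.val) (m := m) (n' := n') (h := w + 1)
    (by
      intro a ha
      rw [mem_filter] at ha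
      exact card_image_le.trans (hvars a ha.1 ha.2))
    (by rw [Fintype.card_fin, hmod]; exact Nat.le_add_right _ _)
    (by rw [Fintype.card_fin]; exact hsp)
    (((card_filter_le _ _).trans hΓcard).trans_lt h2w) (by rw [Fintype.card_fin]; exact hn)
  obtain ⟨ρ0, hρ0PP, hρ0cov⟩ := exists_part hq0 r (univ \ A) (by
    rw [card_sdiff_of_subset (subset_univ A), card_univ, Fintype.card_fin, hAc, hmod]
    omega)
  have hρ0N : nun ρ0 = N 0 := by
    unfold nun
    rw [hρ0cov, Finset.sdiff_sdiff_eq_self (subset_univ A), hAc, hPF.hN0]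
  have hGL : ∀ a ∈ Γ, isL m a → GG m q (fun _ => ρ0) κ a := by
    intro a ha hl
    have hV : ∀ S ∈ (vars a).image Subtype.val, S.card = q := by
      intro S hS
      obtain ⟨T, _, rfl⟩ := mem_image.mp hS
      exact T.2
    obtain ⟨W, hW1, hW2⟩ := exists_transversal hq0 ((vars a).image Subtype.val) hV A
      (hA a (mem_filter.mpr ⟨ha, hl⟩))
    refine GG_of_transversal hl hρ0PP W ?_ ?_
    · refine hW1.trans (le_trans ?_ (hPF.hκa 0))
      exact Nat.mul_le_mul_left _ (by omega)
    · intro S hS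
      by_cases hSA : S.1 ⊆ A
      · exact Or.inr (hW2 S.1 (mem_image_of_mem _ hS) hSA)
      · left
        obtain ⟨u, hu, huA⟩ := not_subset.mp hSA
        exact ⟨u, by rw [hρ0cov]; exact mem_sdiff.mpr ⟨mem_univ _, huA⟩, hu⟩
  obtain ⟨ρ, hρ00, hρPP, hρm, hρN, hρG⟩ := exists_gcontexts hq0 hclosed (a0 := 2 * w) (d := D)
    (hΓcard.trans_lt (Nat.pow_lt_pow_right (by norm_num) (by omega))) hPF.hκ1 hPF.hκa hPF.hκm
    hρ0PP hρ0N hGL hPF.hN
    (fun i hi => hPF.h16 i hi) (fun i hi => hPF.hroom i hi) hPF.hN1 D le_rfl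
  have hmono : ∀ j ≤ D, ρ j ⊆ ρ D := fun j hj => hρm j D hj le_rfl
  have hG : ∀ a ∈ Γ, glv m none a ≤ D ∧ GG m q ρ κ a := fun a ha =>
    ⟨hlev a ha, hρG a ha (hlev a ha)⟩
  have hND : nun (ρ D) = N D := hρN D le_rfl
  have hTr : ∀ k : ℕ, ∀ (hk : k < pi.length), Tr m q ρ κ D (pi.get ⟨k, hk⟩) := by
    intro k
    induction k using Nat.strong_induction_on with
    | _ k ih =>
      intro hk
      obtain ⟨P, C, hPj, hPc, hCc, hCΓ, himp⟩ := hpi ⟨k, hk⟩
      refine sound_step2 hq0 (hρPP D le_rfl) hmono hPF.hκm hG hgate hsub (L := w)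
        (by rw [hND]; exact hroom2) hPc hCc hCΓ himp (hpiΓ _ (List.get_mem _ _)) ?_ ?_
      · intro b hb
        obtain ⟨j, _, rfl⟩ := hPj b hb
        exact hpiΓ _ (List.get_mem _ _)
      · intro b hb
        obtain ⟨j, hj, rfl⟩ := hPj b hb
        exact ih j.1 hj j.2
  have hTc : Tr m q ρ κ D X := by
    obtain ⟨i, hi⟩ := List.get_of_mem hc
    rw [← hi]
    exact hTr i.1 i.2
  have hcΓ : X ∈ Γ := hpiΓ _ hc
  have hroom3 : q * κ D ≤ N D := le_trans (Nat.le_add_right _ _) hroom2
  obtain ⟨τ', hs, hPP', hall⟩ := run_all hq0 hmono hPF.hκm hG {X}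
    (singleton_subset_iff.mpr hcΓ) (ρ D) (hρPP D le_rfl) Subset.rfl (by
      rw [card_singleton, one_mul, hND]; exact hroom3)
  obtain ⟨e, he⟩ := hall _ (mem_singleton_self _)
  cases e with
  | false => exact hTc τ' hPP' hs he
  | true =>
    refine hX ρ (hPF.hκ1 0) ?_ τ' he
    intro i hi τ hτ
    have hiD : i ≤ D := hi.trans hD
    refine ⟨(hρm 0 i (Nat.zero_le _) hiD).trans hτ.2.1, ?_⟩
    have h1 := nun_add hτ.1
    have h2 := nun_add (hρPP i hiD)
    have h3 : τ.card ≤ (ρ i).card + κ i := by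
      have h4 := card_sdiff_add_card_eq_card hτ.2.1
      have h5 := hτ.2.2
      omega
    have h6 : q * τ.card ≤ q * (ρ i).card + q * κ i := by
      rw [← mul_add]; exact Nat.mul_le_mul_left _ h3
    have h7 := hPF.hroom' i hiD
    have h8 := hρN i hiD
    omega

end core

section lists

variable {V W : Type}

lemma disj_cons (a : GF V) (l : List (GF V)) : disj (a :: l) = bin true a (disj l) := rfl

lemma conj_cons (a : GF V) (l : List (GF V)) : conj (a :: l) = bin false a (conj l) := rfl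

lemma tr_disj (s : V → GF W) (l : List (GF V)) : tr s (disj l) = disj (l.map (tr s)) := by
  induction l with
  | nil => rfl
  | cons a l ih => rw [disj_cons, List.map_cons, disj_cons, ← ih]; rfl

lemma tr_conj (s : V → GF W) (l : List (GF V)) : tr s (conj l) = conj (l.map (tr s)) := by
  induction l with
  | nil => rfl
  | cons a l ih => rw [conj_cons, List.map_cons, conj_cons, ← ih]; rfl

lemma mem_vars_disj' {l : List (GF V)} {x : V} (h : x ∈ vars (disj l)) : ∃ a ∈ l, x ∈ vars a := by
  classical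
  induction l with
  | nil => simp [disj, vars] at h
  | cons a l ih =>
    rw [disj_cons] at h
    simp only [vars, mem_union] at h
    rcases h with h | h
    · exact ⟨a, by simp, h⟩
    · obtain ⟨b, hb, hx⟩ := ih h
      exact ⟨b, by simp [hb], hx⟩

lemma mem_vars_conj {l : List (GF V)} {x : V} : x ∈ vars (conj l) ↔ ∃ a ∈ l, x ∈ vars a := by
  classical
  induction l with
  | nil => simp [conj, vars]
  | cons a l ih =>
    rw [conj_cons]
    simp only [vars, mem_union, ih, List.mem_cons, exists_eq_or_imp]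

lemma mem_vars_disj {l : List (GF V)} {x : V} : x ∈ vars (disj l) ↔ ∃ a ∈ l, x ∈ vars a := by
  classical
  induction l with
  | nil => simp [disj, vars]
  | cons a l ih =>
    rw [disj_cons]
    simp only [vars, mem_union, ih, List.mem_cons, exists_eq_or_imp]

lemma card_vars_conj {l : List (GF V)} (h : ∀ a ∈ l, (vars a).card ≤ 1) :
    (vars (conj l)).card ≤ l.length := by
  classical
  induction l with
  | nil => simp [conj, vars]
  | cons a l ih =>
    rw [conj_cons]
    simp only [vars, List.length_cons]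
    have h1 := card_union_le (vars a) (vars (conj l))
    have h2 := h a (by simp)
    have h3 := ih fun b hb => h b (by simp [hb])
    omega

lemma eval_conj (v : V → Bool) (l : List (GF V)) :
    eval v (conj l) = true ↔ ∀ a ∈ l, eval v a = true := by
  induction l with
  | nil => simp [conj, eval]
  | cons a l ih =>
    rw [conj_cons]
    simp only [eval, Bool.false_eq_true, if_false, Bool.and_eq_true, ih, List.mem_cons,
      forall_eq_or_imp]

lemma eval_th {X : Type} {M : ℕ} (J : X → Finset (Fin M)) (v : X → Bool) (x : X × Fin M) :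
    eval v (th J x) = true ↔ x.2 ∈ J x.1 ∧ v x.1 = true := by
  unfold th
  split_ifs with h
  · simp [eval, h]
  · simp [eval, h]

end lists

section fold

variable {q n m : ℕ} {ρ : ℕ → Finset (Finset (Fin n))} {κ : ℕ → ℕ}

/-- a single part satisfies a disjunction of local formulas through a common point -/
lemma single_mem' {u : Fin n} (l : List (GF (Vr q (Fin n))))
    (hl : ∀ a ∈ l, isL m a ∧ ∀ S ∈ vars a, u ∈ S.1)
    {S0 : Vr q (Fin n)} (hu : u ∈ S0.1) (hSm : ({S0.1} ∪ ρ 0) ∈ Sm q ρ κ 0)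
    {a0 : GF (Vr q (Fin n))} (ha0 : a0 ∈ l) (hev : eval (wa ({S0.1} ∪ ρ 0)) a0 = true) :
    ({S0.1} ∪ ρ 0) ∈ (GC m q ρ κ (disj l)).2 true := by
  have hdcd : ∀ S : Vr q (Fin n), u ∈ S.1 → Dcd ({S0.1} ∪ ρ 0) S := by
    intro S hS
    by_cases h : S0.1 = S.1
    · left; rw [← h]; simp
    · right
      refine ⟨S0.1, by simp, h, ?_⟩
      rw [not_disjoint_iff]
      exact ⟨u, hu, hS⟩
  induction l with
  | nil => simp at ha0
  | cons a l ih =>
    by_cases hL : isL m (disj (a :: l))
    · rw [GC_isL hL]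
      refine ⟨hSm, ?_, ?_⟩
      · intro S' hS'
        obtain ⟨b, hb, hSb⟩ := mem_vars_disj.mp hS'
        exact hdcd S' ((hl b hb).2 S' hSb)
      · rw [eval_disj]
        exact ⟨a0, ha0, hev⟩
    · rw [disj_cons] at hL ⊢
      rw [GC_bin hL]
      simp only [if_true]
      rcases List.mem_cons.mp ha0 with h | h
      · left
        subst h
        rw [GC_isL (hl a0 (by simp)).1]
        exact ⟨hSm, fun S' hS' => hdcd S' ((hl a0 (by simp)).2 S' hS'), hev⟩
      · right
        exact ih (fun b hb => hl b (by simp [hb])) h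

lemma glv_disj (l : List (GF (Vr q (Fin n)))) (hl : ∀ a ∈ l, isL m a) :
    glv m (some true) (disj l) = 0 := by
  induction l with
  | nil => rfl
  | cons a l ih =>
    rw [disj_cons]
    simp only [glv, if_true, zero_add, ih (fun b hb => hl b (by simp [hb])),
      glv_isL (hl a (by simp)), max_self, ite_self]

lemma tr_foldTaut {P M : ℕ} (J : Vr q (Fin n) → Finset (Fin M)) :
    tr (th J) (foldTaut q P n M) = bin true
      (disj ((Finset.univ : Finset (Fin n)).toList.map fun u =>
        neg (disj ((Finset.powersetCard P (star M u)).toList.map fun A =>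
          conj (A.toList.map (th J))))))
      (disj ((Finset.univ : Finset (Fin n)).toList.map fun u =>
        disj ((Finset.powersetCard (P + 1) (star M u)).toList.map fun A =>
          conj (A.toList.map (th J))))) := by
  have hvar : (tr (th J) ∘ var : Vr q (Fin n) × Fin M → GF (Vr q (Fin n))) = th J := by
    funext x; exact tr_var (atom_th J) x
  have h1 : ∀ a b, tr (th J) (bin true a b) = bin true (tr (th J) a) (tr (th J) b) :=
    fun _ _ => rfl
  have h2 : ∀ a, tr (th J) (neg a) = neg (tr (th J) a) := fun _ => rfl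
  have h3 : ∀ A : Finset (Vr q (Fin n) × Fin M), tr (th J) (conj (A.toList.map var)) =
      conj (A.toList.map (th J)) := by
    intro A
    rw [tr_conj, List.map_map]
    congr 1
    exact congrArg (fun f => List.map f A.toList) hvar
  unfold foldTaut
  rw [h1, tr_disj, tr_disj, List.map_map, List.map_map]
  congr 2
  · apply List.map_congr_left
    intro u _
    simp only [Function.comp_apply]
    rw [h2, tr_disj, List.map_map]
    congr 2
    apply List.map_congr_left
    intro A _
    exact h3 A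
  · apply List.map_congr_left
    intro u _
    simp only [Function.comp_apply]
    rw [tr_disj, List.map_map]
    congr 1
    apply List.map_congr_left
    intro A _
    exact h3 A

lemma gno_fold (hq : 2 ≤ q) {P M : ℕ} (hP : 1 ≤ P) (hm : P + 1 ≤ m)
    {J : Vr q (Fin n) → Finset (Fin M)} (hJ : ∀ S, (J S).card = P) (hκ0 : 1 ≤ κ 0)
    (hroom : ∀ i ≤ 1, ∀ τ ∈ Sm q ρ κ i, ρ 0 ⊆ τ ∧ q + 1 ≤ nun τ)
    (τ : Finset (Finset (Fin n))) :
    ¬ Gd m q ρ κ (tr (th J) (foldTaut q P n M)) true τ := by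
  classical
  have hq0 : 0 < q := by omega
  have hsing : ∀ (S : Finset (Fin n)) (t : Finset (Finset (Fin n))), PP q ({S} ∪ t) → ρ 0 ⊆ t →
      ({S} ∪ ρ 0) ∈ Sm q ρ κ 0 := by
    intro S t hPP hsub
    refine ⟨hPP.mono (union_subset_union Subset.rfl hsub), subset_union_right, ?_⟩
    have : ({S} ∪ ρ 0) \ ρ 0 ⊆ {S} := by
      intro x hx
      rw [mem_sdiff, mem_union] at hx
      rcases hx.1 with h | h
      · exact h
      · exact absurd h hx.2
    exact (card_le_card this).trans (by rw [card_singleton]; exact hκ0)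
  have hLc : ∀ A : Finset (Vr q (Fin n) × Fin M), A.card ≤ P + 1 →
      isL m (conj (A.toList.map (th J))) := by
    intro A hA
    apply isL_of_card
    refine (card_vars_conj ?_).trans ?_
    · intro a ha
      rw [List.mem_map] at ha
      obtain ⟨x, _, rfl⟩ := ha
      exact (atom_th J x).vars_le
    · rw [List.length_map, length_toList]; omega
  have hvA : ∀ (A : Finset (Vr q (Fin n) × Fin M)) (S : Vr q (Fin n)),
      S ∈ vars (conj (A.toList.map (th J))) → ∃ x ∈ A, x.1 = S := by
    intro A S hS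
    obtain ⟨a, ha, hSa⟩ := mem_vars_conj.mp hS
    rw [List.mem_map] at ha
    obtain ⟨x, hx, rfl⟩ := ha
    refine ⟨x, mem_toList.mp hx, ?_⟩
    unfold th at hSa
    split_ifs at hSa
    · simp only [vars, mem_singleton] at hSa; exact hSa.symm
    · simp [vars] at hSa
  have heA : ∀ (A : Finset (Vr q (Fin n) × Fin M)) (v : Vr q (Fin n) → Bool),
      eval v (conj (A.toList.map (th J))) = true ↔ ∀ x ∈ A, x.2 ∈ J x.1 ∧ v x.1 = true := by
    intro A v
    rw [eval_conj]
    constructor
    · intro h x hx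
      exact (eval_th J v x).mp (h _ (List.mem_map.mpr ⟨x, mem_toList.mpr hx, rfl⟩))
    · intro h a ha
      rw [List.mem_map] at ha
      obtain ⟨x, hx, rfl⟩ := ha
      exact (eval_th J v x).mpr (h x (mem_toList.mp hx))
  -- the set of live copies
  have hAS : ∀ (u : Fin n) (S : Vr q (Fin n)), u ∈ S.1 →
      (J S).map ⟨fun j => (S, j), fun a b h => (Prod.mk.inj h).2⟩ ∈
        powersetCard P (star M u) := by
    intro u S hS
    rw [mem_powersetCard]
    refine ⟨?_, by rw [card_map, hJ]⟩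
    intro x hx
    rw [mem_map] at hx
    obtain ⟨j, _, rfl⟩ := hx
    unfold star
    rw [mem_filter]
    exact ⟨mem_univ _, hS⟩
  rintro ⟨t, ht, _⟩
  obtain ⟨t1, ht1, _⟩ := GC_to_GD _ _ _ ht
  rw [tr_foldTaut] at ht1
  rcases GD_or ht1 with h | h
  · obtain ⟨a, ha, hta⟩ := GD_disj _ _ h
    rw [List.mem_map] at ha
    obtain ⟨u, _, rfl⟩ := ha
    set l0 := (powersetCard P (star M u)).toList.map fun A =>
      (conj (A.toList.map (th J)) : GF (Vr q (Fin n))) with hl0
    have hl0p : ∀ a ∈ l0, isL m a ∧ ∀ S ∈ vars a, u ∈ S.1 := by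
      intro a ha
      rw [hl0, List.mem_map] at ha
      obtain ⟨A, hA, rfl⟩ := ha
      rw [mem_toList, mem_powersetCard] at hA
      refine ⟨hLc A (by omega), ?_⟩
      intro S hS
      obtain ⟨x, hx, rfl⟩ := hvA A S hS
      exact (mem_filter.mp (hA.1 hx)).2
    have hmemS : ∀ S : Vr q (Fin n), u ∈ S.1 → (conj (((J S).map ⟨fun j => (S, j),
        fun a b h => (Prod.mk.inj h).2⟩ : Finset (Vr q (Fin n) × Fin M)).toList.map (th J))) ∈
          l0 := by
      intro S hS
      rw [hl0, List.mem_map]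
      exact ⟨_, mem_toList.mpr (hAS u S hS), rfl⟩
    have hevS : ∀ (S : Vr q (Fin n)) (t : Finset (Finset (Fin n))), S.1 ∈ t →
        eval (wa t) (conj (((J S).map ⟨fun j => (S, j),
        fun a b h => (Prod.mk.inj h).2⟩ : Finset (Vr q (Fin n) × Fin M)).toList.map (th J))) =
          true := by
      intro S t hSt
      rw [heA]
      intro x hx
      rw [mem_map] at hx
      obtain ⟨j, hj, rfl⟩ := hx
      exact ⟨hj, by show decide (S.1 ∈ t) = true; simpa using hSt⟩
    by_cases hL : isL m (neg (disj l0))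
    · rw [GC_isL hL] at hta
      obtain ⟨hSm, hdec, hev⟩ := hta
      obtain ⟨hρt, hn⟩ := hroom 0 (by omega) t1 hSm
      obtain ⟨S, hS, huS, hPP⟩ := ext_one hq0 hSm.1 (by omega) u
      have h1 := hdec ⟨S, hS⟩ (by
        show _ ∈ vars (disj l0)
        rw [mem_vars_disj]
        refine ⟨_, hmemS ⟨S, hS⟩ huS, ?_⟩
        rw [mem_vars_conj]
        obtain ⟨j, hj⟩ : (J ⟨S, hS⟩).Nonempty := by rw [← card_pos, hJ]; exact hP
        refine ⟨th J (⟨S, hS⟩, j), List.mem_map.mpr ⟨_, mem_toList.mpr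
          (mem_map.mpr ⟨j, hj, rfl⟩), rfl⟩, ?_⟩
        unfold th
        rw [if_pos hj]
        simp [vars])
      rcases h1 with h1 | ⟨T, hT, hTne, hTd⟩
      · have h2 : eval (wa t1) (disj l0) = true := by
          rw [eval_disj]
          exact ⟨_, hmemS ⟨S, hS⟩ huS, hevS _ _ h1⟩
        simp only [eval, h2] at hev
        exact Bool.noConfusion hev
      · exact hTd (hPP.2 T (mem_union_right _ hT) S (mem_union_left _ (mem_singleton_self _)) hTne)
    · rw [GC_neg hL] at hta
      have hta' : t1 ∈ (GC m q ρ κ (disj l0)).1 false := hta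
      rcases hcase : l0 with _ | ⟨a1, l'⟩
      · exfalso; apply hL
        rw [hcase]
        show (vars (disj ([] : List (GF (Vr q (Fin n)))))).card ≤ m
        simp [disj, vars]
      · have hX : disj l0 = bin true a1 (disj l') := by rw [hcase]; rfl
        have hL' : ¬ isL m (bin true a1 (disj l')) := by
          intro h'
          apply hL
          show (vars (disj l0)).card ≤ m
          rw [hX]; exact h'
        have hlv : glv m none (disj l0) ≤ 1 := by
          have := glv_none_le m (some true) (disj l0)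
          rw [glv_disj l0 (fun a ha => (hl0p a ha).1)] at this
          omega
        have hSm := mem_Sm_of_GC _ _ _ hta'
        obtain ⟨hρt, hn⟩ := hroom _ hlv t1 hSm
        obtain ⟨S, hS, huS, hPP⟩ := ext_one hq0 hSm.1 (by omega) u
        have h3 := single_mem' (m := m) (κ := κ) (ρ := ρ) l0 hl0p (S0 := ⟨S, hS⟩) huS
          (hsing S t1 hPP hρt) (hmemS ⟨S, hS⟩ huS) (hevS ⟨S, hS⟩ _ (by simp))
        rw [hX] at hta' h3
        rw [GC_bin hL'] at hta' h3
        simp only [if_true] at h3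
        simp only [Bool.false_eq_true, if_false] at hta'
        refine hta'.2 _ h3 (hPP.mono ?_)
        rw [union_assoc]
        exact union_subset_union Subset.rfl (union_subset hρt Subset.rfl)
  · obtain ⟨a, ha, hta⟩ := GD_disj _ _ h
    rw [List.mem_map] at ha
    obtain ⟨u, _, rfl⟩ := ha
    obtain ⟨a, ha, hta⟩ := GD_disj _ _ hta
    rw [List.mem_map] at ha
    obtain ⟨A, hA, rfl⟩ := ha
    rw [mem_toList, mem_powersetCard] at hA
    rw [GC_isL (hLc A (by omega))] at hta
    obtain ⟨hSm, _, hev⟩ := hta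
    rw [heA] at hev
    obtain ⟨x0, hx0⟩ : A.Nonempty := by rw [← card_pos]; omega
    have hsame : ∀ x ∈ A, x.1 = x0.1 := by
      intro x hx
      have h1 : x.1.1 ∈ t1 := by simpa [wa] using (hev x hx).2
      have h2 : x0.1.1 ∈ t1 := by simpa [wa] using (hev x0 hx0).2
      have h3 : u ∈ x.1.1 := (mem_filter.mp (hA.1 hx)).2
      have h4 : u ∈ x0.1.1 := (mem_filter.mp (hA.1 hx0)).2
      by_contra hne
      have h5 := hSm.1.2 _ h1 _ h2 (fun h => hne (Subtype.ext h))
      exact disjoint_left.mp h5 h3 h4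
    have hcard : A.card ≤ (J x0.1).card := by
      refine card_le_card_of_injOn (fun x => x.2) ?_ ?_
      · intro x hx
        have := (hev x hx).1
        rw [hsame x hx] at this
        exact this
      · intro x hx y hy hxy
        exact Prod.ext ((hsame x hx).trans (hsame y hy).symm) hxy
    rw [hJ] at hcard
    omega

end fold

end GF

end Pool.Agent.Work.MP_c04246_lc
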