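import Mathlib
import Pool.Agent.Work.MP_c04246_lc.TCore
import Pool.Agent.Work.MP_c04246_lc.TAvg
import Pool.Agent.Work.MP_c04246_lc.LCount

set_option autoImplicit false
set_option linter.unusedSectionVars false
set_option linter.unusedSimpArgs false
set_option linter.unusedVariables false

namespace Pool.Agent.Work.MP_c04246_lc

open Finset

namespace GF

section fold

variable {q n P M : ℕ}

lemma le_size_foldTaut : n ≤ size (foldTaut q P n M) := by
  unfold foldTaut
  have h := le_size_disj ((Finset.univ : Finset (Fin n)).toList.map fun u =>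
      (neg (disj ((Finset.powersetCard P (star M u)).toList.map fun A =>
        conj (A.toList.map var))) : GF ({S : Finset (Fin n) // S.card = q} × Fin M)))
  rw [List.length_map, length_toList, card_univ, Fintype.card_fin] at h
  simp only [size]
  omega

/-- translation of a proof by a choice of copies -/
theorem fold_core (hq2 : 2 ≤ q) {w d n' m m' t E s : ℕ} {κ N : ℕ → ℕ}
    (hPF : ParamFacts q w (d + 1) n' t E s κ N) (hw : 1 ≤ w) (hP : 1 ≤ P)
    (hmm : m ≤ m') (hPm : P + 1 ≤ m')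
    {r : ℕ} (hmod : n = n' + q * r) (hsp : 2 * (m' * n' ^ q) ≤ n ^ q) (hn : 0 < n)
    (hroom2 : q * κ (d + 1) + q * ((4 * w + 1) * κ (d + 1)) ≤ N (d + 1))
    {pi : List (GF (Vr q (Fin n) × Fin M))} (hpi : IsProof w pi)
    (hmem : foldTaut q P n M ∈ pi)
    (hd : ∀ b ∈ pi, ∀ A ∈ subs b, cdepth m A ≤ d)
    (hsz : (pi.map size).sum < 2 ^ w)
    {J : Vr q (Fin n) → Finset (Fin M)} (hJ : ∀ S, (J S).card = P)
    (hJm : ∀ b ∈ pi, ∀ (k : ℕ) (g : (Fin k → Bool) → Bool)
      (f : Fin k → GF (Vr q (Fin n) × Fin M)), gate k g f ∈ subs b →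
      ∀ B : Finset (Vr q (Fin n)), (∀ S ∈ B, ¬ Blind S (J S) (gate k g f)) → B.card ≤ m') :
    False := by
  classical
  set Γ0 : Finset (GF (Vr q (Fin n) × Fin M)) := pi.toFinset.biUnion subs with hΓ0
  have hΓ0card : Γ0.card < 2 ^ w :=
    (card_biUnion_list subs size card_subs pi).trans_lt hsz
  have hmem0 : ∀ a, a ∈ Γ0 ↔ ∃ b ∈ pi, a ∈ subs b := by
    intro a; rw [hΓ0, mem_biUnion]; simp only [List.mem_toFinset]
  set Γ : Finset (GF (Vr q (Fin n))) := insert (cst false) (Γ0.image (tr (th J))) with hΓ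
  have hat := atom_th (X := Vr q (Fin n)) J
  have hmemΓ : ∀ a ∈ Γ0, tr (th J) a ∈ Γ := fun a ha =>
    mem_insert_of_mem (mem_image_of_mem _ ha)
  have hΓcard : Γ.card ≤ 2 ^ w := by
    have h1 : Γ.card ≤ (Γ0.image (tr (th J))).card + 1 := card_insert_le _ _
    have h2 : (Γ0.image (tr (th J))).card ≤ Γ0.card := card_image_le
    omega
  have hsub : ∀ a ∈ Γ, subs a ⊆ Γ := by
    intro a ha c hc
    rcases mem_insert.mp ha with rfl | ha
    · have : c = cst false := by simpa [subs] using hc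
      rw [this]; exact mem_insert_self _ _
    · obtain ⟨a', ha', rfl⟩ := mem_image.mp ha
      rcases subs_tr hat a' c hc with rfl | ⟨c', hc', rfl⟩
      · exact mem_insert_self _ _
      · obtain ⟨b, hb, hbs⟩ := (hmem0 _).mp ha'
        exact hmemΓ _ ((hmem0 _).mpr ⟨b, hb, subs_trans _ _ hbs hc'⟩)
  refine lcore2 hq2 hPF hw (by omega) (m := m') (by omega) hmod hsp hn hroom2 hΓcard hsub ?_ ?_
    (pi := pi.map (tr (th J))) ?_ ?_ (X := tr (th J) (foldTaut q P n M)) ?_ ?_
  · -- gates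
    intro k g f hk
    rcases mem_insert.mp hk with h | h
    · cases h
    · obtain ⟨a, ha, hak⟩ := mem_image.mp h
      obtain ⟨f', rfl⟩ := gate_tr hat hak
      obtain ⟨b, hb, hbs⟩ := (hmem0 _).mp ha
      rw [← hak]
      exact hJm b hb k g f' hbs _ fun S hS hbl => not_mem_of_blind _ hbl hS
  · -- levels
    intro a ha
    rcases mem_insert.mp ha with rfl | ha
    · simp [glv]
    · obtain ⟨a', ha', rfl⟩ := mem_image.mp ha
      obtain ⟨b, hb, hbs⟩ := (hmem0 _).mp ha'
      have h1 := (glv_le_dpt m' (tr (th J) a')).1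
      have h2 := dpt_tr hmm J a' none
      have h3 : cdpt m none a' ≤ d := hd b hb a' hbs
      omega
  · intro b hb
    obtain ⟨b', hb', rfl⟩ := List.mem_map.mp hb
    exact hmemΓ _ ((hmem0 _).mpr ⟨b', hb', subs_self _⟩)
  · -- steps
    intro i
    have hi : i.1 < pi.length := lt_of_lt_of_eq i.2 (List.length_map _)
    obtain ⟨Q, hQ, hQc, C, hCc, hCs, himp⟩ := hpi ⟨i.1, hi⟩
    have hget : ∀ (j : ℕ) (hj : j < (pi.map (tr (th J))).length) (hj' : j < pi.length),
        (pi.map (tr (th J))).get ⟨j, hj⟩ = tr (th J) (pi.get ⟨j, hj'⟩) := by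
      intro j hj hj'
      simp
    refine ⟨Q.image (tr (th J)), C.image (tr (th J)), ?_, card_image_le.trans hQc,
      card_image_le.trans hCc, ?_, ?_⟩
    · intro b hb
      obtain ⟨b', hb', rfl⟩ := mem_image.mp hb
      obtain ⟨j, hj, rfl⟩ := hQ b' hb'
      refine ⟨⟨j.1, by rw [List.length_map]; exact j.2⟩, hj, ?_⟩
      exact hget _ _ _
    · intro c hc
      obtain ⟨c', hc', rfl⟩ := mem_image.mp hc
      apply hmemΓ
      rcases hCs c' hc' with h | ⟨b, hb, h⟩
      · exact (hmem0 _).mpr ⟨_, List.get_mem _ _, h⟩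
      · obtain ⟨j, _, rfl⟩ := hQ b hb
        exact (hmem0 _).mpr ⟨_, List.get_mem _ _, h⟩
    · intro v hvC hvP
      rw [hget i.1 i.2 hi]
      refine himp (fun a => v (tr (th J) a)) ?_ ?_
      · intro c hc
        exact resp_tr (hvC _ (mem_image_of_mem _ hc))
      · intro b hb
        exact hvP _ (mem_image_of_mem _ hb)
  · exact List.mem_map.mpr ⟨_, hmem, rfl⟩
  · intro ρ h1 h2 τ
    exact gno_fold hq2 hP hPm hJ h1 h2 τ

theorem fold_bound (q : ℕ) (hq2 : 2 ≤ q) (P : ℕ) (hP : 1 ≤ P) (d : ℕ) :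
    ∃ a n0 : ℕ, 1 ≤ n0 ∧ ∀ n ≥ n0, ∀ w : ℕ, w ^ a ≤ n → ∀ m : ℕ, m * w ^ a ≤ n.choose q →
      ∀ M : ℕ, ∀ pi : List (GF ({S : Finset (Fin n) // S.card = q} × Fin M)),
        IsProof w pi → foldTaut q P n M ∈ pi →
        (∀ b ∈ pi, ∀ A ∈ subs b, cdepth m A ≤ d) →
        ∀ L : ℕ, 1 ≤ L → ∀ J : {S : Finset (Fin n) // S.card = q} → Fin L → Finset (Fin M),
        (∀ S i, (J S i).card = P) →
        (∀ b ∈ pi, ∀ A ∈ subs b, (∃ k g f, A = gate k g f) →
          {x : {S : Finset (Fin n) // S.card = q} × Fin L |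
            ¬ Blind x.1 (J x.1 x.2) A}.ncard * w ^ a ≤ L * n.choose q) →
        2 ^ w ≤ (pi.map size).sum := by
  classical
  obtain ⟨a1, n01, hn01, hpar⟩ := exists_params q hq2 d (2 * q + 1) (d + 2) le_rfl le_rfl
  set c := q * (n01 + 2) with hc
  set w0 := 200 * c ^ q + (P + 1) with hw0
  refine ⟨a1 * q + 2, max (2 ^ w0) q, (Nat.one_le_two_pow).trans (le_max_left _ _), ?_⟩
  intro n hn w hw m hm M pi hpi hmem hd L hL J hJ hB
  have hn0 : 2 ^ w0 ≤ n := (le_max_left _ _).trans hn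
  have hnq : q ≤ n := (le_max_right _ _).trans hn
  have hn1 : 1 ≤ n := Nat.one_le_two_pow.trans hn0
  rcases Nat.lt_or_ge w w0 with hlt | hge
  · have h1 : size (foldTaut q P n M) ≤ (pi.map size).sum :=
      List.single_le_sum (fun _ _ => Nat.zero_le _) _ (List.mem_map.mpr ⟨_, hmem, rfl⟩)
    calc 2 ^ w ≤ 2 ^ w0 := Nat.pow_le_pow_right (by norm_num) hlt.le
      _ ≤ n := hn0
      _ ≤ size (foldTaut q P n M) := le_size_foldTaut
      _ ≤ _ := h1
  by_contra hcon
  push Not at hcon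
  have hc1 : 1 ≤ c := Nat.mul_pos (by omega) (by omega)
  have hcq : c ≤ c ^ q := Nat.le_self_pow (by omega) _
  have hwc : c ≤ w := by omega
  have hwP : P + 1 ≤ w := by omega
  have hw1 : 1 ≤ w := hc1.trans hwc
  have hw2 : 2 ≤ w := by omega
  have hwa : 1 ≤ w ^ a1 := Nat.one_le_pow _ _ hw1
  set n' := q * (w ^ a1 + n01) + n % q with hn'
  have hn'c : n' ≤ c * w ^ a1 := by
    have h1 : n % q < q := Nat.mod_lt _ (by omega)
    have h2 : n01 + 1 ≤ (n01 + 1) * w ^ a1 := Nat.le_mul_of_pos_right _ hwa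
    calc n' ≤ q * (w ^ a1 + n01) + q := by omega
      _ = q * (w ^ a1 + (n01 + 1)) := by ring
      _ ≤ q * (w ^ a1 + (n01 + 1) * w ^ a1) := Nat.mul_le_mul_left _ (by omega)
      _ = c * w ^ a1 := by rw [hc]; ring
  set k := w ^ (a1 * q + 1) with hk
  have hk2 : 2 ≤ k := by
    calc 2 ≤ w := hw2
      _ = w ^ 1 := (pow_one w).symm
      _ ≤ k := Nat.pow_le_pow_right hw1 (by omega)
  have hwk : w ^ (a1 * q + 2) = w * k := by rw [hk, pow_succ w (a1 * q + 1)]; ring
  have hn'q : 200 * n' ^ q ≤ k := by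
    calc 200 * n' ^ q ≤ 200 * (c * w ^ a1) ^ q :=
        Nat.mul_le_mul_left _ (Nat.pow_le_pow_left hn'c _)
      _ = (200 * c ^ q) * w ^ (a1 * q) := by rw [mul_pow, ← pow_mul]; ring
      _ ≤ w * w ^ (a1 * q) := Nat.mul_le_mul_right _ (by omega)
      _ = k := by rw [hk, pow_succ]; ring
  rw [hwk] at hw hm
  have hkn : k ≤ n := (Nat.le_mul_of_pos_left _ hw1).trans hw
  have hn'n : n' ≤ n := by
    have h1 : n' ≤ n' ^ q := Nat.le_self_pow (by omega) _
    omega
  have hnnq : n ≤ n ^ q := Nat.le_self_pow (by omega) _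
  have hchoose : n.choose q ≤ n ^ q := Nat.choose_le_pow _ _
  set B := n.choose q with hBdef
  have hB1 : 1 ≤ B := Nat.choose_pos hnq
  have hcardX : Fintype.card {S : Finset (Fin n) // S.card = q} = B := by
    have := Fintype.card_finset_len (α := Fin n) q
    rw [Fintype.card_fin] at this
    exact this
  set t := 2 * B / k + 1 with ht
  have htk : 2 * B ≤ t * k := by
    have h1 : 2 * B < (2 * B / k + 1) * k := by
      have := Nat.lt_mul_div_succ (2 * B) (show 0 < k by omega)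
      calc 2 * B < k * (2 * B / k + 1) := this
        _ = (2 * B / k + 1) * k := mul_comm _ _
    exact h1.le
  have htk2 : (w + t) * k ≤ 4 * n ^ q := by
    have h1 : 2 * B / k * k ≤ 2 * B := Nat.div_mul_le_self _ _
    have h2 : (w + t) * k = 2 * B / k * k + (k + w * k) := by rw [ht]; ring
    rw [h2]
    have h3 : k + w * k ≤ 2 * n ^ q := by omega
    omega
  set m' := m + (w + t) + (P + 1) with hm'
  have hm'k : m' * k ≤ 22 * n ^ q := by
    have h1 : m * k ≤ m * (w * k) := Nat.mul_le_mul_left _ (Nat.le_mul_of_pos_left _ hw1)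
    have h3 : (P + 1) * k ≤ w * k := Nat.mul_le_mul_right _ hwP
    have h4 : m' * k = m * k + (w + t) * k + (P + 1) * k := by rw [hm']; ring
    omega
  have hsp : 2 * (m' * n' ^ q) ≤ n ^ q := by
    have h1 : m' * (200 * n' ^ q) ≤ m' * k := Nat.mul_le_mul_left _ hn'q
    have h2 : m' * (200 * n' ^ q) = 200 * (m' * n' ^ q) := by ring
    omega
  have hn'ge : w ^ a1 + n01 ≤ n' :=
    (Nat.le_mul_of_pos_left _ (by omega)).trans (Nat.le_add_right _ _)
  obtain ⟨N, hPF⟩ := hpar n' (by omega) w hw1 (by omega)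
  have hmod : n = n' + q * (n / q - (w ^ a1 + n01)) := by
    have h1 : q * (n / q) + n % q = n := Nat.div_add_mod n q
    have h2 : w ^ a1 + n01 ≤ n / q := by
      by_contra hcon
      push Not at hcon
      have h3 := Nat.mul_le_mul_left q (Nat.succ_le_of_lt hcon)
      have h4 : q * (n / q + 1) = q * (n / q) + q := by ring
      have h5 : n % q < q := Nat.mod_lt _ (by omega)
      have h6 : n < q * (n / q) + q := by omega
      rw [Nat.succ_eq_add_one, h4] at h3
      omega
    have h3 : q * (n / q - (w ^ a1 + n01)) + q * (w ^ a1 + n01) = q * (n / q) := by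
      rw [← mul_add, Nat.sub_add_cancel h2]
    omega
  -- the choice of the copies
  set Γ0 : Finset (GF (Vr q (Fin n) × Fin M)) := pi.toFinset.biUnion subs with hΓ0
  have hΓ0card : Γ0.card < 2 ^ w :=
    (card_biUnion_list subs size card_subs pi).trans_lt hcon
  have hmem0 : ∀ a, a ∈ Γ0 ↔ ∃ b ∈ pi, a ∈ subs b := by
    intro a; rw [hΓ0, mem_biUnion]; simp only [List.mem_toFinset]
  set G := Γ0.filter fun A => ∃ k g f, A = gate k g f with hG
  obtain ⟨φ, hφ⟩ := Choice.exists_choice_avg (G := G) (L := L) hL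
    (bad := fun A (S : Vr q (Fin n)) i => ¬ Blind S (J S i) A) (k := k) (w := w) (s := t)
    ((card_filter_le _ _).trans_lt hΓ0card) (by omega) (by
      intro A hA
      obtain ⟨hA1, hA2⟩ := mem_filter.mp hA
      obtain ⟨b, hb, hbA⟩ := (hmem0 _).mp hA1
      have h1 := hB b hb A hbA hA2
      rw [hwk] at h1
      rw [hcardX]
      have h2 : {x : Vr q (Fin n) × Fin L | ¬ Blind x.1 (J x.1 x.2) A}.ncard =
          (univ.filter fun x : Vr q (Fin n) × Fin L => ¬ Blind x.1 (J x.1 x.2) A).card := by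
        rw [← Set.ncard_coe_finset]
        congr 1
        ext x
        simp
      have h3 : (univ.filter fun x : Vr q (Fin n) × Fin L =>
          ¬ Blind x.1 (J x.1 x.2) A).card * k ≤ L * B := by
        rw [← h2]
        refine le_trans (Nat.mul_le_mul_left _ (Nat.le_mul_of_pos_left _ hw1)) h1
      convert h3)
    (by rw [hcardX]; exact htk)
  refine fold_core hq2 hPF hw1 hP (m' := m')
    ((Nat.le_add_right m (w + t)).trans (Nat.le_add_right _ _)) (Nat.le_add_left _ _) hmod hsp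
    hn1 ?_ hpi hmem hd hcon (J := fun S => J S (φ S)) (fun S => hJ S (φ S)) ?_
  · rw [hPF.hNd]
    set E := (2 * q + 1) * w ^ (d + 2) with hE
    have hκ : (2 * q + 1) * w ^ (d + 1 + 1) = E := rfl
    have hE1 : 1 ≤ E := Nat.mul_pos (by omega) (Nat.one_le_pow _ _ hw1)
    have hwE : w ≤ E := by
      calc w = w ^ 1 := (pow_one w).symm
        _ ≤ w ^ (d + 2) := Nat.pow_le_pow_right hw1 (by omega)
        _ ≤ E := Nat.le_mul_of_pos_left _ (by omega)
    show q * ((2 * q + 1) * w ^ (d + 1 + 1)) + q * ((4 * w + 1) * ((2 * q + 1) * w ^ (d + 1 + 1))) ≤ _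
    rw [hκ]
    have h1 : q * E + q * ((4 * w + 1) * E) ≤ q * (81 * (E * E)) := by
      rw [← mul_add]
      refine Nat.mul_le_mul_left _ ?_
      have h2 : E ≤ E * E := Nat.le_mul_of_pos_left _ hE1
      have h3 : (4 * w + 1) * E ≤ 5 * (E * E) := by
        calc (4 * w + 1) * E ≤ (5 * E) * E := Nat.mul_le_mul_right _ (by omega)
          _ = 5 * (E * E) := by ring
      omega
    refine h1.trans (le_trans (le_of_eq ?_) (Nat.le_add_right _ _))
    ring
  · intro b hb k' g f hA D hD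
    have h1 := hφ (gate k' g f) (mem_filter.mpr ⟨(hmem0 _).mpr ⟨b, hb, hA⟩, k', g, f, rfl⟩)
    have h5 : D.card < w + t := by
      refine lt_of_le_of_lt (card_le_card fun S hS => ?_) h1
      simp only [mem_filter, mem_univ, true_and]
      exact hD S hS
    omega

end fold

end GF

end Pool.Agent.Work.MP_c04246_lc
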