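import Mathlib
import Pool.Agent.Work.MP_c04246_lc.TMain

set_option autoImplicit false
set_option linter.unusedSectionVars false
set_option linter.unusedSimpArgs false
set_option linter.unusedVariables false

namespace Pool.Agent.Work.MP_c04246_lc

open Finset

namespace GF

section conjs

variable {V : Type}

lemma dpt_conj {m D : ℕ} (l : List (GF V)) (h : ∀ a ∈ l, dpt m (some (some false)) a ≤ D) :
    dpt m (some (some false)) (conj l) ≤ D := by
  induction l with
  | nil => simp [conj, dpt]
  | cons a l ih =>
    rw [conj_cons]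
    simp only [dpt]
    split_ifs
    · exact Nat.zero_le _
    · rw [zero_add]
      exact max_le (h a (by simp)) (ih fun b hb => h b (by simp [hb]))

lemma size_conj {s : ℕ} (l : List (GF V)) (h : ∀ a ∈ l, size a ≤ s) :
    size (conj l) ≤ l.length * (s + 1) + 1 := by
  induction l with
  | nil => simp [conj, size]
  | cons a l ih =>
    rw [conj_cons]
    have h1 := h a (by simp)
    have h2 := ih fun b hb => h b (by simp [hb])
    simp only [size, List.length_cons]
    nlinarith

lemma dpt_conj_lits (m : ℕ) (r : Option (Option Bool)) (l : List V) :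
    dpt m r (conj (l.map var)) ≤ 1 := by
  have h1 : dpt m (some (some false)) (conj (l.map (var : V → GF V))) ≤ 0 := by
    apply dpt_conj
    intro a ha
    obtain ⟨x, _, rfl⟩ := List.mem_map.mp ha
    simp [dpt]
  rcases l with _ | ⟨x, l⟩
  · simp [conj, dpt]
  · rw [List.map_cons, conj_cons] at h1 ⊢
    simp only [dpt] at h1 ⊢
    split_ifs at h1 ⊢ <;> omega

lemma size_conj_lits (l : List V) : size (conj (l.map (var : V → GF V))) ≤ l.length * 2 + 1 := by
  have h := size_conj (s := 1) (l.map (var : V → GF V)) (by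
    intro a ha
    obtain ⟨x, _, rfl⟩ := List.mem_map.mp ha
    simp [size])
  rwa [List.length_map] at h

end conjs

section taut

variable {q n P M : ℕ}

lemma depth_foldTaut (m : ℕ) : depth m (foldTaut q P n M) ≤ 4 := by
  unfold foldTaut depth
  have h2 : dpt m (some (some true)) (disj ((Finset.univ : Finset (Fin n)).toList.map fun u =>
      (neg (disj ((Finset.powersetCard P (star M u)).toList.map fun A =>
        conj (A.toList.map var))) : GF ({S : Finset (Fin n) // S.card = q} × Fin M)))) ≤ 3 := by
    apply dpt_disj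
    intro a ha
    rw [List.mem_map] at ha
    obtain ⟨u, _, rfl⟩ := ha
    have h3 : dpt m (some (some true)) (disj ((Finset.powersetCard P (star M u)).toList.map
        fun A => (conj (A.toList.map var) :
          GF ({S : Finset (Fin n) // S.card = q} × Fin M)))) ≤ 1 := by
      apply dpt_disj
      intro b hb
      rw [List.mem_map] at hb
      obtain ⟨S, _, rfl⟩ := hb
      exact dpt_conj_lits _ _ _
    have h4 := dpt_le m (some (some true)) (disj ((Finset.powersetCard P (star M u)).toList.map
        fun A => (conj (A.toList.map var) :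
          GF ({S : Finset (Fin n) // S.card = q} × Fin M))))
    have h5 := dpt_none_ge m (some none) (disj ((Finset.powersetCard P (star M u)).toList.map
        fun A => (conj (A.toList.map var) :
          GF ({S : Finset (Fin n) // S.card = q} × Fin M))))
    refine (dpt_neg_le m (some (some true)) _).trans ?_
    omega
  have h6 : dpt m (some (some true)) (disj ((Finset.univ : Finset (Fin n)).toList.map fun u =>
      (disj ((Finset.powersetCard (P + 1) (star M u)).toList.map fun A =>
        conj (A.toList.map var)) : GF ({S : Finset (Fin n) // S.card = q} × Fin M)))) ≤ 3 := by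
    apply dpt_disj
    intro a ha
    rw [List.mem_map] at ha
    obtain ⟨u, _, rfl⟩ := ha
    refine (dpt_disj (D := 1) _ ?_).trans (by norm_num)
    intro b hb
    rw [List.mem_map] at hb
    obtain ⟨S, _, rfl⟩ := hb
    exact dpt_conj_lits _ _ _
  refine (dpt_bin_le m none _ _ _).trans ?_
  omega

lemma cdepth_foldTaut (m : ℕ) : cdepth m (foldTaut q P n M) ≤ 4 :=
  (cdpt_le_dpt m _ none).trans (depth_foldTaut m)

lemma card_star_le (u : Fin n) : (star (q := q) M u).card ≤ n ^ q * M := by
  have hcard : Fintype.card {S : Finset (Fin n) // S.card = q} ≤ n ^ q := by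
    have := Fintype.card_finset_len (α := Fin n) q
    rw [Fintype.card_fin] at this
    rw [this]
    exact Nat.choose_le_pow n q
  unfold star
  refine (card_filter_le _ _).trans ?_
  rw [card_univ, Fintype.card_prod, Fintype.card_fin]
  exact Nat.mul_le_mul_right _ hcard

lemma size_foldTaut (hn : 1 ≤ n) (hq : 1 ≤ q) (hM : 1 ≤ M) :
    size (foldTaut q P n M) ≤ 20 * (P + 1) * (n ^ (q + 1) * M) ^ (P + 1) := by
  unfold foldTaut
  set Z := n ^ q * M with hZ
  have hZ1 : 1 ≤ Z := Nat.mul_pos (Nat.pow_pos hn) hM
  have hpow : ∀ (k : ℕ) (u : Fin n), (powersetCard k (star (q := q) M u)).card ≤ Z ^ k := by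
    intro k u
    rw [card_powersetCard]
    exact (Nat.choose_le_pow _ _).trans (Nat.pow_le_pow_left (card_star_le u) _)
  have hin : ∀ (k : ℕ) (u : Fin n), size (disj ((Finset.powersetCard k (star M u)).toList.map
      fun A => (conj (A.toList.map var) : GF ({S : Finset (Fin n) // S.card = q} × Fin M)))) ≤
        Z ^ k * (k * 2 + 2) + 1 := by
    intro k u
    refine (size_disj (s := k * 2 + 1) _ ?_).trans ?_
    · intro b hb
      rw [List.mem_map] at hb
      obtain ⟨A, hA, rfl⟩ := hb
      rw [mem_toList, mem_powersetCard] at hA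
      have := size_conj_lits A.toList
      rw [length_toList, hA.2] at this
      exact this
    · rw [List.length_map, length_toList]
      exact Nat.succ_le_succ (Nat.mul_le_mul_right _ (hpow k u))
  have h1 : size (disj ((Finset.univ : Finset (Fin n)).toList.map fun u =>
      (neg (disj ((Finset.powersetCard P (star M u)).toList.map fun A =>
        conj (A.toList.map var))) : GF ({S : Finset (Fin n) // S.card = q} × Fin M)))) ≤
      n * (Z ^ P * (P * 2 + 2) + 3) + 1 := by
    refine (size_disj (s := Z ^ P * (P * 2 + 2) + 2) _ ?_).trans ?_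
    · intro a ha
      rw [List.mem_map] at ha
      obtain ⟨u, _, rfl⟩ := ha
      have := hin P u
      simp only [size]
      omega
    · rw [List.length_map, length_toList, card_univ, Fintype.card_fin]
  have h2 : size (disj ((Finset.univ : Finset (Fin n)).toList.map fun u =>
      (disj ((Finset.powersetCard (P + 1) (star M u)).toList.map fun A =>
        conj (A.toList.map var)) : GF ({S : Finset (Fin n) // S.card = q} × Fin M)))) ≤
      n * (Z ^ (P + 1) * ((P + 1) * 2 + 2) + 2) + 1 := by
    refine (size_disj (s := Z ^ (P + 1) * ((P + 1) * 2 + 2) + 1) _ ?_).trans ?_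
    · intro a ha
      rw [List.mem_map] at ha
      obtain ⟨u, _, rfl⟩ := ha
      exact hin (P + 1) u
    · rw [List.length_map, length_toList, card_univ, Fintype.card_fin]
  simp only [size]
  have h3 : Z ^ P ≤ Z ^ (P + 1) := Nat.pow_le_pow_right hZ1 (by omega)
  set Y := n * Z ^ (P + 1) with hY
  have hY1 : 1 ≤ Y := Nat.mul_pos hn (Nat.pow_pos hZ1)
  have hnY : n ≤ Y := Nat.le_mul_of_pos_right _ (Nat.pow_pos hZ1)
  have h4 : n * (Z ^ P * (P * 2 + 2) + 3) ≤ Y * (P * 2 + 2) + 3 * Y := by
    calc n * (Z ^ P * (P * 2 + 2) + 3) ≤ n * (Z ^ (P + 1) * (P * 2 + 2) + 3) :=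
          Nat.mul_le_mul_left _ (Nat.add_le_add_right (Nat.mul_le_mul_right _ h3) _)
      _ = Y * (P * 2 + 2) + 3 * n := by rw [hY]; ring
      _ ≤ _ := by omega
  have h5 : n * (Z ^ (P + 1) * ((P + 1) * 2 + 2) + 2) ≤ Y * ((P + 1) * 2 + 2) + 2 * Y := by
    calc n * (Z ^ (P + 1) * ((P + 1) * 2 + 2) + 2) = Y * ((P + 1) * 2 + 2) + 2 * n := by
          rw [hY]; ring
      _ ≤ _ := by omega
  have h6 : Y ≤ (n ^ (q + 1) * M) ^ (P + 1) := by
    have : n ^ (q + 1) * M = n * Z := by rw [hZ, pow_succ]; ring
    rw [this, mul_pow, hY]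
    exact Nat.mul_le_mul_right _ (Nat.le_self_pow (by omega) _)
  calc _ ≤ (n * (Z ^ P * (P * 2 + 2) + 3) + 1) +
        (n * (Z ^ (P + 1) * ((P + 1) * 2 + 2) + 2) + 1) + 1 := by omega
    _ ≤ (Y * (P * 2 + 2) + 3 * Y) + (Y * ((P + 1) * 2 + 2) + 2 * Y) + 3 * Y := by omega
    _ = (4 * P + 14) * Y := by ring
    _ ≤ 20 * (P + 1) * Y := Nat.mul_le_mul_right _ (by omega)
    _ ≤ _ := Nat.mul_le_mul_left _ h6

lemma taut_foldTaut (hn : ¬ q ∣ P * n) (v : {S : Finset (Fin n) // S.card = q} × Fin M → Bool) :
    eval v (foldTaut q P n M) = true := by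
  classical
  by_contra hcon
  unfold foldTaut at hcon
  simp only [eval, if_true, Bool.or_eq_true, not_or] at hcon
  obtain ⟨h1, h2⟩ := hcon
  rw [eval_disj] at h1 h2
  push Not at h1 h2
  have hev : ∀ A : Finset ({S : Finset (Fin n) // S.card = q} × Fin M),
      eval v (conj (A.toList.map var)) = true ↔ ∀ x ∈ A, v x = true := by
    intro A
    rw [eval_conj]
    constructor
    · intro h x hx
      exact h (var x) (List.mem_map.mpr ⟨x, mem_toList.mpr hx, rfl⟩)
    · intro h a ha
      obtain ⟨x, hx, rfl⟩ := List.mem_map.mp ha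
      exact h x (mem_toList.mp hx)
  have h3 : ∀ u : Fin n, ((star M u).filter fun x => v x = true).card = P := by
    intro u
    apply le_antisymm
    · by_contra hlt
      push Not at hlt
      obtain ⟨A, hA, hAc⟩ := exists_subset_card_eq (Nat.succ_le_of_lt hlt)
      have h4 := h2 _ (List.mem_map.mpr ⟨u, by simp, rfl⟩)
      apply h4
      rw [eval_disj]
      refine ⟨_, List.mem_map.mpr ⟨A, ?_, rfl⟩, ?_⟩
      · rw [mem_toList, mem_powersetCard]
        exact ⟨fun x hx => (mem_filter.mp (hA hx)).1, hAc⟩
      · rw [hev]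
        exact fun x hx => (mem_filter.mp (hA hx)).2
    · have h4 := h1 _ (List.mem_map.mpr ⟨u, by simp, rfl⟩)
      simp only [eval, Bool.not_eq_true, Bool.not_eq_false'] at h4
      rw [eval_disj] at h4
      obtain ⟨a, ha, hva⟩ := h4
      rw [List.mem_map] at ha
      obtain ⟨A, hA, rfl⟩ := ha
      rw [mem_toList, mem_powersetCard] at hA
      rw [hev] at hva
      rw [← hA.2]
      exact card_le_card fun x hx => mem_filter.mpr ⟨hA.1 hx, hva x hx⟩
  apply hn
  set Ch := (univ : Finset ({S : Finset (Fin n) // S.card = q} × Fin M)).filter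
    fun x => v x = true with hCh
  have h5 : ∑ u : Fin n, ((star M u).filter fun x => v x = true).card =
      ∑ x ∈ Ch, x.1.1.card := by
    have h6 : ∀ u : Fin n, (star M u).filter (fun x => v x = true) =
        Ch.filter fun x => u ∈ x.1.1 := by
      intro u
      ext x
      simp only [star, hCh, mem_filter, mem_univ, true_and]
      exact and_comm
    simp only [h6]
    have h7 := sum_card_bipartiteAbove_eq_sum_card_bipartiteBelow (s := (univ : Finset (Fin n)))
      (t := Ch) (fun u x => u ∈ x.1.1)
    simp only [bipartiteAbove, bipartiteBelow] at h7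
    rw [h7]
    refine sum_congr rfl fun x _ => ?_
    congr 1
    ext u; simp
  rw [sum_congr rfl (fun u _ => h3 u), sum_const, card_univ, Fintype.card_fin, smul_eq_mul] at h5
  rw [sum_congr rfl (fun x _ => x.1.2), sum_const, smul_eq_mul] at h5
  exact ⟨Ch.card, by rw [mul_comm P n, h5, mul_comm]⟩

end taut

end GF

end Pool.Agent.Work.MP_c04246_lc
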