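import Mathlib
import Pool.Agent.Work.MP_c04246_lc.Defs

set_option autoImplicit false
set_option linter.unusedSectionVars false
set_option linter.unusedSimpArgs false
set_option linter.unusedVariables false

namespace Pool.Agent.Work.MP_c04246_lc.X

open Finset Fml

/-- formulas in negation normal form with connectives of unbounded fan-in -/
inductive UF (p : ℕ) (V : Type) : Type
  | lit : V → Bool → UF p V
  | cst : Bool → UF p V
  | gate : Bool → (k : ℕ) → (Fin k → UF p V) → UF p V
  | mod : (ZMod p → Bool) → (k : ℕ) → (Fin k → UF p V) → UF p V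

namespace UF

variable {p : ℕ} {V : Type}

/-- truth value -/
def ev (v : V → Bool) : UF p V → Bool
  | lit x b => v x == b
  | cst b => b
  | gate c _ f => if ∃ j, ev v (f j) = c then c else !c
  | mod A _ f => A (∑ j, if ev v (f j) = true then (1 : ZMod p) else 0)

/-- size -/
def sz : UF p V → ℕ
  | lit _ _ => 1
  | cst _ => 1
  | gate _ _ f => 1 + ∑ j, sz (f j)
  | mod _ _ f => 1 + ∑ j, sz (f j)

/-- depth -/
def dep : UF p V → ℕ
  | lit _ _ => 0
  | cst _ => 0
  | gate _ _ f => 1 + univ.sup fun j => dep (f j)
  | mod _ _ f => 1 + univ.sup fun j => dep (f j)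

/-- gate with a list of arguments -/
def gateL (c : Bool) (l : List (UF p V)) : UF p V := gate c l.length l.get

/-- arguments of a formula regarded as a gate of the kind `c` -/
def argsOf (c : Bool) : UF p V → List (UF p V)
  | lit x b => [lit x b]
  | cst b => [cst b]
  | gate c' k f => if c' = c then List.ofFn f else [gate c' k f]
  | mod A k f => [mod A k f]

lemma ev_gateL (v : V → Bool) (c : Bool) (l : List (UF p V)) :
    ev v (gateL c l) = if ∃ u ∈ l, ev v u = c then c else !c := by
  unfold gateL
  simp only [ev]
  have h : (∃ j, ev v (l.get j) = c) ↔ ∃ u ∈ l, ev v u = c := by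
    constructor
    · rintro ⟨j, hj⟩; exact ⟨_, List.get_mem l j, hj⟩
    · rintro ⟨u, hu, huc⟩
      obtain ⟨j, hj⟩ := List.get_of_mem hu
      exact ⟨j, by rw [hj]; exact huc⟩
  by_cases h1 : ∃ u ∈ l, ev v u = c
  · rw [if_pos h1, if_pos (h.mpr h1)]
  · rw [if_neg h1, if_neg (fun h2 => h1 (h.mp h2))]

lemma ev_args (v : V → Bool) (c : Bool) (u : UF p V) :
    (∃ u' ∈ argsOf c u, ev v u' = c) ↔ ev v u = c := by
  cases u with
  | lit x b => simp [argsOf]
  | cst b => simp [argsOf]
  | gate c' k f =>
    simp only [argsOf]
    by_cases h : c' = c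
    · subst h
      rw [if_pos rfl]
      simp only [List.mem_ofFn]
      constructor
      · rintro ⟨u', ⟨j, rfl⟩, hj⟩
        simp only [ev]
        rw [if_pos ⟨j, hj⟩]
      · intro h
        simp only [ev] at h
        by_cases h2 : ∃ j, ev v (f j) = c'
        · obtain ⟨j, hj⟩ := h2
          exact ⟨_, ⟨j, rfl⟩, hj⟩
        · rw [if_neg h2] at h
          cases c' <;> simp at h
    · rw [if_neg h]; simp
  | mod A k f => simp [argsOf]

lemma sum_sz_args (c : Bool) (u : UF p V) : ((argsOf c u).map sz).sum ≤ sz u := by
  cases u with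
  | lit x b => simp [argsOf]
  | cst b => simp [argsOf]
  | gate c' k f =>
    simp only [argsOf]
    split_ifs with h
    · rw [List.map_ofFn, List.sum_ofFn]
      simp only [sz, Function.comp]
      omega
    · simp
  | mod A k f => simp [argsOf]

lemma sz_gateL (c : Bool) (l : List (UF p V)) : sz (gateL c l) = 1 + (l.map sz).sum := by
  unfold gateL
  simp only [sz]
  congr 1
  rw [← List.sum_ofFn]
  congr 1
  apply List.ext_get
  · simp
  · intro i h1 h2
    simp

lemma dep_gateL (c : Bool) (l : List (UF p V)) {D : ℕ} (h : ∀ u ∈ l, dep u ≤ D) :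
    dep (gateL c l) ≤ 1 + D := by
  unfold gateL
  simp only [dep]
  apply Nat.add_le_add_left
  apply Finset.sup_le
  intro j _
  exact h _ (List.get_mem l j)

lemma dep_args_le (c : Bool) (u : UF p V) : ∀ u' ∈ argsOf c u, dep u' ≤ dep u := by
  intro u' hu'
  cases u with
  | lit x b => simp only [argsOf, List.mem_singleton] at hu'; rw [hu']
  | cst b => simp only [argsOf, List.mem_singleton] at hu'; rw [hu']
  | gate c' k f =>
    simp only [argsOf] at hu'
    split_ifs at hu' with h
    · rw [List.mem_ofFn] at hu'
      obtain ⟨j, rfl⟩ := hu'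
      simp only [dep]
      have := Finset.le_sup (f := fun j => dep (f j)) (mem_univ j)
      omega
    · rw [List.mem_singleton] at hu'; rw [hu']
  | mod A k f => simp only [argsOf, List.mem_singleton] at hu'; rw [hu']

lemma argsOf_gateL_same (c : Bool) (l : List (UF p V)) : argsOf c (gateL c l) = l := by
  unfold gateL
  simp only [argsOf, if_true]
  exact List.ofFn_get l

lemma argsOf_gateL_ne {c c' : Bool} (h : c' ≠ c) (l : List (UF p V)) :
    argsOf c (gateL c' l) = [gateL c' l] := by
  unfold gateL
  simp only [argsOf, if_neg h]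

/-- translation; the flag `s` says whether the formula is to be negated -/
def toU : Bool → Fml p V → UF p V
  | s, .var x => lit x (!s)
  | s, .cst b => cst (xor b s)
  | s, .neg a => toU (!s) a
  | s, .bin c a b => gateL (xor c s) (argsOf (xor c s) (toU s a) ++ argsOf (xor c s) (toU s b))
  | s, .mod i k f => mod (fun r => xor (decide (r = i)) s) k (fun j => toU false (f j))

lemma ev_toU (v : V → Bool) (a : Fml p V) : ∀ s, ev v (toU s a) = xor (eval v a) s := by
  induction a with
  | var x => intro s; simp only [toU, ev, eval]; cases v x <;> cases s <;> rfl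
  | cst b => intro s; rfl
  | neg a ih => intro s; simp only [toU, eval]; rw [ih]; cases eval v a <;> cases s <;> rfl
  | bin c a b iha ihb =>
    intro s
    simp only [toU]
    rw [ev_gateL]
    have h : (∃ u ∈ argsOf (xor c s) (toU s a) ++ argsOf (xor c s) (toU s b),
        ev v u = xor c s) ↔ (ev v (toU s a) = xor c s ∨ ev v (toU s b) = xor c s) := by
      rw [← ev_args v (xor c s) (toU s a), ← ev_args v (xor c s) (toU s b)]
      simp only [List.mem_append]
      constructor
      · rintro ⟨u, hu | hu, h⟩
        · left; exact ⟨u, hu, h⟩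
        · right; exact ⟨u, hu, h⟩
      · rintro (⟨u, hu, h⟩ | ⟨u, hu, h⟩)
        · exact ⟨u, Or.inl hu, h⟩
        · exact ⟨u, Or.inr hu, h⟩
    rw [iha, ihb] at h
    simp only [eval]
    by_cases h1 : (xor (eval v a) s = xor c s ∨ xor (eval v b) s = xor c s)
    · rw [if_pos (h.mpr h1)]
      revert h1
      cases eval v a <;> cases eval v b <;> cases c <;> cases s <;> simp
    · rw [if_neg (fun h2 => h1 (h.mp h2))]
      revert h1
      cases eval v a <;> cases eval v b <;> cases c <;> cases s <;> simp
  | mod i k f ih =>
    intro s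
    simp only [toU, ev, eval]
    congr 1
    have : ∀ j, ev v (toU false (f j)) = eval v (f j) := by
      intro j; rw [ih j]; simp
    simp only [this]

lemma sz_toU (a : Fml p V) : ∀ s, sz (toU s a) ≤ size a := by
  induction a with
  | var x => intro s; simp [toU, sz, size]
  | cst b => intro s; simp [toU, sz, size]
  | neg a ih => intro s; simp only [toU, size]; exact (ih _).trans (Nat.le_succ _)
  | bin c a b iha ihb =>
    intro s
    simp only [toU, size]
    rw [sz_gateL, List.map_append, List.sum_append]
    have h1 := sum_sz_args (xor c s) (toU s a)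
    have h2 := sum_sz_args (xor c s) (toU s b)
    have h3 := iha s
    have h4 := ihb s
    omega
  | mod i k f ih =>
    intro s
    simp only [toU, sz, size]
    rw [add_comm]
    apply Nat.add_le_add_right
    exact sum_le_sum fun j _ => ih j false

lemma dep_toU_aux (a : Fml p V) : ∀ s,
    dep (toU s a) ≤ dpt none a ∧ dep (toU s a) ≤ dpt (some none) a ∧
    ∀ c, ∀ u ∈ argsOf (xor c s) (toU s a), dep u ≤ dpt (some (some c)) a := by
  induction a with
  | var x => intro s; simp [toU, dep, argsOf, dpt]
  | cst b => intro s; simp [toU, dep, argsOf, dpt]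
  | neg a ih =>
    intro s
    obtain ⟨h1, h2, h3⟩ := ih (!s)
    simp only [toU, dpt]
    refine ⟨?_, ?_, ?_⟩
    · simp; omega
    · simp; exact h2
    · intro c u hu
      have := dep_args_le _ _ u hu
      simp
      omega
  | bin c a b iha ihb =>
    intro s
    obtain ⟨a1, a2, a3⟩ := iha s
    obtain ⟨b1, b2, b3⟩ := ihb s
    have key : ∀ u ∈ argsOf (xor c s) (toU s a) ++ argsOf (xor c s) (toU s b),
        dep u ≤ max (dpt (some (some c)) a) (dpt (some (some c)) b) := by
      intro u hu
      rw [List.mem_append] at hu
      rcases hu with hu | hu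
      · exact (a3 c u hu).trans (le_max_left _ _)
      · exact (b3 c u hu).trans (le_max_right _ _)
    have hd : dep (toU s (bin c a b)) ≤
        1 + max (dpt (some (some c)) a) (dpt (some (some c)) b) := by
      simp only [toU]; exact dep_gateL _ _ key
    refine ⟨?_, ?_, ?_⟩
    · simp only [dpt]
      simpa using hd
    · simp only [dpt]
      simpa using hd
    · intro c' u hu
      simp only [dpt]
      by_cases hc : c' = c
      · subst hc
        simp only [toU] at hu
        rw [argsOf_gateL_same] at hu
        have := key u hu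
        simpa using this
      · have h1 := (dep_args_le _ _ u hu).trans hd
        rw [if_neg (by simpa using hc)]
        exact h1
  | mod i k f ih =>
    intro s
    have hd : dep (toU s (Fml.mod i k f)) ≤ 1 + univ.sup fun j => dpt none (f j) := by
      simp only [toU, dep]
      apply Nat.add_le_add_left
      apply Finset.sup_le
      intro j _
      exact ((ih j false).1).trans (Finset.le_sup (f := fun j => dpt none (f j)) (mem_univ j))
    refine ⟨?_, ?_, ?_⟩
    · simpa only [dpt] using hd
    · simpa only [dpt] using hd
    · intro c u hu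
      have h1 := (dep_args_le _ _ u hu).trans hd
      simpa only [dpt] using h1

lemma dep_toU (a : Fml p V) (s : Bool) : dep (toU s a) ≤ depth a := (dep_toU_aux a s).1

end UF

end Pool.Agent.Work.MP_c04246_lc.X
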