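import Mathlib
import Pool.Agent.Work.MP_c04246_lc.XFamily

set_option autoImplicit false
set_option linter.unusedSectionVars false
set_option linter.unusedSimpArgs false
set_option linter.unusedVariables false

namespace Pool.Agent.Work.MP_c04246_lc.X

open Finset

section

variable {n m : ℕ} {q : ℕ} [Fact q.Prime] [NeZero q] {K' : Type} [Field K'] {ψ : AddChar (ZMod q) K'}

open Classical in
/-- indicator of the falsity of a clause -/
noncomputable def zc (K' : Type) [Field K'] (ρ : Fin n → Bool × Tq q)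
    (C : Finset ((Fin n × Fin (q - 1)) × Bool)) : (Fin n → ZMod q) → K' :=
  fun y => if ClTrue (xT (Wd (cd q) ρ y)) C then (0 : K') else 1

lemma Zr_clause (hψ : ψ.IsPrimitive) (hq0 : (q : K') ≠ 0) (G : Fin n → Fin m × Fin m)
    (ρ : Fin n → Bool × Tq q) {ℓ r0 B M : ℕ} (hℓ : 1 ≤ ℓ) (hr0 : 1 ≤ r0)
    (hE : Expd (cobG q G (fun j => (ρ j).1)) ℓ r0) (hB : 2 * B ≤ ℓ * r0)
    (hdg : ∀ v, dg G v ≤ M) (hM : 2 * M ≤ B) {C : Finset ((Fin n × Fin (q - 1)) × Bool)}
    (hC : C ∈ Fts q G) :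
    Deg ψ M (zc K' ρ C) ∧
      Zr (cobG q G (fun j => (ρ j).1)) r0 ψ (crs q G ρ) B (zc K' ρ C) := by
  classical
  unfold Fts at hC
  rw [mem_biUnion] at hC
  obtain ⟨v, _, hC⟩ := hC
  rw [mem_image] at hC
  obtain ⟨x, hx, rfl⟩ := hC
  have hD : Deg ψ M (zc K' ρ (clse q G v x)) := by
    refine Deg.mono ?_ (Deg.of_junta hψ hq0 (Ic G v) _ (Dep_clause (K' := K') G ρ v x))
    exact hdg v
  refine ⟨hD, ?_⟩
  have hv1 := sc_cobG_single (q := q) G (fun j => (ρ j).1) v
  have hv2 : sc (cobG q G (fun j => (ρ j).1) (Pi.single v 1)) ≤ M := hv1.trans (hdg v)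
  have h1 : Zr (cobG q G (fun j => (ρ j).1)) r0 ψ (crs q G ρ) B
      (viol K' (cobG q G (fun j => (ρ j).1)) (crs q G ρ) v) :=
    Zr.of_viol hψ hq0 hE hℓ hB hr0 (by omega) v hv2
  have h2 : zc K' ρ (clse q G v x) =
      viol K' (cobG q G (fun j => (ρ j).1)) (crs q G ρ) v * zc K' ρ (clse q G v x) := by
    funext y
    rw [Pi.mul_apply]
    by_cases h : ClTrue (xT (Wd (cd q) ρ y)) (clse q G v x)
    · simp only [zc, if_pos h, mul_zero]
    · have h3 := h
      rw [ClTrue_clse, not_not] at h3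
      have h4 : rw' q G v (Wd (cd q) ρ y) = rw' q G v x := rw'_congr h3
      unfold wrong at hx
      rw [mem_filter] at hx
      have h5 : ¬ dv (cobG q G (fun j => (ρ j).1)) y v = crs q G ρ v := by
        rw [← rw'_Wd, h4]; exact hx.2
      unfold viol
      rw [if_neg h5, one_mul]
  rw [h2]
  exact Zr.mul hψ hq0 hE hℓ hB (by omega) (Deg.of_viol hψ hq0 v hv2) h1 hD

lemma refutation_false (hψ : ψ.IsPrimitive) (hq0 : (q : K') ≠ 0) (G : Fin n → Fin m × Fin m)
    (ρ : Fin n → Bool × Tq q) {ℓ r0 B M K : ℕ} (hℓ : 1 ≤ ℓ) (hr0 : 1 ≤ r0)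
    (hE : Expd (cobG q G (fun j => (ρ j).1)) ℓ r0) (hB : 2 * B ≤ ℓ * r0)
    (hdg : ∀ v, dg G v ≤ M) (hM : (2 * K + 2) * M ≤ B)
    (pi : List ((Fin n × Fin (q - 1) → Bool) → Bool)) (hpi : SemRef K (Fts q G) pi)
    (hdeg : ∀ f ∈ pi, Deg ψ M (bF K' fun y => f (xT (Wd (cd q) ρ y)))) : False := by
  classical
  have hM2 : 2 * M ≤ B := le_trans (Nat.mul_le_mul_right _ (by omega)) hM
  set zl : Fin pi.length → (Fin n → ZMod q) → K' := fun i =>
    bF K' (fun y => !(pi.get i (xT (Wd (cd q) ρ y)))) with hzl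
  have hzD : ∀ i, Deg ψ M (zl i) := fun i => Deg.bF_not (hdeg _ (List.get_mem pi i))
  have key : ∀ k : ℕ, ∀ i : Fin pi.length, i.val = k →
      Zr (cobG q G (fun j => (ρ j).1)) r0 ψ (crs q G ρ) B (zl i) := by
    intro k
    induction k using Nat.strong_induction_on with
    | _ k ih =>
      intro i hi
      obtain ⟨P, hPK, hPi, D, hDF, hDK, himp⟩ := hpi.1 i
      refine Zr.of_pointwise hψ hq0 hE hℓ hB (M := M) (P.disjSum D)
        (Sum.elim zl (zc K' ρ)) ?_ ?_ ?_ (hzD i) ?_ ?_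
      · rintro (j | C) hjC
        · exact hzD j
        · rw [inr_mem_disjSum] at hjC
          exact (Zr_clause hψ hq0 G ρ hℓ hr0 hE hB hdg hM2 (hDF hjC)).1
      · rintro (j | C) hjC
        · rw [inl_mem_disjSum] at hjC
          have := hPi j hjC
          exact ih j.val (by rw [← hi]; exact this) j rfl
        · rw [inr_mem_disjSum] at hjC
          exact (Zr_clause hψ hq0 G ρ hℓ hr0 hE hB hdg hM2 (hDF hjC)).2
      · rintro (j | C) hjC y
        · simp only [Sum.elim_inl, hzl, bF_apply]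
          split_ifs
          · right; rfl
          · left; rfl
        · simp only [Sum.elim_inr, zc]
          split_ifs
          · left; rfl
          · right; rfl
      · rw [card_disjSum]
        refine le_trans (Nat.mul_le_mul_right _ ?_) hM
        omega
      · intro y hy
        have h1 := himp (xT (Wd (cd q) ρ y)) (by
          intro j hj
          have h2 := hy (Sum.inl j) (by rw [inl_mem_disjSum]; exact hj)
          simp only [Sum.elim_inl, hzl, bF_apply] at h2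
          by_contra h3
          rw [Bool.not_eq_true] at h3
          rw [h3] at h2
          simp at h2) (by
          intro C hC
          have h2 := hy (Sum.inr C) (by rw [inr_mem_disjSum]; exact hC)
          simp only [Sum.elim_inr, zc] at h2
          by_contra h3
          rw [if_neg h3] at h2
          exact one_ne_zero h2)
        simp only [hzl, bF_apply, h1]
        simp
  obtain ⟨a, ha, hfalse⟩ := hpi.2
  obtain ⟨i, hi⟩ := List.get_of_mem ha
  have h1 := key i.val i rfl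
  have h2 : zl i = (1 : (Fin n → ZMod q) → K') := by
    funext y
    simp only [hzl, bF_apply, hi, hfalse]
    simp
  rw [h2] at h1
  exact not_Zr_one hψ hq0 hE hℓ h1

end

lemma log_small (A : ℕ) : ∃ n0 : ℕ, ∀ n ≥ n0, A * (Nat.log 2 n + 5) ≤ n := by
  refine ⟨2 ^ (A + 5), fun n hn => ?_⟩
  have hn0 : n ≠ 0 := by
    have : 0 < 2 ^ (A + 5) := by positivity
    omega
  set k := Nat.log 2 n with hk
  have h1 : A + 5 ≤ k := by
    rw [hk]
    exact Nat.le_log_of_pow_le (by norm_num) hn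
  have h2 : 2 ^ k ≤ n := Nat.pow_log_le_self 2 hn0
  have h3 : ∀ k : ℕ, 5 ≤ k → k * k ≤ 2 ^ k := by
    intro k hk
    induction k, hk using Nat.le_induction with
    | base => norm_num
    | succ k hk ih =>
      rw [pow_succ]
      nlinarith
  have h4 := h3 k (by omega)
  have h5 : A * (k + 5) ≤ k * k := by nlinarith
  omega

theorem endgame (q : ℕ) [Fact q.Prime] : ∃ (c : ℕ)
    (F : (n : ℕ) → Finset (Finset ((Fin n × Fin (q - 1)) × Bool))),
    (∀ n, Unsat (F n) ∧ (F n).card ≤ c * (n + 1) ^ c ∧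
      ∀ C ∈ F n, C.card ≤ c * (Nat.log 2 n + 1)) ∧
    ∀ K : ℕ, ∃ a1 : ℕ, 1 ≤ a1 ∧ ∀ b : ℕ, 1 ≤ b → ∃ a n0 : ℕ,
      ∀ (K' : Type) [Field K'] (ψ : AddChar (ZMod q) K'), ψ.IsPrimitive → (q : K') ≠ 0 →
      ∀ n ≥ n0, ∀ pi : List ((Fin n × Fin (q - 1) → Bool) → Bool), SemRef K (F n) pi →
        (∀ f ∈ pi, (open Classical in (univ.filter fun ρ : Fin n → Bool × Tq q =>
          ¬ Deg ψ (n / a1) (bF K' fun y => f (xT (Wd (cd q) ρ y)))).card) * 2 ^ (n / b) ≤
            Fintype.card (Fin n → Bool × Tq q)) →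
        2 ^ n ≤ pi.length ^ a := by
  classical
  have : NeZero q := ⟨(Fact.out : q.Prime).ne_zero⟩
  have hq1 : 1 < q := (Fact.out : q.Prime).one_lt
  -- the family
  set c : ℕ := 32 ^ (65 * q) with hc
  have hc1 : 1 ≤ c := Nat.one_le_pow _ _ (by norm_num)
  have hc2 : 65 * q * 5 ≤ c := by
    have h1 : 65 * q * 5 < 2 ^ (65 * q * 5) := Nat.lt_two_pow_self
    have h2 : (2 : ℕ) ^ (65 * q * 5) = c := by
      rw [hc, mul_comm, pow_mul]; norm_num
    omega
  have fam : ∀ n : ℕ, ∃ Fn : Finset (Finset ((Fin n × Fin (q - 1)) × Bool)),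
      (Unsat Fn ∧ Fn.card ≤ c * (n + 1) ^ c ∧ ∀ C ∈ Fn, C.card ≤ c * (Nat.log 2 n + 1)) ∧
      (8 * (Nat.log 2 n + 5) ≤ n → ∃ m : ℕ, 1 ≤ m ∧ 8 * (Nat.log 2 n + 5) * m ≤ n ∧
        n ≤ 16 * (Nat.log 2 n + 5) * m ∧ ∃ G : Fin n → Fin m × Fin m, Fn = Fts q G ∧
        (∀ v, dg G v < 65 * (Nat.log 2 n + 5)) ∧
        4 * (univ.filter fun ρ : Fin n → Bool × Tq q =>
          ¬ ExpOK (Nat.log 2 n + 5) G (fun j => (ρ j).1)).card ≤
          Fintype.card (Fin n → Bool × Tq q)) := by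
    intro n
    set ℓ := Nat.log 2 n + 5 with hℓ
    by_cases hn : 8 * ℓ ≤ n
    · set m := n / (8 * ℓ) with hm
      have hm1 : 1 ≤ m := by rw [hm]; exact (Nat.one_le_div_iff (by omega)).mpr hn
      have h1 : 8 * ℓ * m ≤ n := Nat.mul_div_le _ _
      have h2 : n ≤ 16 * ℓ * m := by
        have h3 : n < 8 * ℓ * m + 8 * ℓ := by
          rw [hm]
          have := Nat.div_add_mod n (8 * ℓ)
          have := Nat.mod_lt n (show 0 < 8 * ℓ by omega)
          omega
        nlinarith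
      have hn0 : n ≠ 0 := by omega
      have h3 : 16 * m ≤ 2 ^ ℓ := by
        have h4 : n < 2 ^ (Nat.log 2 n + 1) := Nat.lt_pow_succ_log_self (by norm_num) n
        have h5 : m ≤ n := Nat.div_le_self _ _
        have h6 : 2 ^ ℓ = 16 * 2 ^ (Nat.log 2 n + 1) := by
          rw [hℓ, show Nat.log 2 n + 5 = 4 + (Nat.log 2 n + 1) by ring, pow_add]; norm_num
        omega
      obtain ⟨G, hG1, hG2⟩ := exists_graph (Tq q) ℓ hm1 h1 h2 h3
      refine ⟨Fts q G, ⟨Unsat_Fts G hm1, ?_, ?_⟩, fun _ => ⟨m, hm1, h1, h2, G, rfl, hG1, hG2⟩⟩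
      · refine (card_Fts G (D := 65 * ℓ) fun v => (hG1 v).le).trans ?_
        have h4 : 2 ^ (Nat.log 2 n) ≤ n := Nat.pow_log_le_self 2 hn0
        have h5 : 2 ^ ((q - 1) * (65 * ℓ)) ≤ (32 * n) ^ (65 * (q - 1)) := by
          have h6 : 2 ^ ((q - 1) * (65 * ℓ)) = (2 ^ ℓ) ^ (65 * (q - 1)) := by
            rw [← pow_mul]; congr 1; ring
          rw [h6]
          apply Nat.pow_le_pow_left
          rw [hℓ, pow_add]
          omega
        have h7 : 65 * (q - 1) + 1 ≤ c := by omega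
        calc m * 2 ^ ((q - 1) * (65 * ℓ)) ≤ (n + 1) * (32 * n) ^ (65 * (q - 1)) := by
              apply Nat.mul_le_mul _ h5
              have : m ≤ n := Nat.div_le_self _ _
              omega
          _ = (n + 1) * (32 ^ (65 * (q - 1)) * n ^ (65 * (q - 1))) := by rw [mul_pow]
          _ ≤ (n + 1) * (c * (n + 1) ^ (65 * (q - 1))) := by
              apply Nat.mul_le_mul_left
              apply Nat.mul_le_mul
              · rw [hc]; exact Nat.pow_le_pow_right (by norm_num) (by omega)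
              · exact Nat.pow_le_pow_left (by omega) _
          _ = c * (n + 1) ^ (65 * (q - 1) + 1) := by rw [pow_succ]; ring
          _ ≤ c * (n + 1) ^ c := by
              apply Nat.mul_le_mul_left
              exact Nat.pow_le_pow_right (by omega) h7
      · intro C hC
        unfold Fts at hC
        rw [mem_biUnion] at hC
        obtain ⟨v, _, hC⟩ := hC
        rw [mem_image] at hC
        obtain ⟨x, _, rfl⟩ := hC
        refine (card_clse G v x).trans ?_
        calc (q - 1) * dg G v ≤ q * (65 * ℓ) := by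
              apply Nat.mul_le_mul (by omega) (hG1 v).le
          _ ≤ 65 * q * 5 * (Nat.log 2 n + 1) := by
              rw [hℓ]
              nlinarith [Nat.zero_le (q * Nat.log 2 n)]
          _ ≤ c * (Nat.log 2 n + 1) := Nat.mul_le_mul_right _ hc2
    · refine ⟨{∅}, ⟨?_, ?_, ?_⟩, fun h => absurd h hn⟩
      · intro a
        refine ⟨∅, by simp, ?_⟩
        rintro ⟨l, hl, _⟩
        simp at hl
      · rw [card_singleton]
        exact Nat.mul_pos hc1 (Nat.pow_pos (Nat.succ_pos n))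
      · intro C hC
        rw [mem_singleton] at hC
        rw [hC, card_empty]
        exact Nat.zero_le _
  choose F hF1 hF2 using fam
  refine ⟨c, F, hF1, fun K => ?_⟩
  set a1 : ℕ := 256 * (2 * K + 2) with ha1
  refine ⟨a1, by omega, fun b hb => ?_⟩
  obtain ⟨n1, hn1⟩ := log_small (65 * a1)
  refine ⟨4 * b, max n1 (8 * b), fun K' _ ψ hψ hq0 n hn pi hpi hbad => ?_⟩
  have hnn1 := hn1 n (le_of_max_le_left hn)
  have hn8b : 8 * b ≤ n := le_of_max_le_right hn
  set ℓ := Nat.log 2 n + 5 with hℓ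
  have ha1' : 512 ≤ a1 := by rw [ha1]; nlinarith [Nat.zero_le K]
  have h8 : 8 * ℓ ≤ n := by
    have h1 : 8 * ℓ ≤ 65 * a1 * ℓ := by
      have h2 : 8 ≤ 65 * a1 := by omega
      exact Nat.mul_le_mul_right ℓ h2
    exact h1.trans hnn1
  obtain ⟨m, hm1, hm8, hm16, G, hG0, hG1, hG2⟩ := hF2 n h8
  rw [hG0] at hpi
  rw [← hℓ] at hm8 hm16 hG1 hG2
  set D := n / a1 with hD
  set Ω := Fintype.card (Fin n → Bool × Tq q) with hΩ
  have hΩ0 : 0 < Ω := Fintype.card_pos
  have hℓ1 : 1 ≤ ℓ := by omega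
  have hm4 : 4 ≤ m := by
    have h1 : 64 * ℓ ≤ 16 * ℓ * m := by
      calc 64 * ℓ ≤ 65 * a1 * ℓ := Nat.mul_le_mul_right _ (by omega)
        _ ≤ n := hnn1
        _ ≤ _ := hm16
    have h2 : 16 * ℓ * 4 ≤ 16 * ℓ * m := by
      calc 16 * ℓ * 4 = 64 * ℓ := by ring
        _ ≤ _ := h1
    exact Nat.le_of_mul_le_mul_left h2 (by omega)
  have hℓD : 65 * ℓ ≤ D := by
    rw [hD, Nat.le_div_iff_mul_le (by omega)]
    calc 65 * ℓ * a1 = 65 * a1 * ℓ := by ring
      _ ≤ n := hnn1
  have hbudget : 2 * ((2 * K + 2) * D) ≤ ℓ * (m / 4) := by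
    have h1 : n ≤ 16 * ℓ * m := hm16
    have h2 : m ≤ 8 * (m / 4) := by omega
    have h3 : n ≤ 128 * (ℓ * (m / 4)) := by
      calc n ≤ 16 * ℓ * m := h1
        _ ≤ 16 * ℓ * (8 * (m / 4)) := Nat.mul_le_mul_left _ h2
        _ = 128 * (ℓ * (m / 4)) := by ring
    have h4 : a1 * D ≤ n := Nat.mul_div_le _ _
    have h5 : 128 * (2 * ((2 * K + 2) * D)) ≤ 128 * (ℓ * (m / 4)) := by
      calc 128 * (2 * ((2 * K + 2) * D)) = a1 * D := by rw [ha1]; ring
        _ ≤ n := h4
        _ ≤ _ := h3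
    omega
  -- every good restriction has a bad line
  have hcover : (univ.filter fun ρ : Fin n → Bool × Tq q =>
      ExpOK ℓ G (fun j => (ρ j).1)) ⊆
      (univ : Finset (Fin pi.length)).biUnion fun i => univ.filter fun ρ : Fin n → Bool × Tq q =>
        ¬ Deg ψ D (bF K' fun y => pi.get i (xT (Wd (cd q) ρ y))) := by
    intro ρ hρ
    rw [mem_filter] at hρ
    rw [mem_biUnion]
    by_contra hcon
    push Not at hcon
    refine refutation_false hψ hq0 G ρ hℓ1 (show 1 ≤ m / 4 by omega)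
      (Expd_cobG hρ.2 (r0 := m / 4) (by omega)) hbudget
      (fun v => (hG1 v).le.trans hℓD) le_rfl pi hpi ?_
    intro f hf
    obtain ⟨i, hi⟩ := List.get_of_mem hf
    have h1 := hcon i (mem_univ _)
    rw [mem_filter] at h1
    push Not at h1
    rw [← hi]
    exact h1 (mem_univ _)
  have h1 : (univ.filter fun ρ : Fin n → Bool × Tq q =>
      ExpOK ℓ G (fun j => (ρ j).1)).card * 2 ^ (n / b) ≤ pi.length * Ω := by
    calc (univ.filter fun ρ : Fin n → Bool × Tq q =>
          ExpOK ℓ G (fun j => (ρ j).1)).card * 2 ^ (n / b)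
        ≤ (∑ i : Fin pi.length, (univ.filter fun ρ : Fin n → Bool × Tq q =>
        ¬ Deg ψ D (bF K' fun y => pi.get i (xT (Wd (cd q) ρ y)))).card) * 2 ^ (n / b) :=
          Nat.mul_le_mul_right _ ((card_le_card hcover).trans card_biUnion_le)
      _ = ∑ i : Fin pi.length, (univ.filter fun ρ : Fin n → Bool × Tq q =>
        ¬ Deg ψ D (bF K' fun y => pi.get i (xT (Wd (cd q) ρ y)))).card * 2 ^ (n / b) := by
          rw [sum_mul]
      _ ≤ ∑ i : Fin pi.length, Ω := sum_le_sum fun i _ => hbad _ (List.get_mem pi i)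
      _ = pi.length * Ω := by rw [sum_const, card_univ, Fintype.card_fin, smul_eq_mul]
  have h2 : 3 * Ω ≤ 4 * (univ.filter fun ρ : Fin n → Bool × Tq q =>
      ExpOK ℓ G (fun j => (ρ j).1)).card := by
    have h3 := card_filter_add_card_filter_not (s := (univ : Finset (Fin n → Bool × Tq q)))
      (fun ρ => ExpOK ℓ G (fun j => (ρ j).1))
    rw [card_univ] at h3
    omega
  have h3 : 2 ^ (n / b) ≤ 2 * pi.length := by
    have h4 : Ω * (3 * 2 ^ (n / b)) ≤ Ω * (4 * pi.length) := by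
      calc Ω * (3 * 2 ^ (n / b)) = (3 * Ω) * 2 ^ (n / b) := by ring
        _ ≤ (4 * (univ.filter fun ρ : Fin n → Bool × Tq q =>
          ExpOK ℓ G (fun j => (ρ j).1)).card) * 2 ^ (n / b) := Nat.mul_le_mul_right _ h2
        _ = 4 * ((univ.filter fun ρ : Fin n → Bool × Tq q =>
          ExpOK ℓ G (fun j => (ρ j).1)).card * 2 ^ (n / b)) := by ring
        _ ≤ 4 * (pi.length * Ω) := Nat.mul_le_mul_left _ h1
        _ = Ω * (4 * pi.length) := by ring
    have h5 := Nat.le_of_mul_le_mul_left h4 hΩ0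
    omega
  have h4 : 2 ^ (n / b - 1) ≤ pi.length := by
    have h5 : 8 ≤ n / b := by rw [Nat.le_div_iff_mul_le (by omega)]; exact hn8b
    have h6 : 2 ^ (n / b) = 2 * 2 ^ (n / b - 1) := by
      rw [← pow_succ']; congr 1; omega
    omega
  calc 2 ^ n ≤ 2 ^ ((n / b - 1) * (4 * b)) := by
        apply Nat.pow_le_pow_right (by norm_num)
        have h5 : n < b * (n / b) + b := by
          have := Nat.div_add_mod n b
          have := Nat.mod_lt n (show 0 < b by omega)
          omega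
        have h6 : 8 ≤ n / b := by rw [Nat.le_div_iff_mul_le (by omega)]; exact hn8b
        have h7 : (n / b - 1) * (4 * b) = 4 * (b * (n / b)) - 4 * b := by
          rw [Nat.sub_mul, one_mul]; congr 1; ring
        rw [h7]
        omega
    _ = (2 ^ (n / b - 1)) ^ (4 * b) := by rw [pow_mul]
    _ ≤ pi.length ^ (4 * b) := Nat.pow_le_pow_left h4 _

end Pool.Agent.Work.MP_c04246_lc.X
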