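import Mathlib
import Pool.Agent.Work.MP_c04246_lc.XEnd

set_option autoImplicit false
set_option linter.unusedSectionVars false
set_option linter.unusedSimpArgs false
set_option linter.unusedVariables false

namespace Pool.Agent.Work.MP_c04246_lc.X

open Finset

section

variable {J : Type} [Fintype J] [DecidableEq J] {q : ℕ} [NeZero q] {K' : Type} [Field K']
  {ψ : AddChar (ZMod q) K'}

lemma DT_deg (hψ : ψ.IsPrimitive) (hq : (q : K') ≠ 0) {P : Finset J → (J → ZMod q) → Prop}
    {H : Finset J} {w : J → ZMod q} {t : ℕ} (h : DT P H w t) {D : ℕ}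
    {f : (J → ZMod q) → K'}
    (hP : ∀ H w, P H w → ∃ g, Deg ψ D g ∧ ∀ y, Agr H w y → f y = g y) :
    ∃ g, Deg ψ (D + t) g ∧ ∀ y, Agr H w y → f y = g y := by
  induction h with
  | leaf H w t hPw =>
    obtain ⟨g, hg, hgy⟩ := hP H w hPw
    exact ⟨g, hg.mono (by omega), hgy⟩
  | query H w t j hj ih =>
    choose g hg hgy using ih
    refine ⟨fun y => g (y j) y, ?_, ?_⟩
    · exact Deg.of_query hψ hq j _ g hg fun y => rfl
    · intro y hy
      apply hgy
      intro e he
      by_cases hej : e = j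
      · subst hej; simp
      · rw [Function.update_of_ne hej]
        exact hy e ((mem_insert.mp he).resolve_left hej)

lemma Deg.of_DT (hψ : ψ.IsPrimitive) (hq : (q : K') ≠ 0) {P : Finset J → (J → ZMod q) → Prop}
    {w : J → ZMod q} {t : ℕ} (h : DT P ∅ w t) {D : ℕ}
    {f : (J → ZMod q) → K'}
    (hP : ∀ H w, P H w → ∃ g, Deg ψ D g ∧ ∀ y, Agr H w y → f y = g y) : Deg ψ (D + t) f := by
  obtain ⟨g, hg, hgy⟩ := DT_deg hψ hq h hP
  have : f = g := by
    funext y
    exact hgy y (by intro e he; simp at he)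
  rw [this]; exact hg

end

section

variable {n s : ℕ}

/-- columns of a set of variables -/
def cols (S : Finset (Fin n × Fin s)) : Finset (Fin n) := S.image Prod.fst

lemma card_cols (S : Finset (Fin n × Fin s)) : (cols S).card ≤ S.card := card_image_le

lemma xT_congr {S : Finset (Fin n × Fin s)} {x x' : Fin n → Fin s → Bool}
    (h : ∀ j ∈ cols S, x j = x' j) : ∀ z ∈ S, xT x z = xT x' z := by
  intro z hz
  unfold xT
  rw [h z.1 (mem_image_of_mem _ hz)]

variable {q : ℕ} [Fact q.Prime] [NeZero q] {K' : Type} [Field K'] {ψ : AddChar (ZMod q) K'}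

lemma Deg.of_local (hψ : ψ.IsPrimitive) (hq : (q : K') ≠ 0) {k : ℕ}
    {S : Finset (Fin n × Fin (q - 1))} (hS : S.card ≤ k)
    {h : (Fin n × Fin (q - 1) → Bool) → Bool}
    (hh : ∀ v v', (∀ x ∈ S, v x = v' x) → h v = h v') (ρ : Fin n → Bool × Tq q) :
    Deg ψ k (bF K' fun y => h (xT (Wd (cd q) ρ y))) := by
  refine Deg.mono ((card_cols S).trans hS) (Deg.of_junta hψ hq (cols S) _ ?_)
  intro y y' hy
  rw [bF_apply, bF_apply]
  rw [hh (xT (Wd (cd q) ρ y)) (xT (Wd (cd q) ρ y'))]
  apply xT_congr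
  intro j hj
  unfold Wd
  rw [hy j hj]

/-- inputs of a gate for given values of the gates -/
noncomputable def inp {g l : ℕ} {k i : ℕ}
    (h : Fin l → (Fin n × Fin s → Bool) → (Fin g → Bool) → Bool)
    (hl : ∀ t, LocalIn k i (h t)) (α : Fin g → Bool) : List (Jn (Fin n) (Fin s → Bool)) :=
  (List.finRange l).map fun t => (cols (hl t).choose, fun x => h t (xT x) α)

lemma inp_spec {g l : ℕ} {k i : ℕ}
    (h : Fin l → (Fin n × Fin s → Bool) → (Fin g → Bool) → Bool)
    (hl : ∀ t, LocalIn k i (h t)) (α : Fin g → Bool) :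
    ∀ z ∈ inp h hl α, z.1.card ≤ k ∧ Dep z.1 z.2 := by
  intro z hz
  unfold inp at hz
  rw [List.mem_map] at hz
  obtain ⟨t, _, rfl⟩ := hz
  have h1 := (hl t).choose_spec
  refine ⟨(card_cols _).trans h1.1, ?_⟩
  intro x x' hx
  exact h1.2 _ _ _ _ (xT_congr hx) (fun _ _ => rfl)

lemma gv_inp {g l : ℕ} {k i : ℕ}
    (h : Fin l → (Fin n × Fin (q - 1) → Bool) → (Fin g → Bool) → Bool)
    (hl : ∀ t, LocalIn k i (h t)) (α : Fin g → Bool) (c : Bool) (ρ : Fin n → Bool × Tq q)
    (y : Fin n → ZMod q) :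
    gv (cd q) ρ (c, inp h hl α) y ↔ ∃ t, h t (xT (Wd (cd q) ρ y)) α = c := by
  unfold gv inp
  simp only [List.mem_map, List.mem_finRange, true_and]
  constructor
  · rintro ⟨z, ⟨t, rfl⟩, hz⟩
    exact ⟨t, hz⟩
  · rintro ⟨t, ht⟩
    exact ⟨_, ⟨t, rfl⟩, ht⟩

open Classical in
/-- the value of a gate of the kind `τ`: `inl true` is a disjunction, `inl false` a conjunction,
`inr r` is `MOD_{p,r}` -/
noncomputable def cv {p l : ℕ} (τ : Bool ⊕ ZMod p) (b : Fin l → Bool) : Bool :=
  match τ with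
  | Sum.inl c => if (∃ t, b t = c) then c else !c
  | Sum.inr r => decide ((∑ t, if b t = true then (1 : ZMod p) else 0) = r)

lemma cv_congr {p l : ℕ} {c : Bool} {b b' : Fin l → Bool}
    (h : (∃ t, b t = c) ↔ (∃ t, b' t = c)) :
    cv (Sum.inl c : Bool ⊕ ZMod p) b = cv (Sum.inl c : Bool ⊕ ZMod p) b' := by
  unfold cv
  simp only [h]

lemma exists_kind {g p k : ℕ} {G : Fin g → (Fin n × Fin s → Bool) → Bool} {i : Fin g}
    (h : IsGate p k G i) : ∃ (l : ℕ) (h : Fin l → (Fin n × Fin s → Bool) → (Fin g → Bool) → Bool)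
      (_ : ∀ t, LocalIn k i.val (h t)) (τ : Bool ⊕ ZMod p),
      ∀ v, G i v = cv τ (fun t => h t v (fun j => G j v)) := by
  obtain ⟨l, h, hl, h1 | h1 | ⟨r, h1⟩⟩ := h
  · refine ⟨l, h, hl, Sum.inl true, fun v => ?_⟩
    unfold cv
    simp only
    by_cases h2 : ∃ t, h t v (fun j => G j v) = true
    · rw [if_pos h2]; exact (h1 v).mpr h2
    · rw [if_neg h2]
      have : ¬ G i v = true := fun h3 => h2 ((h1 v).mp h3)
      simpa using this
  · refine ⟨l, h, hl, Sum.inl false, fun v => ?_⟩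
    unfold cv
    simp only
    by_cases h2 : ∃ t, h t v (fun j => G j v) = false
    · rw [if_pos h2]
      have : ¬ G i v = true := by
        intro h3
        obtain ⟨t, ht⟩ := h2
        have := (h1 v).mp h3 t
        rw [ht] at this
        exact absurd this (by simp)
      simpa using this
    · rw [if_neg h2]
      refine (h1 v).mpr fun t => ?_
      by_contra h3
      exact h2 ⟨t, by simpa using h3⟩
  · refine ⟨l, h, hl, Sum.inr r, fun v => ?_⟩
    unfold cv
    simp only
    by_cases h2 : (∑ t, if h t v (fun j => G j v) = true then (1 : ZMod p) else 0) = r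
    · rw [(h1 v).mpr h2]; simp [h2]
    · have : ¬ G i v = true := fun h3 => h2 ((h1 v).mp h3)
      simp only [h2, decide_false]
      simpa using this

/-- the gate list entry -/
noncomputable def ent {g l p k i : ℕ} (τ : Bool ⊕ ZMod p)
    (h : Fin l → (Fin n × Fin s → Bool) → (Fin g → Bool) → Bool)
    (hl : ∀ t, LocalIn k i (h t)) (α : Fin g → Bool) : Bool × List (Jn (Fin n) (Fin s → Bool)) :=
  match τ with
  | Sum.inl c => (c, inp h hl α)
  | Sum.inr _ => (true, [])

lemma ent_spec {g l p k i : ℕ} (τ : Bool ⊕ ZMod p)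
    (h : Fin l → (Fin n × Fin s → Bool) → (Fin g → Bool) → Bool)
    (hl : ∀ t, LocalIn k i (h t)) (α : Fin g → Bool) :
    ∀ z ∈ (ent τ h hl α).2, z.1.card ≤ k ∧ Dep z.1 z.2 := by
  intro z hz
  rcases τ with c | r
  · exact inp_spec h hl α z hz
  · simp [ent] at hz

/-- a factor is of low degree on every subcube on which the gate is constant -/
lemma factor_deg {g l p k i : ℕ} [Fact p.Prime] [CharP K' p] (hψ : ψ.IsPrimitive)
    (hq0 : (q : K') ≠ 0) (τ : Bool ⊕ ZMod p)
    (h : Fin l → (Fin n × Fin (q - 1) → Bool) → (Fin g → Bool) → Bool)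
    (hl : ∀ t, LocalIn k i (h t)) (α : Fin g → Bool) (ρ : Fin n → Bool × Tq q) (β : Bool)
    (H : Finset (Fin n)) (w : Fin n → ZMod q)
    (hA : ∀ y y', Agr H w y → Agr H w y' →
      (gv (cd q) ρ (ent τ h hl α) y ↔ gv (cd q) ρ (ent τ h hl α) y')) :
    ∃ gi : (Fin n → ZMod q) → K', Deg ψ (p * k) gi ∧ ∀ y, Agr H w y →
      (if cv τ (fun t => h t (xT (Wd (cd q) ρ y)) α) = β then (1 : K') else 0) = gi y := by
  rcases τ with c | r
  · refine ⟨fun _ => (if cv (Sum.inl c : Bool ⊕ ZMod p)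
      (fun t => h t (xT (Wd (cd q) ρ w)) α) = β then (1 : K') else 0), Deg.const _, ?_⟩
    intro y hy
    have h1 := hA y w hy (fun _ _ => rfl)
    simp only [ent] at h1
    rw [gv_inp, gv_inp] at h1
    rw [cv_congr (p := p) h1]
  · have h5 : Deg ψ (p * k) (bF K' fun y =>
        decide ((∑ t, if h t (xT (Wd (cd q) ρ y)) α = true then (1 : ZMod p) else 0) = r)) := by
      refine Deg.bF_mod (K := K') (v := fun t y => h t (xT (Wd (cd q) ρ y)) α) fun t => ?_
      obtain ⟨S, hS, hS'⟩ := hl t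
      exact Deg.of_local hψ hq0 hS (h := fun v => h t v α)
        (fun v v' hv => hS' v v' α α hv fun _ _ => rfl) ρ
    cases β
    · refine ⟨_, Deg.bF_not h5, ?_⟩
      intro y _
      rw [bF_apply]
      simp only [cv]
      by_cases h6 : (∑ t, if h t (xT (Wd (cd q) ρ y)) α = true then (1 : ZMod p) else 0) = r
      · simp [h6]
      · simp [h6]
    · refine ⟨_, h5, ?_⟩
      intro y _
      rw [bF_apply]
      simp only [cv]

lemma hall {g p : ℕ} {l : Fin g → ℕ} {k : ℕ} {G : Fin g → (Fin n × Fin s → Bool) → Bool}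
    (h : (i : Fin g) → Fin (l i) → (Fin n × Fin s → Bool) → (Fin g → Bool) → Bool)
    (hl : ∀ i t, LocalIn k i.val (h i t)) (τ : Fin g → Bool ⊕ ZMod p)
    (hG : ∀ i v, G i v = cv (τ i) (fun t => h i t v (fun j => G j v)))
    (α : Fin g → Bool) (v : Fin n × Fin s → Bool) :
    (∀ i, cv (τ i) (fun t => h i t v α) = α i) ↔ α = fun j => G j v := by
  have hisG : ∀ i, (∀ j : Fin g, j.val < i.val → α j = G j v) →
      cv (τ i) (fun t => h i t v α) = G i v := by
    intro i hα
    rw [hG i v]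
    congr 1
    funext t
    obtain ⟨S, _, hS⟩ := hl i t
    exact hS v v _ _ (fun _ _ => rfl) hα
  constructor
  · intro hα
    have key : ∀ k : ℕ, ∀ i : Fin g, i.val = k → α i = G i v := by
      intro k
      induction k using Nat.strong_induction_on with
      | _ k ih =>
        intro i hi
        rw [← hα i]
        exact hisG i (fun j hj => ih j.val (by omega) j rfl)
    funext i
    exact key i.val i rfl
  · rintro rfl i
    exact hisG i fun _ _ => rfl

/-- the main lemma about circuits with few gates -/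
theorem few_degree (p q k : ℕ) [Fact p.Prime] [Fact q.Prime] [NeZero q] (a1 : ℕ) (ha1 : 1 ≤ a1) :
    ∃ b1 n0 : ℕ, 1 ≤ b1 ∧ ∀ (K' : Type) [Field K'] [CharP K' p] (ψ : AddChar (ZMod q) K'),
      ψ.IsPrimitive → (q : K') ≠ 0 → ∀ n ≥ n0, ∀ g : ℕ, b1 * g ≤ n →
      ∀ f : (Fin n × Fin (q - 1) → Bool) → Bool, Few p g k f →
        (open Classical in (univ.filter fun ρ : Fin n → Bool × Tq q =>
          ¬ Deg ψ (n / a1) (bF K' fun y => f (xT (Wd (cd q) ρ y)))).card) * 2 ^ (n / b1) ≤
            Fintype.card (Fin n → Bool × Tq q) := by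
  classical
  obtain ⟨b', hb', hclaim⟩ := claim (Tq q) k (2 * a1) (by omega)
  set b1 := b' * (8 * a1 * (p * k + 1)) with hb1
  have hR1 : 1 ≤ 8 * a1 * (p * k + 1) := Nat.mul_pos (by omega) (by omega)
  have hR8 : 8 ≤ 8 * a1 * (p * k + 1) := by
    calc 8 = 8 * 1 * 1 := by norm_num
      _ ≤ 8 * a1 * (p * k + 1) := by gcongr; omega
  have hb1' : b' ≤ b1 := Nat.le_mul_of_pos_right _ hR1
  refine ⟨b1, 8 * a1 * (k + 1), by omega, ?_⟩
  intro K' _ _ ψ hψ hq0 n hn g hg f hf
  obtain ⟨G, hG, h0, hh0, hf⟩ := hf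
  choose l h hl τ hG using fun i => exists_kind (hG i)
  let gs : (Fin g → Bool) → List (Bool × List (Jn (Fin n) (Tq q))) := fun α =>
    (List.finRange g).map fun i => ent (τ i) (h i) (hl i) α
  set bad := (univ : Finset (Fin g → Bool)).biUnion fun α =>
    BadS (cd q) (gs α) (0 : Fin n → ZMod q) (n / (2 * a1)) with hbad
  have hlen : ∀ α, (gs α).length = g := by intro α; simp [gs]
  have hb'g : b' * g ≤ n := le_trans (Nat.mul_le_mul_right _ hb1') hg
  have hbadcard : bad.card * 2 ^ (n / b') ≤ 2 ^ g * Fintype.card (Fin n → Bool × Tq q) := by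
    calc bad.card * 2 ^ (n / b')
        ≤ (∑ α : Fin g → Bool, (BadS (cd q) (gs α) (0 : Fin n → ZMod q) (n / (2 * a1))).card) *
            2 ^ (n / b') := Nat.mul_le_mul_right _ card_biUnion_le
      _ = ∑ α : Fin g → Bool, (BadS (cd q) (gs α) (0 : Fin n → ZMod q) (n / (2 * a1))).card *
            2 ^ (n / b') := by rw [sum_mul]
      _ ≤ ∑ α : Fin g → Bool, Fintype.card (Fin n → Bool × Tq q) := by
          refine sum_le_sum fun α _ => hclaim (ZMod q) (cd q) n (gs α) 0 ?_ ?_
          · intro g' hg' z hz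
            simp only [gs, List.mem_map, List.mem_finRange, true_and] at hg'
            obtain ⟨i, rfl⟩ := hg'
            exact ent_spec (τ i) (h i) (hl i) α z hz
          · rw [hlen]; exact hb'g
      _ = 2 ^ g * Fintype.card (Fin n → Bool × Tq q) := by
          rw [sum_const, card_univ, smul_eq_mul]
          congr 1
          simp
  -- numbers
  have hgn : g * (8 * a1 * (p * k + 1)) ≤ n / b' := by
    rw [Nat.le_div_iff_mul_le hb']
    calc g * (8 * a1 * (p * k + 1)) * b' = b1 * g := by rw [hb1]; ring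
      _ ≤ n := hg
  have hg8 : 8 * g ≤ n / b' := by
    calc 8 * g ≤ (8 * a1 * (p * k + 1)) * g := Nat.mul_le_mul_right _ hR8
      _ = g * (8 * a1 * (p * k + 1)) := by ring
      _ ≤ _ := hgn
  have hnb1 : 8 * (n / b1) ≤ n / b' := by
    rw [Nat.le_div_iff_mul_le hb']
    calc 8 * (n / b1) * b' ≤ (8 * a1 * (p * k + 1)) * (n / b1) * b' := by gcongr
      _ = b1 * (n / b1) := by rw [hb1]; ring
      _ ≤ n := Nat.mul_div_le _ _
  have hsub : (univ.filter fun ρ : Fin n → Bool × Tq q =>
      ¬ Deg ψ (n / a1) (bF K' fun y => f (xT (Wd (cd q) ρ y)))) ⊆ bad := by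
    intro ρ hρ
    rw [mem_filter] at hρ
    by_contra hcon
    apply hρ.2
    rw [hbad, mem_biUnion] at hcon
    push Not at hcon
    have hDT : ∀ α, DT (AllC (cd q) ρ (gs α)) ∅ (0 : Fin n → ZMod q) (n / (2 * a1)) := by
      intro α
      have := hcon α (mem_univ _)
      rwa [mem_BadS, not_not] at this
    -- decomposition
    have hdec : (bF K' fun y => f (xT (Wd (cd q) ρ y))) = ∑ α : Fin g → Bool,
        (fun y => ∏ i, if cv (τ i) (fun t => h i t (xT (Wd (cd q) ρ y)) α) = α i
          then (1 : K') else 0) * bF K' fun y => h0 (xT (Wd (cd q) ρ y)) α := by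
      funext y
      rw [Finset.sum_apply]
      rw [sum_eq_single (fun j => G j (xT (Wd (cd q) ρ y)))]
      · rw [Pi.mul_apply]
        have h1 := (hall h hl τ hG (fun j => G j (xT (Wd (cd q) ρ y)))
          (xT (Wd (cd q) ρ y))).mpr rfl
        rw [prod_eq_one (fun i _ => if_pos (h1 i)), one_mul, bF_apply, bF_apply, hf]
      · intro α _ hα
        rw [Pi.mul_apply]
        have h1 : ¬ ∀ i, cv (τ i) (fun t => h i t (xT (Wd (cd q) ρ y)) α) = α i :=
          fun h' => hα ((hall h hl τ hG α (xT (Wd (cd q) ρ y))).mp h')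
        push Not at h1
        obtain ⟨i, hi⟩ := h1
        rw [prod_eq_zero (mem_univ i) (if_neg hi), zero_mul]
      · intro h; exact absurd (mem_univ _) h
    have hterm : ∀ α : Fin g → Bool, Deg ψ (g * (p * k) + n / (2 * a1))
        (fun y => ∏ i, if cv (τ i) (fun t => h i t (xT (Wd (cd q) ρ y)) α) = α i
          then (1 : K') else 0) := by
      intro α
      refine Deg.of_DT hψ hq0 (hDT α) ?_
      intro H w hAll
      choose gi hgi hgiy using fun i : Fin g =>
        factor_deg (K' := K') (p := p) hψ hq0 (τ i) (h i) (hl i) α ρ (α i) H w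
          (hAll _ (by simp only [gs, List.mem_map]; exact ⟨i, List.mem_finRange i, rfl⟩))
      refine ⟨fun y => ∏ i, gi i y, ?_, ?_⟩
      · have h1 : (fun y => ∏ i, gi i y) = ∏ i, gi i := by
          funext y; rw [Finset.prod_apply]
        rw [h1]
        have h2 := Deg.prod (univ : Finset (Fin g)) gi fun i _ => hgi i
        rwa [card_univ, Fintype.card_fin] at h2
      · intro y hy
        exact prod_congr rfl fun i _ => hgiy i y hy
    rw [hdec]
    refine Deg.sum _ _ fun α _ => ?_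
    obtain ⟨S, hS, hS'⟩ := hh0
    have h1 : Deg ψ k (bF K' fun y => h0 (xT (Wd (cd q) ρ y)) α) :=
      Deg.of_local hψ hq0 hS (h := fun v => h0 v α)
        (fun v v' hv => hS' v v' α α hv fun _ _ => rfl) ρ
    refine ((hterm α).mul h1).mono ?_
    -- the total degree
    have h2 : 8 * a1 * (g * (p * k)) ≤ n := by
      calc 8 * a1 * (g * (p * k)) ≤ g * (8 * a1 * (p * k + 1)) := by
            have : g * (8 * a1 * (p * k + 1)) = 8 * a1 * (g * (p * k)) + 8 * a1 * g := by ring
            omega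
        _ ≤ n / b' := hgn
        _ ≤ n := Nat.div_le_self _ _
    have h3 : 8 * a1 * k ≤ n := by
      have : 8 * a1 * (k + 1) = 8 * a1 * k + 8 * a1 := by ring
      omega
    have h4 : 2 * a1 * (n / (2 * a1)) ≤ n := Nat.mul_div_le _ _
    rw [Nat.le_div_iff_mul_le (by omega)]
    nlinarith
  -- conclusion
  have h1 : 2 ^ g * ((univ.filter fun ρ : Fin n → Bool × Tq q =>
      ¬ Deg ψ (n / a1) (bF K' fun y => f (xT (Wd (cd q) ρ y)))).card * 2 ^ (n / b1)) ≤
      2 ^ g * Fintype.card (Fin n → Bool × Tq q) := by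
    refine le_trans ?_ hbadcard
    calc 2 ^ g * ((univ.filter fun ρ : Fin n → Bool × Tq q =>
      ¬ Deg ψ (n / a1) (bF K' fun y => f (xT (Wd (cd q) ρ y)))).card * 2 ^ (n / b1))
        = (univ.filter fun ρ : Fin n → Bool × Tq q =>
      ¬ Deg ψ (n / a1) (bF K' fun y => f (xT (Wd (cd q) ρ y)))).card * 2 ^ (g + n / b1) := by
          rw [pow_add]; ring
      _ ≤ bad.card * 2 ^ (n / b') := by
          apply Nat.mul_le_mul (card_le_card hsub)
          exact Nat.pow_le_pow_right (by norm_num) (by omega)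
  exact Nat.le_of_mul_le_mul_left h1 (by positivity)

end

end Pool.Agent.Work.MP_c04246_lc.X
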