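import Mathlib
import Pool.Agent.Work.MP_c04246_lc.XUF
import Pool.Agent.Work.MP_c04246_lc.XFew

set_option autoImplicit false
set_option linter.unusedSectionVars false
set_option linter.unusedSimpArgs false
set_option linter.unusedVariables false

namespace Pool.Agent.Work.MP_c04246_lc.X

open Finset

namespace UF

variable {p n s : ℕ}

/-- columns of a formula -/
def colsU : UF p (Fin n × Fin s) → Finset (Fin n)
  | lit x _ => {x.1}
  | cst _ => ∅
  | gate _ _ f => univ.biUnion fun j => colsU (f j)
  | mod _ _ f => univ.biUnion fun j => colsU (f j)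

lemma card_colsU (u : UF p (Fin n × Fin s)) : (colsU u).card ≤ sz u := by
  induction u with
  | lit x b => simp [colsU, sz]
  | cst b => simp [colsU, sz]
  | gate c k f ih =>
    simp only [colsU, sz]
    refine card_biUnion_le.trans ?_
    have := sum_le_sum fun j (_ : j ∈ univ) => ih j
    omega
  | mod A k f ih =>
    simp only [colsU, sz]
    refine card_biUnion_le.trans ?_
    have := sum_le_sum fun j (_ : j ∈ univ) => ih j
    omega

lemma Dep_colsU (u : UF p (Fin n × Fin s)) :
    Dep (T := Fin s → Bool) (colsU u) (fun x => ev (xT x) u) := by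
  induction u with
  | lit x b =>
    intro y y' h
    simp only [ev]
    have := h x.1 (by simp [colsU])
    unfold xT
    rw [this]
  | cst b => intro y y' _; rfl
  | gate c k f ih =>
    intro y y' h
    simp only [ev]
    have : ∀ j, ev (xT y) (f j) = ev (xT y') (f j) := fun j =>
      ih j y y' fun i hi => h i (by simp only [colsU, mem_biUnion]; exact ⟨j, mem_univ j, hi⟩)
    simp only [this]
  | mod A k f ih =>
    intro y y' h
    simp only [ev]
    have : ∀ j, ev (xT y) (f j) = ev (xT y') (f j) := fun j =>
      ih j y y' fun i hi => h i (by simp only [colsU, mem_biUnion]; exact ⟨j, mem_univ j, hi⟩)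
    simp only [this]

/-- total size of the maximal subformulas with size in `(κ, κ']` -/
def mass (κ κ' : ℕ) : UF p (Fin n × Fin s) → ℕ
  | lit _ _ => 0
  | cst _ => 0
  | gate c k f => if sz (gate c k f) ≤ κ then 0 else if sz (gate c k f) ≤ κ' then sz (gate c k f)
      else ∑ j, mass κ κ' (f j)
  | mod A k f => if sz (mod A k f) ≤ κ then 0 else if sz (mod A k f) ≤ κ' then sz (mod A k f)
      else ∑ j, mass κ κ' (f j)

/-- columns of the maximal subformulas with size in `(κ, κ']` -/
def medC (κ κ' : ℕ) : UF p (Fin n × Fin s) → Finset (Fin n)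
  | lit _ _ => ∅
  | cst _ => ∅
  | gate c k f => if sz (gate c k f) ≤ κ then ∅ else if sz (gate c k f) ≤ κ' then
      colsU (gate c k f) else univ.biUnion fun j => medC κ κ' (f j)
  | mod A k f => if sz (mod A k f) ≤ κ then ∅ else if sz (mod A k f) ≤ κ' then
      colsU (mod A k f) else univ.biUnion fun j => medC κ κ' (f j)

/-- number of subformulas of size greater than `κ'` -/
def nb (κ' : ℕ) : UF p (Fin n × Fin s) → ℕ
  | lit _ _ => 0
  | cst _ => 0
  | gate c k f => if sz (gate c k f) ≤ κ' then 0 else 1 + ∑ j, nb κ' (f j)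
  | mod A k f => if sz (mod A k f) ≤ κ' then 0 else 1 + ∑ j, nb κ' (f j)

/-- the gates of large size with their arguments of small size -/
def gl (κ κ' : ℕ) : UF p (Fin n × Fin s) → List (Bool × List (Jn (Fin n) (Fin s → Bool)))
  | lit _ _ => []
  | cst _ => []
  | gate c k f => if sz (gate c k f) ≤ κ' then [] else
      (c, ((List.finRange k).filter fun j => decide (sz (f j) ≤ κ)).map
        fun j => (colsU (f j), fun x => ev (xT x) (f j))) ::
        (List.ofFn fun j => gl κ κ' (f j)).flatten
  | mod A k f => if sz (mod A k f) ≤ κ' then [] else (List.ofFn fun j => gl κ κ' (f j)).flatten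

/-- degree bound -/
def DB (κ κ' : ℕ) : UF p (Fin n × Fin s) → ℕ
  | lit _ _ => κ
  | cst _ => κ
  | gate c k f => if sz (gate c k f) ≤ κ then κ else if sz (gate c k f) ≤ κ' then 0 else
      ∑ j, if sz (f j) ≤ κ then 0 else DB κ κ' (f j)
  | mod A k f => if sz (mod A k f) ≤ κ then κ else if sz (mod A k f) ≤ κ' then 0 else
      p * (κ + ∑ j, if sz (f j) ≤ κ then 0 else DB κ κ' (f j))

lemma sz_pos (u : UF p (Fin n × Fin s)) : 1 ≤ sz u := by
  cases u <;> simp [sz]

lemma sz_child_gate (c : Bool) (k : ℕ) (f : Fin k → UF p (Fin n × Fin s)) (j : Fin k) :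
    sz (f j) < sz (gate c k f) := by
  simp only [sz]
  have := single_le_sum (f := fun j => sz (f j)) (fun i _ => Nat.zero_le _) (mem_univ j)
  omega

lemma sz_child_mod (A : ZMod p → Bool) (k : ℕ) (f : Fin k → UF p (Fin n × Fin s)) (j : Fin k) :
    sz (f j) < sz (mod A k f) := by
  simp only [sz]
  have := single_le_sum (f := fun j => sz (f j)) (fun i _ => Nat.zero_le _) (mem_univ j)
  omega

lemma card_medC (κ κ' : ℕ) (u : UF p (Fin n × Fin s)) : (medC κ κ' u).card ≤ mass κ κ' u := by
  induction u with
  | lit x b => simp [medC, mass]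
  | cst b => simp [medC, mass]
  | gate c k f ih =>
    simp only [medC, mass]
    split_ifs with h1 h2
    · simp
    · exact card_colsU _
    · exact card_biUnion_le.trans (sum_le_sum fun j _ => ih j)
  | mod A k f ih =>
    simp only [medC, mass]
    split_ifs with h1 h2
    · simp
    · exact card_colsU _
    · exact card_biUnion_le.trans (sum_le_sum fun j _ => ih j)

lemma length_gl (κ κ' : ℕ) (u : UF p (Fin n × Fin s)) : (gl κ κ' u).length ≤ nb κ' u := by
  induction u with
  | lit x b => simp [gl, nb]
  | cst b => simp [gl, nb]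
  | gate c k f ih =>
    simp only [gl, nb]
    split_ifs with h1
    · simp
    · rw [List.length_cons, List.length_flatten, List.map_ofFn, List.sum_ofFn, add_comm]
      apply Nat.add_le_add_left
      exact sum_le_sum fun j _ => ih j
  | mod A k f ih =>
    simp only [gl, nb]
    split_ifs with h1
    · simp
    · rw [List.length_flatten, List.map_ofFn, List.sum_ofFn]
      have := sum_le_sum fun j (_ : j ∈ univ) => ih j
      simp only [Function.comp]
      omega

lemma gl_spec (κ κ' : ℕ) (u : UF p (Fin n × Fin s)) :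
    ∀ g ∈ gl κ κ' u, ∀ z ∈ g.2, z.1.card ≤ κ ∧ Dep z.1 z.2 := by
  induction u with
  | lit x b => intro g hg; simp [gl] at hg
  | cst b => intro g hg; simp [gl] at hg
  | gate c k f ih =>
    intro g hg
    simp only [gl] at hg
    split_ifs at hg with h1
    · simp at hg
    · rw [List.mem_cons] at hg
      rcases hg with rfl | hg
      · intro z hz
        simp only [List.mem_map, List.mem_filter, List.mem_finRange, true_and,
          decide_eq_true_eq] at hz
        obtain ⟨j, hj, rfl⟩ := hz
        exact ⟨(card_colsU _).trans hj, Dep_colsU _⟩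
      · rw [List.mem_flatten] at hg
        obtain ⟨l, hl, hgl⟩ := hg
        rw [List.mem_ofFn] at hl
        obtain ⟨j, rfl⟩ := hl
        exact ih j g hgl
  | mod A k f ih =>
    intro g hg
    simp only [gl] at hg
    split_ifs at hg with h1
    · simp at hg
    · rw [List.mem_flatten] at hg
      obtain ⟨l, hl, hgl⟩ := hg
      rw [List.mem_ofFn] at hl
      obtain ⟨j, rfl⟩ := hl
      exact ih j g hgl

lemma nb_le (κ' : ℕ) (u : UF p (Fin n × Fin s)) : κ' * nb κ' u ≤ dep u * sz u := by
  induction u with
  | lit x b => simp [nb]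
  | cst b => simp [nb]
  | gate c k f ih =>
    simp only [nb]
    split_ifs with h1
    · simp
    · push Not at h1
      simp only [dep]
      set D := univ.sup fun j => dep (f j) with hD
      have h2 : κ' * ∑ j, nb κ' (f j) ≤ D * sz (gate c k f) := by
        rw [mul_sum]
        calc ∑ j, κ' * nb κ' (f j) ≤ ∑ j, D * sz (f j) := sum_le_sum fun j _ =>
              (ih j).trans (Nat.mul_le_mul_right _
                (Finset.le_sup (f := fun j => dep (f j)) (mem_univ j)))
          _ = D * ∑ j, sz (f j) := by rw [mul_sum]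
          _ ≤ D * sz (gate c k f) := Nat.mul_le_mul_left _ (by simp only [sz]; omega)
      nlinarith
  | mod A k f ih =>
    simp only [nb]
    split_ifs with h1
    · simp
    · push Not at h1
      simp only [dep]
      set D := univ.sup fun j => dep (f j) with hD
      have h2 : κ' * ∑ j, nb κ' (f j) ≤ D * sz (mod A k f) := by
        rw [mul_sum]
        calc ∑ j, κ' * nb κ' (f j) ≤ ∑ j, D * sz (f j) := sum_le_sum fun j _ =>
              (ih j).trans (Nat.mul_le_mul_right _
                (Finset.le_sup (f := fun j => dep (f j)) (mem_univ j)))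
          _ = D * ∑ j, sz (f j) := by rw [mul_sum]
          _ ≤ D * sz (mod A k f) := Nat.mul_le_mul_left _ (by simp only [sz]; omega)
      nlinarith

/-- every size is in at most one of the intervals -/
lemma sum_ind_le {kk : ℕ → ℕ} (hkk : StrictMono kk) (M t : ℕ) :
    ∑ i ∈ range M, (if kk i < t ∧ t ≤ kk (i + 1) then 1 else 0) ≤ 1 := by
  rw [← card_filter, card_le_one]
  intro i hi j hj
  rw [mem_filter] at hi hj
  by_contra hne
  rcases Nat.lt_or_gt_of_ne hne with h | h
  · have := hkk.monotone (show i + 1 ≤ j by omega)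
    omega
  · have := hkk.monotone (show j + 1 ≤ i by omega)
    omega

lemma sum_mass (kk : ℕ → ℕ) (hkk : StrictMono kk) (M : ℕ) (u : UF p (Fin n × Fin s)) :
    ∑ i ∈ range M, mass (kk i) (kk (i + 1)) u ≤ (dep u + 1) * sz u := by
  have key : ∀ (t S : ℕ) (D : ℕ) (k : ℕ) (f : Fin k → UF p (Fin n × Fin s)),
      (∀ j, ∑ i ∈ range M, mass (kk i) (kk (i + 1)) (f j) ≤ (dep (f j) + 1) * sz (f j)) →
      t = 1 + ∑ j, sz (f j) → (∀ j, dep (f j) ≤ D) →
      ∑ i ∈ range M, (if t ≤ kk i then 0 else if t ≤ kk (i + 1) then t
        else ∑ j, mass (kk i) (kk (i + 1)) (f j)) ≤ (1 + D + 1) * t := by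
    intro t S D k f hf ht hD
    have h1 : ∀ i ∈ range M, (if t ≤ kk i then 0 else if t ≤ kk (i + 1) then t
        else ∑ j, mass (kk i) (kk (i + 1)) (f j)) ≤
        (if kk i < t ∧ t ≤ kk (i + 1) then 1 else 0) * t +
          ∑ j, mass (kk i) (kk (i + 1)) (f j) := by
      intro i _
      by_cases h1 : t ≤ kk i
      · rw [if_pos h1]; exact Nat.zero_le _
      · by_cases h2 : t ≤ kk (i + 1)
        · rw [if_neg h1, if_pos h2, if_pos ⟨by omega, h2⟩]; omega
        · rw [if_neg h1, if_neg h2]; omega
    refine (sum_le_sum h1).trans ?_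
    rw [sum_add_distrib, ← sum_mul, sum_comm]
    have h2 : ∑ j, ∑ i ∈ range M, mass (kk i) (kk (i + 1)) (f j) ≤ (D + 1) * t := by
      calc ∑ j, ∑ i ∈ range M, mass (kk i) (kk (i + 1)) (f j)
          ≤ ∑ j, (D + 1) * sz (f j) := sum_le_sum fun j _ =>
            (hf j).trans (Nat.mul_le_mul_right _ (by have := hD j; omega))
        _ = (D + 1) * ∑ j, sz (f j) := by rw [mul_sum]
        _ ≤ (D + 1) * t := Nat.mul_le_mul_left _ (by omega)
    have h3 := Nat.mul_le_mul_right t (sum_ind_le hkk M t)
    have h4 : (1 + D + 1) * t = 1 * t + (D + 1) * t := by ring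
    omega
  induction u with
  | lit x b => simp [mass]
  | cst b => simp [mass]
  | gate c k f ih =>
    have := key (sz (gate c k f)) 0 (univ.sup fun j => dep (f j)) k f ih rfl
      (fun j => Finset.le_sup (f := fun j => dep (f j)) (mem_univ j))
    simpa only [mass, dep] using this
  | mod A k f ih =>
    have := key (sz (mod A k f)) 0 (univ.sup fun j => dep (f j)) k f ih rfl
      (fun j => Finset.le_sup (f := fun j => dep (f j)) (mem_univ j))
    simpa only [mass, dep] using this

lemma DB_le {κ κ' : ℕ} (hκ : 1 ≤ κ) (hp : 1 ≤ p) (u : UF p (Fin n × Fin s)) (hu : κ < sz u) :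
    DB κ κ' u ≤ p ^ dep u * κ * nb κ' u := by
  induction u with
  | lit x b => simp only [sz] at hu; omega
  | cst b => simp only [sz] at hu; omega
  | gate c k f ih =>
    simp only [DB, nb]
    rw [if_neg (by omega)]
    split_ifs with h2
    · simp
    · simp only [dep]
      set D := univ.sup fun j => dep (f j) with hD
      have h3 : ∀ j, (if sz (f j) ≤ κ then 0 else DB κ κ' (f j)) ≤
          p ^ (1 + D) * κ * nb κ' (f j) := by
        intro j
        split_ifs with h4
        · exact Nat.zero_le _
        · refine (ih j (by omega)).trans ?_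
          apply Nat.mul_le_mul_right
          apply Nat.mul_le_mul_right
          apply Nat.pow_le_pow_right hp
          have := Finset.le_sup (f := fun j => dep (f j)) (mem_univ j)
          omega
      calc ∑ j, (if sz (f j) ≤ κ then 0 else DB κ κ' (f j))
          ≤ ∑ j, p ^ (1 + D) * κ * nb κ' (f j) := sum_le_sum fun j _ => h3 j
        _ = p ^ (1 + D) * κ * ∑ j, nb κ' (f j) := by rw [mul_sum]
        _ ≤ p ^ (1 + D) * κ * (1 + ∑ j, nb κ' (f j)) := Nat.mul_le_mul_left _ (by omega)
  | mod A k f ih =>
    simp only [DB, nb]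
    rw [if_neg (by omega)]
    split_ifs with h2
    · simp
    · simp only [dep]
      set D := univ.sup fun j => dep (f j) with hD
      have h3 : ∀ j, (if sz (f j) ≤ κ then 0 else DB κ κ' (f j)) ≤
          p ^ D * κ * nb κ' (f j) := by
        intro j
        split_ifs with h4
        · exact Nat.zero_le _
        · refine (ih j (by omega)).trans ?_
          apply Nat.mul_le_mul_right
          apply Nat.mul_le_mul_right
          apply Nat.pow_le_pow_right hp
          exact Finset.le_sup (f := fun j => dep (f j)) (mem_univ j)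
      have h4 : ∑ j, (if sz (f j) ≤ κ then 0 else DB κ κ' (f j)) ≤
          p ^ D * κ * ∑ j, nb κ' (f j) := by
        rw [mul_sum]; exact sum_le_sum fun j _ => h3 j
      have h5 : 1 ≤ p ^ D := Nat.one_le_pow _ _ hp
      calc p * (κ + ∑ j, if sz (f j) ≤ κ then 0 else DB κ κ' (f j))
          ≤ p * (p ^ D * κ + p ^ D * κ * ∑ j, nb κ' (f j)) := by
            apply Nat.mul_le_mul_left
            apply Nat.add_le_add _ h4
            exact Nat.le_mul_of_pos_left _ h5
        _ = p ^ (1 + D) * κ * (1 + ∑ j, nb κ' (f j)) := by rw [pow_add, pow_one]; ring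

end UF

end Pool.Agent.Work.MP_c04246_lc.X
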