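import Mathlib
import Pool.Agent.Work.MP_c04246_lc.XMass

set_option autoImplicit false
set_option linter.unusedSectionVars false
set_option linter.unusedSimpArgs false
set_option linter.unusedVariables false

namespace Pool.Agent.Work.MP_c04246_lc.X

open Finset

section

variable {J : Type} [Fintype J] [DecidableEq J] {q : ℕ} [NeZero q] {K' : Type} [Field K']
  {ψ : AddChar (ZMod q) K'}

lemma mod_poly {p : ℕ} [Fact p.Prime] [CharP K' p] {D k : ℕ} (g : Fin k → (J → ZMod q) → K')
    (hg : ∀ j, Deg ψ D (g j)) (r : ZMod p) : ∃ G, Deg ψ (p * D) G ∧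
      ∀ (y : J → ZMod q) (b : Fin k → Bool), (∀ j, g j y = if b j = true then 1 else 0) →
        G y = if (∑ j, if b j = true then (1 : ZMod p) else 0) = r then 1 else 0 := by
  have hp : 1 < p := (Fact.out : p.Prime).one_lt
  refine ⟨1 - ((∑ j, g j) - fun _ => ZMod.castHom (dvd_refl p) K' r) ^ (p - 1), ?_, ?_⟩
  · refine Deg.one.sub (Deg.mono ?_ (Deg.pow ((Deg.sum _ _ fun j _ => hg j).sub (Deg.const _)) _))
    exact Nat.mul_le_mul_right _ (by omega)
  · intro y b hb
    simp only [Pi.sub_apply, Pi.one_apply, Pi.pow_apply, Finset.sum_apply, hb]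
    have h1 : (∑ j, if b j = true then (1 : K') else 0) - ZMod.castHom (dvd_refl p) K' r =
        ZMod.castHom (dvd_refl p) K' ((∑ j, if b j = true then (1 : ZMod p) else 0) - r) := by
      rw [map_sub, map_sum]
      congr 1
      refine sum_congr rfl fun j _ => ?_
      split_ifs <;> simp
    rw [h1, ← map_pow]
    by_cases h2 : (∑ j, if b j = true then (1 : ZMod p) else 0) = r
    · rw [if_pos h2, h2, sub_self, zero_pow (by omega), map_zero, sub_zero]
    · rw [ZMod.pow_card_sub_one_eq_one (sub_ne_zero.mpr h2), if_neg h2, map_one, sub_self]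

lemma modA_poly {p : ℕ} [Fact p.Prime] [CharP K' p] {D k : ℕ} (g : Fin k → (J → ZMod q) → K')
    (hg : ∀ j, Deg ψ D (g j)) (A : ZMod p → Bool) : ∃ G, Deg ψ (p * D) G ∧
      ∀ (y : J → ZMod q) (b : Fin k → Bool), (∀ j, g j y = if b j = true then 1 else 0) →
        G y = if A (∑ j, if b j = true then (1 : ZMod p) else 0) = true then 1 else 0 := by
  have : NeZero p := ⟨(Fact.out : p.Prime).ne_zero⟩
  choose G hG hGy using fun r => mod_poly (p := p) g hg r
  refine ⟨∑ r : ZMod p, if A r = true then G r else 0, ?_, ?_⟩
  · refine Deg.sum _ _ fun r _ => ?_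
    split_ifs
    · exact hG r
    · exact Deg.zero
  · intro y b hb
    rw [Finset.sum_apply]
    have h1 : ∀ r : ZMod p, (if A r = true then G r else 0 : (J → ZMod q) → K') y =
        if (∑ j, if b j = true then (1 : ZMod p) else 0) = r then
          (if A r = true then 1 else 0) else 0 := by
      intro r
      by_cases h2 : A r = true
      · rw [if_pos h2, hGy r y b hb, if_pos h2]
      · rw [if_neg h2, if_neg h2]; simp
    rw [sum_congr rfl (fun r _ => h1 r), sum_ite_eq]
    simp

end

namespace UF

section

variable {p n : ℕ} {q : ℕ} [Fact q.Prime] [NeZero q] {K' : Type} [Field K']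
  {ψ : AddChar (ZMod q) K'}

lemma small_deg (hψ : ψ.IsPrimitive) (hq0 : (q : K') ≠ 0) {κ : ℕ}
    (u : UF p (Fin n × Fin (q - 1))) (hu : sz u ≤ κ) (ρ : Fin n → Bool × Tq q) :
    Deg ψ κ (fun y : Fin n → ZMod q =>
      if ev (xT (Wd (cd q) ρ y)) u = true then (1 : K') else 0) := by
  refine Deg.mono ((card_colsU u).trans hu) (Deg.of_junta hψ hq0 (colsU u) _ ?_)
  intro y y' hy
  have h1 := Dep_colsU u (Wd (cd q) ρ y) (Wd (cd q) ρ y') (by
    intro j hj
    unfold Wd
    rw [hy j hj])
  simp only at h1
  simp only [h1]

lemma med_const (u : UF p (Fin n × Fin (q - 1))) (ρ : Fin n → Bool × Tq q)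
    {H : Finset (Fin n)} {w : Fin n → ZMod q} (hu : colsU u ⊆ H) :
    ∀ y, Agr H w y → ev (xT (Wd (cd q) ρ y)) u = ev (xT (Wd (cd q) ρ w)) u := by
  intro y hy
  refine Dep_colsU u (Wd (cd q) ρ y) (Wd (cd q) ρ w) ?_
  intro j hj
  unfold Wd
  rw [hy j (hu hj)]

lemma leaf_deg [Fact p.Prime] [CharP K' p] (hψ : ψ.IsPrimitive) (hq0 : (q : K') ≠ 0) {κ κ' : ℕ}
    (hκ : 1 ≤ κ) (ρ : Fin n → Bool × Tq q)
    (H : Finset (Fin n)) (w : Fin n → ZMod q) (u : UF p (Fin n × Fin (q - 1)))
    (hA : ∀ g ∈ gl κ κ' u, ∀ y y', Agr H w y → Agr H w y' →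
      (gv (cd q) ρ g y ↔ gv (cd q) ρ g y'))
    (hM : medC κ κ' u ⊆ H) :
    ∃ g, Deg ψ (DB κ κ' u) g ∧ ∀ y, Agr H w y →
      (if ev (xT (Wd (cd q) ρ y)) u = true then (1 : K') else 0) = g y := by
  induction u with
  | lit x b => exact ⟨_, small_deg hψ hq0 (lit x b) hκ ρ, fun y _ => rfl⟩
  | cst b => exact ⟨_, small_deg hψ hq0 (cst b) hκ ρ, fun y _ => rfl⟩
  | gate c k f ih =>
    simp only [DB]
    by_cases h1 : sz (gate c k f) ≤ κ
    · rw [if_pos h1]
      exact ⟨_, small_deg hψ hq0 _ h1 ρ, fun y _ => rfl⟩
    · rw [if_neg h1]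
      simp only [medC, if_neg h1] at hM
      by_cases h2 : sz (gate c k f) ≤ κ'
      · rw [if_pos h2] at hM ⊢
        refine ⟨fun _ => if ev (xT (Wd (cd q) ρ w)) (gate c k f) = true then (1 : K') else 0,
          Deg.const _, ?_⟩
        intro y hy
        rw [med_const _ ρ hM y hy]
      · rw [if_neg h2] at hM ⊢
        simp only [gl, if_neg h2] at hA
        -- children
        have hch : ∀ j, ∃ g, Deg ψ (DB κ κ' (f j)) g ∧ ∀ y, Agr H w y →
            (if ev (xT (Wd (cd q) ρ y)) (f j) = true then (1 : K') else 0) = g y := by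
          intro j
          refine ih j ?_ ?_
          · intro g hg
            apply hA g
            rw [List.mem_cons]
            right
            rw [List.mem_flatten]
            exact ⟨_, List.mem_ofFn.mpr ⟨j, rfl⟩, hg⟩
          · intro i hi
            exact hM (mem_biUnion.mpr ⟨j, mem_univ j, hi⟩)
        choose g hg hgy using hch
        -- the small part is constant
        have hsm : ∀ y, Agr H w y →
            ((∃ j, sz (f j) ≤ κ ∧ ev (xT (Wd (cd q) ρ y)) (f j) = c) ↔
              (∃ j, sz (f j) ≤ κ ∧ ev (xT (Wd (cd q) ρ w)) (f j) = c)) := by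
          have h3 : ∀ y, gv (cd q) ρ (c, ((List.finRange k).filter fun j => decide (sz (f j) ≤ κ)).map
              fun j => (colsU (f j), fun x => ev (xT x) (f j))) y ↔
              (∃ j, sz (f j) ≤ κ ∧ ev (xT (Wd (cd q) ρ y)) (f j) = c) := by
            intro y
            unfold gv
            simp only [List.mem_map, List.mem_filter, List.mem_finRange, true_and,
              decide_eq_true_eq]
            constructor
            · rintro ⟨z, ⟨j, hj, rfl⟩, hz⟩
              exact ⟨j, hj, hz⟩
            · rintro ⟨j, hj, hz⟩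
              exact ⟨_, ⟨j, hj, rfl⟩, hz⟩
          intro y hy
          rw [← h3 y, ← h3 w]
          exact hA _ (List.mem_cons_self) y w hy (fun _ _ => rfl)
        by_cases hsw : ∃ j, sz (f j) ≤ κ ∧ ev (xT (Wd (cd q) ρ w)) (f j) = c
        · refine ⟨fun _ => if c = true then (1 : K') else 0, Deg.const _, ?_⟩
          intro y hy
          obtain ⟨j, _, hj⟩ := (hsm y hy).mpr hsw
          have h4 : ev (xT (Wd (cd q) ρ y)) (gate c k f) = c := by
            simp only [ev]; rw [if_pos ⟨j, hj⟩]
          rw [h4]
        · -- product over the remaining children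
          set S := univ.filter fun j => ¬ sz (f j) ≤ κ with hS
          set e : Fin k → (Fin n → ZMod q) → K' := fun j => if c = true then 1 - g j else g j with he
          have heD : ∀ j, Deg ψ (DB κ κ' (f j)) (e j) := by
            intro j
            simp only [he]
            split_ifs
            · exact Deg.one.sub (hg j)
            · exact hg j
          have hev : ∀ j, ∀ y, Agr H w y →
              e j y = if ev (xT (Wd (cd q) ρ y)) (f j) = c then (0 : K') else 1 := by
            intro j y hy
            have h4 := hgy j y hy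
            simp only [he]
            cases c
            · simp only [if_neg (Bool.false_ne_true), ← h4]
              cases ev (xT (Wd (cd q) ρ y)) (f j) <;> simp
            · simp only [if_true, Pi.sub_apply, Pi.one_apply, ← h4]
              cases ev (xT (Wd (cd q) ρ y)) (f j) <;> simp
          have hP : Deg ψ (∑ j, if sz (f j) ≤ κ then 0 else DB κ κ' (f j)) (∏ j ∈ S, e j) := by
            have h4 := Deg.prod' S (fun j => DB κ κ' (f j)) e fun j _ => heD j
            refine h4.mono ?_
            rw [hS, sum_filter]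
            refine sum_le_sum fun j _ => ?_
            by_cases h5 : sz (f j) ≤ κ
            · simp [h5]
            · simp [h5]
          have hval : ∀ y, Agr H w y → (∏ j ∈ S, e j) y =
              if ev (xT (Wd (cd q) ρ y)) (gate c k f) = c then (0 : K') else 1 := by
            intro y hy
            rw [Finset.prod_apply]
            have hns : ¬ ∃ j, sz (f j) ≤ κ ∧ ev (xT (Wd (cd q) ρ y)) (f j) = c :=
              fun h => hsw ((hsm y hy).mp h)
            by_cases h4 : ∃ j, ev (xT (Wd (cd q) ρ y)) (f j) = c
            · obtain ⟨j, hj⟩ := h4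
              have hjS : j ∈ S := by
                rw [hS, mem_filter]
                exact ⟨mem_univ _, fun h5 => hns ⟨j, h5, hj⟩⟩
              have h5 : ev (xT (Wd (cd q) ρ y)) (gate c k f) = c := by
                simp only [ev]; rw [if_pos ⟨j, hj⟩]
              rw [if_pos h5]
              apply prod_eq_zero hjS
              rw [hev j y hy, if_pos hj]
            · have h5 : ev (xT (Wd (cd q) ρ y)) (gate c k f) = !c := by
                simp only [ev]; rw [if_neg h4]
              have h6 : ¬ ev (xT (Wd (cd q) ρ y)) (gate c k f) = c := by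
                rw [h5]; cases c <;> simp
              rw [if_neg h6]
              push Not at h4
              exact prod_eq_one fun j _ => by rw [hev j y hy, if_neg (h4 j)]
          refine ⟨if c = true then 1 - ∏ j ∈ S, e j else ∏ j ∈ S, e j, ?_, ?_⟩
          · split_ifs
            · exact Deg.one.sub hP
            · exact hP
          · intro y hy
            have h4 := hval y hy
            cases c
            · simp only [if_neg (Bool.false_ne_true), h4]
              cases ev (xT (Wd (cd q) ρ y)) (gate false k f) <;> simp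
            · simp only [if_true, Pi.sub_apply, Pi.one_apply, h4]
              cases ev (xT (Wd (cd q) ρ y)) (gate true k f) <;> simp
  | mod A k f ih =>
    simp only [DB]
    by_cases h1 : sz (mod A k f) ≤ κ
    · rw [if_pos h1]
      exact ⟨_, small_deg hψ hq0 _ h1 ρ, fun y _ => rfl⟩
    · rw [if_neg h1]
      simp only [medC, if_neg h1] at hM
      by_cases h2 : sz (mod A k f) ≤ κ'
      · rw [if_pos h2] at hM ⊢
        refine ⟨fun _ => if ev (xT (Wd (cd q) ρ w)) (mod A k f) = true then (1 : K') else 0,
          Deg.const _, ?_⟩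
        intro y hy
        rw [med_const _ ρ hM y hy]
      · rw [if_neg h2] at hM ⊢
        simp only [gl, if_neg h2] at hA
        have hch : ∀ j, ∃ g, Deg ψ (κ + ∑ j, if sz (f j) ≤ κ then 0 else DB κ κ' (f j)) g ∧
            ∀ y, Agr H w y →
            (if ev (xT (Wd (cd q) ρ y)) (f j) = true then (1 : K') else 0) = g y := by
          intro j
          by_cases h3 : sz (f j) ≤ κ
          · exact ⟨_, (small_deg hψ hq0 _ h3 ρ).mono (by omega), fun y _ => rfl⟩
          · obtain ⟨g, hg, hgy⟩ := ih j (by
              intro g hg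
              apply hA g
              rw [List.mem_flatten]
              exact ⟨_, List.mem_ofFn.mpr ⟨j, rfl⟩, hg⟩) (by
              intro i hi
              exact hM (mem_biUnion.mpr ⟨j, mem_univ j, hi⟩))
            refine ⟨g, hg.mono ?_, hgy⟩
            have h4 := single_le_sum (f := fun j => if sz (f j) ≤ κ then 0 else DB κ κ' (f j))
              (fun i _ => Nat.zero_le _) (mem_univ j)
            simp only [if_neg h3] at h4
            omega
        choose g hg hgy using hch
        obtain ⟨G, hG, hGy⟩ := modA_poly (p := p) g hg A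
        refine ⟨G, hG, ?_⟩
        intro y hy
        rw [hGy y (fun j => ev (xT (Wd (cd q) ρ y)) (f j)) fun j => (hgy j y hy).symm]
        simp only [ev]
        rfl

end

end UF

end Pool.Agent.Work.MP_c04246_lc.X
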