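import Mathlib
import Pool.Agent.Work.MP_c04246_lc.XLinear

set_option autoImplicit false
set_option linter.unusedSectionVars false
set_option linter.unusedSimpArgs false
set_option linter.unusedVariables false

namespace Pool.Agent.Work.MP_c04246_lc.X

open Finset

lemma DT_add {n : ℕ} {Y T : Type} (code : Y → T) {ρ : Fin n → Bool × T}
    {gs : List (Bool × List (Jn (Fin n) T))} (V : Finset (Fin n)) {w0 : Fin n → Y} {t : ℕ}
    (h : DT (AllC code ρ gs) ∅ w0 t) :
    DT (fun H w => AllC code ρ gs H w ∧ V ⊆ H) ∅ w0 (t + V.card) := by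
  apply DT.of_set
  intro w _
  refine DT.transplant (P' := fun H w => AllC code ρ gs H w ∧ V ⊆ H) V h w ?_ w
    (fun j hj => by simp at hj) (fun j hj => rfl)
  intro H w0 w1 hP hw0 hw1
  refine ⟨?_, subset_union_right⟩
  intro g hg y y' hy hy'
  refine hP g hg y y' ?_ ?_
  · intro j hj; rw [hy j (mem_union_left _ hj), hw0 j hj]
  · intro j hj; rw [hy' j (mem_union_left _ hj), hw0 j hj]

lemma UF.DB_le' {p n s κ κ' : ℕ} (hκ : 1 ≤ κ) (hp : 1 ≤ p) (u : UF p (Fin n × Fin s)) {d : ℕ}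
    (hd : UF.dep u ≤ d) : UF.DB κ κ' u ≤ κ + p ^ d * κ * UF.nb κ' u := by
  by_cases h : UF.sz u ≤ κ
  · have : UF.DB κ κ' u ≤ κ := by
      cases u with
      | lit x b => simp [UF.DB]
      | cst b => simp [UF.DB]
      | gate c k f => simp only [UF.DB]; rw [if_pos h]
      | mod A k f => simp only [UF.DB]; rw [if_pos h]
    omega
  · refine (UF.DB_le hκ hp u (by omega)).trans ?_
    have : p ^ UF.dep u * κ * UF.nb κ' u ≤ p ^ d * κ * UF.nb κ' u := by
      apply Nat.mul_le_mul_right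
      apply Nat.mul_le_mul_right
      exact Nat.pow_le_pow_right hp hd
    omega

/-- the main lemma about formulas of linear size -/
theorem lin_degree (p q C d : ℕ) [Fact p.Prime] [Fact q.Prime] [NeZero q] (a1 : ℕ)
    (ha1 : 1 ≤ a1) :
    ∃ b1 n0 : ℕ, 1 ≤ b1 ∧ ∀ (K' : Type) [Field K'] [CharP K' p] (ψ : AddChar (ZMod q) K'),
      ψ.IsPrimitive → (q : K') ≠ 0 → ∀ n ≥ n0,
      ∀ a : Fml p (Fin n × Fin (q - 1)), Fml.depth a ≤ d → Fml.size a ≤ C * n →
        (open Classical in (univ.filter fun ρ : Fin n → Bool × Tq q =>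
          ¬ Deg ψ (n / a1) (bF K' fun y => Fml.eval (xT (Wd (cd q) ρ y)) a)).card) *
            2 ^ (n / b1) ≤ Fintype.card (Fin n → Bool × Tq q) := by
  classical
  have hp1 : 1 ≤ p := (Fact.out : p.Prime).one_lt.le
  choose bf hbf hbc using fun κ => claim (Tq q) κ (8 * a1) (by omega)
  set C' := C + 1 with hC'
  set M := 8 * a1 * ((d + 1) * C') with hM
  have hdC : 1 ≤ (d + 1) * C' := Nat.mul_pos (by omega) (by omega)
  have hM1 : 1 ≤ M := Nat.mul_pos (by omega) hdC
  let stepf : ℕ → ℕ := fun κ => κ + 1 + (d + 1) * C' * (bf κ + 8 * a1 * (p ^ d * κ))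
  let kk : ℕ → ℕ := fun i => Nat.rec 1 (fun _ κ => stepf κ) i
  have hkk0 : kk 0 = 1 := rfl
  have hkks : ∀ i, kk (i + 1) = kk i + 1 + (d + 1) * C' * (bf (kk i) + 8 * a1 * (p ^ d * kk i)) :=
    fun i => rfl
  have hmono : StrictMono kk := strictMono_nat_of_lt_succ fun i => by rw [hkks]; omega
  have hkk1 : ∀ i, 1 ≤ kk i := fun i => by
    have := hmono.monotone (Nat.zero_le i); rw [hkk0] at this; exact this
  set b1 := ∑ i ∈ range M, bf (kk i) with hb1
  have hb1i : ∀ i, i < M → bf (kk i) ≤ b1 := fun i hi =>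
    single_le_sum (f := fun i => bf (kk i)) (fun _ _ => Nat.zero_le _) (mem_range.mpr hi)
  have hb11 : 1 ≤ b1 := (hbf _).trans (hb1i 0 (by omega))
  refine ⟨b1, 8 * a1 * kk M, hb11, ?_⟩
  intro K' _ _ ψ hψ hq0 n hn a hda hsa
  set u := UF.toU false a with hu
  have hsu : UF.sz u ≤ C * n := (UF.sz_toU a false).trans hsa
  have hdu : UF.dep u ≤ d := (UF.dep_toU a false).trans hda
  have hev : ∀ v, UF.ev v u = Fml.eval v a := by
    intro v; rw [hu, UF.ev_toU]; simp
  -- choice of the scale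
  have hpig : ∃ i, i < M ∧ 8 * a1 * UF.mass (kk i) (kk (i + 1)) u ≤ n := by
    by_contra hcon
    push Not at hcon
    have h1 := UF.sum_mass kk hmono M u
    have h2 : M * n < 8 * a1 * ∑ i ∈ range M, UF.mass (kk i) (kk (i + 1)) u := by
      rw [mul_sum]
      calc M * n = ∑ i ∈ range M, n := by rw [sum_const, card_range, smul_eq_mul]
        _ < _ := sum_lt_sum_of_nonempty (nonempty_range_iff.mpr (by omega))
            fun i hi => hcon i (mem_range.mp hi)
    have h3 : 8 * a1 * ∑ i ∈ range M, UF.mass (kk i) (kk (i + 1)) u ≤ M * n := by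
      calc 8 * a1 * ∑ i ∈ range M, UF.mass (kk i) (kk (i + 1)) u
          ≤ 8 * a1 * ((UF.dep u + 1) * UF.sz u) := Nat.mul_le_mul_left _ h1
        _ ≤ 8 * a1 * ((d + 1) * (C' * n)) := by
            apply Nat.mul_le_mul_left
            apply Nat.mul_le_mul (by omega)
            exact hsu.trans (Nat.mul_le_mul_right _ (by omega))
        _ = M * n := by rw [hM]; ring
    omega
  obtain ⟨i, hiM, hmass⟩ := hpig
  set κ := kk i with hκ
  set κ' := kk (i + 1) with hκ'
  have hκ1 : 1 ≤ κ := hkk1 i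
  have hκ'eq : κ' = κ + 1 + (d + 1) * C' * (bf κ + 8 * a1 * (p ^ d * κ)) := hkks i
  have hnb : κ' * UF.nb κ' u ≤ (d + 1) * C' * n := by
    refine (UF.nb_le κ' u).trans ?_
    calc UF.dep u * UF.sz u ≤ (d + 1) * (C' * n) := by
          apply Nat.mul_le_mul (by omega)
          exact hsu.trans (Nat.mul_le_mul_right _ (by omega))
      _ = (d + 1) * C' * n := by ring
  have hnb2 : (bf κ + 8 * a1 * (p ^ d * κ)) * UF.nb κ' u ≤ n := by
    have h1 : (d + 1) * C' * ((bf κ + 8 * a1 * (p ^ d * κ)) * UF.nb κ' u) ≤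
        (d + 1) * C' * n := by
      refine le_trans ?_ hnb
      rw [← mul_assoc]
      apply Nat.mul_le_mul_right
      omega
    exact Nat.le_of_mul_le_mul_left h1 hdC
  have hgl : bf κ * (UF.gl κ κ' u).length ≤ n := by
    calc bf κ * (UF.gl κ κ' u).length ≤ bf κ * UF.nb κ' u :=
          Nat.mul_le_mul_left _ (UF.length_gl κ κ' u)
      _ ≤ (bf κ + 8 * a1 * (p ^ d * κ)) * UF.nb κ' u := Nat.mul_le_mul_right _ (by omega)
      _ ≤ n := hnb2
  have hclaim := hbc κ (ZMod q) (cd q) n (UF.gl κ κ' u) (0 : Fin n → ZMod q)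
    (UF.gl_spec κ κ' u) hgl
  have hκn : 8 * a1 * κ ≤ n := by
    refine le_trans (Nat.mul_le_mul_left _ ?_) hn
    exact hmono.monotone hiM.le
  have hDB : 8 * a1 * UF.DB κ κ' u ≤ 2 * n := by
    calc 8 * a1 * UF.DB κ κ' u ≤ 8 * a1 * (κ + p ^ d * κ * UF.nb κ' u) :=
          Nat.mul_le_mul_left _ (UF.DB_le' hκ1 hp1 u hdu)
      _ = 8 * a1 * κ + 8 * a1 * (p ^ d * κ) * UF.nb κ' u := by ring
      _ ≤ n + n := by
          apply Nat.add_le_add hκn
          refine le_trans (Nat.mul_le_mul_right _ ?_) hnb2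
          omega
      _ = 2 * n := by ring
  have hsub : (univ.filter fun ρ : Fin n → Bool × Tq q =>
      ¬ Deg ψ (n / a1) (bF K' fun y => Fml.eval (xT (Wd (cd q) ρ y)) a)) ⊆
      BadS (cd q) (UF.gl κ κ' u) (0 : Fin n → ZMod q) (n / (8 * a1)) := by
    intro ρ hρ
    rw [mem_filter] at hρ
    rw [mem_BadS]
    intro hDT
    apply hρ.2
    have h1 := DT_add (cd q) (UF.medC κ κ' u) hDT
    have h2 : (bF K' fun y => Fml.eval (xT (Wd (cd q) ρ y)) a) =
        fun y : Fin n → ZMod q => if UF.ev (xT (Wd (cd q) ρ y)) u = true then (1 : K') else 0 := by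
      funext y
      rw [bF_apply, hev]
    rw [h2]
    refine (Deg.of_DT hψ hq0 h1 (D := UF.DB κ κ' u) ?_).mono ?_
    · rintro H w ⟨hA, hM⟩
      exact UF.leaf_deg hψ hq0 hκ1 ρ H w u hA hM
    · have h3 := UF.card_medC κ κ' u
      have h4 : 8 * a1 * (UF.medC κ κ' u).card ≤ n :=
        (Nat.mul_le_mul_left _ h3).trans hmass
      have h5 : 8 * a1 * (n / (8 * a1)) ≤ n := Nat.mul_div_le _ _
      rw [Nat.le_div_iff_mul_le (by omega)]
      nlinarith
  calc (univ.filter fun ρ : Fin n → Bool × Tq q =>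
      ¬ Deg ψ (n / a1) (bF K' fun y => Fml.eval (xT (Wd (cd q) ρ y)) a)).card * 2 ^ (n / b1)
      ≤ (BadS (cd q) (UF.gl κ κ' u) (0 : Fin n → ZMod q) (n / (8 * a1))).card *
        2 ^ (n / bf κ) := by
        apply Nat.mul_le_mul (card_le_card hsub)
        apply Nat.pow_le_pow_right (by norm_num)
        exact Nat.div_le_div_left (hb1i i hiM) (hbf κ)
    _ ≤ _ := hclaim

end Pool.Agent.Work.MP_c04246_lc.X
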